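import Pool.Agent.Lib.MP_3e612f_nt.MR.Defs

/-! Preparations for the last scale: continuity, boundedness and sampling at well spaced points. -/

set_option autoImplicit false

namespace Pool.Agent.Lib.MP_3e612f_nt.MR

open Finset MeasureTheory

theorem fin_ph_norm (n : ℕ) (t : ℝ) : ‖ph n t‖ = 1 := by
  unfold ph
  rw [← neg_mul, ← Complex.ofReal_neg, Complex.norm_exp_ofReal_mul_I]

theorem fin_ph_cont (n : ℕ) : Continuous (ph n) := by
  unfold ph
  fun_prop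

theorem fin_DD_cont (m : ℕ) (a : ZMod m) (X : ℝ) : Continuous (DD m a X) := by
  unfold DD
  refine continuous_const.mul (continuous_finsetSum _ fun n _ => continuous_const.mul (fin_ph_cont n))

theorem fin_QQ_cont (m : ℕ) (b : ZMod m) (H v : ℕ) : Continuous (QQ m b H v) := by
  unfold QQ
  refine continuous_const.mul (continuous_finsetSum _ fun n _ => fin_ph_cont n)

theorem fin_gw_cont (η : ℝ) : Continuous (gw η) := by
  unfold gw
  fun_prop

theorem fin_gw_nonneg (η t : ℝ) : 0 ≤ gw η t := (Real.exp_pos _).le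

theorem fin_gw_le_one (η t : ℝ) : gw η t ≤ 1 := by
  unfold gw
  rw [Real.exp_le_one_iff]
  have := sq_nonneg (η * t)
  linarith

theorem fin_gw_int (η : ℝ) (hη : 0 < η) : Integrable (gw η) := by
  have h := integrable_exp_neg_mul_sq (b := η ^ 2 / 2) (by positivity)
  refine h.congr (Filter.Eventually.of_forall fun t => ?_)
  unfold gw
  ring_nf

/-- boundedness -/
theorem fin_DD_bdd (m : ℕ) (a : ZMod m) (X : ℝ) : ∃ K : ℝ, ∀ t, ‖DD m a X t‖ ≤ K := by
  refine ⟨‖((1 / X : ℝ) : ℂ)‖ * ∑ n ∈ Icc 1 ⌊21 * X⌋₊, ‖((co m a X n : ℝ) : ℂ)‖, fun t => ?_⟩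
  unfold DD
  rw [norm_mul]
  refine mul_le_mul_of_nonneg_left ?_ (norm_nonneg _)
  refine (norm_sum_le _ _).trans (Finset.sum_le_sum fun n _ => ?_)
  rw [norm_mul, fin_ph_norm, mul_one]

theorem fin_QQ_bdd (m : ℕ) (b : ZMod m) (H v : ℕ) : ∃ K : ℝ, ∀ t, ‖QQ m b H v t‖ ≤ K := by
  refine ⟨‖((Real.exp (-((v : ℝ) / H)) : ℝ) : ℂ)‖ *
    ∑ p ∈ (pw H v).filter (fun p => ((p : ℕ) : ZMod m) = b), 1, fun t => ?_⟩
  unfold QQ
  rw [norm_mul]
  refine mul_le_mul_of_nonneg_left ?_ (norm_nonneg _)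
  refine (norm_sum_le _ _).trans ?_
  refine Finset.sum_le_sum fun n _ => ?_
  rw [fin_ph_norm]

theorem fin_bdd_add (f g : ℝ → ℂ) (hf : ∃ K : ℝ, ∀ t, ‖f t‖ ≤ K) (hg : ∃ K : ℝ, ∀ t, ‖g t‖ ≤ K) :
    ∃ K : ℝ, ∀ t, ‖f t + g t‖ ≤ K := by
  obtain ⟨K, hK⟩ := hf
  obtain ⟨L, hL⟩ := hg
  exact ⟨K + L, fun t => (norm_add_le _ _).trans (add_le_add (hK t) (hL t))⟩

theorem fin_bdd_mul (f g : ℝ → ℂ) (hf : ∃ K : ℝ, ∀ t, ‖f t‖ ≤ K) (hg : ∃ K : ℝ, ∀ t, ‖g t‖ ≤ K) :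
    ∃ K : ℝ, ∀ t, ‖f t * g t‖ ≤ K := by
  obtain ⟨K, hK⟩ := hf
  obtain ⟨L, hL⟩ := hg
  refine ⟨K * L, fun t => ?_⟩
  rw [norm_mul]
  exact mul_le_mul (hK t) (hL t) (norm_nonneg _) ((norm_nonneg _).trans (hK t))

theorem fin_bdd_sum {ι : Type*} (s : Finset ι) (f : ι → ℝ → ℂ) (hf : ∀ i ∈ s, ∃ K : ℝ, ∀ t, ‖f i t‖ ≤ K) :
    ∃ K : ℝ, ∀ t, ‖∑ i ∈ s, f i t‖ ≤ K := by
  classical
  induction s using Finset.induction_on with
  | empty => exact ⟨0, fun t => by simp⟩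
  | insert i s hi ih =>
    obtain ⟨K, hK⟩ := ih fun j hj => hf j (Finset.mem_insert_of_mem hj)
    obtain ⟨L, hL⟩ := hf i (Finset.mem_insert_self i s)
    refine ⟨L + K, fun t => ?_⟩
    rw [Finset.sum_insert hi]
    exact (norm_add_le _ _).trans (add_le_add (hL t) (hK t))

theorem fin_int_sq (f : ℝ → ℂ) (hf : Continuous f) (hb : ∃ K : ℝ, ∀ t, ‖f t‖ ≤ K) (η : ℝ) (hη : 0 < η) :
    Integrable (fun t : ℝ => ‖f t‖ ^ 2 * gw η t) := by
  obtain ⟨K, hK⟩ := hb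
  refine ((fin_gw_int η hη).const_mul (K ^ 2)).mono' ?_ (Filter.Eventually.of_forall fun t => ?_)
  · exact ((hf.norm.pow 2).mul (fin_gw_cont η)).aestronglyMeasurable
  · rw [Real.norm_eq_abs, abs_of_nonneg (mul_nonneg (sq_nonneg _) (fin_gw_nonneg η t))]
    refine mul_le_mul_of_nonneg_right ?_ (fin_gw_nonneg η t)
    exact pow_le_pow_left₀ (norm_nonneg _) (hK t) 2

theorem fin_sm_closed (m : ℕ) (α : ℝ) (H v₀ v₁ : ℕ) : IsClosed (sm m α H v₀ v₁) := by
  have h : sm m α H v₀ v₁ = ⋂ v ∈ Ico v₀ v₁, ⋂ b : (ZMod m)ˣ,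
      {t | ‖QQ m (b : ZMod m) H v t‖ ≤ Real.exp (-(α * ((v : ℝ) / H)))} := by
    ext t
    simp [sm]
  rw [h]
  refine isClosed_biInter fun v _ => isClosed_iInter fun b => ?_
  exact isClosed_le (fin_QQ_cont m _ H v).norm continuous_const

/-- one unit interval -/
theorem fin_sample_one (f : ℝ → ℝ) (hf : Continuous f) (h0 : ∀ t, 0 ≤ f t) (G : Set ℝ) (hG : MeasurableSet G)
    (k : ℤ) (hne : (G ∩ Set.Ico (k : ℝ) (k + 1)).Nonempty) :
    ∃ t ∈ G ∩ Set.Ico (k : ℝ) (k + 1), ∫ s in G ∩ Set.Ico (k : ℝ) (k + 1), f s ≤ f t := by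
  set J : Set ℝ := G ∩ Set.Ico (k : ℝ) (k + 1) with hJ
  have hJm : MeasurableSet J := hG.inter measurableSet_Ico
  have hvol : volume J ≤ 1 := by
    refine (measure_mono Set.inter_subset_right).trans ?_
    rw [Real.volume_Ico]
    norm_num
  have hfin : volume J ≠ ⊤ := ne_top_of_le_ne_top ENNReal.one_ne_top hvol
  by_cases hz : volume J = 0
  · obtain ⟨t, ht⟩ := hne
    refine ⟨t, ht, ?_⟩
    rw [Measure.restrict_eq_zero.2 hz, integral_zero_measure]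
    exact h0 t
  · have hint : IntegrableOn f J := by
      refine IntegrableOn.mono_set (hf.integrableOn_Icc (a := (k : ℝ)) (b := k + 1)) ?_
      exact Set.inter_subset_right.trans Set.Ico_subset_Icc_self
    obtain ⟨t, ht, h1⟩ := exists_setAverage_le hz hfin hint
    refine ⟨t, ht, le_trans ?_ h1⟩
    rw [setAverage_eq, smul_eq_mul]
    have hpos : 0 < (volume J).toReal := ENNReal.toReal_pos hz hfin
    have hle : (volume J).toReal ≤ 1 := by
      have := ENNReal.toReal_mono ENNReal.one_ne_top hvol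
      simpa using this
    have hnn : 0 ≤ ∫ s in J, f s := integral_nonneg fun s => h0 s
    have h2 : 1 ≤ (volume.real J)⁻¹ := by
      unfold Measure.real
      exact (one_le_inv₀ hpos).2 hle
    nlinarith

/-- sampling -/
theorem fin_sample (f : ℝ → ℝ) (hf : Continuous f) (h0 : ∀ t, 0 ≤ f t) (G : Set ℝ) (hG : MeasurableSet G)
    (K : Finset ℤ) (hK : ∀ t ∈ G, ⌊t⌋ ∈ K) (C : ℝ)
    (hC : ∀ S : Finset ℝ, (∀ t ∈ S, t ∈ G) → (∀ t ∈ S, ∀ t' ∈ S, t ≠ t' → 1 ≤ |t - t'|) →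
      S.card ≤ K.card → ∑ t ∈ S, f t ≤ C) : ∫ t in G, f t ≤ 2 * C := by
  classical
  set K' : Finset ℤ := K.filter (fun k : ℤ => (G ∩ Set.Ico (k : ℝ) (k + 1)).Nonempty) with hK'
  have hex : ∀ k : ℤ, ∃ t : ℝ, k ∈ K' → (t ∈ G ∩ Set.Ico (k : ℝ) (k + 1) ∧
      ∫ s in G ∩ Set.Ico (k : ℝ) (k + 1), f s ≤ f t) := by
    intro k
    by_cases hk : k ∈ K'
    · obtain ⟨t, h1, h2⟩ := fin_sample_one f hf h0 G hG k (Finset.mem_filter.1 hk).2
      exact ⟨t, fun _ => ⟨h1, h2⟩⟩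
    · exact ⟨0, fun h => absurd h hk⟩
  choose τ hτ using hex
  have hun : G = ⋃ k ∈ K', (G ∩ Set.Ico (k : ℝ) (k + 1)) := by
    ext t
    constructor
    · intro ht
      have hfl : t ∈ G ∩ Set.Ico ((⌊t⌋ : ℤ) : ℝ) (⌊t⌋ + 1) :=
        ⟨ht, Int.floor_le t, Int.lt_floor_add_one t⟩
      refine Set.mem_iUnion₂.2 ⟨⌊t⌋, ?_, hfl⟩
      exact Finset.mem_filter.2 ⟨hK t ht, ⟨t, hfl⟩⟩
    · intro ht
      obtain ⟨k, _, h⟩ := Set.mem_iUnion₂.1 ht
      exact h.1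
  have hinj : ∀ k ∈ K', ∀ k' ∈ K', τ k = τ k' → k = k' := by
    intro k hk k' hk' he
    have h1 := (hτ k hk).1.2
    have h2 := (hτ k' hk').1.2
    rw [← he] at h2
    have h3 : ⌊τ k⌋ = k := Int.floor_eq_iff.2 h1
    have h4 : ⌊τ k⌋ = k' := Int.floor_eq_iff.2 h2
    rw [← h3, h4]
  have hsum : ∫ t in G, f t = ∑ k ∈ K', ∫ t in G ∩ Set.Ico (k : ℝ) (k + 1), f t := by
    conv_lhs => rw [hun]
    refine integral_biUnion_finset K' (fun k _ => hG.inter measurableSet_Ico) ?_ ?_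
    · intro k _ k' _ hne
      refine Set.disjoint_left.2 fun t h1 h2 => hne ?_
      have h3 : ⌊t⌋ = k := Int.floor_eq_iff.2 h1.2
      have h4 : ⌊t⌋ = k' := Int.floor_eq_iff.2 h2.2
      rw [← h3, h4]
    · intro k _
      refine IntegrableOn.mono_set (hf.integrableOn_Icc (a := (k : ℝ)) (b := k + 1)) ?_
      exact Set.inter_subset_right.trans Set.Ico_subset_Icc_self
  have hpar : ∀ P : ℤ → Prop, (∀ k k' : ℤ, P k → P k' → k < k' → k + 2 ≤ k') → [DecidablePred P] →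
      ∑ k ∈ K'.filter P, f (τ k) ≤ C := by
    intro P hP _
    have himg : ∑ t ∈ (K'.filter P).image τ, f t = ∑ k ∈ K'.filter P, f (τ k) := by
      refine Finset.sum_image ?_
      intro k hk k' hk' he
      exact hinj k (Finset.mem_filter.1 hk).1 k' (Finset.mem_filter.1 hk').1 he
    rw [← himg]
    refine hC _ ?_ ?_ ?_
    · intro t ht
      obtain ⟨k, hk, rfl⟩ := Finset.mem_image.1 ht
      exact (hτ k (Finset.mem_filter.1 hk).1).1.1
    · intro t ht t' ht' hne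
      obtain ⟨k, hk, rfl⟩ := Finset.mem_image.1 ht
      obtain ⟨k', hk', rfl⟩ := Finset.mem_image.1 ht'
      have h1 := (hτ k (Finset.mem_filter.1 hk).1).1.2
      have h2 := (hτ k' (Finset.mem_filter.1 hk').1).1.2
      have hkk : k ≠ k' := fun h => hne (by rw [h])
      rcases lt_or_gt_of_ne hkk with hlt | hlt
      · have h3 : ((k + 2 : ℤ) : ℝ) ≤ (k' : ℝ) :=
          Int.cast_le.2 (hP k k' (Finset.mem_filter.1 hk).2 (Finset.mem_filter.1 hk').2 hlt)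
        push_cast at h3
        rw [abs_sub_comm]
        have h4 := h1.2
        have h5 := h2.1
        exact le_trans (by linarith) (le_abs_self _)
      · have h3 : ((k' + 2 : ℤ) : ℝ) ≤ (k : ℝ) :=
          Int.cast_le.2 (hP k' k (Finset.mem_filter.1 hk').2 (Finset.mem_filter.1 hk).2 hlt)
        push_cast at h3
        have h4 := h2.2
        have h5 := h1.1
        exact le_trans (by linarith) (le_abs_self _)
    · refine Finset.card_image_le.trans ?_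
      exact (Finset.card_le_card (Finset.filter_subset _ _)).trans (Finset.card_le_card (Finset.filter_subset _ _))
  have h1 := hpar (fun k => Even k) (by
    intro k k' h h' hlt
    obtain ⟨r, hr⟩ := h
    obtain ⟨r', hr'⟩ := h'
    omega)
  have h2 := hpar (fun k => ¬ Even k) (by
    intro k k' h h' hlt
    rw [Int.not_even_iff_odd] at h h'
    obtain ⟨r, hr⟩ := h
    obtain ⟨r', hr'⟩ := h'
    omega)
  have h3 : ∑ k ∈ K', f (τ k) ≤ 2 * C := by
    rw [← Finset.sum_filter_add_sum_filter_not K' (fun k => Even k)]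
    linarith
  rw [hsum]
  refine le_trans (Finset.sum_le_sum fun k hk => (hτ k hk).2) h3

end Pool.Agent.Lib.MP_3e612f_nt.MR
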