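import Pool.Agent.Lib.MP_3e612f_nt.MR.CMajA

/-! A majorant of the primes of a window whose Dirichlet polynomial is small at large heights. -/

set_option autoImplicit false

namespace Pool.Agent.Lib.MP_3e612f_nt.MR

open Finset MeasureTheory

/-- the numerical condition on the errors -/
private theorem cmaj_num {L H C1 c ε : ℝ} (hL1 : 1 ≤ L) (hH : 1 ≤ H) (hC1 : 0 < C1) (hc : 0 < c) (hε : 0 < ε)
    (hL : 128 * H * (2 * C1 + 2) / (ε * c ^ 3) ≤ L) :
    H * L * ((2 * C1 * L + 2) * Real.exp (-(c / 2 * L))) ≤ ε := by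
  have hL0 : 0 < L := by linarith
  set x := c * L / 4 with hx
  have hx0 : 0 < x := by positivity
  have h1 : x ^ 2 / 2 ≤ Real.exp x := by
    have := Real.pow_div_factorial_le_exp x hx0.le 2
    simpa using this
  have h2 : x ≤ Real.exp x := by linarith [Real.add_one_le_exp x]
  have h3 : Real.exp (-(c / 2 * L)) * (Real.exp x * Real.exp x) = 1 := by
    rw [← Real.exp_add, ← Real.exp_add, hx]
    rw [show -(c / 2 * L) + (c * L / 4 + c * L / 4) = 0 by ring, Real.exp_zero]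
  have hp := Real.exp_pos (-(c / 2 * L))
  have hxp := Real.exp_pos x
  -- e^{-cL/2} * (x^2/2) * x ≤ 1
  have h4 : Real.exp (-(c / 2 * L)) * (x ^ 2 / 2 * x) ≤ 1 := by
    rw [← h3]
    refine mul_le_mul_of_nonneg_left ?_ hp.le
    exact mul_le_mul h1 h2 hx0.le hxp.le
  have h5 : 128 * H * (2 * C1 + 2) ≤ L * (ε * c ^ 3) := by
    rw [div_le_iff₀ (by positivity)] at hL
    exact hL
  have h6 : H * L * ((2 * C1 * L + 2) * Real.exp (-(c / 2 * L))) ≤
      H * (2 * C1 + 2) * L ^ 2 * Real.exp (-(c / 2 * L)) := by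
    have e1 : 2 * C1 * L + 2 ≤ (2 * C1 + 2) * L := by linarith
    have e2 : H * L * ((2 * C1 * L + 2) * Real.exp (-(c / 2 * L))) ≤
        H * L * (((2 * C1 + 2) * L) * Real.exp (-(c / 2 * L))) := by
      refine mul_le_mul_of_nonneg_left (mul_le_mul_of_nonneg_right e1 hp.le) (by positivity)
    refine e2.trans (le_of_eq (by ring))
  refine h6.trans ?_
  have h7 : L ^ 2 * Real.exp (-(c / 2 * L)) * (c ^ 3 * L) ≤ 128 := by
    have e : Real.exp (-(c / 2 * L)) * (x ^ 2 / 2 * x) = L ^ 2 * Real.exp (-(c / 2 * L)) * (c ^ 3 * L) / 128 := by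
      rw [hx]; ring
    rw [e, div_le_iff₀ (by norm_num)] at h4
    linarith
  have h8 : 0 < c ^ 3 * L := by positivity
  have h9 : H * (2 * C1 + 2) * L ^ 2 * Real.exp (-(c / 2 * L)) * (c ^ 3 * L) ≤ ε * (c ^ 3 * L) := by
    calc H * (2 * C1 + 2) * L ^ 2 * Real.exp (-(c / 2 * L)) * (c ^ 3 * L) =
        H * (2 * C1 + 2) * (L ^ 2 * Real.exp (-(c / 2 * L)) * (c ^ 3 * L)) := by ring
      _ ≤ H * (2 * C1 + 2) * 128 := mul_le_mul_of_nonneg_left h7 (by positivity)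
      _ = 128 * H * (2 * C1 + 2) := by ring
      _ ≤ L * (ε * c ^ 3) := h5
      _ = ε * (c ^ 3 * L) := by ring
  exact le_of_mul_le_mul_right h9 h8

/-- Proof. `Y = e^{v/H}`, `z = ⌊Y^{1/12}⌋`, `w n = 1_{Y < n ≤ e^{1/H} Y} ∑_{d ∣ n} lp d` with `LO.brun`, `b = 0`, level `z^6 ≤ Y^{1/2}`: `w ≥ rgh ≥ 0`, and
`w p ≥ 1` for the primes of the window. The mass is at most `(e^{1/H} - 1) Y C/log z + z^6 ≤ C' Y/v`. For the sum with `n^{-iu}`: `∑_d lp d d^{-iu}
∑_{k ∈ (Y/d, e^{1/H}Y/d]} k^{-iu}`, `osc` with `κ` small in terms of `θ` (`|u| ≤ X^2 ≤ Y^{2/θ}`, `Y/d ≥ Y^{1/2}`; the interval is cut in at most two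
dyadic pieces, end points cost `O(1)`); the main terms `d^{-1+iu} ∫_Y^{e^{1/H}Y} x^{-iu} dx` sum up to at most
`|∑ lp d/d| (4Y/|u|) ≤ C Y/(|u| log z) ≤ C H Y/(v |u|)` (`∑ lp d/d ≥ 0` because `w ≥ 0` on average), and the errors are at most
`∑_{d ≤ Y^{1/2}} C (Y/d)^{1-c} ≤ C Y^{1-c/2} ≤ ε Y/v`. -/
theorem cmaj : ∃ C : ℝ, 0 < C ∧ ∀ (θ ε : ℝ) (H : ℕ), 0 < θ → 0 < ε → 1 ≤ H → ∃ X₀ : ℝ, ∀ X : ℝ, X₀ ≤ X → ∀ v : ℕ,
    θ * Real.log X ≤ (v : ℝ) / H → (v : ℝ) / H ≤ Real.log X → ∃ w : ℕ → ℝ, (∀ n, 0 ≤ w n) ∧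
      (∀ p ∈ pw H v, 1 ≤ w p) ∧
      (∑ n ∈ Icc 1 ⌊Real.exp (((v : ℝ) + 1) / H)⌋₊, w n ≤ C * (Real.exp ((v : ℝ) / H) / v)) ∧
      ∀ u : ℝ, 1 ≤ |u| → |u| ≤ X ^ 2 →
        ‖∑ n ∈ Icc 1 ⌊Real.exp (((v : ℝ) + 1) / H)⌋₊, ((w n : ℝ) : ℂ) * ph n u‖ ≤
          Real.exp ((v : ℝ) / H) / v * (C * H / |u| + ε) := by
  obtain ⟨C0, hC0, hbrun⟩ := LO.brun
  refine ⟨96 * C0 + 1, by positivity, fun θ ε H hθ hε hH => ?_⟩
  obtain ⟨c, C1, hc, hc2, hC1, hosc⟩ := osc4 (θ / 6) (by positivity)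
  have hHr : (1 : ℝ) ≤ H := by exact_mod_cast hH
  set L0 : ℝ := 24 + 8 * H + 128 * H * (2 * C1 + 2) / (ε * c ^ 3) with hL0
  have hL0a : 0 ≤ 128 * H * (2 * C1 + 2) / (ε * c ^ 3) := by positivity
  refine ⟨Real.exp (L0 / θ), fun X hX v hv1 hv2 => ?_⟩
  have hXpos : 0 < X := (Real.exp_pos _).trans_le hX
  have hlogX : L0 / θ ≤ Real.log X := (Real.le_log_iff_exp_le hXpos).2 hX
  set L : ℝ := (v : ℝ) / H with hL
  have hLL0 : L0 ≤ L := by
    have : L0 ≤ θ * Real.log X := by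
      rw [div_le_iff₀ hθ] at hlogX; linarith
    linarith
  have hL24 : 24 ≤ L := by linarith [hL0a, show (0 : ℝ) ≤ 8 * H by positivity]
  have hL8H : 8 * H ≤ L := by linarith [hL0a]
  have hLnum : 128 * H * (2 * C1 + 2) / (ε * c ^ 3) ≤ L := by linarith [show (0 : ℝ) ≤ 8 * H by positivity]
  have hLpos : 0 < L := by linarith
  have hHpos : (0 : ℝ) < H := by linarith
  have hvL : (v : ℝ) = H * L := by rw [hL]; field_simp
  have hvpos : (0 : ℝ) < v := by rw [hvL]; positivity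
  set Y : ℝ := Real.exp L with hY
  set Y' : ℝ := Real.exp (((v : ℝ) + 1) / H) with hY'
  have hYpos : 0 < Y := Real.exp_pos _
  have hYY' : Y' = Y * Real.exp (1 / H) := by
    rw [hY', hY, ← Real.exp_add, hL]; congr 1; ring
  have h1H : 1 / (H : ℝ) ≤ 1 := by rw [div_le_one hHpos]; exact hHr
  have h1H0 : 0 < 1 / (H : ℝ) := by positivity
  have hYle : Y ≤ Y' := by
    rw [hYY']
    exact le_mul_of_one_le_right hYpos.le (Real.one_le_exp h1H0.le)
  have hY3 : Y' ≤ 3 * Y := by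
    rw [hYY']
    have h1 : Real.exp (1 / (H : ℝ)) ≤ Real.exp 1 := Real.exp_le_exp.2 h1H
    have h2 := Real.exp_one_lt_d9
    have h3 := mul_le_mul_of_nonneg_left (h1.trans (by linarith : Real.exp 1 ≤ 3)) hYpos.le
    linarith
  have hYd : Y' - Y ≤ 2 * Y / H := by
    have h1 := Real.abs_exp_sub_one_le (x := 1 / (H : ℝ)) (by rw [abs_of_pos h1H0]; exact h1H)
    rw [abs_of_pos h1H0] at h1
    have h2 := le_abs_self (Real.exp (1 / (H : ℝ)) - 1)
    rw [hYY']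
    calc Y * Real.exp (1 / H) - Y = Y * (Real.exp (1 / H) - 1) := by ring
      _ ≤ Y * (2 * (1 / H)) := mul_le_mul_of_nonneg_left (h2.trans h1) hYpos.le
      _ = 2 * Y / H := by ring
  -- the sieve
  set z : ℕ := ⌊Real.exp (L / 12)⌋₊ with hz
  have hz1 : (z : ℝ) ≤ Real.exp (L / 12) := Nat.floor_le (Real.exp_pos _).le
  have hz2 : Real.exp (L / 24) ≤ z := by
    have h1 : Real.exp (L / 12) < z + 1 := Nat.lt_floor_add_one _
    have h2 : Real.exp (L / 12) = Real.exp (L / 24) * Real.exp (L / 24) := by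
      rw [← Real.exp_add]; congr 1; ring
    have h3 : 2 ≤ Real.exp (L / 24) := by
      have := Real.add_one_le_exp (L / 24)
      linarith
    rw [h2] at h1
    have h4 := mul_le_mul_of_nonneg_right h3 (Real.exp_pos (L / 24)).le
    linarith
  have hz2' : (2 : ℝ) ≤ z := by
    have := Real.add_one_le_exp (L / 24)
    linarith
  have hz2n : 2 ≤ z := by exact_mod_cast hz2'
  have hlz : L / 24 ≤ Real.log z := (Real.le_log_iff_exp_le (by linarith)).2 hz2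
  obtain ⟨lp, le, b1, b2, b3, b4, b5, b6, b7⟩ := hbrun z 0 (by omega)
  set D : ℕ := z ^ (4 * 0 + 6) with hD
  have hDr : (D : ℝ) = (z : ℝ) ^ 6 := by rw [hD]; push_cast; norm_num
  have hD1 : (D : ℝ) ≤ Real.exp (L / 2) := by
    rw [hDr]
    calc (z : ℝ) ^ 6 ≤ Real.exp (L / 12) ^ 6 := pow_le_pow_left₀ (Nat.cast_nonneg _) hz1 6
      _ = Real.exp (L / 2) := by rw [← Real.exp_nat_mul]; congr 1; push_cast; ring
  have hDpos : (1 : ℝ) ≤ D := by
    rw [hDr]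
    exact one_le_pow₀ (by linarith)
  have hD2 : (D : ℝ) ^ 2 ≤ Y := by
    calc (D : ℝ) ^ 2 ≤ Real.exp (L / 2) ^ 2 := pow_le_pow_left₀ (Nat.cast_nonneg _) hD1 2
      _ = Y := by rw [hY, ← Real.exp_nat_mul]; congr 1; push_cast; ring
  set S : ℝ := ∑ d ∈ Icc 1 D, lp d / d with hS
  have hW0 : ∀ n, 0 ≤ ∑ d ∈ Icc 1 D, if d ∣ n then lp d else 0 := fun n => (LO.rgh_nonneg z n).trans (b4 n)
  have hS0 : 0 ≤ S := weight_nonneg b1 hW0
  have hS1 : S ≤ 24 * C0 / L := by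
    have h1 := LO.Vz_le hz2n
    have h2 : 1 / Real.log z ≤ 24 / L := by
      rw [div_le_div_iff₀ (by linarith) hLpos]
      linarith
    calc S ≤ C0 * LO.Vz z := b6
      _ ≤ C0 * (24 / L) := mul_le_mul_of_nonneg_left (h1.trans h2) hC0.le
      _ = _ := by ring
  -- sizes
  have hHY : (H : ℝ) ≤ Y := by
    have := Real.add_one_le_exp L
    linarith
  have hvY : (v : ℝ) ≤ Real.exp (L / 2) := by
    have h1 := Real.pow_div_factorial_le_exp (L / 2) (by positivity) 2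
    have h2 : (L / 2) ^ 2 / ((2 : ℕ).factorial : ℝ) = L * L / 8 := by
      norm_num [Nat.factorial]; ring
    rw [h2] at h1
    rw [hvL]
    have h3 := mul_le_mul_of_nonneg_right hL8H hLpos.le
    linarith
  have hexp2 : Y = Real.exp (L / 2) * Real.exp (L / 2) := by
    rw [hY, ← Real.exp_add]; congr 1; ring
  have hDY : (D : ℝ) ≤ Y / v := by
    rw [le_div_iff₀ hvpos, hexp2]
    exact mul_le_mul hD1 hvY hvpos.le (Real.exp_pos _).le
  have hYfl : 1 ≤ ⌊Y⌋₊ := by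
    rw [Nat.one_le_floor_iff]
    exact Real.one_le_exp hLpos.le
  have hfilt : ∀ {E : Type} [AddCommMonoid E] (F : ℕ → E),
      ∑ n ∈ Icc 1 ⌊Y'⌋₊, (if Y < n then F n else 0) = ∑ n ∈ Ioc ⌊Y⌋₊ ⌊Y'⌋₊, F n := by
    intro E _ F
    rw [← Finset.sum_filter]
    refine Finset.sum_congr ?_ fun _ _ => rfl
    ext n
    rw [mem_filter, mem_Icc, mem_Ioc, ← Nat.floor_lt hYpos.le]
    constructor
    · rintro ⟨⟨h1, h2⟩, h3⟩; exact ⟨h3, h2⟩
    · rintro ⟨h1, h2⟩; exact ⟨⟨by omega, h2⟩, h1⟩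
  refine ⟨fun n => if Y < n then ∑ d ∈ Icc 1 D, (if d ∣ n then lp d else 0) else 0, ?_, ?_, ?_, ?_⟩
  · intro n
    show 0 ≤ if Y < n then ∑ d ∈ Icc 1 D, (if d ∣ n then lp d else 0) else 0
    split_ifs
    · exact hW0 n
    · exact le_rfl
  · intro p hp
    unfold pw at hp
    rw [mem_filter] at hp
    obtain ⟨-, hpp, hpY⟩ := hp
    show 1 ≤ if Y < p then ∑ d ∈ Icc 1 D, (if d ∣ p then lp d else 0) else 0
    rw [if_pos hpY]
    refine le_trans (le_of_eq ?_) (b4 p)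
    rw [LO.rgh_prime hpp]
    have h1 : (z : ℝ) < p := by
      refine lt_of_le_of_lt (hz1.trans ?_) hpY
      exact Real.exp_le_exp.2 (by linarith)
    exact_mod_cast h1
  · rw [hfilt (fun n => ∑ d ∈ Icc 1 D, (if d ∣ n then lp d else 0))]
    have hAB : ⌊Y⌋₊ ≤ ⌊Y'⌋₊ := Nat.floor_le_floor hYle
    have hset : Ioc ⌊Y⌋₊ ⌊Y'⌋₊ = Ico (⌊Y⌋₊ + 1) (⌊Y⌋₊ + 1 + (⌊Y'⌋₊ - ⌊Y⌋₊)) := by
      ext n
      rw [mem_Ioc, mem_Ico]
      omega
    rw [hset]
    refine (LO.sum_dvd_weight _ _ D lp b1).trans ?_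
    have hlen : ((⌊Y'⌋₊ - ⌊Y⌋₊ : ℕ) : ℝ) ≤ 2 * Y / H + 1 := by
      rw [Nat.cast_sub hAB]
      have h1 : (⌊Y'⌋₊ : ℝ) ≤ Y' := Nat.floor_le (Real.exp_pos _).le
      have h2 : Y < (⌊Y⌋₊ : ℝ) + 1 := Nat.lt_floor_add_one _
      linarith
    rw [← hS]
    have h3 : ((⌊Y'⌋₊ - ⌊Y⌋₊ : ℕ) : ℝ) * S ≤ (2 * Y / H + 1) * (24 * C0 / L) :=
      mul_le_mul hlen hS1 hS0 (by positivity)
    have h4 : (2 * Y / H + 1) * (24 * C0 / L) ≤ 72 * C0 * (Y / v) := by
      have e1 : (2 * Y / H + 1) * (24 * C0 / L) = (2 * Y + H) * (24 * C0) / v := by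
        rw [hvL]; field_simp
      rw [e1, mul_div_assoc', div_le_div_iff_of_pos_right hvpos]
      have e2 := mul_le_mul_of_nonneg_left hHY hC0.le
      linarith
    have h5 : 0 ≤ C0 * (Y / v) := by positivity
    linarith
  · intro u hu1 hu2
    have e1 : ∑ n ∈ Icc 1 ⌊Y'⌋₊, (((if Y < n then ∑ d ∈ Icc 1 D, (if d ∣ n then lp d else 0) else 0 : ℝ)) : ℂ) * ph n u =
        ∑ n ∈ Ioc ⌊Y⌋₊ ⌊Y'⌋₊, (((∑ d ∈ Icc 1 D, if d ∣ n then lp d else 0 : ℝ)) : ℂ) * ph n u := by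
      rw [← hfilt (fun n => (((∑ d ∈ Icc 1 D, if d ∣ n then lp d else 0 : ℝ)) : ℂ) * ph n u)]
      refine Finset.sum_congr rfl fun n _ => ?_
      split_ifs <;> simp
    rw [e1]
    have hu0 : 0 < |u| := by linarith
    have hXL : X ^ 2 ≤ Real.exp (2 * L / θ) := by
      have h1 : Real.log X ≤ L / θ := by rw [le_div_iff₀ hθ]; linarith
      have h2 : X ≤ Real.exp (L / θ) := (Real.log_le_iff_le_exp hXpos).1 h1
      calc X ^ 2 ≤ Real.exp (L / θ) ^ 2 := pow_le_pow_left₀ hXpos.le h2 2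
        _ = _ := by rw [← Real.exp_nat_mul]; congr 1; push_cast; ring
    have hMd : ∀ d ∈ Icc 1 D, 3 ≤ ⌊Y⌋₊ / d ∧ |u| ≤ ((⌊Y⌋₊ / d : ℕ) : ℝ) ^ (1 / (θ / 6)) := by
      intro d hd
      rw [mem_Icc] at hd
      have hd0 : (0 : ℝ) < d := by exact_mod_cast hd.1
      have h1 : ⌊Y⌋₊ / d = ⌊Y / d⌋₊ := (Nat.floor_div_natCast Y d).symm
      have h2 : Real.exp (L / 2) ≤ Y / d := by
        rw [le_div_iff₀ hd0, hexp2]
        refine mul_le_mul_of_nonneg_left ?_ (Real.exp_pos _).le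
        exact le_trans (by exact_mod_cast hd.2) hD1
      have h3 : Real.exp (L / 3) ≤ ((⌊Y⌋₊ / d : ℕ) : ℝ) := by
        have h4 : Y / d < ((⌊Y⌋₊ / d : ℕ) : ℝ) + 1 := by rw [h1]; exact Nat.lt_floor_add_one _
        set s := Real.exp (L / 6) with hs
        have hs2 : 2 ≤ s := by
          have := Real.add_one_le_exp (L / 6)
          linarith
        have e2 : Real.exp (L / 2) = s ^ 3 := by
          rw [hs, ← Real.exp_nat_mul]; congr 1; push_cast; ring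
        have e3 : Real.exp (L / 3) = s ^ 2 := by
          rw [hs, ← Real.exp_nat_mul]; congr 1; push_cast; ring
        rw [e2] at h2
        rw [e3]
        have e4 : 2 * s ^ 2 ≤ s ^ 3 := by
          have := mul_le_mul_of_nonneg_right hs2 (sq_nonneg s)
          calc 2 * s ^ 2 ≤ s * s ^ 2 := this
            _ = s ^ 3 := by ring
        have e5 : 1 ≤ s ^ 2 := one_le_pow₀ (by linarith)
        linarith
      constructor
      · have h5 : (3 : ℝ) ≤ ((⌊Y⌋₊ / d : ℕ) : ℝ) := by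
          have := Real.add_one_le_exp (L / 3)
          linarith
        exact_mod_cast h5
      · refine (hu2.trans hXL).trans ?_
        calc Real.exp (2 * L / θ) = Real.exp (L / 3) ^ (1 / (θ / 6)) := by
              rw [← Real.exp_mul]; congr 1; field_simp; ring
          _ ≤ _ := Real.rpow_le_rpow (Real.exp_pos _).le h3 (by positivity)
    have hcore := core b1 (Y' := Y') hc hC1 (fun M M' h1 h2 h3 h4 => hosc M M' u h1 h2 h3 hu1 h4) (by linarith)
      hYpos hYle hY3 hD2 hMd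
    refine hcore.trans ?_
    rw [← hS, abs_of_nonneg hS0]
    have hI : ‖∫ x in Y..Y', xf u x‖ ≤ 4 * Y / |u| := by
      have h1 := osc_int Y Y' hYpos hYle u (abs_pos.1 hu0)
      refine le_trans h1 ?_
      rw [div_le_div_iff_of_pos_right hu0]
      linarith
    have hm : S * ‖∫ x in Y..Y', xf u x‖ ≤ Y / v * (96 * C0 * H / |u|) := by
      calc S * ‖∫ x in Y..Y', xf u x‖ ≤ 24 * C0 / L * (4 * Y / |u|) :=
            mul_le_mul hS1 hI (norm_nonneg _) (by positivity)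
        _ = Y / v * (96 * C0 * H / |u|) := by rw [hvL]; field_simp; ring
    have hlogD : Real.log D ≤ L / 2 := by
      rw [Real.log_le_iff_le_exp (by linarith)]
      exact hD1
    have hYc : Y ^ (1 - c / 2) = Y * Real.exp (-(c / 2 * L)) := by
      rw [hY, ← Real.exp_mul, ← Real.exp_add]; congr 1; ring
    have hDc : (D : ℝ) ≤ Y * Real.exp (-(c / 2 * L)) := by
      refine hD1.trans ?_
      rw [hY, ← Real.exp_add]
      apply Real.exp_le_exp.2
      have h3 := mul_le_mul_of_nonneg_right (by linarith : c / 2 ≤ 1 / 2) hLpos.le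
      linarith
    have hexpc := Real.exp_pos (-(c / 2 * L))
    have herr : C1 * Y ^ (1 - c / 2) * (1 + Real.log D) + 2 * D ≤ Y / v * ε := by
      have h1 : C1 * Y ^ (1 - c / 2) * (1 + Real.log D) + 2 * D ≤
          Y * ((2 * C1 * L + 2) * Real.exp (-(c / 2 * L))) := by
        rw [hYc]
        have h2 : 1 + Real.log D ≤ 2 * L := by linarith
        have h3 : C1 * (Y * Real.exp (-(c / 2 * L))) * (1 + Real.log D) ≤
            C1 * (Y * Real.exp (-(c / 2 * L))) * (2 * L) := mul_le_mul_of_nonneg_left h2 (by positivity)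
        have h4 : Y * ((2 * C1 * L + 2) * Real.exp (-(c / 2 * L))) =
            C1 * (Y * Real.exp (-(c / 2 * L))) * (2 * L) + 2 * (Y * Real.exp (-(c / 2 * L))) := by ring
        rw [h4]
        linarith
      refine h1.trans ?_
      have h4 := cmaj_num (L := L) (H := H) (by linarith) hHr hC1 hc hε hLnum
      rw [show Y / v * ε = Y * ε / v by ring, le_div_iff₀ hvpos, hvL]
      calc Y * ((2 * C1 * L + 2) * Real.exp (-(c / 2 * L))) * (H * L) =
          Y * (H * L * ((2 * C1 * L + 2) * Real.exp (-(c / 2 * L)))) := by ring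
        _ ≤ Y * ε := mul_le_mul_of_nonneg_left h4 hYpos.le
    have hfin : Y / v * (96 * C0 * H / |u|) ≤ Y / v * ((96 * C0 + 1) * H / |u|) := by
      refine mul_le_mul_of_nonneg_left ?_ (by positivity)
      gcongr
      linarith
    calc S * ‖∫ x in Y..Y', xf u x‖ + (C1 * Y ^ (1 - c / 2) * (1 + Real.log D) + 2 * D) ≤
        Y / v * ((96 * C0 + 1) * H / |u|) + Y / v * ε := add_le_add (hm.trans hfin) herr
      _ = _ := by ring

end Pool.Agent.Lib.MP_3e612f_nt.MR
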