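import Pool.Agent.Lib.MP_3e612f_nt.MR.Defs
import Pool.Agent.Lib.MP_629a14_nt.Rob.PiAP

/-! Primes in the windows and residue classes. -/

set_option autoImplicit false

namespace Pool.Agent.Lib.MP_3e612f_nt.MR

open Finset

private theorem pwC_split (P : ℕ → Prop) [DecidablePred P] {A B : ℕ} (h : A ≤ B) :
    ((Ioc A B).filter P).card + ((Icc 1 A).filter P).card = ((Icc 1 B).filter P).card := by
  rw [← card_union_of_disjoint]
  · congr 1
    ext p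
    simp only [mem_union, mem_filter, mem_Icc, mem_Ioc]
    constructor
    · rintro (⟨⟨h1, h2⟩, h3⟩ | ⟨⟨h1, h2⟩, h3⟩)
      · exact ⟨⟨by omega, h2⟩, h3⟩
      · exact ⟨⟨h1, by omega⟩, h3⟩
    · rintro ⟨⟨h1, h2⟩, h3⟩
      rcases le_or_gt p A with h4 | h4
      · exact Or.inr ⟨⟨h1, h4⟩, h3⟩
      · exact Or.inl ⟨⟨h4, h2⟩, h3⟩
  · rw [disjoint_left]
    intro p hp hp'
    simp only [mem_filter, mem_Icc, mem_Ioc] at hp hp'
    omega

private theorem pwC_eq (m H v : ℕ) [NeZero m] (b : ZMod m) :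
    (pw H v).filter (fun p => ((p : ℕ) : ZMod m) = b) =
      (Ioc ⌊Real.exp ((v : ℝ) / H)⌋₊ ⌊Real.exp (((v : ℝ) + 1) / H)⌋₊).filter
        (fun n => n.Prime ∧ n ≡ b.val [MOD m]) := by
  ext p
  rw [pw, mem_filter, mem_filter, mem_Icc, mem_filter, mem_Ioc, Nat.floor_lt (Real.exp_pos _).le,
    ← ZMod.natCast_eq_natCast_iff, ZMod.natCast_zmod_val]
  constructor
  · rintro ⟨⟨⟨h1, h2⟩, h3, h4⟩, h5⟩
    exact ⟨⟨h4, h2⟩, h3, h5⟩
  · rintro ⟨⟨h4, h2⟩, h3, h5⟩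
    exact ⟨⟨⟨h3.one_le, h2⟩, h3, h4⟩, h5⟩

private theorem pwC_one (m : ℕ) [NeZero m] (H : ℕ) (hH : 1 ≤ H) (b : (ZMod m)ˣ) :
    ∃ v₀ : ℕ, ∀ v : ℕ, v₀ ≤ v →
    Real.exp ((v : ℝ) / H) / (2 * m * v) ≤
      (((pw H v).filter (fun p => ((p : ℕ) : ZMod m) = (b : ZMod m))).card : ℝ) := by
  have hm : 1 ≤ m := Nat.one_le_iff_ne_zero.2 (NeZero.ne m)
  have hm1 : (1 : ℝ) ≤ m := by exact_mod_cast hm
  have hm0 : (0 : ℝ) < m := by linarith
  have hH1 : (1 : ℝ) ≤ H := by exact_mod_cast hH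
  have hH0 : (0 : ℝ) < H := by linarith
  obtain ⟨N₀, hN₀⟩ := Pool.Agent.Lib.MP_629a14_nt.Rob.pi_unif m (b : ZMod m).val hm
    (ZMod.val_coe_unit_coprime b) (1 / (24 * (m * H))) (by positivity)
  obtain ⟨v₀, hv₀⟩ := exists_nat_ge ((H : ℝ) * max (8 * (H : ℝ)) ((N₀ : ℝ) + 1))
  refine ⟨max v₀ 4, fun v hv => ?_⟩
  have hv4 : (4 : ℝ) ≤ v := by exact_mod_cast (le_max_right v₀ 4).trans hv
  have hv0 : (0 : ℝ) < v := by linarith
  have hvv : (H : ℝ) * max (8 * (H : ℝ)) ((N₀ : ℝ) + 1) ≤ v :=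
    hv₀.trans (by exact_mod_cast (le_max_left v₀ 4).trans hv)
  have hvJ : max (8 * (H : ℝ)) ((N₀ : ℝ) + 1) ≤ (v : ℝ) / H := by
    rw [le_div_iff₀ hH0, mul_comm]
    exact hvv
  have hadd : ((v : ℝ) + 1) / H = (v : ℝ) / H + 1 / H := by ring
  set x : ℝ := Real.exp ((v : ℝ) / H) with hx
  have hx0 : 0 < x := Real.exp_pos _
  have hxlow : (v : ℝ) / H + 1 ≤ x := Real.add_one_le_exp _
  have hxJ : 8 * (H : ℝ) ≤ x := by
    have := le_max_left (8 * (H : ℝ)) ((N₀ : ℝ) + 1)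
    linarith
  have hxN : (N₀ : ℝ) + 1 ≤ x := by
    have := le_max_right (8 * (H : ℝ)) ((N₀ : ℝ) + 1)
    linarith
  have hy : Real.exp (((v : ℝ) + 1) / H) = x * Real.exp (1 / (H : ℝ)) := by
    rw [hx, ← Real.exp_add, hadd]
  have hJinv : (1 : ℝ) / H ≤ 1 := by
    rw [div_le_one hH0]
    exact hH1
  have hJinv0 : (0 : ℝ) < 1 / H := by positivity
  have he1 : 1 / (H : ℝ) + 1 ≤ Real.exp (1 / (H : ℝ)) := Real.add_one_le_exp _
  have he2 : Real.exp (1 / (H : ℝ)) ≤ 3 := by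
    have h1 := Real.exp_le_exp.2 hJinv
    have h2 := Real.exp_one_lt_d9
    linarith
  rw [pwC_eq]
  set N := ⌊Real.exp (((v : ℝ) + 1) / H)⌋₊ with hN
  set A := ⌊x⌋₊ with hA
  have hN1 : (N : ℝ) ≤ x * Real.exp (1 / (H : ℝ)) := by
    rw [← hy]
    exact Nat.floor_le (Real.exp_pos _).le
  have hN2 : x * Real.exp (1 / (H : ℝ)) < N + 1 := by
    rw [← hy]
    exact Nat.lt_floor_add_one _
  have hA1 : (A : ℝ) ≤ x := Nat.floor_le hx0.le
  have hxe : x * (1 / (H : ℝ) + 1) ≤ x * Real.exp (1 / (H : ℝ)) :=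
    mul_le_mul_of_nonneg_left he1 hx0.le
  have h8 : 8 ≤ x * (1 / (H : ℝ)) := by
    rw [mul_one_div, le_div_iff₀ hH0]
    linarith
  have hNx : x ≤ N := by nlinarith
  have hAN : A ≤ N := by
    have : (A : ℝ) ≤ N := by linarith
    exact_mod_cast this
  have hNN : N₀ ≤ N := by
    have : (N₀ : ℝ) ≤ N := by linarith
    exact_mod_cast this
  have hN0 : (0 : ℝ) < N := lt_of_lt_of_le hx0 hNx
  have hN3 : (N : ℝ) ≤ 3 * x := by nlinarith
  have hlogN : Real.log N ≤ ((v : ℝ) + 1) / H := by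
    rw [Real.log_le_iff_le_exp hN0]
    exact Nat.floor_le (Real.exp_pos _).le
  have g1 := abs_le.1 (hN₀ N hNN N le_rfl)
  have g2 := abs_le.1 (hN₀ N hNN A hAN)
  have hcard := pwC_split (fun n => n.Prime ∧ n ≡ (b : ZMod m).val [MOD m]) hAN
  obtain ⟨c, hc⟩ : ∃ c : ℝ, c = (((Ioc A N).filter
    (fun n => n.Prime ∧ n ≡ (b : ZMod m).val [MOD m])).card : ℝ) := ⟨_, rfl⟩
  have hcc : c + (((Icc 1 A).filter
      (fun n => n.Prime ∧ n ≡ (b : ZMod m).val [MOD m])).card : ℝ) =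
      (((Icc 1 N).filter (fun n => n.Prime ∧ n ≡ (b : ZMod m).val [MOD m])).card : ℝ) := by
    rw [hc]
    exact_mod_cast hcard
  have hc0 : 0 ≤ c := by
    rw [hc]
    exact Nat.cast_nonneg _
  rw [← hc]
  have hφ : (m.totient : ℝ) ≤ m := by exact_mod_cast Nat.totient_le m
  have hφ0 : (0 : ℝ) < m.totient := by exact_mod_cast Nat.totient_pos.2 (by omega)
  have hNA : x * (1 / (H : ℝ)) - 1 ≤ (N : ℝ) - A := by nlinarith
  have hdiv : (x * (1 / (H : ℝ)) - 1) / m ≤ (N : ℝ) / m.totient - (A : ℝ) / m.totient := by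
    rw [← sub_div]
    calc (x * (1 / (H : ℝ)) - 1) / m ≤ ((N : ℝ) - A) / m :=
          div_le_div_of_nonneg_right hNA hm0.le
      _ ≤ ((N : ℝ) - A) / m.totient :=
          div_le_div_of_nonneg_left (by linarith) hφ0 hφ
  obtain ⟨y, hy'⟩ : ∃ y : ℝ, y = x / (m * H) := ⟨_, rfl⟩
  have hy0 : 0 < y := by rw [hy']; positivity
  have e1 : (x * (1 / (H : ℝ)) - 1) / m = y - 1 / m := by
    rw [hy']
    field_simp
  have e2 : 1 / (24 * (m * H)) * (N : ℝ) ≤ y / 8 := by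
    rw [hy']
    have : 1 / (24 * (m * H)) * (N : ℝ) ≤ 1 / (24 * (m * H)) * (3 * x) :=
      mul_le_mul_of_nonneg_left hN3 (by positivity)
    refine this.trans (le_of_eq ?_)
    field_simp
    norm_num
  have e3 : 1 / (m : ℝ) ≤ y / 8 := by
    rw [hy', div_div, div_le_div_iff₀ hm0 (by positivity)]
    have h9 : 8 * (H : ℝ) * m ≤ x * m := mul_le_mul_of_nonneg_right hxJ hm0.le
    nlinarith
  have hlog : 5 / 8 * y ≤ Real.log N * c := by
    have h2 : c = (((Icc 1 N).filter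
        (fun n => n.Prime ∧ n ≡ (b : ZMod m).val [MOD m])).card : ℝ) -
        (((Icc 1 A).filter (fun n => n.Prime ∧ n ≡ (b : ZMod m).val [MOD m])).card : ℝ) := by
      linarith
    rw [h2, mul_sub]
    linarith
  have hfin : 5 / 8 * y ≤ ((v : ℝ) + 1) / H * c :=
    hlog.trans (mul_le_mul_of_nonneg_right hlogN hc0)
  rw [div_le_iff₀ (by positivity)]
  have h10 : x = y * (m * H) := by
    rw [hy']
    field_simp
  have h11 : 5 / 8 * y * (m * H) ≤ ((v : ℝ) + 1) / H * c * (m * H) :=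
    mul_le_mul_of_nonneg_right hfin (by positivity)
  have h12 : ((v : ℝ) + 1) / H * c * (m * H) = (v + 1) * (c * m) := by
    field_simp
  have h13 : 5 / 8 * x ≤ (v + 1) * (c * m) := by
    rw [← h12, h10]
    linarith
  have h14 : 0 ≤ c * m := by positivity
  nlinarith

/-- Prime number theorem in residue classes (`MP_629a14_nt/Kr/Pnt.lean` `pnt_class`, or `Rob/PiAP.lean`) for the interval `(x, e^{1/H} x]`,
`x = e^{v/H}`: it contains `~ x (e^{1/H} - 1)/(φ(m) log x) ≥ e^{v/H}/(φ(m) v)` primes of the class. -/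
theorem pw_class (m : ℕ) [NeZero m] (H : ℕ) (hH : 1 ≤ H) : ∃ v₀ : ℕ, ∀ v : ℕ, v₀ ≤ v → ∀ b : (ZMod m)ˣ,
    Real.exp ((v : ℝ) / H) / (2 * m * v) ≤
      (((pw H v).filter (fun p => ((p : ℕ) : ZMod m) = (b : ZMod m))).card : ℝ) := by
  choose f hf using fun b => pwC_one m H hH b
  exact ⟨Finset.univ.sup f, fun v hv b =>
    hf b v ((Finset.le_sup (f := f) (Finset.mem_univ b)).trans hv)⟩

end Pool.Agent.Lib.MP_3e612f_nt.MR
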