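import Pool.Agent.Lib.MP_3e612f_nt.MR.ContrA
import Pool.Agent.Lib.MP_3e612f_nt.MR.CMaj
import Pool.Agent.Lib.MP_3e612f_nt.MR.PwC

/-! Contraction: prime polynomials are not close to the trivial bound at large heights (helper37, with helper65). -/

set_option autoImplicit false

namespace Pool.Agent.Lib.MP_3e612f_nt.MR

open Finset

private theorem norm_ph (n : ℕ) (t : ℝ) : ‖ph n t‖ = 1 := by
  unfold ph
  rw [← neg_mul, ← Complex.ofReal_neg, Complex.norm_exp_ofReal_mul_I]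

private theorem ph_pow (n : ℕ) (t : ℝ) (k : ℕ) : ph n t ^ k = ph n (k * t) := by
  unfold ph
  rw [← Complex.exp_nat_mul]
  congr 1
  push_cast
  ring

private theorem ph_conj (n : ℕ) (t : ℝ) : (starRingEnd ℂ) (ph n t) = ph n (-t) := by
  unfold ph
  rw [← Complex.exp_conj]
  congr 1
  simp only [map_neg, map_mul, Complex.conj_ofReal, Complex.conj_I]
  push_cast
  ring

private theorem ph_add (n : ℕ) (s t : ℝ) : ph n (s + t) = ph n s * ph n t := by
  unfold ph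
  rw [← Complex.exp_add]
  congr 1
  push_cast
  ring

/-- Duality: with a majorant `w` of the finite set `S ⊆ [1, N]`. -/
theorem cdual (N K : ℕ) (S : Finset ℕ) (hS : S ⊆ Icc 1 N) (w : ℕ → ℝ) (hw : ∀ n, 0 ≤ w n) (hw1 : ∀ p ∈ S, 1 ≤ w p)
    (t M₀ M₁ : ℝ) (hM₁ : 0 ≤ M₁) (h0 : ∑ n ∈ Icc 1 N, w n ≤ M₀)
    (h1 : ∀ j : ℕ, 1 ≤ j → j < K → ‖∑ n ∈ Icc 1 N, ((w n : ℝ) : ℂ) * ph n (j * t)‖ ≤ M₁) :
    ∑ k ∈ Icc 1 K, ‖∑ p ∈ S, ph p t ^ k‖ ^ 2 ≤ S.card * (M₀ + K * M₁) := by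
  have hM₀ : 0 ≤ M₀ := le_trans (sum_nonneg (fun n _ => hw n)) h0
  refine Contr_gram hS (fun n _ => hw n) hw1 (fun n => ph n t) K (by positivity) ?_
  intro k hk
  rw [mem_Icc] at hk
  have hrow : ∀ l ∈ Icc 1 K, ‖∑ n ∈ Icc 1 N, (w n : ℂ) * (ph n t ^ k * (starRingEnd ℂ) (ph n t) ^ l)‖ ≤
      (if l = k then M₀ else 0) + M₁ := by
    intro l hl
    rw [mem_Icc] at hl
    have hz : ∀ n, ph n t ^ k * (starRingEnd ℂ) (ph n t) ^ l = ph n (((k : ℝ) - l) * t) := by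
      intro n
      rw [ph_conj, ph_pow, ph_pow, ← ph_add]
      congr 1
      ring
    simp_rw [hz]
    rcases lt_trichotomy l k with h | h | h
    · rw [if_neg (by omega), zero_add]
      have := h1 (k - l) (by omega) (by omega)
      rw [Nat.cast_sub h.le] at this
      exact this
    · rw [if_pos h, h]
      have e : ∑ n ∈ Icc 1 N, (w n : ℂ) * ph n (((k : ℝ) - k) * t) = ((∑ n ∈ Icc 1 N, w n : ℝ) : ℂ) := by
        rw [Complex.ofReal_sum]
        apply sum_congr rfl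
        intro n _
        have : ph n (((k : ℝ) - k) * t) = 1 := by
          unfold ph
          simp
        rw [this, mul_one]
      rw [e, Complex.norm_real, Real.norm_of_nonneg (sum_nonneg (fun n _ => hw n))]
      linarith
    · rw [if_neg (by omega), zero_add]
      have h2 := h1 (l - k) (by omega) (by omega)
      rw [Nat.cast_sub h.le] at h2
      have e : ∑ n ∈ Icc 1 N, (w n : ℂ) * ph n (((k : ℝ) - l) * t) =
          (starRingEnd ℂ) (∑ n ∈ Icc 1 N, (w n : ℂ) * ph n (((l : ℝ) - k) * t)) := by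
        rw [map_sum]
        apply sum_congr rfl
        intro n _
        rw [map_mul, Complex.conj_ofReal, ph_conj]
        congr 2
        ring
      rw [e, Complex.norm_conj]
      exact h2
  calc ∑ l ∈ Icc 1 K, ‖∑ n ∈ Icc 1 N, (w n : ℂ) * (ph n t ^ k * (starRingEnd ℂ) (ph n t) ^ l)‖
      ≤ ∑ l ∈ Icc 1 K, ((if l = k then M₀ else 0) + M₁) := sum_le_sum hrow
    _ = M₀ + K * M₁ := by
        rw [sum_add_distrib, sum_ite_eq', if_pos (mem_Icc.mpr hk), sum_const, Nat.card_Icc, nsmul_eq_mul]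
        simp

/-- Proof. `S` = the primes `p ≡ b` of the window, `n = #S ≥ Y/(2 m v)`, `Y = e^{v/H}` (`pw_class`). Let `C` be the constant of `cmaj`,
`K = ⌈100 m C⌉ + 1`, `c = 1/(8 K^2)`, `ε = 1/(64 m)`, `T₀` large in terms of `H`, `m`, `C`. If the claim fails, `Contr_pow` gives
`|∑_{p ∈ S} p^{-ikt}| ≥ n/2` for `1 ≤ k ≤ K`, so by `cdual` `K n^2/4 ≤ n (C Y/v + K (Y/v)(C H/T₀ + ε))`,
`K/(8m) ≤ C + K (C H/T₀ + ε)`, a contradiction. (`|j t| ≤ K X^{11/10} ≤ X^2`.) -/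
theorem contr (m : ℕ) [NeZero m] : ∃ c : ℝ, 0 < c ∧ c < 1 ∧ ∀ θ : ℝ, 0 < θ → ∀ H : ℕ, 1 ≤ H → ∃ T₀ X₀ : ℝ, 1 ≤ T₀ ∧
    ∀ X : ℝ, X₀ ≤ X → ∀ t : ℝ, T₀ ≤ |t| → |t| ≤ X ^ (11 / 10 : ℝ) → ∀ (b : (ZMod m)ˣ) (v : ℕ),
      θ * Real.log X ≤ (v : ℝ) / H → (v : ℝ) / H ≤ Real.log X →
      ‖QQ m (b : ZMod m) H v t‖ ≤ (1 - c) * (Real.exp (-((v : ℝ) / H)) *
        (((pw H v).filter (fun p => ((p : ℕ) : ZMod m) = (b : ZMod m))).card : ℝ)) := by
  obtain ⟨C, hC, hmaj⟩ := cmaj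
  have hm : 1 ≤ m := Nat.one_le_iff_ne_zero.mpr (NeZero.ne m)
  have hm' : (1 : ℝ) ≤ m := by exact_mod_cast hm
  have hm0 : (0 : ℝ) < m := by linarith
  set K : ℕ := ⌈100 * m * C⌉₊ + 1 with hKdef
  have hK1 : 1 ≤ K := by omega
  have hK1' : (1 : ℝ) ≤ K := by exact_mod_cast hK1
  have hK2 : 100 * m * C < K := by
    have := Nat.le_ceil (100 * m * C)
    have h2 : (K : ℝ) = (⌈100 * m * C⌉₊ : ℝ) + 1 := by rw [hKdef]; push_cast; ring
    rw [h2]; linarith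
  refine ⟨1 / (8 * (K : ℝ) ^ 2), by positivity, ?_, ?_⟩
  · rw [div_lt_one (by positivity)]
    nlinarith
  intro θ hθ H hH
  have hH' : (1 : ℝ) ≤ H := by exact_mod_cast hH
  have hH0 : (0 : ℝ) < H := by linarith
  obtain ⟨X₁, hX₁⟩ := hmaj θ (1 / (64 * m)) H hθ (by positivity) hH
  obtain ⟨v₀, hv₀⟩ := pw_class m H hH
  refine ⟨max 1 (64 * m * C * H), max (max X₁ (K ^ 2 + 3)) (Real.exp ((v₀ : ℝ) / θ)), le_max_left _ _, ?_⟩
  intro X hX t ht1 ht2 b v hv1 hv2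
  have hXX₁ : X₁ ≤ X := le_trans (le_trans (le_max_left _ _) (le_max_left _ _)) hX
  have hXK : (K : ℝ) ^ 2 + 3 ≤ X := le_trans (le_trans (le_max_right _ _) (le_max_left _ _)) hX
  have hXv : Real.exp ((v₀ : ℝ) / θ) ≤ X := le_trans (le_max_right _ _) hX
  have hX1 : 1 < X := by nlinarith
  have hX0 : 0 < X := by linarith
  have hlogX : 0 < Real.log X := Real.log_pos hX1
  have hT1 : 1 ≤ |t| := le_trans (le_max_left _ _) ht1
  have hT2 : 64 * m * C * H ≤ |t| := le_trans (le_max_right _ _) ht1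
  have ht0 : 0 < |t| := by linarith
  -- the window is far out
  have hvH : θ * Real.log X * H ≤ v := by
    rw [le_div_iff₀ hH0] at hv1
    exact hv1
  have hvpos : (0 : ℝ) < v := lt_of_lt_of_le (by positivity) hvH
  have hvv₀ : v₀ ≤ v := by
    have h1 : (v₀ : ℝ) / θ ≤ Real.log X := by
      rw [Real.le_log_iff_exp_le hX0]; exact hXv
    have h2 : (v₀ : ℝ) ≤ θ * Real.log X := by
      rw [div_le_iff₀ hθ] at h1
      linarith
    have h3 : (v₀ : ℝ) ≤ v := by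
      have : θ * Real.log X ≤ θ * Real.log X * H := le_mul_of_one_le_right (by positivity) hH'
      linarith
    exact_mod_cast h3
  set Y : ℝ := Real.exp ((v : ℝ) / H) with hY
  have hY0 : 0 < Y := Real.exp_pos _
  set S : Finset ℕ := (pw H v).filter (fun p => ((p : ℕ) : ZMod m) = (b : ZMod m)) with hSdef
  have hcard : Y / (2 * m * v) ≤ (S.card : ℝ) := hv₀ v hvv₀ b
  have hScard : 0 < (S.card : ℝ) := lt_of_lt_of_le (by positivity) hcard
  obtain ⟨w, hw0, hw1, hw2, hw3⟩ := hX₁ X hXX₁ v hv1 hv2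
  -- the contrary assumption
  by_contra hcon
  push Not at hcon
  have hQ : ‖QQ m (b : ZMod m) H v t‖ = Real.exp (-((v : ℝ) / H)) * ‖∑ p ∈ S, ph p t‖ := by
    unfold QQ
    rw [norm_mul, Complex.norm_real, Real.norm_of_nonneg (Real.exp_pos _).le]
  have hbig : (1 - 1 / (8 * (K : ℝ) ^ 2)) * S.card < ‖∑ p ∈ S, ph p t‖ := by
    rw [hQ] at hcon
    have he : 0 < Real.exp (-((v : ℝ) / H)) := Real.exp_pos _
    have h2 : Real.exp (-((v : ℝ) / H)) * ((1 - 1 / (8 * (K : ℝ) ^ 2)) * S.card) <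
        Real.exp (-((v : ℝ) / H)) * ‖∑ p ∈ S, ph p t‖ := by
      calc Real.exp (-((v : ℝ) / H)) * ((1 - 1 / (8 * (K : ℝ) ^ 2)) * S.card)
          = (1 - 1 / (8 * (K : ℝ) ^ 2)) * (Real.exp (-((v : ℝ) / H)) * S.card) := by ring
        _ < _ := hcon
    exact lt_of_mul_lt_mul_left h2 he.le
  have hpow : ∀ k ∈ Icc 1 K, (S.card : ℝ) / 2 ≤ ‖∑ p ∈ S, ph p t ^ k‖ := by
    intro k hk
    rw [mem_Icc] at hk
    exact Contr_pow (fun p _ => norm_ph p t) hK1 hbig hk.2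
  have hlow : (K : ℝ) * ((S.card : ℝ) / 2) ^ 2 ≤ ∑ k ∈ Icc 1 K, ‖∑ p ∈ S, ph p t ^ k‖ ^ 2 := by
    calc (K : ℝ) * ((S.card : ℝ) / 2) ^ 2 = ∑ _k ∈ Icc 1 K, ((S.card : ℝ) / 2) ^ 2 := by
          rw [sum_const, Nat.card_Icc, nsmul_eq_mul]; simp
      _ ≤ _ := sum_le_sum (fun k hk => pow_le_pow_left₀ (by positivity) (hpow k hk) 2)
  -- heights
  have hheight : ∀ j : ℕ, 1 ≤ j → j < K → 1 ≤ |(j : ℝ) * t| ∧ |(j : ℝ) * t| ≤ X ^ 2 ∧ |t| ≤ |(j : ℝ) * t| := by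
    intro j hj1 hjK
    have hj1' : (1 : ℝ) ≤ j := by exact_mod_cast hj1
    have hjK' : (j : ℝ) ≤ K := by exact_mod_cast hjK.le
    rw [abs_mul, abs_of_nonneg (by linarith : (0 : ℝ) ≤ j)]
    have h1 : |t| ≤ j * |t| := le_mul_of_one_le_left (abs_nonneg t) hj1'
    refine ⟨by linarith, ?_, h1⟩
    have hKX : (K : ℝ) ≤ X ^ (1 / 2 : ℝ) := by
      have h2 : (K : ℝ) = ((K : ℝ) ^ 2) ^ (1 / 2 : ℝ) := by
        rw [← Real.sqrt_eq_rpow, Real.sqrt_sq (by linarith)]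
      rw [h2]
      apply Real.rpow_le_rpow (by positivity) (by linarith) (by norm_num)
    calc (j : ℝ) * |t| ≤ X ^ (1 / 2 : ℝ) * X ^ (11 / 10 : ℝ) :=
          mul_le_mul (le_trans hjK' hKX) ht2 (abs_nonneg t) (by positivity)
      _ = X ^ (1 / 2 + 11 / 10 : ℝ) := by rw [← Real.rpow_add hX0]
      _ ≤ X ^ (2 : ℝ) := Real.rpow_le_rpow_of_exponent_le hX1.le (by norm_num)
      _ = X ^ 2 := by rw [Real.rpow_two]
  have hM₁ : 0 ≤ Y / v * (C * H / |t| + 1 / (64 * m)) := by positivity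
  have hup := cdual ⌊Real.exp (((v : ℝ) + 1) / H)⌋₊ K S
    (by
      intro p hp
      rw [hSdef, mem_filter] at hp
      have := hp.1
      unfold pw at this
      rw [mem_filter] at this
      exact this.1)
    w hw0 (by
      intro p hp
      rw [hSdef, mem_filter] at hp
      exact hw1 p hp.1)
    t (C * (Y / v)) (Y / v * (C * H / |t| + 1 / (64 * m))) hM₁ hw2
    (by
      intro j hj1 hjK
      obtain ⟨h1, h2, h3⟩ := hheight j hj1 hjK
      refine le_trans (hw3 ((j : ℝ) * t) h1 h2) ?_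
      apply mul_le_mul_of_nonneg_left _ (by positivity)
      have : C * H / |(j : ℝ) * t| ≤ C * H / |t| :=
        div_le_div_of_nonneg_left (by positivity) ht0 h3
      linarith)
  have h3 : (K : ℝ) * ((S.card : ℝ) / 2) ^ 2 ≤
      S.card * (C * (Y / v) + K * (Y / v * (C * H / |t| + 1 / (64 * m)))) := le_trans hlow hup
  have hCH : C * H / |t| ≤ 1 / (64 * m) := by
    rw [div_le_div_iff₀ ht0 (by positivity)]
    nlinarith
  have hYv : 0 < Y / v := by positivity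
  have h4 : C * (Y / v) + K * (Y / v * (C * H / |t| + 1 / (64 * m))) ≤
      (Y / v) * (C + K * (1 / (32 * m))) := by
    have h5 : C * H / |t| + 1 / (64 * m) ≤ 1 / (32 * m) := by
      have : (1 : ℝ) / (32 * m) = 1 / (64 * m) + 1 / (64 * m) := by field_simp; norm_num
      linarith
    have h6 : K * (Y / v * (C * H / |t| + 1 / (64 * m))) ≤ K * (Y / v * (1 / (32 * m))) := by
      apply mul_le_mul_of_nonneg_left _ (by positivity)
      exact mul_le_mul_of_nonneg_left h5 hYv.le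
    calc C * (Y / v) + K * (Y / v * (C * H / |t| + 1 / (64 * m)))
        ≤ C * (Y / v) + K * (Y / v * (1 / (32 * m))) := by linarith
      _ = (Y / v) * (C + K * (1 / (32 * m))) := by ring
  have h7 : (K : ℝ) * ((S.card : ℝ) / 2) ^ 2 ≤ S.card * ((Y / v) * (C + K * (1 / (32 * m)))) :=
    le_trans h3 (mul_le_mul_of_nonneg_left h4 hScard.le)
  have h8 : (K : ℝ) * S.card / 4 ≤ (Y / v) * (C + K * (1 / (32 * m))) := by
    have : (S.card : ℝ) * ((K : ℝ) * S.card / 4) ≤ S.card * ((Y / v) * (C + K * (1 / (32 * m)))) := by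
      calc (S.card : ℝ) * ((K : ℝ) * S.card / 4) = (K : ℝ) * ((S.card : ℝ) / 2) ^ 2 := by ring
        _ ≤ _ := h7
    exact le_of_mul_le_mul_left this hScard
  have h9 : (K : ℝ) * (Y / (2 * m * v)) / 4 ≤ (Y / v) * (C + K * (1 / (32 * m))) := by
    refine le_trans ?_ h8
    have := mul_le_mul_of_nonneg_left hcard (by linarith : (0 : ℝ) ≤ K)
    linarith
  have h10 : (Y / v) * (K / (8 * m)) ≤ (Y / v) * (C + K * (1 / (32 * m))) := by
    calc (Y / v) * (K / (8 * m)) = (K : ℝ) * (Y / (2 * m * v)) / 4 := by field_simp; norm_num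
      _ ≤ _ := h9
  have h11 : (K : ℝ) / (8 * m) ≤ C + K * (1 / (32 * m)) := le_of_mul_le_mul_left h10 hYv
  have h12 : (K : ℝ) / (8 * m) - K * (1 / (32 * m)) = 3 * K / (32 * m) := by field_simp; norm_num
  have h13 : 3 * (K : ℝ) / (32 * m) ≤ C := by linarith
  rw [div_le_iff₀ (by positivity)] at h13
  nlinarith

end Pool.Agent.Lib.MP_3e612f_nt.MR
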