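import Pool.Agent.Lib.MP_3e612f_nt.MR.Osc

/-! Large values at well spaced points (Halász, Montgomery). -/

set_option autoImplicit false

namespace Pool.Agent.Lib.MP_3e612f_nt.MR

open Finset

theorem hm_ph_norm (n : ℕ) (t : ℝ) : ‖ph n t‖ = 1 := by
  unfold ph
  rw [show -(((t * Real.log n : ℝ) : ℂ) * Complex.I) = ((-(t * Real.log n) : ℝ) : ℂ) * Complex.I by
    rw [Complex.ofReal_neg, neg_mul]]
  exact Complex.norm_exp_ofReal_mul_I _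

theorem hm_ph_conj (n : ℕ) (t : ℝ) : (starRingEnd ℂ) (ph n t) = ph n (-t) := by
  unfold ph
  rw [← Complex.exp_conj, map_neg, map_mul, Complex.conj_ofReal, Complex.conj_I, neg_mul,
    Complex.ofReal_neg]
  ring_nf

theorem hm_ph_sub (n : ℕ) (t t' : ℝ) : ph n (t - t') = ph n t * (starRingEnd ℂ) (ph n t') := by
  rw [hm_ph_conj]
  unfold ph
  rw [← Complex.exp_add]
  congr 1
  push_cast
  ring

/-- Duality: `∑_t |∑_n a_n n^{-it}|^2 ≤ (max_t ∑_{t'} |∑_n w(n) n^{-i(t-t')}|) ∑ |a_n|^2` if `w ≥ 0`, `w ≥ 1` where `a_n ≠ 0`. -/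
theorem dual (N : ℕ) (a : ℕ → ℂ) (w : ℕ → ℝ) (hw : ∀ n, 0 ≤ w n) (hw1 : ∀ n ∈ Icc 1 N, a n ≠ 0 → 1 ≤ w n)
    (S : Finset ℝ) (K : ℝ) (hK0 : 0 ≤ K)
    (hK : ∀ t ∈ S, ∑ t' ∈ S, ‖∑ n ∈ Icc 1 N, ((w n : ℝ) : ℂ) * ph n (t - t')‖ ≤ K) :
    ∑ t ∈ S, ‖∑ n ∈ Icc 1 N, a n * ph n t‖ ^ 2 ≤ K * ∑ n ∈ Icc 1 N, ‖a n‖ ^ 2 := by
  obtain ⟨A, hA⟩ : ∃ A : ℝ → ℂ, A = fun t => ∑ n ∈ Icc 1 N, a n * ph n t := ⟨_, rfl⟩
  obtain ⟨B, hB⟩ : ∃ B : ℕ → ℂ, B = fun n => ∑ t ∈ S, (starRingEnd ℂ) (A t) * ph n t := ⟨_, rfl⟩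
  obtain ⟨Kn, hKn⟩ : ∃ Kn : ℝ → ℂ, Kn = fun u => ∑ n ∈ Icc 1 N, ((w n : ℝ) : ℂ) * ph n u := ⟨_, rfl⟩
  obtain ⟨T, hT⟩ : ∃ T : ℝ, T = ∑ t ∈ S, ‖A t‖ ^ 2 := ⟨_, rfl⟩
  have hT0 : 0 ≤ T := by
    rw [hT]
    exact sum_nonneg fun _ _ => sq_nonneg _
  have hAt : ∀ t, A t = ∑ n ∈ Icc 1 N, a n * ph n t := fun t => by rw [hA]
  have h1 : ((T : ℝ) : ℂ) = ∑ n ∈ Icc 1 N, a n * B n := by
    have e1 : ((T : ℝ) : ℂ) = ∑ t ∈ S, (starRingEnd ℂ) (A t) * A t := by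
      rw [hT]
      push_cast
      refine sum_congr rfl fun t _ => ?_
      rw [Complex.conj_mul']
    rw [e1]
    have e2 : ∀ t ∈ S, (starRingEnd ℂ) (A t) * A t =
        ∑ n ∈ Icc 1 N, a n * ((starRingEnd ℂ) (A t) * ph n t) := by
      intro t _
      have e3 : (starRingEnd ℂ) (A t) * A t =
          (starRingEnd ℂ) (A t) * ∑ n ∈ Icc 1 N, a n * ph n t := by rw [← hAt t]
      rw [e3, mul_sum]
      refine sum_congr rfl fun n _ => ?_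
      ring
    rw [sum_congr rfl e2, sum_comm]
    refine sum_congr rfl fun n _ => ?_
    rw [hB, mul_sum]
  have h2 : T ≤ ∑ n ∈ Icc 1 N, ‖a n‖ * (Real.sqrt (w n) * ‖B n‖) := by
    have e1 : T = ‖((T : ℝ) : ℂ)‖ := by
      rw [Complex.norm_real, Real.norm_eq_abs, abs_of_nonneg hT0]
    rw [e1, h1]
    refine (norm_sum_le _ _).trans (sum_le_sum fun n hn => ?_)
    rw [norm_mul]
    by_cases h0 : a n = 0
    · rw [h0]
      simp
    · refine mul_le_mul_of_nonneg_left ?_ (norm_nonneg _)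
      have h3 : 1 ≤ Real.sqrt (w n) := by
        rw [Real.one_le_sqrt]
        exact hw1 n hn h0
      calc ‖B n‖ = 1 * ‖B n‖ := (one_mul _).symm
        _ ≤ _ := mul_le_mul_of_nonneg_right h3 (norm_nonneg _)
  have h3 : (∑ n ∈ Icc 1 N, ‖a n‖ * (Real.sqrt (w n) * ‖B n‖)) ^ 2 ≤
      (∑ n ∈ Icc 1 N, ‖a n‖ ^ 2) * ∑ n ∈ Icc 1 N, w n * ‖B n‖ ^ 2 := by
    refine (sum_mul_sq_le_sq_mul_sq _ _ _).trans (le_of_eq ?_)
    congr 1
    refine sum_congr rfl fun n _ => ?_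
    rw [mul_pow, Real.sq_sqrt (hw n)]
  have hKsym : ∀ t t', ‖Kn (t - t')‖ = ‖Kn (t' - t)‖ := by
    intro t t'
    have e1 : (starRingEnd ℂ) (Kn (t - t')) = Kn (t' - t) := by
      rw [hKn]
      simp only [map_sum, map_mul, Complex.conj_ofReal, hm_ph_conj, neg_sub]
    rw [← e1, Complex.norm_conj]
  have h4 : ∑ n ∈ Icc 1 N, w n * ‖B n‖ ^ 2 ≤ K * T := by
    have e0 : ∀ n, ((w n * ‖B n‖ ^ 2 : ℝ) : ℂ) = ∑ t ∈ S, ∑ t' ∈ S,
        (starRingEnd ℂ) (A t) * A t' * (((w n : ℝ) : ℂ) * ph n (t - t')) := by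
      intro n
      push_cast
      rw [← Complex.mul_conj', hB]
      simp only [map_sum, map_mul, Complex.conj_conj]
      rw [sum_mul_sum, mul_sum]
      refine sum_congr rfl fun t _ => ?_
      rw [mul_sum]
      refine sum_congr rfl fun t' _ => ?_
      rw [hm_ph_sub]
      ring
    have e1 : ((∑ n ∈ Icc 1 N, w n * ‖B n‖ ^ 2 : ℝ) : ℂ) = ∑ t ∈ S, ∑ t' ∈ S,
        (starRingEnd ℂ) (A t) * A t' * Kn (t - t') := by
      rw [Complex.ofReal_sum, sum_congr rfl fun n _ => e0 n, sum_comm]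
      refine sum_congr rfl fun t _ => ?_
      rw [sum_comm]
      refine sum_congr rfl fun t' _ => ?_
      rw [hKn, mul_sum]
    have e2 : ∑ n ∈ Icc 1 N, w n * ‖B n‖ ^ 2 ≤
        ∑ t ∈ S, ∑ t' ∈ S, ‖A t‖ * ‖A t'‖ * ‖Kn (t - t')‖ := by
      have e3 : 0 ≤ ∑ n ∈ Icc 1 N, w n * ‖B n‖ ^ 2 :=
        sum_nonneg fun n _ => mul_nonneg (hw n) (sq_nonneg _)
      have e4 : ∑ n ∈ Icc 1 N, w n * ‖B n‖ ^ 2 =
          ‖((∑ n ∈ Icc 1 N, w n * ‖B n‖ ^ 2 : ℝ) : ℂ)‖ := by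
        rw [Complex.norm_real, Real.norm_eq_abs, abs_of_nonneg e3]
      rw [e4, e1]
      refine (norm_sum_le _ _).trans (sum_le_sum fun t _ => ?_)
      refine (norm_sum_le _ _).trans (sum_le_sum fun t' _ => ?_)
      rw [norm_mul, norm_mul, Complex.norm_conj]
    have e5 : ∑ t ∈ S, ∑ t' ∈ S, ‖A t‖ * ‖A t'‖ * ‖Kn (t - t')‖ ≤
        ∑ t ∈ S, ∑ t' ∈ S, (‖A t‖ ^ 2 / 2 * ‖Kn (t - t')‖ + ‖A t'‖ ^ 2 / 2 * ‖Kn (t' - t)‖) := by
      refine sum_le_sum fun t _ => sum_le_sum fun t' _ => ?_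
      rw [← hKsym t t', ← add_mul]
      refine mul_le_mul_of_nonneg_right ?_ (norm_nonneg _)
      linarith [sq_nonneg (‖A t‖ - ‖A t'‖)]
    have e6 : ∑ t ∈ S, ∑ t' ∈ S, (‖A t‖ ^ 2 / 2 * ‖Kn (t - t')‖ + ‖A t'‖ ^ 2 / 2 * ‖Kn (t' - t)‖) =
        ∑ t ∈ S, ‖A t‖ ^ 2 * ∑ t' ∈ S, ‖Kn (t - t')‖ := by
      simp only [sum_add_distrib]
      rw [sum_comm (f := fun t t' => ‖A t'‖ ^ 2 / 2 * ‖Kn (t' - t)‖), ← sum_add_distrib]
      refine sum_congr rfl fun t _ => ?_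
      rw [mul_sum, ← sum_add_distrib]
      refine sum_congr rfl fun t' _ => ?_
      ring
    have e7 : ∑ t ∈ S, ‖A t‖ ^ 2 * ∑ t' ∈ S, ‖Kn (t - t')‖ ≤ K * T := by
      rw [hT, mul_sum]
      refine sum_le_sum fun t ht => ?_
      rw [mul_comm K]
      refine mul_le_mul_of_nonneg_left ?_ (sq_nonneg _)
      have := hK t ht
      rw [hKn]
      exact this
    linarith
  obtain ⟨a2, ha2⟩ : ∃ x : ℝ, x = ∑ n ∈ Icc 1 N, ‖a n‖ ^ 2 := ⟨_, rfl⟩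
  have ha20 : 0 ≤ a2 := by
    rw [ha2]
    exact sum_nonneg fun _ _ => sq_nonneg _
  have h5 : T ^ 2 ≤ a2 * (K * T) := by
    refine (pow_le_pow_left₀ hT0 h2 2).trans (h3.trans ?_)
    rw [← ha2]
    exact mul_le_mul_of_nonneg_left h4 ha20
  have h6 : T ≤ K * a2 := by
    rcases hT0.eq_or_lt with h0 | h0
    · rw [← h0]
      exact mul_nonneg hK0 ha20
    · have h7 : T * T ≤ K * a2 * T := by
        calc T * T = T ^ 2 := by ring
          _ ≤ a2 * (K * T) := h5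
          _ = K * a2 * T := by ring
      exact le_of_mul_le_mul_right h7 h0
  rw [← ha2]
  refine le_trans (le_of_eq ?_) h6
  rw [hT]
  refine sum_congr rfl fun t _ => ?_
  rw [hAt]

/-- `x^{-iu}` -/
noncomputable def Ef (u x : ℝ) : ℂ := Complex.exp (-(((u * Real.log x : ℝ) : ℂ) * Complex.I))

/-- antiderivative of `x^{-iu}` -/
noncomputable def Gf (u x : ℝ) : ℂ := (x : ℂ) * Ef u x / (1 - (u : ℂ) * Complex.I)

/-- antiderivative of `Gf` -/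
noncomputable def Hf (u x : ℝ) : ℂ :=
  (x : ℂ) ^ 2 * Ef u x / ((1 - (u : ℂ) * Complex.I) * (2 - (u : ℂ) * Complex.I))

theorem norm_Ef (u x : ℝ) : ‖Ef u x‖ = 1 := by
  unfold Ef
  rw [show -(((u * Real.log x : ℝ) : ℂ) * Complex.I) = ((-(u * Real.log x) : ℝ) : ℂ) * Complex.I by
    rw [Complex.ofReal_neg, neg_mul]]
  exact Complex.norm_exp_ofReal_mul_I _

theorem one_sub_ne (u : ℝ) : (1 - (u : ℂ) * Complex.I) ≠ 0 := by
  intro h
  have := congrArg Complex.re h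
  simp at this

theorem two_sub_ne (u : ℝ) : (2 - (u : ℂ) * Complex.I) ≠ 0 := by
  intro h
  have := congrArg Complex.re h
  simp at this

theorem le_norm_one_sub (u : ℝ) : |u| ≤ ‖1 - (u : ℂ) * Complex.I‖ := by
  have := Complex.abs_im_le_norm (1 - (u : ℂ) * Complex.I)
  simpa using this

theorem le_norm_two_sub (u : ℝ) : |u| ≤ ‖2 - (u : ℂ) * Complex.I‖ := by
  have := Complex.abs_im_le_norm (2 - (u : ℂ) * Complex.I)
  simpa using this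

theorem hasDerivAt_Ef (u : ℝ) {x : ℝ} (hx : 0 < x) :
    HasDerivAt (Ef u) (Ef u x * (-(((u * x⁻¹ : ℝ) : ℂ) * Complex.I))) x := by
  have h1 : HasDerivAt (fun x : ℝ => u * Real.log x) (u * x⁻¹) x :=
    (Real.hasDerivAt_log hx.ne').const_mul u
  have h2 := ((h1.ofReal_comp.mul_const Complex.I).neg).cexp
  exact h2

theorem hasDerivAt_Gf (u : ℝ) {x : ℝ} (hx : 0 < x) : HasDerivAt (Gf u) (Ef u x) x := by
  have h1 : HasDerivAt (fun x : ℝ => (x : ℂ)) 1 x := Complex.ofRealCLM.hasDerivAt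
  have h2 := (h1.mul (hasDerivAt_Ef u hx)).div_const (1 - (u : ℂ) * Complex.I)
  refine h2.congr_deriv ?_
  have hx' : (x : ℂ) ≠ 0 := by exact_mod_cast hx.ne'
  have h3 := one_sub_ne u
  push_cast
  field_simp
  ring

theorem hasDerivAt_Hf (u : ℝ) {x : ℝ} (hx : 0 < x) : HasDerivAt (Hf u) (Gf u x) x := by
  have h1 : HasDerivAt (fun x : ℝ => (x : ℂ)) 1 x := Complex.ofRealCLM.hasDerivAt
  have h2 := ((h1.pow 2).mul (hasDerivAt_Ef u hx)).div_const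
    ((1 - (u : ℂ) * Complex.I) * (2 - (u : ℂ) * Complex.I))
  refine h2.congr_deriv ?_
  have hx' : (x : ℂ) ≠ 0 := by exact_mod_cast hx.ne'
  have h3 := one_sub_ne u
  have h4 := two_sub_ne u
  unfold Gf
  simp only [Pi.pow_apply]
  push_cast
  field_simp
  ring

theorem norm_Hf_le (u : ℝ) (hu : u ≠ 0) (x : ℝ) : ‖Hf u x‖ ≤ x ^ 2 / u ^ 2 := by
  unfold Hf
  rw [norm_div, norm_mul, norm_mul, norm_Ef, mul_one, norm_pow, Complex.norm_real,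
    Real.norm_eq_abs, sq_abs]
  have h1 := le_norm_one_sub u
  have h2 := le_norm_two_sub u
  have h3 : 0 < |u| := abs_pos.2 hu
  have h4 : u ^ 2 ≤ ‖1 - (u : ℂ) * Complex.I‖ * ‖2 - (u : ℂ) * Complex.I‖ := by
    rw [← sq_abs, sq]
    exact mul_le_mul h1 h2 h3.le (h3.le.trans h1)
  have h5 : 0 < u ^ 2 := by positivity
  exact div_le_div_of_nonneg_left (sq_nonneg x) h5 h4

theorem Gf_lip (u : ℝ) {x y : ℝ} (hx : 0 < x) (hy : 0 < y) : ‖Gf u y - Gf u x‖ ≤ |y - x| := by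
  have h := Convex.norm_image_sub_le_of_norm_hasDerivWithin_le (f := Gf u) (f' := Ef u) (C := 1)
    (s := Set.Ioi (0 : ℝ)) (fun z hz => (hasDerivAt_Gf u hz).hasDerivWithinAt)
    (fun z _ => (norm_Ef u z).le) (convex_Ioi 0) hx hy
  rwa [one_mul, Real.norm_eq_abs] at h

theorem osc1 : ∃ c C : ℝ, 0 < c ∧ c ≤ 1 / 2 ∧ 0 < C ∧ ∀ (M M' : ℕ) (u : ℝ), 1 ≤ M → M ≤ M' →
    M' ≤ 2 * M → 1 ≤ |u| → |u| ≤ (M : ℝ) ^ 2 →
      ‖∑ n ∈ Ioc M M', ph n u - (Gf u M' - Gf u M)‖ ≤ C * (M : ℝ) ^ (1 - c) := by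
  obtain ⟨c, C, hc, hc2, hC, h⟩ := osc (1 / 2) (by norm_num)
  refine ⟨c, C, hc, hc2, hC, fun M M' u hM hMM hM2 hu hu2 => ?_⟩
  have h1 := h M M' u hM hMM hM2 hu (by
    have : (1 / (1 / 2 : ℝ)) = ((2 : ℕ) : ℝ) := by norm_num
    rw [this, Real.rpow_natCast]
    exact hu2)
  have hM0 : (0 : ℝ) < M := by exact_mod_cast hM
  have hMM0 : (M : ℝ) ≤ M' := by exact_mod_cast hMM
  have h3 : ∫ x in (M : ℝ)..(M' : ℝ), Complex.exp (-(((u * Real.log x : ℝ) : ℂ) * Complex.I)) =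
      Gf u M' - Gf u M := by
    refine intervalIntegral.integral_eq_sub_of_hasDerivAt (fun x hx => ?_) ?_
    · rw [Set.uIcc_of_le hMM0] at hx
      exact hasDerivAt_Gf u (hM0.trans_le hx.1)
    · refine ContinuousOn.intervalIntegrable fun x hx => ?_
      rw [Set.uIcc_of_le hMM0] at hx
      exact (hasDerivAt_Ef u (hM0.trans_le hx.1)).continuousAt.continuousWithinAt
  rw [h3] at h1
  exact h1

theorem osc2 : ∃ c C : ℝ, 0 < c ∧ c ≤ 1 / 2 ∧ 0 < C ∧ ∀ (j : ℕ) (M M' : ℕ) (u : ℝ), 1 ≤ M →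
    M ≤ M' → M' ≤ 2 ^ j * M → 1 ≤ |u| → |u| ≤ (M : ℝ) ^ 2 →
      ‖∑ n ∈ Ioc M M', ph n u - (Gf u M' - Gf u M)‖ ≤ j * C * (M' : ℝ) ^ (1 - c) := by
  obtain ⟨c, C, hc, hc2, hC, h⟩ := osc1
  refine ⟨c, C, hc, hc2, hC, fun j => ?_⟩
  have hc1 : 0 ≤ 1 - c := by linarith
  induction j with
  | zero =>
    intro M M' u hM hMM hM2 hu hu2
    have : M' = M := by omega
    rw [this]
    simp
  | succ j ih =>
    intro M M' u hM hMM hM2 hu hu2
    have hM0 : (0 : ℝ) < M := by exact_mod_cast hM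
    rcases le_or_gt M' (2 * M) with h1 | h1
    · refine (h M M' u hM hMM h1 hu hu2).trans ?_
      have h2 : (M : ℝ) ^ (1 - c) ≤ (M' : ℝ) ^ (1 - c) :=
        Real.rpow_le_rpow hM0.le (by exact_mod_cast hMM) hc1
      have h3 : (0 : ℝ) ≤ (M' : ℝ) ^ (1 - c) := by positivity
      have h4 : (0 : ℝ) ≤ j := Nat.cast_nonneg _
      push_cast
      have h5 : C * (M : ℝ) ^ (1 - c) ≤ C * (M' : ℝ) ^ (1 - c) := mul_le_mul_of_nonneg_left h2 hC.le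
      have h6 : 0 ≤ (j : ℝ) * C * (M' : ℝ) ^ (1 - c) := by positivity
      linarith
    · have h2 := h M (2 * M) u hM (by omega) le_rfl hu hu2
      have h3 := ih (2 * M) M' u (by omega) h1.le (by rw [pow_succ] at hM2; linarith) hu (by
        push_cast
        refine hu2.trans ?_
        nlinarith [hM0])
      have h4 : ∑ n ∈ Ioc M M', ph n u = ∑ n ∈ Ioc M (2 * M), ph n u +
          ∑ n ∈ Ioc (2 * M) M', ph n u := by
        rw [← Ioc_union_Ioc_eq_Ioc (by omega : M ≤ 2 * M) h1.le, sum_union]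
        exact Ioc_disjoint_Ioc_of_le le_rfl
      have h5 : ∑ n ∈ Ioc M M', ph n u - (Gf u M' - Gf u M) =
          (∑ n ∈ Ioc M (2 * M), ph n u - (Gf u ((2 * M : ℕ) : ℝ) - Gf u M)) +
          (∑ n ∈ Ioc (2 * M) M', ph n u - (Gf u M' - Gf u ((2 * M : ℕ) : ℝ))) := by
        rw [h4]
        ring
      rw [h5]
      refine (norm_add_le _ _).trans ?_
      have h6 : (M : ℝ) ^ (1 - c) ≤ (M' : ℝ) ^ (1 - c) :=
        Real.rpow_le_rpow hM0.le (by exact_mod_cast hMM) hc1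
      have h7 : C * (M : ℝ) ^ (1 - c) ≤ C * (M' : ℝ) ^ (1 - c) := mul_le_mul_of_nonneg_left h6 hC.le
      push_cast at h2 h3 ⊢
      linarith

/-- the lower end points -/
noncomputable def aS (Y s : ℝ) : ℝ := Y * (1 / 42 + s * (1 / 84))

/-- the upper end points -/
noncomputable def bS (Y s : ℝ) : ℝ := Y * (120 + s * (-60))

/-- the indicator function -/
noncomputable def jS (Y : ℝ) (n : ℕ) (s : ℝ) : ℝ :=
  if aS Y s < n ∧ (n : ℝ) ≤ bS Y s then 1 else 0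

/-- the weight -/
noncomputable def wS (Y : ℝ) (n : ℕ) : ℝ := ∫ s in (0 : ℝ)..1, jS Y n s

theorem jS_nonneg (Y : ℝ) (n : ℕ) (s : ℝ) : 0 ≤ jS Y n s := by
  unfold jS
  split_ifs <;> norm_num

theorem jS_le (Y : ℝ) (n : ℕ) (s : ℝ) : jS Y n s ≤ 1 := by
  unfold jS
  split_ifs <;> norm_num

theorem measurable_jS (Y : ℝ) (n : ℕ) : Measurable (jS Y n) := by
  unfold jS
  refine Measurable.ite ?_ measurable_const measurable_const
  refine MeasurableSet.inter (s₁ := {s : ℝ | aS Y s < n}) (s₂ := {s : ℝ | (n : ℝ) ≤ bS Y s}) ?_ ?_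
  · refine measurableSet_lt ?_ measurable_const
    unfold aS
    fun_prop
  · refine measurableSet_le measurable_const ?_
    unfold bS
    fun_prop

theorem integrable_jS (Y : ℝ) (n : ℕ) (x y : ℝ) :
    IntervalIntegrable (jS Y n) MeasureTheory.volume x y := by
  refine IntervalIntegrable.mono_fun (g := jS Y n) (f := fun _ => (1 : ℝ))
    intervalIntegrable_const (measurable_jS Y n).aestronglyMeasurable ?_
  refine Filter.Eventually.of_forall fun s => ?_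
  show ‖jS Y n s‖ ≤ ‖(1 : ℝ)‖
  rw [Real.norm_eq_abs, abs_of_nonneg (jS_nonneg Y n s), norm_one]
  exact jS_le Y n s

theorem integrable_jSc (Y : ℝ) (n : ℕ) :
    IntervalIntegrable (fun s => ((jS Y n s : ℝ) : ℂ)) MeasureTheory.volume 0 1 :=
  ⟨(integrable_jS Y n 0 1).1.ofReal, (integrable_jS Y n 0 1).2.ofReal⟩

theorem wS_nonneg (Y : ℝ) (n : ℕ) : 0 ≤ wS Y n :=
  intervalIntegral.integral_nonneg zero_le_one fun s _ => jS_nonneg Y n s

theorem wS_le (Y : ℝ) (n : ℕ) : wS Y n ≤ 1 := by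
  have h := intervalIntegral.integral_mono_on (a := 0) (b := 1) zero_le_one (integrable_jS Y n 0 1)
    (intervalIntegrable_const (c := (1 : ℝ))) fun s _ => jS_le Y n s
  unfold wS
  simpa using h

theorem wS_one {Y : ℝ} (hY : 1 ≤ Y) (n : ℕ) (h1 : Y / 21 ≤ n) (h2 : (n : ℝ) ≤ 60 * Y) :
    wS Y n = 1 := by
  have h : wS Y n = ∫ s in (0 : ℝ)..1, (1 : ℝ) := by
    unfold wS
    refine intervalIntegral.integral_congr fun s hs => ?_
    rw [Set.uIcc_of_le zero_le_one] at hs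
    obtain ⟨s0, s1⟩ := hs
    unfold jS aS bS
    rw [if_pos]
    constructor
    · refine lt_of_lt_of_le ?_ h1
      nlinarith
    · refine h2.trans ?_
      nlinarith
  rw [h]
  simp

theorem wS_zero {Y : ℝ} (hY : 1 ≤ Y) (n : ℕ) (h1 : 120 * Y < n) : wS Y n = 0 := by
  have h : wS Y n = ∫ s in (0 : ℝ)..1, (0 : ℝ) := by
    unfold wS
    refine intervalIntegral.integral_congr fun s hs => ?_
    rw [Set.uIcc_of_le zero_le_one] at hs
    obtain ⟨s0, s1⟩ := hs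
    unfold jS aS bS
    rw [if_neg]
    rintro ⟨-, h3⟩
    have : Y * (120 + s * (-60)) ≤ 120 * Y := by nlinarith
    linarith
  rw [h]
  simp

theorem aS_bd {Y : ℝ} (hY : 0 < Y) {s : ℝ} (s0 : 0 ≤ s) (s1 : s ≤ 1) :
    Y / 42 ≤ aS Y s ∧ aS Y s ≤ Y := by
  unfold aS
  constructor <;> nlinarith

theorem bS_bd {Y : ℝ} (hY : 0 < Y) {s : ℝ} (s0 : 0 ≤ s) (s1 : s ≤ 1) :
    60 * Y ≤ bS Y s ∧ bS Y s ≤ 120 * Y := by
  unfold bS
  constructor <;> nlinarith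

theorem sum_jS {Y : ℝ} (hY : 1 ≤ Y) (u : ℝ) {s : ℝ} (s0 : 0 ≤ s) (s1 : s ≤ 1) :
    ∑ n ∈ Icc 1 ⌊120 * Y⌋₊, ((jS Y n s : ℝ) : ℂ) * ph n u =
      ∑ n ∈ Ioc ⌊aS Y s⌋₊ ⌊bS Y s⌋₊, ph n u := by
  have hY0 : 0 < Y := by linarith
  have ha0 : 0 ≤ aS Y s := le_trans (by positivity) (aS_bd hY0 s0 s1).1
  have hb0 : 0 ≤ bS Y s := le_trans (by positivity) (bS_bd hY0 s0 s1).1
  have hb : bS Y s ≤ 120 * Y := (bS_bd hY0 s0 s1).2
  have h1 : Ioc ⌊aS Y s⌋₊ ⌊bS Y s⌋₊ =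
      (Icc 1 ⌊120 * Y⌋₊).filter (fun n : ℕ => aS Y s < n ∧ (n : ℝ) ≤ bS Y s) := by
    ext n
    rw [mem_Ioc, mem_filter, mem_Icc, Nat.floor_lt ha0, Nat.le_floor_iff hb0]
    constructor
    · rintro ⟨h2, h3⟩
      refine ⟨⟨?_, ?_⟩, h2, h3⟩
      · have : (0 : ℝ) < n := ha0.trans_lt h2
        exact_mod_cast this
      · exact Nat.le_floor (h3.trans hb)
    · rintro ⟨-, h2, h3⟩
      exact ⟨h2, h3⟩
  rw [h1, sum_filter]
  refine sum_congr rfl fun n _ => ?_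
  unfold jS
  split_ifs <;> simp

theorem integral_G {Y : ℝ} (hY : 0 < Y) (u : ℝ) (hu : u ≠ 0) (α β : ℝ) (hα : 0 < α) (hβ : β ≠ 0)
    (hαβ : 0 < α + β) :
    ‖∫ s in (0 : ℝ)..1, Gf u (Y * (α + s * β))‖ ≤
      ((α + β) ^ 2 + α ^ 2) / |β| * (Y / u ^ 2) := by
  have hpos : ∀ s ∈ Set.uIcc (0 : ℝ) 1, 0 < Y * (α + s * β) := by
    intro s hs
    rw [Set.uIcc_of_le zero_le_one] at hs
    obtain ⟨s0, s1⟩ := hs
    refine mul_pos hY ?_
    have h1 : α + s * β = (1 - s) * α + s * (α + β) := by ring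
    rw [h1]
    rcases s0.eq_or_lt with h2 | h2
    · rw [← h2]
      simpa using hα
    · have : 0 ≤ (1 - s) * α := mul_nonneg (by linarith) hα.le
      have : 0 < s * (α + β) := mul_pos h2 hαβ
      linarith
  have hd : ∀ s ∈ Set.uIcc (0 : ℝ) 1, HasDerivAt
      (fun s : ℝ => Hf u (Y * (α + s * β)) / ((Y * β : ℝ) : ℂ)) (Gf u (Y * (α + s * β))) s := by
    intro s hs
    have h1 : HasDerivAt (fun s : ℝ => Y * (α + s * β)) (Y * β) s := by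
      have := (((hasDerivAt_id s).mul_const β).const_add α).const_mul Y
      simpa using this
    have h2 := (HasDerivAt.scomp s (hasDerivAt_Hf u (hpos s hs)) h1).div_const ((Y * β : ℝ) : ℂ)
    refine h2.congr_deriv ?_
    have h3 : ((Y * β : ℝ) : ℂ) ≠ 0 := by
      exact_mod_cast mul_ne_zero hY.ne' hβ
    rw [Complex.real_smul, mul_comm, mul_div_assoc, div_self h3, mul_one]
  have hint : IntervalIntegrable (fun s : ℝ => Gf u (Y * (α + s * β))) MeasureTheory.volume 0 1 := by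
    refine ContinuousOn.intervalIntegrable fun s hs => ?_
    have h1 := (hasDerivAt_Gf u (hpos s hs)).continuousAt
    have h2 : ContinuousAt (fun s : ℝ => Y * (α + s * β)) s := by fun_prop
    exact (ContinuousAt.comp (f := fun s : ℝ => Y * (α + s * β)) h1 h2).continuousWithinAt
  rw [intervalIntegral.integral_eq_sub_of_hasDerivAt hd hint]
  have h5 : ‖((Y * β : ℝ) : ℂ)‖ = Y * |β| := by
    rw [Complex.norm_real, Real.norm_eq_abs, abs_mul, abs_of_pos hY]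
  refine (norm_sub_le _ _).trans ?_
  rw [norm_div, norm_div, h5, ← add_div]
  have h6 := norm_Hf_le u hu (Y * (α + 1 * β))
  have h7 := norm_Hf_le u hu (Y * (α + 0 * β))
  have hb : 0 < |β| := abs_pos.2 hβ
  have hu2 : 0 < u ^ 2 := by positivity
  have h8 : ((α + β) ^ 2 + α ^ 2) / |β| * (Y / u ^ 2) =
      ((Y * (α + 1 * β)) ^ 2 / u ^ 2 + (Y * (α + 0 * β)) ^ 2 / u ^ 2) / (Y * |β|) := by
    field_simp
    ring
  rw [h8]
  exact div_le_div_of_nonneg_right (add_le_add h6 h7) (by positivity)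

/-- the estimate for one pair of end points -/
theorem piece {c C : ℝ} (hc : 0 < c) (hc2 : c ≤ 1 / 2) (hC : 0 < C)
    (h : ∀ (j : ℕ) (M M' : ℕ) (u : ℝ), 1 ≤ M →
    M ≤ M' → M' ≤ 2 ^ j * M → 1 ≤ |u| → |u| ≤ (M : ℝ) ^ 2 →
      ‖∑ n ∈ Ioc M M', ph n u - (Gf u M' - Gf u M)‖ ≤ j * C * (M' : ℝ) ^ (1 - c))
    {Y : ℝ} (hY : 2 ^ 20 ≤ Y) {u : ℝ} (hu : 1 ≤ |u|) (hu2 : |u| ≤ Y ^ (5 / 4 : ℝ))
    {s : ℝ} (s0 : 0 ≤ s) (s1 : s ≤ 1) :
    ‖∑ n ∈ Ioc ⌊aS Y s⌋₊ ⌊bS Y s⌋₊, ph n u - (Gf u (bS Y s) - Gf u (aS Y s))‖ ≤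
      (1680 * C + 2) * Y ^ (1 - c) := by
  have hY20 : (1048576 : ℝ) ≤ Y := by
    norm_num at hY
    exact hY
  have hY0 : 0 < Y := by linarith
  have hY1 : 1 ≤ Y := by linarith
  obtain ⟨ha1, ha2⟩ := aS_bd hY0 s0 s1
  obtain ⟨hb1, hb2⟩ := bS_bd hY0 s0 s1
  have ha0 : 0 ≤ aS Y s := by linarith
  have hb0 : 0 ≤ bS Y s := by linarith
  have hM1 := Nat.sub_one_lt_floor (aS Y s)
  have hM2 := Nat.floor_le ha0
  have hM3 := Nat.sub_one_lt_floor (bS Y s)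
  have hM4 := Nat.floor_le hb0
  set M := ⌊aS Y s⌋₊ with hM
  set M' := ⌊bS Y s⌋₊ with hM'
  have hMge : Y / 84 ≤ (M : ℝ) := by linarith
  have hM0 : (0 : ℝ) < M := by linarith
  have hM1' : 1 ≤ M := by exact_mod_cast hM0
  have hMM : M ≤ M' := Nat.floor_le_floor (by linarith)
  have hM'0 : (0 : ℝ) < M' := by linarith
  have hMsq : Y ^ (5 / 4 : ℝ) ≤ (M : ℝ) ^ 2 := by
    have h1 : (Y / 84) ^ 2 ≤ (M : ℝ) ^ 2 :=
      pow_le_pow_left₀ (by positivity) hMge 2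
    refine le_trans ?_ h1
    have h2 : Y ^ 2 = Y ^ (5 / 4 : ℝ) * Y ^ (3 / 4 : ℝ) := by
      rw [← Real.rpow_add hY0, ← Real.rpow_natCast]
      norm_num
    have h3 : (7056 : ℝ) ≤ Y ^ (3 / 4 : ℝ) := by
      have h4 : ((2 : ℝ) ^ 20) ^ (3 / 4 : ℝ) = 2 ^ 15 := by
        rw [← Real.rpow_natCast, ← Real.rpow_mul (by norm_num), ← Real.rpow_natCast]
        norm_num
      have h5 : ((2 : ℝ) ^ 20) ^ (3 / 4 : ℝ) ≤ Y ^ (3 / 4 : ℝ) :=
        Real.rpow_le_rpow (by positivity) hY (by norm_num)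
      rw [h4] at h5
      norm_num at h5
      linarith
    have h6 : (Y / 84) ^ 2 = Y ^ (5 / 4 : ℝ) * (Y ^ (3 / 4 : ℝ) / 7056) := by
      rw [div_pow, h2]
      ring
    rw [h6]
    have h8 : 0 ≤ Y ^ (5 / 4 : ℝ) := by positivity
    calc Y ^ (5 / 4 : ℝ) = Y ^ (5 / 4 : ℝ) * 1 := (mul_one _).symm
      _ ≤ _ := mul_le_mul_of_nonneg_left (by linarith) h8
  have hM14 : M' ≤ 2 ^ 14 * M := by
    have h1 : (M' : ℝ) ≤ ((2 ^ 14 * M : ℕ) : ℝ) := by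
      push_cast
      linarith
    exact_mod_cast h1
  have key := h 14 M M' u hM1' hMM hM14 hu (hu2.trans hMsq)
  have hM'b : (M' : ℝ) ^ (1 - c) ≤ 120 * Y ^ (1 - c) := by
    have h1 : (M' : ℝ) ^ (1 - c) ≤ (120 * Y) ^ (1 - c) :=
      Real.rpow_le_rpow hM'0.le (by linarith) (by linarith)
    refine h1.trans ?_
    rw [Real.mul_rpow (by norm_num) hY0.le]
    refine mul_le_mul_of_nonneg_right ?_ (by positivity)
    calc (120 : ℝ) ^ (1 - c) ≤ 120 ^ (1 : ℝ) :=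
          Real.rpow_le_rpow_of_exponent_le (by norm_num) (by linarith)
      _ = 120 := Real.rpow_one _
  have hYc : 1 ≤ Y ^ (1 - c) := Real.one_le_rpow hY1 (by linarith)
  have g1 : ‖Gf u (bS Y s) - Gf u M'‖ ≤ 1 := by
    refine (Gf_lip u hM'0 (by linarith)).trans ?_
    rw [abs_le]
    constructor <;> linarith
  have g2 : ‖Gf u (aS Y s) - Gf u M‖ ≤ 1 := by
    refine (Gf_lip u hM0 (by linarith)).trans ?_
    rw [abs_le]
    constructor <;> linarith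
  have hsplit : ∑ n ∈ Ioc M M', ph n u - (Gf u (bS Y s) - Gf u (aS Y s)) =
      (∑ n ∈ Ioc M M', ph n u - (Gf u M' - Gf u M)) - (Gf u (bS Y s) - Gf u M') +
        (Gf u (aS Y s) - Gf u M) := by ring
  rw [hsplit]
  refine (norm_add_le _ _).trans ?_
  have h9 := norm_sub_le (∑ n ∈ Ioc M M', ph n u - (Gf u M' - Gf u M)) (Gf u (bS Y s) - Gf u M')
  have h10 : ((14 : ℕ) : ℝ) * C * (M' : ℝ) ^ (1 - c) ≤ 14 * C * (120 * Y ^ (1 - c)) := by
    push_cast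
    exact mul_le_mul_of_nonneg_left hM'b (by positivity)
  linarith

/-- the kernel with the explicit range of `c` -/
theorem kernel' : ∃ c C : ℝ, 0 < c ∧ c ≤ 1 / 2 ∧ 0 < C ∧ ∀ Y : ℝ, 1 ≤ Y → ∃ w : ℕ → ℝ,
    (∀ n, 0 ≤ w n ∧ w n ≤ 1) ∧
    (∀ n : ℕ, Y / 21 ≤ n → (n : ℝ) ≤ 60 * Y → w n = 1) ∧ (∀ n : ℕ, 120 * Y < n → w n = 0) ∧
    ∀ u : ℝ, 1 ≤ |u| → |u| ≤ Y ^ (5 / 4 : ℝ) →
      ‖∑ n ∈ Icc 1 ⌊120 * Y⌋₊, ((w n : ℝ) : ℂ) * ph n u‖ ≤ C * (Y / u ^ 2 + Y ^ (1 - c)) := by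
  obtain ⟨c, C, hc, hc2, hC, h⟩ := osc2
  refine ⟨c, 120 * 2 ^ 20 + (1680 * C + 2) + 301, hc, hc2, by positivity,
    fun Y hY => ⟨wS Y, fun n => ⟨wS_nonneg Y n, wS_le Y n⟩, wS_one hY, wS_zero hY,
      fun u hu hu2 => ?_⟩⟩
  have hY0 : 0 < Y := by linarith
  have hu0 : u ≠ 0 := by
    rintro rfl
    rw [abs_zero] at hu
    linarith
  have hYu : 0 ≤ Y / u ^ 2 := by positivity
  have hYc : 0 ≤ Y ^ (1 - c) := by positivity
  rcases lt_or_ge Y (2 ^ 20) with h16 | h16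
  · have h1 : ‖∑ n ∈ Icc 1 ⌊120 * Y⌋₊, ((wS Y n : ℝ) : ℂ) * ph n u‖ ≤ 120 * Y := by
      refine (norm_sum_le _ _).trans ?_
      have h2 : ∑ n ∈ Icc 1 ⌊120 * Y⌋₊, ‖((wS Y n : ℝ) : ℂ) * ph n u‖ ≤
          ∑ n ∈ Icc 1 ⌊120 * Y⌋₊, (1 : ℝ) := by
        refine sum_le_sum fun n _ => ?_
        rw [norm_mul, hm_ph_norm, mul_one, Complex.norm_real, Real.norm_eq_abs,
          abs_of_nonneg (wS_nonneg Y n)]
        exact wS_le Y n
      refine h2.trans ?_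
      rw [sum_const, nsmul_eq_mul, mul_one, Nat.card_Icc, Nat.add_sub_cancel]
      exact Nat.floor_le (by positivity)
    have h2 : Y ≤ Y ^ (1 - c) * 2 ^ 20 := by
      have h3 : Y = Y ^ (1 - c) * Y ^ c := by
        rw [← Real.rpow_add hY0]
        norm_num
      have h4 : Y ^ c ≤ 2 ^ 20 := by
        refine le_trans ?_ h16.le
        calc Y ^ c ≤ Y ^ (1 : ℝ) := Real.rpow_le_rpow_of_exponent_le hY (by linarith)
          _ = Y := Real.rpow_one _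
      calc Y = Y ^ (1 - c) * Y ^ c := h3
        _ ≤ _ := mul_le_mul_of_nonneg_left h4 hYc
    have h5 : 0 ≤ ((1680 * C + 2) + 301) * Y ^ (1 - c) := by positivity
    have h6 : 0 ≤ (120 * 2 ^ 20 + (1680 * C + 2) + 301) * (Y / u ^ 2) := by positivity
    linarith
  · have hF : ∑ n ∈ Icc 1 ⌊120 * Y⌋₊, ((wS Y n : ℝ) : ℂ) * ph n u =
        ∫ s in (0 : ℝ)..1, ∑ n ∈ Icc 1 ⌊120 * Y⌋₊, ((jS Y n s : ℝ) : ℂ) * ph n u := by
      rw [intervalIntegral.integral_finsetSum]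
      · refine sum_congr rfl fun n _ => ?_
        rw [intervalIntegral.integral_mul_const, intervalIntegral.integral_ofReal]
        rfl
      · intro n _
        exact (integrable_jSc Y n).mul_const _
    have hFi : IntervalIntegrable (fun s => ∑ n ∈ Icc 1 ⌊120 * Y⌋₊, ((jS Y n s : ℝ) : ℂ) * ph n u)
        MeasureTheory.volume 0 1 := by
      have h1 := IntervalIntegrable.sum (μ := MeasureTheory.volume) (a := 0) (b := 1)
        (Icc 1 ⌊120 * Y⌋₊) (f := fun n s => ((jS Y n s : ℝ) : ℂ) * ph n u)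
        fun n _ => (integrable_jSc Y n).mul_const _
      have h2 : (fun s => ∑ n ∈ Icc 1 ⌊120 * Y⌋₊, ((jS Y n s : ℝ) : ℂ) * ph n u) =
          ∑ n ∈ Icc 1 ⌊120 * Y⌋₊, fun s => ((jS Y n s : ℝ) : ℂ) * ph n u := by
        funext s
        rw [Finset.sum_apply]
      rw [h2]
      exact h1
    have hbi : ∀ s ∈ Set.uIcc (0 : ℝ) 1, 0 < bS Y s := by
      intro s hs
      rw [Set.uIcc_of_le zero_le_one] at hs
      exact lt_of_lt_of_le (by positivity) (bS_bd hY0 hs.1 hs.2).1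
    have hai : ∀ s ∈ Set.uIcc (0 : ℝ) 1, 0 < aS Y s := by
      intro s hs
      rw [Set.uIcc_of_le zero_le_one] at hs
      exact lt_of_lt_of_le (by positivity) (aS_bd hY0 hs.1 hs.2).1
    have hGb : IntervalIntegrable (fun s => Gf u (bS Y s)) MeasureTheory.volume 0 1 := by
      refine ContinuousOn.intervalIntegrable fun s hs => ?_
      have h1 := (hasDerivAt_Gf u (hbi s hs)).continuousAt
      have h2 : ContinuousAt (bS Y) s := by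
        unfold bS
        fun_prop
      exact (ContinuousAt.comp (f := bS Y) h1 h2).continuousWithinAt
    have hGa : IntervalIntegrable (fun s => Gf u (aS Y s)) MeasureTheory.volume 0 1 := by
      refine ContinuousOn.intervalIntegrable fun s hs => ?_
      have h1 := (hasDerivAt_Gf u (hai s hs)).continuousAt
      have h2 : ContinuousAt (aS Y) s := by
        unfold aS
        fun_prop
      exact (ContinuousAt.comp (f := aS Y) h1 h2).continuousWithinAt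
    have hsub : ‖∫ s in (0 : ℝ)..1, ((∑ n ∈ Icc 1 ⌊120 * Y⌋₊, ((jS Y n s : ℝ) : ℂ) * ph n u) -
        (Gf u (bS Y s) - Gf u (aS Y s)))‖ ≤ (1680 * C + 2) * Y ^ (1 - c) := by
      have h1 := intervalIntegral.norm_integral_le_of_norm_le_const (a := (0 : ℝ)) (b := 1)
        (C := (1680 * C + 2) * Y ^ (1 - c))
        (f := fun s => (∑ n ∈ Icc 1 ⌊120 * Y⌋₊, ((jS Y n s : ℝ) : ℂ) * ph n u) -
        (Gf u (bS Y s) - Gf u (aS Y s))) fun s hs => by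
          rw [Set.uIoc_of_le zero_le_one] at hs
          rw [sum_jS hY u hs.1.le hs.2]
          exact piece hc hc2 hC h h16 hu hu2 hs.1.le hs.2
      simpa using h1
    have hb : ‖∫ s in (0 : ℝ)..1, Gf u (bS Y s)‖ ≤ 300 * (Y / u ^ 2) := by
      have h1 := integral_G hY0 u hu0 120 (-60) (by norm_num) (by norm_num) (by norm_num)
      refine h1.trans (le_of_eq ?_)
      norm_num
    have ha : ‖∫ s in (0 : ℝ)..1, Gf u (aS Y s)‖ ≤ 1 * (Y / u ^ 2) := by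
      have h1 := integral_G hY0 u hu0 (1 / 42) (1 / 84) (by norm_num) (by norm_num) (by norm_num)
      refine h1.trans (mul_le_mul_of_nonneg_right ?_ hYu)
      rw [abs_of_pos (by norm_num)]
      norm_num
    have hfin : ∫ s in (0 : ℝ)..1, ∑ n ∈ Icc 1 ⌊120 * Y⌋₊, ((jS Y n s : ℝ) : ℂ) * ph n u =
        (∫ s in (0 : ℝ)..1, ((∑ n ∈ Icc 1 ⌊120 * Y⌋₊, ((jS Y n s : ℝ) : ℂ) * ph n u) -
        (Gf u (bS Y s) - Gf u (aS Y s)))) + ((∫ s in (0 : ℝ)..1, Gf u (bS Y s)) -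
          ∫ s in (0 : ℝ)..1, Gf u (aS Y s)) := by
      rw [intervalIntegral.integral_sub hFi (hGb.sub hGa), intervalIntegral.integral_sub hGb hGa]
      ring
    rw [hF, hfin]
    refine (norm_add_le _ _).trans ?_
    have h7 := norm_sub_le (∫ s in (0 : ℝ)..1, Gf u (bS Y s)) (∫ s in (0 : ℝ)..1, Gf u (aS Y s))
    have h8 : 0 ≤ (120 * 2 ^ 20 + 301) * Y ^ (1 - c) := by positivity
    have h9 : 0 ≤ (120 * 2 ^ 20 + (1680 * C + 2)) * (Y / u ^ 2) := by positivity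
    linarith

/-- The kernel: with a trapezoid `w` (`1` on `[Y/21, 60 Y]`, supported in `[Y/42, 120 Y]`, slopes `O(1/Y)`), for `1 ≤ |u| ≤ Y^{5/4}`:
`|∑ w(n) n^{-iu}| ≤ C (Y/u^2 + Y^{1-c})`. (Partial summation with `osc` for dyadic pieces `M ≥ Y/42`; the main term is
`∫ w(x) x^{-iu} dx`, integrated by parts twice.) -/
theorem kernel : ∃ c C : ℝ, 0 < c ∧ c ≤ 1 ∧ 0 < C ∧ ∀ Y : ℝ, 1 ≤ Y → ∃ w : ℕ → ℝ, (∀ n, 0 ≤ w n ∧ w n ≤ 1) ∧
    (∀ n : ℕ, Y / 21 ≤ n → (n : ℝ) ≤ 60 * Y → w n = 1) ∧ (∀ n : ℕ, 120 * Y < n → w n = 0) ∧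
    ∀ u : ℝ, 1 ≤ |u| → |u| ≤ Y ^ (5 / 4 : ℝ) →
      ‖∑ n ∈ Icc 1 ⌊120 * Y⌋₊, ((w n : ℝ) : ℂ) * ph n u‖ ≤ C * (Y / u ^ 2 + Y ^ (1 - c)) := by
  obtain ⟨c, C, hc, hc2, hC, h⟩ := kernel'
  exact ⟨c, C, hc, by linarith, hC, h⟩

/-- one sided sums over separated points -/
theorem sum_sep {ι : Type*} (T : Finset ι) (ρ : ι → ℝ) (h1 : ∀ t ∈ T, 1 ≤ ρ t)
    (h2 : ∀ t ∈ T, ∀ t' ∈ T, t ≠ t' → 1 ≤ |ρ t - ρ t'|) : ∑ t ∈ T, 1 / ρ t ^ 2 ≤ 2 := by
  classical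
  have hf : ∀ t ∈ T, 1 / ρ t ^ 2 ≤ (((⌊ρ t⌋₊ : ℕ) : ℝ) ^ 2)⁻¹ := by
    intro t ht
    have h3 := h1 t ht
    have h4 : (⌊ρ t⌋₊ : ℝ) ≤ ρ t := Nat.floor_le (by linarith)
    have h5 : 1 ≤ ⌊ρ t⌋₊ := Nat.le_floor (by simpa using h3)
    have h6 : (1 : ℝ) ≤ (⌊ρ t⌋₊ : ℝ) := by exact_mod_cast h5
    rw [one_div]
    exact inv_anti₀ (by positivity) (pow_le_pow_left₀ (by positivity) h4 2)
  refine (sum_le_sum hf).trans ?_
  have hinj : ∀ t ∈ T, ∀ t' ∈ T, ⌊ρ t⌋₊ = ⌊ρ t'⌋₊ → t = t' := by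
    intro t ht t' ht' h3
    by_contra h4
    have h5 := h2 t ht t' ht' h4
    have g1 := Nat.floor_le (by linarith [h1 t ht] : 0 ≤ ρ t)
    have g2 := Nat.floor_le (by linarith [h1 t' ht'] : 0 ≤ ρ t')
    have g3 := Nat.lt_floor_add_one (ρ t)
    have g4 := Nat.lt_floor_add_one (ρ t')
    rw [h3] at g1 g3
    rcases abs_cases (ρ t - ρ t') with ⟨h6, h7⟩ | ⟨h6, h7⟩ <;> linarith
  rw [← sum_image (f := fun k : ℕ => (((k : ℕ) : ℝ) ^ 2)⁻¹) (g := fun t => ⌊ρ t⌋₊) hinj]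
  obtain ⟨K, hK⟩ : ∃ K : ℕ, ∀ t ∈ T, ⌊ρ t⌋₊ < K := by
    refine ⟨∑ t ∈ T, ⌊ρ t⌋₊ + 1, fun t ht => ?_⟩
    exact Nat.lt_succ_of_le (single_le_sum (f := fun t => ⌊ρ t⌋₊) (fun _ _ => Nat.zero_le _) ht)
  have hsub : T.image (fun t => ⌊ρ t⌋₊) ⊆ Ioo 0 K := by
    intro k hk
    rw [mem_image] at hk
    obtain ⟨t, ht, rfl⟩ := hk
    rw [mem_Ioo]
    refine ⟨?_, hK t ht⟩
    exact Nat.le_floor (by simpa using h1 t ht)
  refine (sum_le_sum_of_subset_of_nonneg hsub fun _ _ _ => by positivity).trans ?_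
  have := sum_Ioo_inv_sq_le (α := ℝ) 0 K
  simpa using this

/-- sums over separated points -/
theorem sum_sep2 (S : Finset ℝ) (t : ℝ) (h1 : ∀ t' ∈ S, 1 ≤ |t - t'|)
    (h2 : ∀ x ∈ S, ∀ y ∈ S, x ≠ y → 1 ≤ |x - y|) : ∑ t' ∈ S, 1 / (t - t') ^ 2 ≤ 4 := by
  have hA : ∑ t' ∈ S.filter (fun t' => t < t'), 1 / (t - t') ^ 2 ≤ 2 := by
    have := sum_sep (S.filter (fun t' => t < t')) (fun t' => t' - t) (fun x hx => by
      rw [mem_filter] at hx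
      have h3 := h1 x hx.1
      rw [abs_of_neg (by linarith [hx.2])] at h3
      linarith) (fun x hx y hy hxy => by
      rw [mem_filter] at hx hy
      have h3 := h2 x hx.1 y hy.1 hxy
      rw [show x - t - (y - t) = x - y by ring]
      exact h3)
    refine le_trans (le_of_eq (sum_congr rfl fun x _ => ?_)) this
    rw [show (t - x) ^ 2 = (x - t) ^ 2 by ring]
  have hB : ∑ t' ∈ S.filter (fun t' => ¬ t < t'), 1 / (t - t') ^ 2 ≤ 2 := by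
    refine sum_sep (S.filter (fun t' => ¬ t < t')) (fun t' => t - t') (fun x hx => by
      rw [mem_filter] at hx
      have h3 := h1 x hx.1
      rw [abs_of_nonneg (by linarith [not_lt.1 hx.2])] at h3
      exact h3) (fun x hx y hy hxy => by
      rw [mem_filter] at hx hy
      have h3 := h2 y hy.1 x hx.1 hxy.symm
      rw [show t - x - (t - y) = y - x by ring]
      exact h3)
  rw [← sum_filter_add_sum_filter_not S (fun t' => t < t')]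
  linarith

/-- Proof. `dual` with the weight of `kernel`: the differences satisfy `1 ≤ |t - t'| ≤ 2 Y^{6/5} ≤ Y^{5/4}` (for large `Y`; for bounded `Y` the
trivial bound), the sum of `Y/u^2` over 1-separated points is at most `C Y`, and `#S · Y^{1-c} ≤ Y` if `c1 ≤ c`. -/
theorem hm : ∃ c₁ C : ℝ, 0 < c₁ ∧ c₁ ≤ 1 ∧ 0 < C ∧ ∀ (Y : ℝ) (a : ℕ → ℂ) (S : Finset ℝ),
    1 ≤ Y → (∀ n, a n ≠ 0 → Y / 21 ≤ n ∧ (n : ℝ) ≤ 60 * Y) → (∀ t ∈ S, |t| ≤ Y ^ (6 / 5 : ℝ)) →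
    (∀ t ∈ S, ∀ t' ∈ S, t ≠ t' → 1 ≤ |t - t'|) → (S.card : ℝ) ≤ Y ^ c₁ →
    ∑ t ∈ S, ‖∑ n ∈ Icc 1 ⌊60 * Y⌋₊, a n * ph n t‖ ^ 2 ≤ C * Y * ∑ n ∈ Icc 1 ⌊60 * Y⌋₊, ‖a n‖ ^ 2 := by
  obtain ⟨c, C, hc, hc2, hC, h⟩ := kernel'
  refine ⟨c, 60 * 2 ^ 20 + (120 + 5 * C), hc, by linarith, by positivity,
    fun Y a S hY ha hS hsep hcard => ?_⟩
  have hY0 : 0 < Y := by linarith
  have ha2 : 0 ≤ ∑ n ∈ Icc 1 ⌊60 * Y⌋₊, ‖a n‖ ^ 2 := sum_nonneg fun _ _ => sq_nonneg _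
  rcases lt_or_ge Y (2 ^ 20) with h20 | h20
  · have h1 : ∀ t ∈ S, ‖∑ n ∈ Icc 1 ⌊60 * Y⌋₊, a n * ph n t‖ ^ 2 ≤
        60 * Y * ∑ n ∈ Icc 1 ⌊60 * Y⌋₊, ‖a n‖ ^ 2 := by
      intro t _
      have h2 : ‖∑ n ∈ Icc 1 ⌊60 * Y⌋₊, a n * ph n t‖ ≤ ∑ n ∈ Icc 1 ⌊60 * Y⌋₊, ‖a n‖ := by
        refine (norm_sum_le _ _).trans (le_of_eq (sum_congr rfl fun n _ => ?_))
        rw [norm_mul, hm_ph_norm, mul_one]
      refine (pow_le_pow_left₀ (norm_nonneg _) h2 2).trans ?_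
      refine sq_sum_le_card_mul_sum_sq.trans ?_
      rw [Nat.card_Icc, Nat.add_sub_cancel]
      exact mul_le_mul_of_nonneg_right (Nat.floor_le (by positivity)) ha2
    refine (sum_le_sum h1).trans ?_
    rw [sum_const, nsmul_eq_mul]
    have h3 : (S.card : ℝ) ≤ 2 ^ 20 := by
      refine hcard.trans (le_trans ?_ h20.le)
      calc Y ^ c ≤ Y ^ (1 : ℝ) := Real.rpow_le_rpow_of_exponent_le hY (by linarith)
        _ = Y := Real.rpow_one _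
    have h4 : (S.card : ℝ) * (60 * Y * ∑ n ∈ Icc 1 ⌊60 * Y⌋₊, ‖a n‖ ^ 2) ≤
        2 ^ 20 * (60 * Y * ∑ n ∈ Icc 1 ⌊60 * Y⌋₊, ‖a n‖ ^ 2) :=
      mul_le_mul_of_nonneg_right h3 (by positivity)
    have h5 : 0 ≤ (120 + 5 * C) * Y * ∑ n ∈ Icc 1 ⌊60 * Y⌋₊, ‖a n‖ ^ 2 := by positivity
    linarith
  · obtain ⟨w, hw, hw1, hw0, hker⟩ := h Y hY
    have hle : ⌊60 * Y⌋₊ ≤ ⌊120 * Y⌋₊ := Nat.floor_le_floor (by linarith)
    have hext : ∀ f : ℕ → ℂ, (∀ n, a n = 0 → f n = 0) →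
        ∑ n ∈ Icc 1 ⌊120 * Y⌋₊, f n = ∑ n ∈ Icc 1 ⌊60 * Y⌋₊, f n := by
      intro f hf
      symm
      refine sum_subset (Icc_subset_Icc_right hle) fun n hn hn2 => hf n ?_
      by_contra h0
      refine hn2 (mem_Icc.2 ⟨(mem_Icc.1 hn).1, Nat.le_floor (ha n h0).2⟩)
    have hext2 : ∑ n ∈ Icc 1 ⌊120 * Y⌋₊, ‖a n‖ ^ 2 = ∑ n ∈ Icc 1 ⌊60 * Y⌋₊, ‖a n‖ ^ 2 := by
      symm
      refine sum_subset (Icc_subset_Icc_right hle) fun n hn hn2 => ?_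
      have h0 : a n = 0 := by
        by_contra h0
        exact hn2 (mem_Icc.2 ⟨(mem_Icc.1 hn).1, Nat.le_floor (ha n h0).2⟩)
      rw [h0]
      simp
    have hbound : ∀ t ∈ S, ∑ t' ∈ S,
        ‖∑ n ∈ Icc 1 ⌊120 * Y⌋₊, ((w n : ℝ) : ℂ) * ph n (t - t')‖ ≤ (120 + 5 * C) * Y := by
      intro t ht
      rw [← add_sum_erase S _ ht]
      have g1 : ‖∑ n ∈ Icc 1 ⌊120 * Y⌋₊, ((w n : ℝ) : ℂ) * ph n (t - t)‖ ≤ 120 * Y := by
        refine (norm_sum_le _ _).trans ?_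
        have h2 : ∑ n ∈ Icc 1 ⌊120 * Y⌋₊, ‖((w n : ℝ) : ℂ) * ph n (t - t)‖ ≤
            ∑ n ∈ Icc 1 ⌊120 * Y⌋₊, (1 : ℝ) := by
          refine sum_le_sum fun n _ => ?_
          rw [norm_mul, hm_ph_norm, mul_one, Complex.norm_real, Real.norm_eq_abs,
            abs_of_nonneg (hw n).1]
          exact (hw n).2
        refine h2.trans ?_
        rw [sum_const, nsmul_eq_mul, mul_one, Nat.card_Icc, Nat.add_sub_cancel]
        exact Nat.floor_le (by positivity)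
      have g2 : ∀ t' ∈ S.erase t,
          ‖∑ n ∈ Icc 1 ⌊120 * Y⌋₊, ((w n : ℝ) : ℂ) * ph n (t - t')‖ ≤
            C * Y * (1 / (t - t') ^ 2) + C * Y ^ (1 - c) := by
        intro t' ht'
        rw [mem_erase] at ht'
        have h3 := hsep t ht t' ht'.2 ht'.1.symm
        have h4 : |t - t'| ≤ Y ^ (5 / 4 : ℝ) := by
          have h5 : |t - t'| ≤ 2 * Y ^ (6 / 5 : ℝ) := by
            have := abs_sub t t'
            linarith [hS t ht, hS t' ht'.2]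
          refine h5.trans ?_
          have h6 : Y ^ (5 / 4 : ℝ) = Y ^ (1 / 20 : ℝ) * Y ^ (6 / 5 : ℝ) := by
            rw [← Real.rpow_add hY0]
            norm_num
          rw [h6]
          refine mul_le_mul_of_nonneg_right ?_ (by positivity)
          have h7 : ((2 : ℝ) ^ 20) ^ (1 / 20 : ℝ) = 2 := by
            rw [← Real.rpow_natCast, ← Real.rpow_mul (by norm_num)]
            norm_num
          calc (2 : ℝ) = ((2 : ℝ) ^ 20) ^ (1 / 20 : ℝ) := h7.symm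
            _ ≤ _ := Real.rpow_le_rpow (by positivity) h20 (by norm_num)
        refine (hker (t - t') h3 h4).trans (le_of_eq ?_)
        ring
      have g3 := sum_le_sum g2
      rw [sum_add_distrib, ← mul_sum, sum_const, nsmul_eq_mul] at g3
      have g4 : ∑ t' ∈ S.erase t, 1 / (t - t') ^ 2 ≤ 4 :=
        sum_sep2 (S.erase t) t (fun x hx => hsep t ht x (mem_of_mem_erase hx) (ne_of_mem_erase hx).symm)
          fun x hx y hy hxy => hsep x (mem_of_mem_erase hx) y (mem_of_mem_erase hy) hxy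
      have g5 : ((S.erase t).card : ℝ) * (C * Y ^ (1 - c)) ≤ C * Y := by
        have h6 : ((S.erase t).card : ℝ) ≤ Y ^ c := by
          refine le_trans ?_ hcard
          exact_mod_cast card_le_card (erase_subset t S)
        calc ((S.erase t).card : ℝ) * (C * Y ^ (1 - c)) ≤ Y ^ c * (C * Y ^ (1 - c)) :=
              mul_le_mul_of_nonneg_right h6 (by positivity)
          _ = C * (Y ^ c * Y ^ (1 - c)) := by ring
          _ = C * Y := by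
              rw [← Real.rpow_add hY0]
              norm_num
      have g6 : C * Y * ∑ t' ∈ S.erase t, 1 / (t - t') ^ 2 ≤ C * Y * 4 :=
        mul_le_mul_of_nonneg_left g4 (by positivity)
      linarith
    have hd := dual ⌊120 * Y⌋₊ a w (fun n => (hw n).1)
      (fun n _ h0 => le_of_eq (hw1 n (ha n h0).1 (ha n h0).2).symm) S ((120 + 5 * C) * Y)
      (by positivity) hbound
    rw [hext2] at hd
    have he : ∑ t ∈ S, ‖∑ n ∈ Icc 1 ⌊120 * Y⌋₊, a n * ph n t‖ ^ 2 =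
        ∑ t ∈ S, ‖∑ n ∈ Icc 1 ⌊60 * Y⌋₊, a n * ph n t‖ ^ 2 := by
      refine sum_congr rfl fun t _ => ?_
      rw [hext (fun n => a n * ph n t) fun n h0 => by rw [h0, zero_mul]]
    rw [he] at hd
    refine hd.trans ?_
    have h5 : 0 ≤ 60 * 2 ^ 20 * Y * ∑ n ∈ Icc 1 ⌊60 * Y⌋₊, ‖a n‖ ^ 2 := by positivity
    linarith

end Pool.Agent.Lib.MP_3e612f_nt.MR
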