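import Pool.Agent.Lib.MP_3e612f_nt.MR.Defs
import Pool.Agent.Lib.MP_629a14_nt.Rob.PiAP
import Pool.Agent.Lib.MP_629a14_nt.Rob.M3Two

/-! Primes in the windows (from the prime number theorem and Mertens' theorems). -/

set_option autoImplicit false

namespace Pool.Agent.Lib.MP_3e612f_nt.MR

open Finset

/-- the end points of the windows -/
private noncomputable def pwB (H v : ℕ) : ℕ := ⌊Real.exp ((v : ℝ) / H)⌋₊

private theorem pw_eq (H v : ℕ) : pw H v = (Ioc (pwB H v) (pwB H (v + 1))).filter Nat.Prime := by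
  ext p
  rw [pw, mem_filter, mem_Icc, mem_filter, mem_Ioc, pwB, pwB, Nat.floor_lt (Real.exp_pos _).le]
  push_cast
  constructor
  · rintro ⟨⟨h1, h2⟩, h3, h4⟩
    exact ⟨⟨h4, h2⟩, h3⟩
  · rintro ⟨⟨h4, h2⟩, h3⟩
    exact ⟨⟨h3.one_le, h2⟩, h3, h4⟩

private theorem pwB_mono (H : ℕ) {v w : ℕ} (h : v ≤ w) : pwB H v ≤ pwB H w := by
  apply Nat.floor_le_floor
  apply Real.exp_le_exp.2
  apply div_le_div_of_nonneg_right _ (Nat.cast_nonneg H)
  exact_mod_cast h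

private theorem pwB_le (H v : ℕ) : (pwB H v : ℝ) ≤ Real.exp ((v : ℝ) / H) :=
  Nat.floor_le (Real.exp_pos _).le

private theorem lt_pwB (H v : ℕ) : Real.exp ((v : ℝ) / H) < pwB H v + 1 :=
  Nat.lt_floor_add_one _

/-- Chebyshev: `#pw 1 v ≤ C e^v/(v+1)` (e.g. `Rob/Mert.lean`, `Mathlib` Chebyshev, `Rob/PiAP.lean`). -/
theorem pw_unit : ∃ C : ℝ, 0 < C ∧ ∀ v : ℕ, ((pw 1 v).card : ℝ) ≤ C * Real.exp v / (v + 1) := by
  refine ⟨(2 * Real.log 4 + 2) * Real.exp 1, ?_, fun v => ?_⟩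
  · have := Real.log_nonneg (show (1 : ℝ) ≤ 4 by norm_num)
    positivity
  have hv : (0 : ℝ) < (v : ℝ) + 1 := by positivity
  have h1 : ((pw 1 v).card : ℝ) ≤ (Nat.primeCounting ⌊Real.exp ((v : ℝ) + 1)⌋₊ : ℝ) := by
    have h2 : (pw 1 v).card ≤ Nat.primeCounting ⌊Real.exp ((v : ℝ) + 1)⌋₊ := by
      rw [Nat.primeCounting, Nat.primeCounting', Nat.count_eq_card_filter_range]
      apply Finset.card_le_card
      intro p hp
      rw [pw, mem_filter, mem_Icc, Nat.cast_one, div_one] at hp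
      rw [mem_filter, mem_range]
      exact ⟨by omega, hp.2.1⟩
    exact_mod_cast h2
  have h3 := Chebyshev.pi_le_log4_mul_div (x := Real.exp ((v : ℝ) + 1))
    (Real.one_lt_exp_iff.2 hv)
  rw [← Real.exp_half, Real.log_exp] at h3
  have h4 : Real.exp (((v : ℝ) + 1) / 2) * ((v : ℝ) + 1) ≤ 2 * Real.exp ((v : ℝ) + 1) := by
    have h5 := Real.add_one_le_exp (((v : ℝ) + 1) / 2)
    have h6 : Real.exp ((v : ℝ) + 1) =
        Real.exp (((v : ℝ) + 1) / 2) * Real.exp (((v : ℝ) + 1) / 2) := by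
      rw [← Real.exp_add]
      congr 1
      ring
    rw [h6]
    have h7 := Real.exp_pos (((v : ℝ) + 1) / 2)
    nlinarith
  refine h1.trans (h3.trans ?_)
  rw [le_div_iff₀ hv]
  have h8 : Real.log 4 * Real.exp ((v : ℝ) + 1) / (((v : ℝ) + 1) / 2) * ((v : ℝ) + 1) =
      2 * Real.log 4 * Real.exp ((v : ℝ) + 1) := by
    field_simp
  rw [add_mul, h8]
  have h9 : Real.exp ((v : ℝ) + 1) = Real.exp 1 * Real.exp v := by
    rw [← Real.exp_add]
    congr 1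
    ring
  rw [h9] at h4 ⊢
  nlinarith

/-- From `pw_unit`: the window is contained in at most two unit windows. -/
theorem pw_recip_le : ∃ C₀ : ℝ, 1 ≤ C₀ ∧ ∀ H v : ℕ, 1 ≤ H → C₀ * H ≤ v →
    ∑ p ∈ pw H v, (1 : ℝ) / p ≤ 1 := by
  obtain ⟨C, hC, hu⟩ := pw_unit
  refine ⟨max 1 (2 * C), le_max_left _ _, fun H v hH hv => ?_⟩
  have hH0 : (0 : ℝ) < H := by exact_mod_cast hH
  have hH1 : (1 : ℝ) ≤ H := by exact_mod_cast hH
  set w := ⌊(v : ℝ) / H⌋₊ with hw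
  have hw1 : (w : ℝ) ≤ (v : ℝ) / H := Nat.floor_le (by positivity)
  have hw2 : (v : ℝ) / H < w + 1 := Nat.lt_floor_add_one _
  have hsub : pw H v ⊆ pw 1 w ∪ pw 1 (w + 1) := by
    intro p hp
    rw [pw, mem_filter, mem_Icc] at hp
    obtain ⟨⟨hp1, hp2⟩, hp3, hp4⟩ := hp
    have hp5 : (p : ℝ) ≤ Real.exp (((v : ℝ) + 1) / H) := (Nat.le_floor_iff (Real.exp_pos _).le).1 hp2
    have hp6 : (p : ℝ) ≤ Real.exp ((w : ℝ) + 2) := by
      refine hp5.trans (Real.exp_le_exp.2 ?_)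
      rw [add_div]
      have : (1 : ℝ) / H ≤ 1 := by
        rw [div_le_one hH0]
        exact hH1
      linarith
    have hp7 : Real.exp w < p := lt_of_le_of_lt (Real.exp_le_exp.2 hw1) hp4
    rw [mem_union]
    by_cases h : (p : ℝ) ≤ Real.exp ((w : ℝ) + 1)
    · left
      rw [pw, mem_filter, mem_Icc, Nat.cast_one, div_one, div_one]
      exact ⟨⟨hp1, Nat.le_floor h⟩, hp3, hp7⟩
    · right
      rw [pw, mem_filter, mem_Icc, Nat.cast_one, div_one, div_one]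
      push_cast
      refine ⟨⟨hp1, Nat.le_floor ?_⟩, hp3, not_le.1 h⟩
      refine hp6.trans (Real.exp_le_exp.2 ?_)
      linarith
  have hwin : ∀ u : ℕ, ∑ p ∈ pw 1 u, (1 : ℝ) / p ≤ C / (u + 1) := by
    intro u
    have h1 : ∀ p ∈ pw 1 u, (1 : ℝ) / p ≤ 1 / Real.exp u := by
      intro p hp
      rw [pw, mem_filter, Nat.cast_one, div_one, div_one] at hp
      exact one_div_le_one_div_of_le (Real.exp_pos _) hp.2.2.le
    refine (Finset.sum_le_card_nsmul _ _ _ h1).trans ?_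
    rw [nsmul_eq_mul, mul_one_div, div_le_iff₀ (Real.exp_pos _)]
    refine (hu u).trans (le_of_eq ?_)
    ring
  have h3 : ∑ p ∈ pw H v, (1 : ℝ) / p ≤ C / (w + 1) + C / (((w + 1 : ℕ) : ℝ) + 1) := by
    refine (Finset.sum_le_sum_of_subset_of_nonneg hsub (fun _ _ _ => by positivity)).trans ?_
    have h4 := Finset.sum_union_inter (s₁ := pw 1 w) (s₂ := pw 1 (w + 1))
      (f := fun p : ℕ => (1 : ℝ) / p)
    have h5 : (0 : ℝ) ≤ ∑ p ∈ pw 1 w ∩ pw 1 (w + 1), (1 : ℝ) / p :=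
      Finset.sum_nonneg fun _ _ => by positivity
    have h6 := hwin w
    have h7 := hwin (w + 1)
    linarith
  have h8 : 2 * C ≤ w + 1 := by
    have h9 : max 1 (2 * C) ≤ (v : ℝ) / H := by
      rw [le_div_iff₀ hH0]
      exact hv
    linarith [le_max_right 1 (2 * C)]
  have hw0 : (0 : ℝ) < (w : ℝ) + 1 := by positivity
  have h10 : C / ((w : ℝ) + 1) ≤ 1 / 2 := by
    rw [div_le_iff₀ hw0]
    linarith
  have h11 : C / (((w + 1 : ℕ) : ℝ) + 1) ≤ 1 / 2 := by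
    push_cast
    rw [div_le_iff₀ (by positivity)]
    linarith
  linarith

private theorem pw_card_aux (x : ℕ) :
    ((Icc 1 x).filter (fun n => n.Prime ∧ n ≡ 0 [MOD 1])) = (Icc 1 x).filter Nat.Prime := by
  apply Finset.filter_congr
  intro n _
  simp [Nat.modEq_one]

private theorem card_split {A B : ℕ} (h : A ≤ B) :
    ((Ioc A B).filter Nat.Prime).card + ((Icc 1 A).filter Nat.Prime).card =
      ((Icc 1 B).filter Nat.Prime).card := by
  rw [← card_union_of_disjoint]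
  · congr 1
    ext p
    simp only [mem_union, mem_filter, mem_Icc, mem_Ioc]
    constructor
    · rintro (⟨⟨h1, h2⟩, h3⟩ | ⟨⟨h1, h2⟩, h3⟩)
      · exact ⟨⟨h3.one_le, h2⟩, h3⟩
      · exact ⟨⟨h1, by omega⟩, h3⟩
    · rintro ⟨⟨h1, h2⟩, h3⟩
      rcases le_or_gt p A with h4 | h4
      · exact Or.inr ⟨⟨h1, h4⟩, h3⟩
      · exact Or.inl ⟨⟨h4, h2⟩, h3⟩
  · rw [disjoint_left]
    intro p hp hp'
    simp only [mem_filter, mem_Icc, mem_Ioc] at hp hp'
    omega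

/-- Prime number theorem (`Rob/PsiOne.lean`, `Rob/PiAP.lean`, `Kr/Pnt.lean`: `pnt_class`, `pnt_cell`) for the interval
`(x, e^{1/J} x]`, `x = e^{v/J}`: it has length at most `2x/J` and contains at most `4x/(J log x) = 4 e^{v/J}/v` primes. -/
theorem pw_card : ∃ C : ℝ, 0 < C ∧ ∀ J : ℕ, 1 ≤ J → ∃ v₀ : ℕ, ∀ v : ℕ, v₀ ≤ v →
    ((pw J v).card : ℝ) ≤ C * Real.exp ((v : ℝ) / J) / v := by
  refine ⟨9, by norm_num, fun J hJ => ?_⟩
  have hJ0 : (0 : ℝ) < J := by exact_mod_cast hJ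
  have hJ1 : (1 : ℝ) ≤ J := by exact_mod_cast hJ
  obtain ⟨N₀, hN₀⟩ := Pool.Agent.Lib.MP_629a14_nt.Rob.pi_unif 1 0 le_rfl (by simp) (1 / J)
    (by positivity)
  -- `v` is large
  obtain ⟨v₀, hv₀⟩ := exists_nat_ge ((J : ℝ) * max (J : ℝ) ((N₀ : ℝ) + 1))
  refine ⟨max v₀ 1, fun v hv => ?_⟩
  have hv1 : (1 : ℝ) ≤ v := by exact_mod_cast (le_max_right v₀ 1).trans hv
  have hv0 : (0 : ℝ) < v := by linarith
  have hvv : (J : ℝ) * max (J : ℝ) ((N₀ : ℝ) + 1) ≤ v :=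
    hv₀.trans (by exact_mod_cast (le_max_left v₀ 1).trans hv)
  have hvJ : max (J : ℝ) ((N₀ : ℝ) + 1) ≤ (v : ℝ) / J := by
    rw [le_div_iff₀ hJ0, mul_comm]
    exact hvv
  set x : ℝ := Real.exp ((v : ℝ) / J) with hx
  have hx0 : 0 < x := Real.exp_pos _
  have hxlow : (v : ℝ) / J + 1 ≤ x := Real.add_one_le_exp _
  have hxJ : (J : ℝ) ≤ x := by
    have := le_max_left (J : ℝ) ((N₀ : ℝ) + 1)
    linarith
  have hxN : (N₀ : ℝ) + 1 ≤ x := by
    have := le_max_right (J : ℝ) ((N₀ : ℝ) + 1)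
    linarith
  -- the right end point
  have hy : Real.exp ((((v + 1 : ℕ) : ℝ)) / J) = x * Real.exp (1 / (J : ℝ)) := by
    rw [hx, ← Real.exp_add]
    congr 1
    push_cast
    ring
  have hJinv : (1 : ℝ) / J ≤ 1 := by
    rw [div_le_one hJ0]
    exact hJ1
  have hJinv0 : (0 : ℝ) < 1 / J := by positivity
  have he1 : 1 / (J : ℝ) + 1 ≤ Real.exp (1 / (J : ℝ)) := Real.add_one_le_exp _
  have he2 : Real.exp (1 / (J : ℝ)) ≤ 1 + 2 * (1 / (J : ℝ)) := by
    have h1 := Real.abs_exp_sub_one_sub_id_le (x := 1 / (J : ℝ)) (by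
      rw [abs_of_pos hJinv0]
      exact hJinv)
    have h2 := (abs_le.1 h1).2
    have h3 : (1 / (J : ℝ)) ^ 2 ≤ 1 / (J : ℝ) := by
      rw [sq]
      exact mul_le_of_le_one_right hJinv0.le hJinv
    linarith
  set N := pwB J (v + 1) with hN
  set A := pwB J v with hA
  have hAN : A ≤ N := pwB_mono J (by omega)
  have hN1 : (N : ℝ) ≤ x * Real.exp (1 / (J : ℝ)) := by
    have := pwB_le J (v + 1)
    rwa [hy] at this
  have hN2 : x * Real.exp (1 / (J : ℝ)) < N + 1 := by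
    have := lt_pwB J (v + 1)
    rwa [hy] at this
  have hA2 : x < A + 1 := lt_pwB J v
  have hNx : x ≤ N := by
    have h1 : x * (1 / (J : ℝ) + 1) ≤ x * Real.exp (1 / (J : ℝ)) :=
      mul_le_mul_of_nonneg_left he1 hx0.le
    have h2 : 1 ≤ x * (1 / (J : ℝ)) := by
      rw [mul_one_div, le_div_iff₀ hJ0]
      linarith
    nlinarith
  have hNN : N₀ ≤ N := by
    have : (N₀ : ℝ) ≤ N := by linarith
    exact_mod_cast this
  have hN3 : (N : ℝ) ≤ 3 * x := by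
    nlinarith
  have hlogN : (v : ℝ) / J ≤ Real.log N := by
    rw [Real.le_log_iff_exp_le (lt_of_lt_of_le hx0 hNx)]
    exact hNx
  have g1 := abs_le.1 (hN₀ N hNN N le_rfl)
  have g2 := abs_le.1 (hN₀ N hNN A hAN)
  rw [pw_card_aux, Nat.totient_one, Nat.cast_one, div_one] at g1 g2
  have hcard : ((pw J v).card : ℝ) + (((Icc 1 A).filter Nat.Prime).card : ℝ) =
      (((Icc 1 N).filter Nat.Prime).card : ℝ) := by
    rw [pw_eq]
    exact_mod_cast card_split hAN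
  have h1 : Real.log N * ((pw J v).card : ℝ) ≤ 9 * x / J := by
    have h2 : ((pw J v).card : ℝ) = (((Icc 1 N).filter Nat.Prime).card : ℝ) -
        (((Icc 1 A).filter Nat.Prime).card : ℝ) := by linarith
    have h3 : (N : ℝ) - A ≤ 2 * (x * (1 / (J : ℝ))) + 1 := by nlinarith
    have h4 : 1 ≤ x * (1 / (J : ℝ)) := by
      rw [mul_one_div, le_div_iff₀ hJ0]
      linarith
    have h5 : 1 / (J : ℝ) * N ≤ 3 * (x * (1 / (J : ℝ))) := by
      nlinarith
    have h6 : 9 * x / J = 9 * (x * (1 / (J : ℝ))) := by ring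
    rw [h6, h2, mul_sub]
    linarith
  have h2 : (v : ℝ) / J * ((pw J v).card : ℝ) ≤ 9 * x / J :=
    (mul_le_mul_of_nonneg_right hlogN (Nat.cast_nonneg _)).trans h1
  rw [le_div_iff₀ hv0]
  have h3 : (v : ℝ) / J * ((pw J v).card : ℝ) = (((pw J v).card : ℝ) * v) / J := by ring
  rw [h3, div_le_div_iff_of_pos_right hJ0] at h2
  exact h2

/-! ### the second theorem of Mertens -/

private theorem ww_sub (f : ℕ → ℝ) {A B : ℕ} (h : A ≤ B) :
    ∑ p ∈ (Ioc A B).filter Nat.Prime, f p + ∑ p ∈ (Icc 1 A).filter Nat.Prime, f p =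
      ∑ p ∈ (Icc 1 B).filter Nat.Prime, f p := by
  rw [← sum_union]
  · apply Finset.sum_congr _ fun _ _ => rfl
    ext p
    simp only [mem_union, mem_filter, mem_Icc, mem_Ioc]
    constructor
    · rintro (⟨⟨h1, h2⟩, h3⟩ | ⟨⟨h1, h2⟩, h3⟩)
      · exact ⟨⟨h3.one_le, h2⟩, h3⟩
      · exact ⟨⟨h1, by omega⟩, h3⟩
    · rintro ⟨⟨h1, h2⟩, h3⟩
      rcases le_or_gt p A with h4 | h4
      · exact Or.inr ⟨⟨h1, h4⟩, h3⟩
      · exact Or.inl ⟨⟨h4, h2⟩, h3⟩
  · rw [disjoint_left]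
    intro p hp hp'
    simp only [mem_filter, mem_Icc, mem_Ioc] at hp hp'
    omega

private theorem ww_tele (H v₀ v₁ : ℕ) (h : v₀ ≤ v₁) :
    WW H v₀ v₁ = ∑ p ∈ (Icc 1 (pwB H v₁)).filter Nat.Prime, (1 : ℝ) / p -
      ∑ p ∈ (Icc 1 (pwB H v₀)).filter Nat.Prime, (1 : ℝ) / p := by
  induction v₁, h using Nat.le_induction with
  | base => simp [WW]
  | succ n hn ih =>
    have h1 : WW H v₀ (n + 1) = WW H v₀ n + ∑ p ∈ pw H n, (1 : ℝ) / p := by
      rw [WW, WW, Finset.sum_Ico_succ_top hn]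
    rw [h1, ih, pw_eq]
    have h2 := ww_sub (fun p => (1 : ℝ) / p) (pwB_mono H (show n ≤ n + 1 by omega))
    linarith

private theorem ww_tail (x y : ℕ) :
    ∑ p ∈ (Ioc x y).filter Nat.Prime, (-Real.log (1 - 1 / (p : ℝ)) - 1 / (p : ℝ)) ≤ 4 := by
  have h1 : ∀ p ∈ (Ioc x y).filter Nat.Prime, -Real.log (1 - 1 / (p : ℝ)) - 1 / (p : ℝ) ≤
      2 * (1 / (p : ℝ) ^ 2) := by
    intro p hp
    rw [mem_filter] at hp
    have h2 : (2 : ℝ) ≤ p := by exact_mod_cast hp.2.two_le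
    have h3 : (1 : ℝ) / p ≤ 1 / 2 := one_div_le_one_div_of_le (by norm_num) h2
    have h4 : (0 : ℝ) < 1 / p := by positivity
    have h0 : (0 : ℝ) < 1 - 1 / p := by linarith
    have h := Real.one_sub_inv_le_log_of_pos h0
    have h5 : (1 - 1 / (p : ℝ))⁻¹ ≤ 1 + 1 / p + 2 * (1 / p) ^ 2 := by
      rw [inv_le_iff_one_le_mul₀ h0]
      nlinarith [mul_nonneg (sq_nonneg (1 / (p : ℝ))) (sub_nonneg.2 h3)]
    rw [← one_div_pow]
    linarith
  refine (Finset.sum_le_sum h1).trans ?_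
  rw [← Finset.mul_sum]
  have h6 : ∑ p ∈ (Ioc x y).filter Nat.Prime, 1 / (p : ℝ) ^ 2 ≤ 2 := by
    have h7 : ∑ p ∈ (Ioc x y).filter Nat.Prime, 1 / (p : ℝ) ^ 2 ≤
        ∑ p ∈ Ioc 0 y, 1 / (p : ℝ) ^ 2 := by
      apply Finset.sum_le_sum_of_subset_of_nonneg
      · intro p hp
        rw [mem_filter, mem_Ioc] at hp
        rw [mem_Ioc]
        omega
      · intro _ _ _
        positivity
    refine h7.trans ?_
    rcases Nat.eq_zero_or_pos y with rfl | hy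
    · simp
    have h8 := sum_Ioc_inv_sq_le_sub (α := ℝ) one_ne_zero hy
    have h9 : ∑ p ∈ Ioc 0 y, 1 / (p : ℝ) ^ 2 = 1 + ∑ p ∈ Ioc 1 y, 1 / (p : ℝ) ^ 2 := by
      rw [← Finset.sum_Ioc_consecutive _ (Nat.zero_le 1) hy]
      simp
    rw [h9]
    have h10 : ∑ p ∈ Ioc 1 y, 1 / (p : ℝ) ^ 2 = ∑ i ∈ Ioc 1 y, ((i : ℝ) ^ 2)⁻¹ :=
      Finset.sum_congr rfl fun _ _ => one_div _
    rw [h10]
    have h11 : (0 : ℝ) ≤ (y : ℝ)⁻¹ := by positivity
    simp only [Nat.cast_one, inv_one] at h8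
    linarith
  linarith

/-- Mertens' second theorem, lower bound: `∑_{P < p ≤ Q} 1/p ≥ log (log Q/log P) - C` for all `e ≤ P ≤ Q`; here `P = e^{v0/H}`
and `Q = e^{v1/H}`; the windows are disjoint and cover `(P, Q]`. (Mertens' first theorem in both directions,
`∑_{n ≤ x} Λ(n)/n = log x + O(1)` [`∑_{n ≤ x} log n = ∑ Λ(d) ⌊x/d⌋`], removal of the prime powers, Abel summation.) -/
theorem ww_lower : ∃ C : ℝ, 0 < C ∧ ∀ H v₀ v₁ : ℕ, 1 ≤ H → H ≤ v₀ → v₀ ≤ v₁ →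
    Real.log ((v₁ : ℝ) / v₀) - C ≤ WW H v₀ v₁ := by
  obtain ⟨c, hc⟩ := Pool.Agent.Lib.MP_629a14_nt.Rob.mert_two
  obtain ⟨K, hK⟩ := hc.bddAbove_range
  obtain ⟨K', hK'⟩ := hc.bddBelow_range
  refine ⟨|K| + |K'| + 4 + 2, by positivity, fun H v₀ v₁ hH hv₀ hv₁ => ?_⟩
  have hH0 : (0 : ℝ) < H := by exact_mod_cast hH
  have hv0 : (0 : ℝ) < v₀ := by
    have : (H : ℝ) ≤ v₀ := by exact_mod_cast hv₀
    linarith
  have hv1 : (0 : ℝ) < v₁ := by
    have : (v₀ : ℝ) ≤ v₁ := by exact_mod_cast hv₁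
    linarith
  have hlog2 : Real.log 2 < 0.7 := by
    have := Real.log_two_lt_d9
    linarith
  have hend : ∀ v : ℕ, H ≤ v → Real.log ((v : ℝ) / H) - 2 ≤ Real.log (Real.log (pwB H v)) ∧
      Real.log (Real.log (pwB H v)) ≤ Real.log ((v : ℝ) / H) := by
    intro v hv
    have h1 : (1 : ℝ) ≤ (v : ℝ) / H := by
      rw [le_div_iff₀ hH0, one_mul]
      exact_mod_cast hv
    have h2 : (2 : ℝ) < Real.exp ((v : ℝ) / H) := by
      have := Real.exp_one_gt_d9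
      have := Real.exp_le_exp.2 h1
      linarith
    have h3 : (2 : ℕ) ≤ pwB H v := Nat.le_floor (by exact_mod_cast h2.le)
    have h3' : (2 : ℝ) ≤ pwB H v := by exact_mod_cast h3
    have h4 := pwB_le H v
    have h5 := lt_pwB H v
    have h6 : Real.exp ((v : ℝ) / H) / 2 ≤ pwB H v := by linarith
    have h7 : Real.log (pwB H v) ≤ (v : ℝ) / H := by
      rw [Real.log_le_iff_le_exp (by linarith)]
      exact h4
    have h8 : (v : ℝ) / H - Real.log 2 ≤ Real.log (pwB H v) := by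
      have h9 := Real.log_le_log (by positivity) h6
      rwa [Real.log_div (Real.exp_pos _).ne' (by norm_num), Real.log_exp] at h9
    have h10 : 0 < Real.log (pwB H v) := Real.log_pos (by linarith)
    constructor
    · have h11 : (v : ℝ) / H * Real.exp (-2) ≤ Real.log (pwB H v) := by
        have h12 : Real.exp (-2) ≤ 0.3 := by
          have h13 : Real.exp (-2) * Real.exp 2 = 1 := by rw [← Real.exp_add]; norm_num
          have h14 : (4 : ℝ) ≤ Real.exp 2 := by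
            have h15 : Real.exp 2 = Real.exp 1 * Real.exp 1 := by rw [← Real.exp_add]; norm_num
            have h16 := Real.exp_one_gt_d9
            nlinarith
          nlinarith [Real.exp_pos (-2)]
        nlinarith
      have h13 := Real.log_le_log (by positivity) h11
      rw [Real.log_mul (by linarith) (Real.exp_pos _).ne', Real.log_exp] at h13
      linarith
    · exact Real.log_le_log h10 h7
  have hAB : pwB H v₀ ≤ pwB H v₁ := pwB_mono H hv₁
  have e1 := ww_sub (fun p => -Real.log (1 - 1 / (p : ℝ))) hAB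
  have e2 := ww_sub (fun p => (1 : ℝ) / p) hAB
  have e3 := ww_tail (pwB H v₀) (pwB H v₁)
  rw [Finset.sum_sub_distrib] at e3
  have e4 := ww_tele H v₀ v₁ hv₁
  have k1 := hK ⟨pwB H v₀, rfl⟩
  have k2 := hK' ⟨pwB H v₁, rfl⟩
  have l1 := (hend v₀ hv₀).2
  have l2 := (hend v₁ (hv₀.trans hv₁)).1
  have e5 : Real.log ((v₁ : ℝ) / v₀) = Real.log ((v₁ : ℝ) / H) - Real.log ((v₀ : ℝ) / H) := by
    rw [Real.log_div hv1.ne' hv0.ne', Real.log_div hv1.ne' hH0.ne', Real.log_div hv0.ne' hH0.ne']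
    ring
  have a1 := le_abs_self K
  have a2 := neg_abs_le K'
  simp only at k1 k2 e1 e2
  rw [e4, e5]
  linarith

end Pool.Agent.Lib.MP_3e612f_nt.MR
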