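import Pool.Agent.Lib.MP_3e612f_nt.MR.TK
import Pool.Agent.Lib.MP_3e612f_nt.MR.HM
import Pool.Agent.Lib.MP_3e612f_nt.MR.Contr
import Pool.Agent.Lib.MP_3e612f_nt.MR.Pw

/-! The last scale at well spaced points: iterated contraction. -/

set_option autoImplicit false

namespace Pool.Agent.Lib.MP_3e612f_nt.MR

open Finset MeasureTheory

/-! ### The `ℓ²` norm on a finite set -/

/-- the `ℓ²` norm on `S` -/
noncomputable def nS (S : Finset ℝ) (f : ℝ → ℂ) : ℝ := Real.sqrt (∑ t ∈ S, ‖f t‖ ^ 2)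

theorem nS_nonneg (S : Finset ℝ) (f : ℝ → ℂ) : 0 ≤ nS S f := Real.sqrt_nonneg _

theorem nS_sq (S : Finset ℝ) (f : ℝ → ℂ) : nS S f ^ 2 = ∑ t ∈ S, ‖f t‖ ^ 2 :=
  Real.sq_sqrt (sum_nonneg fun _ _ => by positivity)

theorem nS_le {S : Finset ℝ} {f : ℝ → ℂ} {B : ℝ} (hB : 0 ≤ B) (h : ∑ t ∈ S, ‖f t‖ ^ 2 ≤ B ^ 2) :
    nS S f ≤ B := by
  unfold nS
  rw [Real.sqrt_le_left hB]
  exact h

theorem nS_add (S : Finset ℝ) (f g : ℝ → ℂ) : nS S (fun t => f t + g t) ≤ nS S f + nS S g := by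
  refine nS_le (add_nonneg (nS_nonneg _ _) (nS_nonneg _ _)) ?_
  rw [add_sq, nS_sq, nS_sq]
  have h1 : ∑ t ∈ S, ‖f t‖ * ‖g t‖ ≤ nS S f * nS S g := Real.sum_mul_le_sqrt_mul_sqrt _ _ _
  have h2 : ∑ t ∈ S, ‖f t + g t‖ ^ 2 ≤
      ∑ t ∈ S, (‖f t‖ ^ 2 + 2 * (‖f t‖ * ‖g t‖) + ‖g t‖ ^ 2) := by
    refine sum_le_sum fun t _ => ?_
    have h3 := norm_add_le (f t) (g t)
    have h4 : ‖f t + g t‖ ^ 2 ≤ (‖f t‖ + ‖g t‖) ^ 2 := pow_le_pow_left₀ (norm_nonneg _) h3 2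
    nlinarith
  refine h2.trans ?_
  rw [sum_add_distrib, sum_add_distrib, ← mul_sum]
  linarith

theorem nS_zero (S : Finset ℝ) : nS S (fun _ => 0) = 0 := by
  unfold nS
  simp

theorem nS_sum {ι : Type} (S : Finset ℝ) (I : Finset ι) (f : ι → ℝ → ℂ) :
    nS S (fun t => ∑ i ∈ I, f i t) ≤ ∑ i ∈ I, nS S (f i) := by
  classical
  induction I using Finset.induction_on with
  | empty => simp [nS_zero]
  | insert i I hi ih =>
    simp only [sum_insert hi]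
    exact (nS_add S _ _).trans (add_le_add le_rfl ih)

theorem nS_mul {S : Finset ℝ} {f g : ℝ → ℂ} {B : ℝ} (hB : 0 ≤ B) (h : ∀ t ∈ S, ‖g t‖ ≤ B) :
    nS S (fun t => g t * f t) ≤ B * nS S f := by
  refine nS_le (mul_nonneg hB (nS_nonneg _ _)) ?_
  rw [mul_pow, nS_sq, mul_sum]
  refine sum_le_sum fun t ht => ?_
  rw [norm_mul, mul_pow]
  exact mul_le_mul_of_nonneg_right (pow_le_pow_left₀ (norm_nonneg _) (h t ht) 2) (by positivity)

theorem nS_neg (S : Finset ℝ) (f : ℝ → ℂ) : nS S (fun t => - f t) = nS S f := by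
  unfold nS
  simp

theorem nS_congr {S : Finset ℝ} {f g : ℝ → ℂ} (h : ∀ t ∈ S, f t = g t) : nS S f = nS S g := by
  unfold nS
  rw [sum_congr rfl fun t ht => by rw [h t ht]]

/-! ### The coefficients of `DD` -/

theorem abs_mu_le (n : ℕ) : |mu n| ≤ 1 := by
  unfold mu
  have h := ArithmeticFunction.abs_moebius_le_one (n := n)
  exact_mod_cast h

theorem psi_nonneg (v : ℝ) : 0 ≤ psi v := le_max_left _ _

theorem psi_le_one (v : ℝ) : psi v ≤ 1 := by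
  unfold psi
  exact max_le zero_le_one (min_le_left _ _)

theorem abs_co_le (m : ℕ) (a : ZMod m) (X : ℝ) (n : ℕ) : |co m a X n| ≤ 1 := by
  unfold co
  by_cases h : ((n : ℕ) : ZMod m) = a
  · rw [if_pos h, abs_mul]
    exact mul_le_one₀ (abs_mu_le n) (abs_nonneg _) (by
      rw [abs_of_nonneg (psi_nonneg _)]
      exact psi_le_one _)
  · rw [if_neg h, abs_zero]
    exact zero_le_one

theorem co_supp {m : ℕ} {a : ZMod m} {X : ℝ} (hX : 1 ≤ X) {n : ℕ} (h : co m a X n ≠ 0) :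
    X / 21 ≤ n ∧ (n : ℝ) ≤ 21 * X := by
  have h0 : n ≠ 0 := by
    rintro rfl
    apply h
    unfold co mu
    simp
  have hn : (0 : ℝ) < n := by exact_mod_cast Nat.pos_of_ne_zero h0
  have h1 : psi (Real.log n - Real.log X) ≠ 0 := by
    intro h1
    apply h
    unfold co
    rw [h1]
    simp
  have h2 : |Real.log n - Real.log X| < 3 := by
    by_contra h2
    apply h1
    unfold psi
    rw [max_eq_left]
    exact (min_le_right _ _).trans (by linarith)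
  rw [abs_lt] at h2
  have hX0 : (0 : ℝ) < X := by linarith
  have he : Real.exp 3 ≤ 21 := by
    have h3 := Real.exp_one_lt_d9
    have h4 : Real.exp 3 = Real.exp 1 ^ 3 := by
      rw [← Real.exp_nat_mul]
      norm_num
    rw [h4]
    have h5 : Real.exp 1 ^ 3 ≤ (2.7182818286 : ℝ) ^ 3 :=
      pow_le_pow_left₀ (Real.exp_pos 1).le h3.le 3
    refine h5.trans ?_
    norm_num
  constructor
  · have h3 : Real.log X - 3 < Real.log n := by linarith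
    have h4 : X / Real.exp 3 < n := by
      have h5 := (Real.lt_log_iff_exp_lt hn).1 h3
      rw [Real.exp_sub, Real.exp_log hX0] at h5
      exact h5
    refine le_trans ?_ h4.le
    exact div_le_div_of_nonneg_left hX0.le (Real.exp_pos _) he
  · have h3 : Real.log n < Real.log X + 3 := by linarith
    have h4 : (n : ℝ) < X * Real.exp 3 := by
      have h5 := (Real.log_lt_iff_lt_exp hn).1 h3
      rw [Real.exp_add, Real.exp_log hX0] at h5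
      exact h5
    nlinarith

theorem DD_eq {m : ℕ} {a : ZMod m} {X : ℝ} (hX : 1 ≤ X) (t : ℝ) :
    DD m a X t = ∑ n ∈ Icc 1 ⌊60 * X⌋₊, ((co m a X n / X : ℝ) : ℂ) * ph n t := by
  unfold DD
  have h1 : Icc 1 ⌊21 * X⌋₊ ⊆ Icc 1 ⌊60 * X⌋₊ :=
    Icc_subset_Icc_right (Nat.floor_le_floor (by linarith))
  rw [← sum_subset h1, mul_sum]
  · refine sum_congr rfl fun n _ => ?_
    push_cast
    ring
  · intro n hn hn'
    have h2 : co m a X n = 0 := by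
      by_contra h
      apply hn'
      rw [mem_Icc] at hn ⊢
      exact ⟨hn.1, Nat.le_floor (co_supp hX h).2⟩
    rw [h2, zero_div, Complex.ofReal_zero, zero_mul]

/-- `hm` for `DD` -/
theorem fp_trivial {c₁ C : ℝ} (hC : 0 < C) (h : ∀ (Y : ℝ) (a : ℕ → ℂ) (S : Finset ℝ),
    1 ≤ Y → (∀ n, a n ≠ 0 → Y / 21 ≤ n ∧ (n : ℝ) ≤ 60 * Y) → (∀ t ∈ S, |t| ≤ Y ^ (6 / 5 : ℝ)) →
    (∀ t ∈ S, ∀ t' ∈ S, t ≠ t' → 1 ≤ |t - t'|) → (S.card : ℝ) ≤ Y ^ c₁ →
    ∑ t ∈ S, ‖∑ n ∈ Icc 1 ⌊60 * Y⌋₊, a n * ph n t‖ ^ 2 ≤ C * Y * ∑ n ∈ Icc 1 ⌊60 * Y⌋₊, ‖a n‖ ^ 2)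
    (m : ℕ) (a : ZMod m) {Y : ℝ} {S : Finset ℝ} (hY : 1 ≤ Y) (h1 : ∀ t ∈ S, |t| ≤ Y ^ (6 / 5 : ℝ))
    (h2 : ∀ t ∈ S, ∀ t' ∈ S, t ≠ t' → 1 ≤ |t - t'|) (h3 : (S.card : ℝ) ≤ Y ^ c₁) :
    nS S (DD m a Y) ≤ Real.sqrt (60 * C) := by
  have hY0 : (0 : ℝ) < Y := by linarith
  refine nS_le (Real.sqrt_nonneg _) ?_
  rw [Real.sq_sqrt (by positivity)]
  have h4 := h Y (fun n => ((co m a Y n / Y : ℝ) : ℂ)) S hY (fun n hn => by
    have h5 : co m a Y n ≠ 0 := by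
      rintro h5
      apply hn
      simp [h5]
    have h6 := co_supp hY h5
    exact ⟨h6.1, by linarith [h6.2]⟩) h1 h2 h3
  simp only [← DD_eq hY] at h4
  refine h4.trans ?_
  have h5 : ∀ n ∈ Icc 1 ⌊60 * Y⌋₊, ‖((co m a Y n / Y : ℝ) : ℂ)‖ ^ 2 ≤ 1 / Y ^ 2 := by
    intro n _
    rw [Complex.norm_real, Real.norm_eq_abs, abs_div, abs_of_pos hY0, div_pow]
    have h6 := abs_co_le m a Y n
    have h7 : |co m a Y n| ^ 2 ≤ 1 := by
      have := abs_nonneg (co m a Y n)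
      nlinarith
    exact div_le_div_of_nonneg_right h7 (by positivity)
  have h6 : ∑ n ∈ Icc 1 ⌊60 * Y⌋₊, ‖((co m a Y n / Y : ℝ) : ℂ)‖ ^ 2 ≤ 60 * Y * (1 / Y ^ 2) := by
    refine (sum_le_card_nsmul _ _ _ h5).trans ?_
    rw [nsmul_eq_mul, Nat.card_Icc, Nat.add_sub_cancel]
    exact mul_le_mul_of_nonneg_right (Nat.floor_le (by positivity)) (by positivity)
  calc C * Y * ∑ n ∈ Icc 1 ⌊60 * Y⌋₊, ‖((co m a Y n / Y : ℝ) : ℂ)‖ ^ 2 ≤
      C * Y * (60 * Y * (1 / Y ^ 2)) := mul_le_mul_of_nonneg_left h6 (by positivity)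
    _ = 60 * C := by
      field_simp

/-! ### The main term -/

theorem fp_classes (m : ℕ) [NeZero m] (P : Finset ℕ) :
    ∑ b : (ZMod m)ˣ, ((P.filter fun p => ((p : ℕ) : ZMod m) = (b : ZMod m)).card : ℝ) ≤ P.card := by
  classical
  have h1 : ∑ b : (ZMod m)ˣ, (P.filter fun p => ((p : ℕ) : ZMod m) = (b : ZMod m)).card =
      (univ.biUnion fun b : (ZMod m)ˣ => P.filter fun p => ((p : ℕ) : ZMod m) = (b : ZMod m)).card := by
    rw [card_biUnion]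
    intro b _ b' _ hbb
    change Disjoint _ _
    rw [disjoint_left]
    intro p hp hp'
    apply hbb
    apply Units.ext
    rw [← (mem_filter.1 hp).2, ← (mem_filter.1 hp').2]
  have h2 : (∑ b : (ZMod m)ˣ, (P.filter fun p => ((p : ℕ) : ZMod m) = (b : ZMod m)).card) ≤
      P.card := by
    rw [h1]
    refine card_le_card ?_
    intro p hp
    obtain ⟨b, -, hb⟩ := mem_biUnion.1 hp
    exact (mem_filter.1 hb).1
  exact_mod_cast h2

theorem fp_window (H v : ℕ) : Real.exp (-((v : ℝ) / H)) * ((pw H v).card : ℝ) ≤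
    Real.exp (1 / (H : ℝ)) * ∑ p ∈ pw H v, (1 : ℝ) / p := by
  rw [mul_sum]
  have h1 : ∀ p ∈ pw H v, Real.exp (-((v : ℝ) / H)) ≤ Real.exp (1 / (H : ℝ)) * (1 / p) := by
    intro p hp
    unfold pw at hp
    rw [mem_filter, mem_Icc] at hp
    have hp0 : (0 : ℝ) < p := by exact_mod_cast hp.1.1
    have h2 : (p : ℝ) ≤ Real.exp (((v : ℝ) + 1) / H) :=
      (Nat.le_floor_iff (Real.exp_pos _).le).1 hp.1.2
    rw [mul_one_div, le_div_iff₀ hp0]
    calc Real.exp (-((v : ℝ) / H)) * p ≤ Real.exp (-((v : ℝ) / H)) * Real.exp (((v : ℝ) + 1) / H) :=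
          mul_le_mul_of_nonneg_left h2 (Real.exp_pos _).le
      _ = Real.exp (1 / (H : ℝ)) := by
        rw [← Real.exp_add]
        congr 1
        ring
  calc Real.exp (-((v : ℝ) / H)) * ((pw H v).card : ℝ) = ∑ p ∈ pw H v, Real.exp (-((v : ℝ) / H)) := by
        rw [sum_const, nsmul_eq_mul]
        ring
    _ ≤ _ := sum_le_sum h1

theorem fp_MT {m : ℕ} [NeZero m] (a : ZMod m) {H v₀ v₁ : ℕ} {Y c M : ℝ} {S : Finset ℝ}
    (hc : c ≤ 1) (hM : 0 ≤ M) (hW : 0 < WW H v₀ v₁)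
    (hQ : ∀ t ∈ S, ∀ v ∈ Ico v₀ v₁, ∀ b : (ZMod m)ˣ, ‖QQ m (b : ZMod m) H v t‖ ≤
      (1 - c) * (Real.exp (-((v : ℝ) / H)) *
        (((pw H v).filter (fun p => ((p : ℕ) : ZMod m) = (b : ZMod m))).card : ℝ)))
    (hD : ∀ v ∈ Ico v₀ v₁, ∀ a' : ZMod m, nS S (DD m a' (Y * Real.exp (-((v : ℝ) / H)))) ≤ M) :
    nS S (MT m a H v₀ v₁ Y) ≤ (1 - c) * Real.exp (1 / (H : ℝ)) * M := by
  have hc' : 0 ≤ 1 - c := by linarith
  have h1 : nS S (MT m a H v₀ v₁ Y) ≤ 1 / WW H v₀ v₁ * nS S (fun t => ∑ v ∈ Ico v₀ v₁,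
      ∑ b : (ZMod m)ˣ, QQ m (b : ZMod m) H v t *
        DD m (a * ((b⁻¹ : (ZMod m)ˣ) : ZMod m)) (Y * Real.exp (-((v : ℝ) / H))) t) := by
    refine nS_mul (g := fun _ => ((1 / WW H v₀ v₁ : ℝ) : ℂ)) (by positivity) fun t _ => ?_
    rw [Complex.norm_real, Real.norm_of_nonneg (by positivity)]
  have h2 : ∀ v ∈ Ico v₀ v₁, nS S (fun t => ∑ b : (ZMod m)ˣ, QQ m (b : ZMod m) H v t *
      DD m (a * ((b⁻¹ : (ZMod m)ˣ) : ZMod m)) (Y * Real.exp (-((v : ℝ) / H))) t) ≤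
      (1 - c) * M * (Real.exp (1 / (H : ℝ)) * ∑ p ∈ pw H v, (1 : ℝ) / p) := by
    intro v hv
    refine (nS_sum S univ _).trans ?_
    have h3 : ∀ b : (ZMod m)ˣ, nS S (fun t => QQ m (b : ZMod m) H v t *
        DD m (a * ((b⁻¹ : (ZMod m)ˣ) : ZMod m)) (Y * Real.exp (-((v : ℝ) / H))) t) ≤
        (1 - c) * M * Real.exp (-((v : ℝ) / H)) *
          (((pw H v).filter (fun p => ((p : ℕ) : ZMod m) = (b : ZMod m))).card : ℝ) := by
      intro b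
      have h4 := nS_mul (f := DD m (a * ((b⁻¹ : (ZMod m)ˣ) : ZMod m))
        (Y * Real.exp (-((v : ℝ) / H)))) (S := S) (g := QQ m (b : ZMod m) H v)
        (by positivity) fun t ht => hQ t ht v hv b
      refine h4.trans ?_
      have h5 := hD v hv (a * ((b⁻¹ : (ZMod m)ˣ) : ZMod m))
      calc _ ≤ (1 - c) * (Real.exp (-((v : ℝ) / H)) *
          (((pw H v).filter (fun p => ((p : ℕ) : ZMod m) = (b : ZMod m))).card : ℝ)) * M :=
            mul_le_mul_of_nonneg_left h5 (by positivity)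
        _ = _ := by ring
    refine (sum_le_sum fun b _ => h3 b).trans ?_
    rw [← mul_sum]
    calc _ ≤ (1 - c) * M * Real.exp (-((v : ℝ) / H)) * ((pw H v).card : ℝ) :=
          mul_le_mul_of_nonneg_left (fp_classes m _) (by positivity)
      _ = (1 - c) * M * (Real.exp (-((v : ℝ) / H)) * ((pw H v).card : ℝ)) := by ring
      _ ≤ _ := mul_le_mul_of_nonneg_left (fp_window H v) (by positivity)
  have h3 : nS S (fun t => ∑ v ∈ Ico v₀ v₁,
      ∑ b : (ZMod m)ˣ, QQ m (b : ZMod m) H v t *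
        DD m (a * ((b⁻¹ : (ZMod m)ˣ) : ZMod m)) (Y * Real.exp (-((v : ℝ) / H))) t) ≤
      (1 - c) * M * Real.exp (1 / (H : ℝ)) * WW H v₀ v₁ := by
    refine (nS_sum S _ _).trans ((sum_le_sum h2).trans (le_of_eq ?_))
    unfold WW
    rw [mul_sum]
    refine sum_congr rfl fun v _ => ?_
    ring
  refine h1.trans ?_
  calc _ ≤ 1 / WW H v₀ v₁ * ((1 - c) * M * Real.exp (1 / (H : ℝ)) * WW H v₀ v₁) :=
        mul_le_mul_of_nonneg_left h3 (by positivity)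
    _ = _ := by
      field_simp

/-! ### The iteration -/

theorem fp_iter {m : ℕ} [NeZero m] {H v₀ v₁ k : ℕ} {X c C' E : ℝ} {S : Finset ℝ} (hX : 0 < X)
    (hc0 : 0 < c) (hc : c ≤ 1) (hC' : 0 ≤ C') (hE : 0 ≤ E)
    (hfac : (1 - c) * Real.exp (1 / (H : ℝ)) ≤ 1 - c / 2) (hW : 0 < WW H v₀ v₁)
    (hbase : ∀ Y : ℝ, X * Real.exp (-(k * ((v₁ : ℝ) / H))) ≤ Y → Y ≤ X → ∀ a : ZMod m,
      nS S (DD m a Y) ≤ C')
    (herr : ∀ Y : ℝ, X * Real.exp (-(k * ((v₁ : ℝ) / H))) ≤ Y → Y ≤ X → ∀ a : ZMod m,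
      nS S (fun t => DD m a Y t + MT m a H v₀ v₁ Y t) ≤ E)
    (hQ : ∀ t ∈ S, ∀ v ∈ Ico v₀ v₁, ∀ b : (ZMod m)ˣ, ‖QQ m (b : ZMod m) H v t‖ ≤
      (1 - c) * (Real.exp (-((v : ℝ) / H)) *
        (((pw H v).filter (fun p => ((p : ℕ) : ZMod m) = (b : ZMod m))).card : ℝ))) :
    ∀ l : ℕ, l ≤ k → ∀ Y : ℝ, X * Real.exp (-(((k : ℝ) - l) * ((v₁ : ℝ) / H))) ≤ Y → Y ≤ X →
      ∀ a : ZMod m, nS S (DD m a Y) ≤ (1 - c / 2) ^ l * C' + 2 / c * E := by
  intro l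
  have hv1 : (0 : ℝ) ≤ (v₁ : ℝ) / H := by positivity
  induction l with
  | zero =>
    intro _ Y hY hYX a
    have h1 := hbase Y (by simpa using hY) hYX a
    have h2 : 0 ≤ 2 / c * E := by positivity
    rw [pow_zero, one_mul]
    linarith
  | succ l ih =>
    intro hl Y hY hYX a
    have hlk : ((l : ℝ) + 1) ≤ k := by exact_mod_cast hl
    have hle : X * Real.exp (-(k * ((v₁ : ℝ) / H))) ≤
        X * Real.exp (-(((k : ℝ) - ((l + 1 : ℕ) : ℝ)) * ((v₁ : ℝ) / H))) := by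
      refine mul_le_mul_of_nonneg_left (Real.exp_le_exp.2 ?_) hX.le
      push_cast
      have h1 : 0 ≤ ((l : ℝ) + 1) * ((v₁ : ℝ) / H) := by positivity
      nlinarith
    have hY0 : 0 < Y := lt_of_lt_of_le (by positivity) hY
    have h1 := herr Y (hle.trans hY) hYX a
    have hM0 : 0 ≤ (1 - c / 2) ^ l * C' + 2 / c * E := by
      have h2 : 0 ≤ 1 - c / 2 := by linarith
      positivity
    have h2 := fp_MT (S := S) (m := m) a (H := H) (v₀ := v₀) (v₁ := v₁) (Y := Y) (c := c)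
      (M := (1 - c / 2) ^ l * C' + 2 / c * E) hc hM0 hW hQ (by
        intro v hv a'
        rw [mem_Ico] at hv
        have h3 : (v : ℝ) / H ≤ (v₁ : ℝ) / H :=
          div_le_div_of_nonneg_right (by exact_mod_cast hv.2.le) (Nat.cast_nonneg _)
        have h4 : (0 : ℝ) ≤ (v : ℝ) / H := by positivity
        refine ih (by omega) _ ?_ ?_ a'
        · calc X * Real.exp (-(((k : ℝ) - l) * ((v₁ : ℝ) / H))) =
              X * Real.exp (-(((k : ℝ) - ((l + 1 : ℕ) : ℝ)) * ((v₁ : ℝ) / H))) *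
                Real.exp (-((v₁ : ℝ) / H)) := by
                rw [mul_assoc, ← Real.exp_add]
                congr 2
                push_cast
                ring
            _ ≤ Y * Real.exp (-((v : ℝ) / H)) :=
              mul_le_mul hY (Real.exp_le_exp.2 (by linarith)) (Real.exp_pos _).le hY0.le
        · have h5 : Real.exp (-((v : ℝ) / H)) ≤ 1 := Real.exp_le_one_iff.2 (by linarith)
          nlinarith)
    have h3 : nS S (DD m a Y) ≤ nS S (fun t => DD m a Y t + MT m a H v₀ v₁ Y t) +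
        nS S (MT m a H v₀ v₁ Y) := by
      have h4 := nS_add S (fun t => DD m a Y t + MT m a H v₀ v₁ Y t)
        (fun t => - MT m a H v₀ v₁ Y t)
      rw [nS_neg] at h4
      refine le_trans (le_of_eq (nS_congr fun t _ => ?_)) h4
      ring
    have h4 : (1 - c) * Real.exp (1 / (H : ℝ)) * ((1 - c / 2) ^ l * C' + 2 / c * E) ≤
        (1 - c / 2) * ((1 - c / 2) ^ l * C' + 2 / c * E) := mul_le_mul_of_nonneg_right hfac hM0
    have h5 : (1 - c / 2) * ((1 - c / 2) ^ l * C' + 2 / c * E) + E =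
        (1 - c / 2) ^ (l + 1) * C' + 2 / c * E := by
      field_simp
      ring
    linarith

theorem fp_exp {x : ℝ} (h0 : 0 ≤ x) (h1 : x ≤ 1 / 2) : Real.exp x ≤ 1 + 2 * x := by
  have h2 := Real.exp_bound_div_one_sub_of_interval h0 (by linarith : x < 1)
  refine h2.trans ?_
  rw [div_le_iff₀ (by linarith)]
  nlinarith

set_option maxHeartbeats 2000000 in
theorem fin_pts : ∃ c₂ : ℝ, 0 < c₂ ∧ c₂ ≤ 1 ∧ ∀ (m : ℕ) [NeZero m] (ε : ℝ), 0 < ε → ∃ T₀ X₀ : ℝ, 1 ≤ T₀ ∧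
    ∀ X : ℝ, X₀ ≤ X → ∀ S : Finset ℝ, (∀ t ∈ S, T₀ ≤ |t| ∧ |t| ≤ X ^ (11 / 10 : ℝ)) →
      (∀ t ∈ S, ∀ t' ∈ S, t ≠ t' → 1 ≤ |t - t'|) → (S.card : ℝ) ≤ X ^ c₂ → ∀ a : ZMod m,
        ∑ t ∈ S, ‖DD m a X t‖ ^ 2 ≤ ε := by
  obtain ⟨c₁, C₁, hc₁, hc₁1, hC₁, hhm⟩ := hm
  obtain ⟨C₂, hC₂, htk⟩ := tkc
  obtain ⟨C₃, hC₃, hww⟩ := ww_lower
  refine ⟨c₁ / 2, by positivity, by linarith, ?_⟩
  intro m _ ε hε
  obtain ⟨c, hc, hc1, hcontr⟩ := contr m
  obtain ⟨C', hC'⟩ : ∃ C', C' = Real.sqrt (60 * C₁) := ⟨_, rfl⟩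
  have hC'0 : 0 ≤ C' := by rw [hC']; exact Real.sqrt_nonneg _
  obtain ⟨δ, hδ⟩ : ∃ δ, δ = c ^ 2 * ε / (48 * (C₁ * C₂)) := ⟨_, rfl⟩
  have hδ0 : 0 < δ := by rw [hδ]; positivity
  obtain ⟨k, hk⟩ := exists_pow_lt_of_lt_one (x := Real.sqrt ε / (2 * (C' + 1))) (by positivity)
    (by linarith : 1 - c / 2 < 1)
  obtain ⟨θ₂, hθ₂⟩ : ∃ θ₂ : ℝ, θ₂ = 1 / (100 * ((k : ℝ) + 1)) := ⟨_, rfl⟩
  have hθ₂0 : 0 < θ₂ := by rw [hθ₂]; positivity
  have hθ₂k : k * θ₂ ≤ 1 / 100 := by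
    rw [hθ₂, mul_one_div, div_le_div_iff₀ (by positivity) (by norm_num)]
    linarith
  have hθ₂1 : θ₂ ≤ 1 / 100 := by
    rw [hθ₂]
    apply one_div_le_one_div_of_le (by norm_num)
    have : (0 : ℝ) ≤ k := Nat.cast_nonneg _
    linarith
  obtain ⟨H, hH⟩ := exists_nat_ge (4 / c + 1 / δ + 1)
  have h4c : 0 < 4 / c := by positivity
  have h1δ : 0 < 1 / δ := by positivity
  have hH1 : (1 : ℝ) ≤ H := by linarith
  have hH0 : (0 : ℝ) < H := by linarith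
  have hHn : 1 ≤ H := by exact_mod_cast hH1
  have hHc : 4 / c ≤ H := by linarith
  have hHδ : 1 / δ ≤ H := by linarith
  have hfac : (1 - c) * Real.exp (1 / (H : ℝ)) ≤ 1 - c / 2 := by
    have h1 : 1 / (H : ℝ) ≤ c / 4 := by
      rw [div_le_div_iff₀ hH0 (by norm_num)]
      rw [div_le_iff₀ hc] at hHc
      linarith
    have h2 := fp_exp (x := 1 / (H : ℝ)) (by positivity) (by linarith)
    have h3 : (1 - c) * Real.exp (1 / (H : ℝ)) ≤ (1 - c) * (1 + c / 2) :=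
      mul_le_mul_of_nonneg_left (by linarith) (by linarith)
    have h4 : (1 - c) * (1 + c / 2) = 1 - c / 2 - c ^ 2 / 2 := by ring
    have h5 : 0 ≤ c ^ 2 / 2 := by positivity
    linarith
  have hHδ2 : 1 / (H : ℝ) ^ 2 ≤ δ := by
    rw [div_le_iff₀ (by positivity)]
    rw [div_le_iff₀ hδ0] at hHδ
    have h1 : δ * (H : ℝ) ^ 2 = (H * δ) * H := by ring
    rw [h1]
    exact one_le_mul_of_one_le_of_one_le hHδ hH1
  obtain ⟨A, hA⟩ : ∃ A, A = C₃ + 1 / δ + 1 := ⟨_, rfl⟩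
  have hA0 : 0 < A := by rw [hA]; positivity
  obtain ⟨θ, hθ⟩ : ∃ θ, θ = θ₂ / (4 * Real.exp A) := ⟨_, rfl⟩
  have hθ0 : 0 < θ := by rw [hθ]; positivity
  have hθA : 4 * θ * Real.exp A = θ₂ := by
    rw [hθ]
    field_simp
  have hθθ : 4 * θ ≤ θ₂ := by
    have h1 : 1 ≤ Real.exp A := Real.one_le_exp hA0.le
    rw [← hθA]
    exact le_mul_of_one_le_right (by positivity) h1
  obtain ⟨T₀, X₁, hT₀, hcon⟩ := hcontr θ hθ0 H hHn
  refine ⟨T₀, max X₁ (Real.exp ((2 + m + 1 / δ) / θ)), hT₀, ?_⟩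
  intro X hX S hS hsep hcard a
  have hX1 : X₁ ≤ X := (le_max_left _ _).trans hX
  have hX2 : Real.exp ((2 + m + 1 / δ) / θ) ≤ X := (le_max_right _ _).trans hX
  have hX0 : 0 < X := lt_of_lt_of_le (Real.exp_pos _) hX2
  obtain ⟨L, hL⟩ : ∃ L, L = Real.log X := ⟨_, rfl⟩
  have hXL : Real.exp L = X := by rw [hL, Real.exp_log hX0]
  have hθL : 2 + m + 1 / δ ≤ θ * L := by
    have h1 : (2 + m + 1 / δ) / θ ≤ L := by
      rw [hL, Real.le_log_iff_exp_le hX0]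
      exact hX2
    rw [div_le_iff₀ hθ0] at h1
    linarith
  have hm0 : (0 : ℝ) ≤ m := Nat.cast_nonneg _
  have hL0 : 0 < L := (mul_pos_iff_of_pos_left hθ0).1 (by linarith)
  have hXX : 1 ≤ X := by
    rw [← hXL]
    exact Real.one_le_exp hL0.le
  obtain ⟨v₀, hv₀⟩ : ∃ v₀ : ℕ, v₀ = ⌈θ * H * L⌉₊ := ⟨_, rfl⟩
  obtain ⟨v₁, hv₁⟩ : ∃ v₁ : ℕ, v₁ = ⌊θ₂ * H * L⌋₊ := ⟨_, rfl⟩
  have hv₀a : θ * H * L ≤ v₀ := by rw [hv₀]; exact Nat.le_ceil _
  have hv₀b : (v₀ : ℝ) < θ * H * L + 1 := by rw [hv₀]; exact Nat.ceil_lt_add_one (by positivity)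
  have hv₁a : (v₁ : ℝ) ≤ θ₂ * H * L := by rw [hv₁]; exact Nat.floor_le (by positivity)
  have hv₁b : θ₂ * H * L < v₁ + 1 := by rw [hv₁]; exact Nat.lt_floor_add_one _
  have hHL : 2 ≤ θ * H * L := by
    have h1 : θ * L ≤ θ * H * L := by
      have h2 : θ * H * L = θ * L * H := by ring
      rw [h2]
      exact le_mul_of_one_le_right (by positivity) hH1
    linarith
  have hHL2 : 4 * (θ * H * L) ≤ θ₂ * H * L := by
    have h1 : 0 < (H : ℝ) * L := by positivity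
    have h2 := mul_le_mul_of_nonneg_right hθθ h1.le
    calc 4 * (θ * H * L) = 4 * θ * (H * L) := by ring
      _ ≤ θ₂ * (H * L) := h2
      _ = θ₂ * H * L := by ring
  have hv₀1 : (v₀ : ℝ) ≤ 2 * (θ * H * L) := by linarith
  have hv₁1 : θ₂ * H * L / 2 ≤ v₁ := by linarith
  have hv01 : v₀ ≤ v₁ := by
    have h1 : (v₀ : ℝ) ≤ v₁ := by linarith
    exact_mod_cast h1
  have hHv₀ : H ≤ v₀ := by
    have h1 : (H : ℝ) ≤ v₀ := by
      refine le_trans ?_ hv₀a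
      have h2 : 1 ≤ θ * L := by linarith
      have h3 : θ * H * L = H * (θ * L) := by ring
      rw [h3]
      exact le_mul_of_one_le_right hH0.le h2
    exact_mod_cast h1
  have hv₀p : (0 : ℝ) < v₀ := by linarith
  have hW : 1 / δ + 1 ≤ WW H v₀ v₁ := by
    have h1 := hww H v₀ v₁ hHn hHv₀ hv01
    have h2 : A ≤ Real.log ((v₁ : ℝ) / v₀) := by
      rw [Real.le_log_iff_exp_le (by have : (0 : ℝ) < v₁ := by linarith
                                     positivity), le_div_iff₀ hv₀p]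
      calc Real.exp A * v₀ ≤ Real.exp A * (2 * (θ * H * L)) :=
            mul_le_mul_of_nonneg_left hv₀1 (Real.exp_pos _).le
        _ = (4 * θ * Real.exp A) * H * L / 2 := by ring
        _ = θ₂ * H * L / 2 := by rw [hθA]
        _ ≤ v₁ := hv₁1
    rw [hA] at h2
    linarith
  have hW0 : 0 < WW H v₀ v₁ := by linarith
  have hW1 : 1 ≤ WW H v₀ v₁ := by linarith
  have hWδ : 1 / WW H v₀ v₁ ≤ δ := by
    rw [div_le_iff₀ hW0]
    have h1 : 1 / δ ≤ WW H v₀ v₁ := by linarith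
    rw [div_le_iff₀ hδ0] at h1
    linarith
  have hv₀H : θ * L ≤ (v₀ : ℝ) / H := by
    rw [le_div_iff₀ hH0]
    linarith
  have hv₁H : (v₁ : ℝ) / H ≤ θ₂ * L := by
    rw [div_le_iff₀ hH0]
    linarith
  have hexp : 1 / δ + m ≤ Real.exp ((v₀ : ℝ) / H) := by
    have h1 := Real.add_one_le_exp ((v₀ : ℝ) / H)
    linarith
  have hmexp : (m : ℝ) ≤ Real.exp ((v₀ : ℝ) / H) := by linarith
  have hδexp : Real.exp (-((v₀ : ℝ) / H)) ≤ δ := by
    rw [Real.exp_neg, inv_le_comm₀ (Real.exp_pos _) hδ0, inv_eq_one_div]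
    linarith
  have hYrange : ∀ Y : ℝ, X * Real.exp (-(k * ((v₁ : ℝ) / H))) ≤ Y → X ^ (99 / 100 : ℝ) ≤ Y := by
    intro Y hY
    refine le_trans ?_ hY
    rw [Real.rpow_def_of_pos hX0, ← hL]
    rw [← hXL, ← Real.exp_add]
    apply Real.exp_le_exp.2
    have h1 : (k : ℝ) * ((v₁ : ℝ) / H) ≤ k * (θ₂ * L) :=
      mul_le_mul_of_nonneg_left hv₁H (Nat.cast_nonneg _)
    have h2 : (k : ℝ) * (θ₂ * L) ≤ 1 / 100 * L := by
      rw [← mul_assoc]
      exact mul_le_mul_of_nonneg_right hθ₂k hL0.le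
    linarith
  have hX99 : 1 ≤ X ^ (99 / 100 : ℝ) := Real.one_le_rpow hXX (by norm_num)
  have hYt : ∀ Y : ℝ, X ^ (99 / 100 : ℝ) ≤ Y → ∀ t ∈ S, |t| ≤ Y ^ (6 / 5 : ℝ) := by
    intro Y hY t ht
    refine (hS t ht).2.trans ?_
    calc X ^ (11 / 10 : ℝ) ≤ X ^ ((99 / 100 : ℝ) * (6 / 5 : ℝ)) :=
          Real.rpow_le_rpow_of_exponent_le hXX (by norm_num)
      _ = (X ^ (99 / 100 : ℝ)) ^ (6 / 5 : ℝ) := Real.rpow_mul hX0.le _ _
      _ ≤ Y ^ (6 / 5 : ℝ) := Real.rpow_le_rpow (by positivity) hY (by norm_num)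
  have hYc : ∀ Y : ℝ, X ^ (99 / 100 : ℝ) ≤ Y → (S.card : ℝ) ≤ Y ^ c₁ := by
    intro Y hY
    refine hcard.trans ?_
    calc X ^ (c₁ / 2) ≤ X ^ ((99 / 100 : ℝ) * c₁) :=
          Real.rpow_le_rpow_of_exponent_le hXX (by linarith)
      _ = (X ^ (99 / 100 : ℝ)) ^ c₁ := Real.rpow_mul hX0.le _ _
      _ ≤ Y ^ c₁ := Real.rpow_le_rpow (by positivity) hY hc₁.le
  have hv₁exp : Real.exp ((v₁ : ℝ) / H) ≤ X ^ (99 / 100 : ℝ) := by
    rw [Real.rpow_def_of_pos hX0, ← hL]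
    apply Real.exp_le_exp.2
    have h1 : θ₂ * L ≤ 1 / 100 * L := mul_le_mul_of_nonneg_right hθ₂1 hL0.le
    linarith
  have hfinal := fp_iter (m := m) (H := H) (v₀ := v₀) (v₁ := v₁) (k := k) (X := X) (c := c)
    (C' := C') (E := Real.sqrt (C₁ * C₂ * (3 * δ))) (S := S) hX0 hc hc1.le hC'0
    (Real.sqrt_nonneg _) hfac hW0 ?_ ?_ ?_ k le_rfl X ?_ le_rfl a
  · have h1 : (1 - c / 2) ^ k * C' ≤ Real.sqrt ε / 2 := by
      rw [lt_div_iff₀ (by positivity)] at hk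
      have h2 : 0 ≤ (1 - c / 2) ^ k := pow_nonneg (by linarith) k
      have h3 : (1 - c / 2) ^ k * (2 * (C' + 1)) =
        2 * ((1 - c / 2) ^ k * C') + 2 * (1 - c / 2) ^ k := by ring
      linarith
    have h2 : 2 / c * Real.sqrt (C₁ * C₂ * (3 * δ)) ≤ Real.sqrt ε / 2 := by
      have h3 : Real.sqrt (C₁ * C₂ * (3 * δ)) ≤ c * Real.sqrt ε / 4 := by
        rw [Real.sqrt_le_left (by positivity), div_pow, mul_pow, Real.sq_sqrt hε.le, hδ]
        apply le_of_eq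
        field_simp
        ring
      calc 2 / c * Real.sqrt (C₁ * C₂ * (3 * δ)) ≤ 2 / c * (c * Real.sqrt ε / 4) :=
            mul_le_mul_of_nonneg_left h3 (by positivity)
        _ = Real.sqrt ε / 2 := by
          field_simp
          ring
    have h3 : nS S (DD m a X) ≤ Real.sqrt ε := by linarith
    rw [← nS_sq]
    calc nS S (DD m a X) ^ 2 ≤ Real.sqrt ε ^ 2 := pow_le_pow_left₀ (nS_nonneg _ _) h3 2
      _ = ε := Real.sq_sqrt hε.le
  · intro Y hY hYX a'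
    have h1 := hYrange Y hY
    rw [hC']
    exact fp_trivial hC₁ hhm m a' (hX99.trans h1) (hYt Y h1) hsep (hYc Y h1)
  · intro Y hY hYX a'
    have h1 := hYrange Y hY
    have hY1 : 1 ≤ Y := hX99.trans h1
    have hY0 : 0 < Y := by linarith
    obtain ⟨e, he1, he2, he3⟩ := htk m a' H v₀ v₁ Y hHn hv01 hmexp (hv₁exp.trans h1) hW1
    refine nS_le (Real.sqrt_nonneg _) ?_
    rw [Real.sq_sqrt (by positivity)]
    simp only [he2]
    refine (hhm Y e S hY1 he1 (hYt Y h1) hsep (hYc Y h1)).trans ?_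
    calc C₁ * Y * ∑ n ∈ Icc 1 ⌊60 * Y⌋₊, ‖e n‖ ^ 2 ≤ C₁ * Y * (C₂ / Y * (3 * δ)) := by
          refine mul_le_mul_of_nonneg_left (he3.trans ?_) (by positivity)
          exact mul_le_mul_of_nonneg_left (by linarith) (by positivity)
      _ = C₁ * C₂ * (3 * δ) := by
        field_simp
  · intro t ht v hv b
    rw [mem_Ico] at hv
    have h1 : (v₀ : ℝ) ≤ v := by exact_mod_cast hv.1
    have h2 : (v : ℝ) ≤ v₁ := by exact_mod_cast hv.2.le
    refine hcon X hX1 t (hS t ht).1 (hS t ht).2 b v ?_ ?_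
    · rw [← hL]
      exact hv₀H.trans (div_le_div_of_nonneg_right h1 hH0.le)
    · rw [← hL]
      refine (div_le_div_of_nonneg_right h2 hH0.le).trans (hv₁H.trans ?_)
      exact mul_le_of_le_one_left hL0.le (by linarith)
  · have h1 : -(((k : ℝ) - k) * ((v₁ : ℝ) / H)) = 0 := by ring
    rw [h1, Real.exp_zero, mul_one]

end Pool.Agent.Lib.MP_3e612f_nt.MR
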