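import Pool.Agent.Lib.MP_3e612f_nt.MR.UCount
import Pool.Agent.Lib.MP_3e612f_nt.MR.FinPts
import Pool.Agent.Lib.MP_3e612f_nt.MR.FinA

/-! The last scale (iterated contraction, helper37). -/

set_option autoImplicit false

namespace Pool.Agent.Lib.MP_3e612f_nt.MR

open Finset MeasureTheory

/-- the number of unit intervals which meet the complement of `sm` -/
theorem fin_count (m : ℕ) [NeZero m] (α : ℝ) (hα : 0 < α) (X C₀ : ℝ)
    (hu : ∀ (b : ZMod m) (H v : ℕ), 1 ≤ H → C₀ * Real.log (Real.log X) ≤ (v : ℝ) / H →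
      (v : ℝ) / H ≤ Real.sqrt (Real.log X) →
      (Set.ncard {k : ℤ | |(k : ℝ)| ≤ X ^ (11 / 10 : ℝ) + 1 ∧
        ∃ t ∈ Set.Icc (k : ℝ) (k + 1), Real.exp (-(α * ((v : ℝ) / H))) < ‖QQ m b H v t‖} : ℝ) ≤ X ^ (3 * α))
    (hX : 0 ≤ X)
    (b : ℕ) (hb : 2 ≤ b) (h1 : C₀ * Real.log (Real.log X) ≤ (b : ℝ) ^ 3)
    (h2 : (b : ℝ) ^ 4 ≤ Real.sqrt (Real.log X)) :
    ∃ K : Finset ℤ, (K.card : ℝ) ≤ (b : ℝ) ^ 5 * (m * X ^ (3 * α)) ∧
      ∀ t : ℝ, |t| ≤ X ^ (11 / 10 : ℝ) → t ∈ (sm m (α * (1 - 1 / (b : ℝ))) b (b ^ 4) (b ^ 5))ᶜ → ⌊t⌋ ∈ K := by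
  classical
  have hb1 : (1 : ℝ) ≤ b := by exact_mod_cast (by omega : 1 ≤ b)
  have hb0 : (0 : ℝ) < b := by linarith
  have hfin : ∀ (v : ℕ) (c : (ZMod m)ˣ), Set.Finite {k : ℤ | |(k : ℝ)| ≤ X ^ (11 / 10 : ℝ) + 1 ∧
      ∃ t ∈ Set.Icc (k : ℝ) (k + 1), Real.exp (-(α * ((v : ℝ) / b))) < ‖QQ m (c : ZMod m) b v t‖} := by
    intro v c
    refine (Set.finite_Icc (-⌈X ^ (11 / 10 : ℝ) + 1⌉) ⌈X ^ (11 / 10 : ℝ) + 1⌉).subset ?_
    intro k hk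
    have h3 := abs_le.1 hk.1
    have h4 := Int.le_ceil (X ^ (11 / 10 : ℝ) + 1)
    refine ⟨?_, ?_⟩
    · have : ((-⌈X ^ (11 / 10 : ℝ) + 1⌉ : ℤ) : ℝ) ≤ (k : ℝ) := by
        push_cast
        linarith [h3.1]
      exact_mod_cast this
    · have : (k : ℝ) ≤ ((⌈X ^ (11 / 10 : ℝ) + 1⌉ : ℤ) : ℝ) := by linarith [h3.2]
      exact_mod_cast this
  refine ⟨(Ico (b ^ 4) (b ^ 5)).biUnion fun v => (Finset.univ : Finset (ZMod m)ˣ).biUnion fun c =>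
    (hfin v c).toFinset, ?_, ?_⟩
  · have hp0 : 0 ≤ X ^ (3 * α) := Real.rpow_nonneg hX _
    have hc1 : ∀ v ∈ Ico (b ^ 4) (b ^ 5), ∀ c ∈ (Finset.univ : Finset (ZMod m)ˣ),
        (((hfin v c).toFinset).card : ℝ) ≤ X ^ (3 * α) := by
      intro v hv c _
      rw [← Set.ncard_eq_toFinset_card _ (hfin v c)]
      have hv1 := Finset.mem_Ico.1 hv
      have h5 : ((b ^ 4 : ℕ) : ℝ) ≤ (v : ℝ) := by exact_mod_cast hv1.1
      have h6 : (v : ℝ) ≤ ((b ^ 5 : ℕ) : ℝ) := by exact_mod_cast hv1.2.le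
      push_cast at h5 h6
      refine hu c b v (by omega) (h1.trans ?_) (le_trans ?_ h2)
      · rw [le_div_iff₀ hb0]
        calc (b : ℝ) ^ 3 * (b : ℝ) = (b : ℝ) ^ 4 := by ring
          _ ≤ (v : ℝ) := h5
      · rw [div_le_iff₀ hb0]
        calc (v : ℝ) ≤ (b : ℝ) ^ 5 := h6
          _ = (b : ℝ) ^ 4 * (b : ℝ) := by ring
    have hcu : (((Finset.univ : Finset (ZMod m)ˣ).card : ℕ) : ℝ) ≤ m := by
      rw [Finset.card_univ, ZMod.card_units_eq_totient]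
      exact_mod_cast Nat.totient_le m
    have hc2 : ∀ v ∈ Ico (b ^ 4) (b ^ 5), ((((Finset.univ : Finset (ZMod m)ˣ).biUnion fun c =>
        (hfin v c).toFinset).card : ℕ) : ℝ) ≤ m * X ^ (3 * α) := by
      intro v hv
      have h7 : ((((Finset.univ : Finset (ZMod m)ˣ).biUnion fun c =>
        (hfin v c).toFinset).card : ℕ) : ℝ) ≤ ∑ c : (ZMod m)ˣ, (((hfin v c).toFinset).card : ℝ) := by
        exact_mod_cast Finset.card_biUnion_le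
      refine h7.trans ((Finset.sum_le_sum (hc1 v hv)).trans ?_)
      rw [Finset.sum_const, nsmul_eq_mul]
      exact mul_le_mul_of_nonneg_right hcu hp0
    have h8 : ((((Ico (b ^ 4) (b ^ 5)).biUnion fun v => (Finset.univ : Finset (ZMod m)ˣ).biUnion fun c =>
        (hfin v c).toFinset).card : ℕ) : ℝ) ≤ ∑ v ∈ Ico (b ^ 4) (b ^ 5),
          ((((Finset.univ : Finset (ZMod m)ˣ).biUnion fun c => (hfin v c).toFinset).card : ℕ) : ℝ) := by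
      exact_mod_cast Finset.card_biUnion_le
    refine h8.trans ((Finset.sum_le_sum hc2).trans ?_)
    rw [Finset.sum_const, nsmul_eq_mul]
    refine mul_le_mul_of_nonneg_right ?_ (by positivity)
    rw [Nat.card_Ico]
    calc ((b ^ 5 - b ^ 4 : ℕ) : ℝ) ≤ ((b ^ 5 : ℕ) : ℝ) := by exact_mod_cast Nat.sub_le _ _
      _ = (b : ℝ) ^ 5 := by push_cast; rfl
  · intro t ht hsm
    have h9 : ∃ v ∈ Ico (b ^ 4) (b ^ 5), ∃ c : (ZMod m)ˣ,
        Real.exp (-(α * (1 - 1 / (b : ℝ)) * ((v : ℝ) / b))) < ‖QQ m (c : ZMod m) b v t‖ := by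
      by_contra hcon
      push Not at hcon
      exact hsm hcon
    obtain ⟨v, hv, c, hvc⟩ := h9
    refine Finset.mem_biUnion.2 ⟨v, hv, Finset.mem_biUnion.2 ⟨c, Finset.mem_univ _, ?_⟩⟩
    rw [Set.Finite.mem_toFinset]
    have hf1 := Int.floor_le t
    have hf2 := Int.lt_floor_add_one t
    have ha := abs_le.1 ht
    refine ⟨?_, t, ⟨hf1, hf2.le⟩, lt_of_le_of_lt ?_ hvc⟩
    · rw [abs_le]
      constructor <;> linarith [ha.1, ha.2]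
    · rw [Real.exp_le_exp]
      have h10 : 0 ≤ (v : ℝ) / b := by positivity
      have h11 : 0 ≤ 1 / (b : ℝ) := by positivity
      have h12 : α * (1 - 1 / (b : ℝ)) ≤ α := by nlinarith
      have h13 := mul_le_mul_of_nonneg_right h12 h10
      linarith

/-- Proof. `α = c₂/5`; `C₀` from `ucount α`. For every integer `k` whose unit interval `[k, k+1]` meets the set `U` choose `t_k ∈ U ∩ [k, k+1]` with
`|DD(t_k)|^2 ≥ (1/2) sup_{U ∩ [k,k+1]} |DD|^2`; then `∫_U |DD|^2 gw ≤ 2 ∑_k |DD(t_k)|^2` (`gw ≤ 1`). The points with `k ≡ j` modulo 2 are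
1-separated (`j = 0, 1`); their number is at most `b^5 m X^{3α} ≤ X^{4α}` by `ucount` (for `t ∉ sm` there are `v', b'` with
`‖QQ‖ > e^{-α(1-1/b)v'/b} ≥ e^{-α v'/b}`, and `v'/b ∈ [b^3, b^4]`). `fin_pts`. -/
theorem fin : ∃ α : ℝ, 0 < α ∧ α ≤ 1 ∧ ∀ (m : ℕ) [NeZero m] (ε : ℝ), 0 < ε → ∃ C₀ T₀ X₀ : ℝ, 0 < C₀ ∧ 1 ≤ T₀ ∧
    ∀ X : ℝ, X₀ ≤ X → ∀ b : ℕ, 2 ≤ b → C₀ * Real.log (Real.log X) ≤ (b : ℝ) ^ 3 →
      (b : ℝ) ^ 4 ≤ Real.sqrt (Real.log X) → ∀ (a : ZMod m) (η : ℝ), 1 / X ≤ η →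
        ∫ t in {t : ℝ | T₀ ≤ |t| ∧ |t| ≤ X ^ (11 / 10 : ℝ)} ∩ (sm m (α * (1 - 1 / (b : ℝ))) b (b ^ 4) (b ^ 5))ᶜ,
          ‖DD m a X t‖ ^ 2 * gw η t ≤ ε := by
  obtain ⟨c₂, hc₂, hc₂1, hpts⟩ := fin_pts
  refine ⟨c₂ / 5, by positivity, by linarith, ?_⟩
  set α : ℝ := c₂ / 5 with hα
  have hα0 : 0 < α := by positivity
  intro m _ ε hε
  obtain ⟨C₀, X₁, hC₀, hu⟩ := ucount α hα0 (by rw [hα]; linarith)
  obtain ⟨T₀, X₂, hT₀, hp⟩ := hpts m (ε / 2) (by positivity)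
  have hm1 : (1 : ℝ) ≤ m := by
    have := NeZero.ne m
    exact_mod_cast (by omega : 1 ≤ m)
  have hev : ∀ᶠ X : ℝ in Filter.atTop, X₁ ≤ X ∧ X₂ ≤ X ∧ 1 ≤ X ∧ m * Real.log X ≤ X ^ α := by
    have hlit := (isLittleO_log_rpow_atTop hα0).bound (show 0 < 1 / (m : ℝ) by positivity)
    filter_upwards [Filter.eventually_ge_atTop X₁, Filter.eventually_ge_atTop X₂,
      Filter.eventually_ge_atTop (1 : ℝ), hlit] with X e1 e2 e3 e7
    refine ⟨e1, e2, e3, ?_⟩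
    have hx0 : 0 ≤ X ^ α := Real.rpow_nonneg (by linarith) _
    rw [Real.norm_eq_abs, Real.norm_eq_abs, abs_of_nonneg hx0, abs_of_nonneg (Real.log_nonneg e3)] at e7
    have hm0 : (0 : ℝ) < m := by linarith
    calc m * Real.log X ≤ m * (1 / m * X ^ α) := mul_le_mul_of_nonneg_left e7 hm0.le
      _ = X ^ α := by field_simp
  obtain ⟨X₀, hX₀⟩ := Filter.eventually_atTop.1 hev
  refine ⟨C₀, T₀, X₀, hC₀, hT₀, ?_⟩
  intro X hX b hb hb1 hb2 a η hη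
  obtain ⟨e1, e2, e3, e7⟩ := hX₀ X hX
  have hXpos : 0 < X := by linarith
  have hη0 : 0 < η := lt_of_lt_of_le (by positivity) hη
  obtain ⟨K, hKc, hKt⟩ := fin_count m α hα0 X C₀ (fun c H' v h1 h2 h3 => hu X e1 m c H' v h1 h2 h3) hXpos.le b hb
    hb1 hb2
  set G : Set ℝ := {t : ℝ | T₀ ≤ |t| ∧ |t| ≤ X ^ (11 / 10 : ℝ)} ∩
    (sm m (α * (1 - 1 / (b : ℝ))) b (b ^ 4) (b ^ 5))ᶜ with hG
  have hGm : MeasurableSet G := by
    refine MeasurableSet.inter ?_ (fin_sm_closed _ _ _ _ _).measurableSet.compl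
    refine (IsClosed.inter (isClosed_le continuous_const continuous_abs)
      (isClosed_le continuous_abs continuous_const)).measurableSet
  have hGB : G ⊆ Set.Icc (-(X ^ (11 / 10 : ℝ))) (X ^ (11 / 10 : ℝ)) := fun t ht => abs_le.1 ht.1.2
  have hKb : (K.card : ℝ) ≤ X ^ c₂ := by
    refine hKc.trans ?_
    have hlog0 : 0 ≤ Real.log X := Real.log_nonneg e3
    have h1 : (b : ℝ) ^ 5 ≤ Real.log X := by
      have hb1' : (1 : ℝ) ≤ b := by exact_mod_cast (by omega : 1 ≤ b)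
      have h2 : (b : ℝ) ^ 5 ≤ (b : ℝ) ^ 8 := pow_le_pow_right₀ hb1' (by norm_num)
      have h3 : (b : ℝ) ^ 8 = ((b : ℝ) ^ 4) ^ 2 := by ring
      have h4 : ((b : ℝ) ^ 4) ^ 2 ≤ (Real.sqrt (Real.log X)) ^ 2 := pow_le_pow_left₀ (by positivity) hb2 2
      rw [Real.sq_sqrt hlog0] at h4
      linarith
    have h5 : 0 ≤ X ^ (3 * α) := Real.rpow_nonneg hXpos.le _
    have h6 : X ^ α * X ^ (3 * α) ≤ X ^ c₂ := by
      rw [← Real.rpow_add hXpos]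
      refine Real.rpow_le_rpow_of_exponent_le e3 ?_
      rw [hα]
      linarith
    calc (b : ℝ) ^ 5 * (m * X ^ (3 * α)) ≤ Real.log X * (m * X ^ (3 * α)) :=
          mul_le_mul_of_nonneg_right h1 (by positivity)
      _ = (m * Real.log X) * X ^ (3 * α) := by ring
      _ ≤ X ^ α * X ^ (3 * α) := mul_le_mul_of_nonneg_right e7 h5
      _ ≤ X ^ c₂ := h6
  have hDc : Continuous (fun t => ‖DD m a X t‖ ^ 2) := (fin_DD_cont m a X).norm.pow 2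
  have hmain : ∫ t in G, ‖DD m a X t‖ ^ 2 ≤ 2 * (ε / 2) := by
    refine fin_sample (fun t => ‖DD m a X t‖ ^ 2) hDc (fun t => sq_nonneg _) G hGm K
      (fun t ht => hKt t ht.1.2 ht.2) (ε / 2) ?_
    intro S hSG hSs hSc
    have h1 : (S.card : ℝ) ≤ K.card := by exact_mod_cast hSc
    exact hp X e2 S (fun t ht => (hSG t ht).1) hSs (h1.trans hKb) a
  have hle : ∫ t in G, ‖DD m a X t‖ ^ 2 * gw η t ≤ ∫ t in G, ‖DD m a X t‖ ^ 2 := by
    refine setIntegral_mono_on ?_ ?_ hGm ?_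
    · exact (fin_int_sq _ (fin_DD_cont m a X) (fin_DD_bdd m a X) η hη0).integrableOn
    · exact (hDc.integrableOn_Icc (a := -(X ^ (11 / 10 : ℝ))) (b := X ^ (11 / 10 : ℝ))).mono_set hGB
    · intro t _
      exact mul_le_of_le_one_right (sq_nonneg _) (fin_gw_le_one η t)
  linarith

end Pool.Agent.Lib.MP_3e612f_nt.MR
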