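import Pool.Agent.Lib.MP_3e612f_nt.MR.Lev
import Pool.Agent.Lib.MP_3e612f_nt.MR.Pw

/-! All levels. -/

set_option autoImplicit false

namespace Pool.Agent.Lib.MP_3e612f_nt.MR

open Finset MeasureTheory

/-! ### continuity and integrability -/

private theorem lv_norm_ph (n : ℕ) (t : ℝ) : ‖ph n t‖ = 1 := by
  unfold ph
  rw [← neg_mul, ← Complex.ofReal_neg]
  exact Complex.norm_exp_ofReal_mul_I _

private theorem lv_continuous_ph (n : ℕ) : Continuous (ph n) := by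
  unfold ph
  fun_prop

private theorem lv_continuous_DD (m : ℕ) (a : ZMod m) (X : ℝ) : Continuous (DD m a X) := by
  unfold DD
  exact continuous_const.mul (continuous_finsetSum _ fun n _ =>
    continuous_const.mul (lv_continuous_ph n))

private theorem lv_continuous_QQ (m : ℕ) (b : ZMod m) (H v : ℕ) : Continuous (QQ m b H v) := by
  unfold QQ
  exact continuous_const.mul (continuous_finsetSum _ fun n _ => lv_continuous_ph n)

private theorem lv_gw_integrable (η : ℝ) (hη : 0 < η) : Integrable (gw η) := by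
  have h := integrable_exp_neg_mul_sq (b := η ^ 2 / 2) (by positivity)
  refine h.congr (Filter.Eventually.of_forall fun t => ?_)
  change Real.exp (-(η ^ 2 / 2) * t ^ 2) = Real.exp (-((η * t) ^ 2 / 2))
  congr 1
  ring

private theorem lv_integrable (m : ℕ) (a : ZMod m) (X η : ℝ) (hη : 0 < η) :
    Integrable (fun t : ℝ => ‖DD m a X t‖ ^ 2 * gw η t) := by
  set K : ℝ := |1 / X| * ∑ n ∈ Icc 1 ⌊21 * X⌋₊, |co m a X n| with hK
  have hb : ∀ t, ‖DD m a X t‖ ≤ K := by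
    intro t
    unfold DD
    rw [norm_mul, Complex.norm_real, Real.norm_eq_abs]
    refine mul_le_mul_of_nonneg_left ?_ (abs_nonneg _)
    refine (norm_sum_le _ _).trans (Finset.sum_le_sum fun n _ => ?_)
    rw [norm_mul, lv_norm_ph, mul_one, Complex.norm_real, Real.norm_eq_abs]
  have hK0 : 0 ≤ K := (norm_nonneg _).trans (hb 0)
  refine ((lv_gw_integrable η hη).const_mul (K ^ 2)).mono' ?_ (Filter.Eventually.of_forall fun t => ?_)
  · refine Continuous.aestronglyMeasurable ?_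
    refine ((lv_continuous_DD m a X).norm.pow 2).mul ?_
    unfold gw
    fun_prop
  · have h0 : 0 ≤ gw η t := (Real.exp_pos _).le
    rw [Real.norm_eq_abs, abs_of_nonneg (mul_nonneg (sq_nonneg _) h0)]
    exact mul_le_mul_of_nonneg_right (pow_le_pow_left₀ (norm_nonneg _) (hb t) 2) h0

private theorem lv_measurable_sm (m : ℕ) (α : ℝ) (H v0 v1 : ℕ) : MeasurableSet (sm m α H v0 v1) := by
  have h : IsClosed (sm m α H v0 v1) := by
    have e : sm m α H v0 v1 = ⋂ v ∈ Ico v0 v1, ⋂ b : (ZMod m)ˣ,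
        {t | ‖QQ m (b : ZMod m) H v t‖ ≤ Real.exp (-(α * ((v : ℝ) / H)))} := by
      ext t
      simp only [sm, Set.mem_ofPred_eq, Set.mem_iInter]
    rw [e]
    refine isClosed_iInter fun v => isClosed_iInter fun _ => isClosed_iInter fun b => ?_
    exact isClosed_le (lv_continuous_QQ m _ H v).norm continuous_const
  exact h.measurableSet

/-! ### the parameters -/

/-- the set of the level `c` -/
private def lv (m : ℕ) (α : ℝ) (c : ℕ) : Set ℝ := sm m (α * (1 - 1 / (c : ℝ))) c (c ^ 4) (c ^ 5)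

/-- the conditions on `c` -/
private def Good (m : ℕ) (α C3 C4 : ℝ) (c : ℕ) : Prop :=
  6 ≤ c ∧ 2 * C4 + 2 ≤ Real.log c ∧ C3 ≤ c ∧ (m : ℝ) ≤ Real.exp c ∧ 28 / α + 1 ≤ c ∧
    (c : ℝ) ^ 26 * m ^ 3 ≤ Real.exp (α * c)

private theorem exists_good (m : ℕ) (α C3 C4 : ℝ) (hα : 0 < α) (hm : 1 ≤ m) (M : ℝ) :
    ∃ B : ℕ, M ≤ Real.log B ∧ ∀ c : ℕ, B ≤ c → Good m α C3 C4 c := by
  have h1 : ∀ᶠ x : ℝ in Filter.atTop, 2 * C4 + 2 ≤ Real.log x :=
    Real.tendsto_log_atTop.eventually_ge_atTop _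
  have h2 : ∀ᶠ x : ℝ in Filter.atTop, (m : ℝ) ≤ Real.exp x :=
    Real.tendsto_exp_atTop.eventually_ge_atTop _
  have h3 : ∀ᶠ x : ℝ in Filter.atTop, x ^ 26 * m ^ 3 ≤ Real.exp (α * x) := by
    have hm3 : (0 : ℝ) < (m : ℝ) ^ 3 := by
      have : (0 : ℝ) < m := by exact_mod_cast hm
      positivity
    have h := (isLittleO_pow_exp_pos_mul_atTop (k := 26) hα).bound (c := 1 / (m : ℝ) ^ 3)
      (by positivity)
    filter_upwards [h, Filter.eventually_ge_atTop 0] with x hx hx0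
    rw [Real.norm_eq_abs, Real.norm_eq_abs, abs_of_nonneg (pow_nonneg hx0 _),
      abs_of_nonneg (Real.exp_pos _).le, one_div, inv_mul_eq_div, le_div_iff₀ hm3] at hx
    exact hx
  have h4 : ∀ᶠ x : ℝ in Filter.atTop, M ≤ Real.log x :=
    Real.tendsto_log_atTop.eventually_ge_atTop _
  have h5 : ∀ᶠ x : ℝ in Filter.atTop, 6 ≤ x ∧ 2 * C4 + 2 ≤ Real.log x ∧ C3 ≤ x ∧
      (m : ℝ) ≤ Real.exp x ∧ 28 / α + 1 ≤ x ∧ x ^ 26 * m ^ 3 ≤ Real.exp (α * x) ∧
      M ≤ Real.log x := by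
    filter_upwards [h1, h2, h3, h4, Filter.eventually_ge_atTop 6, Filter.eventually_ge_atTop C3,
      Filter.eventually_ge_atTop (28 / α + 1)] with x a1 a2 a3 a4 a5 a6 a7
    exact ⟨a5, a1, a6, a2, a7, a3, a4⟩
  obtain ⟨x0, hx0⟩ := Filter.eventually_atTop.1 h5
  refine ⟨⌈x0⌉₊, (hx0 _ (Nat.le_ceil _)).2.2.2.2.2.2, fun c hc => ?_⟩
  obtain ⟨a1, a2, a3, a4, a5, a6, -⟩ := hx0 c ((Nat.le_ceil x0).trans (by exact_mod_cast hc))
  exact ⟨by exact_mod_cast a1, a2, a3, a4, a5, a6⟩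

section level

variable {m : ℕ} {α C3 C4 : ℝ} {c : ℕ}

private theorem good_log_le (h : Good m α C3 C4 c) : 1 / (c : ℝ) ≤ 1 / Real.log c := by
  have h6 : (6 : ℝ) ≤ c := by exact_mod_cast h.1
  have h1 : 0 < Real.log c := Real.log_pos (by linarith)
  exact one_div_le_one_div_of_le h1 ((Real.log_le_sub_one_of_pos (by linarith)).trans (by linarith))

private theorem good_ww (h : Good m α C3 C4 c)
    (hww : Real.log (((c ^ 5 : ℕ) : ℝ) / ((c ^ 4 : ℕ) : ℝ)) - C4 ≤ WW c (c ^ 4) (c ^ 5)) :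
    1 ≤ WW c (c ^ 4) (c ^ 5) ∧ 1 / WW c (c ^ 4) (c ^ 5) ≤ 2 / Real.log c := by
  have h6 : (6 : ℝ) ≤ c := by exact_mod_cast h.1
  have h1 : 0 < Real.log c := Real.log_pos (by linarith)
  have e : ((c ^ 5 : ℕ) : ℝ) / ((c ^ 4 : ℕ) : ℝ) = c := by
    have : (c : ℝ) ≠ 0 := by linarith
    push_cast
    field_simp
  rw [e] at hww
  have h2 := h.2.1
  have h3 : Real.log c / 2 ≤ WW c (c ^ 4) (c ^ 5) := by linarith
  constructor
  · have h4 : 1 / (c : ℝ) ≤ 1 := by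
      rw [div_le_one (by linarith)]
      linarith
    nlinarith [h.2.1]
  · have h4 : 1 / WW c (c ^ 4) (c ^ 5) ≤ 1 / (Real.log c / 2) :=
      one_div_le_one_div_of_le (by linarith) h3
    rwa [one_div_div] at h4

end level

private theorem good_exp {m : ℕ} {α C3 C4 : ℝ} {c : ℕ} (h : Good m α C3 C4 c) {y : ℝ}
    (hy : α * c ≤ y) : (c : ℝ) ^ 26 * m ^ 3 * Real.exp (-y) ≤ 1 := by
  have h1 := h.2.2.2.2.2
  have h2 : Real.exp (α * c) ≤ Real.exp y := Real.exp_le_exp.2 hy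
  rw [Real.exp_neg, ← div_eq_mul_inv, div_le_one (Real.exp_pos _)]
  linarith

private theorem exp_neg_le {x : ℝ} (hx : 1 ≤ x) : Real.exp (-x) ≤ 1 / x := by
  have h1 := Real.add_one_le_exp x
  rw [Real.exp_neg, ← one_div]
  exact one_div_le_one_div_of_le (by linarith) (by linarith)

/-- the first level -/
private theorem level_first {C1 : ℝ} (hC1 : 0 < C1)
    (H1 : ∀ (m : ℕ) [NeZero m] (a : ZMod m) (H v₀ v₁ : ℕ) (X η α : ℝ),
      1 ≤ H → v₀ ≤ v₁ → (m : ℝ) ≤ Real.exp ((v₀ : ℝ) / H) → Real.exp ((v₁ : ℝ) / H) ≤ X →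
      Real.exp ((v₁ : ℝ) / H) ≤ η * X → 1 ≤ WW H v₀ v₁ → 0 ≤ α →
      ∫ t in sm m α H v₀ v₁, ‖DD m a X t‖ ^ 2 * gw η t ≤
        C1 * (1 / WW H v₀ v₁ + Real.exp (-((v₀ : ℝ) / H)) + 1 / (H : ℝ) ^ 2) +
        C1 * (((v₁ : ℝ) * m) ^ 2 * Real.exp (-(2 * α * ((v₀ : ℝ) / H)))))
    {C3 C4 : ℝ} (H4 : ∀ H v₀ v₁ : ℕ, 1 ≤ H → H ≤ v₀ → v₀ ≤ v₁ →
      Real.log ((v₁ : ℝ) / v₀) - C4 ≤ WW H v₀ v₁)
    {m : ℕ} [NeZero m] {α : ℝ} (hα : 0 < α) {c : ℕ} (hc : Good m α C3 C4 c) (a : ZMod m)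
    {X : ℝ} {h : ℕ} (hX : Real.exp ((c : ℝ) ^ 4) ≤ X) (hh : Real.exp ((c : ℝ) ^ 4) ≤ h) :
    ∫ t in lv m α c, ‖DD m a X t‖ ^ 2 * gw (h / X) t ≤ 6 * C1 / Real.log c := by
  have h6 : (6 : ℝ) ≤ c := by exact_mod_cast hc.1
  have hc1 : 1 ≤ c := le_trans (by norm_num) hc.1
  have hm1 : (1 : ℝ) ≤ m := by exact_mod_cast Nat.one_le_iff_ne_zero.2 (NeZero.ne m)
  have hlog : 0 < Real.log c := Real.log_pos (by linarith)
  have hX0 : 0 < X := (Real.exp_pos _).trans_le hX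
  obtain ⟨w1, w2⟩ := good_ww hc (H4 c (c ^ 4) (c ^ 5) hc1 (Nat.le_self_pow (by norm_num) c)
    (Nat.pow_le_pow_right hc1 (by norm_num)))
  have e3 : ((c ^ 4 : ℕ) : ℝ) / (c : ℝ) = (c : ℝ) ^ 3 := by
    have : (c : ℝ) ≠ 0 := by linarith
    push_cast
    field_simp
  have e4 : ((c ^ 5 : ℕ) : ℝ) / (c : ℝ) = (c : ℝ) ^ 4 := by
    have : (c : ℝ) ≠ 0 := by linarith
    push_cast
    field_simp
  set x : ℝ := (c : ℝ) with hx
  have hx3 : x ≤ x ^ 3 := le_self_pow₀ (by linarith) (by norm_num)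
  have hα' : 0 ≤ α * (1 - 1 / x) := by
    refine mul_nonneg hα.le ?_
    rw [sub_nonneg, div_le_one (by linarith)]
    linarith
  have key := H1 m a c (c ^ 4) (c ^ 5) X (h / X) (α * (1 - 1 / x)) hc1
    (Nat.pow_le_pow_right hc1 (by norm_num))
    (by
      rw [e3]
      exact hc.2.2.2.1.trans (Real.exp_le_exp.2 hx3))
    (by rw [e4]; exact hX)
    (by
      rw [e4, div_mul_cancel₀ _ hX0.ne']
      exact hh) w1 hα'
  rw [e3] at key
  unfold lv
  refine key.trans ?_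
  have t2 : Real.exp (-(x ^ 3)) ≤ 1 / Real.log c := by
    refine (exp_neg_le (by nlinarith)).trans ?_
    exact (one_div_le_one_div_of_le (by linarith) hx3).trans (good_log_le hc)
  have t3 : 1 / x ^ 2 ≤ 1 / Real.log c := by
    refine le_trans ?_ (good_log_le hc)
    exact one_div_le_one_div_of_le (by linarith) (by nlinarith)
  have t4 : (((c ^ 5 : ℕ) : ℝ) * m) ^ 2 * Real.exp (-(2 * (α * (1 - 1 / x)) * x ^ 3)) ≤
      1 / Real.log c := by
    refine le_trans ?_ (good_log_le hc)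
    rw [le_div_iff₀ (by linarith)]
    refine le_trans ?_ (good_exp hc (y := 2 * (α * (1 - 1 / x)) * x ^ 3) ?_)
    · have h1 : (((c ^ 5 : ℕ) : ℝ) * m) ^ 2 * x ≤ x ^ 26 * m ^ 3 := by
        push_cast
        rw [← hx]
        have h2 : x ^ 11 * (m : ℝ) ^ 2 ≤ x ^ 26 * m ^ 3 := mul_le_mul
          (pow_le_pow_right₀ (by linarith) (by norm_num)) (pow_le_pow_right₀ hm1 (by norm_num))
          (by positivity) (by positivity)
        calc (x ^ 5 * m) ^ 2 * x = x ^ 11 * (m : ℝ) ^ 2 := by ring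
          _ ≤ _ := h2
      calc _ = (((c ^ 5 : ℕ) : ℝ) * m) ^ 2 * x * Real.exp (-(2 * (α * (1 - 1 / x)) * x ^ 3)) := by
            ring
        _ ≤ _ := mul_le_mul_of_nonneg_right h1 (Real.exp_pos _).le
    · have h1 : 2 * (α * (1 - 1 / x)) * x ^ 3 = α * (2 * (x - 1) * x ^ 2) := by
        have : x ≠ 0 := by linarith
        field_simp
      rw [h1]
      refine mul_le_mul_of_nonneg_left ?_ hα.le
      nlinarith [mul_nonneg (show (0 : ℝ) ≤ x - 6 by linarith) (show (0 : ℝ) ≤ x - 6 by linarith),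
        pow_nonneg (show (0 : ℝ) ≤ x - 6 by linarith) 3]
  have e5 : 6 * C1 / Real.log c = C1 * (2 / Real.log c + 1 / Real.log c + 1 / Real.log c) +
      C1 * (1 / Real.log c) + C1 * (1 / Real.log c) := by
    field_simp
    ring
  rw [e5]
  have h0 : 0 ≤ C1 * (1 / Real.log c) := by positivity
  have h7 := mul_le_mul_of_nonneg_left (add_le_add (add_le_add w2 t2) t3) hC1.le
  have h8 := mul_le_mul_of_nonneg_left t4 hC1.le
  linarith

/-- the other levels -/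
private theorem level_next {C2 : ℝ} (hC2 : 0 < C2)
    (H2 : ∀ (m : ℕ) [NeZero m] (a : ZMod m) (H v₀ v₁ H' v₀' v₁' : ℕ) (X η α α' : ℝ),
      1 ≤ H → 1 ≤ v₀ → v₀ ≤ v₁ → (m : ℝ) ≤ Real.exp ((v₀ : ℝ) / H) → Real.exp ((v₁ : ℝ) / H) ≤ X →
      1 / X ≤ η → 1 ≤ WW H v₀ v₁ → 1 ≤ H' → 1 ≤ v₀' → v₀' ≤ v₁' →
      (∀ v ∈ Ico v₀' v₁', ∑ p ∈ pw H' v, (1 : ℝ) / p ≤ 1) → 0 ≤ α' → α' ≤ α →
      (((H' : ℝ) / v₀' + (H : ℝ) / v₀) *
        Real.log (Real.exp 2 * (((v₁ : ℝ) / H) * ((H' : ℝ) / v₀') + 2)) ≤ (α - α') / 2) →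
      (2 * α' * ((v₁' : ℝ) / H' + 1) ≤ (α - α') / 2 * ((v₀ : ℝ) / H)) →
      ∫ t in sm m α H v₀ v₁ ∩ (sm m α' H' v₀' v₁')ᶜ, ‖DD m a X t‖ ^ 2 * gw η t ≤
        C2 * (1 / WW H v₀ v₁ + Real.exp (-((v₀ : ℝ) / H)) + 1 / (H : ℝ) ^ 2) +
        C2 * (((v₁ : ℝ) * m) ^ 2 * ((v₁' : ℝ) * m) * Real.exp (-((α - α') * ((v₀ : ℝ) / H)))))
    {C3 C4 : ℝ}
    (H3 : ∀ H v : ℕ, 1 ≤ H → C3 * H ≤ v → ∑ p ∈ pw H v, (1 : ℝ) / p ≤ 1)
    (H4 : ∀ H v₀ v₁ : ℕ, 1 ≤ H → H ≤ v₀ → v₀ ≤ v₁ →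
      Real.log ((v₁ : ℝ) / v₀) - C4 ≤ WW H v₀ v₁)
    {m : ℕ} [NeZero m] {α : ℝ} (hα : 0 < α) {c : ℕ} (hc : Good m α C3 C4 c)
    (hd : Good m α C3 C4 (c ^ 2)) (a : ZMod m)
    {X : ℝ} {h : ℕ} (hX : Real.exp (((c ^ 2 : ℕ) : ℝ) ^ 4) ≤ X) (hh : 1 ≤ h) :
    ∫ t in lv m α (c ^ 2) ∩ (lv m α c)ᶜ, ‖DD m a X t‖ ^ 2 * gw (h / X) t ≤
      6 * C2 / Real.log ((c ^ 2 : ℕ) : ℝ) := by
  have h6 : (6 : ℝ) ≤ c := by exact_mod_cast hc.1
  have hc1 : 1 ≤ c := le_trans (by norm_num) hc.1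
  have hd1 : 1 ≤ c ^ 2 := Nat.one_le_pow _ _ hc1
  have hm1 : (1 : ℝ) ≤ m := by exact_mod_cast Nat.one_le_iff_ne_zero.2 (NeZero.ne m)
  have hlog : 0 < Real.log c := Real.log_pos (by linarith)
  have hX0 : 0 < X := (Real.exp_pos _).trans_le hX
  obtain ⟨w1, w2⟩ := good_ww hd (H4 (c ^ 2) ((c ^ 2) ^ 4) ((c ^ 2) ^ 5) hd1
    (Nat.le_self_pow (by norm_num) _) (Nat.pow_le_pow_right hd1 (by norm_num)))
  have hc0 : (c : ℝ) ≠ 0 := by linarith
  have e1 : (((c ^ 2) ^ 4 : ℕ) : ℝ) / ((c ^ 2 : ℕ) : ℝ) = (c : ℝ) ^ 6 := by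
    push_cast
    field_simp
  have e2 : (((c ^ 2) ^ 5 : ℕ) : ℝ) / ((c ^ 2 : ℕ) : ℝ) = (c : ℝ) ^ 8 := by
    push_cast
    field_simp
  have e3 : (c : ℝ) / ((c ^ 4 : ℕ) : ℝ) = 1 / (c : ℝ) ^ 3 := by
    push_cast
    field_simp
  have e4 : ((c ^ 2 : ℕ) : ℝ) / (((c ^ 2) ^ 4 : ℕ) : ℝ) = 1 / (c : ℝ) ^ 6 := by
    push_cast
    field_simp
  have e5 : ((c ^ 5 : ℕ) : ℝ) / (c : ℝ) = (c : ℝ) ^ 4 := by
    push_cast
    field_simp
  set x : ℝ := (c : ℝ) with hx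
  have ed : ((c ^ 2 : ℕ) : ℝ) = x ^ 2 := by push_cast; rfl
  have hdiff : α * (1 - 1 / ((c ^ 2 : ℕ) : ℝ)) - α * (1 - 1 / x) = α * ((x - 1) / x ^ 2) := by
    rw [ed]
    field_simp
    ring
  have hx6 : x ^ 6 * (α * ((x - 1) / x ^ 2)) = α * ((x - 1) * x ^ 4) := by
    field_simp
  have hge : x ≤ (x - 1) * x ^ 4 := by
    have h1 : x ≤ x ^ 4 := le_self_pow₀ (by linarith) (by norm_num)
    nlinarith
  have hα' : 0 ≤ α * (1 - 1 / x) := by
    refine mul_nonneg hα.le ?_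
    rw [sub_nonneg, div_le_one (by linarith)]
    linarith
  have key := H2 m a (c ^ 2) ((c ^ 2) ^ 4) ((c ^ 2) ^ 5) c (c ^ 4) (c ^ 5) X (h / X)
    (α * (1 - 1 / ((c ^ 2 : ℕ) : ℝ))) (α * (1 - 1 / x)) hd1 (Nat.one_le_pow _ _ hd1)
    (Nat.pow_le_pow_right hd1 (by norm_num))
    (by
      rw [e1]
      refine hc.2.2.2.1.trans (Real.exp_le_exp.2 ?_)
      exact le_self_pow₀ (by linarith) (by norm_num))
    (by
      rw [e2]
      refine le_trans (le_of_eq ?_) hX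
      rw [ed]
      congr 1
      ring)
    (by
      refine div_le_div_of_nonneg_right ?_ hX0.le
      exact_mod_cast hh)
    w1 hc1 (Nat.one_le_pow _ _ hc1) (Nat.pow_le_pow_right hc1 (by norm_num))
    (by
      intro v hv
      refine H3 c v hc1 ?_
      have h1 : ((c ^ 4 : ℕ) : ℝ) ≤ v := by exact_mod_cast (Finset.mem_Ico.1 hv).1
      refine le_trans ?_ h1
      push_cast
      rw [← hx]
      calc C3 * x ≤ x * x := mul_le_mul_of_nonneg_right hc.2.2.1 (by linarith)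
        _ = x ^ 2 := by ring
        _ ≤ x ^ 4 := pow_le_pow_right₀ (by linarith) (by norm_num))
    hα'
    (by
      have : 0 ≤ α * ((x - 1) / x ^ 2) := by
        refine mul_nonneg hα.le (div_nonneg (by linarith) (by positivity))
      linarith)
    (by
      rw [e2, e3, e4, hdiff]
      have l1 : Real.log (Real.exp 2 * (x ^ 8 * (1 / x ^ 3) + 2)) ≤ 2 + 6 * x := by
        have h1 : x ^ 8 * (1 / x ^ 3) = x ^ 5 := by field_simp
        rw [h1, Real.log_mul (Real.exp_pos _).ne' (by positivity), Real.log_exp]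
        have h2 : x ^ 5 + 2 ≤ x ^ 6 := by
          have : 1 ≤ x ^ 5 := one_le_pow₀ (by linarith)
          nlinarith
        have h3 : Real.log (x ^ 5 + 2) ≤ Real.log (x ^ 6) := Real.log_le_log (by positivity) h2
        rw [Real.log_pow] at h3
        have h4 := Real.log_le_sub_one_of_pos (show 0 < x by linarith)
        push_cast at h3
        linarith
      have l2 : 1 / x ^ 3 + 1 / x ^ 6 ≤ 2 / x ^ 3 := by
        have h1 : 1 / x ^ 6 ≤ 1 / x ^ 3 := one_div_le_one_div_of_le (by positivity)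
          (pow_le_pow_right₀ (by linarith) (by norm_num))
        have h2 : 2 / x ^ 3 = 1 / x ^ 3 + 1 / x ^ 3 := by ring
        linarith
      refine (mul_le_mul l2 l1 (Real.log_nonneg ?_) (by positivity)).trans ?_
      · have h1 : (1 : ℝ) ≤ Real.exp 2 := Real.one_le_exp (by norm_num)
        have h2 : (1 : ℝ) ≤ x ^ 8 * (1 / x ^ 3) + 2 := by
          have : 0 ≤ x ^ 8 * (1 / x ^ 3) := by positivity
          linarith
        nlinarith
      · have h28 : 28 ≤ α * (x - 1) := by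
          have h1 := hc.2.2.2.2.1
          have h2 : 28 / α ≤ x - 1 := by linarith
          rwa [div_le_iff₀ hα, mul_comm] at h2
        have h1 : 2 / x ^ 3 * (2 + 6 * x) ≤ 14 / x ^ 2 := by
          rw [div_mul_eq_mul_div, div_le_div_iff₀ (by positivity) (by positivity)]
          have : x ^ 3 = x * x ^ 2 := by ring
          rw [this]
          have h0 : 0 < x ^ 2 := by positivity
          nlinarith
        have h2 : 14 / x ^ 2 ≤ α * ((x - 1) / x ^ 2) / 2 := by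
          have : α * ((x - 1) / x ^ 2) / 2 = (α * (x - 1) / 2) / x ^ 2 := by ring
          rw [this]
          exact div_le_div_of_nonneg_right (by linarith) (by positivity)
        exact h1.trans h2)
    (by
      rw [e5, e1, hdiff]
      have h1 : α * ((x - 1) / x ^ 2) / 2 * x ^ 6 = α * ((x - 1) * x ^ 4) / 2 := by
        rw [← hx6]
        ring
      rw [h1]
      have h2 : 2 * (α * (1 - 1 / x)) * (x ^ 4 + 1) ≤ 2 * α * (x ^ 4 + 1) := by
        have : α * (1 - 1 / x) ≤ α := by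
          have : 0 ≤ 1 / x := by positivity
          nlinarith
        have h0 : 0 ≤ x ^ 4 + 1 := by positivity
        nlinarith
      refine h2.trans ?_
      have h3 : 4 * (x ^ 4 + 1) ≤ (x - 1) * x ^ 4 := by
        have : 6 ^ 4 ≤ x ^ 4 := pow_le_pow_left₀ (by norm_num) h6 4
        nlinarith
      nlinarith)
  rw [e1, hdiff] at key
  unfold lv
  refine key.trans ?_
  have hl2 : Real.log ((c ^ 2 : ℕ) : ℝ) = 2 * Real.log x := by
    rw [ed, Real.log_pow]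
    norm_num
  have hld : 0 < Real.log ((c ^ 2 : ℕ) : ℝ) := by rw [hl2]; positivity
  have hcl : 1 / x ≤ 2 / Real.log ((c ^ 2 : ℕ) : ℝ) := by
    refine (good_log_le hc).trans (le_of_eq ?_)
    rw [hl2, ← hx]
    field_simp
  have hdl : 1 / x ^ 2 ≤ 1 / Real.log ((c ^ 2 : ℕ) : ℝ) := by
    have := good_log_le hd
    rwa [ed] at this ⊢
  have t2 : Real.exp (-(x ^ 6)) ≤ 1 / Real.log ((c ^ 2 : ℕ) : ℝ) := by
    refine (exp_neg_le (one_le_pow₀ (by linarith))).trans (le_trans ?_ hdl)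
    exact one_div_le_one_div_of_le (by positivity) (pow_le_pow_right₀ (by linarith) (by norm_num))
  have t3 : 1 / ((c ^ 2 : ℕ) : ℝ) ^ 2 ≤ 1 / Real.log ((c ^ 2 : ℕ) : ℝ) := by
    refine le_trans ?_ hdl
    rw [ed]
    exact one_div_le_one_div_of_le (by positivity) (by
      have : 1 ≤ x ^ 2 := one_le_pow₀ (by linarith)
      nlinarith)
  have t4 : ((((c ^ 2) ^ 5 : ℕ) : ℝ) * m) ^ 2 * (((c ^ 5 : ℕ) : ℝ) * m) *
      Real.exp (-(α * ((x - 1) / x ^ 2) * x ^ 6)) ≤ 2 / Real.log ((c ^ 2 : ℕ) : ℝ) := by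
    refine le_trans ?_ hcl
    rw [le_div_iff₀ (by linarith)]
    refine le_trans (le_of_eq ?_) (good_exp hc (y := α * ((x - 1) / x ^ 2) * x ^ 6) ?_)
    · push_cast
      rw [← hx]
      ring
    · have h1 : α * ((x - 1) / x ^ 2) * x ^ 6 = α * ((x - 1) * x ^ 4) := by
        rw [← hx6]
        ring
      rw [h1]
      exact mul_le_mul_of_nonneg_left hge hα.le
  have e6 : 6 * C2 / Real.log ((c ^ 2 : ℕ) : ℝ) = C2 * (2 / Real.log ((c ^ 2 : ℕ) : ℝ) +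
      1 / Real.log ((c ^ 2 : ℕ) : ℝ) + 1 / Real.log ((c ^ 2 : ℕ) : ℝ)) +
      C2 * (2 / Real.log ((c ^ 2 : ℕ) : ℝ)) := by
    field_simp
    ring
  rw [e6]
  exact add_le_add (mul_le_mul_of_nonneg_left (add_le_add (add_le_add w2 t2) t3) hC2.le)
    (mul_le_mul_of_nonneg_left t4 hC2.le)

/-- the sum over the levels `c_j = B^(2^j)`, abstractly -/
private theorem levels_sum {f : ℝ → ℝ} (hf0 : ∀ t, 0 ≤ f t) (hf : Integrable f) {S : ℕ → Set ℝ}
    (hS : ∀ j, MeasurableSet (S j)) {K L : ℝ} (n : ℕ)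
    (h0 : ∫ t in S 0, f t ≤ K / L)
    (h1 : ∀ j < n, ∫ t in S (j + 1) ∩ (S j)ᶜ, f t ≤ K / (2 ^ (j + 1) * L)) :
    ∫ t in S n, f t ≤ K / L * (2 - 1 / 2 ^ n) := by
  induction n with
  | zero =>
    refine h0.trans (le_of_eq ?_)
    norm_num
  | succ n ih =>
    have ih' := ih fun j hj => h1 j (hj.trans (Nat.lt_succ_self n))
    have h2 := h1 n (Nat.lt_succ_self n)
    have h3 : (∫ t in S (n + 1) ∩ S n, f t) + ∫ t in S (n + 1) \ S n, f t =
        ∫ t in S (n + 1), f t := integral_inter_add_sdiff (hS n) hf.integrableOn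
    have h4 : ∫ t in S (n + 1) ∩ S n, f t ≤ ∫ t in S n, f t :=
      setIntegral_mono_set hf.integrableOn (Filter.Eventually.of_forall fun t => hf0 t)
        (Filter.Eventually.of_forall fun t ht => ht.2)
    rw [← h3, Set.sdiff_eq]
    refine (add_le_add (h4.trans ih') h2).trans (le_of_eq ?_)
    have h5 : K / (2 ^ (n + 1) * L) = K / L * (1 / 2 ^ (n + 1)) := by
      rw [mul_comm, ← div_div]
      ring
    rw [h5, ← mul_add]
    congr 1
    rw [pow_succ]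
    field_simp
    ring

/-- the growth conditions on `X` -/
private theorem levels_large (B : ℕ) (C₀ : ℝ) : ∃ X₀ : ℝ, ∀ X : ℝ, X₀ ≤ X →
    1 ≤ Real.log X ∧ 0 < X ∧ (B : ℝ) ^ 4 ≤ Real.sqrt (Real.log X) ∧
      (C₀ * Real.log (Real.log X)) ^ 3 ≤ Real.sqrt (Real.log X) := by
  have h1 : ∀ᶠ x : ℝ in Filter.atTop, (C₀ * Real.log x) ^ 3 ≤ Real.sqrt x := by
    have h := ((isLittleO_log_rpow_rpow_atTop 3 (show (0 : ℝ) < 1 / 2 by norm_num)).bound
      (c := 1 / (|C₀| ^ 3 + 1)) (by positivity))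
    filter_upwards [h, Filter.eventually_ge_atTop 1] with x hx hx1
    have hl : 0 ≤ Real.log x := Real.log_nonneg hx1
    have e1 : Real.log x ^ (3 : ℝ) = Real.log x ^ 3 := by
      rw [← Real.rpow_natCast]
      norm_num
    have e2 : x ^ ((1 : ℝ) / 2) = Real.sqrt x := (Real.sqrt_eq_rpow x).symm
    rw [e1, e2, Real.norm_eq_abs, Real.norm_eq_abs, abs_of_nonneg (pow_nonneg hl 3),
      abs_of_nonneg (Real.sqrt_nonneg x), one_div, inv_mul_eq_div,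
      le_div_iff₀ (by positivity)] at hx
    have h2 : (C₀ * Real.log x) ^ 3 ≤ |C₀| ^ 3 * Real.log x ^ 3 := by
      rw [mul_pow]
      refine mul_le_mul_of_nonneg_right ?_ (pow_nonneg hl 3)
      rw [← abs_pow]
      exact le_abs_self _
    have h3 : 0 ≤ Real.log x ^ 3 := pow_nonneg hl 3
    nlinarith
  have h2 : ∀ᶠ x : ℝ in Filter.atTop, (B : ℝ) ^ 4 ≤ Real.sqrt x :=
    Real.tendsto_sqrt_atTop.eventually_ge_atTop _
  have h3 : ∀ᶠ X : ℝ in Filter.atTop, 1 ≤ Real.log X ∧ 0 < X ∧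
      (B : ℝ) ^ 4 ≤ Real.sqrt (Real.log X) ∧
      (C₀ * Real.log (Real.log X)) ^ 3 ≤ Real.sqrt (Real.log X) := by
    filter_upwards [Real.tendsto_log_atTop.eventually h1, Real.tendsto_log_atTop.eventually h2,
      Real.tendsto_log_atTop.eventually_ge_atTop 1, Filter.eventually_gt_atTop 0] with X a1 a2 a3 a4
    exact ⟨a3, a4, a2, a1⟩
  exact Filter.eventually_atTop.1 h3

/-- Proof. The level `c` has `H = c`, `v0 = c^4`, `v1 = c^5` (so `p = c^3`, `q = c^4`) and exponent `α(1 - 1/c)`; the levels are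
`B, B^2, B^4, B^8, ...` (`c ↦ c^2`), `B` large in terms of `m, ε, α`. By `ww_lower` `W ≥ log c - C ≥ 1`; `pw_recip_le` for all windows
(`c^4 ≥ C₀ c`); `m ≤ e^{c^3}`. `lev_one` for `c = B`, with `h ≥ h₀ = ⌈e^{B^4}⌉` (`η X = h`). `lev_two` from `c` to `c^2`: `p' = c^3`,
`q' = c^4`, `p = c^6`, `q = c^8`, `Δ = α(1/c - 1/c^2) ≥ α/(2c)`: (A) `(c^{-3} + c^{-6}) log(e^2(c^5 + 2)) ≤ α/(4c)`, (B)
`2α(c^4+1) ≤ (α/(4c)) c^6`. The contributions: `C(1/(log c - C) + e^{-c^3} + c^{-2})` summed over `c = B^{2^j}` is at most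
`C'/log B`, and `C m^3 c^{25} e^{-α c^5/2}` likewise small. Let `b` be the first level with `C₀ log log X ≤ b^3`; if `b ≠ B` then
`b^{3/2} < C₀ log log X`, so in all cases `b^4 ≤ √(log X)` (and `e^{b^4} ≤ X`) for large `X`. Finally
`sm(b) ⊆ sm(B) ∪ ⋃_{c, c^2 ≤ b} (sm(c^2) ∩ sm(c)ᶜ)` (take the smallest level `c` with `t ∈ sm(c)`). -/
theorem levels (α : ℝ) (hα : 0 < α) (hα1 : α ≤ 1) (m : ℕ) [NeZero m] (ε : ℝ) (hε : 0 < ε) :
    ∃ h₀ : ℕ, 1 ≤ h₀ ∧ ∀ h : ℕ, h₀ ≤ h → ∀ C₀ : ℝ, ∃ X₀ : ℝ, ∀ X : ℝ, X₀ ≤ X →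
      ∃ b : ℕ, 2 ≤ b ∧ C₀ * Real.log (Real.log X) ≤ (b : ℝ) ^ 3 ∧ (b : ℝ) ^ 4 ≤ Real.sqrt (Real.log X) ∧
        ∀ a : ZMod m, ∫ t in sm m (α * (1 - 1 / (b : ℝ))) b (b ^ 4) (b ^ 5),
          ‖DD m a X t‖ ^ 2 * gw (h / X) t ≤ ε := by
  obtain ⟨C1, hC1, H1⟩ := lev_one
  obtain ⟨C2, hC2, H2⟩ := lev_two
  obtain ⟨C3, -, H3⟩ := pw_recip_le
  obtain ⟨C4, hC4, H4⟩ := ww_lower
  have hm : 1 ≤ m := Nat.one_le_iff_ne_zero.2 (NeZero.ne m)
  obtain ⟨B, hBM, hB⟩ := exists_good m α C3 C4 hα hm (12 * (C1 + C2) / ε)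
  have hB6 : 6 ≤ B := (hB B le_rfl).1
  have hB6' : (6 : ℝ) ≤ B := by exact_mod_cast hB6
  have hL : 0 < Real.log B := Real.log_pos (by linarith)
  set c : ℕ → ℕ := fun j => B ^ 2 ^ j with hcdef
  have hc0 : c 0 = B := by simp [hcdef]
  have hcs : ∀ j, c (j + 1) = c j ^ 2 := by
    intro j
    simp only [hcdef]
    rw [← pow_mul, pow_succ]
  have hcB : ∀ j, B ≤ c j := fun j => Nat.le_self_pow (pow_ne_zero _ (by norm_num)) B
  have hclog : ∀ j, Real.log (c j : ℝ) = 2 ^ j * Real.log B := by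
    intro j
    simp only [hcdef]
    rw [Nat.cast_pow, Real.log_pow]
    push_cast
    ring
  have hgood : ∀ j, Good m α C3 C4 (c j) := fun j => hB _ (hcB j)
  have hcmono : Monotone c := by
    refine monotone_nat_of_le_succ fun j => ?_
    rw [hcs]
    exact Nat.le_self_pow (by norm_num) _
  refine ⟨⌈Real.exp ((B : ℝ) ^ 4)⌉₊, Nat.one_le_iff_ne_zero.2 (Nat.ceil_pos.2 (Real.exp_pos _)).ne',
    fun h hh C₀ => ?_⟩
  have hh1 : 1 ≤ h := le_trans (Nat.one_le_iff_ne_zero.2 (Nat.ceil_pos.2 (Real.exp_pos _)).ne') hh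
  have hhB : Real.exp ((B : ℝ) ^ 4) ≤ h := Nat.ceil_le.1 hh
  obtain ⟨X₀, hX₀⟩ := levels_large B C₀
  refine ⟨X₀, fun X hX => ?_⟩
  obtain ⟨x1, x2, x3, x4⟩ := hX₀ X hX
  -- the first level with `C₀ log log X ≤ c^3`
  have hex : ∃ j, C₀ * Real.log (Real.log X) ≤ (c j : ℝ) ^ 3 := by
    obtain ⟨n, hn⟩ := exists_nat_ge (C₀ * Real.log (Real.log X))
    refine ⟨n, hn.trans ?_⟩
    have h1 : n ≤ c n := by
      have h2 : n < 2 ^ n := Nat.lt_two_pow_self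
      have h3 : 2 ^ n < B ^ 2 ^ n := Nat.lt_pow_self (by omega)
      exact (h2.trans h3).le
    have h2 : (n : ℝ) ≤ c n := by exact_mod_cast h1
    refine h2.trans (le_self_pow₀ ?_ (by norm_num))
    have : (B : ℝ) ≤ c n := by exact_mod_cast hcB n
    linarith
  classical
  obtain ⟨J, hJ1, hJ2⟩ : ∃ J, C₀ * Real.log (Real.log X) ≤ (c J : ℝ) ^ 3 ∧
      ∀ j < J, ¬ C₀ * Real.log (Real.log X) ≤ (c j : ℝ) ^ 3 :=
    ⟨Nat.find hex, Nat.find_spec hex, fun j hj => Nat.find_min hex hj⟩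
  have hcJ4 : (c J : ℝ) ^ 4 ≤ Real.sqrt (Real.log X) := by
    rcases J with _ | k
    · rw [hc0]
      exact x3
    · have h1 := not_le.1 (hJ2 k (Nat.lt_succ_self k))
      have h2 : (1 : ℝ) ≤ c k := by
        have : (B : ℝ) ≤ c k := by exact_mod_cast hcB k
        linarith
      rw [hcs]
      push_cast
      calc ((c k : ℝ) ^ 2) ^ 4 = (c k : ℝ) ^ 8 := by ring
        _ ≤ (c k : ℝ) ^ 9 := pow_le_pow_right₀ h2 (by norm_num)
        _ = ((c k : ℝ) ^ 3) ^ 3 := by ring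
        _ ≤ (C₀ * Real.log (Real.log X)) ^ 3 := pow_le_pow_left₀ (by positivity) h1.le 3
        _ ≤ _ := x4
  have hexpJ : Real.exp ((c J : ℝ) ^ 4) ≤ X := by
    have h1 : Real.sqrt (Real.log X) ≤ Real.log X := by
      rw [Real.sqrt_le_left (by linarith)]
      nlinarith
    calc Real.exp ((c J : ℝ) ^ 4) ≤ Real.exp (Real.log X) := Real.exp_le_exp.2 (hcJ4.trans h1)
      _ = X := Real.exp_log x2
  have hexp : ∀ j ≤ J, Real.exp ((c j : ℝ) ^ 4) ≤ X := by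
    intro j hj
    refine le_trans (Real.exp_le_exp.2 ?_) hexpJ
    exact pow_le_pow_left₀ (Nat.cast_nonneg _) (by exact_mod_cast hcmono hj) 4
  refine ⟨c J, le_trans (by omega) (hcB J), hJ1, hcJ4, fun a => ?_⟩
  have hη : 0 < (h : ℝ) / X := div_pos (by exact_mod_cast hh1) x2
  have key := levels_sum (f := fun t => ‖DD m a X t‖ ^ 2 * gw (h / X) t)
    (fun t => mul_nonneg (sq_nonneg _) (Real.exp_pos _).le) (lv_integrable m a X _ hη)
    (S := fun j => lv m α (c j)) (fun j => lv_measurable_sm _ _ _ _ _)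
    (K := 6 * (C1 + C2)) (L := Real.log B) J
    (by
      simp only [hc0]
      refine (level_first hC1 H1 H4 hα (hB B le_rfl) a ?_ hhB).trans ?_
      · have := hexp 0 (Nat.zero_le _)
        rwa [hc0] at this
      · exact div_le_div_of_nonneg_right (by linarith) hL.le)
    (by
      intro j hj
      have h1 := level_next hC2 H2 H3 H4 hα (hgood j) (by rw [← hcs]; exact hgood (j + 1)) a
        (X := X) (h := h) (by rw [← hcs]; exact hexp (j + 1) hj) hh1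
      rw [← hcs, hclog] at h1
      refine h1.trans ?_
      exact div_le_div_of_nonneg_right (by linarith) (by positivity))
  refine key.trans ?_
  have h2 : 6 * (C1 + C2) / Real.log B ≤ ε / 2 := by
    rw [div_le_iff₀ hε] at hBM
    rw [div_le_div_iff₀ hL (by norm_num)]
    nlinarith
  have h3 : (2 : ℝ) - 1 / 2 ^ J ≤ 2 := by
    have : (0 : ℝ) < 1 / 2 ^ J := by positivity
    linarith
  have h4 : 0 ≤ 6 * (C1 + C2) / Real.log B := by positivity
  calc 6 * (C1 + C2) / Real.log B * (2 - 1 / 2 ^ J) ≤ 6 * (C1 + C2) / Real.log B * 2 :=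
        mul_le_mul_of_nonneg_left h3 h4
    _ ≤ ε := by linarith

end Pool.Agent.Lib.MP_3e612f_nt.MR
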