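import Pool.Agent.Lib.MP_3e612f_nt.MR.Defs
import Pool.Agent.Lib.MP_3e612f_nt.MuPNT

/-! Small heights: the prime number theorem for the Moebius function in residue classes. -/

set_option autoImplicit false

namespace Pool.Agent.Lib.MP_3e612f_nt.MR

open Finset

private lemma sml_psi_nonneg (v : ℝ) : 0 ≤ psi v := le_max_left _ _

private lemma sml_psi_le_one (v : ℝ) : psi v ≤ 1 := max_le zero_le_one (min_le_left _ _)

private lemma sml_psi_lip (u v : ℝ) : |psi u - psi v| ≤ |u - v| := by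
  unfold psi
  have h1 : |max 0 (min 1 (3 - |u|)) - max 0 (min 1 (3 - |v|))| ≤
      |min 1 (3 - |u|) - min 1 (3 - |v|)| := by
    rw [max_comm 0 (min 1 (3 - |u|)), max_comm 0 (min 1 (3 - |v|))]
    exact abs_max_sub_max_le_abs _ _ _
  have h2 : |min 1 (3 - |u|) - min 1 (3 - |v|)| ≤ |(3 - |u|) - (3 - |v|)| := by
    refine (abs_min_sub_min_le_max _ _ _ _).trans (by simp)
  have h3 : |(3 - |u|) - (3 - |v|)| ≤ |u - v| := by
    have : (3 - |u|) - (3 - |v|) = -(|u| - |v|) := by ring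
    rw [this, abs_neg]
    exact abs_abs_sub_abs_le _ _
  exact h1.trans (h2.trans h3)

private lemma sml_norm_ph (n : ℕ) (t : ℝ) : ‖ph n t‖ = 1 := by
  unfold ph
  rw [← neg_mul, ← Complex.ofReal_neg]
  exact Complex.norm_exp_ofReal_mul_I _

private lemma sml_ph_lip (n k : ℕ) (t : ℝ) :
    ‖ph n t - ph k t‖ ≤ |t| * |Real.log n - Real.log k| := by
  have h : ph n t - ph k t = ph k t * (Complex.exp (Complex.I * ((-(t * Real.log n) + t * Real.log k : ℝ) : ℂ)) - 1) := by
    unfold ph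
    rw [mul_sub, ← Complex.exp_add, mul_one]
    congr 2
    push_cast
    ring
  rw [h, norm_mul, sml_norm_ph, one_mul]
  refine (Real.norm_exp_I_mul_ofReal_sub_one_le).trans ?_
  rw [Real.norm_eq_abs, ← abs_mul, ← abs_neg]
  apply le_of_eq
  congr 1
  ring

private lemma sml_mu (n : ℕ) : |mu n| ≤ 1 := by
  unfold mu
  exact_mod_cast ArithmeticFunction.abs_moebius_le_one

private lemma sml_abel (c : ℕ → ℂ) (f : ℕ → ℂ) (N : ℕ) :
    ∑ n ∈ Icc 1 N, c n * f n = (∑ n ∈ Icc 1 N, c n) * f N -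
      ∑ k ∈ range N, (∑ n ∈ Icc 1 k, c n) * (f (k + 1) - f k) := by
  induction N with
  | zero => simp
  | succ N ih =>
    rw [Finset.sum_Icc_succ_top (by omega), ih, Finset.sum_range_succ,
      Finset.sum_Icc_succ_top (by omega)]
    ring

/-- trivial bound -/
theorem DD_le (m : ℕ) (a : ZMod m) (X t : ℝ) (hX : 0 < X) : ‖DD m a X t‖ ≤ 21 := by
  have h1 : ∀ n ∈ Icc 1 ⌊21 * X⌋₊, ‖((co m a X n : ℝ) : ℂ) * ph n t‖ ≤ 1 := by
    intro n _
    rw [norm_mul, sml_norm_ph, mul_one, Complex.norm_real, Real.norm_eq_abs]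
    unfold co
    split_ifs with h
    · rw [abs_mul]
      have := sml_psi_nonneg (Real.log n - Real.log X)
      rw [abs_of_nonneg this]
      calc _ ≤ 1 * 1 := mul_le_mul (sml_mu n) (sml_psi_le_one _) this zero_le_one
        _ = 1 := one_mul _
    · simp
  unfold DD
  rw [norm_mul, Complex.norm_real, Real.norm_eq_abs, abs_of_pos (by positivity)]
  have h2 : ‖∑ n ∈ Icc 1 ⌊21 * X⌋₊, ((co m a X n : ℝ) : ℂ) * ph n t‖ ≤ 21 * X := by
    refine (norm_sum_le_of_le _ h1).trans ?_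
    simp only [sum_const, Nat.card_Icc, nsmul_eq_mul, mul_one, Nat.add_sub_cancel]
    exact Nat.floor_le (by positivity)
  calc 1 / X * ‖∑ n ∈ Icc 1 ⌊21 * X⌋₊, ((co m a X n : ℝ) : ℂ) * ph n t‖ ≤ 1 / X * (21 * X) := by
        gcongr
    _ = 21 := by field_simp

private lemma sml_step (X t : ℝ) (k : ℕ) (hk : 1 ≤ k) :
    ‖((psi (Real.log ((k + 1 : ℕ) : ℝ) - Real.log X) : ℝ) : ℂ) * ph (k + 1) t -
      ((psi (Real.log k - Real.log X) : ℝ) : ℂ) * ph k t‖ ≤ (1 + |t|) / k := by
  have hk' : (0 : ℝ) < k := by exact_mod_cast hk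
  have hlog : |Real.log ((k + 1 : ℕ) : ℝ) - Real.log k| ≤ 1 / k := by
    rw [abs_of_nonneg (sub_nonneg.2 (Real.log_le_log hk' (by push_cast; linarith)))]
    rw [← Real.log_div (by positivity) (by positivity)]
    refine (Real.log_le_sub_one_of_pos (by positivity)).trans ?_
    push_cast
    apply le_of_eq
    field_simp
    ring
  have e : ((psi (Real.log ((k + 1 : ℕ) : ℝ) - Real.log X) : ℝ) : ℂ) * ph (k + 1) t -
      ((psi (Real.log k - Real.log X) : ℝ) : ℂ) * ph k t =
      ((psi (Real.log ((k + 1 : ℕ) : ℝ) - Real.log X) - psi (Real.log k - Real.log X) : ℝ) : ℂ) * ph (k + 1) t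
      + ((psi (Real.log k - Real.log X) : ℝ) : ℂ) * (ph (k + 1) t - ph k t) := by
    push_cast
    ring
  rw [e]
  refine (norm_add_le _ _).trans ?_
  rw [norm_mul, norm_mul, sml_norm_ph, mul_one, Complex.norm_real, Complex.norm_real,
    Real.norm_eq_abs, Real.norm_eq_abs, abs_of_nonneg (sml_psi_nonneg (Real.log k - Real.log X))]
  have h1 : |psi (Real.log ((k + 1 : ℕ) : ℝ) - Real.log X) - psi (Real.log k - Real.log X)| ≤ 1 / k := by
    refine (sml_psi_lip _ _).trans ?_
    have : Real.log ((k + 1 : ℕ) : ℝ) - Real.log X - (Real.log k - Real.log X) =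
      Real.log ((k + 1 : ℕ) : ℝ) - Real.log k := by ring
    rw [this]
    exact hlog
  have h2 : psi (Real.log k - Real.log X) * ‖ph (k + 1) t - ph k t‖ ≤ 1 * (|t| * (1 / k)) := by
    apply mul_le_mul (sml_psi_le_one _) _ (norm_nonneg _) zero_le_one
    exact (sml_ph_lip _ _ _).trans (by gcongr)
  calc _ ≤ 1 / (k : ℝ) + 1 * (|t| * (1 / k)) := add_le_add h1 h2
    _ = _ := by ring

/-- Partial summation from `SA.mu_ap`: the function `ψ(log(x/X)) x^{-it}` is `O((1+|t|)/X)`-Lipschitz on `[e^{-3}X, e^3 X]`. -/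
theorem small (m : ℕ) [NeZero m] (T₀ ε : ℝ) (hε : 0 < ε) : ∃ X₀ : ℝ, ∀ X : ℝ, X₀ ≤ X → ∀ (a : ZMod m) (t : ℝ),
    |t| ≤ T₀ → ‖DD m a X t‖ ≤ ε := by
  set T : ℝ := |T₀| with hT
  have hT0 : 0 ≤ T := abs_nonneg _
  set δ : ℝ := ε / (84 * (1 + T)) with hδ
  have hδ0 : 0 < δ := by positivity
  -- the partial sums
  have hM : ∀ a : ZMod m, ∀ᶠ N : ℕ in Filter.atTop,
      |∑ n ∈ Icc 1 N, (if ((n : ℕ) : ZMod m) = a then mu n else 0)| ≤ δ * N := by
    intro a
    have h1 := SA.mu_ap m a.val (Nat.one_le_iff_ne_zero.2 (NeZero.ne m))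
    have h2 : ∀ᶠ N : ℕ in Filter.atTop,
        |(∑ n ∈ Finset.Icc 1 N, (if n % m = a.val then Pool.Agent.Lib.MP_3e612f_nt.mu n else 0)) / (N : ℝ)| < δ := by
      have := (Metric.tendsto_nhds.1 h1) δ hδ0
      refine this.mono fun N h => ?_
      rwa [Real.dist_eq, sub_zero] at h
    filter_upwards [h2, Filter.eventually_ge_atTop 1] with N h3 hN
    have hN' : (0 : ℝ) < N := by exact_mod_cast hN
    rw [abs_div, abs_of_pos hN', div_lt_iff₀ hN'] at h3
    refine le_trans (le_of_eq ?_) h3.le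
    congr 1
    refine Finset.sum_congr rfl fun n _ => ?_
    have e : (((n : ℕ) : ZMod m) = a) ↔ (n % m = a.val) := by
      rw [← ZMod.val_natCast]
      exact (ZMod.val_injective m).eq_iff.symm
    simp only [e]
    rfl
  have hM' := (Filter.eventually_all.2 hM)
  obtain ⟨N₀, hN₀⟩ := Filter.eventually_atTop.1 hM'
  have htriv : ∀ (a : ZMod m) (N : ℕ),
      |∑ n ∈ Icc 1 N, (if ((n : ℕ) : ZMod m) = a then mu n else 0)| ≤ N := by
    intro a N
    refine (Finset.abs_sum_le_sum_abs _ _).trans ?_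
    refine (Finset.sum_le_sum (g := fun _ => (1 : ℝ)) fun n _ => ?_).trans (by simp)
    split_ifs
    · exact sml_mu n
    · simp
  refine ⟨max 1 (max N₀ (2 * N₀ * (1 + T) / ε)), ?_⟩
  intro X hX a t ht
  have hX1 : 1 ≤ X := (le_max_left _ _).trans hX
  have hXN : (N₀ : ℝ) ≤ X := ((le_max_left _ _).trans (le_max_right _ _)).trans hX
  have hX2 : 2 * N₀ * (1 + T) / ε ≤ X := ((le_max_right _ _).trans (le_max_right _ _)).trans hX
  have hXpos : 0 < X := by linarith
  have htT : |t| ≤ T := ht.trans (le_abs_self _)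
  set N := ⌊21 * X⌋₊ with hN
  have hNX : (N : ℝ) ≤ 21 * X := Nat.floor_le (by positivity)
  have hNN : N₀ ≤ N := by
    rw [hN]
    apply Nat.le_floor
    linarith
  set c : ℕ → ℂ := fun n => (((if ((n : ℕ) : ZMod m) = a then mu n else 0 : ℝ)) : ℂ) with hc
  set f : ℕ → ℂ := fun n => ((psi (Real.log n - Real.log X) : ℝ) : ℂ) * ph n t with hf
  have hsum : ∑ n ∈ Icc 1 N, ((co m a X n : ℝ) : ℂ) * ph n t = ∑ n ∈ Icc 1 N, c n * f n := by
    refine Finset.sum_congr rfl fun n _ => ?_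
    simp only [hc, hf, co]
    split_ifs
    · push_cast
      ring
    · simp
  have hcn : ∀ k : ℕ, ‖∑ n ∈ Icc 1 k, c n‖ = |∑ n ∈ Icc 1 k, (if ((n : ℕ) : ZMod m) = a then mu n else 0)| := by
    intro k
    rw [← Real.norm_eq_abs, ← Complex.norm_real]
    congr 1
    push_cast
    rfl
  have hfN : ‖f N‖ ≤ 1 := by
    simp only [hf]
    rw [norm_mul, sml_norm_ph, mul_one, Complex.norm_real, Real.norm_eq_abs,
      abs_of_nonneg (sml_psi_nonneg _)]
    exact sml_psi_le_one _
  have hstep : ∀ k ∈ range N, ‖(∑ n ∈ Icc 1 k, c n) * (f (k + 1) - f k)‖ ≤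
      (1 + T) * (δ + if k < N₀ then 1 else 0) := by
    intro k _
    rw [norm_mul, hcn]
    rcases Nat.eq_zero_or_pos k with rfl | hk
    · simp only [Finset.Icc_eq_empty_of_lt zero_lt_one, Finset.sum_empty, abs_zero, zero_mul]
      split_ifs <;> positivity
    · have hk' : (0 : ℝ) < k := by exact_mod_cast hk
      have h1 : ‖f (k + 1) - f k‖ ≤ (1 + |t|) / k := sml_step X t k hk
      have h2 : |∑ n ∈ Icc 1 k, (if ((n : ℕ) : ZMod m) = a then mu n else 0)| ≤
          (δ + if k < N₀ then 1 else 0) * k := by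
        split_ifs with hlt
        · refine (htriv a k).trans ?_
          nlinarith
        · have := hN₀ k (not_lt.1 hlt) a
          simpa using this
      calc _ ≤ ((δ + if k < N₀ then 1 else 0) * k) * ((1 + |t|) / k) :=
            mul_le_mul h2 h1 (norm_nonneg _) (le_trans (abs_nonneg _) h2)
        _ = (1 + |t|) * (δ + if k < N₀ then 1 else 0) := by
            field_simp
        _ ≤ _ := by
            apply mul_le_mul_of_nonneg_right (by linarith)
            split_ifs <;> positivity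
  have hcard : ∑ k ∈ range N, (if k < N₀ then (1 : ℝ) else 0) ≤ N₀ := by
    rw [← Finset.sum_filter, Finset.sum_const, nsmul_eq_mul, mul_one]
    have : #((range N).filter (fun k => k < N₀)) ≤ N₀ := by
      refine (Finset.card_le_card (t := range N₀) ?_).trans (by simp)
      intro k hk
      simp only [Finset.mem_filter, Finset.mem_range] at hk ⊢
      exact hk.2
    exact_mod_cast this
  have hbig : ‖∑ n ∈ Icc 1 N, c n * f n‖ ≤ δ * N + (1 + T) * (δ * N + N₀) := by
    rw [sml_abel]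
    refine (norm_sub_le _ _).trans (add_le_add ?_ ?_)
    · rw [norm_mul, hcn]
      calc _ ≤ (δ * N) * 1 := mul_le_mul (hN₀ N hNN a) hfN (norm_nonneg _) (by positivity)
        _ = _ := mul_one _
    · refine (norm_sum_le_of_le _ hstep).trans ?_
      rw [← Finset.mul_sum, Finset.sum_add_distrib, Finset.sum_const, Finset.card_range, nsmul_eq_mul]
      apply mul_le_mul_of_nonneg_left _ (by positivity)
      have := hcard
      nlinarith
  unfold DD
  rw [← hN, hsum, norm_mul, Complex.norm_real, Real.norm_eq_abs, abs_of_pos (by positivity)]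
  have hfin : δ * N + (1 + T) * (δ * N + N₀) ≤ ε * X := by
    have h1 : δ * N ≤ δ * (21 * X) := by gcongr
    have h2 : δ * N + (1 + T) * (δ * N + N₀) ≤ (1 + T) * (2 * (δ * (21 * X)) + N₀) := by
      nlinarith [mul_nonneg hT0 (mul_nonneg hδ0.le (Nat.cast_nonneg N : (0 : ℝ) ≤ N)),
        mul_le_mul_of_nonneg_left h1 (by positivity : (0 : ℝ) ≤ 1 + T), mul_nonneg hT0 hδ0.le,
        mul_nonneg hδ0.le hXpos.le]
    have h3 : (1 + T) * (2 * (δ * (21 * X))) = ε / 2 * X := by
      rw [hδ]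
      field_simp
      ring
    have h4 : (1 + T) * N₀ ≤ ε / 2 * X := by
      rw [div_le_iff₀ hε] at hX2
      linarith
    calc _ ≤ _ := h2
      _ = (1 + T) * (2 * (δ * (21 * X))) + (1 + T) * N₀ := by ring
      _ ≤ _ := by rw [h3]; linarith
  calc 1 / X * ‖∑ n ∈ Icc 1 N, c n * f n‖ ≤ 1 / X * (ε * X) := by
        gcongr
        exact hbig.trans hfin
    _ = ε := by field_simp

end Pool.Agent.Lib.MP_3e612f_nt.MR
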