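import Pool.Agent.Lib.MP_3e612f_nt.MR.Win
import Pool.Agent.Lib.MP_3e612f_nt.MR.Levels
import Pool.Agent.Lib.MP_3e612f_nt.MR.Small
import Pool.Agent.Lib.MP_3e612f_nt.MR.Fin

/-! The theorem of Matomäki and Radziwiłł for the Moebius function in residue classes. -/

set_option autoImplicit false

namespace Pool.Agent.Lib.MP_3e612f_nt.MR

open Finset MeasureTheory

private theorem ph_cont (n : ℕ) : Continuous (fun t => ph n t) := by
  unfold ph
  fun_prop

private theorem DD_cont (m : ℕ) (a : ZMod m) (X : ℝ) : Continuous (fun t => DD m a X t) := by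
  unfold DD
  exact continuous_const.mul (continuous_finset_sum _ fun n _ => continuous_const.mul (ph_cont n))

private theorem gw_cont (η : ℝ) : Continuous (fun t => gw η t) := by
  unfold gw
  fun_prop

private theorem gw_nonneg (η t : ℝ) : 0 ≤ gw η t := (Real.exp_pos _).le

private theorem gw_le_one (η t : ℝ) : gw η t ≤ 1 := by
  unfold gw
  rw [Real.exp_le_one_iff]
  have : 0 ≤ (η * t) ^ 2 / 2 := by positivity
  linarith

private theorem gw_eq (η t : ℝ) : gw η t = Real.exp (-(η ^ 2 / 2) * t ^ 2) := by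
  unfold gw
  congr 1
  ring

private theorem gwi_main {η : ℝ} (hη : 0 < η) : Integrable (fun t => gw η t) := by
  have h1 : (fun t => gw η t) = fun t => Real.exp (-(η ^ 2 / 2) * t ^ 2) := by
    funext t
    exact gw_eq η t
  rw [h1]
  exact integrable_exp_neg_mul_sq (by positivity)

private theorem fint (m : ℕ) (a : ZMod m) {X η : ℝ} (hX : 0 < X) (hη : 0 < η) :
    Integrable (fun t => ‖DD m a X t‖ ^ 2 * gw η t) := by
  refine ((gwi_main hη).const_mul (21 ^ 2)).mono'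
    (((DD_cont m a X).norm.pow 2).mul (gw_cont η)).aestronglyMeasurable ?_
  filter_upwards with t
  rw [Real.norm_eq_abs, abs_of_nonneg (mul_nonneg (by positivity) (gw_nonneg η t))]
  apply mul_le_mul_of_nonneg_right _ (gw_nonneg η t)
  exact pow_le_pow_left₀ (norm_nonneg _) (DD_le m a X t hX) 2

/-- the integral over the line is at most the sum over four sets which cover it -/
private theorem int_cover {f : ℝ → ℝ} (hf : Integrable f) (h0 : ∀ t, 0 ≤ f t) (A B C D : Set ℝ)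
    (h : ∀ t, t ∈ A ∨ t ∈ B ∨ t ∈ C ∨ t ∈ D) :
    ∫ t, f t ≤ (∫ t in A, f t) + ((∫ t in B, f t) + ((∫ t in C, f t) + ∫ t in D, f t)) := by
  have h1 : (volume : Measure ℝ) ≤ volume.restrict A + (volume.restrict B +
      (volume.restrict C + volume.restrict D)) := by
    have h2 : (volume : Measure ℝ) = volume.restrict (A ∪ (B ∪ (C ∪ D))) := by
      have h3 : A ∪ (B ∪ (C ∪ D)) = Set.univ := by
        ext t
        simp only [Set.mem_union, Set.mem_univ, iff_true]
        exact h t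
      rw [h3, Measure.restrict_univ]
    conv_lhs => rw [h2]
    refine (Measure.restrict_union_le _ _).trans (add_le_add le_rfl ?_)
    refine (Measure.restrict_union_le _ _).trans (add_le_add le_rfl ?_)
    exact Measure.restrict_union_le _ _
  have hA : Integrable f (volume.restrict A) := hf.restrict
  have hB : Integrable f (volume.restrict B) := hf.restrict
  have hC : Integrable f (volume.restrict C) := hf.restrict
  have hD : Integrable f (volume.restrict D) := hf.restrict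
  have hCD := hC.add_measure hD
  have hBCD := hB.add_measure hCD
  have hall := hA.add_measure hBCD
  have h4 := integral_mono_measure h1 (Filter.Eventually.of_forall h0) hall
  rw [integral_add_measure hA hBCD, integral_add_measure hB hCD, integral_add_measure hC hD] at h4
  exact h4

/-- large heights -/
private theorem big_le (m : ℕ) (a : ZMod m) {X η : ℝ} (hX : 1 ≤ X) (hη : 1 / X ≤ η) :
    ∫ t in {t : ℝ | X ^ (11 / 10 : ℝ) < |t|}, ‖DD m a X t‖ ^ 2 * gw η t ≤
      1764 * (X * Real.exp (-(X ^ (1 / 5 : ℝ) / 4))) := by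
  have hX0 : 0 < X := lt_of_lt_of_le one_pos hX
  have hη0 : 0 < η := lt_of_lt_of_le (by positivity) hη
  have hb : 0 < 1 / (4 * X ^ 2) := by positivity
  have hint : Integrable (fun t : ℝ => 441 * Real.exp (-(X ^ (1 / 5 : ℝ) / 4)) *
      Real.exp (-(1 / (4 * X ^ 2)) * t ^ 2)) := (integrable_exp_neg_mul_sq hb).const_mul _
  have h1 : ∫ t in {t : ℝ | X ^ (11 / 10 : ℝ) < |t|}, ‖DD m a X t‖ ^ 2 * gw η t ≤
      ∫ t in {t : ℝ | X ^ (11 / 10 : ℝ) < |t|}, 441 * Real.exp (-(X ^ (1 / 5 : ℝ) / 4)) *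
        Real.exp (-(1 / (4 * X ^ 2)) * t ^ 2) := by
    apply setIntegral_mono_on (fint m a hX0 hη0).integrableOn hint.integrableOn
    · exact measurableSet_lt measurable_const continuous_abs.measurable
    · intro t ht
      rw [Set.mem_setOf_eq] at ht
      have h2 : gw η t ≤ Real.exp (-(X ^ (1 / 5 : ℝ) / 4)) *
          Real.exp (-(1 / (4 * X ^ 2)) * t ^ 2) := by
        unfold gw
        rw [← Real.exp_add, Real.exp_le_exp]
        have h3 : X ^ (1 / 5 : ℝ) ≤ (η * t) ^ 2 := by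
          have h4 : X ^ (1 / 10 : ℝ) ≤ η * |t| := by
            have h5 : X ^ (1 / 10 : ℝ) = (1 / X) * X ^ (11 / 10 : ℝ) := by
              have h6 : X ^ (11 / 10 : ℝ) = X ^ (1 / 10 : ℝ) * X := by
                rw [← Real.rpow_add_one hX0.ne']
                norm_num
              rw [h6]
              field_simp
            rw [h5]
            exact mul_le_mul hη ht.le (by positivity) hη0.le
          have h7 : X ^ (1 / 5 : ℝ) = (X ^ (1 / 10 : ℝ)) ^ 2 := by
            rw [← Real.rpow_natCast, ← Real.rpow_mul hX0.le]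
            norm_num
          rw [h7, mul_pow, ← sq_abs t, ← mul_pow]
          exact pow_le_pow_left₀ (by positivity) h4 2
        have h8 : 1 / (4 * X ^ 2) * t ^ 2 ≤ (η * t) ^ 2 / 4 := by
          have h9 : (1 / X) ^ 2 ≤ η ^ 2 := pow_le_pow_left₀ (by positivity) hη 2
          have h10 : 1 / (4 * X ^ 2) * t ^ 2 = (1 / X) ^ 2 * t ^ 2 / 4 := by
            field_simp
          rw [h10, mul_pow]
          have h11 := mul_le_mul_of_nonneg_right h9 (sq_nonneg t)
          linarith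
        linarith
      have h12 : ‖DD m a X t‖ ^ 2 ≤ 441 := by
        have := pow_le_pow_left₀ (norm_nonneg _) (DD_le m a X t hX0) 2
        norm_num at this
        exact this
      calc ‖DD m a X t‖ ^ 2 * gw η t ≤ 441 * (Real.exp (-(X ^ (1 / 5 : ℝ) / 4)) *
          Real.exp (-(1 / (4 * X ^ 2)) * t ^ 2)) :=
            mul_le_mul h12 h2 (gw_nonneg η t) (by norm_num)
        _ = _ := by ring
  have h2 : ∫ t in {t : ℝ | X ^ (11 / 10 : ℝ) < |t|}, 441 * Real.exp (-(X ^ (1 / 5 : ℝ) / 4)) *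
        Real.exp (-(1 / (4 * X ^ 2)) * t ^ 2) ≤
      ∫ t : ℝ, 441 * Real.exp (-(X ^ (1 / 5 : ℝ) / 4)) *
        Real.exp (-(1 / (4 * X ^ 2)) * t ^ 2) := by
    apply setIntegral_le_integral hint
    filter_upwards with t
    positivity
  have h3 : ∫ t : ℝ, 441 * Real.exp (-(X ^ (1 / 5 : ℝ) / 4)) *
        Real.exp (-(1 / (4 * X ^ 2)) * t ^ 2) =
      441 * Real.exp (-(X ^ (1 / 5 : ℝ) / 4)) * Real.sqrt (Real.pi / (1 / (4 * X ^ 2))) := by
    rw [integral_const_mul, integral_gaussian]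
  have h4 : Real.sqrt (Real.pi / (1 / (4 * X ^ 2))) ≤ 4 * X := by
    rw [Real.sqrt_le_left (by positivity)]
    have h5 : Real.pi / (1 / (4 * X ^ 2)) = Real.pi * (4 * X ^ 2) := by
      field_simp
    rw [h5]
    have := Real.pi_le_four
    nlinarith [sq_nonneg X]
  refine h1.trans (h2.trans ?_)
  rw [h3]
  have h5 : 0 ≤ 441 * Real.exp (-(X ^ (1 / 5 : ℝ) / 4)) := by positivity
  calc 441 * Real.exp (-(X ^ (1 / 5 : ℝ) / 4)) * Real.sqrt (Real.pi / (1 / (4 * X ^ 2))) ≤
      441 * Real.exp (-(X ^ (1 / 5 : ℝ) / 4)) * (4 * X) := mul_le_mul_of_nonneg_left h4 h5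
    _ = _ := by ring

private theorem tend_big : Filter.Tendsto (fun X : ℝ => 1764 * (X * Real.exp (-(X ^ (1 / 5 : ℝ) / 4))))
    Filter.atTop (nhds 0) := by
  have h1 : Filter.Tendsto (fun X : ℝ => X ^ (1 / 5 : ℝ) / 4) Filter.atTop Filter.atTop :=
    (tendsto_rpow_atTop (by norm_num)).atTop_div_const (by norm_num)
  have h2 := (Real.tendsto_pow_mul_exp_neg_atTop_nhds_zero 5).comp h1
  have h3 := h2.const_mul (1764 * 4 ^ 5)
  rw [mul_zero] at h3
  refine h3.congr' ?_
  filter_upwards [Filter.eventually_ge_atTop (0 : ℝ)] with X hX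
  simp only [Function.comp_apply]
  have h4 : (X ^ (1 / 5 : ℝ)) ^ 5 = X := by
    rw [← Real.rpow_natCast, ← Real.rpow_mul hX]
    norm_num
  rw [div_pow, h4]
  ring

/-- The real line is the union of `|t| ≤ T₀` (`small`), `sm` (`levels`), the rest with `T₀ ≤ |t| ≤ X^{11/10}` (`fin`) and
`|t| > X^{11/10}` (`DD_le` and the Gaussian: `(h t/X)^2 ≥ X^{1/5}`). -/
theorem mrt (m : ℕ) [NeZero m] (ε : ℝ) (hε : 0 < ε) : ∃ h₀ : ℕ, 1 ≤ h₀ ∧ ∀ h : ℕ, h₀ ≤ h → ∃ X₀ : ℝ, ∀ X : ℝ, X₀ ≤ X →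
    ∀ a : ZMod m, ∫ t : ℝ, ‖DD m a X t‖ ^ 2 * gw (h / X) t ≤ ε := by
  obtain ⟨α, hα, hα1, hfin⟩ := fin
  obtain ⟨C₀, T₀, X₁, hC₀, hT₀, hfin⟩ := hfin m (ε / 4) (by positivity)
  obtain ⟨h₀, hh₀, hlev⟩ := levels α hα hα1 m (ε / 4) (by positivity)
  refine ⟨h₀, hh₀, fun h hh => ?_⟩
  obtain ⟨X₂, hlev⟩ := hlev h hh C₀
  have hT₀' : 0 < T₀ := lt_of_lt_of_le one_pos hT₀
  have hδ : 0 < min 1 (ε / (8 * T₀)) := lt_min one_pos (by positivity)
  obtain ⟨X₃, hsm⟩ := small m T₀ (min 1 (ε / (8 * T₀))) hδ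
  obtain ⟨X₄, hbig⟩ := Filter.eventually_atTop.1
    (tend_big.eventually (eventually_le_nhds (by positivity : (0 : ℝ) < ε / 4)))
  refine ⟨max (max X₁ X₂) (max (max X₃ X₄) 1), fun X hX a => ?_⟩
  have e1 : X₁ ≤ X := ((le_max_left _ _).trans (le_max_left _ _)).trans hX
  have e2 : X₂ ≤ X := ((le_max_right _ _).trans (le_max_left _ _)).trans hX
  have e3 : X₃ ≤ X := (((le_max_left _ _).trans (le_max_left _ _)).trans (le_max_right _ _)).trans hX
  have e4 : X₄ ≤ X := (((le_max_right _ _).trans (le_max_left _ _)).trans (le_max_right _ _)).trans hX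
  have e5 : 1 ≤ X := ((le_max_right _ _).trans (le_max_right _ _)).trans hX
  have hX0 : 0 < X := lt_of_lt_of_le one_pos e5
  have hh1 : (1 : ℝ) ≤ h := by exact_mod_cast hh₀.trans hh
  have hη : 1 / X ≤ (h : ℝ) / X := div_le_div_of_nonneg_right hh1 hX0.le
  have hη0 : 0 < (h : ℝ) / X := by positivity
  obtain ⟨b, hb2, hb3, hb4, hlev⟩ := hlev X e2
  have hB := hlev a
  have hC := hfin X e1 b hb2 hb3 hb4 a (h / X) hη
  have hD := (big_le m a e5 hη).trans (hbig X e4)
  have hA : ∫ t in Set.Icc (-T₀) T₀, ‖DD m a X t‖ ^ 2 * gw (h / X) t ≤ ε / 4 := by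
    have h1 : ∫ t in Set.Icc (-T₀) T₀, ‖DD m a X t‖ ^ 2 * gw (h / X) t ≤
        ∫ _ in Set.Icc (-T₀) T₀, ε / (8 * T₀) := by
      apply setIntegral_mono_on (fint m a hX0 hη0).integrableOn
      · exact integrableOn_const (by simp)
      · exact measurableSet_Icc
      · intro t ht
        have h2 := hsm X e3 a t (abs_le.2 ht)
        have h3 : ‖DD m a X t‖ ^ 2 ≤ ε / (8 * T₀) := by
          have h4 : ‖DD m a X t‖ ^ 2 ≤ (min 1 (ε / (8 * T₀))) ^ 2 :=
            pow_le_pow_left₀ (norm_nonneg _) h2 2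
          have h5 : (min 1 (ε / (8 * T₀))) ^ 2 ≤ min 1 (ε / (8 * T₀)) := by
            rw [sq]
            exact mul_le_of_le_one_left hδ.le (min_le_left _ _)
          exact h4.trans (h5.trans (min_le_right _ _))
        calc ‖DD m a X t‖ ^ 2 * gw (h / X) t ≤ ε / (8 * T₀) * 1 :=
              mul_le_mul h3 (gw_le_one _ _) (gw_nonneg _ _) (by positivity)
          _ = _ := mul_one _
    refine h1.trans (le_of_eq ?_)
    rw [setIntegral_const, Measure.real, Real.volume_Icc, ENNReal.toReal_ofReal (by linarith)]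
    rw [smul_eq_mul]
    field_simp
    ring
  have hcov := int_cover (fint m a hX0 hη0)
    (fun t => mul_nonneg (by positivity) (gw_nonneg _ _)) (Set.Icc (-T₀) T₀)
    (sm m (α * (1 - 1 / (b : ℝ))) b (b ^ 4) (b ^ 5))
    ({t : ℝ | T₀ ≤ |t| ∧ |t| ≤ X ^ (11 / 10 : ℝ)} ∩
      (sm m (α * (1 - 1 / (b : ℝ))) b (b ^ 4) (b ^ 5))ᶜ)
    {t : ℝ | X ^ (11 / 10 : ℝ) < |t|} (by
      intro t
      by_cases h1 : |t| ≤ T₀
      · exact Or.inl (abs_le.1 h1)
      · by_cases h2 : t ∈ sm m (α * (1 - 1 / (b : ℝ))) b (b ^ 4) (b ^ 5)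
        · exact Or.inr (Or.inl h2)
        · by_cases h3 : |t| ≤ X ^ (11 / 10 : ℝ)
          · exact Or.inr (Or.inr (Or.inl ⟨⟨(not_le.1 h1).le, h3⟩, h2⟩))
          · exact Or.inr (Or.inr (Or.inr (not_le.1 h3))))
  linarith

private theorem abs_mu_le_one_main (n : ℕ) : |mu n| ≤ 1 := by
  unfold mu
  have := ArithmeticFunction.abs_moebius_le_one (n := n)
  exact_mod_cast this

/-- Proof. `win` with `c n = 1_{n ≡ a} μ(n)`, window length `h` and Gaussian length `⌈ε' h⌉ ≥ h₀`, on `(X/2^{j+1}, X/2^j]` for `j < J(ε)`; the rest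
is trivial. -/
theorem mr (m : ℕ) [NeZero m] (ε : ℝ) (hε : 0 < ε) : ∃ h₀ : ℕ, ∀ h : ℕ, h₀ ≤ h → ∃ X₀ : ℕ, ∀ X : ℕ, X₀ ≤ X →
    ∀ a : ZMod m, ∑ x ∈ range X,
      |∑ n ∈ range h, (if (((x + n : ℕ)) : ZMod m) = a then mu (x + n) else 0)| ≤ ε * h * X := by
  obtain ⟨C, hC, hwin⟩ := win
  set ε₁ : ℝ := ε / 5 with hε₁
  have hε₁0 : 0 < ε₁ := by positivity
  obtain ⟨g, hg1, hmrt⟩ := mrt m ((ε₁ / C) ^ 2) (by positivity)
  obtain ⟨X₁, hmrt⟩ := hmrt g le_rfl
  refine ⟨max g ⌈C * g / ε₁⌉₊, fun h hh => ?_⟩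
  have hgh : g ≤ h := (le_max_left _ _).trans hh
  have hh1 : 1 ≤ h := hg1.trans hgh
  have hCg : C * g ≤ ε₁ * h := by
    have h1 : C * g / ε₁ ≤ h := by
      refine (Nat.le_ceil _).trans ?_
      exact_mod_cast (le_max_right _ _).trans hh
    rw [div_le_iff₀ hε₁0] at h1
    linarith
  -- threshold
  set X₂ : ℕ := max (max ⌈X₁⌉₊ h) 3 with hX₂
  set T : ℕ := 2 * X₂ with hT
  refine ⟨⌈((T : ℝ) + 2) / ε₁⌉₊, fun X hX a => ?_⟩
  let c : ℕ → ℝ := fun n => if ((n : ℕ) : ZMod m) = a then mu n else 0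
  have hc : ∀ n, |c n| ≤ 1 := by
    intro n
    simp only [c]
    split_ifs
    · exact abs_mu_le_one_main n
    · simp
  let S : ℕ → ℝ := fun x => |∑ n ∈ Ioc x (x + h), c n|
  have hS0 : ∀ x, 0 ≤ S x := fun x => abs_nonneg _
  have hSh : ∀ x, S x ≤ h := by
    intro x
    refine (Finset.abs_sum_le_sum_abs _ _).trans ?_
    refine (Finset.sum_le_sum fun n _ => hc n).trans ?_
    rw [Finset.sum_const, Nat.card_Ioc, nsmul_eq_mul, mul_one]
    simp
  -- one dyadic block
  have hblock : ∀ Z : ℕ, X₂ ≤ Z → ∑ x ∈ Ioc Z (2 * Z), S x ≤ 2 * ε₁ * h * Z := by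
    intro Z hZ
    have hZ1 : X₁ ≤ (Z : ℝ) := by
      refine (Nat.le_ceil _).trans ?_
      exact_mod_cast ((le_max_left _ _).trans (le_max_left _ _)).trans hZ
    have hZh : h ≤ Z := ((le_max_right _ _).trans (le_max_left _ _)).trans hZ
    have h1 := hwin c hc Z g h hg1 hgh hZh
    have h2 : (∫ t : ℝ, ‖((1 / (Z : ℝ) : ℝ) : ℂ) * ∑ n ∈ Icc 1 ⌊21 * (Z : ℝ)⌋₊,
        ((c n * psi (Real.log n - Real.log Z) : ℝ) : ℂ) * ph n t‖ ^ 2 * gw (g / Z) t) =
        ∫ t : ℝ, ‖DD m a Z t‖ ^ 2 * gw (g / Z) t := by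
      congr 1
      funext t
      have h3 : ∀ n : ℕ, c n * psi (Real.log n - Real.log Z) = co m a Z n := by
        intro n
        simp only [c, co]
        split_ifs
        · rfl
        · rw [zero_mul]
      simp only [h3]
      rfl
    rw [h2] at h1
    have h4 : Real.sqrt (∫ t : ℝ, ‖DD m a Z t‖ ^ 2 * gw (g / Z) t) ≤ ε₁ / C := by
      rw [Real.sqrt_le_left (by positivity)]
      exact hmrt Z hZ1 a
    have h5 : C * (h * Z) * Real.sqrt (∫ t : ℝ, ‖DD m a Z t‖ ^ 2 * gw (g / Z) t) ≤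
        ε₁ * h * Z := by
      calc C * (h * Z) * Real.sqrt (∫ t : ℝ, ‖DD m a Z t‖ ^ 2 * gw (g / Z) t) ≤
          C * (h * Z) * (ε₁ / C) := mul_le_mul_of_nonneg_left h4 (by positivity)
        _ = ε₁ * h * Z := by
          field_simp
    have h6 : C * ((Z : ℝ) * g) ≤ ε₁ * h * Z := by
      have := mul_le_mul_of_nonneg_right hCg (Nat.cast_nonneg (α := ℝ) Z)
      linarith
    have h7 : ∑ x ∈ Ioc Z (2 * Z), S x ≤ C * ((Z : ℝ) * g) +
        C * (h * Z) * Real.sqrt (∫ t : ℝ, ‖DD m a Z t‖ ^ 2 * gw (g / Z) t) := h1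
    linarith
  -- all blocks
  have hall : ∀ Y : ℕ, ∑ x ∈ Ioc 0 Y, S x ≤ 4 * ε₁ * h * Y + h * T := by
    intro Y
    induction Y using Nat.strong_induction_on with
    | _ Y ih =>
      by_cases hY : Y < T
      · have h1 : ∑ x ∈ Ioc 0 Y, S x ≤ ∑ _x ∈ Ioc 0 Y, (h : ℝ) :=
          Finset.sum_le_sum fun x _ => hSh x
        rw [Finset.sum_const, Nat.card_Ioc, nsmul_eq_mul, Nat.sub_zero] at h1
        have h2 : (Y : ℝ) ≤ T := by exact_mod_cast hY.le
        have h3 : (0 : ℝ) ≤ 4 * ε₁ * h * Y := by positivity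
        have h4 : (Y : ℝ) * h ≤ h * T := by
          rw [mul_comm]
          exact mul_le_mul_of_nonneg_left h2 (Nat.cast_nonneg _)
        linarith
      · push Not at hY
        have hX3 : 3 ≤ X₂ := le_max_right _ _
        set Z : ℕ := (Y + 1) / 2 with hZ
        have hZY : Z < Y := by omega
        have hZX : X₂ ≤ Z := by omega
        have hYZ : Y ≤ 2 * Z := by omega
        have hZ2 : 2 * Z ≤ Y + 1 := by omega
        have h1 : ∑ x ∈ Ioc 0 Y, S x ≤ ∑ x ∈ Ioc 0 (2 * Z), S x :=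
          Finset.sum_le_sum_of_subset_of_nonneg (Finset.Ioc_subset_Ioc_right hYZ)
            fun x _ _ => hS0 x
        have h2 : ∑ x ∈ Ioc 0 (2 * Z), S x = ∑ x ∈ Ioc 0 Z, S x + ∑ x ∈ Ioc Z (2 * Z), S x :=
          (Finset.sum_Ioc_consecutive _ (Nat.zero_le _) (by omega)).symm
        have h3 := ih Z hZY
        have h4 := hblock Z hZX
        have h5 : (6 : ℝ) * Z ≤ 4 * Y := by
          have : 6 * Z ≤ 4 * Y := by omega
          exact_mod_cast this
        have h6 : 0 ≤ ε₁ * h := by positivity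
        have h7 := mul_le_mul_of_nonneg_left h5 h6
        nlinarith [h7, h1, h2, h3, h4]
  -- shift by one
  have hshift : ∑ x ∈ range X,
      |∑ n ∈ range h, (if (((x + n : ℕ)) : ZMod m) = a then mu (x + n) else 0)| ≤
      2 * h + ∑ x ∈ Ioc 0 X, S x := by
    have h1 : ∀ x : ℕ, |∑ n ∈ range h, (if (((x + n : ℕ)) : ZMod m) = a then mu (x + n) else 0)| =
        |∑ n ∈ range h, c (x + n)| := fun x => rfl
    simp only [h1]
    have h2 : ∀ x : ℕ, |∑ n ∈ range h, c (x + 1 + n)| = S x := by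
      intro x
      simp only [S]
      congr 1
      have h3 : Ioc x (x + h) = Ico (x + 1) (x + 1 + h) := by
        ext n
        simp only [mem_Ioc, mem_Ico]
        omega
      rw [h3, Finset.sum_Ico_eq_sum_range, Nat.add_sub_cancel_left]
    have h4 : |∑ n ∈ range h, c (0 + n)| ≤ h := by
      refine (Finset.abs_sum_le_sum_abs _ _).trans ?_
      refine (Finset.sum_le_sum fun n _ => hc _).trans ?_
      rw [Finset.sum_const, card_range, nsmul_eq_mul, mul_one]
    rcases Nat.eq_zero_or_pos X with hX0 | hX0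
    · rw [hX0]
      simp
    · obtain ⟨Y, hY⟩ := Nat.exists_eq_succ_of_ne_zero hX0.ne'
      rw [hY, Nat.succ_eq_add_one, Finset.sum_range_succ']
      simp only [h2]
      have h5 : ∑ x ∈ range Y, S x ≤ ∑ x ∈ insert 0 (Ioc 0 (Y + 1)), S x := by
        apply Finset.sum_le_sum_of_subset_of_nonneg
        · intro x hx
          rw [mem_range] at hx
          rw [mem_insert, mem_Ioc]
          omega
        · intro x _ _
          exact hS0 x
      rw [Finset.sum_insert (by simp)] at h5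
      have h6 := hSh 0
      linarith
  have h1 := hall X
  have h2 : ((T : ℝ) + 2) ≤ ε₁ * X := by
    have h3 : ((T : ℝ) + 2) / ε₁ ≤ X := by
      refine (Nat.le_ceil _).trans ?_
      exact_mod_cast hX
    rw [div_le_iff₀ hε₁0] at h3
    linarith
  have h3 : (h : ℝ) * ((T : ℝ) + 2) ≤ h * (ε₁ * X) :=
    mul_le_mul_of_nonneg_left h2 (Nat.cast_nonneg _)
  have h4 : ε * h * X = 4 * ε₁ * h * X + h * (ε₁ * X) := by
    rw [hε₁]
    ring
  rw [h4]
  linarith

end Pool.Agent.Lib.MP_3e612f_nt.MR
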