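import Pool.Agent.Lib.MP_3e612f_nt.MR.Osc
import Pool.Agent.Lib.MP_3e612f_nt.LO.Brun

/-! Sums of `n^{-iu}` with sieve weights over a window. -/

set_option autoImplicit false

namespace Pool.Agent.Lib.MP_3e612f_nt.MR

open Finset MeasureTheory

/-- `x^{-iu}` -/
noncomputable def xf (u x : ℝ) : ℂ := Complex.exp (-(((u * Real.log x : ℝ) : ℂ) * Complex.I))

theorem xf_norm (u x : ℝ) : ‖xf u x‖ = 1 := by
  unfold xf
  rw [← neg_mul, ← Complex.ofReal_neg]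
  exact Complex.norm_exp_ofReal_mul_I _

theorem xf_mul (u : ℝ) {x y : ℝ} (hx : 0 < x) (hy : 0 < y) : xf u (x * y) = xf u x * xf u y := by
  unfold xf
  rw [Real.log_mul hx.ne' hy.ne', ← Complex.exp_add]
  congr 1
  push_cast
  ring

theorem xf_cont (u : ℝ) {a b : ℝ} (ha : 0 < a) (hb : 0 < b) : ContinuousOn (xf u) (Set.uIcc a b) := by
  intro x hx
  have hx0 : 0 < x := by
    rcases Set.mem_uIcc.mp hx with h | h
    · exact ha.trans_le h.1
    · exact hb.trans_le h.1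
  have h1 : ContinuousAt Real.log x := Real.continuousAt_log hx0.ne'
  unfold xf
  exact ContinuousAt.continuousWithinAt (by fun_prop)

theorem xf_int (u : ℝ) {a b : ℝ} (ha : 0 < a) (hb : 0 < b) : IntervalIntegrable (xf u) volume a b :=
  (xf_cont u ha hb).intervalIntegrable

theorem xf_le (u a b : ℝ) : ‖∫ x in a..b, xf u x‖ ≤ |b - a| := by
  have h := intervalIntegral.norm_integral_le_of_norm_le_const (a := a) (b := b) (f := xf u)
    (C := 1) fun x _ => (xf_norm u x).le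
  rwa [one_mul] at h

theorem ph_xf (n : ℕ) (u : ℝ) : ph n u = xf u n := rfl

theorem ph_norm (n : ℕ) (u : ℝ) : ‖ph n u‖ = 1 := xf_norm u n

theorem ph_mul {d k : ℕ} (hd : 1 ≤ d) (hk : 1 ≤ k) (u : ℝ) : ph (d * k) u = ph d u * ph k u := by
  rw [ph_xf, ph_xf, ph_xf]
  push_cast
  exact xf_mul u (by exact_mod_cast hd) (by exact_mod_cast hk)

/-- `osc` for intervals up to `(M, 4M]` -/
theorem osc4 (κ : ℝ) (hκ : 0 < κ) : ∃ c C : ℝ, 0 < c ∧ c ≤ 1 / 2 ∧ 0 < C ∧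
    ∀ (M M' : ℕ) (u : ℝ), 1 ≤ M → M ≤ M' → M' ≤ 4 * M → 1 ≤ |u| → |u| ≤ (M : ℝ) ^ (1 / κ) →
      ‖∑ n ∈ Ioc M M', ph n u - ∫ x in (M : ℝ)..(M' : ℝ), xf u x‖ ≤ C * (M : ℝ) ^ (1 - c) := by
  obtain ⟨c, C, hc, hc2, hC, h⟩ := osc κ hκ
  refine ⟨c, 3 * C, hc, hc2, by positivity, fun M M' u hM hMM hM4 hu1 hu2 => ?_⟩
  have hM0 : (0 : ℝ) < M := by exact_mod_cast hM
  have hpow : 0 < (M : ℝ) ^ (1 - c) := Real.rpow_pos_of_pos hM0 _
  by_cases h2 : M' ≤ 2 * M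
  · refine (h M M' u hM hMM h2 hu1 hu2).trans ?_
    nlinarith
  · push Not at h2
    have e1 := h M (2 * M) u hM (by omega) le_rfl hu1 hu2
    have hu3 : |u| ≤ ((2 * M : ℕ) : ℝ) ^ (1 / κ) := by
      refine hu2.trans ?_
      apply Real.rpow_le_rpow hM0.le _ (by positivity)
      push_cast; linarith
    have e2 := h (2 * M) M' u (by omega) h2.le (by omega) hu1 hu3
    have e3 : ∑ n ∈ Ioc M M', ph n u = ∑ n ∈ Ioc M (2 * M), ph n u + ∑ n ∈ Ioc (2 * M) M', ph n u := by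
      rw [← Finset.sum_Ioc_consecutive _ (by omega : M ≤ 2 * M) h2.le]
    have e4 : ∫ x in (M : ℝ)..(M' : ℝ), xf u x =
        (∫ x in (M : ℝ)..((2 * M : ℕ) : ℝ), xf u x) + ∫ x in ((2 * M : ℕ) : ℝ)..(M' : ℝ), xf u x := by
      rw [intervalIntegral.integral_add_adjacent_intervals]
      · exact xf_int u hM0 (by exact_mod_cast (by omega : 0 < 2 * M))
      · exact xf_int u (by exact_mod_cast (by omega : 0 < 2 * M)) (by exact_mod_cast (by omega : 0 < M'))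
    have e5 : ((2 * M : ℕ) : ℝ) ^ (1 - c) ≤ 2 * (M : ℝ) ^ (1 - c) := by
      push_cast
      rw [Real.mul_rpow (by norm_num) hM0.le]
      have : (2 : ℝ) ^ (1 - c) ≤ 2 ^ (1 : ℝ) := Real.rpow_le_rpow_of_exponent_le (by norm_num) (by linarith)
      rw [Real.rpow_one] at this
      exact mul_le_mul_of_nonneg_right this hpow.le
    have e6 : ∑ n ∈ Ioc M M', ph n u - ∫ x in (M : ℝ)..(M' : ℝ), xf u x =
        (∑ n ∈ Ioc M (2 * M), ph n u - ∫ x in (M : ℝ)..((2 * M : ℕ) : ℝ), xf u x) +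
        (∑ n ∈ Ioc (2 * M) M', ph n u - ∫ x in ((2 * M : ℕ) : ℝ)..(M' : ℝ), xf u x) := by
      rw [e3, e4]; ring
    rw [e6]
    refine (norm_add_le _ _).trans ?_
    have e7 : C * ((2 * M : ℕ) : ℝ) ^ (1 - c) ≤ C * (2 * (M : ℝ) ^ (1 - c)) := mul_le_mul_of_nonneg_left e5 hC.le
    calc _ ≤ C * (M : ℝ) ^ (1 - c) + C * ((2 * M : ℕ) : ℝ) ^ (1 - c) := add_le_add e1 e2
      _ ≤ 3 * C * (M : ℝ) ^ (1 - c) := by linarith

/-- moving the end points -/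
theorem ends (u : ℝ) {a b a' b' : ℝ} (ha : 0 < a) (hb : 0 < b) (ha' : a ≤ a') (ha1 : a' ≤ a + 1) (hb' : b ≤ b')
    (hb1 : b' ≤ b + 1) : ‖(∫ x in a..b, xf u x) - ∫ x in a'..b', xf u x‖ ≤ 2 := by
  have h1 : (∫ x in a..b, xf u x) + ∫ x in b..b', xf u x = ∫ x in a..b', xf u x :=
    intervalIntegral.integral_add_adjacent_intervals (xf_int u ha hb) (xf_int u hb (by linarith))
  have h2 : (∫ x in a..a', xf u x) + ∫ x in a'..b', xf u x = ∫ x in a..b', xf u x :=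
    intervalIntegral.integral_add_adjacent_intervals (xf_int u ha (by linarith)) (xf_int u (by linarith) (by linarith))
  have e : (∫ x in a..b, xf u x) - ∫ x in a'..b', xf u x = (∫ x in a..a', xf u x) - ∫ x in b..b', xf u x := by
    linear_combination h1 - h2
  rw [e]
  refine (norm_sub_le _ _).trans ?_
  have e1 := xf_le u a a'
  have e2 := xf_le u b b'
  rw [abs_of_nonneg (by linarith)] at e1 e2
  linarith

/-- change of variables -/
theorem scale (u : ℝ) {d : ℕ} (hd : 1 ≤ d) {Y Y' : ℝ} (hY : 0 < Y) (hY' : Y ≤ Y') :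
    ph d u * ∫ x in (Y / d)..(Y' / d), xf u x = ((1 / d : ℝ) : ℂ) * ∫ x in Y..Y', xf u x := by
  have hd0 : (0 : ℝ) < d := by exact_mod_cast hd
  have h1 : ∫ x in (Y / d)..(Y' / d), xf u x = ((1 / d : ℝ) : ℂ) * ∫ y in Y..Y', xf u (y / d) := by
    have h := intervalIntegral.integral_comp_div (a := Y) (b := Y') (fun x => xf u x) hd0.ne'
    rw [h, Complex.real_smul, ← mul_assoc, ← Complex.ofReal_mul, one_div, inv_mul_cancel₀ hd0.ne']
    simp
  have h2 : ph d u * ∫ y in Y..Y', xf u (y / d) = ∫ y in Y..Y', xf u y := by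
    rw [← intervalIntegral.integral_const_mul]
    refine intervalIntegral.integral_congr fun y hy => ?_
    rw [Set.uIcc_of_le hY'] at hy
    have hy0 : 0 < y := hY.trans_le hy.1
    show ph d u * xf u (y / d) = xf u y
    rw [ph_xf, ← xf_mul u hd0 (by positivity)]
    congr 1
    field_simp
  rw [h1]
  calc ph d u * (((1 / d : ℝ) : ℂ) * ∫ y in Y..Y', xf u (y / d)) =
      ((1 / d : ℝ) : ℂ) * (ph d u * ∫ y in Y..Y', xf u (y / d)) := by ring
    _ = _ := by rw [h2]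

/-- multiples of `d` in `(A, B]` -/
theorem sum_mult {E : Type*} [AddCommMonoid E] (A B : ℕ) {d : ℕ} (hd : 1 ≤ d) (F : ℕ → E) :
    ∑ n ∈ (Ioc A B).filter (fun n => d ∣ n), F n = ∑ k ∈ Ioc (A / d) (B / d), F (d * k) := by
  symm
  refine Finset.sum_bij (fun k _ => d * k) ?_ ?_ ?_ ?_
  · intro k hk
    rw [mem_Ioc] at hk
    rw [mem_filter, mem_Ioc]
    refine ⟨⟨?_, ?_⟩, dvd_mul_right d k⟩
    · have := (Nat.div_lt_iff_lt_mul (by omega : 0 < d)).1 hk.1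
      rw [mul_comm]; exact this
    · have := (Nat.le_div_iff_mul_le (by omega : 0 < d)).1 hk.2
      rw [mul_comm]; exact this
  · intro a _ b _ hab
    exact Nat.eq_of_mul_eq_mul_left (by omega) hab
  · intro n hn
    rw [mem_filter, mem_Ioc] at hn
    obtain ⟨k, rfl⟩ := hn.2
    refine ⟨k, ?_, rfl⟩
    rw [mem_Ioc]
    constructor
    · rw [Nat.div_lt_iff_lt_mul (by omega), mul_comm]; exact hn.1.1
    · rw [Nat.le_div_iff_mul_le (by omega), mul_comm]; exact hn.1.2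
  · intro k _; rfl

/-- weighted sums -/
theorem wsum (lp : ℕ → ℝ) (D A B : ℕ) (u : ℝ) :
    ∑ n ∈ Ioc A B, (((∑ d ∈ Icc 1 D, if d ∣ n then lp d else 0 : ℝ)) : ℂ) * ph n u =
      ∑ d ∈ Icc 1 D, (lp d : ℂ) * (ph d u * ∑ k ∈ Ioc (A / d) (B / d), ph k u) := by
  calc ∑ n ∈ Ioc A B, (((∑ d ∈ Icc 1 D, if d ∣ n then lp d else 0 : ℝ)) : ℂ) * ph n u =
      ∑ n ∈ Ioc A B, ∑ d ∈ Icc 1 D, (if d ∣ n then (lp d : ℂ) * ph n u else 0) := by
        refine Finset.sum_congr rfl fun n _ => ?_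
        push_cast
        rw [Finset.sum_mul]
        refine Finset.sum_congr rfl fun d _ => ?_
        split_ifs <;> simp
    _ = ∑ d ∈ Icc 1 D, ∑ n ∈ Ioc A B, (if d ∣ n then (lp d : ℂ) * ph n u else 0) := Finset.sum_comm
    _ = _ := by
        refine Finset.sum_congr rfl fun d hd => ?_
        rw [mem_Icc] at hd
        rw [← Finset.sum_filter, sum_mult A B hd.1 (fun n => (lp d : ℂ) * ph n u), Finset.mul_sum, Finset.mul_sum]
        refine Finset.sum_congr rfl fun k hk => ?_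
        rw [mem_Ioc] at hk
        rw [ph_mul hd.1 (Nat.lt_of_le_of_lt (Nat.zero_le _) hk.1) u]

/-- the total weight of a nonnegative divisor sum is nonnegative -/
theorem weight_nonneg {lp : ℕ → ℝ} (h1 : ∀ d, |lp d| ≤ 1) {D : ℕ}
    (h0 : ∀ n, 0 ≤ ∑ d ∈ Icc 1 D, if d ∣ n then lp d else 0) : 0 ≤ ∑ d ∈ Icc 1 D, lp d / d := by
  by_contra hcon
  push Not at hcon
  set s := ∑ d ∈ Icc 1 D, lp d / d with hs
  obtain ⟨N, hN⟩ := exists_nat_gt ((D : ℝ) / (-s))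
  have h := LO.sum_dvd_weight 0 N D lp h1
  have h2 : 0 ≤ ∑ n ∈ Ico 0 (0 + N), (∑ d ∈ Icc 1 D, if d ∣ n then lp d else 0) :=
    Finset.sum_nonneg fun n _ => h0 n
  rw [div_lt_iff₀ (by linarith)] at hN
  rw [← hs] at h
  nlinarith

/-- The core estimate. -/
theorem core {lp : ℕ → ℝ} (h1 : ∀ d, |lp d| ≤ 1) {D : ℕ} {Y Y' u C c κ : ℝ} (hc : 0 < c) (hC : 0 < C)
    (hosc : ∀ (M M' : ℕ), 1 ≤ M → M ≤ M' → M' ≤ 4 * M → |u| ≤ (M : ℝ) ^ (1 / κ) →
      ‖∑ n ∈ Ioc M M', ph n u - ∫ x in (M : ℝ)..(M' : ℝ), xf u x‖ ≤ C * (M : ℝ) ^ (1 - c))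
    (hc1 : c ≤ 1) (hY : 0 < Y) (hYY : Y ≤ Y') (hY3 : Y' ≤ 3 * Y) (hD : (D : ℝ) ^ 2 ≤ Y)
    (hM : ∀ d ∈ Icc 1 D, 3 ≤ ⌊Y⌋₊ / d ∧ |u| ≤ ((⌊Y⌋₊ / d : ℕ) : ℝ) ^ (1 / κ)) :
    ‖∑ n ∈ Ioc ⌊Y⌋₊ ⌊Y'⌋₊, (((∑ d ∈ Icc 1 D, if d ∣ n then lp d else 0 : ℝ)) : ℂ) * ph n u‖ ≤
      |∑ d ∈ Icc 1 D, lp d / d| * ‖∫ x in Y..Y', xf u x‖ +
        (C * Y ^ (1 - c / 2) * (1 + Real.log D) + 2 * D) := by
  rw [wsum]
  have hY0' : 0 < Y' := hY.trans_le hYY
  have e1 : ∀ d ∈ Icc 1 D, ‖(lp d : ℂ) * (ph d u * ∑ k ∈ Ioc (⌊Y⌋₊ / d) (⌊Y'⌋₊ / d), ph k u) -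
      ((lp d / d : ℝ) : ℂ) * ∫ x in Y..Y', xf u x‖ ≤ C * (Y ^ (1 - c / 2) * (1 / d)) + 2 := by
    intro d hd
    obtain ⟨hM3, huM⟩ := hM d hd
    rw [mem_Icc] at hd
    have hd0 : (0 : ℝ) < d := by exact_mod_cast hd.1
    set M := ⌊Y⌋₊ / d with hMdef
    set M' := ⌊Y'⌋₊ / d with hM'def
    have hMf : M = ⌊Y / d⌋₊ := (Nat.floor_div_natCast Y d).symm
    have hM'f : M' = ⌊Y' / d⌋₊ := (Nat.floor_div_natCast Y' d).symm
    have hM0 : (0 : ℝ) < M := by exact_mod_cast (by omega : 0 < M)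
    have a1 : (M : ℝ) ≤ Y / d := by rw [hMf]; exact Nat.floor_le (by positivity)
    have a2 : Y / d ≤ M + 1 := by rw [hMf]; exact (Nat.lt_floor_add_one _).le
    have b1 : (M' : ℝ) ≤ Y' / d := by rw [hM'f]; exact Nat.floor_le (by positivity)
    have b2 : Y' / d ≤ M' + 1 := by rw [hM'f]; exact (Nat.lt_floor_add_one _).le
    have hMM : M ≤ M' := Nat.div_le_div_right (Nat.floor_le_floor hYY)
    have hM4 : M' ≤ 4 * M := by
      have h3 : Y' / d ≤ 3 * (Y / d) := by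
        rw [← mul_div_assoc]; gcongr
      have hM3r : (3 : ℝ) ≤ M := by exact_mod_cast hM3
      have : (M' : ℝ) ≤ ((4 * M : ℕ) : ℝ) := by push_cast; linarith
      exact_mod_cast this
    have ho := hosc M M' (by omega) hMM hM4 huM
    have he := ends u (a := (M : ℝ)) (b := (M' : ℝ)) hM0 (lt_of_lt_of_le hM0 (by exact_mod_cast hMM)) a1 a2 b1 b2
    have hsc := scale u hd.1 hY hYY
    have e2 : (lp d : ℂ) * (ph d u * ∑ k ∈ Ioc M M', ph k u) - ((lp d / d : ℝ) : ℂ) * ∫ x in Y..Y', xf u x =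
        (lp d : ℂ) * (ph d u * ((∑ k ∈ Ioc M M', ph k u - ∫ x in (M : ℝ)..(M' : ℝ), xf u x) +
          ((∫ x in (M : ℝ)..(M' : ℝ), xf u x) - ∫ x in (Y / d)..(Y' / d), xf u x))) := by
      have e3 : ((lp d / d : ℝ) : ℂ) * ∫ x in Y..Y', xf u x =
          (lp d : ℂ) * (ph d u * ∫ x in (Y / d)..(Y' / d), xf u x) := by
        rw [hsc]; push_cast; ring
      rw [e3]; ring
    rw [e2, norm_mul, norm_mul, ph_norm, one_mul, Complex.norm_real]
    have e4 : ‖(∑ k ∈ Ioc M M', ph k u - ∫ x in (M : ℝ)..(M' : ℝ), xf u x) +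
          ((∫ x in (M : ℝ)..(M' : ℝ), xf u x) - ∫ x in (Y / d)..(Y' / d), xf u x)‖ ≤
          C * (M : ℝ) ^ (1 - c) + 2 := (norm_add_le _ _).trans (add_le_add ho he)
    have e5 : (M : ℝ) ^ (1 - c) ≤ Y ^ (1 - c / 2) * (1 / d) := by
      calc (M : ℝ) ^ (1 - c) ≤ (Y / d) ^ (1 - c) := Real.rpow_le_rpow hM0.le a1 (by linarith)
        _ = Y ^ (1 - c) * (d : ℝ) ^ c * (1 / d) := by
            rw [Real.div_rpow hY.le hd0.le, Real.rpow_sub hd0, Real.rpow_one]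
            field_simp
        _ ≤ Y ^ (1 - c) * Y ^ (c / 2) * (1 / d) := by
            have h5 : (d : ℝ) ^ c ≤ Y ^ (c / 2) := by
              calc (d : ℝ) ^ c = ((d : ℝ) ^ (2 : ℝ)) ^ (c / 2) := by
                    rw [← Real.rpow_mul hd0.le]; congr 1; ring
                _ ≤ Y ^ (c / 2) := by
                    apply Real.rpow_le_rpow (by positivity) _ (by positivity)
                    rw [Real.rpow_two]
                    have : (d : ℝ) ≤ D := by exact_mod_cast hd.2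
                    nlinarith
            gcongr
        _ = Y ^ (1 - c / 2) * (1 / d) := by
            rw [← Real.rpow_add hY]; congr 2; ring
    calc ‖lp d‖ * _ ≤ 1 * (C * (M : ℝ) ^ (1 - c) + 2) :=
          mul_le_mul (h1 d) e4 (norm_nonneg _) zero_le_one
      _ = C * (M : ℝ) ^ (1 - c) + 2 := one_mul _
      _ ≤ C * (Y ^ (1 - c / 2) * (1 / d)) + 2 := by gcongr
  have e6 : ∑ d ∈ Icc 1 D, (lp d : ℂ) * (ph d u * ∑ k ∈ Ioc (⌊Y⌋₊ / d) (⌊Y'⌋₊ / d), ph k u) =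
      ((∑ d ∈ Icc 1 D, lp d / d : ℝ) : ℂ) * (∫ x in Y..Y', xf u x) +
      ∑ d ∈ Icc 1 D, ((lp d : ℂ) * (ph d u * ∑ k ∈ Ioc (⌊Y⌋₊ / d) (⌊Y'⌋₊ / d), ph k u) -
        ((lp d / d : ℝ) : ℂ) * ∫ x in Y..Y', xf u x) := by
    rw [Finset.sum_sub_distrib, Complex.ofReal_sum, Finset.sum_mul]
    ring
  rw [e6]
  refine (norm_add_le _ _).trans (add_le_add ?_ ?_)
  · rw [norm_mul, Complex.norm_real, Real.norm_eq_abs]
  · refine (norm_sum_le _ _).trans ((Finset.sum_le_sum e1).trans ?_)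
    rw [Finset.sum_add_distrib, ← Finset.mul_sum, ← Finset.mul_sum, Finset.sum_const, Nat.card_Icc,
      nsmul_eq_mul, Nat.add_sub_cancel]
    have hharm : ∑ d ∈ Icc 1 D, (1 : ℝ) / d ≤ 1 + Real.log D := by
      have := harmonic_le_one_add_log D
      rw [harmonic_eq_sum_Icc] at this
      push_cast at this
      simpa [one_div] using this
    have hYp : 0 ≤ Y ^ (1 - c / 2) := Real.rpow_nonneg hY.le _
    have e7 : C * (Y ^ (1 - c / 2) * ∑ d ∈ Icc 1 D, (1 : ℝ) / d) ≤ C * Y ^ (1 - c / 2) * (1 + Real.log D) := by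
      rw [← mul_assoc]
      exact mul_le_mul_of_nonneg_left hharm (by positivity)
    linarith

end Pool.Agent.Lib.MP_3e612f_nt.MR
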