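import Pool.Agent.Lib.MP_3e612f_nt.MR.Defs

/-!
Contraction of prime sums, part A: unit numbers whose sum is nearly maximal have large power sums; the
power sums are bounded by the Gram matrix of a majorant.
-/

set_option autoImplicit false

namespace Pool.Agent.Lib.MP_3e612f_nt.MR

open Finset

theorem Contr_pow_sub {z w : ℂ} (hz : ‖z‖ = 1) (hw : ‖w‖ = 1) (k : ℕ) :
    ‖z ^ k - w ^ k‖ ≤ k * ‖z - w‖ := by
  induction k with
  | zero => simp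
  | succ k ih =>
    have h1 : z ^ (k + 1) - w ^ (k + 1) = z ^ k * (z - w) + (z ^ k - w ^ k) * w := by ring
    rw [h1]
    refine (norm_add_le _ _).trans ?_
    rw [norm_mul, norm_mul, norm_pow, hz, hw, one_pow, one_mul, mul_one]
    push_cast
    linarith

/-- unit numbers whose sum is nearly maximal have large power sums -/
theorem Contr_pow {P : Finset ℕ} {z : ℕ → ℂ} (hz : ∀ p ∈ P, ‖z p‖ = 1) {K : ℕ} (hK : 1 ≤ K)
    (h : (1 - 1 / (8 * (K : ℝ) ^ 2)) * P.card < ‖∑ p ∈ P, z p‖) {k : ℕ} (hk : k ≤ K) :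
    (P.card : ℝ) / 2 ≤ ‖∑ p ∈ P, z p ^ k‖ := by
  have hK' : (1 : ℝ) ≤ K := by exact_mod_cast hK
  have hc : (0 : ℝ) ≤ 1 - 1 / (8 * (K : ℝ) ^ 2) := by
    rw [sub_nonneg, div_le_one (by positivity)]
    nlinarith
  set S := ∑ p ∈ P, z p with hS
  have hS0 : 0 < ‖S‖ := lt_of_le_of_lt (mul_nonneg hc (Nat.cast_nonneg _)) h
  have hSne : (‖S‖ : ℂ) ≠ 0 := by exact_mod_cast hS0.ne'
  set w : ℂ := S / (‖S‖ : ℂ) with hw
  have hw1 : ‖w‖ = 1 := by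
    rw [hw, norm_div, Complex.norm_real, norm_norm, div_self hS0.ne']
  have h1 : ∀ p ∈ P, ‖z p - w‖ ^ 2 = 2 - 2 * (z p * (starRingEnd ℂ) w).re := by
    intro p hp
    have h2 := hz p hp
    rw [← Complex.normSq_eq_norm_sq, Complex.normSq_sub, Complex.normSq_eq_norm_sq,
      Complex.normSq_eq_norm_sq, h2, hw1]
    ring
  have h2 : S * (starRingEnd ℂ) w = (‖S‖ : ℂ) := by
    rw [hw, map_div₀, Complex.conj_ofReal, mul_div_assoc', Complex.mul_conj, Complex.normSq_eq_norm_sq]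
    push_cast
    field_simp
  have h3 : ∑ p ∈ P, ‖z p - w‖ ^ 2 = 2 * P.card - 2 * ‖S‖ := by
    rw [sum_congr rfl h1, sum_sub_distrib, sum_const, nsmul_eq_mul, ← mul_sum, ← Complex.re_sum,
      ← sum_mul, ← hS, h2, Complex.ofReal_re]
    ring
  have h4 : (∑ p ∈ P, ‖z p - w‖) ^ 2 ≤ ((P.card : ℝ) / (2 * K)) ^ 2 := by
    have h6 : (∑ p ∈ P, ‖z p - w‖) ^ 2 ≤ P.card * ∑ p ∈ P, ‖z p - w‖ ^ 2 :=
      sq_sum_le_card_mul_sum_sq
    refine h6.trans ?_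
    rw [h3]
    have h7 : 2 * (P.card : ℝ) - 2 * ‖S‖ ≤ P.card / (4 * (K : ℝ) ^ 2) := by
      have h8 : (1 - 1 / (8 * (K : ℝ) ^ 2)) * P.card = P.card - P.card / (4 * (K : ℝ) ^ 2) / 2 := by
        field_simp
        ring
      rw [h8] at h
      linarith
    have h9 : ((P.card : ℝ) / (2 * K)) ^ 2 = P.card * (P.card / (4 * (K : ℝ) ^ 2)) := by
      field_simp
      ring
    rw [h9]
    exact mul_le_mul_of_nonneg_left h7 (Nat.cast_nonneg _)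
  have h5 : ∑ p ∈ P, ‖z p - w‖ ≤ (P.card : ℝ) / (2 * K) :=
    abs_le_of_sq_le_sq' h4 (by positivity) |>.2
  have h6 : ‖∑ p ∈ P, z p ^ k - P.card * w ^ k‖ ≤ P.card / 2 := by
    have h7 : ∑ p ∈ P, z p ^ k - P.card * w ^ k = ∑ p ∈ P, (z p ^ k - w ^ k) := by
      rw [sum_sub_distrib, sum_const, nsmul_eq_mul]
    rw [h7]
    calc ‖∑ p ∈ P, (z p ^ k - w ^ k)‖ ≤ ∑ p ∈ P, ‖z p ^ k - w ^ k‖ := norm_sum_le _ _
      _ ≤ ∑ p ∈ P, (k : ℝ) * ‖z p - w‖ := sum_le_sum fun p hp => Contr_pow_sub (hz p hp) hw1 k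
      _ = k * ∑ p ∈ P, ‖z p - w‖ := by rw [mul_sum]
      _ ≤ K * ((P.card : ℝ) / (2 * K)) := by
        have h8 : (k : ℝ) ≤ K := by exact_mod_cast hk
        have h9 : 0 ≤ ∑ p ∈ P, ‖z p - w‖ := sum_nonneg fun p _ => norm_nonneg _
        exact mul_le_mul h8 h5 h9 (by positivity)
      _ = P.card / 2 := by
        field_simp
  have h7 : ‖(P.card : ℂ) * w ^ k‖ = P.card := by
    rw [norm_mul, norm_pow, hw1, one_pow, mul_one, Complex.norm_natCast]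
  have h8 := norm_sub_norm_le ((P.card : ℂ) * w ^ k) (∑ p ∈ P, z p ^ k)
  rw [h7, norm_sub_rev] at h8
  linarith

/-- the power sums are bounded by the Gram matrix of a majorant -/
theorem Contr_gram {P I : Finset ℕ} (hPI : P ⊆ I) {w : ℕ → ℝ} (hw0 : ∀ n ∈ I, 0 ≤ w n)
    (hw1 : ∀ n ∈ P, 1 ≤ w n) (z : ℕ → ℂ) (K : ℕ) {B : ℝ}
    (hB0 : 0 ≤ B) (hB : ∀ k ∈ Icc 1 K, ∑ l ∈ Icc 1 K,
      ‖∑ n ∈ I, (w n : ℂ) * (z n ^ k * (starRingEnd ℂ) (z n) ^ l)‖ ≤ B) :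
    ∑ k ∈ Icc 1 K, ‖∑ p ∈ P, z p ^ k‖ ^ 2 ≤ P.card * B := by
  set S : ℕ → ℂ := fun k => ∑ p ∈ P, z p ^ k with hS
  set T : ℝ := ∑ k ∈ Icc 1 K, ‖S k‖ ^ 2 with hT
  set V : ℕ → ℕ → ℂ := fun k l => ∑ n ∈ I, (w n : ℂ) * (z n ^ k * (starRingEnd ℂ) (z n) ^ l) with hV
  set g : ℕ → ℂ := fun n => ∑ k ∈ Icc 1 K, (starRingEnd ℂ) (S k) * z n ^ k with hg
  have hT0 : 0 ≤ T := sum_nonneg fun k _ => by positivity
  have hVsym : ∀ k l, ‖V k l‖ = ‖V l k‖ := by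
    intro k l
    have h1 : V l k = (starRingEnd ℂ) (V k l) := by
      simp only [hV, map_sum, map_mul, Complex.conj_ofReal, map_pow, Complex.conj_conj]
      refine sum_congr rfl fun n _ => ?_
      ring
    rw [h1, Complex.norm_conj]
  have h1 : (T : ℂ) = ∑ p ∈ P, g p := by
    have h2 : ∀ k, ((‖S k‖ ^ 2 : ℝ) : ℂ) = (starRingEnd ℂ) (S k) * S k := by
      intro k
      rw [mul_comm, Complex.mul_conj, Complex.normSq_eq_norm_sq]
    rw [hT, Complex.ofReal_sum]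
    simp only [h2, hg]
    rw [sum_comm]
    refine sum_congr rfl fun k _ => ?_
    rw [← mul_sum]
  have h2 : T ≤ ∑ p ∈ P, ‖g p‖ := by
    have h3 : T = ‖(T : ℂ)‖ := by rw [Complex.norm_real, Real.norm_of_nonneg hT0]
    rw [h3, h1]
    exact norm_sum_le _ _
  have h3 : T ^ 2 ≤ P.card * ∑ n ∈ I, w n * ‖g n‖ ^ 2 := by
    calc T ^ 2 ≤ (∑ p ∈ P, ‖g p‖) ^ 2 := pow_le_pow_left₀ hT0 h2 2
      _ ≤ P.card * ∑ p ∈ P, ‖g p‖ ^ 2 := sq_sum_le_card_mul_sum_sq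
      _ ≤ P.card * ∑ n ∈ I, w n * ‖g n‖ ^ 2 := by
        refine mul_le_mul_of_nonneg_left ?_ (Nat.cast_nonneg _)
        calc ∑ p ∈ P, ‖g p‖ ^ 2 ≤ ∑ p ∈ P, w p * ‖g p‖ ^ 2 :=
              sum_le_sum fun p hp => le_mul_of_one_le_left (by positivity) (hw1 p hp)
          _ ≤ ∑ n ∈ I, w n * ‖g n‖ ^ 2 :=
              sum_le_sum_of_subset_of_nonneg hPI fun n hn _ => mul_nonneg (hw0 n hn) (by positivity)
  have h4 : ∑ n ∈ I, w n * ‖g n‖ ^ 2 ≤ T * B := by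
    have h5 : ((∑ n ∈ I, w n * ‖g n‖ ^ 2 : ℝ) : ℂ) =
        ∑ k ∈ Icc 1 K, ∑ l ∈ Icc 1 K, (starRingEnd ℂ) (S k) * S l * V k l := by
      have h6 : ∀ n, ((w n * ‖g n‖ ^ 2 : ℝ) : ℂ) = ∑ k ∈ Icc 1 K, ∑ l ∈ Icc 1 K,
          (starRingEnd ℂ) (S k) * S l * ((w n : ℂ) * (z n ^ k * (starRingEnd ℂ) (z n) ^ l)) := by
        intro n
        have h7 : ((‖g n‖ ^ 2 : ℝ) : ℂ) = g n * (starRingEnd ℂ) (g n) := by
          rw [Complex.mul_conj, Complex.normSq_eq_norm_sq]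
        rw [Complex.ofReal_mul, h7]
        simp only [hg, map_sum, map_mul, map_pow, Complex.conj_conj]
        rw [sum_mul_sum, mul_sum]
        refine sum_congr rfl fun k _ => ?_
        rw [mul_sum]
        refine sum_congr rfl fun l _ => ?_
        ring
      rw [Complex.ofReal_sum]
      simp only [h6]
      rw [sum_comm]
      refine sum_congr rfl fun k _ => ?_
      rw [sum_comm]
      refine sum_congr rfl fun l _ => ?_
      exact (mul_sum _ _ _).symm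
    have h8 : ∑ n ∈ I, w n * ‖g n‖ ^ 2 ≤ ∑ k ∈ Icc 1 K, ∑ l ∈ Icc 1 K, ‖S k‖ * ‖S l‖ * ‖V k l‖ := by
      have h9 : 0 ≤ ∑ n ∈ I, w n * ‖g n‖ ^ 2 :=
        sum_nonneg fun n hn => mul_nonneg (hw0 n hn) (by positivity)
      have h10 : ∑ n ∈ I, w n * ‖g n‖ ^ 2 = ‖((∑ n ∈ I, w n * ‖g n‖ ^ 2 : ℝ) : ℂ)‖ := by
        rw [Complex.norm_real, Real.norm_of_nonneg h9]
      rw [h10, h5]
      refine (norm_sum_le _ _).trans (sum_le_sum fun k _ => ?_)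
      refine (norm_sum_le _ _).trans (sum_le_sum fun l _ => ?_)
      rw [norm_mul, norm_mul, Complex.norm_conj]
    have h9 : ∑ k ∈ Icc 1 K, ∑ l ∈ Icc 1 K, ‖S k‖ * ‖S l‖ * ‖V k l‖ ≤
        ∑ k ∈ Icc 1 K, ∑ l ∈ Icc 1 K, (‖S k‖ ^ 2 / 2 * ‖V k l‖ + ‖S l‖ ^ 2 / 2 * ‖V l k‖) := by
      refine sum_le_sum fun k _ => sum_le_sum fun l _ => ?_
      rw [hVsym l k, ← add_mul]
      refine mul_le_mul_of_nonneg_right ?_ (norm_nonneg _)
      nlinarith [sq_nonneg (‖S k‖ - ‖S l‖)]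
    have h10 : ∑ k ∈ Icc 1 K, ∑ l ∈ Icc 1 K, ‖S k‖ ^ 2 / 2 * ‖V k l‖ ≤ T / 2 * B := by
      rw [hT, sum_div, sum_mul]
      refine sum_le_sum fun k hk => ?_
      rw [← mul_sum]
      exact mul_le_mul_of_nonneg_left (hB k hk) (by positivity)
    have h11 : ∑ k ∈ Icc 1 K, ∑ l ∈ Icc 1 K, ‖S l‖ ^ 2 / 2 * ‖V l k‖ ≤ T / 2 * B := by
      rw [sum_comm]
      exact h10
    simp only [sum_add_distrib] at h9
    linarith
  have h5 : T ^ 2 ≤ P.card * (T * B) :=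
    h3.trans (mul_le_mul_of_nonneg_left h4 (Nat.cast_nonneg _))
  rcases hT0.lt_or_eq with h6 | h6
  · have h7 : T * T ≤ T * (P.card * B) := by nlinarith
    exact le_of_mul_le_mul_left h7 h6
  · rw [← h6]
    positivity

end Pool.Agent.Lib.MP_3e612f_nt.MR
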