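import Mathlib

/-! Definitions for the theorem of Matomäki and Radziwiłł for the Moebius function in residue classes. -/

set_option autoImplicit false

namespace Pool.Agent.Lib.MP_3e612f_nt.MR

open Finset

/-- the Moebius function -/
noncomputable def mu (n : ℕ) : ℝ := ((ArithmeticFunction.moebius n : ℤ) : ℝ)

/-- `n^{-it}` -/
noncomputable def ph (n : ℕ) (t : ℝ) : ℂ := Complex.exp (-(((t * Real.log n : ℝ) : ℂ) * Complex.I))

/-- the Gaussian weight `exp(-(η t)^2/2)` -/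
noncomputable def gw (η t : ℝ) : ℝ := Real.exp (-((η * t) ^ 2 / 2))

/-- the trapezoid: 1 on `[-2,2]`, 0 outside `[-3,3]`, 1-Lipschitz -/
noncomputable def psi (v : ℝ) : ℝ := max 0 (min 1 (3 - |v|))

/-- `μ(n) 1_{n ≡ a} ψ(log (n/X))` -/
noncomputable def co (m : ℕ) (a : ZMod m) (X : ℝ) (n : ℕ) : ℝ :=
  if ((n : ℕ) : ZMod m) = a then mu n * psi (Real.log n - Real.log X) else 0

/-- `(1/X) ∑ μ(n) 1_{n ≡ a} ψ(log (n/X)) n^{-it}` -/
noncomputable def DD (m : ℕ) (a : ZMod m) (X t : ℝ) : ℂ :=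
  ((1 / X : ℝ) : ℂ) * ∑ n ∈ Icc 1 ⌊21 * X⌋₊, ((co m a X n : ℝ) : ℂ) * ph n t

/-- the primes `p` with `e^{v/H} < p ≤ e^{(v+1)/H}` -/
noncomputable def pw (H v : ℕ) : Finset ℕ :=
  (Icc 1 ⌊Real.exp (((v : ℝ) + 1) / H)⌋₊).filter (fun p => p.Prime ∧ Real.exp ((v : ℝ) / H) < p)

/-- `e^{-v/H} ∑ p^{-it}` over the primes `p ≡ b` of the window -/
noncomputable def QQ (m : ℕ) (b : ZMod m) (H v : ℕ) (t : ℝ) : ℂ :=
  ((Real.exp (-((v : ℝ) / H)) : ℝ) : ℂ) *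
    ∑ p ∈ (pw H v).filter (fun p => ((p : ℕ) : ZMod m) = b), ph p t

/-- `∑ 1/p` over the windows `v0 ≤ v < v1` -/
noncomputable def WW (H v0 v1 : ℕ) : ℝ := ∑ v ∈ Ico v0 v1, ∑ p ∈ pw H v, (1 : ℝ) / p

/-- the points where all prime polynomials of the level are small -/
def sm (m : ℕ) (α : ℝ) (H v0 v1 : ℕ) : Set ℝ :=
  {t | ∀ v ∈ Ico v0 v1, ∀ b : (ZMod m)ˣ, ‖QQ m (b : ZMod m) H v t‖ ≤ Real.exp (-(α * ((v : ℝ) / H)))}

end Pool.Agent.Lib.MP_3e612f_nt.MR
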