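import Pool.Agent.Lib.MP_3e612f_nt.MR.Rsum
import Pool.Agent.Lib.MP_3e612f_nt.MR.FDef

/-! Bounds for the Dirichlet series over rough numbers. -/

set_option autoImplicit false

namespace Pool.Agent.Lib.MP_3e612f_nt.MR

open Finset MeasureTheory Filter
open Pool.Agent.Lib.MP_629a14_nt.Rob

/-- Abel's inequality. -/
theorem fb_abel (w : ℕ → ℝ) (a : ℕ → ℂ) {N M : ℕ} (hNM : N ≤ M)
    (hw : ∀ k, N ≤ k → k < M → w (k + 1) ≤ w k) (hw0 : 0 ≤ w M) {B : ℝ}
    (hB : ∀ k, N ≤ k → k ≤ M → ‖∑ n ∈ Ioc N k, a n‖ ≤ B) :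
    ‖∑ n ∈ Ioc N M, ((w n : ℝ) : ℂ) * a n‖ ≤ w N * B := by
  have hid : ∀ M, N ≤ M → ∑ n ∈ Ioc N M, ((w n : ℝ) : ℂ) * a n =
      ((w M : ℝ) : ℂ) * ∑ n ∈ Ioc N M, a n +
        ∑ k ∈ Ico N M, (((w k - w (k + 1) : ℝ)) : ℂ) * ∑ n ∈ Ioc N k, a n := by
    intro M hM
    induction M, hM using Nat.le_induction with
    | base => simp
    | succ M hM ih =>
      rw [Finset.sum_Ioc_succ_top hM, Finset.sum_Ioc_succ_top hM, Finset.sum_Ico_succ_top hM, ih]
      push_cast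
      ring
  have htel : ∀ M, N ≤ M → ∑ k ∈ Ico N M, (w k - w (k + 1)) = w N - w M := by
    intro M hM
    induction M, hM using Nat.le_induction with
    | base => simp
    | succ M hM ih =>
      rw [Finset.sum_Ico_succ_top hM, ih]
      ring
  rw [hid M hNM]
  calc _ ≤ ‖((w M : ℝ) : ℂ) * ∑ n ∈ Ioc N M, a n‖ +
        ‖∑ k ∈ Ico N M, (((w k - w (k + 1) : ℝ)) : ℂ) * ∑ n ∈ Ioc N k, a n‖ := norm_add_le _ _
    _ ≤ w M * B + ∑ k ∈ Ico N M, (w k - w (k + 1)) * B := by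
        refine add_le_add ?_ ?_
        · rw [norm_mul, Complex.norm_real, Real.norm_eq_abs, abs_of_nonneg hw0]
          exact mul_le_mul_of_nonneg_left (hB M hNM le_rfl) hw0
        · refine (norm_sum_le _ _).trans (Finset.sum_le_sum fun k hk => ?_)
          rw [Finset.mem_Ico] at hk
          have h1 : 0 ≤ w k - w (k + 1) := by linarith [hw k hk.1 hk.2]
          rw [norm_mul, Complex.norm_real, Real.norm_eq_abs, abs_of_nonneg h1]
          exact mul_le_mul_of_nonneg_left (hB k hk.1 hk.2.le) h1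
    _ = w N * B := by
        rw [← Finset.sum_mul, htel M hNM]
        ring

/-- Sum over dyadic blocks. -/
theorem fb_blocks (f : ℕ → ℂ) (hf : Summable (fun n => ‖f n‖)) {z : ℕ} (hz : 2 ≤ z)
    (h0 : ∀ n, n < z → n ≠ 1 → f n = 0) {B : ℝ}
    (hB : ∀ J : ℕ, ∑ j ∈ range J, ‖∑ n ∈ Ioc (2 ^ j * z) (2 * (2 ^ j * z)), f n‖ ≤ B) :
    ‖∑' n, f n‖ ≤ ‖f 1‖ + ‖f z‖ + B := by
  have hid : ∀ J : ℕ, ∑ n ∈ range (2 ^ J * z + 1), f n =
      f 1 + f z + ∑ j ∈ range J, ∑ n ∈ Ioc (2 ^ j * z) (2 * (2 ^ j * z)), f n := by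
    intro J
    induction J with
    | zero =>
      rw [pow_zero, one_mul, Finset.sum_range_succ, Finset.sum_range_zero, add_zero]
      congr 1
      refine Finset.sum_eq_single 1 (fun n hn hn1 => h0 n (Finset.mem_range.mp hn) hn1) ?_
      intro h
      exact absurd (Finset.mem_range.mpr (by omega)) h
    | succ J ih =>
      rw [Finset.sum_range_succ _ J, ← add_assoc, ← ih, Finset.range_eq_Ico, Finset.range_eq_Ico]
      have e : Ioc (2 ^ J * z) (2 * (2 ^ J * z)) = Ico (2 ^ J * z + 1) (2 ^ (J + 1) * z + 1) := by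
        ext n
        rw [Finset.mem_Ioc, Finset.mem_Ico, pow_succ]
        constructor
        · rintro ⟨h1, h2⟩
          refine ⟨by omega, ?_⟩
          nlinarith
        · rintro ⟨h1, h2⟩
          refine ⟨by omega, ?_⟩
          nlinarith
      rw [e]
      refine (Finset.sum_Ico_consecutive f (Nat.zero_le _) ?_).symm
      have : 2 ^ J * z ≤ 2 ^ (J + 1) * z := by
        rw [pow_succ]; nlinarith [Nat.zero_le (2 ^ J * z)]
      omega
  have hle : ∀ J : ℕ, ‖∑ n ∈ range (2 ^ J * z + 1), f n‖ ≤ ‖f 1‖ + ‖f z‖ + B := by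
    intro J
    rw [hid J]
    refine (norm_add_le _ _).trans (add_le_add (norm_add_le _ _) ?_)
    exact (norm_sum_le _ _).trans (hB J)
  have ht1 : Tendsto (fun J : ℕ => 2 ^ J * z + 1) atTop atTop := by
    refine tendsto_atTop_mono (fun J => ?_) tendsto_id
    have h1 : J < 2 ^ J := Nat.lt_two_pow_self
    have h2 : 2 ^ J * 1 ≤ 2 ^ J * z := Nat.mul_le_mul_left _ (by omega)
    simp only [id]
    omega
  have ht := (hf.of_norm.hasSum.tendsto_sum_nat.comp ht1).norm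
  exact le_of_tendsto ht (Eventually.of_forall hle)

/-- Geometric sums over the dyadic scale. -/
theorem fb_geo {a L : ℝ} (ha : 0 < a) (J : ℕ) :
    ∑ j ∈ range J, Real.exp (-(a * (L + j * Real.log 2))) ≤ Real.exp (-(a * L)) * (1 + 2 / a) := by
  have hl2 : (1 / 2 : ℝ) ≤ Real.log 2 := by
    have := Real.log_two_gt_d9
    linarith
  set r : ℝ := Real.exp (-(a / 2)) with hr
  have hr0 : 0 < r := Real.exp_pos _
  have hr1 : r < 1 := by rw [hr, Real.exp_lt_one_iff]; linarith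
  have h1 : ∀ j ∈ range J, Real.exp (-(a * (L + j * Real.log 2))) ≤ Real.exp (-(a * L)) * r ^ j := by
    intro j _
    rw [hr, ← Real.exp_nat_mul, ← Real.exp_add]
    refine Real.exp_le_exp.mpr ?_
    have h2 : (j : ℝ) * (1 / 2) ≤ j * Real.log 2 :=
      mul_le_mul_of_nonneg_left hl2 (Nat.cast_nonneg j)
    nlinarith
  refine (Finset.sum_le_sum h1).trans ?_
  rw [← Finset.mul_sum]
  refine mul_le_mul_of_nonneg_left ?_ (Real.exp_pos _).le
  have h3 : ∑ j ∈ range J, r ^ j ≤ (1 - r)⁻¹ := by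
    rw [← tsum_geometric_of_lt_one hr0.le hr1]
    exact (summable_geometric_of_lt_one hr0.le hr1).sum_le_tsum _ (fun j _ => pow_nonneg hr0.le j)
  refine h3.trans ?_
  have h4 : r * (1 + a / 2) ≤ 1 := by
    have h5 : 1 + a / 2 ≤ Real.exp (a / 2) := by linarith [Real.add_one_le_exp (a / 2)]
    calc r * (1 + a / 2) ≤ r * Real.exp (a / 2) := mul_le_mul_of_nonneg_left h5 hr0.le
      _ = 1 := by rw [hr, ← Real.exp_add]; simp
  rw [inv_le_iff_one_le_mul₀ (by linarith)]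
  have h6 : (1 + 2 / a) * (1 - r) = 1 + (2 / a) * (1 - r * (1 + a / 2)) := by
    field_simp
    ring
  rw [h6]
  have : 0 ≤ (2 / a) * (1 - r * (1 + a / 2)) := by
    have : 0 < 2 / a := by positivity
    nlinarith
  linarith

private theorem fc_eq {m : ℕ} (χ : DirichletCharacter ℂ m) (z : ℕ) (σ u : ℝ) {n : ℕ}
    (hn : 1 ≤ n) : fc χ z σ n * ph n u =
      (((n : ℝ) ^ (-σ) : ℝ) : ℂ) *
        (if Rough z n then χ ((n : ℕ) : ZMod m) * ph n u else 0) := by
  unfold fc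
  by_cases h : Rough z n
  · rw [if_pos ⟨hn, h⟩, if_pos h]
    ring
  · rw [if_neg (fun h' => h h'.2), if_neg h, zero_mul, mul_zero]

theorem fb_blockF {m : ℕ} (χ : DirichletCharacter ℂ m) {z N : ℕ} (hN : 1 ≤ N) {σ u B : ℝ}
    (hσ : 0 ≤ σ)
    (hB : ∀ k, N ≤ k → k ≤ 2 * N →
      ‖∑ n ∈ (Ioc N k).filter (fun n => Rough z n), χ ((n : ℕ) : ZMod m) * ph n u‖ ≤ B) :
    ‖∑ n ∈ Ioc N (2 * N), fc χ z σ n * ph n u‖ ≤ (N : ℝ) ^ (-σ) * B := by
  have e : ∑ n ∈ Ioc N (2 * N), fc χ z σ n * ph n u =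
      ∑ n ∈ Ioc N (2 * N), (((n : ℝ) ^ (-σ) : ℝ) : ℂ) *
        (if Rough z n then χ ((n : ℕ) : ZMod m) * ph n u else 0) :=
    Finset.sum_congr rfl fun n hn => fc_eq χ z σ u (by rw [Finset.mem_Ioc] at hn; omega)
  rw [e]
  refine fb_abel (fun n : ℕ => (n : ℝ) ^ (-σ)) _ (by omega) (fun k hk _ => ?_)
    (Real.rpow_nonneg (Nat.cast_nonneg _) _) (fun k hk1 hk2 => ?_)
  · refine Real.rpow_le_rpow_of_nonpos ?_ ?_ (by linarith)
    · exact_mod_cast (by omega : 0 < k)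
    · push_cast; linarith
  · rw [← Finset.sum_filter]
    exact hB k hk1 hk2

theorem fb_blockG {m : ℕ} (χ : DirichletCharacter ℂ m) {z N : ℕ} (hN : 3 ≤ N) {σ u B : ℝ}
    (hσ : 1 ≤ σ)
    (hB : ∀ k, N ≤ k → k ≤ 2 * N →
      ‖∑ n ∈ (Ioc N k).filter (fun n => Rough z n), χ ((n : ℕ) : ZMod m) * ph n u‖ ≤ B) :
    ‖∑ n ∈ Ioc N (2 * N), gc χ z σ n * ph n u‖ ≤ Real.log N * ((N : ℝ) ^ (-σ) * B) := by
  have e : ∑ n ∈ Ioc N (2 * N), gc χ z σ n * ph n u =
      ∑ n ∈ Ioc N (2 * N), ((Real.log n * (n : ℝ) ^ (-σ) : ℝ) : ℂ) *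
        (if Rough z n then χ ((n : ℕ) : ZMod m) * ph n u else 0) := by
    refine Finset.sum_congr rfl fun n hn => ?_
    have h1 := fc_eq χ z σ u (n := n) (by rw [Finset.mem_Ioc] at hn; omega)
    unfold gc
    rw [mul_right_comm, h1]
    push_cast
    ring
  rw [e, ← mul_assoc]
  refine fb_abel (fun n : ℕ => Real.log n * (n : ℝ) ^ (-σ)) _ (by omega) (fun k hk _ => ?_)
    (mul_nonneg (Real.log_natCast_nonneg _) (Real.rpow_nonneg (Nat.cast_nonneg _) _))
    (fun k hk1 hk2 => ?_)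
  · have h3 : (3 : ℝ) ≤ k := by exact_mod_cast (by omega : 3 ≤ k)
    have he : Real.exp σ⁻¹ ≤ 3 := by
      have h4 : σ⁻¹ ≤ 1 := inv_le_one_of_one_le₀ hσ
      have h5 := Real.exp_one_lt_d9
      have h6 := Real.exp_le_exp.mpr h4
      linarith
    have h7 := Real.log_div_self_rpow_antitoneOn (a := σ) (by linarith)
      (show (k : ℝ) ∈ Set.Ici (Real.exp σ⁻¹) from he.trans h3)
      (show ((k : ℝ) + 1) ∈ Set.Ici (Real.exp σ⁻¹) from
        (he.trans h3).trans (by linarith)) (by linarith)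
    simp only at h7
    show Real.log ((k + 1 : ℕ) : ℝ) * ((k + 1 : ℕ) : ℝ) ^ (-σ) ≤ Real.log k * (k : ℝ) ^ (-σ)
    rw [Real.rpow_neg (by positivity), Real.rpow_neg (by positivity), ← div_eq_mul_inv,
      ← div_eq_mul_inv]
    push_cast
    exact h7
  · rw [← Finset.sum_filter]
    exact hB k hk1 hk2

theorem fb_xexp {a : ℝ} (ha : 0 < a) (x : ℝ) :
    x * Real.exp (-(a * x)) ≤ 2 / a * Real.exp (-(a / 2 * x)) := by
  have h1 : a / 2 * x ≤ Real.exp (a / 2 * x) := by linarith [Real.add_one_le_exp (a / 2 * x)]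
  have h2 : Real.exp (-(a * x)) = Real.exp (-(a / 2 * x)) * Real.exp (-(a / 2 * x)) := by
    rw [← Real.exp_add]; congr 1; ring
  have h3 : Real.exp (a / 2 * x) * Real.exp (-(a / 2 * x)) = 1 := by
    rw [← Real.exp_add]; simp
  have h4 : a / 2 * x * Real.exp (-(a / 2 * x)) ≤ 1 := by
    rw [← h3]; exact mul_le_mul_of_nonneg_right h1 (Real.exp_pos _).le
  have h5 : x * Real.exp (-(a / 2 * x)) ≤ 2 / a := by
    rw [le_div_iff₀ ha]
    linarith
  rw [h2, ← mul_assoc]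
  exact mul_le_mul_of_nonneg_right h5 (Real.exp_pos _).le

/-- The scalar bound of one block. -/
theorem fb_scal {C0 c0 C2 c2 L au s : ℝ} {N : ℕ} (hN : 1 ≤ N) (hC0 : 0 ≤ C0) (hC2 : 0 ≤ C2)
    (hL : 0 < L) (hau : 0 < au) (hs : 0 ≤ s) :
    (N : ℝ) ^ (-(1 + s)) * (C0 * (N / L) * (Real.exp (-(c0 * (Real.log N / L))) + 1 / au) +
      C2 * (N : ℝ) ^ (1 - c2)) ≤
    C0 / L * Real.exp (-(c0 / L * Real.log N)) + C0 / (L * au) * Real.exp (-(s * Real.log N)) +
      C2 * Real.exp (-(c2 * Real.log N)) := by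
  have hN0 : (0 : ℝ) < N := by exact_mod_cast hN
  set x : ℝ := Real.log N with hx
  have hx0 : 0 ≤ x := Real.log_natCast_nonneg N
  have eN : (N : ℝ) = Real.exp x := (Real.exp_log hN0).symm
  have e1 : (N : ℝ) ^ (-(1 + s)) = Real.exp (-(1 + s) * x) := by
    rw [Real.rpow_def_of_pos hN0, ← hx]; congr 1; ring
  have e2 : (N : ℝ) ^ (1 - c2) = Real.exp ((1 - c2) * x) := by
    rw [Real.rpow_def_of_pos hN0, ← hx]; congr 1; ring
  rw [e1, e2]
  have e3 : Real.exp (-(1 + s) * x) * (C0 * ((N : ℝ) / L) *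
      (Real.exp (-(c0 * (x / L))) + 1 / au) + C2 * Real.exp ((1 - c2) * x)) =
      C0 / L * (Real.exp (-(s * x)) * Real.exp (-(c0 / L * x))) +
        C0 / (L * au) * Real.exp (-(s * x)) +
        C2 * (Real.exp (-(s * x)) * Real.exp (-(c2 * x))) := by
    have h1 : Real.exp (-(1 + s) * x) * (N : ℝ) = Real.exp (-(s * x)) := by
      rw [eN, ← Real.exp_add]; congr 1; ring
    have h2 : Real.exp (-(1 + s) * x) * Real.exp ((1 - c2) * x) =
        Real.exp (-(s * x)) * Real.exp (-(c2 * x)) := by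
      rw [← Real.exp_add, ← Real.exp_add]; congr 1; ring
    have h3 : -(c0 * (x / L)) = -(c0 / L * x) := by ring
    rw [h3]
    calc _ = C0 / L * ((Real.exp (-(1 + s) * x) * (N : ℝ)) *
          (Real.exp (-(c0 / L * x)) + 1 / au)) +
          C2 * (Real.exp (-(1 + s) * x) * Real.exp ((1 - c2) * x)) := by ring
      _ = _ := by
        rw [h1, h2]
        field_simp
  rw [e3]
  have hsx : Real.exp (-(s * x)) ≤ 1 := by
    rw [Real.exp_le_one_iff]
    have := mul_nonneg hs hx0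
    linarith
  have h5 : Real.exp (-(s * x)) * Real.exp (-(c0 / L * x)) ≤ Real.exp (-(c0 / L * x)) := by
    have := mul_le_mul_of_nonneg_right hsx (Real.exp_pos (-(c0 / L * x))).le
    linarith
  have h6 : Real.exp (-(s * x)) * Real.exp (-(c2 * x)) ≤ Real.exp (-(c2 * x)) := by
    have := mul_le_mul_of_nonneg_right hsx (Real.exp_pos (-(c2 * x))).le
    linarith
  have h7 : 0 ≤ C0 / L := by positivity
  have h8 := mul_le_mul_of_nonneg_left h5 h7
  have h9 := mul_le_mul_of_nonneg_left h6 hC2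
  linarith

private theorem ph_norm (n : ℕ) (t : ℝ) : ‖ph n t‖ = 1 := by
  unfold ph
  have : -(((t * Real.log n : ℝ) : ℂ) * Complex.I) = ((-(t * Real.log n) : ℝ) : ℂ) * Complex.I := by
    push_cast; ring
  rw [this, Complex.norm_exp_ofReal_mul_I]

private theorem fc_zero {m : ℕ} (χ : DirichletCharacter ℂ m) {z n : ℕ} (σ : ℝ) (hn : n < z)
    (h1 : n ≠ 1) : fc χ z σ n = 0 := by
  unfold fc
  rw [if_neg]
  rintro ⟨h2, h3⟩
  have h4 := h3 n.minFac (Nat.minFac_prime h1) (Nat.minFac_dvd n)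
  have h5 := Nat.minFac_le (n := n) (by omega)
  omega

private theorem fc_norm_le {m : ℕ} (χ : DirichletCharacter ℂ m) (z : ℕ) (σ : ℝ) (n : ℕ) :
    ‖fc χ z σ n‖ ≤ (n : ℝ) ^ (-σ) := by
  unfold fc
  have h0 : (0 : ℝ) ≤ (n : ℝ) ^ (-σ) := Real.rpow_nonneg (Nat.cast_nonneg _) _
  split_ifs with h
  · rw [norm_mul, Complex.norm_real, Real.norm_eq_abs, abs_of_nonneg h0]
    have := χ.norm_le_one ((n : ℕ) : ZMod m)
    calc _ ≤ 1 * (n : ℝ) ^ (-σ) := mul_le_mul_of_nonneg_right this h0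
      _ = _ := one_mul _
  · rw [norm_zero]; exact h0

private theorem F_tail {m : ℕ} (χ : DirichletCharacter ℂ m) {z : ℕ} (hz : 2 ≤ z) {σ u B : ℝ}
    (hσ : 1 < σ)
    (hB : ∀ J : ℕ, ∑ j ∈ range J,
      ‖∑ n ∈ Ioc (2 ^ j * z) (2 * (2 ^ j * z)), fc χ z σ n * ph n u‖ ≤ B) :
    ‖FF χ z σ u‖ ≤ 2 + B := by
  have hs : Summable (fun n => ‖fc χ z σ n * ph n u‖) := by
    refine (fc_summable χ z σ hσ).congr fun n => ?_
    rw [norm_mul, ph_norm, mul_one]
  have h1 := fb_blocks (fun n => fc χ z σ n * ph n u) hs hz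
    (fun n hn hn1 => by show fc χ z σ n * ph n u = 0; rw [fc_zero χ σ hn hn1, zero_mul]) hB
  have h2 : ∀ n : ℕ, 1 ≤ n → ‖fc χ z σ n * ph n u‖ ≤ 1 := by
    intro n hn
    rw [norm_mul, ph_norm, mul_one]
    refine (fc_norm_le χ z σ n).trans ?_
    exact Real.rpow_le_one_of_one_le_of_nonpos (by exact_mod_cast hn) (by linarith)
  have h3 := h2 1 le_rfl
  have h4 := h2 z (by omega)
  unfold FF
  refine h1.trans ?_
  show ‖fc χ z σ 1 * ph 1 u‖ + ‖fc χ z σ z * ph z u‖ + B ≤ 2 + B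
  linarith

private theorem G_tail {m : ℕ} (χ : DirichletCharacter ℂ m) {z : ℕ} (hz : 2 ≤ z) {σ u B : ℝ}
    (hσ : 1 < σ)
    (hB : ∀ J : ℕ, ∑ j ∈ range J,
      ‖∑ n ∈ Ioc (2 ^ j * z) (2 * (2 ^ j * z)), gc χ z σ n * ph n u‖ ≤ B) :
    ‖GG χ z σ u‖ ≤ 1 + B := by
  have hs : Summable (fun n => ‖gc χ z σ n * ph n u‖) := by
    refine (gc_summable χ z σ hσ).congr fun n => ?_
    rw [norm_mul, ph_norm, mul_one]
  have h1 := fb_blocks (fun n => gc χ z σ n * ph n u) hs hz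
    (fun n hn hn1 => by
      show gc χ z σ n * ph n u = 0
      unfold gc
      rw [fc_zero χ σ hn hn1, zero_mul, zero_mul]) hB
  have h3 : ‖gc χ z σ 1 * ph 1 u‖ = 0 := by
    unfold gc
    simp
  have h4 : ‖gc χ z σ z * ph z u‖ ≤ 1 := by
    have hz0 : (0 : ℝ) < z := by exact_mod_cast (by omega : 0 < z)
    have hl0 : 0 ≤ Real.log z := Real.log_natCast_nonneg z
    rw [norm_mul, ph_norm, mul_one]
    unfold gc
    rw [norm_mul, Complex.norm_real, Real.norm_eq_abs, abs_of_nonneg hl0]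
    have h5 : (z : ℝ) ^ (-σ) ≤ (z : ℝ)⁻¹ := by
      rw [← Real.rpow_neg_one]
      exact Real.rpow_le_rpow_of_exponent_le (by exact_mod_cast (by omega : 1 ≤ z)) (by linarith)
    have h6 := (fc_norm_le χ z σ z).trans h5
    have h7 : Real.log z ≤ z := (Real.log_le_sub_one_of_pos hz0).trans (by linarith)
    calc _ ≤ (z : ℝ)⁻¹ * z := mul_le_mul h6 h7 hl0 (by positivity)
      _ = 1 := inv_mul_cancel₀ hz0.ne'
  unfold GG
  refine h1.trans ?_
  show ‖gc χ z σ 1 * ph 1 u‖ + ‖gc χ z σ z * ph z u‖ + B ≤ 1 + B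
  rw [h3]
  linarith

private theorem log_block {z : ℕ} (hz : 2 ≤ z) (j : ℕ) :
    Real.log ((2 ^ j * z : ℕ) : ℝ) = Real.log z + j * Real.log 2 := by
  have hz0 : (0 : ℝ) < z := by exact_mod_cast (by omega : 0 < z)
  push_cast
  rw [Real.log_mul (by positivity) hz0.ne', Real.log_pow]
  ring

/-- The facts about `z = ⌊X^δ⌋` that are used. -/
private theorem z_facts {δ K X : ℝ} (hδ : 0 < δ) (hK : 2 ≤ K) (hX : Real.exp (2 * K / δ) ≤ X) :
    2 * K ≤ δ * Real.log X ∧ 3 ≤ ⌊X ^ δ⌋₊ ∧ δ * Real.log X / 2 ≤ Real.log (⌊X ^ δ⌋₊ : ℝ) ∧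
      Real.log (⌊X ^ δ⌋₊ : ℝ) ≤ δ * Real.log X := by
  have hX0 : 0 < X := (Real.exp_pos _).trans_le hX
  have h1 : 2 * K / δ ≤ Real.log X := (Real.le_log_iff_exp_le hX0).mpr hX
  have h2 : 2 * K ≤ δ * Real.log X := by
    rw [div_le_iff₀ hδ] at h1
    linarith
  set M : ℝ := δ * Real.log X with hM
  have e1 : X ^ δ = Real.exp M := by
    rw [Real.rpow_def_of_pos hX0, hM]; congr 1; ring
  have e2 : Real.exp M = Real.exp (M / 2) * Real.exp (M / 2) := by
    rw [← Real.exp_add]; congr 1; ring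
  have h3 : (3 : ℝ) < Real.exp (M / 2) := by
    have h4 : (2 : ℝ) ≤ M / 2 := by linarith
    have h5 : Real.exp 2 ≤ Real.exp (M / 2) := Real.exp_le_exp.mpr h4
    have h6 : Real.exp 2 = Real.exp 1 * Real.exp 1 := by rw [← Real.exp_add]; norm_num
    have h7 := Real.exp_one_gt_d9
    nlinarith
  have h8 : Real.exp (M / 2) ≤ (⌊X ^ δ⌋₊ : ℝ) := by
    have h9 := Nat.sub_one_lt_floor (X ^ δ)
    rw [e1, e2] at h9
    rw [e1, e2]
    nlinarith
  have hz3 : (3 : ℝ) < (⌊X ^ δ⌋₊ : ℝ) := h3.trans_le h8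
  have hz0 : (0 : ℝ) < (⌊X ^ δ⌋₊ : ℝ) := by linarith
  refine ⟨h2, ?_, ?_, ?_⟩
  · exact_mod_cast hz3.le
  · exact (Real.le_log_iff_exp_le hz0).mpr h8
  · rw [Real.log_le_iff_le_exp hz0, ← e1]
    exact Nat.floor_le (Real.rpow_nonneg hX0.le _)

/-- Proof. Here `z = ⌊X^δ⌋`, `L = log z`. Dyadic decomposition of the `n ≥ z`, `n ∈ (N, 2N]`, `N = 2^j z` (shift by one), partial
summation with `rsum` (`κ` small in terms of `δ`, so that `|u| ≤ X^2 ≤ N^{1/κ}`): the block is at most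
`C N^{-(σ-1)} [(1/L)(e^{-c log N/L} + 1/|u|) + C₂ N^{-c₂}]`, with an additional factor `log N` for `G`. Sums over the blocks, with
`σ - 1 ≥ 1/log X`: `∑ (1/L) e^{-c log N/L} ≤ C`, `∑ (1/(L|u|)) N^{-1/log X} ≤ C log X/(L |u|) ≤ C δ^{-1} δ^2`,
`∑ N^{-c₂}` small for large `X`; and for `G`: `C L`, `C (log X)^2/(L|u|) ≤ C L`, small. The term `n = 1` contributes `1` to `F`. -/
theorem fbd (m : ℕ) [NeZero m] : ∃ C : ℝ, 1 ≤ C ∧ ∀ δ : ℝ, 0 < δ → δ ≤ 1 / 4 → ∃ X₀ : ℝ, ∀ X : ℝ, X₀ ≤ X →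
    ∀ (χ : DirichletCharacter ℂ m) (σ u : ℝ), 1 + 1 / Real.log X ≤ σ → σ ≤ 2 → 1 / δ ^ 2 ≤ |u| → |u| ≤ X ^ 2 →
      ‖FF χ ⌊X ^ δ⌋₊ σ u‖ ≤ C ∧ ‖GG χ ⌊X ^ δ⌋₊ σ u‖ ≤ C * (δ * Real.log X) := by
  obtain ⟨C0, c0, hC0, hc0, hrs⟩ := rsum m
  refine ⟨3 + C0 + 2 * C0 / c0 + 2 * C0 + 2 * C0 / c0 * (1 + 4 / c0) + 20 * C0, ?_, ?_⟩
  · have h1 : 0 ≤ 2 * C0 / c0 := by positivity
    have h2 : 0 ≤ 2 * C0 / c0 * (1 + 4 / c0) := by positivity
    linarith
  intro δ hδ hδ4
  obtain ⟨c2, C2, hc2, hc2', hC2, hr⟩ := hrs (δ / 4) (by positivity)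
  set K : ℝ := 2 + C2 * (1 + 2 / c2) / c2 + 4 * C2 * (1 + 4 / c2) / c2 ^ 2 with hK
  have hK1 : 0 ≤ C2 * (1 + 2 / c2) / c2 := by positivity
  have hK2 : 0 ≤ 4 * C2 * (1 + 4 / c2) / c2 ^ 2 := by positivity
  refine ⟨Real.exp (2 * K / δ), fun X hX χ σ u hσ1 hσ2 hu1 hu2 => ?_⟩
  obtain ⟨hM, hz3, hL1, hL2⟩ := z_facts hδ (by linarith) hX
  have hX0 : 0 < X := (Real.exp_pos _).trans_le hX
  set z : ℕ := ⌊X ^ δ⌋₊ with hz
  set L : ℝ := Real.log z with hL
  set M : ℝ := δ * Real.log X with hMdef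
  have hM4 : 4 ≤ M := by linarith
  have hLK : K ≤ L := by linarith
  have hL0 : 0 < L := by linarith
  have hLone : 1 ≤ L := by linarith
  have hlX : Real.log X = M / δ := by rw [hMdef]; field_simp
  have hlX0 : 0 < Real.log X := by rw [hlX]; positivity
  set s : ℝ := σ - 1 with hs
  have hσs : σ = 1 + s := by rw [hs]; ring
  have hs1 : δ / M ≤ s := by
    have : δ / M = 1 / Real.log X := by rw [hlX]; field_simp
    rw [this, hs]; linarith
  have hs0 : 0 < s := lt_of_lt_of_le (by positivity) hs1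
  have hs2 : s ≤ 1 := by rw [hs]; linarith
  have hsinv : 1 / s ≤ M / δ := by
    rw [div_le_div_iff₀ hs0 hδ]
    rw [div_le_iff₀ (by linarith)] at hs1
    linarith
  set au : ℝ := |u| with hau
  have hau16 : 16 ≤ au := by
    refine le_trans ?_ hu1
    rw [le_div_iff₀ (by positivity)]
    nlinarith
  have hau0 : 0 < au := by linarith
  have hauinv : 1 / au ≤ δ ^ 2 := by
    rw [div_le_iff₀ hau0]
    rw [div_le_iff₀ (by positivity)] at hu1
    linarith
  have hz2 : 2 ≤ z := by omega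
  have hNz : ∀ j : ℕ, z ≤ 2 ^ j * z := fun j => Nat.le_mul_of_pos_left z (by positivity)
  have hu3 : ∀ j : ℕ, |u| ≤ ((2 ^ j * z : ℕ) : ℝ) ^ (1 / (δ / 4)) := by
    intro j
    refine hu2.trans ?_
    have h1 : (z : ℝ) ≤ ((2 ^ j * z : ℕ) : ℝ) := by exact_mod_cast hNz j
    have hz0 : (0 : ℝ) < z := by exact_mod_cast (by omega : 0 < z)
    refine le_trans ?_ (Real.rpow_le_rpow hz0.le h1 (by positivity))
    have h2 : X ^ 2 = Real.exp (2 * Real.log X) := by
      rw [mul_comm, Real.exp_mul, Real.exp_log hX0]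
      norm_cast
    rw [Real.rpow_def_of_pos hz0, h2]
    refine Real.exp_le_exp.mpr ?_
    rw [← hL, hlX]
    have h3 : L * (1 / (δ / 4)) = 4 * L / δ := by field_simp
    rw [h3, ← mul_div_assoc, div_le_div_iff_of_pos_right hδ]
    linarith
  -- the block bounds
  have hblk : ∀ j : ℕ, ∀ k, 2 ^ j * z ≤ k → k ≤ 2 * (2 ^ j * z) →
      ‖∑ n ∈ (Ioc (2 ^ j * z) k).filter (fun n => Rough z n), χ ((n : ℕ) : ZMod m) * ph n u‖ ≤
        C0 * (((2 ^ j * z : ℕ) : ℝ) / L) *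
          (Real.exp (-(c0 * (Real.log ((2 ^ j * z : ℕ) : ℝ) / L))) + 1 / au) +
          C2 * ((2 ^ j * z : ℕ) : ℝ) ^ (1 - c2) := by
    intro j k hk1 hk2
    exact hr χ z (2 ^ j * z) k u hz2 (hNz j) hk1 hk2 (by linarith) (hu3 j)
  have hscal : ∀ j : ℕ, ((2 ^ j * z : ℕ) : ℝ) ^ (-σ) *
      (C0 * (((2 ^ j * z : ℕ) : ℝ) / L) *
          (Real.exp (-(c0 * (Real.log ((2 ^ j * z : ℕ) : ℝ) / L))) + 1 / au) +
          C2 * ((2 ^ j * z : ℕ) : ℝ) ^ (1 - c2)) ≤
      C0 / L * Real.exp (-(c0 / L * (L + j * Real.log 2))) +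
        C0 / (L * au) * Real.exp (-(s * (L + j * Real.log 2))) +
        C2 * Real.exp (-(c2 * (L + j * Real.log 2))) := by
    intro j
    have h1 := fb_scal (C0 := C0) (c0 := c0) (C2 := C2) (c2 := c2) (L := L) (au := au) (s := s)
      (N := 2 ^ j * z) (by have := hNz j; omega) hC0.le hC2.le hL0 hau0 hs0.le
    rw [← hσs] at h1
    have h2 := log_block hz2 j
    rw [h2] at h1
    rw [h2]
    exact h1
  have hexp : ∀ y : ℝ, 0 < y → Real.exp (-y) ≤ 1 / y := by
    intro y hy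
    rw [Real.exp_neg, ← one_div]
    exact one_div_le_one_div_of_le hy (by linarith [Real.add_one_le_exp y])
  have hexp1 : ∀ a : ℝ, 0 ≤ a → Real.exp (-(a * L)) ≤ 1 := by
    intro a ha
    rw [Real.exp_le_one_iff]
    have := mul_nonneg ha hL0.le
    linarith
  have hc2L : ∀ a : ℝ, 0 < a → ∀ D : ℝ, 0 ≤ D → D / a ≤ L → D * Real.exp (-(a * L)) ≤ 1 := by
    intro a ha D hD hDL
    have h1 := mul_le_mul_of_nonneg_left (hexp (a * L) (by positivity)) hD
    refine h1.trans ?_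
    rw [mul_one_div, div_le_one (by positivity)]
    rw [div_le_iff₀ ha] at hDL
    linarith
  constructor
  · -- the bound for `F`
    have hB : ∀ J : ℕ, ∑ j ∈ range J,
        ‖∑ n ∈ Ioc (2 ^ j * z) (2 * (2 ^ j * z)), fc χ z σ n * ph n u‖ ≤
          (C0 + 2 * C0 / c0) + 2 * C0 + 1 := by
      intro J
      have h1 : ∀ j ∈ range J, ‖∑ n ∈ Ioc (2 ^ j * z) (2 * (2 ^ j * z)), fc χ z σ n * ph n u‖ ≤
          C0 / L * Real.exp (-(c0 / L * (L + j * Real.log 2))) +
        C0 / (L * au) * Real.exp (-(s * (L + j * Real.log 2))) +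
        C2 * Real.exp (-(c2 * (L + j * Real.log 2))) := fun j _ =>
        (fb_blockF χ (by have := hNz j; omega) (by linarith) (hblk j)).trans (hscal j)
      refine (Finset.sum_le_sum h1).trans ?_
      rw [Finset.sum_add_distrib, Finset.sum_add_distrib, ← Finset.mul_sum, ← Finset.mul_sum,
        ← Finset.mul_sum]
      have g1 := mul_le_mul_of_nonneg_left (fb_geo (a := c0 / L) (L := L) (by positivity) J)
        (show 0 ≤ C0 / L by positivity)
      have g2 := mul_le_mul_of_nonneg_left (fb_geo (a := s) (L := L) hs0 J)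
        (show 0 ≤ C0 / (L * au) by positivity)
      have g3 := mul_le_mul_of_nonneg_left (fb_geo (a := c2) (L := L) hc2 J) hC2.le
      have k1 : C0 / L * (Real.exp (-(c0 / L * L)) * (1 + 2 / (c0 / L))) ≤ C0 + 2 * C0 / c0 := by
        have h2 := hexp1 (c0 / L) (by positivity)
        have h3 : C0 / L * (Real.exp (-(c0 / L * L)) * (1 + 2 / (c0 / L))) ≤
            C0 / L * (1 * (1 + 2 / (c0 / L))) := by gcongr
        refine h3.trans ?_
        have h4 : C0 / L * (1 * (1 + 2 / (c0 / L))) = C0 / L + 2 * C0 / c0 := by field_simp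
        have h5 : C0 / L ≤ C0 := div_le_self hC0.le hLone
        linarith
      have k2 : C0 / (L * au) * (Real.exp (-(s * L)) * (1 + 2 / s)) ≤ 2 * C0 := by
        have h2 := hexp1 s hs0.le
        have h3 : C0 / (L * au) * (Real.exp (-(s * L)) * (1 + 2 / s)) ≤
            C0 / (L * au) * (1 * (1 + 2 / s)) := by gcongr
        refine h3.trans ?_
        have h4 : C0 / (L * au) * (1 * (1 + 2 / s)) = C0 * ((1 + 2 * (1 / s)) / L * (1 / au)) := by
          field_simp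
        rw [h4]
        have h5 : (1 + 2 * (1 / s)) / L ≤ (1 + 2 * (M / δ)) / (M / 2) := by
          gcongr
        have h6 : (1 + 2 * (1 / s)) / L * (1 / au) ≤ (1 + 2 * (M / δ)) / (M / 2) * δ ^ 2 := by
          gcongr
        have h7 : (1 + 2 * (M / δ)) / (M / 2) * δ ^ 2 = 2 * δ ^ 2 / M + 4 * δ := by
          field_simp
          ring
        have h8 : 2 * δ ^ 2 / M ≤ 1 := by
          rw [div_le_one (by linarith)]
          nlinarith
        have h9 : (1 + 2 * (1 / s)) / L * (1 / au) ≤ 2 := by linarith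
        nlinarith
      have k3 : C2 * (Real.exp (-(c2 * L)) * (1 + 2 / c2)) ≤ 1 := by
        have h2 := hc2L c2 hc2 (C2 * (1 + 2 / c2)) (by positivity) (by linarith)
        linarith
      linarith
    have hF := F_tail χ hz2 (by linarith) hB
    refine hF.trans ?_
    have h2 : 0 ≤ 2 * C0 / c0 * (1 + 4 / c0) := by positivity
    linarith
  · -- the bound for `G`
    have hB : ∀ J : ℕ, ∑ j ∈ range J,
        ‖∑ n ∈ Ioc (2 ^ j * z) (2 * (2 ^ j * z)), gc χ z σ n * ph n u‖ ≤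
          2 * C0 / c0 * (1 + 4 / c0) * M + 20 * C0 * M + 1 := by
      intro J
      have h1 : ∀ j ∈ range J, ‖∑ n ∈ Ioc (2 ^ j * z) (2 * (2 ^ j * z)), gc χ z σ n * ph n u‖ ≤
          C0 / L * (2 / (c0 / L) * Real.exp (-(c0 / L / 2 * (L + j * Real.log 2)))) +
        C0 / (L * au) * (2 / s * Real.exp (-(s / 2 * (L + j * Real.log 2)))) +
        C2 * (2 / c2 * Real.exp (-(c2 / 2 * (L + j * Real.log 2)))) := by
        intro j _
        have h2 := fb_blockG χ (N := 2 ^ j * z) (by have := hNz j; omega) (σ := σ) (u := u)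
          (by linarith) (hblk j)
        refine h2.trans ?_
        have hx0 : 0 ≤ Real.log ((2 ^ j * z : ℕ) : ℝ) := Real.log_natCast_nonneg _
        refine (mul_le_mul_of_nonneg_left (hscal j) hx0).trans ?_
        rw [log_block hz2 j, ← hL]
        have e1 := mul_le_mul_of_nonneg_left
          (fb_xexp (a := c0 / L) (by positivity) (L + j * Real.log 2))
          (show 0 ≤ C0 / L by positivity)
        have e2 := mul_le_mul_of_nonneg_left (fb_xexp (a := s) hs0 (L + j * Real.log 2))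
          (show 0 ≤ C0 / (L * au) by positivity)
        have e3 := mul_le_mul_of_nonneg_left (fb_xexp (a := c2) hc2 (L + j * Real.log 2)) hC2.le
        linarith
      refine (Finset.sum_le_sum h1).trans ?_
      rw [Finset.sum_add_distrib, Finset.sum_add_distrib, ← Finset.mul_sum, ← Finset.mul_sum,
        ← Finset.mul_sum, ← Finset.mul_sum, ← Finset.mul_sum, ← Finset.mul_sum]
      have g1 := mul_le_mul_of_nonneg_left (mul_le_mul_of_nonneg_left
        (fb_geo (a := c0 / L / 2) (L := L) (by positivity) J)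
        (show 0 ≤ 2 / (c0 / L) by positivity)) (show 0 ≤ C0 / L by positivity)
      have g2 := mul_le_mul_of_nonneg_left (mul_le_mul_of_nonneg_left
        (fb_geo (a := s / 2) (L := L) (by positivity) J)
        (show 0 ≤ 2 / s by positivity)) (show 0 ≤ C0 / (L * au) by positivity)
      have g3 := mul_le_mul_of_nonneg_left (mul_le_mul_of_nonneg_left
        (fb_geo (a := c2 / 2) (L := L) (by positivity) J)
        (show 0 ≤ 2 / c2 by positivity)) hC2.le
      have k1 : C0 / L * (2 / (c0 / L) * (Real.exp (-(c0 / L / 2 * L)) *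
          (1 + 2 / (c0 / L / 2)))) ≤ 2 * C0 / c0 * (1 + 4 / c0) * M := by
        have h2 := hexp1 (c0 / L / 2) (by positivity)
        have h3 : C0 / L * (2 / (c0 / L) * (Real.exp (-(c0 / L / 2 * L)) *
          (1 + 2 / (c0 / L / 2)))) ≤
            C0 / L * (2 / (c0 / L) * (1 * (1 + 2 / (c0 / L / 2)))) := by gcongr
        refine h3.trans ?_
        have h4 : C0 / L * (2 / (c0 / L) * (1 * (1 + 2 / (c0 / L / 2)))) =
            2 * C0 / c0 * (1 + 4 / c0 * L) := by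
          field_simp
          ring
        rw [h4, mul_assoc (2 * C0 / c0)]
        have h6 : 1 + 4 / c0 * L ≤ (1 + 4 / c0) * M := by
          have h7 : 4 / c0 * L ≤ 4 / c0 * M := by gcongr
          linarith
        exact mul_le_mul_of_nonneg_left h6 (by positivity)
      have k2 : C0 / (L * au) * (2 / s * (Real.exp (-(s / 2 * L)) * (1 + 2 / (s / 2)))) ≤
          20 * C0 * M := by
        have h2 := hexp1 (s / 2) (by positivity)
        have h3 : C0 / (L * au) * (2 / s * (Real.exp (-(s / 2 * L)) * (1 + 2 / (s / 2)))) ≤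
            C0 / (L * au) * (2 / s * (1 * (5 * (1 / s)))) := by
          have h31 : 1 + 2 / (s / 2) ≤ 5 * (1 / s) := by
            have h32 : 1 ≤ 1 / s := by rw [le_div_iff₀ hs0]; linarith
            have h33 : 2 / (s / 2) = 4 * (1 / s) := by field_simp; ring
            linarith
          gcongr
        refine h3.trans ?_
        have h4 : C0 / (L * au) * (2 / s * (1 * (5 * (1 / s)))) =
            C0 * (10 * (1 / s) ^ 2 / L * (1 / au)) := by
          field_simp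
          ring
        rw [h4]
        have h6 : 10 * (1 / s) ^ 2 / L * (1 / au) ≤ 10 * (M / δ) ^ 2 / (M / 2) * δ ^ 2 := by
          have : 0 ≤ 1 / s := by positivity
          gcongr
        have h7 : 10 * (M / δ) ^ 2 / (M / 2) * δ ^ 2 = 20 * M := by
          field_simp
          ring
        rw [h7] at h6
        have := mul_le_mul_of_nonneg_left h6 hC0.le
        linarith
      have k3 : C2 * (2 / c2 * (Real.exp (-(c2 / 2 * L)) * (1 + 2 / (c2 / 2)))) ≤ 1 := by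
        have h2 := hc2L (c2 / 2) (by positivity) (C2 * (2 / c2) * (1 + 2 / (c2 / 2)))
          (by positivity) (by
            have : C2 * (2 / c2) * (1 + 2 / (c2 / 2)) / (c2 / 2) =
                4 * C2 * (1 + 4 / c2) / c2 ^ 2 := by
              field_simp
              ring
            rw [this]
            linarith)
        linarith
      linarith
    have hG := G_tail χ hz2 (by linarith) hB
    refine hG.trans ?_
    have h1 : 0 ≤ 2 * C0 / c0 := by positivity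
    nlinarith

/-- From `rough_count`: `F(σ) ≤ 1 + ∑_N (C/L) N^{-(σ-1)} ≤ C/((σ-1) L)` for `1 < σ ≤ 1 + 1/(δ log X)`. -/
theorem f0bd (m : ℕ) [NeZero m] : ∃ C : ℝ, 1 ≤ C ∧ ∀ δ : ℝ, 0 < δ → δ ≤ 1 / 4 → ∃ X₀ : ℝ, ∀ X : ℝ, X₀ ≤ X →
    ∀ σ : ℝ, 1 < σ → σ ≤ 1 + 1 / (δ * Real.log X) →
      ‖FF (1 : DirichletCharacter ℂ m) ⌊X ^ δ⌋₊ σ 0‖ ≤ C / ((σ - 1) * (δ * Real.log X)) := by
  obtain ⟨C0, hC0, hrc⟩ := rough_count m
  refine ⟨2 + 6 * C0, by linarith, fun δ hδ _ => ⟨Real.exp (2 * 2 / δ), fun X hX σ hσ1 hσ2 => ?_⟩⟩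
  obtain ⟨hM, hz3, hL1, hL2⟩ := z_facts hδ (le_refl (2 : ℝ)) hX
  set z : ℕ := ⌊X ^ δ⌋₊ with hz
  set L : ℝ := Real.log z with hL
  set M : ℝ := δ * Real.log X with hMdef
  have hz2 : 2 ≤ z := by omega
  have hM0 : 0 < M := by linarith
  have hL0 : 0 < L := by linarith
  set s : ℝ := σ - 1 with hs
  have hσs : σ = 1 + s := by rw [hs]; ring
  have hs0 : 0 < s := by rw [hs]; linarith
  have hsM : s * M ≤ 1 := by
    have h1 : s ≤ 1 / M := by rw [hs]; linarith
    rwa [le_div_iff₀ hM0] at h1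
  have hNz : ∀ j : ℕ, z ≤ 2 ^ j * z := fun j => Nat.le_mul_of_pos_left z (by positivity)
  have hB : ∀ J : ℕ, ∑ j ∈ range J, ‖∑ n ∈ Ioc (2 ^ j * z) (2 * (2 ^ j * z)),
      fc (1 : DirichletCharacter ℂ m) z σ n * ph n 0‖ ≤ C0 / L * (1 + 2 / s) := by
    intro J
    have h1 : ∀ j ∈ range J, ‖∑ n ∈ Ioc (2 ^ j * z) (2 * (2 ^ j * z)),
        fc (1 : DirichletCharacter ℂ m) z σ n * ph n 0‖ ≤
          C0 / L * Real.exp (-(s * (L + j * Real.log 2))) := by
      intro j _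
      have hN0 : (0 : ℝ) < ((2 ^ j * z : ℕ) : ℝ) := by
        have := hNz j
        exact_mod_cast (by omega : 0 < 2 ^ j * z)
      have h2 : ‖∑ n ∈ Ioc (2 ^ j * z) (2 * (2 ^ j * z)),
          fc (1 : DirichletCharacter ℂ m) z σ n * ph n 0‖ ≤
          ∑ n ∈ (Ioc (2 ^ j * z) (2 * (2 ^ j * z))).filter
            (fun n => Rough z n ∧ Nat.Coprime n m), ((2 ^ j * z : ℕ) : ℝ) ^ (-σ) := by
        rw [Finset.sum_filter]
        refine (norm_sum_le _ _).trans (Finset.sum_le_sum fun n hn => ?_)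
        rw [Finset.mem_Ioc] at hn
        rw [norm_mul, ph_norm, mul_one]
        split_ifs with h
        · refine (fc_norm_le _ z σ n).trans ?_
          exact Real.rpow_le_rpow_of_nonpos hN0 (by exact_mod_cast hn.1.le) (by linarith)
        · unfold fc
          split_ifs with h'
          · have h3 : ¬ IsUnit ((n : ℕ) : ZMod m) := by
              intro h4
              exact h ⟨h'.2, (ZMod.isUnit_iff_coprime n m).mp h4⟩
            rw [MulChar.map_nonunit _ h3, zero_mul, norm_zero]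
          · rw [norm_zero]
      refine h2.trans ?_
      rw [Finset.sum_const, nsmul_eq_mul]
      have h3 := hrc z (2 ^ j * z) hz2 (hNz j)
      refine (mul_le_mul_of_nonneg_right h3 (Real.rpow_nonneg hN0.le _)).trans (le_of_eq ?_)
      have h4 : Real.exp (-(s * (L + j * Real.log 2))) = ((2 ^ j * z : ℕ) : ℝ) ^ (-s) := by
        rw [Real.rpow_def_of_pos hN0, log_block hz2 j]
        congr 1
        ring
      have h5 : ((2 ^ j * z : ℕ) : ℝ) ^ (-σ) =
          ((2 ^ j * z : ℕ) : ℝ)⁻¹ * ((2 ^ j * z : ℕ) : ℝ) ^ (-s) := by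
        rw [← Real.rpow_neg_one, ← Real.rpow_add hN0]
        congr 1
        rw [hσs]; ring
      rw [h4, h5, ← hL]
      field_simp
    refine (Finset.sum_le_sum h1).trans ?_
    rw [← Finset.mul_sum]
    refine mul_le_mul_of_nonneg_left ?_ (by positivity)
    refine (fb_geo (a := s) (L := L) hs0 J).trans ?_
    have h6 : Real.exp (-(s * L)) ≤ 1 := by
      rw [Real.exp_le_one_iff]
      have := mul_nonneg hs0.le hL0.le
      linarith
    have h7 : 0 ≤ 1 + 2 / s := by positivity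
    calc _ ≤ 1 * (1 + 2 / s) := mul_le_mul_of_nonneg_right h6 h7
      _ = _ := one_mul _
  have hF := F_tail (1 : DirichletCharacter ℂ m) hz2 hσ1 hB
  refine hF.trans ?_
  rw [le_div_iff₀ (by positivity)]
  have h1 : C0 / L * (1 + 2 / s) * (s * M) = C0 * (M / L) * (s + 2) := by
    field_simp
  have h2 : M / L ≤ 2 := by
    rw [div_le_iff₀ hL0]; linarith
  have h3 : s ≤ 1 := by nlinarith
  have h4 : C0 * (M / L) * (s + 2) ≤ C0 * 2 * 3 := by
    have : 0 ≤ M / L := by positivity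
    gcongr
    linarith
  rw [add_mul, h1]
  nlinarith

end Pool.Agent.Lib.MP_3e612f_nt.MR
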