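import Pool.Agent.Lib.MP_3e612f_nt.MR.FinA

/-! The last scale: parameters and the bound for the main term. -/

set_option autoImplicit false

namespace Pool.Agent.Lib.MP_3e612f_nt.MR

open Finset MeasureTheory

/-- Cauchy-Schwarz for the double sum -/
theorem fin_cs {ι κ : Type*} (s : Finset ι) (u : Finset κ) (q r : ι → κ → ℂ) :
    ‖∑ i ∈ s, ∑ j ∈ u, q i j * r i j‖ ^ 2 ≤
      (∑ i ∈ s, ∑ j ∈ u, ‖q i j‖ ^ 2) * ∑ i ∈ s, ∑ j ∈ u, ‖r i j‖ ^ 2 := by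
  have h1 : ‖∑ i ∈ s, ∑ j ∈ u, q i j * r i j‖ ≤ ∑ x ∈ s ×ˢ u, ‖q x.1 x.2‖ * ‖r x.1 x.2‖ := by
    rw [← Finset.sum_product' (f := fun i j => q i j * r i j)]
    refine (norm_sum_le _ _).trans (Finset.sum_le_sum fun x _ => ?_)
    rw [norm_mul]
  have h2 := Finset.sum_mul_sq_le_sq_mul_sq (s ×ˢ u) (fun x => ‖q x.1 x.2‖) (fun x => ‖r x.1 x.2‖)
  rw [← Finset.sum_product' (f := fun i j => ‖q i j‖ ^ 2), ← Finset.sum_product' (f := fun i j => ‖r i j‖ ^ 2)]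
  exact (pow_le_pow_left₀ (norm_nonneg _) h1 2).trans h2

/-- the main term is small in mean square -/
theorem fin_split (D M : ℂ) (g A : ℝ) (hg : 0 ≤ g) (hg1 : g ≤ 1) (hM : ‖M‖ ^ 2 ≤ A) :
    ‖D‖ ^ 2 * g ≤ 2 * (‖D + M‖ ^ 2 * g) + 2 * A := by
  have h1 : ‖D‖ ≤ ‖D + M‖ + ‖M‖ := by
    have := norm_sub_le (D + M) M
    rwa [add_sub_cancel_right] at this
  have h2 : ‖D‖ ^ 2 ≤ 2 * ‖D + M‖ ^ 2 + 2 * ‖M‖ ^ 2 := by
    have := pow_le_pow_left₀ (norm_nonneg _) h1 2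
    nlinarith [sq_nonneg (‖D + M‖ - ‖M‖)]
  have h3 : 0 ≤ ‖M‖ ^ 2 := sq_nonneg _
  nlinarith [mul_le_mul_of_nonneg_right h2 hg, mul_le_mul_of_nonneg_left hg1 h3]

/-- abstract assembly -/
theorem fin_main (D : ℝ → ℂ) {ι κ : Type*} (s : Finset ι) (u : Finset κ) (q r : ι → κ → ℝ → ℂ) (w : ℝ)
    (hw : 1 ≤ w) (G : Set ℝ) (hG : MeasurableSet G) (B : ℝ) (hGB : G ⊆ Set.Icc (-B) B) (η : ℝ) (hη : 0 < η)
    (hD : Continuous D) (hDb : ∃ K : ℝ, ∀ t, ‖D t‖ ≤ K)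
    (hq : ∀ i j, Continuous (q i j)) (hqb : ∀ i j, ∃ K : ℝ, ∀ t, ‖q i j t‖ ≤ K)
    (hr : ∀ i j, Continuous (r i j)) (hrb : ∀ i j, ∃ K : ℝ, ∀ t, ‖r i j t‖ ≤ K)
    (δ R : ℝ) (hδ : 0 ≤ δ) (hQ : ∀ t ∈ G, ∑ i ∈ s, ∑ j ∈ u, ‖q i j t‖ ^ 2 ≤ δ)
    (hR : ∀ i ∈ s, ∀ j ∈ u, ∫ t in G, ‖r i j t‖ ^ 2 ≤ R) :
    ∫ t in G, ‖D t‖ ^ 2 * gw η t ≤
      2 * (∫ t : ℝ, ‖D t + ((1 / w : ℝ) : ℂ) * ∑ i ∈ s, ∑ j ∈ u, q i j t * r i j t‖ ^ 2 * gw η t) +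
        2 * (δ * (s.card * (u.card * R))) := by
  have hSc : Continuous (fun t => ((1 / w : ℝ) : ℂ) * ∑ i ∈ s, ∑ j ∈ u, q i j t * r i j t) :=
    continuous_const.mul (continuous_finsetSum _ fun i _ => continuous_finsetSum _ fun j _ => (hq i j).mul (hr i j))
  have hSb : ∃ K : ℝ, ∀ t, ‖((1 / w : ℝ) : ℂ) * ∑ i ∈ s, ∑ j ∈ u, q i j t * r i j t‖ ≤ K :=
    fin_bdd_mul (fun _ => ((1 / w : ℝ) : ℂ)) (fun t => ∑ i ∈ s, ∑ j ∈ u, q i j t * r i j t) ⟨_, fun _ => le_rfl⟩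
      (fin_bdd_sum s (fun i t => ∑ j ∈ u, q i j t * r i j t) fun i _ =>
        fin_bdd_sum u (fun j t => q i j t * r i j t) fun j _ => fin_bdd_mul _ _ (hqb i j) (hrb i j))
  have hEi := fin_int_sq (fun t => D t + ((1 / w : ℝ) : ℂ) * ∑ i ∈ s, ∑ j ∈ u, q i j t * r i j t)
    (hD.add hSc) (fin_bdd_add _ _ hDb hSb) η hη
  have hDi := fin_int_sq D hD hDb η hη
  have hri : ∀ i j, IntegrableOn (fun t => ‖r i j t‖ ^ 2) G := fun i j =>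
    (((hr i j).norm.pow 2).integrableOn_Icc (a := -B) (b := B)).mono_set hGB
  have hRi : IntegrableOn (fun t => ∑ i ∈ s, ∑ j ∈ u, ‖r i j t‖ ^ 2) G :=
    integrable_finsetSum _ fun i _ => integrable_finsetSum _ fun j _ => hri i j
  have hRv : ∫ t in G, ∑ i ∈ s, ∑ j ∈ u, ‖r i j t‖ ^ 2 ≤ s.card * (u.card * R) := by
    rw [integral_finsetSum _ fun i _ => integrable_finsetSum _ fun j _ => hri i j]
    have h1 : ∀ i ∈ s, ∫ t in G, ∑ j ∈ u, ‖r i j t‖ ^ 2 ≤ u.card * R := by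
      intro i hi
      rw [integral_finsetSum _ fun j _ => hri i j]
      refine (Finset.sum_le_sum fun j hj => hR i hi j hj).trans ?_
      rw [Finset.sum_const, nsmul_eq_mul]
    refine (Finset.sum_le_sum h1).trans ?_
    rw [Finset.sum_const, nsmul_eq_mul]
  have hpt : ∀ t ∈ G, ‖D t‖ ^ 2 * gw η t ≤
      2 * (‖D t + ((1 / w : ℝ) : ℂ) * ∑ i ∈ s, ∑ j ∈ u, q i j t * r i j t‖ ^ 2 * gw η t) +
        2 * (δ * ∑ i ∈ s, ∑ j ∈ u, ‖r i j t‖ ^ 2) := by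
    intro t ht
    refine fin_split _ _ _ _ (fin_gw_nonneg η t) (fin_gw_le_one η t) ?_
    rw [norm_mul, mul_pow]
    have h1 : ‖((1 / w : ℝ) : ℂ)‖ ^ 2 ≤ 1 := by
      rw [Complex.norm_real, Real.norm_eq_abs, sq_abs]
      have hw0 : 0 < w := by linarith
      have h2 : 1 / w ≤ 1 := (div_le_one hw0).2 hw
      have h3 : 0 ≤ 1 / w := by positivity
      exact pow_le_one₀ h3 h2
    have h2 := fin_cs s u (fun i j => q i j t) (fun i j => r i j t)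
    have h3 : 0 ≤ ∑ i ∈ s, ∑ j ∈ u, ‖r i j t‖ ^ 2 :=
      Finset.sum_nonneg fun i _ => Finset.sum_nonneg fun j _ => sq_nonneg _
    calc ‖((1 / w : ℝ) : ℂ)‖ ^ 2 * ‖∑ i ∈ s, ∑ j ∈ u, q i j t * r i j t‖ ^ 2
        ≤ 1 * ‖∑ i ∈ s, ∑ j ∈ u, q i j t * r i j t‖ ^ 2 := mul_le_mul_of_nonneg_right h1 (sq_nonneg _)
      _ ≤ (∑ i ∈ s, ∑ j ∈ u, ‖q i j t‖ ^ 2) * ∑ i ∈ s, ∑ j ∈ u, ‖r i j t‖ ^ 2 := by rw [one_mul]; exact h2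
      _ ≤ δ * ∑ i ∈ s, ∑ j ∈ u, ‖r i j t‖ ^ 2 := mul_le_mul_of_nonneg_right (hQ t ht) h3
  have hstep : ∫ t in G, ‖D t‖ ^ 2 * gw η t ≤ ∫ t in G,
      (2 * (‖D t + ((1 / w : ℝ) : ℂ) * ∑ i ∈ s, ∑ j ∈ u, q i j t * r i j t‖ ^ 2 * gw η t) +
        2 * (δ * ∑ i ∈ s, ∑ j ∈ u, ‖r i j t‖ ^ 2)) := by
    refine setIntegral_mono_on hDi.integrableOn ?_ hG hpt
    exact (hEi.integrableOn.const_mul 2).add ((hRi.const_mul δ).const_mul 2)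
  refine hstep.trans ?_
  rw [integral_add (hEi.integrableOn.const_mul 2) ((hRi.const_mul δ).const_mul 2), integral_const_mul,
    integral_const_mul, integral_const_mul]
  have h4 : ∫ t in G, ‖D t + ((1 / w : ℝ) : ℂ) * ∑ i ∈ s, ∑ j ∈ u, q i j t * r i j t‖ ^ 2 * gw η t ≤
      ∫ t : ℝ, ‖D t + ((1 / w : ℝ) : ℂ) * ∑ i ∈ s, ∑ j ∈ u, q i j t * r i j t‖ ^ 2 * gw η t :=
    setIntegral_le_integral hEi (Filter.Eventually.of_forall fun t =>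
      mul_nonneg (sq_nonneg _) (fin_gw_nonneg η t))
  have h5 := mul_le_mul_of_nonneg_left hRv hδ
  linarith

/-- the windows -/
theorem fin_win (θ L : ℝ) (H : ℕ) (hH : 1 ≤ H) (hθ : 0 < θ) (hθ1 : θ ≤ 1 / 400) (hL : 1 ≤ θ * L) :
    H ≤ ⌈θ * H * L⌉₊ ∧ ⌈θ * H * L⌉₊ ≤ ⌊(H : ℝ) * L / 100⌋₊ ∧ θ * L ≤ (⌈θ * H * L⌉₊ : ℝ) / H ∧
      (⌊(H : ℝ) * L / 100⌋₊ : ℝ) / H ≤ L / 100 ∧
      1 / (400 * θ) ≤ (⌊(H : ℝ) * L / 100⌋₊ : ℝ) / ⌈θ * H * L⌉₊ := by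
  have hH1 : (1 : ℝ) ≤ H := by exact_mod_cast hH
  have hH0 : (0 : ℝ) < H := by linarith
  have hL0 : 400 ≤ L := by
    by_contra hcon
    push Not at hcon
    have : θ * L < 1 / 400 * 400 := by
      have hLp : 0 < L := by
        by_contra h0
        push Not at h0
        nlinarith
      nlinarith
    linarith
  have h1 : (H : ℝ) ≤ θ * H * L := by nlinarith
  have hx0 : 0 ≤ θ * H * L := by linarith
  have hy0 : 0 ≤ (H : ℝ) * L / 100 := by positivity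
  have hceil := Nat.ceil_lt_add_one hx0
  have hcl := Nat.le_ceil (θ * H * L)
  have hfl := Nat.floor_le hy0
  have hfu := Nat.lt_floor_add_one ((H : ℝ) * L / 100)
  have h2 : (⌈θ * H * L⌉₊ : ℝ) ≤ 2 * (θ * H * L) := by linarith
  have h3 : (H : ℝ) * L / 200 ≤ (⌊(H : ℝ) * L / 100⌋₊ : ℝ) := by
    have : 1 ≤ (H : ℝ) * L / 200 := by nlinarith
    linarith
  have h4 : 2 * (θ * H * L) ≤ (H : ℝ) * L / 200 := by
    have : 0 ≤ (H : ℝ) * L := by positivity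
    nlinarith
  refine ⟨?_, ?_, ?_, ?_, ?_⟩
  · have : (H : ℝ) ≤ (⌈θ * H * L⌉₊ : ℝ) := h1.trans hcl
    exact_mod_cast this
  · have : (⌈θ * H * L⌉₊ : ℝ) ≤ (⌊(H : ℝ) * L / 100⌋₊ : ℝ) := h2.trans (h4.trans h3)
    exact_mod_cast this
  · rw [le_div_iff₀ hH0]
    calc θ * L * H = θ * H * L := by ring
      _ ≤ _ := hcl
  · rw [div_le_iff₀ hH0]
    calc (⌊(H : ℝ) * L / 100⌋₊ : ℝ) ≤ (H : ℝ) * L / 100 := hfl
      _ = L / 100 * H := by ring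
  · have hc0 : (0 : ℝ) < (⌈θ * H * L⌉₊ : ℝ) := by linarith
    rw [div_le_div_iff₀ (by positivity) hc0]
    nlinarith

end Pool.Agent.Lib.MP_3e612f_nt.MR
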