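import Pool.Agent.Lib.MP_3e612f_nt.MR.Defs

/-! Two consequences of the formula for the Gaussian mean square. -/

set_option autoImplicit false

namespace Pool.Agent.Lib.MP_3e612f_nt.MR.GB

open Finset MeasureTheory

theorem gexp_le (x : ℝ) : Real.exp (-(x ^ 2 / 2)) ≤ 1 := by
  rw [Real.exp_le_one_iff]
  have := sq_nonneg x
  linarith

/-- `gauss_le` from `gauss_id` -/
theorem gauss_le_of (b : ℕ → ℂ) (hb : Summable (fun n => ‖b n‖)) (η : ℝ) (hη : 0 < η) (I : ℝ)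
    (hI : (I : ℂ) =
      ((Real.sqrt (2 * Real.pi) / η : ℝ) : ℂ) * ∑' n, ∑' k, b n * (starRingEnd ℂ) (b k) *
        ((Real.exp (-((Real.log n - Real.log k) ^ 2 / (2 * η ^ 2))) : ℝ) : ℂ)) :
    I ≤ Real.sqrt (2 * Real.pi) / η * ∑' n, ∑' k, ‖b n‖ * ‖b k‖ *
        Real.exp (-((Real.log n - Real.log k) ^ 2 / (2 * η ^ 2))) := by
  set E : ℕ → ℕ → ℝ := fun n k => Real.exp (-((Real.log n - Real.log k) ^ 2 / (2 * η ^ 2))) with hE
  have hE0 : ∀ n k, 0 ≤ E n k := fun n k => (Real.exp_pos _).le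
  have hE1 : ∀ n k, E n k ≤ 1 := fun n k => by
    rw [hE]; simp only
    rw [Real.exp_le_one_iff]
    have : 0 ≤ (Real.log n - Real.log k) ^ 2 / (2 * η ^ 2) := by positivity
    linarith
  have hs1 : ∀ n, Summable (fun k => ‖b n‖ * ‖b k‖ * E n k) := fun n => by
    refine Summable.of_nonneg_of_le (fun k => by have := hE0 n k; positivity) (fun k => ?_) (hb.mul_left ‖b n‖)
    exact mul_le_of_le_one_right (by positivity) (hE1 n k)
  have hn1 : ∀ n k, ‖b n * (starRingEnd ℂ) (b k) * ((E n k : ℝ) : ℂ)‖ = ‖b n‖ * ‖b k‖ * E n k := fun n k => by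
    rw [norm_mul, norm_mul, Complex.norm_real, Real.norm_eq_abs, abs_of_nonneg (hE0 n k), RCLike.norm_conj]
  have hs1' : ∀ n, Summable (fun k => ‖b n * (starRingEnd ℂ) (b k) * ((E n k : ℝ) : ℂ)‖) := fun n => by
    simp only [hn1]; exact hs1 n
  have hin : ∀ n, ‖∑' k, b n * (starRingEnd ℂ) (b k) * ((E n k : ℝ) : ℂ)‖ ≤ ∑' k, ‖b n‖ * ‖b k‖ * E n k := fun n => by
    refine (norm_tsum_le_tsum_norm (hs1' n)).trans (le_of_eq ?_)
    exact tsum_congr fun k => hn1 n k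
  have hs2 : Summable (fun n => ∑' k, ‖b n‖ * ‖b k‖ * E n k) := by
    refine Summable.of_nonneg_of_le (fun n => tsum_nonneg fun k => by have := hE0 n k; positivity) (fun n => ?_)
      (hb.mul_right (∑' k, ‖b k‖))
    rw [← tsum_mul_left]
    exact (hs1 n).tsum_le_tsum (fun k => mul_le_of_le_one_right (by positivity) (hE1 n k)) (hb.mul_left ‖b n‖)
  have hs2' : Summable (fun n => ‖∑' k, b n * (starRingEnd ℂ) (b k) * ((E n k : ℝ) : ℂ)‖) :=
    Summable.of_nonneg_of_le (fun n => norm_nonneg _) hin hs2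
  have h1 : I ≤ ‖(I : ℂ)‖ := by
    rw [Complex.norm_real, Real.norm_eq_abs]; exact le_abs_self _
  refine h1.trans ?_
  rw [hI, norm_mul, Complex.norm_real, Real.norm_eq_abs, abs_of_nonneg (by positivity)]
  refine mul_le_mul_of_nonneg_left ?_ (by positivity)
  exact (norm_tsum_le_tsum_norm hs2').trans (hs2'.tsum_le_tsum hin hs2)

theorem log_gap {n k N : ℕ} (hn : 1 ≤ n) (hk : 1 ≤ k) (hnN : n ≤ N) (hkN : k ≤ N) :
    |(n : ℝ) - k| / N ≤ |Real.log n - Real.log k| := by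
  have hN0 : (0 : ℝ) < N := by exact_mod_cast lt_of_lt_of_le hn hnN
  have key : ∀ a b : ℕ, 1 ≤ a → a ≤ b → b ≤ N → ((b : ℝ) - a) / N ≤ Real.log b - Real.log a := by
    intro a b ha hab hb
    have ha0 : (0 : ℝ) < a := by exact_mod_cast ha
    have hb0 : (0 : ℝ) < b := by exact_mod_cast lt_of_lt_of_le ha hab
    have h1 : Real.log (a / b) ≤ a / b - 1 := Real.log_le_sub_one_of_pos (by positivity)
    rw [Real.log_div ha0.ne' hb0.ne'] at h1
    have h2 : ((b : ℝ) - a) / N ≤ ((b : ℝ) - a) / b := by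
      have h3 : (0 : ℝ) ≤ (b : ℝ) - a := by
        have : (a : ℝ) ≤ b := by exact_mod_cast hab
        linarith
      exact div_le_div_of_nonneg_left h3 hb0 (by exact_mod_cast hb)
    have h4 : ((b : ℝ) - a) / b = 1 - a / b := by field_simp
    linarith
  rcases le_total n k with h | h
  · have h1 := key n k hn h hkN
    have e1 : |(n : ℝ) - k| = (k : ℝ) - n := by
      rw [abs_sub_comm]
      exact abs_of_nonneg (by have : (n : ℝ) ≤ k := by exact_mod_cast h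
                              linarith)
    rw [e1, abs_sub_comm]
    exact h1.trans (le_abs_self _)
  · have h1 := key k n hk h hnN
    have e1 : |(n : ℝ) - k| = (n : ℝ) - k :=
      abs_of_nonneg (by have : (k : ℝ) ≤ n := by exact_mod_cast h
                        linarith)
    rw [e1]
    exact h1.trans (le_abs_self _)

theorem gsum_half (σ : ℝ) (hσ : 0 < σ) (M : ℕ) :
    ∑ j ∈ range M, Real.exp (-(((j + 1 : ℕ) : ℝ) ^ 2 / (2 * σ ^ 2))) ≤ Real.sqrt (2 * Real.pi) * σ / 2 := by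
  set f : ℝ → ℝ := fun x => Real.exp (-(1 / (2 * σ ^ 2)) * x ^ 2) with hf
  have hanti : AntitoneOn f (Set.Icc (0 : ℝ) (0 + M)) := by
    intro x hx y hy hxy
    simp only [hf]
    refine Real.exp_le_exp.2 ?_
    have h1 : x ^ 2 ≤ y ^ 2 := pow_le_pow_left₀ hx.1 hxy 2
    have h2 : 0 ≤ 1 / (2 * σ ^ 2) := by positivity
    nlinarith
  have h1 := hanti.sum_le_integral
  have hint : Integrable f := integrable_exp_neg_mul_sq (by positivity)
  have h2 : ∫ x in (0 : ℝ)..(0 + M), f x ≤ ∫ x in Set.Ioi (0 : ℝ), f x := by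
    rw [intervalIntegral.integral_of_le (by simp)]
    refine setIntegral_mono_set hint.integrableOn (Filter.Eventually.of_forall fun x => (Real.exp_pos _).le) ?_
    exact (Set.Ioc_subset_Ioi_self).eventuallyLE
  have h3 : ∫ x in Set.Ioi (0 : ℝ), f x = Real.sqrt (2 * Real.pi) * σ / 2 := by
    rw [hf]
    rw [integral_gaussian_Ioi]
    congr 1
    have e : Real.pi / (1 / (2 * σ ^ 2)) = (2 * Real.pi) * σ ^ 2 := by field_simp
    rw [e, Real.sqrt_mul (by positivity), Real.sqrt_sq hσ.le]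
  rw [h3] at h2
  refine le_trans (le_of_eq ?_) (h1.trans h2)
  refine Finset.sum_congr rfl fun j _ => ?_
  simp only [hf]
  congr 1
  push_cast
  ring

theorem gsum_full (σ : ℝ) (hσ : 0 < σ) (S : Finset ℕ) (n : ℕ) :
    ∑ k ∈ S, Real.exp (-(((n : ℝ) - k) ^ 2 / (2 * σ ^ 2))) ≤ 1 + Real.sqrt (2 * Real.pi) * σ := by
  set g : ℕ → ℝ := fun k => Real.exp (-(((n : ℝ) - k) ^ 2 / (2 * σ ^ 2))) with hg
  have hg0 : ∀ k, 0 ≤ g k := fun k => (Real.exp_pos _).le
  obtain ⟨M, hM⟩ : ∃ M : ℕ, S ⊆ range n ∪ ({n} ∪ (range M).image (fun j => n + 1 + j)) := by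
    refine ⟨S.sup id + 1, fun k hk => ?_⟩
    have h1 : k ≤ S.sup id := Finset.le_sup (f := id) hk
    rcases lt_trichotomy k n with h | h | h
    · exact Finset.mem_union_left _ (Finset.mem_range.2 h)
    · exact Finset.mem_union_right _ (Finset.mem_union_left _ (by simp [h]))
    · refine Finset.mem_union_right _ (Finset.mem_union_right _ (Finset.mem_image.2 ⟨k - (n + 1), ?_, ?_⟩))
      · rw [Finset.mem_range]; omega
      · omega
  have h1 : ∑ k ∈ S, g k ≤ ∑ k ∈ range n, g k + (g n + ∑ j ∈ range M, g (n + 1 + j)) := by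
    refine (Finset.sum_le_sum_of_subset_of_nonneg hM fun k _ _ => hg0 k).trans ?_
    have u1 : ∀ (s t : Finset ℕ), ∑ k ∈ s ∪ t, g k ≤ ∑ k ∈ s, g k + ∑ k ∈ t, g k := fun s t => by
      rw [← Finset.sum_union_inter]
      exact le_add_of_nonneg_right (Finset.sum_nonneg fun k _ => hg0 k)
    refine (u1 _ _).trans (add_le_add le_rfl ((u1 _ _).trans (add_le_add ?_ ?_)))
    · simp
    · exact Finset.sum_image_le_of_nonneg fun k _ => hg0 k
  have h2 : ∑ k ∈ range n, g k ≤ Real.sqrt (2 * Real.pi) * σ / 2 := by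
    rw [← Finset.sum_range_reflect]
    refine le_trans (le_of_eq (Finset.sum_congr rfl fun j hj => ?_)) (gsum_half σ hσ n)
    have hj' := Finset.mem_range.1 hj
    simp only [hg]
    congr 3
    have e : ((n - 1 - j : ℕ) : ℝ) = n - 1 - j := by
      rw [Nat.cast_sub (by omega), Nat.cast_sub (by omega)]; simp
    rw [e]
    push_cast
    ring
  have h3 : ∑ j ∈ range M, g (n + 1 + j) ≤ Real.sqrt (2 * Real.pi) * σ / 2 := by
    refine le_trans (le_of_eq (Finset.sum_congr rfl fun j hj => ?_)) (gsum_half σ hσ M)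
    simp only [hg]
    congr 3
    push_cast
    ring
  have h4 : g n = 1 := by simp [hg]
  linarith

theorem gauss_mv_of (hid : ∀ (b : ℕ → ℂ), Summable (fun n => ‖b n‖) → ∀ η : ℝ, 0 < η →
      ((∫ t : ℝ, ‖∑' n, b n * ph n t‖ ^ 2 * gw η t : ℝ) : ℂ) =
      ((Real.sqrt (2 * Real.pi) / η : ℝ) : ℂ) * ∑' n, ∑' k, b n * (starRingEnd ℂ) (b k) *
        ((Real.exp (-((Real.log n - Real.log k) ^ 2 / (2 * η ^ 2))) : ℝ) : ℂ))
    (S : Finset ℕ) (N : ℕ) (hS : ∀ n ∈ S, 1 ≤ n ∧ n ≤ N) (b : ℕ → ℂ) (η : ℝ) (hη : 0 < η) :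
    ∫ t : ℝ, ‖∑ n ∈ S, b n * ph n t‖ ^ 2 * gw η t ≤ 7 * (1 / η + N) * ∑ n ∈ S, ‖b n‖ ^ 2 := by
  classical
  rcases Finset.eq_empty_or_nonempty S with hemp | ⟨n0, hn0⟩
  · subst hemp; simp
  have hN1 : 1 ≤ N := (hS n0 hn0).1.trans (hS n0 hn0).2
  have hN0 : (0 : ℝ) < N := by exact_mod_cast hN1
  set c : ℕ → ℂ := fun n => if n ∈ S then b n else 0 with hc
  have hcz : ∀ n, n ∉ S → c n = 0 := fun n hn => by simp [hc, hn]
  have hcs : Summable (fun n => ‖c n‖) := by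
    refine summable_of_ne_finset_zero (s := S) fun n hn => ?_
    rw [hcz n hn, norm_zero]
  have e1 : ∀ t : ℝ, ∑' n, c n * ph n t = ∑ n ∈ S, b n * ph n t := by
    intro t
    rw [tsum_eq_sum (s := S) (fun n hn => by rw [hcz n hn, zero_mul])]
    exact Finset.sum_congr rfl fun n hn => by simp [hc, hn]
  have h1 := gauss_le_of c hcs η hη _ (hid c hcs η hη)
  simp only [e1] at h1
  refine h1.trans ?_
  set E : ℕ → ℕ → ℝ := fun n k => Real.exp (-((Real.log n - Real.log k) ^ 2 / (2 * η ^ 2))) with hE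
  have e2 : ∑' n, ∑' k, ‖c n‖ * ‖c k‖ * E n k = ∑ n ∈ S, ∑ k ∈ S, ‖b n‖ * ‖b k‖ * E n k := by
    rw [tsum_eq_sum (s := S) (fun n hn => by simp [hcz n hn])]
    refine Finset.sum_congr rfl fun n hn => ?_
    rw [tsum_eq_sum (s := S) (fun k hk => by simp [hcz k hk])]
    exact Finset.sum_congr rfl fun k hk => by simp [hc, hn, hk]
  rw [e2]
  have hsym : ∀ n k, E n k = E k n := fun n k => by
    simp only [hE]; congr 2; ring
  have hE0 : ∀ n k, 0 ≤ E n k := fun n k => (Real.exp_pos _).le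
  have h2 : ∑ n ∈ S, ∑ k ∈ S, ‖b n‖ * ‖b k‖ * E n k ≤ ∑ n ∈ S, ‖b n‖ ^ 2 * ∑ k ∈ S, E n k := by
    have h3 : ∑ n ∈ S, ∑ k ∈ S, ‖b n‖ * ‖b k‖ * E n k ≤
        ∑ n ∈ S, ∑ k ∈ S, (‖b n‖ ^ 2 / 2 * E n k + ‖b k‖ ^ 2 / 2 * E k n) := by
      refine Finset.sum_le_sum fun n _ => Finset.sum_le_sum fun k _ => ?_
      rw [← hsym n k, ← add_mul]
      refine mul_le_mul_of_nonneg_right ?_ (hE0 n k)
      nlinarith [sq_nonneg (‖b n‖ - ‖b k‖)]
    refine h3.trans (le_of_eq ?_)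
    simp only [Finset.sum_add_distrib]
    rw [Finset.sum_comm (f := fun n k => ‖b k‖ ^ 2 / 2 * E k n)]
    rw [← Finset.sum_add_distrib]
    refine Finset.sum_congr rfl fun n _ => ?_
    rw [← Finset.mul_sum]
    ring
  have h3 : ∀ n ∈ S, ∑ k ∈ S, E n k ≤ 1 + Real.sqrt (2 * Real.pi) * (η * N) := by
    intro n hn
    refine le_trans (Finset.sum_le_sum fun k hk => ?_) (gsum_full (η * N) (by positivity) S n)
    simp only [hE]
    refine Real.exp_le_exp.2 (neg_le_neg ?_)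
    have h4 := log_gap (hS n hn).1 (hS k hk).1 (hS n hn).2 (hS k hk).2
    have h5 : (|(n : ℝ) - k| / N) ^ 2 ≤ (Real.log n - Real.log k) ^ 2 := by
      rw [← sq_abs (Real.log n - Real.log k)]
      exact pow_le_pow_left₀ (by positivity) h4 2
    rw [div_pow, sq_abs] at h5
    have h6 : ((n : ℝ) - k) ^ 2 / (2 * (η * N) ^ 2) = ((n : ℝ) - k) ^ 2 / (N : ℝ) ^ 2 / (2 * η ^ 2) := by
      field_simp
    rw [h6]
    exact div_le_div_of_nonneg_right h5 (by positivity)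
  have h4 : ∑ n ∈ S, ‖b n‖ ^ 2 * ∑ k ∈ S, E n k ≤
      (1 + Real.sqrt (2 * Real.pi) * (η * N)) * ∑ n ∈ S, ‖b n‖ ^ 2 := by
    rw [Finset.mul_sum]
    refine Finset.sum_le_sum fun n hn => ?_
    rw [mul_comm]
    exact mul_le_mul_of_nonneg_right (h3 n hn) (sq_nonneg _)
  have hB0 : 0 ≤ ∑ n ∈ S, ‖b n‖ ^ 2 := Finset.sum_nonneg fun n _ => sq_nonneg _
  have hpi : Real.sqrt (2 * Real.pi) ^ 2 = 2 * Real.pi := Real.sq_sqrt (by positivity)
  have hpi4 : Real.pi < 3.15 := Real.pi_lt_d2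
  have hs7 : Real.sqrt (2 * Real.pi) ≤ 7 := by
    rw [Real.sqrt_le_left (by norm_num)]
    linarith
  calc Real.sqrt (2 * Real.pi) / η * ∑ n ∈ S, ∑ k ∈ S, ‖b n‖ * ‖b k‖ * E n k
      ≤ Real.sqrt (2 * Real.pi) / η * ((1 + Real.sqrt (2 * Real.pi) * (η * N)) * ∑ n ∈ S, ‖b n‖ ^ 2) :=
        mul_le_mul_of_nonneg_left (h2.trans h4) (by positivity)
    _ = (Real.sqrt (2 * Real.pi) * (1 / η) + Real.sqrt (2 * Real.pi) ^ 2 * N) * ∑ n ∈ S, ‖b n‖ ^ 2 := by
        field_simp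
    _ ≤ 7 * (1 / η + N) * ∑ n ∈ S, ‖b n‖ ^ 2 := by
        refine mul_le_mul_of_nonneg_right ?_ hB0
        rw [hpi]
        have h5 : 0 < 1 / η := by positivity
        nlinarith

end Pool.Agent.Lib.MP_3e612f_nt.MR.GB
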