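import Pool.Agent.Lib.MP_3e612f_nt.MR.GaussA
import Pool.Agent.Lib.MP_3e612f_nt.MR.GaussB

/-! Mean values of Dirichlet series with a Gaussian weight. -/

set_option autoImplicit false

namespace Pool.Agent.Lib.MP_3e612f_nt.MR

open Finset MeasureTheory

/-- Everything is continuous and bounded times a Gaussian. -/
theorem gw_integrable (b : ℕ → ℂ) (hb : Summable (fun n => ‖b n‖)) (η : ℝ) (hη : 0 < η) :
    Integrable (fun t : ℝ => ‖∑' n, b n * ph n t‖ ^ 2 * gw η t) := by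
  exact GA.gw_integrableA b hb η hη

/-- Expand the square (absolutely convergent double sum) and use
`∫ e^{-itx} e^{-(ηt)^2/2} dt = (√(2π)/η) e^{-x^2/(2η^2)}` with `x = log n - log k`. -/
theorem gauss_id (b : ℕ → ℂ) (hb : Summable (fun n => ‖b n‖)) (η : ℝ) (hη : 0 < η) :
    ((∫ t : ℝ, ‖∑' n, b n * ph n t‖ ^ 2 * gw η t : ℝ) : ℂ) =
      ((Real.sqrt (2 * Real.pi) / η : ℝ) : ℂ) * ∑' n, ∑' k, b n * (starRingEnd ℂ) (b k) *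
        ((Real.exp (-((Real.log n - Real.log k) ^ 2 / (2 * η ^ 2))) : ℝ) : ℂ) := by
  exact GA.gauss_idA b hb η hη

/-- Consequence of `gauss_id`. -/
theorem gauss_le (b : ℕ → ℂ) (hb : Summable (fun n => ‖b n‖)) (η : ℝ) (hη : 0 < η) :
    ∫ t : ℝ, ‖∑' n, b n * ph n t‖ ^ 2 * gw η t ≤
      Real.sqrt (2 * Real.pi) / η * ∑' n, ∑' k, ‖b n‖ * ‖b k‖ *
        Real.exp (-((Real.log n - Real.log k) ^ 2 / (2 * η ^ 2))) := by
  exact GB.gauss_le_of b hb η hη _ (gauss_id b hb η hη)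

/-- Plancherel: both sides are the same double sum; `∫ e^{-((y-x)/λ)^2 - ((y-x')/λ)^2} dy =
λ √(π/2) e^{-(x-x')^2/(2λ^2)}`. -/
theorem planch (b : ℕ → ℂ) (hb : Summable (fun n => ‖b n‖)) (lam : ℝ) (hlam : 0 < lam) :
    ∫ y : ℝ, ‖∑' n, b n * ((Real.exp (-(((y - Real.log n) / lam) ^ 2)) : ℝ) : ℂ)‖ ^ 2 =
      lam ^ 2 / 2 * ∫ t : ℝ, ‖∑' n, b n * ph n t‖ ^ 2 * gw lam t := by
  exact GA.planchA b hb lam hlam

/-- Mean value theorem. `gauss_id`, `|b n| |b k| ≤ (|b n|^2 + |b k|^2)/2`,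
`|log n - log k| ≥ |n - k|/N` for `1 ≤ n, k ≤ N` and `∑_{j ∈ ℤ} e^{-j^2/(2 η^2 N^2)} ≤ 1 + √(2π) η N`:
the integral is at most `(√(2π)/η)(1 + √(2π) η N) ∑ |b n|^2`. -/
theorem gauss_mv (S : Finset ℕ) (N : ℕ) (hS : ∀ n ∈ S, 1 ≤ n ∧ n ≤ N) (b : ℕ → ℂ) (η : ℝ) (hη : 0 < η) :
    ∫ t : ℝ, ‖∑ n ∈ S, b n * ph n t‖ ^ 2 * gw η t ≤ 7 * (1 / η + N) * ∑ n ∈ S, ‖b n‖ ^ 2 := by
  exact GB.gauss_mv_of gauss_id S N hS b η hη

end Pool.Agent.Lib.MP_3e612f_nt.MR
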