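import Pool.Agent.Lib.MP_3e612f_nt.MR.Defs

/-! Mean squares of absolutely convergent series: the double sum, and the Gaussian integrals. -/

set_option autoImplicit false

namespace Pool.Agent.Lib.MP_3e612f_nt.MR.GA

open Finset MeasureTheory

/-- expanding the mean square of an absolutely convergent series -/
theorem dbl (b : ℕ → ℂ) (hb : Summable (fun n => ‖b n‖)) (φ : ℕ → ℝ → ℂ) (w : ℝ → ℝ) (C : ℝ)
    (hint : ∀ n k, Integrable (fun t => φ n t * (starRingEnd ℂ) (φ k t) * (w t : ℂ)))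
    (hbd : ∀ n k, ∫ t, ‖φ n t * (starRingEnd ℂ) (φ k t) * (w t : ℂ)‖ ≤ C)
    (hφ : ∀ n t, ‖φ n t‖ ≤ 1) :
    ((∫ t : ℝ, ‖∑' n, b n * φ n t‖ ^ 2 * w t : ℝ) : ℂ) =
      ∑' n, ∑' k, b n * (starRingEnd ℂ) (b k) * ∫ t, φ n t * (starRingEnd ℂ) (φ k t) * (w t : ℂ) := by
  have hs : ∀ t, Summable (fun n => ‖b n * φ n t‖) := fun t => by
    refine Summable.of_nonneg_of_le (fun n => norm_nonneg _) (fun n => ?_) hb
    rw [norm_mul]
    exact mul_le_of_le_one_right (norm_nonneg _) (hφ n t)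
  have hs' : ∀ t, Summable (fun n => ‖(starRingEnd ℂ) (b n * φ n t)‖) := fun t => by
    simp only [RCLike.norm_conj]; exact hs t
  set F : ℕ × ℕ → ℝ → ℂ := fun p t => b p.1 * (starRingEnd ℂ) (b p.2) *
    (φ p.1 t * (starRingEnd ℂ) (φ p.2 t) * (w t : ℂ)) with hF
  have hpt : ∀ t, ((‖∑' n, b n * φ n t‖ ^ 2 * w t : ℝ) : ℂ) = ∑' p : ℕ × ℕ, F p t := by
    intro t
    have h1 : ((‖∑' n, b n * φ n t‖ ^ 2 : ℝ) : ℂ) =
        (∑' n, b n * φ n t) * ∑' n, (starRingEnd ℂ) (b n * φ n t) := by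
      rw [← Complex.conj_tsum, Complex.mul_conj, Complex.normSq_eq_norm_sq]
    rw [Complex.ofReal_mul, h1, tsum_mul_tsum_of_summable_norm (hs t) (hs' t), ← tsum_mul_right]
    refine tsum_congr fun p => ?_
    simp only [hF, map_mul]
    ring
  have hbb : Summable (fun p : ℕ × ℕ => ‖b p.1‖ * ‖b p.2‖) :=
    hb.mul_of_nonneg hb (fun n => norm_nonneg _) (fun n => norm_nonneg _)
  have hFi : ∀ p, Integrable (F p) := fun p => (hint p.1 p.2).const_mul _
  have hFn : ∀ p, ∫ t, ‖F p t‖ = ‖b p.1‖ * ‖b p.2‖ *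
      ∫ t, ‖φ p.1 t * (starRingEnd ℂ) (φ p.2 t) * (w t : ℂ)‖ := by
    intro p
    rw [← integral_const_mul]
    refine integral_congr_ae (Filter.Eventually.of_forall fun t => ?_)
    simp only [hF]
    rw [norm_mul (b p.1 * (starRingEnd ℂ) (b p.2)), norm_mul (b p.1), RCLike.norm_conj]
  have hFs : Summable (fun p => ∫ t, ‖F p t‖) := by
    refine Summable.of_nonneg_of_le (fun p => integral_nonneg fun t => norm_nonneg _) (fun p => ?_)
      (hbb.mul_right C)
    rw [hFn]
    exact mul_le_mul_of_nonneg_left (hbd _ _) (by positivity)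
  have h1 := hasSum_integral_of_summable_integral_norm hFi hFs
  have h2 : ((∫ t : ℝ, ‖∑' n, b n * φ n t‖ ^ 2 * w t : ℝ) : ℂ) = ∫ t, ∑' p : ℕ × ℕ, F p t := by
    rw [← integral_complex_ofReal]
    exact integral_congr_ae (Filter.Eventually.of_forall fun t => hpt t)
  rw [h2, ← h1.tsum_eq]
  have hG : Summable (fun p : ℕ × ℕ => ∫ t, F p t) := h1.summable
  rw [hG.tsum_prod]
  refine tsum_congr fun n => tsum_congr fun k => ?_
  simp only [hF]
  rw [integral_const_mul]

theorem norm_ph (n : ℕ) (t : ℝ) : ‖ph n t‖ = 1 := by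
  unfold ph
  rw [← neg_mul, ← Complex.ofReal_neg]
  exact Complex.norm_exp_ofReal_mul_I _

theorem continuous_ph (n : ℕ) : Continuous (ph n) := by
  unfold ph
  fun_prop

theorem continuous_gw (η : ℝ) : Continuous (gw η) := by
  unfold gw
  fun_prop

theorem abs_gw (η t : ℝ) : |gw η t| = gw η t := abs_of_nonneg (Real.exp_pos _).le

theorem gw_int (η : ℝ) (hη : 0 < η) : Integrable (gw η) := by
  have h := integrable_exp_neg_mul_sq (b := η ^ 2 / 2) (by positivity)
  refine h.congr (Filter.Eventually.of_forall fun t => ?_)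
  simp only [gw]
  congr 1
  ring

theorem gw_fourier (η : ℝ) (hη : 0 < η) (x : ℝ) :
    ∫ t : ℝ, Complex.exp (-(((t * x : ℝ) : ℂ) * Complex.I)) * (gw η t : ℂ) =
      ((Real.sqrt (2 * Real.pi) / η : ℝ) : ℂ) * ((Real.exp (-(x ^ 2 / (2 * η ^ 2))) : ℝ) : ℂ) := by
  have hη0 : (η : ℂ) ≠ 0 := by exact_mod_cast hη.ne'
  have hb : 0 < (((η ^ 2 / 2 : ℝ) : ℂ)).re := by rw [Complex.ofReal_re]; positivity
  have h := fourierIntegral_gaussian hb (-(x : ℂ))
  have e1 : ∀ t : ℝ, Complex.exp (-(((t * x : ℝ) : ℂ) * Complex.I)) * (gw η t : ℂ) =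
      Complex.exp (Complex.I * (-(x : ℂ)) * t) * Complex.exp (-((η ^ 2 / 2 : ℝ) : ℂ) * (t : ℂ) ^ 2) := by
    intro t
    congr 1
    · congr 1; push_cast; ring
    · unfold gw
      rw [Complex.ofReal_exp]
      congr 1; push_cast; ring
  rw [integral_congr_ae (Filter.Eventually.of_forall e1), h]
  congr 1
  · have e2 : ((Real.pi : ℂ) / ((η ^ 2 / 2 : ℝ) : ℂ)) = ((2 * Real.pi / η ^ 2 : ℝ) : ℂ) := by
      push_cast; field_simp
    rw [e2]
    have e3 : (1 / 2 : ℂ) = ((1 / 2 : ℝ) : ℂ) := by push_cast; ring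
    rw [e3, ← Complex.ofReal_cpow (by positivity)]
    congr 1
    rw [← Real.sqrt_eq_rpow, Real.sqrt_div (by positivity), Real.sqrt_sq hη.le]
  · rw [Complex.ofReal_exp]
    congr 1
    push_cast
    field_simp
    ring

theorem ph_mul_conj (n k : ℕ) (t : ℝ) : ph n t * (starRingEnd ℂ) (ph k t) =
    Complex.exp (-(((t * (Real.log n - Real.log k) : ℝ) : ℂ) * Complex.I)) := by
  unfold ph
  rw [← Complex.exp_conj, ← Complex.exp_add]
  congr 1
  simp only [map_neg, map_mul, Complex.conj_ofReal, Complex.conj_I]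
  push_cast
  ring

theorem ph_int (η : ℝ) (hη : 0 < η) (n k : ℕ) :
    Integrable (fun t => ph n t * (starRingEnd ℂ) (ph k t) * (gw η t : ℂ)) := by
  refine ((gw_int η hη).mono' ?_ (Filter.Eventually.of_forall fun t => ?_))
  · exact (((continuous_ph n).mul (Complex.continuous_conj.comp (continuous_ph k))).mul
      (Complex.continuous_ofReal.comp (continuous_gw η))).aestronglyMeasurable
  · rw [norm_mul, norm_mul, RCLike.norm_conj, norm_ph, norm_ph, one_mul, one_mul, Complex.norm_real, Real.norm_eq_abs,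
      abs_gw]

theorem gauss_idA (b : ℕ → ℂ) (hb : Summable (fun n => ‖b n‖)) (η : ℝ) (hη : 0 < η) :
    ((∫ t : ℝ, ‖∑' n, b n * ph n t‖ ^ 2 * gw η t : ℝ) : ℂ) =
      ((Real.sqrt (2 * Real.pi) / η : ℝ) : ℂ) * ∑' n, ∑' k, b n * (starRingEnd ℂ) (b k) *
        ((Real.exp (-((Real.log n - Real.log k) ^ 2 / (2 * η ^ 2))) : ℝ) : ℂ) := by
  rw [dbl b hb ph (gw η) (∫ t, gw η t) (ph_int η hη) (fun n k => le_of_eq ?_) (fun n t => (norm_ph n t).le)]
  · rw [← tsum_mul_left]
    refine tsum_congr fun n => ?_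
    rw [← tsum_mul_left]
    refine tsum_congr fun k => ?_
    have e : ∫ t, ph n t * (starRingEnd ℂ) (ph k t) * (gw η t : ℂ) =
        ((Real.sqrt (2 * Real.pi) / η : ℝ) : ℂ) *
          ((Real.exp (-((Real.log n - Real.log k) ^ 2 / (2 * η ^ 2))) : ℝ) : ℂ) := by
      rw [← gw_fourier η hη]
      exact integral_congr_ae (Filter.Eventually.of_forall fun t => by simp only [ph_mul_conj])
    rw [e]
    ring
  · refine integral_congr_ae (Filter.Eventually.of_forall fun t => ?_)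
    simp only
    rw [norm_mul, norm_mul, RCLike.norm_conj, norm_ph, norm_ph, one_mul, one_mul, Complex.norm_real, Real.norm_eq_abs,
      abs_gw]

theorem gw_integrableA (b : ℕ → ℂ) (hb : Summable (fun n => ‖b n‖)) (η : ℝ) (hη : 0 < η) :
    Integrable (fun t : ℝ => ‖∑' n, b n * ph n t‖ ^ 2 * gw η t) := by
  have hc : Continuous (fun t : ℝ => ∑' n, b n * ph n t) := by
    refine continuous_tsum (fun n => continuous_const.mul (continuous_ph n)) hb fun n t => ?_
    rw [norm_mul, norm_ph, mul_one]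
  have hbd : ∀ t : ℝ, ‖∑' n, b n * ph n t‖ ≤ ∑' n, ‖b n‖ := by
    intro t
    have hs : Summable (fun n => ‖b n * ph n t‖) := by
      simp only [norm_mul, norm_ph, mul_one]; exact hb
    refine (norm_tsum_le_tsum_norm hs).trans (le_of_eq ?_)
    simp only [norm_mul, norm_ph, mul_one]
  refine (((gw_int η hη).const_mul ((∑' n, ‖b n‖) ^ 2)).mono' ?_ (Filter.Eventually.of_forall fun t => ?_))
  · exact ((hc.norm.pow 2).mul (continuous_gw η)).aestronglyMeasurable
  · have h0 : 0 ≤ gw η t := (Real.exp_pos _).le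
    rw [Real.norm_eq_abs, abs_of_nonneg (by positivity)]
    exact mul_le_mul_of_nonneg_right (pow_le_pow_left₀ (norm_nonneg _) (hbd t) 2) h0

/-- the Gaussian bump -/
noncomputable def bump (lam x y : ℝ) : ℝ := Real.exp (-(((y - x) / lam) ^ 2))

theorem bump_mul (lam : ℝ) (hlam : 0 < lam) (x x' y : ℝ) :
    bump lam x y * bump lam x' y =
      Real.exp (-(2 / lam ^ 2) * (y - (x + x') / 2) ^ 2) * Real.exp (-((x - x') ^ 2 / (2 * lam ^ 2))) := by
  unfold bump
  rw [← Real.exp_add, ← Real.exp_add]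
  congr 1
  field_simp
  ring

theorem bump_int (lam : ℝ) (hlam : 0 < lam) (x x' : ℝ) :
    Integrable (fun y => bump lam x y * bump lam x' y) ∧
      ∫ y, bump lam x y * bump lam x' y =
        lam * Real.sqrt (2 * Real.pi) / 2 * Real.exp (-((x - x') ^ 2 / (2 * lam ^ 2))) := by
  have h1 : Integrable (fun y : ℝ => Real.exp (-(2 / lam ^ 2) * y ^ 2)) := integrable_exp_neg_mul_sq (by positivity)
  constructor
  · have h2 := (h1.comp_sub_right ((x + x') / 2)).mul_const (Real.exp (-((x - x') ^ 2 / (2 * lam ^ 2))))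
    refine h2.congr (Filter.Eventually.of_forall fun y => ?_)
    exact (bump_mul lam hlam x x' y).symm
  · rw [integral_congr_ae (Filter.Eventually.of_forall fun y => bump_mul lam hlam x x' y), integral_mul_const]
    congr 1
    rw [integral_sub_right_eq_self (fun y : ℝ => Real.exp (-(2 / lam ^ 2) * y ^ 2)) ((x + x') / 2), integral_gaussian]
    have e : Real.pi / (2 / lam ^ 2) = (2 * Real.pi) * (lam / 2) ^ 2 := by field_simp
    rw [e, Real.sqrt_mul (by positivity), Real.sqrt_sq (by positivity)]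
    ring

theorem planchA (b : ℕ → ℂ) (hb : Summable (fun n => ‖b n‖)) (lam : ℝ) (hlam : 0 < lam) :
    ∫ y : ℝ, ‖∑' n, b n * ((Real.exp (-(((y - Real.log n) / lam) ^ 2)) : ℝ) : ℂ)‖ ^ 2 =
      lam ^ 2 / 2 * ∫ t : ℝ, ‖∑' n, b n * ph n t‖ ^ 2 * gw lam t := by
  have hnn : ∀ x y : ℝ, 0 ≤ bump lam x y := fun x y => (Real.exp_pos _).le
  have hc : ∀ n k : ℕ, ∀ y : ℝ, ((bump lam (Real.log n) y : ℝ) : ℂ) *
      (starRingEnd ℂ) ((bump lam (Real.log k) y : ℝ) : ℂ) * (((1 : ℝ)) : ℂ) =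
        ((bump lam (Real.log n) y * bump lam (Real.log k) y : ℝ) : ℂ) := by
    intro n k y
    rw [Complex.conj_ofReal]
    push_cast
    ring
  have h1 := dbl b hb (fun n y => ((bump lam (Real.log n) y : ℝ) : ℂ)) (fun _ => 1) (lam * Real.sqrt (2 * Real.pi) / 2)
    (fun n k => by
      refine ((bump_int lam hlam (Real.log n) (Real.log k)).1.ofReal).congr (Filter.Eventually.of_forall fun y => ?_)
      exact (hc n k y).symm)
    (fun n k => by
      have e : ∀ y : ℝ, ‖((bump lam (Real.log n) y : ℝ) : ℂ) * (starRingEnd ℂ) ((bump lam (Real.log k) y : ℝ) : ℂ) *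
          (((1 : ℝ)) : ℂ)‖ = bump lam (Real.log n) y * bump lam (Real.log k) y := fun y => by
        rw [hc, Complex.norm_real, Real.norm_eq_abs, abs_of_nonneg (mul_nonneg (hnn _ _) (hnn _ _))]
      rw [integral_congr_ae (Filter.Eventually.of_forall e), (bump_int lam hlam (Real.log n) (Real.log k)).2]
      refine mul_le_of_le_one_right (by positivity) ?_
      rw [Real.exp_le_one_iff]
      have : 0 ≤ (Real.log n - Real.log k) ^ 2 / (2 * lam ^ 2) := by positivity
      linarith)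
    (fun n y => by
      rw [Complex.norm_real, Real.norm_eq_abs, abs_of_nonneg (hnn _ _)]
      unfold bump
      rw [Real.exp_le_one_iff]
      have : 0 ≤ ((y - Real.log n) / lam) ^ 2 := sq_nonneg _
      linarith)
  have h2 := gauss_idA b hb lam hlam
  have e1 : ∀ n k : ℕ, ∫ y : ℝ, ((bump lam (Real.log n) y : ℝ) : ℂ) *
      (starRingEnd ℂ) ((bump lam (Real.log k) y : ℝ) : ℂ) * (((1 : ℝ)) : ℂ) =
        ((lam * Real.sqrt (2 * Real.pi) / 2 : ℝ) : ℂ) *
          ((Real.exp (-((Real.log n - Real.log k) ^ 2 / (2 * lam ^ 2))) : ℝ) : ℂ) := by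
    intro n k
    rw [integral_congr_ae (Filter.Eventually.of_forall fun y => hc n k y), integral_complex_ofReal,
      (bump_int lam hlam (Real.log n) (Real.log k)).2, Complex.ofReal_mul]
  simp only [e1, mul_one] at h1
  have h3 : ((∫ y : ℝ, ‖∑' n, b n * ((bump lam (Real.log n) y : ℝ) : ℂ)‖ ^ 2 : ℝ) : ℂ) =
      ((lam ^ 2 / 2 * ∫ t : ℝ, ‖∑' n, b n * ph n t‖ ^ 2 * gw lam t : ℝ) : ℂ) := by
    rw [h1, Complex.ofReal_mul, h2, ← mul_assoc, ← Complex.ofReal_mul, ← tsum_mul_left]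
    refine tsum_congr fun n => ?_
    rw [← tsum_mul_left]
    refine tsum_congr fun k => ?_
    have e2 : lam ^ 2 / 2 * (Real.sqrt (2 * Real.pi) / lam) = lam * Real.sqrt (2 * Real.pi) / 2 := by
      field_simp
    rw [e2]
    ring
  have h4 := Complex.ofReal_injective h3
  exact h4

end Pool.Agent.Lib.MP_3e612f_nt.MR.GA
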