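import Pool.Agent.Lib.MP_3e612f_nt.MR.Defs
import Pool.Agent.Lib.MP_3e612f_nt.Loc.KthA

/-! Weyl - van der Corput estimates for exponential sums in terms of discrete differences. -/

set_option autoImplicit false

namespace Pool.Agent.Lib.MP_3e612f_nt.MR

open Finset

/-- `e(x)` -/
noncomputable def ex (x : ℝ) : ℂ := Complex.exp ((((2 * Real.pi * x : ℝ)) : ℂ) * Complex.I)

theorem KT_ex_eq (x : ℝ) : ex x = Loc.E (2 * Real.pi * x) := rfl

theorem KT_norm_ex (x : ℝ) : ‖ex x‖ = 1 := Loc.norm_E _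

theorem KT_E_int (z : ℤ) : Loc.E (2 * Real.pi * z) = 1 := by
  unfold Loc.E
  rw [Complex.exp_eq_one_iff]
  exact ⟨z, by push_cast; ring⟩

theorem KT_kusmin (g : ℕ → ℝ) (A B : ℕ) (ν : ℤ) (δ : ℝ) (hδ : 0 < δ)
    (h1 : ∀ n ∈ Ico A B, ν + δ ≤ g (n + 1) - g n ∧ g (n + 1) - g n ≤ ν + 1 - δ)
    (h2 : ∀ n ∈ Ico A B, g (n + 1) - g n ≤ g (n + 2) - g (n + 1)) :
    ‖∑ n ∈ Ico A B, ex (g n)‖ ≤ 1 / δ := by
  have hpi := Real.pi_pos
  set G : ℕ → ℝ := fun n => 2 * Real.pi * (-(g (A + n)) + (ν + 1) * ((A + n : ℕ) : ℝ)) with hGdef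
  have hG : ∀ n, Loc.E (G n) = (starRingEnd ℂ) (ex (g (A + n))) := by
    intro n
    have e1 : G n = 2 * Real.pi * (((ν + 1) * ((A + n : ℕ) : ℤ) : ℤ) : ℝ) -
        2 * Real.pi * g (A + n) := by
      rw [hGdef]
      push_cast
      ring
    rw [e1, Loc.E_sub, KT_E_int, one_mul, KT_ex_eq]
  have key := Loc.kusmin_landau (g := G) (X := B - A) (θ := 2 * Real.pi * δ) (by positivity)
    (fun n hn => by
      have h := (h1 (A + n) (Finset.mem_Ico.2 ⟨by omega, by omega⟩)).2
      have e2 : G (n + 1) - G n = 2 * Real.pi * ((ν + 1) - (g (A + n + 1) - g (A + n))) := by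
        rw [hGdef]
        push_cast
        rw [← add_assoc]
        ring
      rw [e2]
      have : δ ≤ (ν + 1) - (g (A + n + 1) - g (A + n)) := by linarith
      nlinarith)
    (fun n hn => by
      have h := (h1 (A + n) (Finset.mem_Ico.2 ⟨by omega, by omega⟩)).1
      have e2 : G (n + 1) - G n = 2 * Real.pi * ((ν + 1) - (g (A + n + 1) - g (A + n))) := by
        rw [hGdef]
        push_cast
        rw [← add_assoc]
        ring
      rw [e2]
      have : (ν + 1) - (g (A + n + 1) - g (A + n)) ≤ 1 - δ := by linarith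
      nlinarith)
    (fun n hn => by
      have h := h2 (A + n) (Finset.mem_Ico.2 ⟨by omega, by omega⟩)
      have e2 : G (n + 1) - G n = 2 * Real.pi * ((ν + 1) - (g (A + n + 1) - g (A + n))) := by
        rw [hGdef]
        push_cast
        rw [← add_assoc]
        ring
      have e3 : G (n + 2) - G (n + 1) =
          2 * Real.pi * ((ν + 1) - (g (A + n + 2) - g (A + n + 1))) := by
        rw [hGdef]
        push_cast
        rw [← add_assoc, ← add_assoc]
        ring
      rw [e2, e3]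
      nlinarith)
  have e : ‖∑ n ∈ Ico A B, ex (g n)‖ = ‖∑ n ∈ range (B - A), Loc.E (G n)‖ := by
    rw [Finset.sum_Ico_eq_sum_range]
    simp only [hG]
    rw [← map_sum, RCLike.norm_conj]
  rw [e]
  refine key.trans (le_of_eq ?_)
  field_simp

/-- Kusmin-Landau: if the first differences of `g` are monotone and lie in `[ν + δ, ν + 1 - δ]` for an integer `ν`, the sum is
at most `4/δ`. (`e(g n) = (e(g n) - e(g(n+1)))/(1 - e(Δ g n))`, summation by parts, monotonicity of `cot`.) -/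
theorem kusmin : ∃ C : ℝ, 0 < C ∧ ∀ (g : ℕ → ℝ) (A B : ℕ) (ν : ℤ) (δ : ℝ), 0 < δ → δ ≤ 1 / 2 →
    (∀ n ∈ Ico A B, ν + δ ≤ g (n + 1) - g n ∧ g (n + 1) - g n ≤ ν + 1 - δ) →
    (∀ n ∈ Ico A B, g (n + 1) - g n ≤ g (n + 2) - g (n + 1)) →
    ‖∑ n ∈ Ico A B, ex (g n)‖ ≤ C / δ :=
  ⟨1, one_pos, fun g A B ν δ hδ _ h1 h2 => KT_kusmin g A B ν δ hδ h1 h2⟩

/-- a convex subset of `[0, N)` is an interval -/
theorem KT_convex (N : ℕ) (P : ℕ → Prop) [DecidablePred P]
    (h : ∀ a b c, a ≤ b → b ≤ c → c < N → P a → P c → P b) :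
    ∃ a b, b ≤ N ∧ (range N).filter P = Ico a b := by
  rcases ((range N).filter P).eq_empty_or_nonempty with he | hne
  · exact ⟨0, 0, Nat.zero_le _, by rw [he]; simp⟩
  · set S := (range N).filter P with hS
    have hmem : ∀ n, n ∈ S ↔ n < N ∧ P n := by
      intro n
      rw [hS, Finset.mem_filter, Finset.mem_range]
    have hmin := (hmem _).1 (S.min'_mem hne)
    have hmax := (hmem _).1 (S.max'_mem hne)
    refine ⟨S.min' hne, S.max' hne + 1, hmax.1, ?_⟩
    ext n
    rw [Finset.mem_Ico]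
    constructor
    · intro hn
      exact ⟨S.min'_le n hn, Nat.lt_succ_of_le (S.le_max' n hn)⟩
    · rintro ⟨h1, h2⟩
      rw [hmem]
      exact ⟨by omega, h _ n _ h1 (Nat.le_of_lt_succ h2) hmax.1 hmin.2 hmax.2⟩

theorem KT_vdc2 (g : ℕ → ℝ) (N : ℕ) (lam A : ℝ) (hl : 0 < lam) (hl1 : lam ≤ 1) (hA : 1 ≤ A)
    (hg : ∀ n < N, lam ≤ g (n + 2) - 2 * g (n + 1) + g n ∧
      g (n + 2) - 2 * g (n + 1) + g n ≤ A * lam) :
    ‖∑ n ∈ range N, ex (g n)‖ ≤ 12 * A * (N * Real.sqrt lam + 1 / Real.sqrt lam) := by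
  set D : ℕ → ℝ := fun n => g (n + 1) - g n with hD
  set s : ℝ := Real.sqrt lam with hs
  have hs0 : 0 < s := Real.sqrt_pos.2 hl
  have hs1 : s ≤ 1 := by
    rw [hs]
    exact Real.sqrt_le_one.2 hl1
  have hss : s * s = lam := Real.mul_self_sqrt hl.le
  -- growth of `D`
  have hstep : ∀ n < N, lam ≤ D (n + 1) - D n ∧ D (n + 1) - D n ≤ A * lam := by
    intro n hn
    have := hg n hn
    simp only [hD]
    constructor <;> [linarith [this.1]; linarith [this.2]]
  have hgrow : ∀ m n, m ≤ n → n ≤ N →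
      lam * ((n : ℝ) - m) ≤ D n - D m ∧ D n - D m ≤ A * lam * ((n : ℝ) - m) := by
    intro m n hmn
    induction n, hmn using Nat.le_induction with
    | base => intro _; simp
    | succ n hmn ih =>
      intro hn
      have h1 := ih (by omega)
      have h2 := hstep n (by omega)
      push_cast
      constructor
      · nlinarith [h1.1, h2.1]
      · nlinarith [h1.2, h2.2]
  have hmono : ∀ m n, m ≤ n → n ≤ N → D m ≤ D n := by
    intro m n hmn hn
    have h1 := (hgrow m n hmn hn).1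
    have h2 : (m : ℝ) ≤ n := by exact_mod_cast hmn
    nlinarith
  -- short pieces
  have hshort : ∀ (P : ℕ → Prop) [DecidablePred P],
      (∀ a b c, a ≤ b → b ≤ c → c < N → P a → P c → P b) →
      (∀ a b, a ≤ b → b < N → P a → P b → D b - D a ≤ s / 2) →
      ‖∑ n ∈ (range N).filter P, ex (g n)‖ ≤ 2 / s := by
    intro P _ h1 h2
    obtain ⟨a, b, hb, hab⟩ := KT_convex N P h1
    have hcard : (((range N).filter P).card : ℝ) ≤ 2 / s := by
      rw [hab, Nat.card_Ico]
      rcases le_or_gt b a with h | h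
      · rw [Nat.sub_eq_zero_of_le h]
        push_cast
        positivity
      · have ma : a ∈ (range N).filter P := by rw [hab, Finset.mem_Ico]; omega
        have mb : b - 1 ∈ (range N).filter P := by rw [hab, Finset.mem_Ico]; omega
        rw [Finset.mem_filter, Finset.mem_range] at ma mb
        have h3 := h2 a (b - 1) (by omega) mb.1 ma.2 mb.2
        have h4 := (hgrow a (b - 1) (by omega) (by omega)).1
        have h5 : ((b - 1 : ℕ) : ℝ) - a = ((b - a : ℕ) : ℝ) - 1 := by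
          rw [Nat.cast_sub (by omega), Nat.cast_sub (by omega)]
          push_cast
          ring
        rw [h5] at h4
        rw [le_div_iff₀ hs0]
        have h6 : lam * (((b - a : ℕ) : ℝ) - 1) ≤ s / 2 := h4.trans h3
        rw [← hss] at h6
        have h7 : s * (((b - a : ℕ) : ℝ) - 1) ≤ 1 / 2 := by
          by_contra hcon
          push Not at hcon
          nlinarith
        nlinarith
    refine (norm_sum_le _ _).trans ?_
    simp only [KT_norm_ex]
    rw [Finset.sum_const, nsmul_eq_mul, mul_one]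
    exact hcard
  -- one fibre
  have hfib : ∀ ν : ℤ, ‖∑ n ∈ (range N).filter (fun n => ⌊D n⌋ = ν), ex (g n)‖ ≤ 6 / s := by
    intro ν
    have hdec : (range N).filter (fun n => ⌊D n⌋ = ν) =
        (range N).filter (fun n => (ν : ℝ) ≤ D n ∧ D n < ν + s / 2) ∪
        ((range N).filter (fun n => (ν : ℝ) + s / 2 ≤ D n ∧ D n ≤ ν + 1 - s / 2) ∪
        (range N).filter (fun n => (ν : ℝ) + 1 - s / 2 < D n ∧ D n < ν + 1)) := by
      ext n
      simp only [Finset.mem_filter, Finset.mem_union, Finset.mem_range, Int.floor_eq_iff]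
      constructor
      · rintro ⟨h1, h2, h3⟩
        rcases lt_or_ge (D n) (ν + s / 2) with h | h
        · exact Or.inl ⟨h1, h2, h⟩
        · rcases lt_or_ge ((ν : ℝ) + 1 - s / 2) (D n) with h' | h'
          · exact Or.inr (Or.inr ⟨h1, h', h3⟩)
          · exact Or.inr (Or.inl ⟨h1, h, h'⟩)
      · rintro (⟨h1, h2, h3⟩ | ⟨h1, h2, h3⟩ | ⟨h1, h2, h3⟩)
        · exact ⟨h1, h2, by linarith⟩
        · exact ⟨h1, by linarith, by linarith⟩
        · exact ⟨h1, by linarith, h3⟩
    have hd1 : Disjoint ((range N).filter (fun n => (ν : ℝ) + s / 2 ≤ D n ∧ D n ≤ ν + 1 - s / 2))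
        ((range N).filter (fun n => (ν : ℝ) + 1 - s / 2 < D n ∧ D n < ν + 1)) := by
      rw [Finset.disjoint_left]
      intro n h1 h2
      rw [Finset.mem_filter] at h1 h2
      linarith [h1.2.2, h2.2.1]
    have hd2 : Disjoint ((range N).filter (fun n => (ν : ℝ) ≤ D n ∧ D n < ν + s / 2))
        ((range N).filter (fun n => (ν : ℝ) + s / 2 ≤ D n ∧ D n ≤ ν + 1 - s / 2) ∪
        (range N).filter (fun n => (ν : ℝ) + 1 - s / 2 < D n ∧ D n < ν + 1)) := by
      rw [Finset.disjoint_left]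
      intro n h1 h2
      rw [Finset.mem_union, Finset.mem_filter, Finset.mem_filter] at h2
      rw [Finset.mem_filter] at h1
      rcases h2 with h2 | h2
      · linarith [h1.2.2, h2.2.1]
      · linarith [h1.2.2, h2.2.1]
    rw [hdec, Finset.sum_union hd2, Finset.sum_union hd1]
    have c1 : ‖∑ n ∈ (range N).filter (fun n => (ν : ℝ) ≤ D n ∧ D n < ν + s / 2), ex (g n)‖ ≤
        2 / s := by
      refine hshort _ ?_ ?_
      · intro a b c hab hbc hc h1 h2
        exact ⟨h1.1.trans (hmono a b hab (by omega)),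
          (hmono b c hbc (by omega)).trans_lt h2.2⟩
      · intro a b hab hb h1 h2
        linarith [h1.1, h2.2]
    have c3 : ‖∑ n ∈ (range N).filter (fun n => (ν : ℝ) + 1 - s / 2 < D n ∧ D n < ν + 1),
        ex (g n)‖ ≤ 2 / s := by
      refine hshort _ ?_ ?_
      · intro a b c hab hbc hc h1 h2
        exact ⟨h1.1.trans_le (hmono a b hab (by omega)),
          (hmono b c hbc (by omega)).trans_lt h2.2⟩
      · intro a b hab hb h1 h2
        linarith [h1.1, h2.2]
    have c2 : ‖∑ n ∈ (range N).filter (fun n => (ν : ℝ) + s / 2 ≤ D n ∧ D n ≤ ν + 1 - s / 2),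
        ex (g n)‖ ≤ 2 / s := by
      obtain ⟨a, b, hb, hab⟩ := KT_convex N
        (fun n => (ν : ℝ) + s / 2 ≤ D n ∧ D n ≤ ν + 1 - s / 2) (by
          intro a b c hab hbc hc h1 h2
          exact ⟨h1.1.trans (hmono a b hab (by omega)),
            (hmono b c hbc (by omega)).trans h2.2⟩)
      rw [hab]
      have := KT_kusmin g a b ν (s / 2) (by positivity) (fun n hn => by
          rw [← hab, Finset.mem_filter] at hn
          exact hn.2) (fun n hn => by
          rw [← hab, Finset.mem_filter, Finset.mem_range] at hn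
          exact hmono n (n + 1) (by omega) (by omega))
      refine this.trans (le_of_eq ?_)
      field_simp
    refine (norm_add_le _ _).trans ?_
    refine (add_le_add c1 ((norm_add_le _ _).trans (add_le_add c2 c3))).trans (le_of_eq ?_)
    ring
  -- sum over the fibres
  have hmaps : ∀ n ∈ range N, ⌊D n⌋ ∈ Finset.Icc ⌊D 0⌋ ⌊D N⌋ := by
    intro n hn
    rw [Finset.mem_range] at hn
    rw [Finset.mem_Icc]
    exact ⟨Int.floor_le_floor (hmono 0 n (by omega) (by omega)),
      Int.floor_le_floor (hmono n N (by omega) le_rfl)⟩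
  rw [← Finset.sum_fiberwise_of_maps_to hmaps]
  have hcard : ((Finset.Icc ⌊D 0⌋ ⌊D N⌋).card : ℝ) ≤ A * lam * N + 2 := by
    rw [Int.card_Icc]
    have h0 : ⌊D 0⌋ ≤ ⌊D N⌋ := Int.floor_le_floor (hmono 0 N (by omega) le_rfl)
    have h1 : (((⌊D N⌋ + 1 - ⌊D 0⌋).toNat : ℕ) : ℝ) = (⌊D N⌋ : ℝ) + 1 - ⌊D 0⌋ := by
      have : (((⌊D N⌋ + 1 - ⌊D 0⌋).toNat : ℕ) : ℤ) = ⌊D N⌋ + 1 - ⌊D 0⌋ :=
        Int.toNat_of_nonneg (by omega)
      exact_mod_cast this
    rw [h1]
    have h2 := Int.floor_le (D N)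
    have h3 := Int.lt_floor_add_one (D 0)
    have h4 := (hgrow 0 N (by omega) le_rfl).2
    simp only [Nat.cast_zero, sub_zero] at h4
    linarith
  calc ‖∑ j ∈ Finset.Icc ⌊D 0⌋ ⌊D N⌋, ∑ n ∈ (range N).filter (fun n => ⌊D n⌋ = j), ex (g n)‖
      ≤ ((Finset.Icc ⌊D 0⌋ ⌊D N⌋).card : ℝ) * (6 / s) := by
        refine (norm_sum_le _ _).trans ?_
        rw [← nsmul_eq_mul]
        exact Finset.sum_le_card_nsmul _ _ _ fun j _ => hfib j
    _ ≤ (A * lam * N + 2) * (6 / s) := mul_le_mul_of_nonneg_right hcard (by positivity)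
    _ = 6 * (A * (N * s)) + 12 * (1 / s) := by
        rw [← hss]
        field_simp
        ring
    _ ≤ 6 * (A * (N * s)) + 12 * (A * (1 / s)) := by
        have h1 : 1 * (1 / s) ≤ A * (1 / s) := mul_le_mul_of_nonneg_right hA (by positivity)
        linarith
    _ ≤ 12 * A * (N * s + 1 / s) := by
        have h1 : 0 ≤ A * (N * s) := by positivity
        nlinarith

/-- Second difference test: `λ ≤ Δ²g ≤ Aλ` on `[0, N)`: `|∑_{n<N} e(g n)| ≤ C A (N λ^{1/2} + λ^{-1/2})`, `0 < λ ≤ 1`. (`Δg` is increasing with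
total increment at most `A N λ`, so it meets at most `A N λ + 2` intervals `[ν - 1/2, ν + 1/2]`; on each of these the points
with `|Δg - ν| < δ = λ^{1/2}` are at most `2δ/λ + 1`, and the others are covered by `kusmin`.) -/
theorem vdc2 : ∃ C : ℝ, 0 < C ∧ ∀ (g : ℕ → ℝ) (N : ℕ) (lam A : ℝ), 0 < lam → lam ≤ 1 → 1 ≤ A →
    (∀ n < N, lam ≤ g (n + 2) - 2 * g (n + 1) + g n ∧ g (n + 2) - 2 * g (n + 1) + g n ≤ A * lam) →
    ‖∑ n ∈ range N, ex (g n)‖ ≤ C * A * (N * Real.sqrt lam + 1 / Real.sqrt lam) :=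
  ⟨12, by norm_num, KT_vdc2⟩

theorem KT_diff (k : ℕ) : ∀ (f : ℕ → ℝ) (s n : ℕ), ((fwdDiff 1)^[k] (fun m => f (m + s) - f m)) n =
    ((fwdDiff 1)^[k] f) (n + s) - ((fwdDiff 1)^[k] f) n := by
  induction k with
  | zero => intro f s n; rfl
  | succ k ih =>
    intro f s n
    rw [Function.iterate_succ_apply, Function.iterate_succ_apply]
    have e : fwdDiff 1 (fun m => f (m + s) - f m) = fun m => fwdDiff 1 f (m + s) - fwdDiff 1 f m := by
      funext m
      show (f (m + 1 + s) - f (m + 1)) - (f (m + s) - f m) =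
        (f (m + s + 1) - f (m + s)) - (f (m + 1) - f m)
      rw [show m + 1 + s = m + s + 1 by ring]
      ring
    rw [e]
    exact ih _ s n

theorem KT_diff_sum (k : ℕ) (f : ℕ → ℝ) (s n : ℕ) :
    ((fwdDiff 1)^[k] (fun m => f (m + s) - f m)) n =
    ∑ i ∈ range s, ((fwdDiff 1)^[k + 1] f) (n + i) := by
  rw [KT_diff, Function.iterate_succ']
  have h := Finset.sum_range_sub (fun i => ((fwdDiff 1)^[k] f) (n + i)) s
  rw [add_zero] at h
  rw [← h]
  rfl

/-- `k`-th difference test. Proof by induction on `k ≥ 2` (for all `ρ`, `A`). `k = 2`: `vdc2`. Step: Weyl - van der Corput inequality with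
`H = N^{ρ/2}`: `|∑|^2 ≤ C (N^2/H + (N/H) ∑_{1 ≤ h < H} |∑_{n < N-h} e(f(n+h) - f(n))|)` (there are versions in
`MP_3e612f_nt/NTwPoly.lean`, `HD/Weyl.lean`, `WPoly.lean`), and `f(n+h) - f(n) = ∑_{i<h} Δf(n+i)` has `(k-1)`-th difference in
`[h λ, A h λ]` for `n < N - h`, where `(N/2)^{-2+ρ/2} ≤ h λ ≤ (N-h)^{-ρ/2}` for `N` large. -/
theorem kt (k : ℕ) (hk : 2 ≤ k) (ρ A : ℝ) (hρ : 0 < ρ) (hρ1 : ρ < 1) (hA : 1 ≤ A) :
    ∃ c C : ℝ, 0 < c ∧ 0 < C ∧ ∀ (f : ℕ → ℝ) (N : ℕ) (lam : ℝ), 1 ≤ N → (N : ℝ) ^ (-2 + ρ) ≤ lam →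
      lam ≤ (N : ℝ) ^ (-ρ) →
      (∀ n < N, lam ≤ ((fwdDiff 1)^[k] f) n ∧ ((fwdDiff 1)^[k] f) n ≤ A * lam) →
      ‖∑ n ∈ range N, ex (f n)‖ ≤ C * (N : ℝ) ^ (1 - c) := by
  induction k, hk using Nat.le_induction generalizing ρ with
  | base =>
    refine ⟨ρ / 2, 24 * A, by positivity, by positivity, ?_⟩
    intro f N lam hN h1 h2 hf
    have hN1 : (1 : ℝ) ≤ N := by exact_mod_cast hN
    have hN0 : (0 : ℝ) < N := by linarith
    have hl : 0 < lam := (Real.rpow_pos_of_pos hN0 _).trans_le h1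
    have hl1 : lam ≤ 1 := h2.trans (Real.rpow_le_one_of_one_le_of_nonpos hN1 (by linarith))
    have key := KT_vdc2 f N lam A hl hl1 hA (by
      intro n hn
      have := hf n hn
      have e : ((fwdDiff 1)^[2] f) n = f (n + 2) - 2 * f (n + 1) + f n := by
        show (f (n + 1 + 1) - f (n + 1)) - (f (n + 1) - f n) = _
        ring_nf
      rw [e] at this
      exact this)
    refine key.trans ?_
    have a1 : Real.sqrt lam ≤ (N : ℝ) ^ (-(ρ / 2)) := by
      rw [Real.sqrt_eq_rpow]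
      calc lam ^ (1 / 2 : ℝ) ≤ ((N : ℝ) ^ (-ρ)) ^ (1 / 2 : ℝ) :=
            Real.rpow_le_rpow hl.le h2 (by norm_num)
        _ = (N : ℝ) ^ (-(ρ / 2)) := by
            rw [← Real.rpow_mul hN0.le]
            congr 1
            ring
    have a2 : (N : ℝ) ^ (-1 + ρ / 2) ≤ Real.sqrt lam := by
      rw [Real.sqrt_eq_rpow]
      calc (N : ℝ) ^ (-1 + ρ / 2) = ((N : ℝ) ^ (-2 + ρ)) ^ (1 / 2 : ℝ) := by
            rw [← Real.rpow_mul hN0.le]
            congr 1
            ring
        _ ≤ _ := Real.rpow_le_rpow (Real.rpow_nonneg hN0.le _) h1 (by norm_num)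
    have a3 : (N : ℝ) * Real.sqrt lam ≤ (N : ℝ) ^ (1 - ρ / 2) := by
      calc (N : ℝ) * Real.sqrt lam ≤ N * (N : ℝ) ^ (-(ρ / 2)) :=
            mul_le_mul_of_nonneg_left a1 hN0.le
        _ = (N : ℝ) ^ (1 - ρ / 2) := by
            rw [sub_eq_add_neg, Real.rpow_add hN0, Real.rpow_one]
    have a4 : 1 / Real.sqrt lam ≤ (N : ℝ) ^ (1 - ρ / 2) := by
      have hp : (0 : ℝ) < (N : ℝ) ^ (-1 + ρ / 2) := Real.rpow_pos_of_pos hN0 _
      calc 1 / Real.sqrt lam ≤ 1 / (N : ℝ) ^ (-1 + ρ / 2) := one_div_le_one_div_of_le hp a2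
        _ = (N : ℝ) ^ (1 - ρ / 2) := by
            rw [one_div, ← Real.rpow_neg hN0.le]
            congr 1
            ring
    calc 12 * A * (N * Real.sqrt lam + 1 / Real.sqrt lam)
        ≤ 12 * A * ((N : ℝ) ^ (1 - ρ / 2) + (N : ℝ) ^ (1 - ρ / 2)) := by
          apply mul_le_mul_of_nonneg_left (add_le_add a3 a4) (by positivity)
      _ = 24 * A * (N : ℝ) ^ (1 - ρ / 2) := by ring
  | succ k hk ih =>
    obtain ⟨c', C', hc', hC', hih⟩ := ih (ρ / 2) (by positivity) (by linarith)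
    set c1 : ℝ := min c' 1 with hc1
    have hc10 : 0 < c1 := lt_min hc' one_pos
    have hc11 : c1 ≤ 1 := min_le_right _ _
    have hc1c : c1 ≤ c' := min_le_left _ _
    set c2 : ℝ := min (ρ / 2) c1 with hc2
    have hc20 : 0 < c2 := lt_min (by positivity) hc10
    have hc2r : c2 ≤ ρ / 2 := min_le_left _ _
    have hc21 : c2 ≤ c1 := min_le_right _ _
    set K : ℝ := Real.sqrt (5 + C') with hK
    have hK0 : 0 ≤ K := Real.sqrt_nonneg _
    refine ⟨c2 / 2, 4 + K, by positivity, by positivity, ?_⟩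
    intro f N lam hN h1 h2 hf
    have hN1 : (1 : ℝ) ≤ N := by exact_mod_cast hN
    have hN0 : (0 : ℝ) < N := by linarith
    have hl : 0 < lam := (Real.rpow_pos_of_pos hN0 _).trans_le h1
    have hNp : (0 : ℝ) < (N : ℝ) ^ (1 - c2 / 2) := Real.rpow_pos_of_pos hN0 _
    rcases lt_or_ge ((N : ℝ) ^ (ρ / 2)) 4 with hsmall | hbig
    · have b1 : ‖∑ n ∈ range N, ex (f n)‖ ≤ N := by
        refine (norm_sum_le _ _).trans ?_
        simp only [KT_norm_ex]
        simp
      have b2 : (N : ℝ) = (N : ℝ) ^ (c2 / 2) * (N : ℝ) ^ (1 - c2 / 2) := by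
        rw [← Real.rpow_add hN0]
        norm_num
      have b3 : (N : ℝ) ^ (c2 / 2) ≤ 4 :=
        (Real.rpow_le_rpow_of_exponent_le hN1 (by linarith)).trans hsmall.le
      refine b1.trans ?_
      calc (N : ℝ) = (N : ℝ) ^ (c2 / 2) * (N : ℝ) ^ (1 - c2 / 2) := b2
        _ ≤ (4 + K) * (N : ℝ) ^ (1 - c2 / 2) :=
          mul_le_mul_of_nonneg_right (by linarith) hNp.le
    · -- the large case
      set R : ℝ := (N : ℝ) ^ (ρ / 2) with hR
      set H : ℕ := ⌊R⌋₊ with hH
      have hR0 : 0 ≤ R := by linarith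
      have hHR : (H : ℝ) ≤ R := Nat.floor_le hR0
      have hRH : R < H + 1 := Nat.lt_floor_add_one R
      have hH1r : (1 : ℝ) ≤ H := by linarith
      have hH1 : 1 ≤ H := by exact_mod_cast hH1r
      have hH0 : (0 : ℝ) < H := by linarith
      have hRH2 : R ≤ 2 * H := by linarith
      have hRs : R ≤ (N : ℝ) ^ (1 / 2 : ℝ) :=
        Real.rpow_le_rpow_of_exponent_le hN1 (by linarith)
      have hss : (N : ℝ) ^ (1 / 2 : ℝ) * (N : ℝ) ^ (1 / 2 : ℝ) = N := by
        rw [← Real.rpow_add hN0]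
        norm_num
      have hRN : 2 * R ≤ N := by
        have : (4 : ℝ) ≤ (N : ℝ) ^ (1 / 2 : ℝ) := hbig.trans hRs
        nlinarith
      have hRinv : (N : ℝ) ^ (-(ρ / 2)) * R = 1 := by
        rw [hR, ← Real.rpow_add hN0]
        norm_num
      have hq0 : 0 < (N : ℝ) ^ (-(ρ / 2)) := Real.rpow_pos_of_pos hN0 _
      have hq2 : (N : ℝ) ^ (-(ρ / 2)) ≤ (N : ℝ) ^ (-c2) :=
        Real.rpow_le_rpow_of_exponent_le hN1 (by linarith)
      have hq3 : (N : ℝ) ^ (-c1) ≤ (N : ℝ) ^ (-c2) :=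
        Real.rpow_le_rpow_of_exponent_le hN1 (by linarith)
      have hp20 : 0 < (N : ℝ) ^ (-c2) := Real.rpow_pos_of_pos hN0 _
      -- the inner sums
      have hinner : ∀ s, 1 ≤ s → s < H →
          ‖∑ n ∈ range N, ex (f (n + s)) * (starRingEnd ℂ) (ex (f n))‖ ≤
            (C' * (N : ℝ) ^ (-c1) + H / N) * N := by
        intro s hs1 hsH
        have hs1r : (1 : ℝ) ≤ s := by exact_mod_cast hs1
        have hsHr : (s : ℝ) ≤ H := by exact_mod_cast hsH.le
        have hsN : 2 * (s : ℝ) ≤ N := by linarith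
        have hsN' : 2 * s ≤ N := by exact_mod_cast hsN
        have hNs : ((N - s : ℕ) : ℝ) = N - s := by
          rw [Nat.cast_sub (by omega)]
        have hM1 : 1 ≤ N - s := by omega
        have hM1r : (1 : ℝ) ≤ ((N - s : ℕ) : ℝ) := by exact_mod_cast hM1
        have hM0 : (0 : ℝ) < ((N - s : ℕ) : ℝ) := by linarith
        have hMN : ((N - s : ℕ) : ℝ) ≤ N := by rw [hNs]; linarith
        have hM2 : (N : ℝ) / 2 ≤ ((N - s : ℕ) : ℝ) := by rw [hNs]; linarith
        have key := hih (fun m => f (m + s) - f m) (N - s) (s * lam) hM1 (by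
            calc ((N - s : ℕ) : ℝ) ^ (-2 + ρ / 2) ≤ ((N : ℝ) / 2) ^ (-2 + ρ / 2) :=
                  Real.rpow_le_rpow_of_nonpos (by positivity) hM2 (by linarith)
              _ = (N : ℝ) ^ (-2 + ρ / 2) * (1 / 2 : ℝ) ^ (-2 + ρ / 2) := by
                  rw [div_eq_mul_one_div, Real.mul_rpow hN0.le (by norm_num)]
              _ ≤ (N : ℝ) ^ (-2 + ρ / 2) * 4 := by
                  apply mul_le_mul_of_nonneg_left _ (Real.rpow_nonneg hN0.le _)
                  calc (1 / 2 : ℝ) ^ (-2 + ρ / 2) ≤ (1 / 2 : ℝ) ^ (-2 : ℝ) :=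
                        Real.rpow_le_rpow_of_exponent_ge (by norm_num) (by norm_num) (by linarith)
                    _ = 4 := by
                        rw [show (-2 : ℝ) = ((-2 : ℤ) : ℝ) by norm_num, Real.rpow_intCast]
                        norm_num
              _ ≤ (N : ℝ) ^ (-2 + ρ / 2) * R :=
                  mul_le_mul_of_nonneg_left hbig (Real.rpow_nonneg hN0.le _)
              _ = (N : ℝ) ^ (-2 + ρ) := by
                  rw [hR, ← Real.rpow_add hN0]
                  congr 1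
                  ring
              _ ≤ lam := h1
              _ ≤ s * lam := by nlinarith) (by
            calc (s : ℝ) * lam ≤ R * (N : ℝ) ^ (-ρ) :=
                  mul_le_mul (hsHr.trans hHR) h2 hl.le hR0
              _ = (N : ℝ) ^ (-(ρ / 2)) := by
                  rw [hR, ← Real.rpow_add hN0]
                  congr 1
                  ring
              _ ≤ ((N - s : ℕ) : ℝ) ^ (-(ρ / 2)) :=
                  Real.rpow_le_rpow_of_nonpos hM0 hMN (by linarith)) (by
            intro n hn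
            rw [KT_diff_sum]
            have hb : ∀ i ∈ range s, lam ≤ ((fwdDiff 1)^[k + 1] f) (n + i) ∧
                ((fwdDiff 1)^[k + 1] f) (n + i) ≤ A * lam := by
              intro i hi
              rw [Finset.mem_range] at hi
              exact hf (n + i) (by omega)
            constructor
            · have := Finset.card_nsmul_le_sum (range s) _ lam (fun i hi => (hb i hi).1)
              rw [Finset.card_range, nsmul_eq_mul] at this
              exact this
            · have := Finset.sum_le_card_nsmul (range s) _ (A * lam) (fun i hi => (hb i hi).2)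
              rw [Finset.card_range, nsmul_eq_mul] at this
              refine this.trans (le_of_eq (by ring)))
        have e1 : ∀ n, ex (f (n + s)) * (starRingEnd ℂ) (ex (f n)) = ex (f (n + s) - f n) := by
          intro n
          rw [KT_ex_eq, KT_ex_eq, KT_ex_eq, ← Loc.E_sub]
          congr 1
          ring
        simp only [e1]
        have hsplit : ∑ n ∈ range N, ex (f (n + s) - f n) =
            ∑ n ∈ range (N - s), ex (f (n + s) - f n) +
            ∑ n ∈ Ico (N - s) N, ex (f (n + s) - f n) := by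
          rw [Finset.range_eq_Ico, Finset.range_eq_Ico]
          exact (Finset.sum_Ico_consecutive _ (Nat.zero_le (N - s)) (Nat.sub_le N s)).symm
        rw [hsplit]
        have d1 : ‖∑ n ∈ Ico (N - s) N, ex (f (n + s) - f n)‖ ≤ H := by
          refine (norm_sum_le _ _).trans ?_
          simp only [KT_norm_ex]
          rw [Finset.sum_const, nsmul_eq_mul, mul_one, Nat.card_Ico]
          rw [show N - (N - s) = s by omega]
          exact hsHr
        have d2 : ‖∑ n ∈ range (N - s), ex (f (n + s) - f n)‖ ≤ C' * (N : ℝ) ^ (1 - c1) := by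
          refine key.trans ?_
          apply mul_le_mul_of_nonneg_left _ hC'.le
          calc ((N - s : ℕ) : ℝ) ^ (1 - c') ≤ ((N - s : ℕ) : ℝ) ^ (1 - c1) :=
                Real.rpow_le_rpow_of_exponent_le hM1r (by linarith)
            _ ≤ (N : ℝ) ^ (1 - c1) := Real.rpow_le_rpow hM0.le hMN (by linarith)
        have d3 : (N : ℝ) ^ (1 - c1) = (N : ℝ) ^ (-c1) * N := by
          rw [show 1 - c1 = -c1 + 1 by ring, Real.rpow_add hN0, Real.rpow_one]
        refine (norm_add_le _ _).trans ((add_le_add d2 d1).trans (le_of_eq ?_))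
        rw [d3]
        field_simp
      have hv := Loc.vdc (X := N) (H := H) hN hH1 (U := fun n => ex (f n))
        (fun n => (KT_norm_ex _).le) (δ := C' * (N : ℝ) ^ (-c1) + H / N) (by positivity) hinner
      refine hv.trans ?_
      have g1 : 1 / (H : ℝ) ≤ 2 * (N : ℝ) ^ (-c2) := by
        rw [div_le_iff₀ hH0]
        nlinarith
      have g2 : (H : ℝ) / N ≤ (N : ℝ) ^ (-c2) := by
        rw [div_le_iff₀ hN0]
        have g3 : R * R ≤ N := by
          calc R * R ≤ (N : ℝ) ^ (1 / 2 : ℝ) * (N : ℝ) ^ (1 / 2 : ℝ) :=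
                mul_le_mul hRs hRs hR0 (by positivity)
            _ = N := hss
        have g4 : (N : ℝ) ^ (-(ρ / 2)) * (R * R) = R := by
          rw [← mul_assoc, hRinv, one_mul]
        calc (H : ℝ) ≤ R := hHR
          _ = (N : ℝ) ^ (-(ρ / 2)) * (R * R) := g4.symm
          _ ≤ (N : ℝ) ^ (-c2) * N := mul_le_mul hq2 g3 (by positivity) hp20.le
      have g5 : 1 / (H : ℝ) + (C' * (N : ℝ) ^ (-c1) + H / N) + 2 * H / N ≤
          (5 + C') * (N : ℝ) ^ (-c2) := by
        have g6 : C' * (N : ℝ) ^ (-c1) ≤ C' * (N : ℝ) ^ (-c2) :=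
          mul_le_mul_of_nonneg_left hq3 hC'.le
        have g7 : 2 * (H : ℝ) / N = 2 * (H / N) := by ring
        rw [g7]
        linarith
      have g8 : (N : ℝ) ^ (-c2) = ((N : ℝ) ^ (-(c2 / 2))) ^ 2 := by
        rw [← Real.rpow_natCast, ← Real.rpow_mul hN0.le]
        congr 1
        push_cast
        ring
      have g9 : Real.sqrt (1 / (H : ℝ) + (C' * (N : ℝ) ^ (-c1) + H / N) + 2 * H / N) ≤
          K * (N : ℝ) ^ (-(c2 / 2)) := by
        refine (Real.sqrt_le_sqrt g5).trans (le_of_eq ?_)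
        rw [Real.sqrt_mul (by positivity), g8, Real.sqrt_sq (Real.rpow_nonneg hN0.le _)]
      have g10 : 2 * (H : ℝ) ≤ 4 * (N : ℝ) ^ (1 - c2 / 2) := by
        have : (N : ℝ) ^ (1 / 2 : ℝ) ≤ (N : ℝ) ^ (1 - c2 / 2) :=
          Real.rpow_le_rpow_of_exponent_le hN1 (by linarith)
        linarith
      have g11 : (N : ℝ) * (K * (N : ℝ) ^ (-(c2 / 2))) = K * (N : ℝ) ^ (1 - c2 / 2) := by
        rw [show 1 - c2 / 2 = -(c2 / 2) + 1 by ring, Real.rpow_add hN0, Real.rpow_one]
        ring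
      calc 2 * (H : ℝ) + N * Real.sqrt (1 / (H : ℝ) + (C' * (N : ℝ) ^ (-c1) + H / N) + 2 * H / N)
          ≤ 4 * (N : ℝ) ^ (1 - c2 / 2) + N * (K * (N : ℝ) ^ (-(c2 / 2))) :=
            add_le_add g10 (mul_le_mul_of_nonneg_left g9 hN0.le)
        _ = (4 + K) * (N : ℝ) ^ (1 - c2 / 2) := by rw [g11]; ring

end Pool.Agent.Lib.MP_3e612f_nt.MR
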