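import Pool.Agent.Lib.MP_3e612f_nt.MR.Gauss

/-! Moments of prime polynomials. -/

set_option autoImplicit false

namespace Pool.Agent.Lib.MP_3e612f_nt.MR

open Finset MeasureTheory

theorem mom_succ (P : Finset ℕ) (j : ℕ) (F : (Fin (j + 1) → ℕ) → ℝ) :
    ∑ g ∈ Fintype.piFinset (fun _ : Fin (j + 1) => P), F g =
      ∑ g ∈ Fintype.piFinset (fun _ : Fin j => P), ∑ p ∈ P, F (Fin.cons p g) := by
  rw [← Finset.sum_product']
  refine Finset.sum_bij' (fun g _ => (Fin.tail g, g 0)) (fun x _ => Fin.cons x.2 x.1) ?_ ?_ ?_ ?_ ?_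
  · intro g hg
    rw [Fintype.mem_piFinset] at hg
    exact Finset.mem_product.2 ⟨Fintype.mem_piFinset.2 fun i => hg _, hg 0⟩
  · intro x hx
    obtain ⟨h1, h2⟩ := Finset.mem_product.1 hx
    rw [Fintype.mem_piFinset] at h1 ⊢
    intro i
    refine Fin.cases ?_ (fun i => ?_) i
    · simpa using h2
    · simpa using h1 i
  · intro g _
    exact Fin.cons_self_tail g
  · intro x _
    simp
  · intro g _
    simp only [Fin.cons_self_tail]

theorem mom_lcm_step (n G p : ℕ) (hn : 0 < n) (hG : 0 < G) (hp : p.Prime) :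
    (1 : ℝ) / (Nat.lcm n (p * G) : ℕ) ≤
      1 / (Nat.lcm n G : ℕ) * ((if p ∣ n then 1 else 0) + 1 / p) := by
  have hp0 : (0 : ℝ) < p := by exact_mod_cast hp.pos
  have hL : 0 < Nat.lcm n G := Nat.lcm_pos hn hG
  have hLr : (0 : ℝ) < (Nat.lcm n G : ℕ) := by exact_mod_cast hL
  by_cases h : p ∣ n
  · rw [if_pos h]
    have h1 : Nat.lcm n G ∣ Nat.lcm n (p * G) := Nat.lcm_dvd_lcm_of_dvd_right _ (Dvd.intro_left p rfl)
    have h2 : Nat.lcm n G ≤ Nat.lcm n (p * G) :=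
      Nat.le_of_dvd (Nat.lcm_pos hn (Nat.mul_pos hp.pos hG)) h1
    have h3 : (1 : ℝ) / (Nat.lcm n (p * G) : ℕ) ≤ 1 / (Nat.lcm n G : ℕ) :=
      one_div_le_one_div_of_le hLr (by exact_mod_cast h2)
    have h4 : (0 : ℝ) ≤ 1 / (Nat.lcm n G : ℕ) * (1 / p) := by positivity
    linarith
  · rw [if_neg h]
    have hco : Nat.Coprime p n := (Nat.Prime.coprime_iff_not_dvd hp).2 h
    have h1 : Nat.gcd n (p * G) = Nat.gcd n G := Nat.Coprime.gcd_mul_left_cancel_right G hco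
    have h2 : Nat.lcm n (p * G) = p * Nat.lcm n G := by
      have h3 := Nat.gcd_mul_lcm n (p * G)
      have h4 := Nat.gcd_mul_lcm n G
      rw [h1] at h3
      have h5 : 0 < Nat.gcd n G := Nat.gcd_pos_of_pos_left _ hn
      apply Nat.eq_of_mul_eq_mul_left h5
      rw [h3, Nat.mul_left_comm (Nat.gcd n G), h4]
      ring
    rw [h2]
    push_cast
    rw [zero_add]
    apply le_of_eq
    field_simp

theorem mom_T (P : Finset ℕ) (hP : ∀ p ∈ P, p.Prime) (h1 : ∑ p ∈ P, (1 : ℝ) / p ≤ 1) (n l : ℕ)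
    (hn : 0 < n) (hl : (P.filter (fun p => p ∣ n)).card ≤ l) (j : ℕ) :
    ∑ g ∈ Fintype.piFinset (fun _ : Fin j => P), (1 : ℝ) / (Nat.lcm n (∏ i, g i) : ℕ) ≤
      ((l : ℝ) + 1) ^ j * (1 / n) := by
  induction j with
  | zero =>
    simp
  | succ j ih =>
    rw [mom_succ]
    have h2 : ∀ g ∈ Fintype.piFinset (fun _ : Fin j => P),
        ∑ p ∈ P, (1 : ℝ) / (Nat.lcm n (∏ i, (Fin.cons p g : Fin (j + 1) → ℕ) i) : ℕ) ≤
          (1 : ℝ) / (Nat.lcm n (∏ i, g i) : ℕ) * ((l : ℝ) + 1) := by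
      intro g hg
      rw [Fintype.mem_piFinset] at hg
      have hG : 0 < ∏ i, g i := Finset.prod_pos fun i _ => (hP _ (hg i)).pos
      have h3 : ∀ p ∈ P, (1 : ℝ) / (Nat.lcm n (∏ i, (Fin.cons p g : Fin (j + 1) → ℕ) i) : ℕ) ≤
          1 / (Nat.lcm n (∏ i, g i) : ℕ) * ((if p ∣ n then 1 else 0) + 1 / p) := by
        intro p hp
        rw [Fin.prod_univ_succ]
        simp only [Fin.cons_zero, Fin.cons_succ]
        exact mom_lcm_step n _ p hn hG (hP p hp)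
      refine (Finset.sum_le_sum h3).trans ?_
      rw [← Finset.mul_sum, Finset.sum_add_distrib]
      apply mul_le_mul_of_nonneg_left _ (by positivity)
      have h4 : ∑ p ∈ P, (if p ∣ n then (1 : ℝ) else 0) = (P.filter (fun p => p ∣ n)).card := by
        rw [Finset.sum_ite, Finset.sum_const_zero, add_zero, Finset.sum_const, nsmul_eq_mul,
          mul_one]
      rw [h4]
      have h5 : ((P.filter (fun p => p ∣ n)).card : ℝ) ≤ l := by exact_mod_cast hl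
      linarith
    refine (Finset.sum_le_sum h2).trans ?_
    rw [← Finset.sum_mul]
    have h3 := mul_le_mul_of_nonneg_right ih (show (0 : ℝ) ≤ (l : ℝ) + 1 by positivity)
    refine h3.trans (le_of_eq ?_)
    ring

/-- Proof. For fixed `f`, with `n0 = ∏ f i` and `L_i = lcm(n0, g_0 ⋯ g_{i-1})`: either `L_{i+1} = g_i L_i`, or `L_{i+1} = L_i` and then
`g_i ∣ n0`, for which there are at most `l` values. So `∑_{g_i} 1/L_{i+1} ≤ (1/L_i)(l + ∑ 1/p) ≤ (l+1)/L_i`, and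
`∑_f 1/n0 = (∑ 1/p)^l ≤ 1`. -/
theorem lcm_sum (P : Finset ℕ) (hP : ∀ p ∈ P, p.Prime) (h1 : ∑ p ∈ P, (1 : ℝ) / p ≤ 1) (l : ℕ) :
    ∑ f ∈ Fintype.piFinset (fun _ : Fin l => P), ∑ g ∈ Fintype.piFinset (fun _ : Fin l => P),
      (1 : ℝ) / (Nat.lcm (∏ i, f i) (∏ i, g i) : ℕ) ≤ ((l : ℝ) + 1) ^ l := by
  classical
  have h2 : ∀ f ∈ Fintype.piFinset (fun _ : Fin l => P),
      ∑ g ∈ Fintype.piFinset (fun _ : Fin l => P),
        (1 : ℝ) / (Nat.lcm (∏ i, f i) (∏ i, g i) : ℕ) ≤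
        ((l : ℝ) + 1) ^ l * ∏ i, (1 : ℝ) / (f i) := by
    intro f hf
    rw [Fintype.mem_piFinset] at hf
    have hn : 0 < ∏ i, f i := Finset.prod_pos fun i _ => (hP _ (hf i)).pos
    have h3 : (P.filter (fun p => p ∣ ∏ i, f i)).card ≤ l := by
      have h4 : P.filter (fun p => p ∣ ∏ i, f i) ⊆ Finset.univ.image f := by
        intro p hp
        obtain ⟨h5, h6⟩ := Finset.mem_filter.1 hp
        obtain ⟨i, _, hi⟩ := (Prime.dvd_finset_prod_iff (hP p h5).prime f).1 h6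
        have h7 := (Nat.prime_dvd_prime_iff_eq (hP p h5) (hP _ (hf i))).1 hi
        exact Finset.mem_image.2 ⟨i, Finset.mem_univ _, h7.symm⟩
      have h8 := (Finset.card_le_card h4).trans Finset.card_image_le
      rwa [Finset.card_univ, Fintype.card_fin] at h8
    have h4 := mom_T P hP h1 (∏ i, f i) l hn h3 l
    refine h4.trans (le_of_eq ?_)
    congr 1
    rw [Finset.prod_div_distrib, Finset.prod_const_one]
    push_cast
    rfl
  refine (Finset.sum_le_sum h2).trans ?_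
  rw [← Finset.mul_sum]
  have h3 : ∑ f ∈ Fintype.piFinset (fun _ : Fin l => P), ∏ i, (1 : ℝ) / (f i) =
      (∑ p ∈ P, (1 : ℝ) / p) ^ l := by
    have h4 := Finset.prod_univ_sum (fun _ : Fin l => P) (fun _ p => (1 : ℝ) / (p : ℝ))
    rw [← h4, Finset.prod_const, Finset.card_univ, Fintype.card_fin]
  rw [h3]
  have h4 : (∑ p ∈ P, (1 : ℝ) / p) ^ l ≤ 1 :=
    pow_le_one₀ (Finset.sum_nonneg fun p _ => by positivity) h1
  have h5 : (0 : ℝ) ≤ ((l : ℝ) + 1) ^ l := by positivity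
  nlinarith

theorem mom_ph_one (t : ℝ) : ph 1 t = 1 := by
  simp [ph]

theorem mom_ph_mul (n k : ℕ) (hn : n ≠ 0) (hk : k ≠ 0) (t : ℝ) : ph (n * k) t = ph n t * ph k t := by
  unfold ph
  rw [← Complex.exp_add]
  congr 1
  push_cast [Real.log_mul (Nat.cast_ne_zero.2 hn) (Nat.cast_ne_zero.2 hk)]
  ring

theorem mom_ph_prod {ι : Type*} (s : Finset ι) (f : ι → ℕ) (hf : ∀ i ∈ s, f i ≠ 0) (t : ℝ) :
    ph (∏ i ∈ s, f i) t = ∏ i ∈ s, ph (f i) t := by
  classical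
  induction s using Finset.induction_on with
  | empty => simp [mom_ph_one]
  | insert a s ha ih =>
    rw [Finset.prod_insert ha, Finset.prod_insert ha, mom_ph_mul _ _ (hf a (Finset.mem_insert_self _ _))
      (Finset.prod_ne_zero_iff.2 fun i hi => hf i (Finset.mem_insert_of_mem hi)),
      ih fun i hi => hf i (Finset.mem_insert_of_mem hi)]

theorem mom_co_le (m : ℕ) (a : ZMod m) (X : ℝ) (n : ℕ) : |co m a X n| ≤ 1 := by
  unfold co
  split
  · rw [abs_mul]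
    have h1 : |mu n| ≤ 1 := by
      unfold mu
      have h2 : |(ArithmeticFunction.moebius n : ℤ)| ≤ 1 := ArithmeticFunction.abs_moebius_le_one
      rw [← Int.cast_abs]
      exact_mod_cast h2
    have h2 : |psi (Real.log n - Real.log X)| ≤ 1 := by
      unfold psi
      rw [abs_of_nonneg (le_max_left _ _)]
      exact max_le zero_le_one (min_le_left _ _)
    calc |mu n| * |psi (Real.log n - Real.log X)| ≤ 1 * 1 :=
          mul_le_mul h1 h2 (abs_nonneg _) zero_le_one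
      _ = 1 := one_mul 1
  · simp

theorem mom_one (d n : ℕ) (hd : 0 < d) (K : Finset ℕ) (c : ℕ → ℝ) (hc : ∀ k, |c k| ≤ 1) :
    ‖∑ k ∈ K, if d * k = n then ((c k : ℝ) : ℂ) else 0‖ ≤ if d ∣ n then 1 else 0 := by
  by_cases h : d ∣ n
  · rw [if_pos h]
    obtain ⟨k0, rfl⟩ := h
    have h1 : ∀ k, (d * k = d * k0) ↔ (k = k0) := fun k =>
      ⟨fun h => Nat.eq_of_mul_eq_mul_left hd h, fun h => by rw [h]⟩
    simp only [h1]
    rw [Finset.sum_ite_eq' K k0]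
    split
    · rw [Complex.norm_real]
      exact hc k0
    · simp
  · rw [if_neg h]
    apply le_of_eq
    rw [norm_eq_zero]
    refine Finset.sum_eq_zero fun k _ => ?_
    rw [if_neg]
    intro h2
    exact h ⟨k, h2.symm⟩

theorem mom_mult (N L : ℕ) : ∑ n ∈ Icc 1 N, (if L ∣ n then (1 : ℝ) else 0) ≤ N * (1 / L) := by
  rw [Finset.sum_ite, Finset.sum_const_zero, add_zero, Finset.sum_const, nsmul_eq_mul, mul_one]
  have h1 : (Icc 1 N).filter (fun n => L ∣ n) = (Ioc 0 N).filter (fun n => L ∣ n) := rfl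
  rw [h1, Nat.Ioc_filter_dvd_card_eq_div]
  have h2 : ((N / L : ℕ) : ℝ) ≤ (N : ℝ) / L := Nat.cast_div_le
  rw [mul_one_div]
  exact h2

theorem mom_sq (S : Finset ℕ) {ι : Type*} (I : Finset ι) (d : ι → ℕ) :
    ∑ n ∈ S, (∑ f ∈ I, if d f ∣ n then (1 : ℝ) else 0) ^ 2 =
      ∑ f ∈ I, ∑ g ∈ I, ∑ n ∈ S, (if Nat.lcm (d f) (d g) ∣ n then (1 : ℝ) else 0) := by
  have h1 : ∀ n ∈ S, (∑ f ∈ I, if d f ∣ n then (1 : ℝ) else 0) ^ 2 =
      ∑ f ∈ I, ∑ g ∈ I, (if Nat.lcm (d f) (d g) ∣ n then (1 : ℝ) else 0) := by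
    intro n _
    rw [sq, Finset.sum_mul_sum]
    refine Finset.sum_congr rfl fun f _ => Finset.sum_congr rfl fun g _ => ?_
    by_cases h2 : d f ∣ n
    · by_cases h3 : d g ∣ n
      · rw [if_pos h2, if_pos h3, if_pos (Nat.lcm_dvd h2 h3), one_mul]
      · rw [if_neg h3, mul_zero, if_neg fun h => h3 ((Nat.dvd_lcm_right _ _).trans h)]
    · rw [if_neg h2, zero_mul, if_neg fun h => h2 ((Nat.dvd_lcm_left _ _).trans h)]
  rw [Finset.sum_congr rfl h1, Finset.sum_comm]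
  refine Finset.sum_congr rfl fun f _ => ?_
  rw [Finset.sum_comm]

/-- Proof. `QQ^l · DD = (1/N1) ∑_{f, k} ± (f_1 ⋯ f_l k)^{-it}` with `N1 = Y e^{l v/H}`, over `f_i ∈ pw H v`, `k ≤ 21Y`: a
Dirichlet polynomial of length `≤ N2 = 21 e^l N1` whose coefficient at `n` is at most `#{f : ∏ f i ∣ n}`. So
`∑ |coefficient|^2 ≤ N1^{-2} N2 ∑_{f, g} 1/lcm(∏ f, ∏ g)` and `gauss_mv`, `lcm_sum` give
`7 (1/η + N2) N2 N1^{-2} (l+1)^l ≤ C (1/(η N1) + 1) e^{2l} (l+1)^l`. -/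
theorem mom : ∃ C : ℝ, 0 < C ∧ ∀ (m : ℕ) [NeZero m] (a b : ZMod m) (H v l : ℕ) (Y η : ℝ),
    1 ≤ H → 1 ≤ Y → 0 < η → ∑ p ∈ pw H v, (1 : ℝ) / p ≤ 1 →
    ∫ t : ℝ, ‖QQ m b H v t ^ l * DD m a Y t‖ ^ 2 * gw η t ≤
      C * (1 / (η * (Y * Real.exp (l * ((v : ℝ) / H)))) + 1) * (Real.exp 2 * ((l : ℝ) + 1)) ^ l := by
  classical
  refine ⟨7 * 441, by norm_num, ?_⟩
  intro m _ a b H v l Y η hH hY hη hsum
  have hY0 : 0 < Y := by linarith
  have hHr : (1 : ℝ) ≤ H := by exact_mod_cast hH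
  have hH0 : (0 : ℝ) < H := by linarith
  -- the primes of the class
  obtain ⟨P, hPdef⟩ : ∃ P, P = (pw H v).filter (fun p => ((p : ℕ) : ZMod m) = b) := ⟨_, rfl⟩
  have hPp : ∀ p ∈ P, p.Prime ∧ (p : ℝ) ≤ Real.exp (((v : ℝ) + 1) / H) := by
    intro p hp
    rw [hPdef] at hp
    have h1 := (Finset.mem_filter.1 hp).1
    unfold pw at h1
    obtain ⟨h2, h3, h4⟩ := Finset.mem_filter.1 h1
    refine ⟨h3, ?_⟩
    have h5 := (Finset.mem_Icc.1 h2).2
    exact (Nat.le_floor_iff (Real.exp_pos _).le).1 h5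
  have hP1 : ∑ p ∈ P, (1 : ℝ) / p ≤ 1 := by
    refine le_trans ?_ hsum
    rw [hPdef]
    exact Finset.sum_le_sum_of_subset_of_nonneg (Finset.filter_subset _ _)
      fun p _ _ => by positivity
  obtain ⟨N1, hN1⟩ : ∃ N1, N1 = Y * Real.exp (l * ((v : ℝ) / H)) := ⟨_, rfl⟩
  have hN10 : 0 < N1 := by rw [hN1]; positivity
  obtain ⟨N2, hN2⟩ : ∃ N2, N2 = 21 * Y * Real.exp (l * (((v : ℝ) + 1) / H)) := ⟨_, rfl⟩
  have hN20 : 0 < N2 := by rw [hN2]; positivity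
  have hN21 : N2 ≤ 21 * Real.exp l * N1 := by
    rw [hN2, hN1]
    have h1 : Real.exp (l * (((v : ℝ) + 1) / H)) ≤ Real.exp l * Real.exp (l * ((v : ℝ) / H)) := by
      rw [← Real.exp_add]
      apply Real.exp_le_exp.2
      have h2 : (l : ℝ) * (((v : ℝ) + 1) / H) = l * ((v : ℝ) / H) + l * (1 / H) := by ring
      have h3 : (l : ℝ) * (1 / H) ≤ l * 1 :=
        mul_le_mul_of_nonneg_left ((div_le_one hH0).2 hHr) (Nat.cast_nonneg l)
      linarith
    calc 21 * Y * Real.exp (l * (((v : ℝ) + 1) / H))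
        ≤ 21 * Y * (Real.exp l * Real.exp (l * ((v : ℝ) / H))) :=
          mul_le_mul_of_nonneg_left h1 (by positivity)
      _ = 21 * Real.exp l * (Y * Real.exp (l * ((v : ℝ) / H))) := by ring
  obtain ⟨I, hI⟩ : ∃ I, I = Fintype.piFinset (fun _ : Fin l => P) := ⟨_, rfl⟩
  obtain ⟨K, hK⟩ : ∃ K, K = Icc 1 ⌊21 * Y⌋₊ := ⟨_, rfl⟩
  obtain ⟨N, hN⟩ : ∃ N, N = ⌊N2⌋₊ := ⟨_, rfl⟩
  have hNle : (N : ℝ) ≤ N2 := by
    rw [hN]
    exact Nat.floor_le hN20.le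
  have hfI : ∀ f ∈ I, ∀ i, (f i).Prime ∧ ((f i : ℕ) : ℝ) ≤ Real.exp (((v : ℝ) + 1) / H) := by
    intro f hf i
    rw [hI, Fintype.mem_piFinset] at hf
    exact hPp _ (hf i)
  have hfpos : ∀ f ∈ I, 0 < ∏ i, f i := fun f hf => Finset.prod_pos fun i _ => (hfI f hf i).1.pos
  have hfle : ∀ f ∈ I, ((∏ i, f i : ℕ) : ℝ) ≤ Real.exp (l * (((v : ℝ) + 1) / H)) := by
    intro f hf
    push_cast
    calc ∏ i, ((f i : ℕ) : ℝ) ≤ ∏ _i : Fin l, Real.exp (((v : ℝ) + 1) / H) :=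
          Finset.prod_le_prod (fun i _ => Nat.cast_nonneg _) fun i _ => (hfI f hf i).2
      _ = Real.exp (l * (((v : ℝ) + 1) / H)) := by
          rw [Finset.prod_const, Finset.card_univ, Fintype.card_fin, ← Real.exp_nat_mul]
  have hmem : ∀ f ∈ I, ∀ k ∈ K, (∏ i, f i) * k ∈ Icc 1 N := by
    intro f hf k hk
    rw [hK, Finset.mem_Icc] at hk
    rw [Finset.mem_Icc]
    refine ⟨Nat.mul_pos (hfpos f hf) hk.1, ?_⟩
    rw [hN]
    apply Nat.le_floor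
    push_cast
    have h1 : (k : ℝ) ≤ 21 * Y := (Nat.le_floor_iff (by positivity)).1 hk.2
    have h2 := hfle f hf
    push_cast at h2
    calc (∏ i, ((f i : ℕ) : ℝ)) * k ≤ Real.exp (l * (((v : ℝ) + 1) / H)) * (21 * Y) :=
          mul_le_mul h2 h1 (Nat.cast_nonneg _) (Real.exp_pos _).le
      _ = N2 := by rw [hN2]; ring
  -- the coefficients
  obtain ⟨B, hB⟩ : ∃ B : ℕ → ℂ, B = fun n => ((1 / N1 : ℝ) : ℂ) *
      ∑ f ∈ I, ∑ k ∈ K, if (∏ i, f i) * k = n then ((co m a Y k : ℝ) : ℂ) else 0 := ⟨_, rfl⟩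
  have key : ∀ t : ℝ, QQ m b H v t ^ l * DD m a Y t = ∑ n ∈ Icc 1 N, B n * ph n t := by
    intro t
    have e1 : (∑ p ∈ P, ph p t) ^ l = ∑ f ∈ I, ph (∏ i, f i) t := by
      have h4 := Finset.prod_univ_sum (fun _ : Fin l => P) (fun _ p => ph p t)
      rw [Finset.prod_const, Finset.card_univ, Fintype.card_fin] at h4
      rw [h4, ← hI]
      refine Finset.sum_congr rfl fun f hf => ?_
      rw [mom_ph_prod _ _ fun i _ => (hfI f hf i).1.ne_zero]
    have e2 : QQ m b H v t ^ l = ((Real.exp (-(l * ((v : ℝ) / H))) : ℝ) : ℂ) *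
        ∑ f ∈ I, ph (∏ i, f i) t := by
      unfold QQ
      rw [← hPdef, mul_pow, e1]
      congr 1
      rw [← Complex.ofReal_pow, ← Real.exp_nat_mul]
      congr 2
      ring
    have e3 : ((Real.exp (-(l * ((v : ℝ) / H))) : ℝ) : ℂ) * ((1 / Y : ℝ) : ℂ) =
        ((1 / N1 : ℝ) : ℂ) := by
      rw [← Complex.ofReal_mul]
      congr 1
      rw [hN1, Real.exp_neg]
      field_simp
    have e4 : ∑ n ∈ Icc 1 N, B n * ph n t = ((1 / N1 : ℝ) : ℂ) *
        ∑ f ∈ I, ∑ k ∈ K, ((co m a Y k : ℝ) : ℂ) * ph ((∏ i, f i) * k) t := by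
      rw [hB]
      simp only [mul_assoc]
      rw [← Finset.mul_sum]
      congr 1
      simp only [Finset.sum_mul]
      rw [Finset.sum_comm]
      refine Finset.sum_congr rfl fun f hf => ?_
      rw [Finset.sum_comm]
      refine Finset.sum_congr rfl fun k hk => ?_
      have h5 : ∀ n, (if (∏ i, f i) * k = n then ((co m a Y k : ℝ) : ℂ) else 0) * ph n t =
          if (∏ i, f i) * k = n then ((co m a Y k : ℝ) : ℂ) * ph n t else 0 := by
        intro n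
        split
        · rfl
        · rw [zero_mul]
      simp only [h5]
      rw [Finset.sum_ite_eq, if_pos (hmem f hf k hk)]
    rw [e4, e2]
    unfold DD
    rw [← hK, ← e3]
    have e5 : (((Real.exp (-(l * ((v : ℝ) / H))) : ℝ) : ℂ) * ∑ f ∈ I, ph (∏ i, f i) t) *
        (((1 / Y : ℝ) : ℂ) * ∑ n ∈ K, ((co m a Y n : ℝ) : ℂ) * ph n t) =
        ((Real.exp (-(l * ((v : ℝ) / H))) : ℝ) : ℂ) * ((1 / Y : ℝ) : ℂ) *
        ((∑ f ∈ I, ph (∏ i, f i) t) * ∑ n ∈ K, ((co m a Y n : ℝ) : ℂ) * ph n t) := by ring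
    refine e5.trans ?_
    congr 1
    rw [Finset.sum_mul_sum]
    refine Finset.sum_congr rfl fun f hf => Finset.sum_congr rfl fun k hk => ?_
    rw [hK, Finset.mem_Icc] at hk
    rw [mom_ph_mul _ _ (hfpos f hf).ne' (by omega)]
    ring
  have hBn : ∀ n, ‖B n‖ ≤ 1 / N1 * ∑ f ∈ I, (if (∏ i, f i) ∣ n then (1 : ℝ) else 0) := by
    intro n
    rw [hB]
    rw [norm_mul, Complex.norm_real, Real.norm_of_nonneg (by positivity)]
    apply mul_le_mul_of_nonneg_left _ (by positivity)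
    refine (norm_sum_le _ _).trans (Finset.sum_le_sum fun f hf => ?_)
    exact mom_one _ n (hfpos f hf) K _ fun k => mom_co_le m a Y k
  have hsq : ∑ n ∈ Icc 1 N, ‖B n‖ ^ 2 ≤ (1 / N1) ^ 2 * (N * ((l : ℝ) + 1) ^ l) := by
    have h1 : ∀ n ∈ Icc 1 N, ‖B n‖ ^ 2 ≤ (1 / N1) ^ 2 *
        (∑ f ∈ I, (if (∏ i, f i) ∣ n then (1 : ℝ) else 0)) ^ 2 := by
      intro n _
      rw [← mul_pow]
      exact pow_le_pow_left₀ (norm_nonneg _) (hBn n) 2
    refine (Finset.sum_le_sum h1).trans ?_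
    rw [← Finset.mul_sum]
    apply mul_le_mul_of_nonneg_left _ (by positivity)
    rw [mom_sq (Icc 1 N) I (fun f => ∏ i, f i)]
    have h2 : ∑ f ∈ I, ∑ g ∈ I, ∑ n ∈ Icc 1 N,
        (if Nat.lcm (∏ i, f i) (∏ i, g i) ∣ n then (1 : ℝ) else 0) ≤
        ∑ f ∈ I, ∑ g ∈ I, (N : ℝ) * (1 / (Nat.lcm (∏ i, f i) (∏ i, g i) : ℕ)) :=
      Finset.sum_le_sum fun f _ => Finset.sum_le_sum fun g _ => mom_mult N _
    refine h2.trans ?_
    simp only [← Finset.mul_sum]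
    apply mul_le_mul_of_nonneg_left _ (Nat.cast_nonneg N)
    rw [hI]
    exact lcm_sum P (fun p hp => (hPp p hp).1) hP1 l
  have hint : ∫ t : ℝ, ‖QQ m b H v t ^ l * DD m a Y t‖ ^ 2 * gw η t =
      ∫ t : ℝ, ‖∑ n ∈ Icc 1 N, B n * ph n t‖ ^ 2 * gw η t := by
    congr 1
    funext t
    rw [key t]
  rw [hint]
  refine (gauss_mv (Icc 1 N) N (fun n hn => Finset.mem_Icc.1 hn) B η hη).trans ?_
  have hl0 : (0 : ℝ) ≤ ((l : ℝ) + 1) ^ l := by positivity
  have hpow : (Real.exp 2 * ((l : ℝ) + 1)) ^ l = Real.exp l ^ 2 * ((l : ℝ) + 1) ^ l := by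
    rw [mul_pow, ← Real.exp_nat_mul, ← Real.exp_nat_mul]
    congr 2
    push_cast
    ring
  have hel : 1 ≤ Real.exp l := Real.one_le_exp (Nat.cast_nonneg l)
  calc 7 * (1 / η + (N : ℝ)) * ∑ n ∈ Icc 1 N, ‖B n‖ ^ 2
      ≤ 7 * (1 / η + (N : ℝ)) * ((1 / N1) ^ 2 * (N * ((l : ℝ) + 1) ^ l)) :=
        mul_le_mul_of_nonneg_left hsq (by positivity)
    _ ≤ 7 * (1 / η + N2) * ((1 / N1) ^ 2 * (N2 * ((l : ℝ) + 1) ^ l)) := by gcongr
    _ = 7 * ((1 / (η * N1)) * (N2 / N1) + (N2 / N1) ^ 2) * ((l : ℝ) + 1) ^ l := by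
        field_simp
    _ ≤ 7 * ((1 / (η * N1)) * (441 * Real.exp l ^ 2) + 441 * Real.exp l ^ 2) *
          ((l : ℝ) + 1) ^ l := by
        have h1 : N2 / N1 ≤ 21 * Real.exp l := by
          rw [div_le_iff₀ hN10]
          exact hN21
        have h2 : 0 ≤ N2 / N1 := by positivity
        have h3 : (N2 / N1) ^ 2 ≤ 441 * Real.exp l ^ 2 := by
          calc (N2 / N1) ^ 2 ≤ (21 * Real.exp l) ^ 2 := pow_le_pow_left₀ h2 h1 2
            _ = 441 * Real.exp l ^ 2 := by ring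
        have h4 : N2 / N1 ≤ 441 * Real.exp l ^ 2 := by nlinarith
        gcongr
    _ = 7 * 441 * (1 / (η * (Y * Real.exp (l * ((v : ℝ) / H)))) + 1) *
          (Real.exp 2 * ((l : ℝ) + 1)) ^ l := by
        rw [hpow, ← hN1]
        ring

end Pool.Agent.Lib.MP_3e612f_nt.MR
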