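import Pool.Agent.Lib.MP_3e612f_nt.MR.TK
import Pool.Agent.Lib.MP_3e612f_nt.MR.Mom

/-! One level. -/

set_option autoImplicit false

namespace Pool.Agent.Lib.MP_3e612f_nt.MR

open Finset MeasureTheory

/-! ### Continuous and bounded functions -/

/-- continuous and bounded -/
def LevCB (f : ℝ → ℂ) : Prop := Continuous f ∧ ∃ B : ℝ, ∀ t, ‖f t‖ ≤ B

theorem LevCB.const (c : ℂ) : LevCB (fun _ => c) := ⟨continuous_const, ‖c‖, fun _ => le_rfl⟩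

theorem LevCB.add {f g : ℝ → ℂ} (hf : LevCB f) (hg : LevCB g) : LevCB (fun t => f t + g t) := by
  obtain ⟨h1, B, hB⟩ := hf
  obtain ⟨h2, C, hC⟩ := hg
  exact ⟨h1.add h2, B + C, fun t => (norm_add_le _ _).trans (add_le_add (hB t) (hC t))⟩

theorem LevCB.mul {f g : ℝ → ℂ} (hf : LevCB f) (hg : LevCB g) : LevCB (fun t => f t * g t) := by
  obtain ⟨h1, B, hB⟩ := hf
  obtain ⟨h2, C, hC⟩ := hg
  refine ⟨h1.mul h2, B * C, fun t => ?_⟩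
  rw [norm_mul]
  exact mul_le_mul (hB t) (hC t) (norm_nonneg _) ((norm_nonneg _).trans (hB t))

theorem LevCB.sum {ι : Type} (s : Finset ι) {f : ι → ℝ → ℂ} (hf : ∀ i ∈ s, LevCB (f i)) :
    LevCB (fun t => ∑ i ∈ s, f i t) := by
  classical
  induction s using Finset.induction_on with
  | empty => simpa using LevCB.const 0
  | insert i s hi ih =>
    have h1 := (hf i (mem_insert_self i s)).add (ih (fun j hj => hf j (mem_insert_of_mem hj)))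
    have e : (fun t => ∑ j ∈ insert i s, f j t) = fun t => f i t + ∑ j ∈ s, f j t := by
      funext t
      rw [sum_insert hi]
    rw [e]
    exact h1

theorem LevCB.pow {f : ℝ → ℂ} (hf : LevCB f) (l : ℕ) : LevCB (fun t => f t ^ l) := by
  induction l with
  | zero => simpa using LevCB.const 1
  | succ l ih => simpa only [pow_succ] using ih.mul hf

theorem lev_norm_ph (n : ℕ) (t : ℝ) : ‖ph n t‖ = 1 := by
  unfold ph
  rw [show -(((t * Real.log n : ℝ) : ℂ) * Complex.I) =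
    ((-(t * Real.log n) : ℝ) : ℂ) * Complex.I by push_cast; ring]
  exact Complex.norm_exp_ofReal_mul_I _

theorem LevCB.ph (n : ℕ) : LevCB (ph n) := by
  refine ⟨?_, 1, fun t => (lev_norm_ph n t).le⟩
  unfold MR.ph
  fun_prop

theorem LevCB.QQ (m : ℕ) (b : ZMod m) (H v : ℕ) : LevCB (fun t => QQ m b H v t) := by
  unfold MR.QQ
  exact (LevCB.const _).mul (LevCB.sum _ (fun i _ => LevCB.ph i))

theorem LevCB.DD (m : ℕ) (a : ZMod m) (X : ℝ) : LevCB (fun t => DD m a X t) := by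
  unfold MR.DD
  exact (LevCB.const _).mul (LevCB.sum _ (fun i _ => (LevCB.const _).mul (LevCB.ph i)))

theorem lev_gw_pos (η t : ℝ) : 0 < gw η t := Real.exp_pos _

theorem lev_gw_int {η : ℝ} (hη : 0 < η) : Integrable (gw η) := by
  have h := integrable_exp_neg_mul_sq (b := η ^ 2 / 2) (by positivity)
  have e : gw η = fun x : ℝ => Real.exp (-(η ^ 2 / 2) * x ^ 2) := by
    funext x
    unfold gw
    congr 1
    ring
  rw [e]
  exact h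

theorem lev_gw_cont (η : ℝ) : Continuous (gw η) := by
  unfold gw
  fun_prop

theorem LevCB.int {f : ℝ → ℂ} (hf : LevCB f) {η : ℝ} (hη : 0 < η) :
    Integrable (fun t => ‖f t‖ ^ 2 * gw η t) := by
  obtain ⟨h1, B, hB⟩ := hf
  refine ((lev_gw_int hη).const_mul (B ^ 2)).mono' ?_ ?_
  · exact ((h1.norm.pow 2).mul (lev_gw_cont η)).aestronglyMeasurable
  · refine Filter.Eventually.of_forall fun t => ?_
    rw [Real.norm_of_nonneg (mul_nonneg (sq_nonneg _) (lev_gw_pos η t).le)]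
    exact mul_le_mul_of_nonneg_right (pow_le_pow_left₀ (norm_nonneg _) (hB t) 2)
      (lev_gw_pos η t).le

theorem lev_sm_meas (m : ℕ) [NeZero m] (α : ℝ) (H v0 v1 : ℕ) :
    MeasurableSet (sm m α H v0 v1) := by
  have e : sm m α H v0 v1 = ⋂ v ∈ Ico v0 v1, ⋂ b : (ZMod m)ˣ,
      {t | ‖QQ m (b : ZMod m) H v t‖ ≤ Real.exp (-(α * ((v : ℝ) / H)))} := by
    ext t
    simp only [sm, Set.mem_setOf_eq, Set.mem_iInter]
  rw [e]
  apply IsClosed.measurableSet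
  refine isClosed_biInter fun v _ => isClosed_iInter fun b => ?_
  exact isClosed_le (LevCB.QQ m _ H v).1.norm continuous_const

/-- The mean value of `DD`. -/
theorem lev_mom0 : ∃ C : ℝ, 0 < C ∧ ∀ (m : ℕ) [NeZero m] (a : ZMod m) (Y η : ℝ),
    1 ≤ Y → 0 < η → ∫ t : ℝ, ‖DD m a Y t‖ ^ 2 * gw η t ≤ C * (1 / (η * Y) + 1) := by
  obtain ⟨C, hC, h⟩ := mom
  refine ⟨C, hC, fun m _ a Y η hY hη => ?_⟩
  have h1 := h m a 0 1 0 0 Y η le_rfl hY hη (by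
    have hs : pw 1 0 ⊆ {2} := by
      intro p hp
      simp only [pw, mem_filter, mem_Icc] at hp
      obtain ⟨⟨h1, h2⟩, h3, h4⟩ := hp
      have h5 : (p : ℝ) ≤ Real.exp 1 := by
        have := (Nat.le_floor_iff (Real.exp_pos _).le).1 h2
        simpa using this
      have h6 : (p : ℝ) < 3 := by
        have := Real.exp_one_lt_d9
        linarith
      have h7 : p < 3 := by exact_mod_cast h6
      have h8 := h3.two_le
      rw [mem_singleton]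
      omega
    calc ∑ p ∈ pw 1 0, (1 : ℝ) / p ≤ ∑ p ∈ ({2} : Finset ℕ), (1 : ℝ) / p :=
          sum_le_sum_of_subset_of_nonneg hs (fun i _ _ => by positivity)
      _ ≤ 1 := by norm_num)
  simpa using h1

/-- The number of the pairs. -/
theorem lev_card (m : ℕ) [NeZero m] (v₀ v₁ : ℕ) :
    (((Ico v₀ v₁ ×ˢ (univ : Finset (ZMod m)ˣ)).card : ℕ) : ℝ) ≤ (v₁ : ℝ) * m := by
  rw [card_product, Nat.card_Ico, card_univ, ZMod.card_units_eq_totient]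
  have h1 : (v₁ - v₀) * Nat.totient m ≤ v₁ * m :=
    Nat.mul_le_mul (Nat.sub_le _ _) (Nat.totient_le _)
  exact_mod_cast h1

/-- The pointwise bound. -/
theorem lev_point (m : ℕ) [NeZero m] (v₀ v₁ : ℕ) (D : ℂ) (W : ℝ) (hW : 1 ≤ W)
    (x : ℕ → (ZMod m)ˣ → ℂ) :
    ‖D‖ ^ 2 ≤ 2 * ‖D + ((1 / W : ℝ) : ℂ) * ∑ v ∈ Ico v₀ v₁, ∑ b : (ZMod m)ˣ, x v b‖ ^ 2 +
      2 * ((v₁ : ℝ) * m) * ∑ v ∈ Ico v₀ v₁, ∑ b : (ZMod m)ˣ, ‖x v b‖ ^ 2 := by
  have h1 : ‖∑ v ∈ Ico v₀ v₁, ∑ b : (ZMod m)ˣ, x v b‖ ^ 2 ≤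
      ((v₁ : ℝ) * m) * ∑ v ∈ Ico v₀ v₁, ∑ b : (ZMod m)ˣ, ‖x v b‖ ^ 2 := by
    rw [← sum_product', ← sum_product']
    calc ‖∑ y ∈ Ico v₀ v₁ ×ˢ (univ : Finset (ZMod m)ˣ), x y.1 y.2‖ ^ 2
        ≤ (∑ y ∈ Ico v₀ v₁ ×ˢ (univ : Finset (ZMod m)ˣ), ‖x y.1 y.2‖) ^ 2 :=
          pow_le_pow_left₀ (norm_nonneg _) (norm_sum_le _ _) 2
      _ ≤ ((Ico v₀ v₁ ×ˢ (univ : Finset (ZMod m)ˣ)).card : ℝ) *
          ∑ y ∈ Ico v₀ v₁ ×ˢ (univ : Finset (ZMod m)ˣ), ‖x y.1 y.2‖ ^ 2 :=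
          sq_sum_le_card_mul_sum_sq
      _ ≤ _ := mul_le_mul_of_nonneg_right (lev_card m v₀ v₁)
          (sum_nonneg fun i _ => sq_nonneg _)
  set S := ∑ v ∈ Ico v₀ v₁, ∑ b : (ZMod m)ˣ, x v b with hS
  have h2 : ‖((1 / W : ℝ) : ℂ) * S‖ ^ 2 ≤ ‖S‖ ^ 2 := by
    apply pow_le_pow_left₀ (norm_nonneg _)
    rw [norm_mul, Complex.norm_real, Real.norm_of_nonneg (by positivity)]
    have : 1 / W ≤ 1 := by
      rw [div_le_one (by linarith)]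
      exact hW
    calc 1 / W * ‖S‖ ≤ 1 * ‖S‖ := mul_le_mul_of_nonneg_right this (norm_nonneg _)
      _ = ‖S‖ := one_mul _
  have h3 : ‖D‖ ≤ ‖D + ((1 / W : ℝ) : ℂ) * S‖ + ‖((1 / W : ℝ) : ℂ) * S‖ := by
    calc ‖D‖ = ‖(D + ((1 / W : ℝ) : ℂ) * S) - ((1 / W : ℝ) : ℂ) * S‖ := by
          rw [add_sub_cancel_right]
      _ ≤ _ := norm_sub_le _ _
  have h4 : ‖D‖ ^ 2 ≤ (‖D + ((1 / W : ℝ) : ℂ) * S‖ + ‖((1 / W : ℝ) : ℂ) * S‖) ^ 2 :=
    pow_le_pow_left₀ (norm_nonneg _) h3 2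
  nlinarith [sq_nonneg (‖D + ((1 / W : ℝ) : ℂ) * S‖ - ‖((1 / W : ℝ) : ℂ) * S‖)]

/-- Integration of a pointwise bound by a finite sum. -/
theorem lev_integral {ι : Type} (s : Finset ι) (S : Set ℝ) (hS : MeasurableSet S) (f E : ℝ → ℂ)
    (hf : LevCB f) (hE : LevCB E) (c : ι → ℝ) (hc : ∀ i ∈ s, 0 ≤ c i) (g : ι → ℝ → ℂ)
    (hg : ∀ i ∈ s, LevCB (g i)) {η : ℝ} (hη : 0 < η)
    (h : ∀ t ∈ S, ‖f t‖ ^ 2 ≤ 2 * ‖E t‖ ^ 2 + ∑ i ∈ s, c i * ‖g i t‖ ^ 2) :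
    ∫ t in S, ‖f t‖ ^ 2 * gw η t ≤
      2 * (∫ t : ℝ, ‖E t‖ ^ 2 * gw η t) + ∑ i ∈ s, c i * ∫ t : ℝ, ‖g i t‖ ^ 2 * gw η t := by
  have i1 : Integrable (fun t => 2 * (‖E t‖ ^ 2 * gw η t)) := (hE.int hη).const_mul 2
  have i2 : Integrable (fun t => ∑ i ∈ s, c i * (‖g i t‖ ^ 2 * gw η t)) :=
    integrable_finset_sum s fun i hi => ((hg i hi).int hη).const_mul (c i)
  have i3 : Integrable (fun t => 2 * (‖E t‖ ^ 2 * gw η t) +
      ∑ i ∈ s, c i * (‖g i t‖ ^ 2 * gw η t)) := i1.add i2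
  calc ∫ t in S, ‖f t‖ ^ 2 * gw η t
      ≤ ∫ t in S, (2 * (‖E t‖ ^ 2 * gw η t) + ∑ i ∈ s, c i * (‖g i t‖ ^ 2 * gw η t)) := by
        apply setIntegral_mono_on (hf.int hη).integrableOn i3.integrableOn hS
        intro t ht
        have h1 := mul_le_mul_of_nonneg_right (h t ht) (lev_gw_pos η t).le
        rw [add_mul, sum_mul] at h1
        refine h1.trans (le_of_eq ?_)
        congr 1
        · ring
        · exact sum_congr rfl fun i _ => by ring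
    _ ≤ ∫ t, (2 * (‖E t‖ ^ 2 * gw η t) + ∑ i ∈ s, c i * (‖g i t‖ ^ 2 * gw η t)) := by
        apply setIntegral_le_integral i3
        refine Filter.Eventually.of_forall fun t => ?_
        have hw := (lev_gw_pos η t).le
        have h1 : 0 ≤ ∑ i ∈ s, c i * (‖g i t‖ ^ 2 * gw η t) :=
          sum_nonneg fun i hi => mul_nonneg (hc i hi) (mul_nonneg (sq_nonneg _) hw)
        have h2 : 0 ≤ 2 * (‖E t‖ ^ 2 * gw η t) := by positivity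
        exact add_nonneg h2 h1
    _ = _ := by
        rw [integral_add i1 i2, integral_const_mul, integral_finset_sum s
          (fun i hi => ((hg i hi).int hη).const_mul (c i))]
        congr 1
        exact sum_congr rfl fun i _ => integral_const_mul _ _

/-- Proof. `|D|^2 ≤ 2|(1/W)∑∑ QR|^2 + 2|E|^2` with `tk`; on the set, by Cauchy-Schwarz,
`|(1/W) ∑_{v,b} Q R|^2 ≤ (v1 m) ∑_{v,b} |Q|^2 |R|^2 ≤ (v1 m) e^{-2α v0/H} ∑_{v,b} |R|^2` and `mom` with `l = 0`,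
`Y = X e^{-v/H} ≥ 1`, gives `∫ |R|^2 gw ≤ C(1/(η X e^{-v/H}) + 1) ≤ 2C` since `e^{v1/H} ≤ η X`. (`l = 0` in `mom`: the condition on
`∑ 1/p` is used there only for `l ≥ 1`; apply `mom` with `l = 0` and `H = 1`, `v = 0`, where `∑ 1/p = 1/2`.) -/
theorem lev_one : ∃ C : ℝ, 0 < C ∧ ∀ (m : ℕ) [NeZero m] (a : ZMod m) (H v₀ v₁ : ℕ) (X η α : ℝ),
    1 ≤ H → v₀ ≤ v₁ → (m : ℝ) ≤ Real.exp ((v₀ : ℝ) / H) → Real.exp ((v₁ : ℝ) / H) ≤ X →
    Real.exp ((v₁ : ℝ) / H) ≤ η * X → 1 ≤ WW H v₀ v₁ → 0 ≤ α →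
    ∫ t in sm m α H v₀ v₁, ‖DD m a X t‖ ^ 2 * gw η t ≤
      C * (1 / WW H v₀ v₁ + Real.exp (-((v₀ : ℝ) / H)) + 1 / (H : ℝ) ^ 2) +
      C * (((v₁ : ℝ) * m) ^ 2 * Real.exp (-(2 * α * ((v₀ : ℝ) / H)))) := by
  obtain ⟨C₁, hC₁, tk1⟩ := tk
  simp only [MT] at tk1
  obtain ⟨C₂, hC₂, m0⟩ := lev_mom0
  refine ⟨2 * C₁ + 4 * C₂, by positivity, ?_⟩
  intro m _ a H v₀ v₁ X η α hH hv hm hX hηX hW hα
  have hHr : (0 : ℝ) < H := by exact_mod_cast hH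
  have he1 : 1 ≤ Real.exp ((v₁ : ℝ) / H) := Real.one_le_exp (by positivity)
  have hX1 : 1 ≤ X := he1.trans hX
  have hη : 0 < η := by
    by_contra hc
    have : η * X ≤ 0 := mul_nonpos_of_nonpos_of_nonneg (not_lt.1 hc) (by linarith)
    linarith
  have hη1 : 1 / X ≤ η := by
    rw [div_le_iff₀ (by linarith)]
    linarith
  have t1 := tk1 m a H v₀ v₁ X η hH hv hm hX hη1 hW
  set s : Finset (ℕ × (ZMod m)ˣ) := Ico v₀ v₁ ×ˢ univ with hs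
  set c : ℝ := 2 * ((v₁ : ℝ) * m) * Real.exp (-(2 * α * ((v₀ : ℝ) / H))) with hc
  have hc0 : 0 ≤ c := by positivity
  have hcardR : ((s.card : ℕ) : ℝ) ≤ (v₁ : ℝ) * m := lev_card m v₀ v₁
  have key := lev_integral s (sm m α H v₀ v₁) (lev_sm_meas m α H v₀ v₁) (fun t => DD m a X t)
    (fun t => DD m a X t + ((1 / WW H v₀ v₁ : ℝ) : ℂ) * ∑ v ∈ Ico v₀ v₁, ∑ b : (ZMod m)ˣ,
      QQ m (b : ZMod m) H v t *
        DD m (a * ((b⁻¹ : (ZMod m)ˣ) : ZMod m)) (X * Real.exp (-((v : ℝ) / H))) t)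
    (LevCB.DD m a X)
    ((LevCB.DD m a X).add ((LevCB.const _).mul (LevCB.sum _ fun v _ => LevCB.sum _ fun b _ =>
      (LevCB.QQ m _ H v).mul (LevCB.DD m _ _))))
    (fun _ => c) (fun _ _ => hc0)
    (fun x t => DD m (a * ((x.2⁻¹ : (ZMod m)ˣ) : ZMod m)) (X * Real.exp (-((x.1 : ℝ) / H))) t)
    (fun x _ => LevCB.DD m _ _) hη (by
      intro t ht
      have h1 := lev_point m v₀ v₁ (DD m a X t) (WW H v₀ v₁) hW (fun v b =>
        QQ m (b : ZMod m) H v t *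
          DD m (a * ((b⁻¹ : (ZMod m)ˣ) : ZMod m)) (X * Real.exp (-((v : ℝ) / H))) t)
      refine h1.trans ?_
      refine add_le_add le_rfl ?_
      rw [← sum_product', mul_sum]
      refine sum_le_sum fun x hx => ?_
      obtain ⟨h2, -⟩ := mem_product.1 hx
      have h3 := ht x.1 h2 x.2
      have h4 := (mem_Ico.1 h2).1
      have h5 : Real.exp (-(α * ((x.1 : ℝ) / H))) ≤ Real.exp (-(α * ((v₀ : ℝ) / H))) := by
        apply Real.exp_le_exp.2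
        have : (v₀ : ℝ) / H ≤ (x.1 : ℝ) / H :=
          div_le_div_of_nonneg_right (by exact_mod_cast h4) hHr.le
        nlinarith
      have h6 : ‖QQ m (x.2 : ZMod m) H x.1 t‖ ^ 2 ≤ Real.exp (-(2 * α * ((v₀ : ℝ) / H))) := by
        calc ‖QQ m (x.2 : ZMod m) H x.1 t‖ ^ 2 ≤ Real.exp (-(α * ((v₀ : ℝ) / H))) ^ 2 :=
              pow_le_pow_left₀ (norm_nonneg _) (h3.trans h5) 2
          _ = Real.exp (-(2 * α * ((v₀ : ℝ) / H))) := by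
              rw [← Real.exp_nat_mul]
              congr 1
              push_cast
              ring
      rw [norm_mul, mul_pow]
      have h7 := mul_le_mul_of_nonneg_right h6 (sq_nonneg
        ‖DD m (a * ((x.2⁻¹ : (ZMod m)ˣ) : ZMod m)) (X * Real.exp (-((x.1 : ℝ) / H))) t‖)
      calc _ ≤ 2 * ((v₁ : ℝ) * m) * _ := mul_le_mul_of_nonneg_left h7 (by positivity)
        _ = _ := by
          rw [hc]
          ring)
  refine key.trans ?_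
  have hsum : ∑ x ∈ s, c * ∫ t : ℝ, ‖DD m (a * ((x.2⁻¹ : (ZMod m)ˣ) : ZMod m))
      (X * Real.exp (-((x.1 : ℝ) / H))) t‖ ^ 2 * gw η t ≤ ((v₁ : ℝ) * m) * (c * (2 * C₂)) := by
    calc _ ≤ ∑ x ∈ s, c * (2 * C₂) := by
          refine sum_le_sum fun x hx => mul_le_mul_of_nonneg_left ?_ hc0
          obtain ⟨h2, -⟩ := mem_product.1 hx
          have h4 := (mem_Ico.1 h2).2
          have h5 : Real.exp ((x.1 : ℝ) / H) ≤ Real.exp ((v₁ : ℝ) / H) := by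
            apply Real.exp_le_exp.2
            exact div_le_div_of_nonneg_right (by exact_mod_cast h4.le) hHr.le
          have he : 0 < Real.exp ((x.1 : ℝ) / H) := Real.exp_pos _
          have e1 : X * Real.exp (-((x.1 : ℝ) / H)) = X / Real.exp ((x.1 : ℝ) / H) := by
            rw [Real.exp_neg, ← div_eq_mul_inv]
          have hY : 1 ≤ X * Real.exp (-((x.1 : ℝ) / H)) := by
            rw [e1, le_div_iff₀ he]
            linarith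
          have h6 := m0 m (a * ((x.2⁻¹ : (ZMod m)ˣ) : ZMod m)) (X * Real.exp (-((x.1 : ℝ) / H))) η
            hY hη
          have h7 : 1 / (η * (X * Real.exp (-((x.1 : ℝ) / H)))) ≤ 1 := by
            rw [div_le_one (by positivity), e1, ← mul_div_assoc, le_div_iff₀ he]
            linarith
          refine h6.trans ?_
          nlinarith
      _ = (s.card : ℝ) * (c * (2 * C₂)) := by rw [sum_const, nsmul_eq_mul]
      _ ≤ _ := mul_le_mul_of_nonneg_right hcardR (by positivity)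
  have hA : 0 ≤ 1 / WW H v₀ v₁ + Real.exp (-((v₀ : ℝ) / H)) + 1 / (H : ℝ) ^ 2 := by
    have := Real.exp_pos (-((v₀ : ℝ) / H))
    have : 0 ≤ 1 / WW H v₀ v₁ := by positivity
    positivity
  have hB : 0 ≤ ((v₁ : ℝ) * m) ^ 2 * Real.exp (-(2 * α * ((v₀ : ℝ) / H))) := by positivity
  have e2 : ((v₁ : ℝ) * m) * (c * (2 * C₂)) =
      4 * C₂ * (((v₁ : ℝ) * m) ^ 2 * Real.exp (-(2 * α * ((v₀ : ℝ) / H)))) := by
    rw [hc]
    ring
  rw [e2] at hsum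
  have h8 := mul_nonneg hC₂.le hA
  have h9 := mul_nonneg hC₁.le hB
  nlinarith

/-- The exponents of `lev_two`. -/
theorem lev_expo (p q p' q' y y' α α' : ℝ) (l : ℕ) (hp : 0 < p) (hp' : 0 < p') (py : p ≤ y)
    (yq : y ≤ q) (py' : p' ≤ y') (yq' : y' ≤ q') (hl : (l : ℝ) ≤ y / y' + 1) (hα' : 0 ≤ α')
    (hα : α' ≤ α)
    (A : (1 / p' + 1 / p) * Real.log (Real.exp 2 * (q * (1 / p') + 2)) ≤ (α - α') / 2)
    (B : 2 * α' * (q' + 1) ≤ (α - α') / 2 * p) :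
    Real.exp (-(2 * α * y)) * Real.exp (2 * l * (α' * y')) * (Real.exp 2 * ((l : ℝ) + 1)) ^ l ≤
      Real.exp (-((α - α') * p)) := by
  have hy : 0 < y := hp.trans_le py
  have hy' : 0 < y' := hp'.trans_le py'
  have e2 : 0 < Real.exp 2 := Real.exp_pos 2
  have h1 : y / y' ≤ q * (1 / p') := by
    rw [mul_one_div]
    exact div_le_div₀ (by linarith) yq hp' py'
  have h2 : y / y' ≤ y * (1 / p') := by
    rw [mul_one_div]
    exact div_le_div_of_nonneg_left hy.le hp' py'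
  have h3 : 1 ≤ y * (1 / p) := by
    rw [mul_one_div, le_div_iff₀ hp]
    linarith
  have h4 : (l : ℝ) ≤ y * (1 / p' + 1 / p) := by
    rw [mul_add]
    linarith
  have hb : 0 < Real.exp 2 * ((l : ℝ) + 1) := by positivity
  have hL : 0 ≤ Real.log (Real.exp 2 * (q * (1 / p') + 2)) := by
    apply Real.log_nonneg
    have : 1 ≤ Real.exp 2 := Real.one_le_exp (by norm_num)
    have : 0 ≤ q * (1 / p') := by
      have : 0 < q := hy.trans_le yq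
      positivity
    nlinarith
  have h5 : Real.log (Real.exp 2 * ((l : ℝ) + 1)) ≤
      Real.log (Real.exp 2 * (q * (1 / p') + 2)) := by
    apply Real.log_le_log hb
    apply mul_le_mul_of_nonneg_left _ e2.le
    linarith
  have h6 : (l : ℝ) * Real.log (Real.exp 2 * ((l : ℝ) + 1)) ≤ y * ((α - α') / 2) := by
    calc (l : ℝ) * Real.log (Real.exp 2 * ((l : ℝ) + 1))
        ≤ (l : ℝ) * Real.log (Real.exp 2 * (q * (1 / p') + 2)) :=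
          mul_le_mul_of_nonneg_left h5 (Nat.cast_nonneg _)
      _ ≤ y * (1 / p' + 1 / p) * Real.log (Real.exp 2 * (q * (1 / p') + 2)) :=
          mul_le_mul_of_nonneg_right h4 hL
      _ = y * ((1 / p' + 1 / p) * Real.log (Real.exp 2 * (q * (1 / p') + 2))) := by ring
      _ ≤ _ := mul_le_mul_of_nonneg_left A hy.le
  have h7 : (Real.exp 2 * ((l : ℝ) + 1)) ^ l =
      Real.exp ((l : ℝ) * Real.log (Real.exp 2 * ((l : ℝ) + 1))) := by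
    rw [Real.exp_nat_mul, Real.exp_log hb]
  have h8 : (l : ℝ) * y' ≤ y + q' := by
    calc (l : ℝ) * y' ≤ (y / y' + 1) * y' := mul_le_mul_of_nonneg_right hl hy'.le
      _ = y + y' := by field_simp
      _ ≤ _ := by linarith
  have h9 : 2 * (l : ℝ) * (α' * y') ≤ 2 * α' * y + (α - α') / 2 * p := by
    have := mul_le_mul_of_nonneg_left h8 hα'
    nlinarith
  rw [h7, ← Real.exp_add, ← Real.exp_add]
  apply Real.exp_le_exp.2
  have h10 : (α - α') * p ≤ (α - α') * y := mul_le_mul_of_nonneg_left py (by linarith)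
  nlinarith

/-- The exponents used in `lev_two`. -/
noncomputable def levL (H H' v v' : ℕ) : ℕ := ⌈((v : ℝ) / H) / ((v' : ℝ) / H')⌉₊

/-- The weights used in `lev_two`. -/
noncomputable def levc (m : ℕ) (H v₁ H' : ℕ) (α α' : ℝ) (v v' : ℕ) : ℝ :=
  2 * ((v₁ : ℝ) * m) * (Real.exp (-(2 * α * ((v : ℝ) / H))) *
    Real.exp (2 * (levL H H' v v' : ℝ) * (α' * ((v' : ℝ) / H'))))

theorem levc_nonneg (m : ℕ) (H v₁ H' : ℕ) (α α' : ℝ) (v v' : ℕ) :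
    0 ≤ levc m H v₁ H' α α' v v' := by
  unfold levc
  positivity

theorem lev_single {A : Type} (s : Finset (ℕ × A)) (F : ℕ → A → ℝ) (hF : ∀ x y, 0 ≤ F x y)
    (x : ℕ) (y : A) (h : (x, y) ∈ s) : F x y ≤ ∑ z ∈ s, F z.1 z.2 :=
  Finset.single_le_sum (f := fun z : ℕ × A => F z.1 z.2) (fun _ _ => hF _ _) h

/-- The pointwise bound of `lev_two`. -/
theorem lev_two_pt (m : ℕ) [NeZero m] (a : ZMod m) (H v₀ v₁ H' v₀' v₁' : ℕ) (X α α' : ℝ)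
    (hW : 1 ≤ WW H v₀ v₁) (t : ℝ) (ht : t ∈ sm m α H v₀ v₁ ∩ (sm m α' H' v₀' v₁')ᶜ) :
    ‖DD m a X t‖ ^ 2 ≤
      2 * ‖DD m a X t + ((1 / WW H v₀ v₁ : ℝ) : ℂ) * ∑ v ∈ Ico v₀ v₁, ∑ b : (ZMod m)ˣ,
        QQ m (b : ZMod m) H v t *
          DD m (a * ((b⁻¹ : (ZMod m)ˣ) : ZMod m)) (X * Real.exp (-((v : ℝ) / H))) t‖ ^ 2 +
      ∑ z ∈ (Ico v₀ v₁ ×ˢ (univ : Finset (ZMod m)ˣ)) ×ˢ
          (Ico v₀' v₁' ×ˢ (univ : Finset (ZMod m)ˣ)), levc m H v₁ H' α α' z.1.1 z.2.1 *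
        ‖QQ m (z.2.2 : ZMod m) H' z.2.1 t ^ (levL H H' z.1.1 z.2.1) *
          DD m (a * ((z.1.2⁻¹ : (ZMod m)ˣ) : ZMod m))
            (X * Real.exp (-((z.1.1 : ℝ) / H))) t‖ ^ 2 := by
  obtain ⟨ht1, ht2⟩ := ht
  have h1 := lev_point m v₀ v₁ (DD m a X t) (WW H v₀ v₁) hW (fun v b =>
    QQ m (b : ZMod m) H v t *
      DD m (a * ((b⁻¹ : (ZMod m)ˣ) : ZMod m)) (X * Real.exp (-((v : ℝ) / H))) t)
  refine h1.trans ?_
  refine add_le_add le_rfl ?_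
  obtain ⟨v', hv1', b', hb'⟩ : ∃ v' ∈ Ico v₀' v₁', ∃ b' : (ZMod m)ˣ,
      Real.exp (-(α' * ((v' : ℝ) / H'))) < ‖QQ m (b' : ZMod m) H' v' t‖ := by
    by_contra hcon
    apply ht2
    intro v hv b
    by_contra hcon2
    exact hcon ⟨v, hv, b, not_le.1 hcon2⟩
  have e3 : ∀ f : (ℕ × (ZMod m)ˣ) × (ℕ × (ZMod m)ˣ) → ℝ,
      ∑ z ∈ (Ico v₀ v₁ ×ˢ (univ : Finset (ZMod m)ˣ)) ×ˢ
          (Ico v₀' v₁' ×ˢ (univ : Finset (ZMod m)ˣ)), f z =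
      ∑ x ∈ Ico v₀ v₁ ×ˢ (univ : Finset (ZMod m)ˣ),
        ∑ y ∈ Ico v₀' v₁' ×ˢ (univ : Finset (ZMod m)ˣ), f (x, y) := fun f => sum_product _ _ _
  rw [← sum_product', mul_sum, e3]
  refine sum_le_sum fun x hx => ?_
  obtain ⟨h2, -⟩ := mem_product.1 hx
  have h3 := ht1 x.1 h2 x.2
  have hmem : (v', b') ∈ Ico v₀' v₁' ×ˢ (univ : Finset (ZMod m)ˣ) := by
    rw [mem_product]
    exact ⟨hv1', mem_univ _⟩
  have hsin := lev_single (Ico v₀' v₁' ×ˢ (univ : Finset (ZMod m)ˣ)) (fun p q =>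
    levc m H v₁ H' α α' x.1 p * ‖QQ m (q : ZMod m) H' p t ^ (levL H H' x.1 p) *
      DD m (a * ((x.2⁻¹ : (ZMod m)ˣ) : ZMod m)) (X * Real.exp (-((x.1 : ℝ) / H))) t‖ ^ 2)
    (fun p q => mul_nonneg (levc_nonneg m H v₁ H' α α' x.1 p) (sq_nonneg _)) v' b' hmem
  refine le_trans ?_ hsin
  unfold levc
  rw [norm_mul, norm_mul, norm_pow, mul_pow, mul_pow, ← pow_mul]
  generalize levL H H' x.1 v' = L
  have hR1 := sq_nonneg ‖DD m (a * ((x.2⁻¹ : (ZMod m)ˣ) : ZMod m))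
    (X * Real.exp (-((x.1 : ℝ) / H))) t‖
  generalize ‖DD m (a * ((x.2⁻¹ : (ZMod m)ˣ) : ZMod m))
    (X * Real.exp (-((x.1 : ℝ) / H))) t‖ ^ 2 = R at hR1 ⊢
  have hR0 : 0 ≤ R := hR1
  have h6 : ‖QQ m (x.2 : ZMod m) H x.1 t‖ ^ 2 ≤ Real.exp (-(2 * α * ((x.1 : ℝ) / H))) := by
    calc ‖QQ m (x.2 : ZMod m) H x.1 t‖ ^ 2 ≤ Real.exp (-(α * ((x.1 : ℝ) / H))) ^ 2 :=
          pow_le_pow_left₀ (norm_nonneg _) h3 2
      _ = Real.exp (-(2 * α * ((x.1 : ℝ) / H))) := by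
          rw [← Real.exp_nat_mul]
          congr 1
          push_cast
          ring
  have h7 : 1 ≤ Real.exp (2 * (L : ℝ) * (α' * ((v' : ℝ) / H'))) *
      ‖QQ m (b' : ZMod m) H' v' t‖ ^ (L * 2) := by
    have h8 : Real.exp (-(α' * ((v' : ℝ) / H'))) ^ (L * 2) ≤
        ‖QQ m (b' : ZMod m) H' v' t‖ ^ (L * 2) :=
      pow_le_pow_left₀ (Real.exp_pos _).le hb'.le _
    have h9 : Real.exp (2 * (L : ℝ) * (α' * ((v' : ℝ) / H'))) *
        Real.exp (-(α' * ((v' : ℝ) / H'))) ^ (L * 2) = 1 := by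
      rw [← Real.exp_nat_mul, ← Real.exp_add, ← Real.exp_zero]
      congr 1
      push_cast
      ring
    rw [← h9]
    exact mul_le_mul_of_nonneg_left h8 (Real.exp_pos _).le
  have h8 : ‖QQ m (x.2 : ZMod m) H x.1 t‖ ^ 2 ≤ Real.exp (-(2 * α * ((x.1 : ℝ) / H))) *
      (Real.exp (2 * (L : ℝ) * (α' * ((v' : ℝ) / H'))) *
        ‖QQ m (b' : ZMod m) H' v' t‖ ^ (L * 2)) := by
    refine h6.trans ?_
    exact le_mul_of_one_le_right (Real.exp_pos _).le h7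
  have h9 := mul_le_mul_of_nonneg_right h8 hR0
  calc _ ≤ 2 * ((v₁ : ℝ) * m) * _ := mul_le_mul_of_nonneg_left h9 (by positivity)
    _ = _ := by ring


/-- The moment bound of `lev_two`. -/
theorem lev_two_mom (C₂ : ℝ) (hC₂ : 0 < C₂) (m : ℕ) [NeZero m] (a : ZMod m)
    (H v₀ v₁ H' v₀' v₁' : ℕ) (X η α α' : ℝ) (v v' : ℕ) (b b' : (ZMod m)ˣ) (L : ℕ)
    (hL : L = levL H H' v v')
    (hHr : (0 : ℝ) < H) (hHr' : (0 : ℝ) < H') (hv0r : (0 : ℝ) < v₀) (hv0r' : (0 : ℝ) < v₀')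
    (h2 : v ∈ Ico v₀ v₁) (h2' : v' ∈ Ico v₀' v₁')
    (hX : Real.exp ((v₁ : ℝ) / H) ≤ X) (hη : 0 < η) (hηX : 1 ≤ η * X)
    (h0 : 1 ≤ X * Real.exp (-((v : ℝ) / H)) →
      ∫ t : ℝ, ‖QQ m (b' : ZMod m) H' v' t ^ L *
        DD m (a * ((b⁻¹ : (ZMod m)ˣ) : ZMod m)) (X * Real.exp (-((v : ℝ) / H))) t‖ ^ 2 *
          gw η t ≤ C₂ * (1 / (η * (X * Real.exp (-((v : ℝ) / H)) *
            Real.exp ((L : ℝ) * ((v' : ℝ) / H')))) + 1) *
          (Real.exp 2 * ((L : ℝ) + 1)) ^ L)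
    (hα' : 0 ≤ α') (hα : α' ≤ α)
    (hA : (((H' : ℝ) / v₀' + (H : ℝ) / v₀) *
      Real.log (Real.exp 2 * (((v₁ : ℝ) / H) * ((H' : ℝ) / v₀') + 2)) ≤ (α - α') / 2))
    (hB : (2 * α' * ((v₁' : ℝ) / H' + 1) ≤ (α - α') / 2 * ((v₀ : ℝ) / H))) :
    levc m H v₁ H' α α' v v' * ∫ t : ℝ, ‖QQ m (b' : ZMod m) H' v' t ^ L *
      DD m (a * ((b⁻¹ : (ZMod m)ˣ) : ZMod m)) (X * Real.exp (-((v : ℝ) / H))) t‖ ^ 2 *
        gw η t ≤
      2 * ((v₁ : ℝ) * m) * (2 * C₂) * Real.exp (-((α - α') * ((v₀ : ℝ) / H))) := by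
  have a1 := (mem_Ico.1 h2).1
  have a2 := (mem_Ico.1 h2).2
  have a3 := (mem_Ico.1 h2').1
  have a4 := (mem_Ico.1 h2').2
  have y1 : (v₀ : ℝ) / H ≤ (v : ℝ) / H :=
    div_le_div_of_nonneg_right (by exact_mod_cast a1) hHr.le
  have y2 : (v : ℝ) / H ≤ (v₁ : ℝ) / H :=
    div_le_div_of_nonneg_right (by exact_mod_cast a2.le) hHr.le
  have y3 : (v₀' : ℝ) / H' ≤ (v' : ℝ) / H' :=
    div_le_div_of_nonneg_right (by exact_mod_cast a3) hHr'.le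
  have y4 : (v' : ℝ) / H' ≤ (v₁' : ℝ) / H' :=
    div_le_div_of_nonneg_right (by exact_mod_cast a4.le) hHr'.le
  have p0 : 0 < (v₀ : ℝ) / H := by positivity
  have p0' : 0 < (v₀' : ℝ) / H' := by positivity
  have l1 : ((v : ℝ) / H) / ((v' : ℝ) / H') ≤ (L : ℝ) := by
    rw [hL]
    exact Nat.le_ceil _
  have l2 : (L : ℝ) ≤ ((v : ℝ) / H) / ((v' : ℝ) / H') + 1 := by
    rw [hL]
    exact (Nat.ceil_lt_add_one (by positivity)).le
  have hy' : 0 < (v' : ℝ) / H' := p0'.trans_le y3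
  have l3 : (v : ℝ) / H ≤ (L : ℝ) * ((v' : ℝ) / H') := by
    rwa [div_le_iff₀ hy'] at l1
  have e1 : X * Real.exp (-((v : ℝ) / H)) = X / Real.exp ((v : ℝ) / H) := by
    rw [Real.exp_neg, ← div_eq_mul_inv]
  have hY : 1 ≤ X * Real.exp (-((v : ℝ) / H)) := by
    rw [e1, le_div_iff₀ (Real.exp_pos _)]
    have := Real.exp_le_exp.2 y2
    linarith
  have h6 := h0 hY
  have h7 : 1 / (η * (X * Real.exp (-((v : ℝ) / H)) *
      Real.exp ((L : ℝ) * ((v' : ℝ) / H')))) ≤ 1 := by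
    rw [div_le_one (by positivity), mul_assoc, ← Real.exp_add]
    have h8 : 1 ≤ Real.exp (-((v : ℝ) / H) + (L : ℝ) * ((v' : ℝ) / H')) :=
      Real.one_le_exp (by linarith)
    calc (1 : ℝ) ≤ η * X := hηX
      _ ≤ η * X * Real.exp (-((v : ℝ) / H) + (L : ℝ) * ((v' : ℝ) / H')) :=
        le_mul_of_one_le_right (by positivity) h8
      _ = _ := by ring
  have h8 : ∫ t : ℝ, ‖QQ m (b' : ZMod m) H' v' t ^ L *
      DD m (a * ((b⁻¹ : (ZMod m)ˣ) : ZMod m)) (X * Real.exp (-((v : ℝ) / H))) t‖ ^ 2 *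
        gw η t ≤ 2 * C₂ * (Real.exp 2 * ((L : ℝ) + 1)) ^ L := by
    refine h6.trans (mul_le_mul_of_nonneg_right ?_ (by positivity))
    nlinarith
  have h9 := lev_expo ((v₀ : ℝ) / H) ((v₁ : ℝ) / H) ((v₀' : ℝ) / H') ((v₁' : ℝ) / H')
    ((v : ℝ) / H) ((v' : ℝ) / H') α α' L p0 p0' y1 y2 y3 y4 l2 hα' hα
    (by rw [one_div_div, one_div_div]; exact hA) hB
  refine (mul_le_mul_of_nonneg_left h8 (levc_nonneg _ _ _ _ _ _ _ _)).trans ?_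
  calc levc m H v₁ H' α α' v v' * (2 * C₂ * (Real.exp 2 * ((L : ℝ) + 1)) ^ L)
      = 2 * ((v₁ : ℝ) * m) * (2 * C₂) * (Real.exp (-(2 * α * ((v : ℝ) / H))) *
        Real.exp (2 * (L : ℝ) * (α' * ((v' : ℝ) / H'))) *
          (Real.exp 2 * ((L : ℝ) + 1)) ^ L) := by
        unfold levc
        rw [← hL]
        ring
    _ ≤ _ := mul_le_mul_of_nonneg_left h9 (by positivity)

/-- Proof. As `lev_one`, with `p = v0/H`, `q = v1/H`, `p' = v0'/H'`, `q' = v1'/H'`, `Δ = α - α'`. The set is contained in the union over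
`(v', b')` of the sets where in addition `|Q'_{v',b'}(t)| > e^{-α' v'/H'}`. For `v`, `v'` put `y = v/H`, `y' = v'/H'`,
`l = ⌈y/y'⌉`; there `|Q R|^2 ≤ e^{-2αy} (e^{α' y'} |Q'|)^{2l} |R|^2`, and by `mom` with `Y = X e^{-y}` (`Y e^{l y'} ≥ X`,
`1/(ηX) ≤ 1`) `∫ |Q'^l R|^2 gw ≤ 2C (e^2 (l+1))^l`. Since `l ≤ y/p' + 1 ≤ y(1/p' + 1/p)`, `l + 1 ≤ q/p' + 2`, (A) gives
`(e^2(l+1))^l ≤ e^{Δy/2}`; `l y' ≤ y + q'` and (B) give `e^{2α' l y'} ≤ e^{2α'y + Δp/2}`. Total exponent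
`-2αy + 2α'y + Δp/2 + Δy/2 ≤ -Δy ≤ -Δp`. There are at most `v1 m` pairs `(v,b)` (squared because of Cauchy-Schwarz) and
`v1' m` pairs `(v',b')`. -/
theorem lev_two : ∃ C : ℝ, 0 < C ∧ ∀ (m : ℕ) [NeZero m] (a : ZMod m) (H v₀ v₁ H' v₀' v₁' : ℕ) (X η α α' : ℝ),
    1 ≤ H → 1 ≤ v₀ → v₀ ≤ v₁ → (m : ℝ) ≤ Real.exp ((v₀ : ℝ) / H) → Real.exp ((v₁ : ℝ) / H) ≤ X →
    1 / X ≤ η → 1 ≤ WW H v₀ v₁ → 1 ≤ H' → 1 ≤ v₀' → v₀' ≤ v₁' →
    (∀ v ∈ Ico v₀' v₁', ∑ p ∈ pw H' v, (1 : ℝ) / p ≤ 1) → 0 ≤ α' → α' ≤ α →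
    (((H' : ℝ) / v₀' + (H : ℝ) / v₀) *
      Real.log (Real.exp 2 * (((v₁ : ℝ) / H) * ((H' : ℝ) / v₀') + 2)) ≤ (α - α') / 2) →
    (2 * α' * ((v₁' : ℝ) / H' + 1) ≤ (α - α') / 2 * ((v₀ : ℝ) / H)) →
    ∫ t in sm m α H v₀ v₁ ∩ (sm m α' H' v₀' v₁')ᶜ, ‖DD m a X t‖ ^ 2 * gw η t ≤
      C * (1 / WW H v₀ v₁ + Real.exp (-((v₀ : ℝ) / H)) + 1 / (H : ℝ) ^ 2) +
      C * (((v₁ : ℝ) * m) ^ 2 * ((v₁' : ℝ) * m) * Real.exp (-((α - α') * ((v₀ : ℝ) / H)))) := by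
  obtain ⟨C₁, hC₁, tk1⟩ := tk
  simp only [MT] at tk1
  obtain ⟨C₂, hC₂, m0⟩ := mom
  refine ⟨2 * C₁ + 4 * C₂, by positivity, ?_⟩
  intro m _ a H v₀ v₁ H' v₀' v₁' X η α α' hH hv0 hv hm hX hη1 hW hH' hv0' hv' hP hα' hα hA hB
  have hHr : (0 : ℝ) < H := by exact_mod_cast hH
  have hHr' : (0 : ℝ) < H' := by exact_mod_cast hH'
  have hv0r : (0 : ℝ) < v₀ := by exact_mod_cast hv0
  have hv0r' : (0 : ℝ) < v₀' := by exact_mod_cast hv0'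
  have he1 : 1 ≤ Real.exp ((v₁ : ℝ) / H) := Real.one_le_exp (by positivity)
  have hX1 : 1 ≤ X := he1.trans hX
  have hη : 0 < η := lt_of_lt_of_le (by positivity) hη1
  have hηX : 1 ≤ η * X := by
    rw [div_le_iff₀ (by linarith)] at hη1
    exact hη1
  have t1 := tk1 m a H v₀ v₁ X η hH hv hm hX hη1 hW
  set s : Finset ((ℕ × (ZMod m)ˣ) × (ℕ × (ZMod m)ˣ)) :=
    (Ico v₀ v₁ ×ˢ univ) ×ˢ (Ico v₀' v₁' ×ˢ univ) with hs
  have key := lev_integral s (sm m α H v₀ v₁ ∩ (sm m α' H' v₀' v₁')ᶜ)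
    ((lev_sm_meas m α H v₀ v₁).inter (lev_sm_meas m α' H' v₀' v₁').compl) (fun t => DD m a X t)
    (fun t => DD m a X t + ((1 / WW H v₀ v₁ : ℝ) : ℂ) * ∑ v ∈ Ico v₀ v₁, ∑ b : (ZMod m)ˣ,
      QQ m (b : ZMod m) H v t *
        DD m (a * ((b⁻¹ : (ZMod m)ˣ) : ZMod m)) (X * Real.exp (-((v : ℝ) / H))) t)
    (LevCB.DD m a X)
    ((LevCB.DD m a X).add ((LevCB.const _).mul (LevCB.sum _ fun v _ => LevCB.sum _ fun b _ =>
      (LevCB.QQ m _ H v).mul (LevCB.DD m _ _))))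
    (fun z => levc m H v₁ H' α α' z.1.1 z.2.1) (fun _ _ => levc_nonneg _ _ _ _ _ _ _ _)
    (fun z t => QQ m (z.2.2 : ZMod m) H' z.2.1 t ^ (levL H H' z.1.1 z.2.1) *
      DD m (a * ((z.1.2⁻¹ : (ZMod m)ˣ) : ZMod m)) (X * Real.exp (-((z.1.1 : ℝ) / H))) t)
    (fun z _ => ((LevCB.QQ m _ H' _).pow _).mul (LevCB.DD m _ _)) hη
    (fun t ht => lev_two_pt m a H v₀ v₁ H' v₀' v₁' X α α' hW t ht)
  refine key.trans ?_
  have hcard1 : (((Ico v₀ v₁ ×ˢ (univ : Finset (ZMod m)ˣ)).card : ℕ) : ℝ) ≤ (v₁ : ℝ) * m :=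
    lev_card m v₀ v₁
  have hcard2 : (((Ico v₀' v₁' ×ˢ (univ : Finset (ZMod m)ˣ)).card : ℕ) : ℝ) ≤ (v₁' : ℝ) * m :=
    lev_card m v₀' v₁'
  have hcardR : ((s.card : ℕ) : ℝ) ≤ (v₁ : ℝ) * m * ((v₁' : ℝ) * m) := by
    rw [hs, card_product]
    push_cast
    exact mul_le_mul hcard1 hcard2 (by positivity) (by positivity)
  set F : ℝ := 2 * ((v₁ : ℝ) * m) * (2 * C₂) * Real.exp (-((α - α') * ((v₀ : ℝ) / H))) with hF
  have hF0 : 0 ≤ F := by positivity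
  have hsum : ∑ z ∈ s, levc m H v₁ H' α α' z.1.1 z.2.1 * ∫ t : ℝ, ‖QQ m (z.2.2 : ZMod m) H' z.2.1 t ^
      (levL H H' z.1.1 z.2.1) * DD m (a * ((z.1.2⁻¹ : (ZMod m)ˣ) : ZMod m))
        (X * Real.exp (-((z.1.1 : ℝ) / H))) t‖ ^ 2 * gw η t ≤
          (v₁ : ℝ) * m * ((v₁' : ℝ) * m) * F := by
    calc _ ≤ ∑ z ∈ s, F := by
          refine sum_le_sum fun z hz => ?_
          obtain ⟨hz1, hz2⟩ := mem_product.1 hz
          obtain ⟨h2, -⟩ := mem_product.1 hz1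
          obtain ⟨h2', -⟩ := mem_product.1 hz2
          obtain ⟨⟨v, b⟩, ⟨v', b'⟩⟩ := z
          simp only at h2 h2'
          exact lev_two_mom C₂ hC₂ m a H v₀ v₁ H' v₀' v₁' X η α α' v v' b b' _ rfl hHr hHr' hv0r
            hv0r' h2 h2' hX hη hηX (fun hY => m0 m (a * ((b⁻¹ : (ZMod m)ˣ) : ZMod m))
              (b' : ZMod m) H' v' (levL H H' v v') (X * Real.exp (-((v : ℝ) / H))) η hH' hY hη
                (hP v' h2')) hα' hα hA hB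
      _ = (s.card : ℝ) * F := by rw [sum_const, nsmul_eq_mul]
      _ ≤ _ := mul_le_mul_of_nonneg_right hcardR hF0
  have hA' : 0 ≤ 1 / WW H v₀ v₁ + Real.exp (-((v₀ : ℝ) / H)) + 1 / (H : ℝ) ^ 2 := by
    have := Real.exp_pos (-((v₀ : ℝ) / H))
    have : 0 ≤ 1 / WW H v₀ v₁ := by positivity
    positivity
  have hB' : 0 ≤ ((v₁ : ℝ) * m) ^ 2 * ((v₁' : ℝ) * m) *
      Real.exp (-((α - α') * ((v₀ : ℝ) / H))) := by positivity
  have e2 : (v₁ : ℝ) * m * ((v₁' : ℝ) * m) * F =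
      4 * C₂ * (((v₁ : ℝ) * m) ^ 2 * ((v₁' : ℝ) * m) *
        Real.exp (-((α - α') * ((v₀ : ℝ) / H)))) := by
    rw [hF]
    ring
  rw [e2] at hsum
  have h8 := mul_nonneg hC₂.le hA'
  have h9 := mul_nonneg hC₁.le hB'
  nlinarith

end Pool.Agent.Lib.MP_3e612f_nt.MR
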