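import Pool.Agent.Lib.MP_3e612f_nt.MR.Defs
import Pool.Agent.Lib.MP_3e612f_nt.Loc.Kth

/-! Sums of `n^{-iu}`. -/

set_option autoImplicit false

namespace Pool.Agent.Lib.MP_3e612f_nt.MR

open Finset MeasureTheory

/-- `x^{-iu}` -/
private noncomputable def oscF (u x : ℝ) : ℂ :=
  Complex.exp (-(((u * Real.log x : ℝ) : ℂ) * Complex.I))

private theorem oscF_norm (u x : ℝ) : ‖oscF u x‖ = 1 := by
  unfold oscF
  rw [← neg_mul, ← Complex.ofReal_neg]
  exact Complex.norm_exp_ofReal_mul_I _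

private theorem oscF_deriv (u : ℝ) {x : ℝ} (hx : 0 < x) :
    HasDerivAt (oscF u) (oscF u x * (-(((u * x⁻¹ : ℝ) : ℂ) * Complex.I))) x := by
  have h1 : HasDerivAt (fun x : ℝ => u * Real.log x) (u * x⁻¹) x :=
    (Real.hasDerivAt_log hx.ne').const_mul u
  have h2 := ((h1.ofReal_comp.mul_const Complex.I).neg).cexp
  exact h2

private theorem oscF_cont (u : ℝ) {a b : ℝ} (ha : 0 < a) (hb : 0 < b) :
    ContinuousOn (oscF u) (Set.uIcc a b) := fun x hx => by
  have hx0 : 0 < x := by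
    rcases Set.mem_uIcc.mp hx with h | h
    · exact ha.trans_le h.1
    · exact hb.trans_le h.1
  exact (oscF_deriv u hx0).continuousAt.continuousWithinAt

private theorem oscF_int (u : ℝ) {a b : ℝ} (ha : 0 < a) (hb : 0 < b) :
    IntervalIntegrable (oscF u) volume a b := (oscF_cont u ha hb).intervalIntegrable

private theorem oscF_le (u : ℝ) (a b : ℝ) : ‖∫ x in a..b, oscF u x‖ ≤ |b - a| := by
  have h := intervalIntegral.norm_integral_le_of_norm_le_const (a := a) (b := b) (f := oscF u)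
    (C := 1) fun x _ => (oscF_norm u x).le
  rwa [one_mul] at h

private theorem oscF_sub (u : ℝ) {x y : ℝ} (hy : 0 < y) (hxy : y ≤ x) :
    ‖oscF u y - oscF u x‖ ≤ |u| * ((x - y) / y) := by
  have hx : 0 < x := hy.trans_le hxy
  have h1 : ‖oscF u y - oscF u x‖ ≤ |u * Real.log y - u * Real.log x| := by
    have h2 := Real.norm_exp_I_mul_ofReal_sub_one_le (x := u * Real.log x - u * Real.log y)
    have h3 : oscF u y - oscF u x = -(oscF u x *
        (Complex.exp (Complex.I * ((u * Real.log x - u * Real.log y : ℝ) : ℂ)) - 1) * (-1)) := by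
      unfold oscF
      rw [mul_sub, ← Complex.exp_add, mul_one, mul_neg_one, neg_neg]
      congr 2
      push_cast
      ring
    rw [h3, norm_neg, norm_mul, norm_mul, oscF_norm, one_mul, norm_neg, norm_one, mul_one,
      abs_sub_comm]
    simpa using h2
  refine h1.trans ?_
  rw [← mul_sub, abs_mul]
  refine mul_le_mul_of_nonneg_left ?_ (abs_nonneg u)
  rw [abs_sub_comm, abs_of_nonneg (sub_nonneg.mpr (Real.log_le_log hy hxy)),
    ← Real.log_div hx.ne' hy.ne']
  have h4 := Real.log_le_sub_one_of_pos (div_pos hx hy)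
  refine h4.trans (le_of_eq ?_)
  field_simp

/-- `|∫_{M}^{M'} x^{-iu} dx| ≤ (M + M')/|u|`. -/
theorem osc_int (M M' : ℝ) (hM : 0 < M) (hM' : M ≤ M') (u : ℝ) (hu : u ≠ 0) :
    ‖∫ x in M..M', Complex.exp (-(((u * Real.log x : ℝ) : ℂ) * Complex.I))‖ ≤ (M + M') / |u| := by
  change ‖∫ x in M..M', oscF u x‖ ≤ _
  set w : ℂ := 1 - (u : ℂ) * Complex.I with hw
  have hwu : |u| ≤ ‖w‖ := by
    have h := Complex.abs_im_le_norm w
    rw [hw] at h ⊢
    simpa using h
  have hu0 : 0 < |u| := abs_pos.mpr hu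
  have hw0 : w ≠ 0 := by
    intro e
    rw [e, norm_zero] at hwu
    exact absurd hwu (not_le.mpr hu0)
  have hM'0 : 0 < M' := hM.trans_le hM'
  have hderiv : ∀ x ∈ Set.uIcc M M', HasDerivAt (fun x : ℝ => (x : ℂ) * oscF u x / w)
      (oscF u x) x := by
    intro x hx
    rw [Set.uIcc_of_le hM'] at hx
    have hx0 : 0 < x := hM.trans_le hx.1
    have h1 := ((hasDerivAt_id x).ofReal_comp.mul (oscF_deriv u hx0)).div_const w
    have e : (((1 : ℝ) : ℂ) * oscF u x + ((id x : ℝ) : ℂ) *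
        (oscF u x * (-(((u * x⁻¹ : ℝ) : ℂ) * Complex.I)))) / w = oscF u x := by
      rw [div_eq_iff hw0, hw]
      have hx1 : (x : ℂ) ≠ 0 := by exact_mod_cast hx0.ne'
      push_cast
      simp only [id]
      field_simp
      ring
    rw [e] at h1
    exact h1
  rw [intervalIntegral.integral_eq_sub_of_hasDerivAt hderiv (oscF_int u hM hM'0)]
  refine (norm_sub_le _ _).trans ?_
  have e : ∀ x : ℝ, 0 < x → ‖(x : ℂ) * oscF u x / w‖ ≤ x / |u| := by
    intro x hx
    rw [norm_div, norm_mul, oscF_norm, mul_one, Complex.norm_real, Real.norm_of_nonneg hx.le]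
    exact div_le_div_of_nonneg_left hx.le hu0 hwu
  refine (add_le_add (e M' hM'0) (e M hM)).trans (le_of_eq ?_)
  ring

/-! ### Small frequencies -/

private theorem osc_small (m : ℕ) [NeZero m] (M M' : ℕ) (hM : 1 ≤ M) (hMM : M ≤ M')
    (hM2 : M' ≤ 2 * M) (u : ℝ) {n0 N : ℕ} (h1 : M < n0) (h2 : n0 ≤ M + m)
    (h3 : M' < n0 + m * N) (h4 : n0 + m * N ≤ M' + m) :
    ‖∑ j ∈ range N, oscF u ((n0 : ℝ) + m * j) -
      (1 / (m : ℂ)) * ∫ x in (M : ℝ)..(M' : ℝ), oscF u x‖ ≤ |u| * (1 + m) + 2 := by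
  have hm : 0 < m := Nat.pos_of_ne_zero (NeZero.ne m)
  have hmR : (0 : ℝ) < m := by exact_mod_cast hm
  have hmC : (m : ℂ) ≠ 0 := by exact_mod_cast hm.ne'
  have hMR : (0 : ℝ) < M := by exact_mod_cast hM
  have h1R : (M : ℝ) ≤ n0 := by exact_mod_cast h1.le
  have h2R : (n0 : ℝ) ≤ M + m := by exact_mod_cast h2
  have h3R : (M' : ℝ) ≤ n0 + m * N := by exact_mod_cast h3.le
  have h4R : (n0 : ℝ) + m * N ≤ M' + m := by exact_mod_cast h4
  have hM'R : (0 : ℝ) < M' := by exact_mod_cast hM.trans hMM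
  set a : ℕ → ℝ := fun j => (n0 : ℝ) + m * j with ha
  have ha0 : ∀ j, (M : ℝ) ≤ a j := by
    intro j
    have : (0 : ℝ) ≤ m * j := by positivity
    simp only [ha]
    linarith
  have hapos : ∀ j, 0 < a j := fun j => hMR.trans_le (ha0 j)
  have hastep : ∀ j, a (j + 1) - a j = m := by
    intro j
    simp only [ha]
    push_cast
    ring
  have hadj : ∑ j ∈ range N, ∫ x in (a j)..(a (j + 1)), oscF u x =
      ∫ x in (a 0)..(a N), oscF u x :=
    intervalIntegral.sum_integral_adjacent_intervals fun j _ =>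
      oscF_int u (hapos j) (hapos (j + 1))
  have hterm : ∀ j, ‖oscF u (a j) - (1 / (m : ℂ)) * ∫ x in (a j)..(a (j + 1)), oscF u x‖ ≤
      |u| * (m / M) := by
    intro j
    have e1 : (oscF u (a j)) = (1 / (m : ℂ)) * ∫ _x in (a j)..(a (j + 1)), oscF u (a j) := by
      rw [intervalIntegral.integral_const, hastep j, Complex.real_smul]
      field_simp
      push_cast
      ring
    have e2 : oscF u (a j) - (1 / (m : ℂ)) * ∫ x in (a j)..(a (j + 1)), oscF u x =
        (1 / (m : ℂ)) * ∫ x in (a j)..(a (j + 1)), (oscF u (a j) - oscF u x) := by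
      rw [intervalIntegral.integral_sub intervalIntegrable_const
        (oscF_int u (hapos j) (hapos (j + 1))), mul_sub, ← e1]
    rw [e2, norm_mul]
    have e3 : ‖∫ x in (a j)..(a (j + 1)), (oscF u (a j) - oscF u x)‖ ≤
        |u| * (m / M) * |a (j + 1) - a j| := by
      refine intervalIntegral.norm_integral_le_of_norm_le_const fun x hx => ?_
      have hle : a j ≤ a (j + 1) := by linarith [hastep j]
      rw [Set.uIoc_of_le hle] at hx
      refine (oscF_sub u (hapos j) hx.1.le).trans ?_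
      refine mul_le_mul_of_nonneg_left ?_ (abs_nonneg u)
      have h5 : x - a j ≤ m := by linarith [hastep j, hx.2]
      exact div_le_div₀ hmR.le h5 hMR (ha0 j)
    rw [hastep j, abs_of_pos hmR] at e3
    have e4 : ‖(1 / (m : ℂ))‖ = 1 / m := by
      rw [norm_div, norm_one, Complex.norm_natCast]
    rw [e4]
    calc 1 / (m : ℝ) * ‖∫ x in (a j)..(a (j + 1)), (oscF u (a j) - oscF u x)‖
        ≤ 1 / (m : ℝ) * (|u| * (m / M) * m) :=
          mul_le_mul_of_nonneg_left e3 (by positivity)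
      _ = |u| * (m / M) := by field_simp
  have hsplit : ∑ j ∈ range N, oscF u (a j) -
      (1 / (m : ℂ)) * ∫ x in (M : ℝ)..(M' : ℝ), oscF u x =
      ∑ j ∈ range N, (oscF u (a j) - (1 / (m : ℂ)) * ∫ x in (a j)..(a (j + 1)), oscF u x) +
        (1 / (m : ℂ)) * ((∫ x in (M' : ℝ)..(a N), oscF u x) -
          ∫ x in (M : ℝ)..(a 0), oscF u x) := by
    rw [Finset.sum_sub_distrib, ← Finset.mul_sum, hadj]
    have e5 : (∫ x in (a 0)..(a N), oscF u x) = (∫ x in (M : ℝ)..(M' : ℝ), oscF u x) +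
        (∫ x in (M' : ℝ)..(a N), oscF u x) - ∫ x in (M : ℝ)..(a 0), oscF u x := by
      rw [intervalIntegral.integral_add_adjacent_intervals (oscF_int u hMR hM'R)
        (oscF_int u hM'R (hapos N)),
        ← intervalIntegral.integral_add_adjacent_intervals (oscF_int u hMR (hapos 0))
        (oscF_int u (hapos 0) (hapos N))]
      ring
    rw [e5]
    ring
  have hfin : ‖∑ j ∈ range N, oscF u (a j) -
      (1 / (m : ℂ)) * ∫ x in (M : ℝ)..(M' : ℝ), oscF u x‖ ≤ |u| * (1 + m) + 2 := by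
    rw [hsplit]
    refine (norm_add_le _ _).trans (add_le_add ?_ ?_)
    · refine (norm_sum_le _ _).trans ?_
      refine (Finset.sum_le_sum fun j _ => hterm j).trans ?_
      rw [Finset.sum_const, Finset.card_range, nsmul_eq_mul]
      have h6 : (m : ℝ) * N ≤ M + m := by
        have h7 : (M' : ℝ) ≤ 2 * M := by exact_mod_cast hM2
        linarith
      calc (N : ℝ) * (|u| * (m / M)) = |u| * ((m * N) / M) := by ring
        _ ≤ |u| * ((M + m) / M) := by
          refine mul_le_mul_of_nonneg_left ?_ (abs_nonneg u)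
          exact div_le_div_of_nonneg_right h6 hMR.le
        _ ≤ |u| * (1 + m) := by
          refine mul_le_mul_of_nonneg_left ?_ (abs_nonneg u)
          rw [div_le_iff₀ hMR]
          have h8 : (1 : ℝ) ≤ M := by exact_mod_cast hM
          nlinarith
    · rw [norm_mul, norm_div, norm_one, Complex.norm_natCast]
      have h9 := oscF_le u (M' : ℝ) (a N)
      have h10 := oscF_le u (M : ℝ) (a 0)
      have h11 : |a N - M'| ≤ m := by
        rw [abs_of_nonneg (by simp only [ha]; linarith)]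
        simp only [ha]
        linarith
      have h12 : |a 0 - M| ≤ m := by
        have e6 : a 0 = n0 := by simp [ha]
        rw [e6, abs_of_nonneg (by linarith)]
        linarith
      calc 1 / (m : ℝ) * ‖(∫ x in (M' : ℝ)..(a N), oscF u x) - ∫ x in (M : ℝ)..(a 0), oscF u x‖
          ≤ 1 / (m : ℝ) * (m + m) := by
            refine mul_le_mul_of_nonneg_left ?_ (by positivity)
            exact (norm_sub_le _ _).trans (add_le_add (h9.trans h11) (h10.trans h12))
        _ = 2 := by field_simp; ring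
  exact hfin

private theorem osc_shift (M M' : ℕ) (hMM : M ≤ M') (g : ℕ → ℂ) :
    ∑ n ∈ Ioc M M', g n = ∑ j ∈ range (M' - M), g (M + 1 + j) := by
  symm
  refine Finset.sum_bij (fun j _ => M + 1 + j) ?_ ?_ ?_ ?_
  · intro j hj
    rw [Finset.mem_range] at hj
    rw [Finset.mem_Ioc]
    omega
  · intro a _ b _ hab
    have h1 : M + 1 + a = M + 1 + b := hab
    omega
  · intro n hn
    rw [Finset.mem_Ioc] at hn
    refine ⟨n - (M + 1), ?_, ?_⟩
    · rw [Finset.mem_range]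
      omega
    · change M + 1 + (n - (M + 1)) = n
      omega
  · intro j _
    rfl

/-- Proof. If `|u| ≤ M^{1/2}`: for `f(x) = x^{-iu}` the sum differs from `∫ f` by at most `C(1 + ∫_M^{M'} |f'|) ≤ C(1 + |u|)`. If
`|u| > M^{1/2}` the integral is at most `3M/|u| ≤ 3 M^{1/2}`, and the sum is at most `C M^{1-δ}` by `Loc.kth` (`A = M + 1`, `X = M' - M`,
`η` a little smaller than `1/2`, `K ≥ 1/κ`; complex conjugation for the sign). -/
theorem osc (κ : ℝ) (hκ : 0 < κ) : ∃ c C : ℝ, 0 < c ∧ c ≤ 1 / 2 ∧ 0 < C ∧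
    ∀ (M M' : ℕ) (u : ℝ), 1 ≤ M → M ≤ M' → M' ≤ 2 * M → 1 ≤ |u| → |u| ≤ (M : ℝ) ^ (1 / κ) →
      ‖∑ n ∈ Ioc M M', ph n u -
        ∫ x in (M : ℝ)..(M' : ℝ), Complex.exp (-(((u * Real.log x : ℝ) : ℂ) * Complex.I))‖ ≤
      C * (M : ℝ) ^ (1 - c) := by
  set K : ℕ := ⌈1 / κ⌉₊ with hK
  obtain ⟨C, hC, δ, hδ, h⟩ := Pool.Agent.Lib.MP_3e612f_nt.Loc.kth K
    (show (0 : ℝ) < 1 / 4 by norm_num)
  set c : ℝ := min δ (1 / 2) with hc
  have hc0 : 0 < c := lt_min hδ (by norm_num)
  have hc2 : c ≤ 1 / 2 := min_le_right _ _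
  have hcδ : c ≤ δ := min_le_left _ _
  refine ⟨c, 2 * C + 4, hc0, hc2, by positivity, ?_⟩
  intro M M' u hM hMM hM2 hu1 hu2
  have hM1 : (1 : ℝ) ≤ M := by exact_mod_cast hM
  have hM0 : (0 : ℝ) < M := by linarith
  have hMMR : (M : ℝ) ≤ M' := by exact_mod_cast hMM
  have hM2R : (M' : ℝ) ≤ 2 * M := by exact_mod_cast hM2
  have hhalf : (M : ℝ) ^ (1 / 2 : ℝ) ≤ (M : ℝ) ^ (1 - c) :=
    Real.rpow_le_rpow_of_exponent_le hM1 (by linarith)
  have hhalf1 : (1 : ℝ) ≤ (M : ℝ) ^ (1 / 2 : ℝ) := Real.one_le_rpow hM1 (by norm_num)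
  have hpos : 0 ≤ (M : ℝ) ^ (1 - c) := by linarith
  have hsum : ∑ n ∈ Ioc M M', ph n u =
      ∑ j ∈ range (M' - M), oscF u (((M + 1 : ℕ) : ℝ) + ((1 : ℕ) : ℝ) * j) := by
    rw [osc_shift M M' hMM]
    refine Finset.sum_congr rfl fun j _ => ?_
    unfold ph oscF
    push_cast
    rw [one_mul]
  rw [hsum]
  change ‖∑ j ∈ range (M' - M), oscF u (((M + 1 : ℕ) : ℝ) + ((1 : ℕ) : ℝ) * j) -
    ∫ x in (M : ℝ)..(M' : ℝ), oscF u x‖ ≤ _
  rcases le_or_gt |u| ((M : ℝ) ^ (1 / 2 : ℝ)) with hsmall | hlarge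
  · have h5 := osc_small 1 M M' hM hMM hM2 u (n0 := M + 1) (N := M' - M) (by omega) (by omega)
      (by omega) (by omega)
    simp only [Nat.cast_one, div_one, one_mul] at h5 ⊢
    refine h5.trans ?_
    nlinarith [mul_nonneg hC.le hpos]
  · have hint := osc_int (M : ℝ) (M' : ℝ) hM0 hMMR u (by
      intro e
      rw [e, abs_zero] at hu1
      linarith)
    change ‖∫ x in (M : ℝ)..(M' : ℝ), oscF u x‖ ≤ _ at hint
    have hu0 : 0 < |u| := by linarith
    have hint2 : ((M : ℝ) + M') / |u| ≤ 3 * (M : ℝ) ^ (1 / 2 : ℝ) := by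
      rw [div_le_iff₀ hu0]
      have h5 : (M : ℝ) = (M : ℝ) ^ (1 / 2 : ℝ) * (M : ℝ) ^ (1 / 2 : ℝ) := by
        rw [← Real.rpow_add hM0]
        norm_num
      have h6 : (M : ℝ) ^ (1 / 2 : ℝ) * (M : ℝ) ^ (1 / 2 : ℝ) ≤ (M : ℝ) ^ (1 / 2 : ℝ) * |u| :=
        mul_le_mul_of_nonneg_left hlarge.le (by linarith)
      nlinarith
    have hM2' : 2 ≤ M := by
      by_contra hlt
      have h5 : M = 1 := by omega
      rw [h5, Nat.cast_one, Real.one_rpow] at hlarge hu2
      linarith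
    have hM2'' : (2 : ℝ) ≤ M := by exact_mod_cast hM2'
    set A : ℝ := ((M + 1 : ℕ) : ℝ) with hA
    have hAM : A = M + 1 := by
      rw [hA]
      push_cast
      ring
    have hA1 : 1 ≤ A := by linarith
    have hA2 : A ≤ 2 * M := by linarith
    have hXA : ((M' - M : ℕ) : ℝ) ≤ A := by
      rw [Nat.cast_sub hMM]
      linarith
    have ht1 : A ^ (1 / 4 : ℝ) ≤ |(-u)| := by
      rw [abs_neg]
      refine le_trans ?_ hlarge.le
      have h5 : A ≤ (M : ℝ) ^ (2 : ℝ) := by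
        rw [Real.rpow_two]
        nlinarith
      calc A ^ (1 / 4 : ℝ) ≤ ((M : ℝ) ^ (2 : ℝ)) ^ (1 / 4 : ℝ) :=
            Real.rpow_le_rpow (by linarith) h5 (by norm_num)
        _ = (M : ℝ) ^ (1 / 2 : ℝ) := by
            rw [← Real.rpow_mul hM0.le]
            norm_num
    have ht2 : |(-u)| ≤ A ^ K := by
      rw [abs_neg]
      refine hu2.trans ?_
      have h5 : (M : ℝ) ^ (1 / κ) ≤ (M : ℝ) ^ (K : ℝ) :=
        Real.rpow_le_rpow_of_exponent_le hM1 (Nat.le_ceil _)
      rw [Real.rpow_natCast] at h5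
      exact h5.trans (pow_le_pow_left₀ hM0.le (by linarith) K)
    have hmain := h A hA1 (M' - M) hXA (-u) ht1 ht2
    have hE : ∀ j : ℕ, oscF u (A + ((1 : ℕ) : ℝ) * j) =
        Pool.Agent.Lib.MP_3e612f_nt.Loc.E (-u * Real.log (j + A)) := by
      intro j
      unfold oscF Pool.Agent.Lib.MP_3e612f_nt.Loc.E
      congr 1
      rw [Nat.cast_one, one_mul, add_comm A]
      push_cast
      ring
    simp only [hE]
    have hApow : A ^ (1 - δ) ≤ 2 * (M : ℝ) ^ (1 - c) := by
      calc A ^ (1 - δ) ≤ A ^ (1 - c) := Real.rpow_le_rpow_of_exponent_le hA1 (by linarith)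
        _ ≤ (2 * (M : ℝ)) ^ (1 - c) := Real.rpow_le_rpow (by linarith) hA2 (by linarith)
        _ = (2 : ℝ) ^ (1 - c) * (M : ℝ) ^ (1 - c) := Real.mul_rpow (by norm_num) hM0.le
        _ ≤ (2 : ℝ) ^ (1 : ℝ) * (M : ℝ) ^ (1 - c) := by
            refine mul_le_mul_of_nonneg_right ?_ hpos
            exact Real.rpow_le_rpow_of_exponent_le (by norm_num) (by linarith)
        _ = 2 * (M : ℝ) ^ (1 - c) := by rw [Real.rpow_one]
    refine (norm_sub_le _ _).trans ((add_le_add hmain (hint.trans hint2)).trans ?_)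
    have h6 := mul_le_mul_of_nonneg_left hApow hC.le
    nlinarith

end Pool.Agent.Lib.MP_3e612f_nt.MR
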