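import Pool.Agent.Lib.MP_3e612f_nt.MR.SWB

/-! The main terms of the lower weights. -/

set_option autoImplicit false

namespace Pool.Agent.Lib.MP_3e612f_nt.MR

open Finset Pool.Agent.Lib.MP_629a14_nt Pool.Agent.Lib.MP_629a14_nt.Rob

theorem Vq_telesc (m z : ℕ) : 1 - ∑ p ∈ Sp m z, 1 / (p : ℝ) * Vq m p = Vq m z := by
  have h := telesc m 0 z (Nat.zero_le z)
  have hV0 : Vq m 0 = 1 := by
    unfold Vq
    simp
  have hS : (Ico 0 z).filter (fun p => p.Prime ∧ ¬ p ∣ m) = Sp m z := by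
    unfold Sp
    rw [range_eq_Ico]
  rw [hV0, hS] at h
  exact h

theorem lamM_upper {m z D : ℕ} (hzD : z ≤ D) :
    ∑ e ∈ (Pq m z).divisors, lamM m z D e / e ≤ Vq m z := by
  rw [lamM_main hzD, ← Vq_telesc m z]
  refine sub_le_sub_left (sum_le_sum fun p hp => ?_) 1
  obtain ⟨hpz, hpp, hpm⟩ := mem_Sp.1 hp
  have hR : 1 ≤ Nat.sqrt (D / p) := Nat.sqrt_pos.2 (Nat.div_pos (by omega) hpp.pos)
  exact mul_le_mul_of_nonneg_left (JJ_inv_ge hR) (by positivity)

theorem lamM_lower {C₀ C₁ : ℝ} (hC₀ : 1 ≤ C₀) (hrk : ∀ q z R : ℕ, 1 ≤ q → 2 ≤ z → 1 ≤ R →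
    (1 - C₀ * Real.exp (-(Real.log R / Real.log z))) * (Vq q z)⁻¹ ≤
      ∑ d ∈ (Pq q z).divisors.filter (fun d => d ≤ R), 1 / (d.totient : ℝ))
    (htl : ∀ z R : ℕ, 2 ≤ z → z ≤ R →
    ∑ p ∈ (range z).filter Nat.Prime,
      1 / ((p : ℝ) * Real.log p) * Real.exp (-(Real.log R / Real.log p)) ≤
        C₁ * Real.exp (-(Real.log R / (2 * Real.log z))) / Real.log z)
    {m z D : ℕ} (hm : 1 ≤ m) (hz : 2 ≤ z) (hzD : z ≤ D) (h1 : z ≤ Nat.sqrt (D / z))
    (h2 : C₀ * Real.exp (-(Real.log (Nat.sqrt (D / z) : ℕ) / Real.log z)) ≤ 1 / 2) :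
    Vq m z - 2 * C₀ * m * (C₁ * Real.exp (-(Real.log (Nat.sqrt (D / z) : ℕ) /
      (2 * Real.log z))) / Real.log z) ≤ ∑ e ∈ (Pq m z).divisors, lamM m z D e / e := by
  rw [lamM_main hzD]
  set R' := Nat.sqrt (D / z) with hR'
  have hz0 : (1 : ℝ) < z := by exact_mod_cast (by omega : 1 < z)
  have hR1 : (1 : ℝ) ≤ R' := by exact_mod_cast (by omega : 1 ≤ R')
  have hA0 : 0 ≤ Real.log R' := Real.log_nonneg hR1
  have hm0 : (0 : ℝ) ≤ m := Nat.cast_nonneg m
  have hkey : ∀ p ∈ Sp m z, 1 / (p : ℝ) * (JJ m p (Nat.sqrt (D / p)))⁻¹ ≤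
      1 / (p : ℝ) * Vq m p + 2 * C₀ * m *
        (1 / ((p : ℝ) * Real.log p) * Real.exp (-(Real.log R' / Real.log p))) := by
    intro p hp
    obtain ⟨hpz, hpp, hpm⟩ := mem_Sp.1 hp
    have hp1 : (1 : ℝ) < p := by exact_mod_cast hpp.one_lt
    have hp0 : (0 : ℝ) < p := by linarith
    have hpz' : (p : ℝ) ≤ z := by exact_mod_cast hpz.le
    have hlp : 0 < Real.log p := Real.log_pos hp1
    have hlpz : Real.log p ≤ Real.log z := Real.log_le_log hp0 hpz'
    have hRR : R' ≤ Nat.sqrt (D / p) :=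
      Nat.sqrt_le_sqrt (Nat.div_le_div_left hpz.le hpp.pos)
    have hRR' : Real.log R' ≤ Real.log (Nat.sqrt (D / p) : ℕ) :=
      Real.log_le_log (by linarith) (by exact_mod_cast hRR)
    have hR : 1 ≤ Nat.sqrt (D / p) := by omega
    have e1 : Real.exp (-(Real.log (Nat.sqrt (D / p) : ℕ) / Real.log p)) ≤
        Real.exp (-(Real.log R' / Real.log p)) :=
      Real.exp_le_exp.2 (neg_le_neg (div_le_div_of_nonneg_right hRR' hlp.le))
    have e2 : Real.exp (-(Real.log R' / Real.log p)) ≤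
        Real.exp (-(Real.log R' / Real.log z)) :=
      Real.exp_le_exp.2 (neg_le_neg (div_le_div_of_nonneg_left hA0 hlp hlpz))
    have e3 : C₀ * Real.exp (-(Real.log (Nat.sqrt (D / p) : ℕ) / Real.log p)) ≤ 1 / 2 :=
      (mul_le_mul_of_nonneg_left (e1.trans e2) (by linarith)).trans h2
    have e4 := JJ_inv_le hC₀ hrk hm hpp.two_le hR e3
    have e5 := Vq_le_log hm hpp.two_le
    have hV0 := Vq_pos m p
    have e6 : Vq m p * (2 * (C₀ * Real.exp (-(Real.log (Nat.sqrt (D / p) : ℕ) / Real.log p)))) ≤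
        (m / Real.log p) * (2 * (C₀ * Real.exp (-(Real.log R' / Real.log p)))) := by
      refine mul_le_mul e5 ?_ (by positivity) (by positivity)
      nlinarith
    calc 1 / (p : ℝ) * (JJ m p (Nat.sqrt (D / p)))⁻¹
        ≤ 1 / (p : ℝ) * (Vq m p + (m / Real.log p) *
            (2 * (C₀ * Real.exp (-(Real.log R' / Real.log p))))) :=
          mul_le_mul_of_nonneg_left (by linarith) (by positivity)
      _ = _ := by
          field_simp
  have hsum := sum_le_sum hkey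
  rw [sum_add_distrib, ← mul_sum] at hsum
  have hsub : ∑ p ∈ Sp m z, 1 / ((p : ℝ) * Real.log p) * Real.exp (-(Real.log R' / Real.log p)) ≤
      ∑ p ∈ (range z).filter Nat.Prime,
        1 / ((p : ℝ) * Real.log p) * Real.exp (-(Real.log R' / Real.log p)) := by
    refine sum_le_sum_of_subset_of_nonneg ?_ ?_
    · intro p hp
      have := mem_Sp.1 hp
      rw [mem_filter, mem_range]
      exact ⟨this.1, this.2.1⟩
    · intro p _ _
      have : 0 ≤ Real.log p := Real.log_natCast_nonneg p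
      positivity
  have h3 := hsub.trans (htl z R' hz h1)
  have h4 : 2 * C₀ * m * ∑ p ∈ Sp m z,
      1 / ((p : ℝ) * Real.log p) * Real.exp (-(Real.log R' / Real.log p)) ≤
      2 * C₀ * m * (C₁ * Real.exp (-(Real.log R' / (2 * Real.log z))) / Real.log z) :=
    mul_le_mul_of_nonneg_left h3 (by positivity)
  have h5 := Vq_telesc m z
  linarith

end Pool.Agent.Lib.MP_3e612f_nt.MR
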