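import Mathlib
import Pool.Agent.Lib.MP_629a14_nt.Rob.Fund
import Pool.Agent.Lib.MP_3e612f_nt.MR.SWC

/-! Sieve weights. -/

set_option autoImplicit false

namespace Pool.Agent.Lib.MP_3e612f_nt.MR

open Finset Pool.Agent.Lib.MP_629a14_nt Pool.Agent.Lib.MP_629a14_nt.Rob

/-- `log √(D/z)` is large -/
private theorem log_sqrt_ge {z D : ℕ} (hz : 2 ≤ z) (hzD : z ≤ D) :
    Real.log D / 2 - 3 / 2 * Real.log z ≤ Real.log (Nat.sqrt (D / z) : ℕ) := by
  have hR1 : 1 ≤ Nat.sqrt (D / z) := Nat.sqrt_pos.2 (Nat.div_pos hzD (by omega))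
  set R := Nat.sqrt (D / z) with hR
  have hz0 : (0 : ℝ) < z := by exact_mod_cast (by omega : 0 < z)
  have hD0 : (0 : ℝ) < D := by exact_mod_cast (by omega : 0 < D)
  have hR0 : (1 : ℝ) ≤ R := by exact_mod_cast hR1
  have e1 : D / z < (R + 1) * (R + 1) := Nat.lt_succ_sqrt (D / z)
  have e2 : D ≤ ((R + 1) * (R + 1)) * z := by
    have e3 : D / z + 1 ≤ (R + 1) * (R + 1) := e1
    have e4 : D < z * (D / z + 1) := by
      have := Nat.lt_mul_div_succ D (show 0 < z by omega)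
      simpa using this
    calc D ≤ z * (D / z + 1) := e4.le
      _ ≤ z * ((R + 1) * (R + 1)) := Nat.mul_le_mul_left z e3
      _ = _ := Nat.mul_comm _ _
  have e5 : (D : ℝ) ≤ ((2 * R) * (2 * R)) * z := by
    have e6 : (D : ℝ) ≤ ((R + 1) * (R + 1)) * z := by exact_mod_cast e2
    refine e6.trans (mul_le_mul_of_nonneg_right ?_ hz0.le)
    exact mul_le_mul (by linarith) (by linarith) (by positivity) (by positivity)
  have e7 := Real.log_le_log hD0 e5
  rw [Real.log_mul (by positivity) hz0.ne', Real.log_mul (by positivity) (by positivity),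
    Real.log_mul (by norm_num) (by positivity)] at e7
  have e8 : Real.log 2 ≤ Real.log z := Real.log_le_log (by norm_num) (by exact_mod_cast hz)
  linarith

private theorem log_sqrt_ge' {z D : ℕ} (hz : 2 ≤ z) (hzD : z ≤ D) :
    Real.log D / 2 - Real.log z ≤ Real.log (Nat.sqrt D : ℕ) := by
  have hR1 : 1 ≤ Nat.sqrt D := Nat.sqrt_pos.2 (by omega)
  set R := Nat.sqrt D with hR
  have hD0 : (0 : ℝ) < D := by exact_mod_cast (by omega : 0 < D)
  have hR0 : (1 : ℝ) ≤ R := by exact_mod_cast hR1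
  have e1 : D < (R + 1) * (R + 1) := Nat.lt_succ_sqrt D
  have e5 : (D : ℝ) ≤ (2 * R) * (2 * R) := by
    have e6 : (D : ℝ) ≤ (R + 1) * (R + 1) := by exact_mod_cast e1.le
    refine e6.trans ?_
    exact mul_le_mul (by linarith) (by linarith) (by positivity) (by positivity)
  have e7 := Real.log_le_log hD0 e5
  rw [Real.log_mul (by positivity) (by positivity),
    Real.log_mul (by norm_num) (by positivity)] at e7
  have e8 : Real.log 2 ≤ Real.log z := Real.log_le_log (by norm_num) (by exact_mod_cast hz)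
  linarith

/-- Sieve weights for the primes `p < z`, `p ∤ m`, of level `D`. Proof. Let `C0` be the constant of `rankin`
(`(1 - C0 exp(-log R/log z)) (Vq m z)⁻¹ ≤ J(z, R) = ∑_{d ∣ Pq m z, d ≤ R} 1/φ(d)`). Selberg's weights of level `R` for the primes `< z`
(`MP_60b32f_nt/Selberg.lean`: `wt`, `mainSum_eq`): `w_1 = 1`, supported on `d ∣ Pq m z`, `d ≤ R`, `|w_d| ≤ 1` (classical:
`J ≥ ∑_{k ∣ d} g(k) ∑_{l ≤ R/d, (l,d)=1} g(l)`), `λ⁺_d = ∑_{[d1,d2]=d} w_{d1} w_{d2}`, `|λ⁺_d| ≤ 3^{ω(d)}`, supported on `d ≤ R^2`,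
`∑ λ⁺_d/d = 1/J(z, R)`. Case `log D ≥ s0 log z` (`s0` large in terms of `C0`): `R = ⌊√D⌋`, so `∑ λ⁺_d/d ≤ Vq (1 + 2 C0 e^{-log R/log z})`; and
`λ⁻_e = [e = 1] - ∑_p λ^{+,p}_{e/p}`, `p` the largest prime factor of `e`, where `λ^{+,p}` are Selberg's weights for the
primes `< p` of level `R_p = ⌊√(D/p)⌋`: by `1_{(n,P_z)=1} = 1 - ∑_{p<z, p ∣ n, p ∤ m} 1_{(n,P_p)=1}` this is a lower bound, and
`∑ λ⁻_e/e ≥ 1 - ∑_p (1/p) Vq m p (1 + 2 C0 e^{-log R_p/log p}) = Vq m z - ∑_p (1/p) Vq m p · 2 C0 e^{-log R_p/log p}`, where the last sum is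
at most `C (m/log z) e^{-c log D/log z}` (`Rob/Fund.lean`: `tail`, `VBound.lean`: `V_le`, `Vq_le`). Case `log D < s0 log z`: `λ⁻ = 0` and
`λ⁺` = Selberg's weights for the primes `< z' = z^{c}` and `R = ⌊√z⌋`. -/
theorem sw : ∃ C c : ℝ, 0 < C ∧ 0 < c ∧ c ≤ 1 ∧ ∀ m z D : ℕ, 1 ≤ m → 2 ≤ z → z ≤ D → ∃ lm lp : ℕ → ℝ,
    (∀ d, lm d ≠ 0 ∨ lp d ≠ 0 → d ∣ Pq m z ∧ d ≤ D) ∧
    (∀ d, |lm d| ≤ 3 ^ d.primeFactors.card ∧ |lp d| ≤ 3 ^ d.primeFactors.card) ∧
    (∀ n : ℕ, 1 ≤ n → ∑ d ∈ n.divisors, lm d ≤ (if Nat.Coprime n (Pq m z) then 1 else 0)) ∧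
    (∀ n : ℕ, 1 ≤ n → (if Nat.Coprime n (Pq m z) then (1 : ℝ) else 0) ≤ ∑ d ∈ n.divisors, lp d) ∧
    |∑ d ∈ (Pq m z).divisors, lm d / d| ≤ C * m / Real.log z ∧
    |∑ d ∈ (Pq m z).divisors, lp d / d| ≤ C * m / Real.log z ∧
    ∑ d ∈ (Pq m z).divisors, (lp d - lm d) / d ≤
      C * m / Real.log z * Real.exp (-(c * (Real.log D / Real.log z))) := by
  classical
  obtain ⟨C₀, hC₀, hrk⟩ := rankin
  obtain ⟨C₁, hC₁, htl⟩ := tail
  obtain ⟨K, hK, hsm⟩ := JJ_inv_small
  set s1 := Real.log (2 * C₀) with hs1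
  have hs10 : 0 ≤ s1 := Real.log_nonneg (by linarith)
  set s0 : ℝ := 5 + 2 * s1 with hs0
  set A : ℝ := 2 * C₀ * C₁ with hA
  have hA0 : 0 < A := by positivity
  set B : ℝ := 2 * C₀ with hB
  have hB0 : 0 < B := by positivity
  set C : ℝ := K * Real.exp (s0 / 4) + K + 1 + A * Real.exp 1 + B * Real.exp 1 with hC
  have he1 : 1 ≤ Real.exp 1 := Real.one_le_exp (by norm_num)
  have hes : 1 ≤ Real.exp (s0 / 4) := Real.one_le_exp (by positivity)
  have hC1 : K ≤ C := by
    have : 0 ≤ K * Real.exp (s0 / 4) := by positivity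
    have : 0 ≤ A * Real.exp 1 := by positivity
    have : 0 ≤ B * Real.exp 1 := by positivity
    linarith
  have hC2 : 1 + A ≤ C := by
    have : 0 ≤ K * Real.exp (s0 / 4) := by positivity
    have : A ≤ A * Real.exp 1 := le_mul_of_one_le_right hA0.le he1
    have : 0 ≤ B * Real.exp 1 := by positivity
    linarith
  have hC3 : A * Real.exp 1 + B * Real.exp 1 ≤ C := by
    have : 0 ≤ K * Real.exp (s0 / 4) := by positivity
    linarith
  have hC4 : K * Real.exp (s0 / 4) ≤ C := by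
    have : 0 ≤ A * Real.exp 1 := by positivity
    have : 0 ≤ B * Real.exp 1 := by positivity
    linarith
  have hC0 : 0 < C := lt_of_lt_of_le hK hC1
  refine ⟨C, 1 / 4, hC0, by norm_num, by norm_num, ?_⟩
  intro m z D hm hz hzD
  have hz1 : (1 : ℝ) < z := by exact_mod_cast (by omega : 1 < z)
  have hL0 : 0 < Real.log z := Real.log_pos hz1
  have hm0 : (0 : ℝ) ≤ m := Nat.cast_nonneg m
  have hR1 : 1 ≤ Nat.sqrt D := Nat.sqrt_pos.2 (by omega)
  set L := Real.log z with hL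
  set s := Real.log D / L with hs
  have hD1 : (1 : ℝ) ≤ D := by exact_mod_cast (by omega : 1 ≤ D)
  have hsnn : 0 ≤ s := div_nonneg (Real.log_nonneg hD1) hL0.le
  have hsL : s * L = Real.log D := div_mul_cancel₀ _ hL0.ne'
  have hmL : 0 ≤ (m : ℝ) / L := by positivity
  have hlp1 : ∀ d, lam m z (Nat.sqrt D) d ≠ 0 → d ∣ Pq m z ∧ d ≤ D := fun d hd => by
    obtain ⟨h1, h2⟩ := lam_supp hd
    exact ⟨h1, h2.trans (Nat.sqrt_le' D)⟩
  have hJ0 : 0 < JJ m z (Nat.sqrt D) := JJ_pos hR1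
  have hlpabs : |∑ d ∈ (Pq m z).divisors, lam m z (Nat.sqrt D) d / d| ≤ C * m / L := by
    rw [lam_main hR1, abs_of_pos (inv_pos.2 hJ0)]
    refine (hsm m z D hm hz hzD).trans ?_
    rw [mul_div_assoc, mul_div_assoc]
    exact mul_le_mul_of_nonneg_right hC1 hmL
  rcases lt_or_ge s s0 with hc | hc
  · refine ⟨fun _ => 0, lam m z (Nat.sqrt D), ?_, ?_, ?_, ?_, ?_, hlpabs, ?_⟩
    · rintro d (h | h)
      · exact absurd rfl h
      · exact hlp1 d h
    · intro d
      refine ⟨?_, abs_lam_le hR1 d⟩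
      rw [abs_zero]
      positivity
    · intro n _
      rw [sum_const_zero]
      split_ifs <;> norm_num
    · intro n hn
      exact lam_sum_ge hR1 hn
    · simp only [zero_div, sum_const_zero, abs_zero]
      positivity
    · simp only [sub_zero]
      rw [lam_main hR1]
      refine (hsm m z D hm hz hzD).trans ?_
      have e1 : 1 ≤ Real.exp (s0 / 4) * Real.exp (-(1 / 4 * s)) := by
        rw [← Real.exp_add]
        exact Real.one_le_exp (by linarith)
      calc K * m / L = K * (m / L) := by ring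
        _ ≤ (K * (m / L)) * (Real.exp (s0 / 4) * Real.exp (-(1 / 4 * s))) :=
            le_mul_of_one_le_right (by positivity) e1
        _ = (K * Real.exp (s0 / 4)) * ((m / L) * Real.exp (-(1 / 4 * s))) := by ring
        _ ≤ C * ((m / L) * Real.exp (-(1 / 4 * s))) :=
            mul_le_mul_of_nonneg_right hC4 (by positivity)
        _ = _ := by ring
  · have hl1 := log_sqrt_ge hz hzD
    have hl2 := log_sqrt_ge' hz hzD
    rw [← hL] at hl1 hl2
    set R' := Nat.sqrt (D / z) with hR'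
    have hr1 : s / 2 - 3 / 2 ≤ Real.log (R' : ℕ) / L := by
      rw [le_div_iff₀ hL0]
      linarith
    have hr2 : s / 2 - 1 ≤ Real.log (Nat.sqrt D : ℕ) / L := by
      rw [le_div_iff₀ hL0]
      linarith
    have hR'1 : 1 ≤ R' := Nat.sqrt_pos.2 (Nat.div_pos hzD (by omega))
    have hR'0 : (0 : ℝ) < R' := by exact_mod_cast hR'1
    have hzR : z ≤ R' := by
      have e1 : (1 : ℝ) ≤ Real.log (R' : ℕ) / L := by linarith
      rw [le_div_iff₀ hL0, one_mul] at e1
      have e2 := (Real.log_le_log_iff (by linarith) hR'0).1 e1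
      exact_mod_cast e2
    have hhalf : ∀ x : ℝ, s1 ≤ x → C₀ * Real.exp (-x) ≤ 1 / 2 := by
      intro x hx
      have e1 : Real.exp (-x) ≤ Real.exp (-s1) := Real.exp_le_exp.2 (by linarith)
      rw [hs1, Real.exp_neg (Real.log (2 * C₀)), Real.exp_log (by positivity)] at e1
      calc C₀ * Real.exp (-x) ≤ C₀ * (2 * C₀)⁻¹ := mul_le_mul_of_nonneg_left e1 (by linarith)
        _ = 1 / 2 := by field_simp
    have hx1 : C₀ * Real.exp (-(Real.log (R' : ℕ) / L)) ≤ 1 / 2 := hhalf _ (by linarith)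
    have hx2 : C₀ * Real.exp (-(Real.log (Nat.sqrt D : ℕ) / L)) ≤ 1 / 2 := hhalf _ (by linarith)
    have hup := lamM_upper (m := m) hzD
    have hlow := lamM_lower hC₀ hrk htl hm hz hzD hzR hx1
    have hVL := Vq_le_log hm hz
    have hV0 := Vq_pos m z
    rw [← hL] at hlow hVL
    rw [← hR'] at hlow
    have hlam := JJ_inv_le hC₀ hrk hm hz hR1 hx2
    rw [← hL] at hlam
    set E := Real.exp (-(1 / 4 * s)) with hE
    have hE0 : 0 < E := Real.exp_pos _
    have hE1 : E ≤ 1 := Real.exp_le_one_iff.2 (by linarith)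
    have hx3 : Real.exp (-(Real.log (R' : ℕ) / (2 * L))) ≤ Real.exp 1 * E := by
      rw [hE, ← Real.exp_add]
      refine Real.exp_le_exp.2 ?_
      have e1 : Real.log (R' : ℕ) / (2 * L) = (Real.log (R' : ℕ) / L) / 2 := by
        rw [div_div]
        ring
      rw [e1]
      linarith
    have hx3' : Real.exp (-(Real.log (R' : ℕ) / (2 * L))) ≤ 1 := by
      refine Real.exp_le_one_iff.2 ?_
      have : 0 ≤ Real.log (R' : ℕ) := Real.log_natCast_nonneg R'
      have : 0 ≤ Real.log (R' : ℕ) / (2 * L) := by positivity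
      linarith
    have hx4 : Real.exp (-(Real.log (Nat.sqrt D : ℕ) / L)) ≤ Real.exp 1 * E := by
      rw [hE, ← Real.exp_add]
      refine Real.exp_le_exp.2 ?_
      linarith
    have hlow2 : 2 * C₀ * m * (C₁ * Real.exp (-(Real.log (R' : ℕ) / (2 * L))) / L) =
        A * (m / L) * Real.exp (-(Real.log (R' : ℕ) / (2 * L))) := by
      rw [hA]
      ring
    rw [hlow2] at hlow
    have hAm : 0 ≤ A * (m / L) := by positivity
    refine ⟨lamM m z D, lam m z (Nat.sqrt D), ?_, ?_, ?_, ?_, ?_, hlpabs, ?_⟩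
    · rintro d (h | h)
      · exact lamM_supp (by omega) h
      · exact hlp1 d h
    · intro d
      exact ⟨abs_lamM_le hzD d, abs_lam_le hR1 d⟩
    · intro n hn
      exact lamM_sum hzD hn
    · intro n hn
      exact lam_sum_ge hR1 hn
    · have e1 : A * (m / L) * Real.exp (-(Real.log (R' : ℕ) / (2 * L))) ≤ A * (m / L) :=
        mul_le_of_le_one_right hAm hx3'
      have e2 : C * m / L = C * (m / L) := by ring
      have e3 : (m : ℝ) / L + A * (m / L) ≤ C * (m / L) := by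
        have e4 := mul_le_mul_of_nonneg_right hC2 hmL
        rwa [add_mul, one_mul] at e4
      rw [e2, abs_le]
      constructor
      · linarith
      · linarith
    · simp only [sub_div]
      rw [sum_sub_distrib, lam_main hR1]
      have e1 : A * (m / L) * Real.exp (-(Real.log (R' : ℕ) / (2 * L))) ≤
          A * (m / L) * (Real.exp 1 * E) := mul_le_mul_of_nonneg_left hx3 hAm
      have e2 : Vq m z * (1 + 2 * (C₀ * Real.exp (-(Real.log (Nat.sqrt D : ℕ) / L)))) ≤
          Vq m z + (m / L) * (B * (Real.exp 1 * E)) := by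
        have e3 : Vq m z * (2 * (C₀ * Real.exp (-(Real.log (Nat.sqrt D : ℕ) / L)))) ≤
            (m / L) * (B * (Real.exp 1 * E)) := by
          refine mul_le_mul hVL ?_ (by positivity) hmL
          rw [hB, ← mul_assoc]
          exact mul_le_mul_of_nonneg_left hx4 (by positivity)
        linarith
      have e4 : (A * Real.exp 1 + B * Real.exp 1) * ((m / L) * E) ≤ C * ((m / L) * E) :=
        mul_le_mul_of_nonneg_right hC3 (by positivity)
      have e5 : C * m / L * E = C * ((m / L) * E) := by ring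
      have e6 : (A * Real.exp 1 + B * Real.exp 1) * ((m / L) * E) =
          A * (m / L) * (Real.exp 1 * E) + (m / L) * (B * (Real.exp 1 * E)) := by ring
      rw [e5]
      rw [e6] at e4
      linarith

end Pool.Agent.Lib.MP_3e612f_nt.MR
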