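import Pool.Agent.Lib.MP_3e612f_nt.MR.RsumB
import Pool.Agent.Lib.MP_3e612f_nt.MR.Osc
import Pool.Agent.Lib.MP_3e612f_nt.MR.SW

/-! Sums of `χ(n) n^{-iu}` over rough numbers. -/

set_option autoImplicit false

namespace Pool.Agent.Lib.MP_3e612f_nt.MR

open Finset Pool.Agent.Lib.MP_629a14_nt.Rob

/-- `z ≤ (√z)^4` -/
private theorem rs_sqrt4 {z : ℕ} (hz : 4 ≤ z) : 2 ≤ Nat.sqrt z ∧ z ≤ Nat.sqrt z ^ 4 := by
  have h1 : 2 ≤ Nat.sqrt z := by
    rw [Nat.le_sqrt]
    omega
  refine ⟨h1, ?_⟩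
  have h2 : z < (Nat.sqrt z + 1) * (Nat.sqrt z + 1) := Nat.lt_succ_sqrt z
  have h3 : (Nat.sqrt z + 1) * (Nat.sqrt z + 1) ≤ Nat.sqrt z ^ 4 := by
    have h4 : Nat.sqrt z + 1 ≤ Nat.sqrt z * Nat.sqrt z := by nlinarith
    calc (Nat.sqrt z + 1) * (Nat.sqrt z + 1) ≤ (Nat.sqrt z * Nat.sqrt z) * (Nat.sqrt z * Nat.sqrt z) :=
          Nat.mul_le_mul h4 h4
      _ = Nat.sqrt z ^ 4 := by ring
  omega

private theorem rs_log4 {z : ℕ} (hz : 4 ≤ z) : Real.log z ≤ 4 * Real.log (Nat.sqrt z) := by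
  have h := (rs_sqrt4 hz).2
  have h1 : Real.log z ≤ Real.log ((Nat.sqrt z : ℝ) ^ 4) := by
    refine Real.log_le_log (by exact_mod_cast (by omega : 0 < z)) ?_
    exact_mod_cast h
  rw [Real.log_pow] at h1
  exact_mod_cast h1

/-- `D = √N` is at most `N^{1/2}` -/
private theorem rs_sqrt_le (N : ℕ) : ((Nat.sqrt N : ℕ) : ℝ) ≤ (N : ℝ) ^ (1 / 2 : ℝ) := by
  rw [← Real.sqrt_eq_rpow]
  exact Real.le_sqrt_of_sq_le (by exact_mod_cast (by rw [sq]; exact Nat.sqrt_le N))

/-- The number of rough numbers coprime to `m` in a dyadic interval (upper bound, `sw` or `Rob/BT.lean`). -/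
theorem rough_count (m : ℕ) [NeZero m] : ∃ C : ℝ, 0 < C ∧ ∀ z N : ℕ, 2 ≤ z → z ≤ N →
    (((Ioc N (2 * N)).filter (fun n => Rough z n ∧ Nat.Coprime n m)).card : ℝ) ≤ C * (N / Real.log z) := by
  obtain ⟨Cs, cs, hCs, hcs, hcs1, hsw⟩ := sw
  obtain ⟨C3, hC3, h3⟩ := rs_sum30 (1 / 2) (by norm_num)
  refine ⟨4 * Cs * m + 4 * C3 + 2, by positivity, ?_⟩
  intro z N hz hzN
  have hm1 : 1 ≤ m := Nat.pos_of_ne_zero (NeZero.ne m)
  have hz1 : (1 : ℝ) < z := by exact_mod_cast (by omega : 1 < z)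
  have hlz : 0 < Real.log z := Real.log_pos hz1
  have hN0 : (0 : ℝ) < N := by exact_mod_cast (by omega : 0 < N)
  have hNl : 0 < (N : ℝ) / Real.log z := by positivity
  rcases lt_or_ge z 4 with hz4 | hz4
  · -- trivial bound
    have h1 : (((Ioc N (2 * N)).filter (fun n => Rough z n ∧ Nat.Coprime n m)).card : ℝ) ≤ N := by
      have h2 := card_filter_le (Ioc N (2 * N)) (fun n => Rough z n ∧ Nat.Coprime n m)
      rw [Nat.card_Ioc] at h2
      have h3 : 2 * N - N = N := by omega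
      rw [h3] at h2
      exact_mod_cast h2
    have h2 : Real.log z ≤ 2 := by
      have h4 : Real.log z ≤ (z : ℝ) - 1 := Real.log_le_sub_one_of_pos (by linarith)
      have h5 : (z : ℝ) ≤ 3 := by exact_mod_cast (by omega : z ≤ 3)
      linarith
    have h4 : (N : ℝ) ≤ 2 * (N / Real.log z) := by
      rw [← mul_div_assoc, le_div_iff₀ hlz]
      nlinarith
    have h5 : (0 : ℝ) ≤ (4 * Cs * m + 4 * C3) * (N / Real.log z) := by positivity
    nlinarith
  · obtain ⟨hw2, hw4⟩ := rs_sqrt4 hz4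
    set w := Nat.sqrt z with hw
    have hwz : w ≤ z := Nat.sqrt_le_self z
    obtain ⟨lm, lp, hsupp, hbd, hlow, hup, hlms, hlps, hdiff⟩ := hsw m w w hm1 hw2 (le_refl w)
    have hPne : Pq m w ≠ 0 := rs_Pq_ne m w
    -- the count
    have h1 : (((Ioc N (2 * N)).filter (fun n => Rough z n ∧ Nat.Coprime n m)).card : ℝ) ≤
        ∑ n ∈ Ioc N (2 * N), ∑ d ∈ n.divisors, lp d := by
      rw [card_filter]
      push_cast
      refine sum_le_sum fun n hn => ?_
      rw [mem_Ioc] at hn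
      have h2 := hup n (by omega)
      refine le_trans ?_ h2
      split_ifs with ha hb hb
      · exact le_refl _
      · exfalso
        apply hb
        have : Rough w n := fun p hp hpn => le_trans hwz (ha.1 p hp hpn)
        exact rs_coprime this
      · norm_num
      · exact le_refl _
    have h2 := rs_main (Pq m w) N (2 * N) w hPne (by omega) lp 1 (by norm_num)
      (fun d hd => hsupp d (Or.inr hd)) (fun d => by rw [one_mul]; exact (hbd d).2)
    have hlogw : 0 < Real.log w := Real.log_pos (by exact_mod_cast (by omega : 1 < w))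
    have h4 : (((2 * N : ℕ) : ℝ) - N) * ∑ d ∈ (Pq m w).divisors, lp d / d ≤ 4 * Cs * m * (N / Real.log z) := by
      have h5 : (((2 * N : ℕ) : ℝ) - N) = N := by push_cast; ring
      rw [h5]
      have h6 : ∑ d ∈ (Pq m w).divisors, lp d / d ≤ Cs * m / Real.log w := le_trans (le_abs_self _) hlps
      have h7 : Cs * m / Real.log w ≤ 4 * Cs * m / Real.log z := by
        rw [div_le_div_iff₀ hlogw hlz]
        have := rs_log4 hz4
        rw [← hw] at this
        have h8 : (0 : ℝ) ≤ Cs * m := by positivity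
        nlinarith
      calc (N : ℝ) * ∑ d ∈ (Pq m w).divisors, lp d / d ≤ N * (4 * Cs * m / Real.log z) :=
            mul_le_mul_of_nonneg_left (le_trans h6 h7) hN0.le
        _ = 4 * Cs * m * (N / Real.log z) := by ring
    have h5 : (1 : ℝ) * ∑ d ∈ Icc 1 w, (3 : ℝ) ^ d.primeFactors.card ≤ 4 * C3 * (N / Real.log z) := by
      rw [one_mul]
      refine le_trans (h3 w (by omega)) ?_
      have h6 : ((w : ℕ) : ℝ) ^ (1 + 1 / 2 : ℝ) ≤ (N : ℝ) ^ (3 / 4 : ℝ) := by
        have h7 := rs_sqrt_le z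
        rw [← hw] at h7
        calc ((w : ℕ) : ℝ) ^ (1 + 1 / 2 : ℝ) ≤ ((z : ℝ) ^ (1 / 2 : ℝ)) ^ (1 + 1 / 2 : ℝ) :=
              Real.rpow_le_rpow (Nat.cast_nonneg _) h7 (by norm_num)
          _ = (z : ℝ) ^ (3 / 4 : ℝ) := by
              rw [← Real.rpow_mul (Nat.cast_nonneg _)]
              norm_num
          _ ≤ (N : ℝ) ^ (3 / 4 : ℝ) :=
              Real.rpow_le_rpow (Nat.cast_nonneg _) (by exact_mod_cast hzN) (by norm_num)
      have h8 : (N : ℝ) ^ (3 / 4 : ℝ) ≤ 4 * (N / Real.log z) := by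
        have h9 : Real.log z ≤ (N : ℝ) ^ (1 / 4 : ℝ) / (1 / 4) := by
          have hzNr : (z : ℝ) ≤ N := by exact_mod_cast hzN
          refine le_trans (Real.log_le_log (by linarith) hzNr) ?_
          exact Real.log_le_rpow_div hN0.le (by norm_num)
        have h10 : (N : ℝ) ^ (3 / 4 : ℝ) * (N : ℝ) ^ (1 / 4 : ℝ) = N := by
          rw [← Real.rpow_add hN0]
          norm_num
        rw [← mul_div_assoc, le_div_iff₀ hlz]
        have h11 : 0 < (N : ℝ) ^ (3 / 4 : ℝ) := Real.rpow_pos_of_pos hN0 _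
        nlinarith
      have hC30 : 0 < C3 := by linarith
      calc C3 * ((w : ℕ) : ℝ) ^ (1 + 1 / 2 : ℝ) ≤ C3 * (4 * (N / Real.log z)) :=
            mul_le_mul_of_nonneg_left (le_trans h6 h8) hC30.le
        _ = 4 * C3 * (N / Real.log z) := by ring
    nlinarith

/-- the main case of `rsum` -/
private theorem rs_large (m : ℕ) [NeZero m] : ∃ C c : ℝ, 0 < C ∧ 0 < c ∧ c ≤ 1 / 4 ∧
    ∀ κ : ℝ, 0 < κ → ∃ c₂ C₂ : ℝ, 0 < c₂ ∧ c₂ ≤ 1 / 2 ∧
    0 < C₂ ∧ ∀ (χ : DirichletCharacter ℂ m) (z N N' : ℕ) (u : ℝ), 2 ≤ z → z ^ 4 ≤ N → N ≤ N' → N' ≤ 2 * N →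
      1 ≤ |u| → |u| ≤ (N : ℝ) ^ (1 / κ) →
      ‖∑ n ∈ (Ioc N N').filter (fun n => Rough z n), χ ((n : ℕ) : ZMod m) * ph n u‖ ≤
        C * (N / Real.log z) * (Real.exp (-(c * (Real.log N / Real.log z))) + 1 / |u|) +
          C₂ * (N : ℝ) ^ (1 - c₂) := by
  obtain ⟨Cs, cs, hCs, hcs, hcs1, hsw⟩ := sw
  have hm1 : 1 ≤ m := Nat.pos_of_ne_zero (NeZero.ne m)
  have hmr : (1 : ℝ) ≤ m := by exact_mod_cast hm1
  refine ⟨3 * Cs * m, cs / 4, by positivity, by positivity, by linarith, ?_⟩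
  intro κ hκ
  obtain ⟨c, C, hc, hc2, hC, hin⟩ := rs_inner m κ hκ
  obtain ⟨C3, hC3, h3⟩ := rs_sum3 (c / 2) (by positivity)
  obtain ⟨C4, hC4, h4⟩ := rs_sum30 (1 / 2) (by norm_num)
  have hC30 : 0 < C3 := by linarith
  have hC40 : 0 < C4 := by linarith
  refine ⟨c / 4, C * C3 + 2 * C4, by positivity, by linarith, by positivity, ?_⟩
  intro χ z N N' u hz hzN hNN hN2 hu1 hu2
  have hz4 : 16 ≤ N := le_trans (by
    calc 16 = 2 ^ 4 := by norm_num
      _ ≤ z ^ 4 := Nat.pow_le_pow_left hz 4) hzN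
  have hN0 : (0 : ℝ) < N := by exact_mod_cast (by omega : 0 < N)
  have hN1 : (1 : ℝ) ≤ N := by exact_mod_cast (by omega : 1 ≤ N)
  have hz1 : (1 : ℝ) < z := by exact_mod_cast (by omega : 1 < z)
  have hlz : 0 < Real.log z := Real.log_pos hz1
  have hu0 : 0 < |u| := by linarith
  obtain ⟨hD2, hD4⟩ := rs_sqrt4 (z := N) (by omega)
  set D := Nat.sqrt N with hD
  have hzD : z ≤ D := by
    rw [hD, Nat.le_sqrt]
    calc z * z ≤ (z * z) * (z * z) := Nat.le_mul_of_pos_right _ (by positivity)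
      _ = z ^ 4 := by ring
      _ ≤ N := hzN
  obtain ⟨lm, lp, hsupp, hbd, hlow, hup, hlms, hlps, hdiff⟩ := hsw m z D hm1 hz hzD
  have hPne : Pq m z ≠ 0 := rs_Pq_ne m z
  have hlogD : Real.log N ≤ 4 * Real.log D := by
    rw [hD]
    exact rs_log4 (by omega)
  -- the two parts
  set g : ℕ → ℂ := fun n => χ ((n : ℕ) : ZMod m) * ph n u with hg
  have hgn : ∀ n, ‖g n‖ ≤ 1 := by
    intro n
    rw [hg]
    simp only
    rw [norm_mul, rs_ph_norm, mul_one]
    exact χ.norm_le_one _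
  set S1 : ℂ := ∑ n ∈ Ioc N N', ((∑ d ∈ n.divisors, lm d : ℝ) : ℂ) * g n with hS1
  have hA : ‖∑ n ∈ (Ioc N N').filter (fun n => Rough z n), g n - S1‖ ≤
      ∑ n ∈ Ioc N N', ∑ d ∈ n.divisors, (lp d - lm d) := by
    rw [sum_filter, hS1, ← sum_sub_distrib]
    refine le_trans (norm_sum_le _ _) (sum_le_sum fun n hn => ?_)
    rw [mem_Ioc] at hn
    have hl := hlow n (by omega)
    have hu := hup n (by omega)
    rw [sum_sub_distrib]
    by_cases hco : Nat.Coprime n m
    · have h5 : ((if Rough z n then g n else 0) - ((∑ d ∈ n.divisors, lm d : ℝ) : ℂ) * g n) =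
          (((if Nat.Coprime n (Pq m z) then (1 : ℝ) else 0) - ∑ d ∈ n.divisors, lm d : ℝ) : ℂ) * g n := by
        by_cases hr : Rough z n
        · rw [if_pos hr, if_pos ((rs_rough hco).1 hr)]
          push_cast
          ring
        · rw [if_neg hr, if_neg (fun h => hr ((rs_rough hco).2 h))]
          push_cast
          ring
      rw [h5, norm_mul, Complex.norm_real, Real.norm_eq_abs, abs_of_nonneg (by linarith)]
      calc _ ≤ ((if Nat.Coprime n (Pq m z) then (1 : ℝ) else 0) - ∑ d ∈ n.divisors, lm d) * 1 :=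
            mul_le_mul_of_nonneg_left (hgn n) (by linarith)
        _ ≤ _ := by linarith
    · have hg0 : g n = 0 := by
        rw [hg]
        simp only
        rw [χ.map_nonunit (by rwa [ZMod.isUnit_iff_coprime]), zero_mul]
      rw [hg0]
      simp only [mul_zero, ite_self, sub_zero, norm_zero]
      linarith
  have hA2 : ∑ n ∈ Ioc N N', ∑ d ∈ n.divisors, (lp d - lm d) ≤
      Cs * m * (N / Real.log z) * Real.exp (-(cs / 4 * (Real.log N / Real.log z))) +
        2 * C4 * (N : ℝ) ^ (1 - c / 4) := by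
    have h5 := rs_main (Pq m z) N N' D hPne hNN (fun d => lp d - lm d) 2 (by norm_num)
      (fun d hd => by
        apply hsupp d
        by_contra h
        push Not at h
        apply hd
        rw [h.1, h.2, sub_zero])
      (fun d => by
        have := hbd d
        refine le_trans (abs_sub _ _) ?_
        linarith [this.1, this.2])
    refine le_trans h5 (add_le_add ?_ ?_)
    · have h6 : Cs * m / Real.log z * Real.exp (-(cs * (Real.log D / Real.log z))) ≤
          Cs * m / Real.log z * Real.exp (-(cs / 4 * (Real.log N / Real.log z))) := by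
        refine mul_le_mul_of_nonneg_left (Real.exp_le_exp.2 ?_) (by positivity)
        rw [neg_le_neg_iff]
        have h7 : cs / 4 * (Real.log N / Real.log z) = cs * (Real.log N / 4 / Real.log z) := by ring
        rw [h7]
        refine mul_le_mul_of_nonneg_left ?_ hcs.le
        rw [div_le_div_iff₀ hlz hlz]
        nlinarith
      have h8 : (N' : ℝ) - N ≤ N := by
        have : (N' : ℝ) ≤ 2 * N := by exact_mod_cast hN2
        linarith
      have h9 : (0 : ℝ) ≤ (N' : ℝ) - N := by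
        have : (N : ℝ) ≤ N' := by exact_mod_cast hNN
        linarith
      have hB0 : 0 ≤ Cs * m / Real.log z * Real.exp (-(cs / 4 * (Real.log N / Real.log z))) := by positivity
      calc ((N' : ℝ) - N) * ∑ d ∈ (Pq m z).divisors, (lp d - lm d) / d
          ≤ ((N' : ℝ) - N) * (Cs * m / Real.log z * Real.exp (-(cs / 4 * (Real.log N / Real.log z)))) :=
            mul_le_mul_of_nonneg_left (le_trans hdiff h6) h9
        _ ≤ N * (Cs * m / Real.log z * Real.exp (-(cs / 4 * (Real.log N / Real.log z)))) :=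
            mul_le_mul_of_nonneg_right h8 hB0
        _ = _ := by ring
    · rw [mul_assoc]
      refine mul_le_mul_of_nonneg_left ?_ (by norm_num)
      refine le_trans (h4 D (by omega)) ?_
      refine mul_le_mul_of_nonneg_left ?_ hC40.le
      calc ((D : ℕ) : ℝ) ^ (1 + 1 / 2 : ℝ) ≤ ((N : ℝ) ^ (1 / 2 : ℝ)) ^ (1 + 1 / 2 : ℝ) :=
            Real.rpow_le_rpow (Nat.cast_nonneg _) (rs_sqrt_le N) (by norm_num)
        _ = (N : ℝ) ^ (3 / 4 : ℝ) := by
            rw [← Real.rpow_mul (Nat.cast_nonneg _)]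
            norm_num
        _ ≤ (N : ℝ) ^ (1 - c / 4) := Real.rpow_le_rpow_of_exponent_le hN1 (by linarith)
  -- the main term
  set I0 : ℂ := ∫ x in (N : ℝ)..(N' : ℝ), rsE u x with hI0
  have hI0n : ‖I0‖ ≤ 3 * N / |u| := by
    have h5 := osc_int N N' hN0 (by exact_mod_cast hNN) u (by
      intro h0
      rw [h0, abs_zero] at hu1
      linarith)
    refine le_trans h5 ?_
    have h6 : (N' : ℝ) ≤ 2 * N := by exact_mod_cast hN2
    exact div_le_div_of_nonneg_right (by linarith) hu0.le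
  have hB : ‖S1 - rsM χ * I0 * ((∑ d ∈ (Pq m z).divisors, lm d / d : ℝ) : ℂ)‖ ≤
      C * C3 * (N : ℝ) ^ (1 - c / 4) := by
    have h5 : S1 = ∑ d ∈ (Pq m z).divisors, (lm d : ℂ) * (χ ((d : ℕ) : ZMod m) * ph d u *
        ∑ k ∈ Ioc (N / d) (N' / d), χ ((k : ℕ) : ZMod m) * ph k u) := by
      rw [hS1, rs_swap (Pq m z) N N' hPne lm (fun d hd => (hsupp d (Or.inl hd)).1) g]
      refine sum_congr rfl fun d hd => ?_
      have hd1 : 1 ≤ d := Nat.pos_of_mem_divisors hd
      congr 1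
      rw [mul_sum]
      refine sum_congr rfl fun k hk => ?_
      rw [mem_Ioc] at hk
      rw [hg]
      simp only
      have hk1 : 1 ≤ k := lt_of_le_of_lt (Nat.zero_le _) hk.1
      rw [rs_ph_mul d k hd1 hk1, Nat.cast_mul, map_mul]
      ring
    have h6 : rsM χ * I0 * ((∑ d ∈ (Pq m z).divisors, lm d / d : ℝ) : ℂ) =
        ∑ d ∈ (Pq m z).divisors, (lm d : ℂ) * (χ ((d : ℕ) : ZMod m) * ph d u *
          (rsM χ * ∫ x in ((N : ℝ) / d)..((N' : ℝ) / d), rsE u x)) := by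
      push_cast
      rw [mul_sum]
      refine sum_congr rfl fun d hd => ?_
      have hd1 : 1 ≤ d := Nat.pos_of_mem_divisors hd
      have h7 := rsE_subst u N N' d hd1 hN0 (by exact_mod_cast (by omega : 0 < N'))
      rw [← hI0] at h7
      by_cases hχ : χ = 1
      · have hdm : Nat.Coprime d m := rs_Pq_coprime (Nat.dvd_of_mem_divisors hd)
        have h8 : χ ((d : ℕ) : ZMod m) = 1 := by
          rw [hχ]
          exact MulChar.one_apply ((ZMod.isUnit_iff_coprime d m).2 hdm)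
        rw [h8]
        calc rsM χ * I0 * ((lm d : ℂ) / d) = (lm d : ℂ) * rsM χ * ((1 / (d : ℂ)) * I0) := by ring
          _ = (lm d : ℂ) * rsM χ * (ph d u * ∫ x in ((N : ℝ) / d)..((N' : ℝ) / d), rsE u x) := by rw [h7]
          _ = _ := by ring
      · have h8 : rsM χ = 0 := by
          unfold rsM
          rw [if_neg hχ]
        rw [h8]
        simp
    rw [h5, h6, ← sum_sub_distrib]
    refine le_trans (norm_sum_le _ _) ?_
    have h7 : ∀ d ∈ (Pq m z).divisors, ‖(lm d : ℂ) * (χ ((d : ℕ) : ZMod m) * ph d u *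
        ∑ k ∈ Ioc (N / d) (N' / d), χ ((k : ℕ) : ZMod m) * ph k u) -
        (lm d : ℂ) * (χ ((d : ℕ) : ZMod m) * ph d u *
          (rsM χ * ∫ x in ((N : ℝ) / d)..((N' : ℝ) / d), rsE u x))‖ ≤
        if d ≤ D then C * ((3 : ℝ) ^ d.primeFactors.card * ((N : ℝ) / d) ^ (1 - c)) else 0 := by
      intro d hd
      have hd1 : 1 ≤ d := Nat.pos_of_mem_divisors hd
      by_cases hdD : d ≤ D
      · rw [if_pos hdD, ← mul_sub, ← mul_sub, norm_mul, norm_mul, norm_mul, rs_ph_norm, mul_one,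
          Complex.norm_real, Real.norm_eq_abs]
        have h8 := hin χ N N' d u hd1 hD2 hdD hNN hN2 hu1 hu2
        have h9 : ‖χ ((d : ℕ) : ZMod m)‖ * ‖∑ k ∈ Ioc (N / d) (N' / d), χ ((k : ℕ) : ZMod m) * ph k u -
            rsM χ * ∫ x in ((N : ℝ) / d)..((N' : ℝ) / d), rsE u x‖ ≤ C * ((N : ℝ) / d) ^ (1 - c) :=
          le_trans (mul_le_of_le_one_left (norm_nonneg _) (χ.norm_le_one _)) h8
        calc _ ≤ (3 : ℝ) ^ d.primeFactors.card * (C * ((N : ℝ) / d) ^ (1 - c)) :=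
              mul_le_mul (hbd d).1 h9 (by positivity) (by positivity)
          _ = _ := by ring
      · rw [if_neg hdD]
        have h8 : lm d = 0 := by
          by_contra hne
          exact hdD (hsupp d (Or.inl hne)).2
        rw [h8]
        simp
    refine le_trans (sum_le_sum h7) ?_
    rw [← sum_filter]
    have h8 : ∑ d ∈ (Pq m z).divisors.filter (fun d => d ≤ D),
        C * ((3 : ℝ) ^ d.primeFactors.card * ((N : ℝ) / d) ^ (1 - c)) ≤
        ∑ d ∈ Icc 1 D, C * ((3 : ℝ) ^ d.primeFactors.card * ((N : ℝ) / d) ^ (1 - c)) := by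
      refine sum_le_sum_of_subset_of_nonneg ?_ (fun d _ _ => by positivity)
      intro d hd
      rw [mem_filter] at hd
      exact mem_Icc.2 ⟨Nat.pos_of_mem_divisors hd.1, hd.2⟩
    refine le_trans h8 ?_
    rw [← mul_sum, mul_assoc]
    refine mul_le_mul_of_nonneg_left ?_ hC.le
    refine le_trans (h3 D N c (by omega) hN0 hc.le) ?_
    rw [mul_assoc]
    refine mul_le_mul_of_nonneg_left ?_ hC30.le
    calc (N : ℝ) ^ (1 - c) * ((D : ℕ) : ℝ) ^ (c + c / 2)
        ≤ (N : ℝ) ^ (1 - c) * ((N : ℝ) ^ (1 / 2 : ℝ)) ^ (c + c / 2) := by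
          refine mul_le_mul_of_nonneg_left ?_ (by positivity)
          exact Real.rpow_le_rpow (Nat.cast_nonneg _) (rs_sqrt_le N) (by positivity)
      _ = (N : ℝ) ^ (1 - c / 4) := by
          rw [← Real.rpow_mul hN0.le, ← Real.rpow_add hN0]
          congr 1
          ring
  have hM : ‖rsM χ * I0 * ((∑ d ∈ (Pq m z).divisors, lm d / d : ℝ) : ℂ)‖ ≤
      3 * N / |u| * (Cs * m / Real.log z) := by
    rw [norm_mul, norm_mul, Complex.norm_real, Real.norm_eq_abs]
    refine mul_le_mul ?_ hlms (abs_nonneg _) (by positivity)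
    exact le_trans (mul_le_of_le_one_left (norm_nonneg _) (rsM_norm χ)) hI0n
  have hfin : ‖∑ n ∈ (Ioc N N').filter (fun n => Rough z n), g n‖ ≤
      ‖∑ n ∈ (Ioc N N').filter (fun n => Rough z n), g n - S1‖ +
      ‖S1 - rsM χ * I0 * ((∑ d ∈ (Pq m z).divisors, lm d / d : ℝ) : ℂ)‖ +
      ‖rsM χ * I0 * ((∑ d ∈ (Pq m z).divisors, lm d / d : ℝ) : ℂ)‖ := by
    have h5 : ∑ n ∈ (Ioc N N').filter (fun n => Rough z n), g n =
        (∑ n ∈ (Ioc N N').filter (fun n => Rough z n), g n - S1) +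
        (S1 - rsM χ * I0 * ((∑ d ∈ (Pq m z).divisors, lm d / d : ℝ) : ℂ)) +
        rsM χ * I0 * ((∑ d ∈ (Pq m z).divisors, lm d / d : ℝ) : ℂ) := by ring
    calc _ = ‖_‖ := by rw [← h5]
      _ ≤ _ := le_trans (norm_add_le _ _) (add_le_add (norm_add_le _ _) (le_refl _))
  have hE0 : 0 ≤ Cs * m * (N / Real.log z) * Real.exp (-(cs / 4 * (Real.log N / Real.log z))) := by
    positivity
  have h10 : 3 * N / |u| * (Cs * m / Real.log z) = 3 * Cs * m * (N / Real.log z) * (1 / |u|) := by ring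
  calc ‖∑ n ∈ (Ioc N N').filter (fun n => Rough z n), χ ((n : ℕ) : ZMod m) * ph n u‖
      ≤ (Cs * m * (N / Real.log z) * Real.exp (-(cs / 4 * (Real.log N / Real.log z))) +
        2 * C4 * (N : ℝ) ^ (1 - c / 4)) + C * C3 * (N : ℝ) ^ (1 - c / 4) +
        3 * N / |u| * (Cs * m / Real.log z) :=
        le_trans hfin (add_le_add (add_le_add (le_trans hA hA2) hB) hM)
    _ ≤ 3 * Cs * m * (N / Real.log z) * (Real.exp (-(cs / 4 * (Real.log N / Real.log z))) + 1 / |u|) +
        (C * C3 + 2 * C4) * (N : ℝ) ^ (1 - c / 4) := by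
        rw [h10]
        nlinarith

/-- Proof. For `N < z^4` use `rough_count`. Otherwise `D = ⌊N^{1/2}⌋ ≥ z` in `sw`. For `(n, m) = 1`, `Rough z n` iff `n` is coprime to
`Pq m z`; put `θ^±(n) = ∑_{d ∣ n} λ^±_d`. The sum is `∑ χ(n) n^{-iu} θ⁻(n)` up to `∑_{(n,m)=1} (θ⁺ - θ⁻)(n)`, which is
at most `(φ(m)/m)(N'-N) ∑ (λ⁺-λ⁻)/d + 2 m ∑_{d ≤ D} 3^{ω(d)}`. The first sum is `∑_{d ≤ D} λ⁻_d χ(d) d^{-iu} ∑_{N/d < k ≤ N'/d} χ(k) k^{-iu}`; the inner
sum by `osc` in every class, with `N/d ≥ N^{1/2}`, `|u| ≤ N^{1/κ} ≤ (N/d)^{2/κ}`·..: `= (1/m)(∑_r χ(r)) ∫_{N/d}^{N'/d} x^{-iu} dx +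
O(m (N/d)^{1-c})` (adjust the end points, error `O(1)`), and `∑_r χ(r) = 0` for `χ ≠ 1`; for `χ = 1` the integral is `d^{-1+iu} ∫_N^{N'} x^{-iu} dx`
and `|∑ λ⁻_d 1_{(d,m)=1}/d| ≤ C m/log z`, `osc_int`. The errors: `∑_{d ≤ D} 3^{ω(d)} (N/d)^{1-c} ≤ C_ε N^{1-c} D^{c+ε}`,
`3^{ω(d)} ≤ C_ε d^ε`. -/
theorem rsum (m : ℕ) [NeZero m] : ∃ C c : ℝ, 0 < C ∧ 0 < c ∧ ∀ κ : ℝ, 0 < κ → ∃ c₂ C₂ : ℝ, 0 < c₂ ∧ c₂ ≤ 1 / 2 ∧
    0 < C₂ ∧ ∀ (χ : DirichletCharacter ℂ m) (z N N' : ℕ) (u : ℝ), 2 ≤ z → z ≤ N → N ≤ N' → N' ≤ 2 * N →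
      1 ≤ |u| → |u| ≤ (N : ℝ) ^ (1 / κ) →
      ‖∑ n ∈ (Ioc N N').filter (fun n => Rough z n), χ ((n : ℕ) : ZMod m) * ph n u‖ ≤
        C * (N / Real.log z) * (Real.exp (-(c * (Real.log N / Real.log z))) + 1 / |u|) +
          C₂ * (N : ℝ) ^ (1 - c₂) := by
  obtain ⟨C1, hC1, hrc⟩ := rough_count m
  obtain ⟨C2, c, hC2, hc, hc4, hl⟩ := rs_large m
  refine ⟨C1 * Real.exp 1 + C2, c, by positivity, hc, ?_⟩
  intro κ hκ
  obtain ⟨c₂, C₂, hc₂, hc₂', hC₂, hlk⟩ := hl κ hκ
  refine ⟨c₂, C₂, hc₂, hc₂', hC₂, ?_⟩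
  intro χ z N N' u hz hzN hNN hN2 hu1 hu2
  have hN0 : (0 : ℝ) < N := by exact_mod_cast (by omega : 0 < N)
  have hz1 : (1 : ℝ) < z := by exact_mod_cast (by omega : 1 < z)
  have hlz : 0 < Real.log z := Real.log_pos hz1
  have hu0 : 0 < |u| := by linarith
  have hNl : 0 < (N : ℝ) / Real.log z := by positivity
  have hR : 0 ≤ C₂ * (N : ℝ) ^ (1 - c₂) := by positivity
  have hE : 0 < Real.exp (-(c * (Real.log N / Real.log z))) := Real.exp_pos _
  have hiu : 0 < 1 / |u| := by positivity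
  rcases lt_or_ge N (z ^ 4) with hlt | hge
  · have h1 : ‖∑ n ∈ (Ioc N N').filter (fun n => Rough z n), χ ((n : ℕ) : ZMod m) * ph n u‖ ≤
        (((Ioc N (2 * N)).filter (fun n => Rough z n ∧ Nat.Coprime n m)).card : ℝ) := by
      have h2 : ∑ n ∈ (Ioc N N').filter (fun n => Rough z n), χ ((n : ℕ) : ZMod m) * ph n u =
          ∑ n ∈ (Ioc N N').filter (fun n => Rough z n ∧ Nat.Coprime n m),
            χ ((n : ℕ) : ZMod m) * ph n u := by
        rw [sum_filter, sum_filter]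
        refine sum_congr rfl fun n _ => ?_
        by_cases hr : Rough z n
        · by_cases hco : Nat.Coprime n m
          · rw [if_pos hr, if_pos ⟨hr, hco⟩]
          · rw [if_pos hr, if_neg (fun h => hco h.2),
              χ.map_nonunit (by rwa [ZMod.isUnit_iff_coprime]), zero_mul]
        · rw [if_neg hr, if_neg (fun h => hr h.1)]
      rw [h2]
      refine le_trans (norm_sum_le _ _) ?_
      have h3 : ∀ n ∈ (Ioc N N').filter (fun n => Rough z n ∧ Nat.Coprime n m),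
          ‖χ ((n : ℕ) : ZMod m) * ph n u‖ ≤ 1 := by
        intro n _
        rw [norm_mul, rs_ph_norm, mul_one]
        exact χ.norm_le_one _
      refine le_trans (sum_le_sum h3) ?_
      rw [sum_const, nsmul_eq_mul, mul_one]
      have h4 : (Ioc N N').filter (fun n => Rough z n ∧ Nat.Coprime n m) ⊆
          (Ioc N (2 * N)).filter (fun n => Rough z n ∧ Nat.Coprime n m) := by
        refine filter_subset_filter _ ?_
        exact Ioc_subset_Ioc_right hN2
      exact_mod_cast card_le_card h4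
    have h2 := hrc z N hz hzN
    have h3 : (1 : ℝ) ≤ Real.exp 1 * Real.exp (-(c * (Real.log N / Real.log z))) := by
      rw [← Real.exp_add]
      refine Real.one_le_exp ?_
      have h4 : Real.log N ≤ 4 * Real.log z := by
        have h5 : Real.log N ≤ Real.log ((z : ℝ) ^ 4) := by
          refine Real.log_le_log hN0 ?_
          exact_mod_cast hlt.le
        rw [Real.log_pow] at h5
        exact_mod_cast h5
      have h5 : Real.log N / Real.log z ≤ 4 := by
        rw [div_le_iff₀ hlz]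
        exact h4
      have h6 : c * (Real.log N / Real.log z) ≤ 1 := by
        have h7 : 0 ≤ Real.log N / Real.log z :=
          div_nonneg (Real.log_nonneg (by exact_mod_cast (by omega : 1 ≤ N))) hlz.le
        nlinarith
      linarith
    calc ‖∑ n ∈ (Ioc N N').filter (fun n => Rough z n), χ ((n : ℕ) : ZMod m) * ph n u‖
        ≤ C1 * (N / Real.log z) := le_trans h1 h2
      _ = C1 * (N / Real.log z) * 1 := by ring
      _ ≤ C1 * (N / Real.log z) * (Real.exp 1 * Real.exp (-(c * (Real.log N / Real.log z)))) :=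
          mul_le_mul_of_nonneg_left h3 (by positivity)
      _ = C1 * Real.exp 1 * (N / Real.log z) * Real.exp (-(c * (Real.log N / Real.log z))) := by ring
      _ ≤ (C1 * Real.exp 1 + C2) * (N / Real.log z) *
          (Real.exp (-(c * (Real.log N / Real.log z))) + 1 / |u|) := by
          refine mul_le_mul ?_ (by linarith) hE.le (by positivity)
          refine mul_le_mul_of_nonneg_right (by linarith) hNl.le
      _ ≤ _ := by linarith
  · refine le_trans (hlk χ z N N' u hz hge hNN hN2 hu1 hu2) ?_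
    refine add_le_add ?_ (le_refl _)
    refine mul_le_mul_of_nonneg_right ?_ (by positivity)
    refine mul_le_mul_of_nonneg_right ?_ hNl.le
    have : 0 < C1 * Real.exp 1 := by positivity
    linarith

end Pool.Agent.Lib.MP_3e612f_nt.MR
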