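import Pool.Agent.Lib.MP_3e612f_nt.MR.Defs

/-! Elementary lemmas for the sums over rough numbers. -/

set_option autoImplicit false

namespace Pool.Agent.Lib.MP_3e612f_nt.MR

open Finset

/-- `3^{ω(d)} ≤ C d^ε` -/
theorem rs_om (ε : ℝ) (hε : 0 < ε) : ∃ C : ℝ, 1 ≤ C ∧ ∀ d : ℕ, 1 ≤ d →
    (3 : ℝ) ^ d.primeFactors.card ≤ C * (d : ℝ) ^ ε := by
  set B : ℕ := ⌈(3 : ℝ) ^ (1 / ε)⌉₊ with hB
  refine ⟨3 ^ B, one_le_pow₀ (by norm_num), ?_⟩
  intro d hd
  have hd0 : d ≠ 0 := by omega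
  have h1 : d.primeFactors.card = (d.primeFactors.filter (fun p => p < B)).card +
      (d.primeFactors.filter (fun p => ¬ p < B)).card := by
    rw [Finset.card_filter_add_card_filter_not]
  have h2 : (d.primeFactors.filter (fun p => p < B)).card ≤ B := by
    have : (d.primeFactors.filter (fun p => p < B)) ⊆ range B := by
      intro p hp
      rw [mem_filter] at hp
      exact mem_range.2 hp.2
    have h := card_le_card this
    rwa [card_range] at h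
  have h3 : (3 : ℝ) ^ (d.primeFactors.filter (fun p => ¬ p < B)).card ≤ (d : ℝ) ^ ε := by
    have h4 : (3 : ℝ) ^ (d.primeFactors.filter (fun p => ¬ p < B)).card =
        ∏ p ∈ d.primeFactors.filter (fun p => ¬ p < B), (3 : ℝ) := by
      rw [prod_const]
    rw [h4]
    have h5 : ∏ p ∈ d.primeFactors.filter (fun p => ¬ p < B), (3 : ℝ) ≤
        ∏ p ∈ d.primeFactors.filter (fun p => ¬ p < B), (p : ℝ) ^ ε := by
      refine prod_le_prod (fun _ _ => by norm_num) (fun p hp => ?_)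
      rw [mem_filter] at hp
      have hp1 : (B : ℝ) ≤ p := by exact_mod_cast not_lt.1 hp.2
      have hp2 : (3 : ℝ) ^ (1 / ε) ≤ p := le_trans (Nat.le_ceil _) hp1
      calc (3 : ℝ) = ((3 : ℝ) ^ (1 / ε)) ^ ε := by
            rw [← Real.rpow_mul (by norm_num)]
            rw [one_div, inv_mul_cancel₀ hε.ne', Real.rpow_one]
        _ ≤ (p : ℝ) ^ ε := Real.rpow_le_rpow (by positivity) hp2 hε.le
    refine le_trans h5 ?_
    have h6 : ∏ p ∈ d.primeFactors.filter (fun p => ¬ p < B), (p : ℝ) ^ ε =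
        (∏ p ∈ d.primeFactors.filter (fun p => ¬ p < B), (p : ℝ)) ^ ε := by
      rw [Real.finsetProd_rpow _ _ (fun p _ => Nat.cast_nonneg p)]
    rw [h6]
    refine Real.rpow_le_rpow (prod_nonneg fun p _ => Nat.cast_nonneg p) ?_ hε.le
    have h7 : (∏ p ∈ d.primeFactors.filter (fun p => ¬ p < B), p) ∣ d :=
      (prod_dvd_prod_of_subset _ _ _ (filter_subset _ _)).trans (Nat.prod_primeFactors_dvd d)
    have h8 := Nat.le_of_dvd (by omega) h7
    have h9 : ((∏ p ∈ d.primeFactors.filter (fun p => ¬ p < B), p : ℕ) : ℝ) ≤ (d : ℝ) := Nat.cast_le.2 h8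
    rw [Nat.cast_prod] at h9
    exact h9
  rw [h1, pow_add]
  exact mul_le_mul (pow_le_pow_right₀ (by norm_num) h2) h3 (by positivity) (by positivity)

/-- sums over multiples -/
theorem rs_mult {M : Type*} [AddCommMonoid M] (N N' d : ℕ) (hd : 1 ≤ d) (f : ℕ → M) :
    ∑ n ∈ (Ioc N N').filter (fun n => d ∣ n), f n = ∑ k ∈ Ioc (N / d) (N' / d), f (d * k) := by
  symm
  refine sum_bij (fun k _ => d * k) ?_ ?_ ?_ ?_
  · intro k hk
    rw [mem_Ioc] at hk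
    rw [mem_filter, mem_Ioc]
    refine ⟨⟨?_, ?_⟩, dvd_mul_right d k⟩
    · rw [mul_comm]
      exact (Nat.div_lt_iff_lt_mul hd).1 hk.1
    · rw [mul_comm]
      exact (Nat.le_div_iff_mul_le hd).1 hk.2
  · intro k1 _ k2 _ h
    exact Nat.eq_of_mul_eq_mul_left hd h
  · intro n hn
    rw [mem_filter, mem_Ioc] at hn
    obtain ⟨⟨h1, h2⟩, k, rfl⟩ := hn
    refine ⟨k, ?_, rfl⟩
    rw [mem_Ioc]
    constructor
    · rw [Nat.div_lt_iff_lt_mul hd, mul_comm]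
      exact h1
    · rw [Nat.le_div_iff_mul_le hd, mul_comm]
      exact h2
  · intro k _
    rfl

/-- opening the sieve weights -/
theorem rs_swap (P N N' : ℕ) (hP : P ≠ 0) (lam : ℕ → ℝ) (hlam : ∀ d, lam d ≠ 0 → d ∣ P)
    (g : ℕ → ℂ) :
    ∑ n ∈ Ioc N N', ((∑ d ∈ n.divisors, lam d : ℝ) : ℂ) * g n =
      ∑ d ∈ P.divisors, (lam d : ℂ) * ∑ k ∈ Ioc (N / d) (N' / d), g (d * k) := by
  have h1 : ∀ n ∈ Ioc N N', ((∑ d ∈ n.divisors, lam d : ℝ) : ℂ) * g n =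
      ∑ d ∈ P.divisors, if d ∣ n then (lam d : ℂ) * g n else 0 := by
    intro n hn
    rw [mem_Ioc] at hn
    have hn0 : n ≠ 0 := by omega
    have h2 : (∑ d ∈ n.divisors, lam d) = ∑ d ∈ P.divisors.filter (fun d => d ∣ n), lam d := by
      have h3 : ∑ d ∈ n.divisors, lam d = ∑ d ∈ n.divisors.filter (fun d => d ∣ P), lam d := by
        rw [sum_filter]
        refine sum_congr rfl fun d _ => ?_
        by_cases h : d ∣ P
        · rw [if_pos h]
        · rw [if_neg h]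
          by_contra hne
          exact h (hlam d hne)
      rw [h3]
      refine sum_congr ?_ fun _ _ => rfl
      ext d
      simp only [mem_filter, Nat.mem_divisors]
      constructor
      · rintro ⟨⟨a, _⟩, b⟩
        exact ⟨⟨b, hP⟩, a⟩
      · rintro ⟨⟨a, _⟩, b⟩
        exact ⟨⟨b, hn0⟩, a⟩
    rw [h2, sum_filter]
    push_cast
    rw [sum_mul]
    refine sum_congr rfl fun d _ => ?_
    split_ifs <;> simp
  rw [sum_congr rfl h1, sum_comm]
  refine sum_congr rfl fun d hd => ?_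
  have hd0 : 1 ≤ d := Nat.pos_of_mem_divisors hd
  rw [← sum_filter, ← mul_sum, rs_mult N N' d hd0]

/-- the number of multiples of `d` in an interval -/
theorem rs_count (N N' d : ℕ) (hd : 1 ≤ d) (hN : N ≤ N') :
    |(((Ioc (N / d) (N' / d)).card : ℝ)) - ((N' : ℝ) - N) / d| ≤ 1 := by
  have hle : N / d ≤ N' / d := Nat.div_le_div_right hN
  rw [Nat.card_Ioc, Nat.cast_sub hle]
  have hd0 : (0 : ℝ) < d := by exact_mod_cast hd
  have h1 : ((N / d : ℕ) : ℝ) ≤ (N : ℝ) / d := Nat.cast_div_le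
  have h2 : ((N' / d : ℕ) : ℝ) ≤ (N' : ℝ) / d := Nat.cast_div_le
  have h3 : (N : ℝ) / d < ((N / d : ℕ) : ℝ) + 1 := by
    rw [div_lt_iff₀ hd0]
    have := Nat.lt_mul_div_succ N hd
    have h : (N : ℝ) < (d : ℝ) * ((N / d : ℕ) + 1 : ℕ) := by exact_mod_cast this
    push_cast at h
    linarith
  have h4 : (N' : ℝ) / d < ((N' / d : ℕ) : ℝ) + 1 := by
    rw [div_lt_iff₀ hd0]
    have := Nat.lt_mul_div_succ N' hd
    have h : (N' : ℝ) < (d : ℝ) * ((N' / d : ℕ) + 1 : ℕ) := by exact_mod_cast this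
    push_cast at h
    linarith
  rw [abs_le, sub_div]
  constructor <;> linarith

/-- the sum of `3^{ω(d)}` times a function, crude -/
theorem rs_sum3 (ε : ℝ) (hε : 0 < ε) : ∃ C : ℝ, 1 ≤ C ∧ ∀ (D : ℕ) (x c : ℝ), 1 ≤ D → 0 < x → 0 ≤ c →
    ∑ d ∈ Icc 1 D, (3 : ℝ) ^ d.primeFactors.card * (x / d) ^ (1 - c) ≤
      C * x ^ (1 - c) * (D : ℝ) ^ (c + ε) := by
  obtain ⟨C1, hC1, h1⟩ := rs_om (ε / 2) (by positivity)
  -- `∑_{d ≤ D} 1/d ≤ 1 + log D ≤ (1 + 2/ε) D^{ε/2}`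
  refine ⟨C1 * (1 + 2 / ε), ?_, ?_⟩
  · have : 0 < 2 / ε := by positivity
    nlinarith
  intro D x c hD hx hc
  have hD1 : (1 : ℝ) ≤ D := by exact_mod_cast hD
  have hD0 : (0 : ℝ) < D := by linarith
  have hharm : ∑ d ∈ Icc 1 D, (1 : ℝ) / d ≤ (1 + 2 / ε) * (D : ℝ) ^ (ε / 2) := by
    have h2 : ∑ d ∈ Icc 1 D, (1 : ℝ) / d ≤ 1 + Real.log D := by
      have h3 := harmonic_le_one_add_log D
      have h4 : ((harmonic D : ℚ) : ℝ) = ∑ d ∈ Icc 1 D, (1 : ℝ) / d := by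
        rw [harmonic_eq_sum_Icc]
        push_cast
        refine sum_congr rfl fun d _ => by rw [one_div]
      rw [← h4]
      exact h3
    have h5 : Real.log D ≤ (D : ℝ) ^ (ε / 2) / (ε / 2) := Real.log_le_rpow_div hD0.le (by positivity)
    have h6 : (1 : ℝ) ≤ (D : ℝ) ^ (ε / 2) := Real.one_le_rpow hD1 (by positivity)
    have h7 : (D : ℝ) ^ (ε / 2) / (ε / 2) = 2 / ε * (D : ℝ) ^ (ε / 2) := by
      field_simp
    rw [h7] at h5
    linarith
  have hterm : ∀ d ∈ Icc 1 D, (3 : ℝ) ^ d.primeFactors.card * (x / d) ^ (1 - c) ≤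
      C1 * x ^ (1 - c) * (D : ℝ) ^ (c + ε / 2) * (1 / (d : ℝ)) := by
    intro d hd
    rw [mem_Icc] at hd
    have hd1 : (1 : ℝ) ≤ d := by exact_mod_cast hd.1
    have hd0 : (0 : ℝ) < d := by linarith
    have hdD : (d : ℝ) ≤ D := by exact_mod_cast hd.2
    have h2 := h1 d hd.1
    have h3 : (x / d) ^ (1 - c) = x ^ (1 - c) * ((d : ℝ) ^ c * (1 / d)) := by
      rw [Real.div_rpow hx.le hd0.le, div_eq_mul_inv, ← Real.rpow_neg hd0.le]
      congr 1
      rw [one_div, ← Real.rpow_neg_one, ← Real.rpow_add hd0]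
      congr 1
      ring
    rw [h3]
    have h4 : (d : ℝ) ^ (ε / 2) * (d : ℝ) ^ c ≤ (D : ℝ) ^ (c + ε / 2) := by
      rw [← Real.rpow_add hd0, add_comm]
      exact Real.rpow_le_rpow hd0.le hdD (by positivity)
    have hx0 : 0 < x ^ (1 - c) := Real.rpow_pos_of_pos hx _
    calc (3 : ℝ) ^ d.primeFactors.card * (x ^ (1 - c) * ((d : ℝ) ^ c * (1 / d)))
        ≤ (C1 * (d : ℝ) ^ (ε / 2)) * (x ^ (1 - c) * ((d : ℝ) ^ c * (1 / d))) := by
          refine mul_le_mul_of_nonneg_right h2 (by positivity)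
      _ = C1 * x ^ (1 - c) * ((d : ℝ) ^ (ε / 2) * (d : ℝ) ^ c) * (1 / d) := by ring
      _ ≤ C1 * x ^ (1 - c) * (D : ℝ) ^ (c + ε / 2) * (1 / (d : ℝ)) := by
          refine mul_le_mul_of_nonneg_right ?_ (by positivity)
          exact mul_le_mul_of_nonneg_left h4 (by positivity)
  refine le_trans (sum_le_sum hterm) ?_
  rw [← mul_sum]
  have hx0 : 0 < x ^ (1 - c) := Real.rpow_pos_of_pos hx _
  calc C1 * x ^ (1 - c) * (D : ℝ) ^ (c + ε / 2) * ∑ d ∈ Icc 1 D, (1 : ℝ) / d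
      ≤ C1 * x ^ (1 - c) * (D : ℝ) ^ (c + ε / 2) * ((1 + 2 / ε) * (D : ℝ) ^ (ε / 2)) := by
        exact mul_le_mul_of_nonneg_left hharm (by positivity)
    _ = C1 * (1 + 2 / ε) * x ^ (1 - c) * ((D : ℝ) ^ (c + ε / 2) * (D : ℝ) ^ (ε / 2)) := by ring
    _ = C1 * (1 + 2 / ε) * x ^ (1 - c) * (D : ℝ) ^ (c + ε) := by
        rw [← Real.rpow_add hD0]
        congr 2
        ring

/-- the sum of `3^{ω(d)}`, crude -/
theorem rs_sum30 (ε : ℝ) (hε : 0 < ε) : ∃ C : ℝ, 1 ≤ C ∧ ∀ D : ℕ, 1 ≤ D →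
    ∑ d ∈ Icc 1 D, (3 : ℝ) ^ d.primeFactors.card ≤ C * (D : ℝ) ^ (1 + ε) := by
  obtain ⟨C, hC, h⟩ := rs_sum3 ε hε
  refine ⟨C, hC, fun D hD => ?_⟩
  have h1 := h D 1 1 hD (by norm_num) (by norm_num)
  simpa using h1

end Pool.Agent.Lib.MP_3e612f_nt.MR
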