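import Pool.Agent.Lib.MP_3e612f_nt.MR.RsumA
import Pool.Agent.Lib.MP_3e612f_nt.MR.Osc
import Pool.Agent.Lib.MP_3e612f_nt.MR.SW

/-! Sums over rough numbers: the inner sums. -/

set_option autoImplicit false

namespace Pool.Agent.Lib.MP_3e612f_nt.MR

open Finset MeasureTheory Pool.Agent.Lib.MP_629a14_nt.Rob

theorem rs_coprime {m z n : ℕ} (hn : Rough z n) : Nat.Coprime n (Pq m z) := by
  refine Nat.Coprime.symm (Nat.coprime_of_dvd fun p hp h1 h2 => ?_)
  have h3 := (prime_dvd_Pq hp).1 h1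
  have h4 := hn p hp h2
  omega

theorem rs_rough {m z n : ℕ} (hm : Nat.Coprime n m) : Rough z n ↔ Nat.Coprime n (Pq m z) := by
  refine ⟨fun h => rs_coprime h, fun h p hp hpn => ?_⟩
  by_contra hlt
  have h1 : ¬ p ∣ m := fun h2 => hp.one_lt.ne' (Nat.dvd_one.1 (by
    have := Nat.dvd_gcd hpn h2
    rwa [hm] at this))
  have h3 : p ∣ Pq m z := (prime_dvd_Pq hp).2 ⟨not_le.1 hlt, h1⟩
  have h4 := Nat.dvd_gcd hpn h3
  rw [h] at h4
  exact hp.one_lt.ne' (Nat.dvd_one.1 h4)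

theorem rs_Pq_ne (m z : ℕ) : Pq m z ≠ 0 := (Pq_squarefree m z).ne_zero

theorem rs_Pq_coprime {m z d : ℕ} (hd : d ∣ Pq m z) : Nat.Coprime d m := by
  refine Nat.coprime_of_dvd fun p hp h1 h2 => ?_
  exact ((prime_dvd_Pq hp).1 (h1.trans hd)).2 h2

/-- the sum of a sieve weight over an interval -/
theorem rs_main (P N N' D : ℕ) (hP : P ≠ 0) (hN : N ≤ N') (lam : ℕ → ℝ) (K : ℝ) (hK : 0 ≤ K)
    (hlam : ∀ d, lam d ≠ 0 → d ∣ P ∧ d ≤ D) (hb : ∀ d, |lam d| ≤ K * 3 ^ d.primeFactors.card) :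
    ∑ n ∈ Ioc N N', ∑ d ∈ n.divisors, lam d ≤ ((N' : ℝ) - N) * ∑ d ∈ P.divisors, lam d / d +
      K * ∑ d ∈ Icc 1 D, (3 : ℝ) ^ d.primeFactors.card := by
  have h1 : ∑ n ∈ Ioc N N', ∑ d ∈ n.divisors, lam d =
      ∑ d ∈ P.divisors, lam d * (((Ioc (N / d) (N' / d)).card : ℝ)) := by
    have h := rs_swap P N N' hP lam (fun d hd => (hlam d hd).1) (fun _ => 1)
    apply Complex.ofReal_injective
    push_cast at h ⊢
    simpa using h
  rw [h1, mul_sum]
  have h2 : ∑ d ∈ P.divisors, lam d * (((Ioc (N / d) (N' / d)).card : ℝ)) -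
      ∑ d ∈ P.divisors, ((N' : ℝ) - N) * (lam d / d) ≤
      ∑ d ∈ P.divisors, |lam d| := by
    rw [← sum_sub_distrib]
    refine sum_le_sum fun d hd => ?_
    have hd1 : 1 ≤ d := Nat.pos_of_mem_divisors hd
    have h3 := rs_count N N' d hd1 hN
    have h4 : lam d * (((Ioc (N / d) (N' / d)).card : ℝ)) - ((N' : ℝ) - N) * (lam d / d) =
        lam d * ((((Ioc (N / d) (N' / d)).card : ℝ)) - ((N' : ℝ) - N) / d) := by ring
    rw [h4]
    refine le_trans (le_abs_self _) ?_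
    rw [abs_mul]
    exact mul_le_of_le_one_right (abs_nonneg _) h3
  have h5 : ∑ d ∈ P.divisors, |lam d| ≤ K * ∑ d ∈ Icc 1 D, (3 : ℝ) ^ d.primeFactors.card := by
    rw [mul_sum]
    have h6 : ∑ d ∈ P.divisors, |lam d| = ∑ d ∈ P.divisors.filter (fun d => d ≤ D), |lam d| := by
      rw [sum_filter]
      refine sum_congr rfl fun d _ => ?_
      by_cases h : d ≤ D
      · rw [if_pos h]
      · rw [if_neg h]
        have : lam d = 0 := by
          by_contra hne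
          exact h (hlam d hne).2
        rw [this, abs_zero]
    rw [h6]
    refine le_trans (sum_le_sum fun d _ => hb d) ?_
    refine sum_le_sum_of_subset_of_nonneg ?_ (fun d _ _ => by positivity)
    intro d hd
    rw [mem_filter] at hd
    exact mem_Icc.2 ⟨Nat.pos_of_mem_divisors hd.1, hd.2⟩
  linarith

/-- the function `x^{-iu}` -/
noncomputable def rsE (u x : ℝ) : ℂ := Complex.exp (-(((u * Real.log x : ℝ) : ℂ) * Complex.I))

theorem rsE_norm (u x : ℝ) : ‖rsE u x‖ = 1 := by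
  unfold rsE
  rw [← neg_mul, ← Complex.ofReal_neg]
  exact Complex.norm_exp_ofReal_mul_I _

theorem rsE_cont (u : ℝ) : ContinuousOn (rsE u) (Set.Ioi 0) := by
  unfold rsE
  refine Complex.continuous_exp.comp_continuousOn ?_
  refine ContinuousOn.neg ?_
  refine ContinuousOn.mul ?_ continuousOn_const
  refine Complex.continuous_ofReal.comp_continuousOn ?_
  refine continuousOn_const.mul ?_
  exact Real.continuousOn_log.mono (fun x hx => ne_of_gt hx)

theorem rsE_int (u a b : ℝ) (ha : 0 < a) (hb : 0 < b) : IntervalIntegrable (rsE u) volume a b := by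
  refine ContinuousOn.intervalIntegrable ((rsE_cont u).mono ?_)
  intro x hx
  rw [Set.mem_uIcc] at hx
  rcases hx with h | h
  · exact lt_of_lt_of_le ha h.1
  · exact lt_of_lt_of_le hb h.1

theorem rsE_mul (u x y : ℝ) (hx : 0 < x) (hy : 0 < y) : rsE u (x * y) = rsE u x * rsE u y := by
  unfold rsE
  rw [← Complex.exp_add, Real.log_mul hx.ne' hy.ne']
  congr 1
  push_cast
  ring

theorem rsE_one (u : ℝ) : rsE u 1 = 1 := by
  unfold rsE
  simp

theorem rsE_ph (n : ℕ) (u : ℝ) : ph n u = rsE u n := rfl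

theorem rs_ph_mul (a b : ℕ) (ha : 1 ≤ a) (hb : 1 ≤ b) (u : ℝ) : ph (a * b) u = ph a u * ph b u := by
  rw [rsE_ph, rsE_ph, rsE_ph, Nat.cast_mul]
  exact rsE_mul u a b (by exact_mod_cast ha) (by exact_mod_cast hb)

theorem rs_ph_norm (n : ℕ) (u : ℝ) : ‖ph n u‖ = 1 := rsE_norm u n

theorem rsE_diff (u a b : ℝ) : ‖∫ x in a..b, rsE u x‖ ≤ |b - a| := by
  have h := intervalIntegral.norm_integral_le_of_norm_le_const (f := rsE u) (a := a) (b := b) (C := 1)
    (fun x _ => (rsE_norm u x).le)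
  rwa [one_mul] at h

/-- change of end points -/
theorem rsE_ends (u a b a' b' : ℝ) (ha : 0 < a) (hb : 0 < b) (ha' : 0 < a') (hb' : 0 < b') :
    ‖(∫ x in a..b, rsE u x) - ∫ x in a'..b', rsE u x‖ ≤ |a' - a| + |b - b'| := by
  have h1 : (∫ x in a..b, rsE u x) = (∫ x in a..a', rsE u x) + ∫ x in a'..b, rsE u x :=
    (intervalIntegral.integral_add_adjacent_intervals (rsE_int u a a' ha ha') (rsE_int u a' b ha' hb)).symm
  have h2 : (∫ x in a'..b, rsE u x) = (∫ x in a'..b', rsE u x) + ∫ x in b'..b, rsE u x :=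
    (intervalIntegral.integral_add_adjacent_intervals (rsE_int u a' b' ha' hb') (rsE_int u b' b hb' hb)).symm
  rw [h1, h2]
  have h3 : (∫ x in a..a', rsE u x) + ((∫ x in a'..b', rsE u x) + ∫ x in b'..b, rsE u x) -
      ∫ x in a'..b', rsE u x = (∫ x in a..a', rsE u x) + ∫ x in b'..b, rsE u x := by ring
  rw [h3]
  refine le_trans (norm_add_le _ _) ?_
  exact add_le_add (rsE_diff u a a') (rsE_diff u b' b)

/-- the substitution `x = y/d` -/
theorem rsE_subst (u a b : ℝ) (d : ℕ) (hd : 1 ≤ d) (ha : 0 < a) (hb : 0 < b) :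
    ph d u * ∫ x in (a / d)..(b / d), rsE u x = (1 / (d : ℂ)) * ∫ x in a..b, rsE u x := by
  have hd0 : (0 : ℝ) < d := by exact_mod_cast hd
  have h1 : (∫ x in a..b, rsE u (x / d)) = (d : ℝ) • ∫ x in (a / d)..(b / d), rsE u x :=
    intervalIntegral.integral_comp_div (fun x => rsE u x) hd0.ne'
  have h2 : (∫ x in a..b, rsE u x) = ph d u * ∫ x in a..b, rsE u (x / d) := by
    rw [← intervalIntegral.integral_const_mul]
    refine intervalIntegral.integral_congr ?_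
    intro x hx
    rw [Set.mem_uIcc] at hx
    have hx0 : 0 < x := by
      rcases hx with h | h
      · exact lt_of_lt_of_le ha h.1
      · exact lt_of_lt_of_le hb h.1
    show rsE u x = ph d u * rsE u (x / d)
    rw [rsE_ph, ← rsE_mul u d (x / d) hd0 (by positivity)]
    congr 1
    field_simp
  rw [h2, h1]
  have hdC : (d : ℂ) ≠ 0 := by
    have : d ≠ 0 := by omega
    exact_mod_cast this
  rw [Complex.real_smul]
  push_cast
  field_simp

/-- the main term of an inner sum -/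
noncomputable def rsM {m : ℕ} (χ : DirichletCharacter ℂ m) : ℂ := by
  classical exact if χ = 1 then ((m.totient : ℝ) / m : ℝ) else 0

theorem rsM_norm {m : ℕ} [NeZero m] (χ : DirichletCharacter ℂ m) : ‖rsM χ‖ ≤ 1 := by
  unfold rsM
  split_ifs with h
  · rw [Complex.norm_real, Real.norm_eq_abs, abs_of_nonneg (by positivity)]
    rw [div_le_one (by exact_mod_cast Nat.pos_of_ne_zero (NeZero.ne m))]
    exact_mod_cast Nat.totient_le m
  · simp

theorem rsM_sum {m : ℕ} [NeZero m] (χ : DirichletCharacter ℂ m) :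
    (1 / (m : ℂ)) * ∑ r : ZMod m, χ r = rsM χ := by
  unfold rsM
  split_ifs with h
  · rw [h]
    have h1 : ∑ r : ZMod m, (1 : DirichletCharacter ℂ m) r = (m.totient : ℂ) := by
      rw [MulChar.sum_one_eq_card_units, ZMod.card_units_eq_totient]
    rw [h1]
    push_cast
    ring
  · rw [MulChar.sum_eq_zero_of_ne_one h, mul_zero]

/-- the inner sums -/
theorem rs_inner (m : ℕ) [NeZero m] (κ : ℝ) (hκ : 0 < κ) : ∃ c C : ℝ, 0 < c ∧ c ≤ 1 / 2 ∧ 0 < C ∧
    ∀ (χ : DirichletCharacter ℂ m) (N N' d : ℕ) (u : ℝ), 1 ≤ d → 2 ≤ Nat.sqrt N → d ≤ Nat.sqrt N → N ≤ N' →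
      N' ≤ 2 * N → 1 ≤ |u| → |u| ≤ (N : ℝ) ^ (1 / κ) →
      ‖∑ k ∈ Ioc (N / d) (N' / d), χ ((k : ℕ) : ZMod m) * ph k u -
        rsM χ * ∫ x in ((N : ℝ) / d)..((N' : ℝ) / d), rsE u x‖ ≤ C * ((N : ℝ) / d) ^ (1 - c) := by
  obtain ⟨c, C, hc, hc2, hC, hosc⟩ := osc m (κ / 4) (by positivity)
  refine ⟨c, m * C + 4, hc, hc2, by positivity, ?_⟩
  intro χ N N' d u hd hs2 hds hNN hN2 hu1 hu2
  have hdd : (0 : ℝ) < d := by exact_mod_cast hd
  have hsq : Nat.sqrt N * Nat.sqrt N ≤ N := Nat.sqrt_le N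
  have hN0 : 1 ≤ N := by nlinarith
  have hMs : Nat.sqrt N ≤ N / d := by
    rw [Nat.le_div_iff_mul_le hd]
    exact le_trans (Nat.mul_le_mul_left _ hds) hsq
  set M := N / d with hM
  set M' := N' / d with hM'
  set M2 := min M' (2 * M) with hM2
  have hMM' : M ≤ M' := Nat.div_le_div_right hNN
  have hMM2 : M ≤ M2 := le_min hMM' (by omega)
  have hM1 : 1 ≤ M := by omega
  have hM'2 : M' ≤ 2 * M + 1 := by
    rw [hM', ← Nat.lt_succ_iff, Nat.div_lt_iff_lt_mul hd]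
    have h1 := Nat.lt_mul_div_succ N hd
    rw [← hM] at h1
    have h2 : N + 1 ≤ d * (M + 1) := h1
    nlinarith
  have hM2' : M' ≤ M2 + 1 := by
    rw [hM2]
    rcases le_total M' (2 * M) with h | h
    · rw [min_eq_left h]; omega
    · rw [min_eq_right h]; exact hM'2
  have hM22 : M2 ≤ 2 * M := min_le_right _ _
  have hM2le : M2 ≤ M' := min_le_left _ _
  -- the size of `u`
  have huM : |u| ≤ (M : ℝ) ^ (1 / (κ / 4)) := by
    refine le_trans hu2 ?_
    have h1 : N ≤ M ^ 4 := by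
      have h2 : N < (Nat.sqrt N + 1) * (Nat.sqrt N + 1) := Nat.lt_succ_sqrt N
      have h3 : (Nat.sqrt N + 1) * (Nat.sqrt N + 1) ≤ Nat.sqrt N ^ 4 := by
        have h4 : Nat.sqrt N + 1 ≤ Nat.sqrt N * Nat.sqrt N := by nlinarith
        calc (Nat.sqrt N + 1) * (Nat.sqrt N + 1) ≤ (Nat.sqrt N * Nat.sqrt N) * (Nat.sqrt N * Nat.sqrt N) :=
              Nat.mul_le_mul h4 h4
          _ = Nat.sqrt N ^ 4 := by ring
      have h5 : Nat.sqrt N ^ 4 ≤ M ^ 4 := Nat.pow_le_pow_left hMs 4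
      omega
    have h2 : (N : ℝ) ≤ (M : ℝ) ^ (4 : ℝ) := by
      have : ((4 : ℕ) : ℝ) = 4 := by norm_num
      rw [← this, Real.rpow_natCast]
      exact_mod_cast h1
    calc (N : ℝ) ^ (1 / κ) ≤ ((M : ℝ) ^ (4 : ℝ)) ^ (1 / κ) :=
          Real.rpow_le_rpow (Nat.cast_nonneg _) h2 (by positivity)
      _ = (M : ℝ) ^ (1 / (κ / 4)) := by
          rw [← Real.rpow_mul (Nat.cast_nonneg _)]
          congr 1
          field_simp
  -- the truncated sum
  have hA : ‖∑ k ∈ Ioc M M', χ ((k : ℕ) : ZMod m) * ph k u -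
      ∑ k ∈ Ioc M M2, χ ((k : ℕ) : ZMod m) * ph k u‖ ≤ 1 := by
    have h1 : ∑ k ∈ Ioc M M', χ ((k : ℕ) : ZMod m) * ph k u =
        ∑ k ∈ Ioc M M2, χ ((k : ℕ) : ZMod m) * ph k u + ∑ k ∈ Ioc M2 M', χ ((k : ℕ) : ZMod m) * ph k u := by
      rw [← sum_union]
      · congr 1
        exact (Ioc_union_Ioc_eq_Ioc hMM2 hM2le).symm
      · rw [disjoint_left]
        intro x hx hx'
        rw [mem_Ioc] at hx hx'
        omega
    rw [h1, add_sub_cancel_left]
    refine le_trans (norm_sum_le _ _) ?_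
    have h2 : ∀ k ∈ Ioc M2 M', ‖χ ((k : ℕ) : ZMod m) * ph k u‖ ≤ 1 := by
      intro k _
      rw [norm_mul, rs_ph_norm, mul_one]
      exact χ.norm_le_one _
    refine le_trans (sum_le_sum h2) ?_
    rw [sum_const, Nat.card_Ioc, nsmul_eq_mul, mul_one]
    have : M' - M2 ≤ 1 := by omega
    exact_mod_cast this
  -- splitting into classes
  have hB : ‖∑ k ∈ Ioc M M2, χ ((k : ℕ) : ZMod m) * ph k u -
      rsM χ * ∫ x in (M : ℝ)..(M2 : ℝ), rsE u x‖ ≤ m * (C * (M : ℝ) ^ (1 - c)) := by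
    have h1 : ∑ k ∈ Ioc M M2, χ ((k : ℕ) : ZMod m) * ph k u =
        ∑ r : ZMod m, χ r * ∑ k ∈ (Ioc M M2).filter (fun k => ((k : ℕ) : ZMod m) = r), ph k u := by
      rw [← sum_fiberwise (Ioc M M2) (fun k => ((k : ℕ) : ZMod m))]
      refine sum_congr rfl fun r _ => ?_
      rw [mul_sum]
      refine sum_congr rfl fun k hk => ?_
      rw [(mem_filter.1 hk).2]
    have h2 : rsM χ * ∫ x in (M : ℝ)..(M2 : ℝ), rsE u x =
        ∑ r : ZMod m, χ r * ((1 / (m : ℂ)) * ∫ x in (M : ℝ)..(M2 : ℝ), rsE u x) := by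
      rw [← rsM_sum, ← sum_mul]
      ring
    rw [h1, h2, ← sum_sub_distrib]
    refine le_trans (norm_sum_le _ _) ?_
    have h3 : ∀ r ∈ (univ : Finset (ZMod m)),
        ‖χ r * ∑ k ∈ (Ioc M M2).filter (fun k => ((k : ℕ) : ZMod m) = r), ph k u -
          χ r * ((1 / (m : ℂ)) * ∫ x in (M : ℝ)..(M2 : ℝ), rsE u x)‖ ≤ C * (M : ℝ) ^ (1 - c) := by
      intro r _
      rw [← mul_sub, norm_mul]
      have h4 := hosc M M2 u r hM1 hMM2 hM22 hu1 huM
      refine le_trans (mul_le_of_le_one_left (norm_nonneg _) (χ.norm_le_one r)) ?_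
      exact h4
    refine le_trans (sum_le_sum h3) ?_
    rw [sum_const, card_univ, ZMod.card, nsmul_eq_mul]
  -- the end points
  have hMr : (M : ℝ) ≤ (N : ℝ) / d := Nat.cast_div_le
  have hMr2 : (N : ℝ) / d < (M : ℝ) + 1 := by
    rw [div_lt_iff₀ hdd]
    have := Nat.lt_mul_div_succ N hd
    have h : (N : ℝ) < (d : ℝ) * ((N / d : ℕ) + 1 : ℕ) := by exact_mod_cast this
    push_cast at h
    rw [hM]
    linarith
  have hMr' : (M' : ℝ) ≤ (N' : ℝ) / d := Nat.cast_div_le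
  have hMr2' : (N' : ℝ) / d < (M' : ℝ) + 1 := by
    rw [div_lt_iff₀ hdd]
    have := Nat.lt_mul_div_succ N' hd
    have h : (N' : ℝ) < (d : ℝ) * ((N' / d : ℕ) + 1 : ℕ) := by exact_mod_cast this
    push_cast at h
    rw [hM']
    linarith
  have hM1r : (1 : ℝ) ≤ M := by exact_mod_cast hM1
  have hMM2r : (M : ℝ) ≤ M2 := by exact_mod_cast hMM2
  have hM2'r : (M' : ℝ) ≤ M2 + 1 := by exact_mod_cast hM2'
  have hM2ler : (M2 : ℝ) ≤ M' := by exact_mod_cast hM2le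
  have hD : ‖rsM χ * (∫ x in (M : ℝ)..(M2 : ℝ), rsE u x) -
      rsM χ * ∫ x in ((N : ℝ) / d)..((N' : ℝ) / d), rsE u x‖ ≤ 3 := by
    rw [← mul_sub, norm_mul]
    refine le_trans (mul_le_of_le_one_left (norm_nonneg _) (rsM_norm χ)) ?_
    refine le_trans (rsE_ends u M M2 ((N : ℝ) / d) ((N' : ℝ) / d) (by linarith) (by linarith)
      (by linarith) (by linarith)) ?_
    have h1 : |(N : ℝ) / d - M| ≤ 1 := by rw [abs_le]; constructor <;> linarith
    have h2 : |(M2 : ℝ) - (N' : ℝ) / d| ≤ 2 := by rw [abs_le]; constructor <;> linarith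
    linarith
  have htri : ‖∑ k ∈ Ioc M M', χ ((k : ℕ) : ZMod m) * ph k u -
        rsM χ * ∫ x in ((N : ℝ) / d)..((N' : ℝ) / d), rsE u x‖ ≤ 1 + m * (C * (M : ℝ) ^ (1 - c)) + 3 := by
    have h1 : ∑ k ∈ Ioc M M', χ ((k : ℕ) : ZMod m) * ph k u -
        rsM χ * ∫ x in ((N : ℝ) / d)..((N' : ℝ) / d), rsE u x =
        (∑ k ∈ Ioc M M', χ ((k : ℕ) : ZMod m) * ph k u - ∑ k ∈ Ioc M M2, χ ((k : ℕ) : ZMod m) * ph k u) +
        (∑ k ∈ Ioc M M2, χ ((k : ℕ) : ZMod m) * ph k u - rsM χ * ∫ x in (M : ℝ)..(M2 : ℝ), rsE u x) +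
        (rsM χ * (∫ x in (M : ℝ)..(M2 : ℝ), rsE u x) -
          rsM χ * ∫ x in ((N : ℝ) / d)..((N' : ℝ) / d), rsE u x) := by ring
    rw [h1]
    refine le_trans (norm_add_le _ _) (add_le_add (le_trans (norm_add_le _ _) (add_le_add hA hB)) hD)
  refine le_trans htri ?_
  have hp1 : (M : ℝ) ^ (1 - c) ≤ ((N : ℝ) / d) ^ (1 - c) :=
    Real.rpow_le_rpow (by linarith) hMr (by linarith)
  have hp2 : (1 : ℝ) ≤ ((N : ℝ) / d) ^ (1 - c) := Real.one_le_rpow (by linarith) (by linarith)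
  have hp3 : (m : ℝ) * (C * (M : ℝ) ^ (1 - c)) ≤ m * (C * ((N : ℝ) / d) ^ (1 - c)) := by gcongr
  nlinarith

end Pool.Agent.Lib.MP_3e612f_nt.MR
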