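import Mathlib
import Pool.Agent.Lib.MP_629a14_nt.Rob.Upper
import Pool.Agent.Lib.MP_629a14_nt.Rob.Telesc
import Pool.Agent.Lib.MP_60b32f_nt.Selberg

/-! Selberg's upper bound weights: support, size, main sum. -/

set_option autoImplicit false

namespace Pool.Agent.Lib.MP_3e612f_nt.MR

open Finset Pool.Agent.Lib.MP_629a14_nt Pool.Agent.Lib.MP_629a14_nt.Rob
open BoundingSieve Pool.Agent.Lib.MP_60b32f_nt
open scoped ArithmeticFunction.Moebius

/-- the function `1/d` -/
noncomputable def swInv : ArithmeticFunction ℝ := ⟨fun d => 1 / (d : ℝ), by simp⟩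

theorem swInv_apply (d : ℕ) : swInv d = 1 / (d : ℝ) := rfl

theorem swInv_mult : swInv.IsMultiplicative := by
  rw [ArithmeticFunction.IsMultiplicative.iff_ne_zero]
  constructor
  · simp [swInv_apply]
  · intro a b _ _ _
    rw [swInv_apply, swInv_apply, swInv_apply]
    push_cast
    ring

/-- the sieve by the primes `p < z`, `p ∤ m`, with density `1/d` -/
noncomputable def swS (m z : ℕ) : BoundingSieve where
  support := ∅
  prodPrimes := Pq m z
  prodPrimes_squarefree := Pq_squarefree m z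
  weights := fun _ => 1
  weights_nonneg := fun _ => zero_le_one
  totalMass := 1
  nu := swInv
  nu_mult := swInv_mult
  nu_pos_of_prime := by
    intro p hp _
    rw [swInv_apply]
    have : (0 : ℝ) < p := by exact_mod_cast hp.pos
    positivity
  nu_lt_one_of_prime := by
    intro p hp _
    rw [swInv_apply]
    have : (1 : ℝ) < p := by exact_mod_cast hp.one_lt
    rw [div_lt_one (by linarith)]
    exact this

/-- the Selberg sum -/
noncomputable def JJ (m z R : ℕ) : ℝ :=
  ∑ d ∈ (Pq m z).divisors.filter (fun d => d ≤ R), 1 / (d.totient : ℝ)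

theorem sw_terms (m z d : ℕ) : (swS m z).selbergTerms d = 1 / (d.totient : ℝ) := by
  rw [selbergTerms_apply]
  have h1 := Nat.totient_eq_mul_prod_factors d
  have h2 : ((d.totient : ℚ) : ℝ) = ((d * ∏ p ∈ d.primeFactors, (1 - (p : ℚ)⁻¹) : ℚ) : ℝ) := by
    rw [h1]
  push_cast at h2
  rw [h2]
  change swInv d * ∏ p ∈ d.primeFactors, (1 - swInv p)⁻¹ = _
  simp only [swInv_apply]
  rw [prod_inv_distrib, one_div, one_div, mul_inv]
  simp only [one_div]

theorem sw_bigJ (m z R : ℕ) : bigJ (swS m z) R = JJ m z R := by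
  unfold bigJ lev JJ
  exact sum_congr rfl fun d _ => sw_terms m z d

theorem JJ_pos {m z R : ℕ} (hR : 1 ≤ R) : 0 < JJ m z R := by
  rw [← sw_bigJ]
  exact bigJ_pos hR

/-- the weights outside the level set -/
theorem wt_eq_zero' {s : BoundingSieve} {R d : ℕ} (hd : d ∉ lev s R) : wt s R d = 0 := by
  by_cases hdP : d ∣ s.prodPrimes
  · exact wt_eq_zero hd hdP
  · have h1 : (lev s R).filter (fun l => d ∣ l) = ∅ := by
      apply filter_false_of_mem
      intro l hl hdl
      exact hdP (hdl.trans (mem_lev.1 hl).1)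
    unfold wt
    rw [h1]
    simp

/-- Selberg's weights are bounded by one -/
theorem abs_wt_le_one {s : BoundingSieve} {R : ℕ} (hR : 1 ≤ R) (d : ℕ) : |wt s R d| ≤ 1 := by
  classical
  by_cases hd : d ∈ lev s R
  swap
  · rw [wt_eq_zero' hd, abs_zero]
    exact zero_le_one
  have hdP := (mem_lev.1 hd).1
  have hP0 : s.prodPrimes ≠ 0 := prodPrimes_ne_zero
  have hd0 : d ≠ 0 := ne_zero_of_dvd_ne_zero hP0 hdP
  have hJ := bigJ_pos (s := s) hR
  have hnu := nu_pos_of_dvd_prodPrimes hdP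
  set T : Finset ℕ := s.prodPrimes.divisors.filter (fun t => d * t ∈ lev s R) with hT
  have hTmem : ∀ t ∈ T, t ∣ s.prodPrimes ∧ d * t ∈ lev s R := by
    intro t ht
    rw [hT, mem_filter, Nat.mem_divisors] at ht
    exact ⟨ht.1.1, ht.2⟩
  have hco : ∀ t ∈ T, Nat.Coprime d t := fun t ht =>
    Nat.coprime_of_squarefree_mul (squarefree_of_dvd_prodPrimes (mem_lev.1 (hTmem t ht).2).1)
  -- the multiples of d
  have e1 : ∑ l ∈ (lev s R).filter (fun l => d ∣ l), s.selbergTerms l =
      s.selbergTerms d * ∑ t ∈ T, s.selbergTerms t := by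
    have h1 : (lev s R).filter (fun l => d ∣ l) = T.image (fun t => d * t) := by
      ext l
      simp only [mem_filter, mem_image]
      constructor
      · rintro ⟨hl, t, rfl⟩
        refine ⟨t, ?_, rfl⟩
        rw [hT, mem_filter, Nat.mem_divisors]
        exact ⟨⟨(Dvd.intro_left d rfl).trans (mem_lev.1 hl).1, hP0⟩, hl⟩
      · rintro ⟨t, ht, rfl⟩
        exact ⟨(hTmem t ht).2, Dvd.intro t rfl⟩
    rw [h1, sum_image (by
      intro a _ b _ h
      exact Nat.eq_of_mul_eq_mul_left (Nat.pos_of_ne_zero hd0) h), mul_sum]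
    exact sum_congr rfl fun t ht =>
      selbergTerms_isMultiplicative.map_mul_of_coprime (hco t ht)
  -- the divisor sum
  have e2 : s.selbergTerms d * (s.nu d)⁻¹ = ∑ k ∈ d.divisors, s.selbergTerms k := by
    rw [← sum_divisors_selbergTerms_eq_selbergTerms_mul_nu_inv hdP, ← sum_filter,
      Nat.divisors_filter_dvd_of_dvd hP0 hdP]
  have e3 : (∑ k ∈ d.divisors, s.selbergTerms k) * ∑ t ∈ T, s.selbergTerms t ≤ bigJ s R := by
    rw [sum_mul_sum, ← sum_product']
    have hinj : Set.InjOn (fun x : ℕ × ℕ => x.1 * x.2) (d.divisors ×ˢ T : Finset (ℕ × ℕ)) := by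
      rintro ⟨k, t⟩ h1 ⟨k', t'⟩ h2 h
      simp only [coe_product, Set.mem_prod, mem_coe] at h1 h2
      simp only at h
      have hk : k ∣ d := Nat.dvd_of_mem_divisors h1.1
      have hk' : k' ∣ d := Nat.dvd_of_mem_divisors h2.1
      have g1 : Nat.gcd (k * t) d = k := by
        rw [Nat.Coprime.gcd_mul_right_cancel k (hco t h1.2).symm]
        exact Nat.gcd_eq_left hk
      have g2 : Nat.gcd (k' * t') d = k' := by
        rw [Nat.Coprime.gcd_mul_right_cancel k' (hco t' h2.2).symm]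
        exact Nat.gcd_eq_left hk'
      have hkk : k = k' := by rw [← g1, ← g2, h]
      subst hkk
      have hk0 : 0 < k := Nat.pos_of_dvd_of_pos hk (Nat.pos_of_ne_zero hd0)
      rw [Nat.eq_of_mul_eq_mul_left hk0 h]
    have hmem : ∀ x ∈ d.divisors ×ˢ T, x.1 * x.2 ∈ lev s R := by
      rintro ⟨k, t⟩ h
      rw [mem_product] at h
      have hk : k ∣ d := Nat.dvd_of_mem_divisors h.1
      have hl := mem_lev.1 (hTmem t h.2).2
      rw [mem_lev]
      refine ⟨(Nat.mul_dvd_mul_right hk t).trans hl.1, ?_⟩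
      exact (Nat.mul_le_mul_right t (Nat.le_of_dvd (Nat.pos_of_ne_zero hd0) hk)).trans hl.2
    have h3 : ∑ x ∈ d.divisors ×ˢ T, s.selbergTerms x.1 * s.selbergTerms x.2 =
        ∑ l ∈ (d.divisors ×ˢ T).image (fun x : ℕ × ℕ => x.1 * x.2), s.selbergTerms l := by
      rw [sum_image hinj]
      refine sum_congr rfl ?_
      rintro ⟨k, t⟩ h
      rw [mem_product] at h
      exact (selbergTerms_isMultiplicative.map_mul_of_coprime
        ((hco t h.2).coprime_dvd_left (Nat.dvd_of_mem_divisors h.1))).symm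
    rw [h3]
    unfold bigJ
    refine sum_le_sum_of_subset_of_nonneg ?_ (fun l hl _ => (terms_pos hl).le)
    intro l hl
    obtain ⟨x, hx, rfl⟩ := mem_image.1 hl
    exact hmem x hx
  have hmu : |((μ d : ℤ) : ℝ)| ≤ 1 := by
    have := @ArithmeticFunction.abs_moebius_le_one d
    exact_mod_cast this
  have hTn : 0 ≤ ∑ t ∈ T, s.selbergTerms t :=
    sum_nonneg fun t ht => (selbergTerms_pos (hTmem t ht).1).le
  have e4 : wt s R d = (μ d : ℝ) * ((bigJ s R)⁻¹ *
      ((∑ k ∈ d.divisors, s.selbergTerms k) * ∑ t ∈ T, s.selbergTerms t)) := by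
    unfold wt
    rw [e1, ← e2]
    ring
  have e5 : 0 ≤ (∑ k ∈ d.divisors, s.selbergTerms k) * ∑ t ∈ T, s.selbergTerms t := by
    refine mul_nonneg (sum_nonneg fun k hk => ?_) hTn
    exact (selbergTerms_pos ((Nat.dvd_of_mem_divisors hk).trans hdP)).le
  rw [e4, abs_mul, abs_of_nonneg (mul_nonneg (inv_nonneg.2 hJ.le) e5)]
  have e6 : (bigJ s R)⁻¹ *
      ((∑ k ∈ d.divisors, s.selbergTerms k) * ∑ t ∈ T, s.selbergTerms t) ≤ 1 := by
    rw [inv_mul_le_iff₀ hJ, mul_one]
    exact e3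
  have e7 : 0 ≤ (bigJ s R)⁻¹ *
      ((∑ k ∈ d.divisors, s.selbergTerms k) * ∑ t ∈ T, s.selbergTerms t) :=
    mul_nonneg (inv_nonneg.2 hJ.le) e5
  calc |((μ d : ℤ) : ℝ)| * _ ≤ 1 * 1 := mul_le_mul hmu e6 e7 zero_le_one
    _ = 1 := one_mul 1

/-- the weights `λ⁺` -/
noncomputable def lam (m z R d : ℕ) : ℝ := lambdaSquared (wt (swS m z) R) d

theorem lam_zero (m z R : ℕ) : lam m z R 0 = 0 := by
  unfold lam lambdaSquared
  simp

theorem lam_supp {m z R d : ℕ} (h : lam m z R d ≠ 0) : d ∣ Pq m z ∧ d ≤ R ^ 2 := by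
  unfold lam lambdaSquared at h
  obtain ⟨d1, _, h1⟩ := exists_ne_zero_of_sum_ne_zero h
  obtain ⟨d2, _, h2⟩ := exists_ne_zero_of_sum_ne_zero h1
  split_ifs at h2 with h3
  · have a1 : d1 ∈ lev (swS m z) R := by
      by_contra hc
      rw [wt_eq_zero' hc, zero_mul] at h2
      exact h2 rfl
    have a2 : d2 ∈ lev (swS m z) R := by
      by_contra hc
      rw [wt_eq_zero' hc, mul_zero] at h2
      exact h2 rfl
    have b1 := mem_lev.1 a1
    have b2 := mem_lev.1 a2
    refine ⟨?_, ?_⟩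
    · rw [h3]
      exact Nat.lcm_dvd b1.1 b2.1
    · rw [h3, sq]
      exact (Nat.le_of_dvd (Nat.mul_pos
        (Nat.pos_of_ne_zero (ne_zero_of_dvd_ne_zero prodPrimes_ne_zero b1.1))
        (Nat.pos_of_ne_zero (ne_zero_of_dvd_ne_zero prodPrimes_ne_zero b2.1)))
        (Nat.lcm_dvd_mul d1 d2)).trans (Nat.mul_le_mul b1.2 b2.2)
  · exact absurd rfl h2

theorem abs_lam_le {m z R : ℕ} (hR : 1 ≤ R) (d : ℕ) :
    |lam m z R d| ≤ 3 ^ d.primeFactors.card := by
  classical
  by_cases h : lam m z R d = 0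
  · rw [h, abs_zero]
    positivity
  · have hsq : Squarefree d := (Pq_squarefree m z).squarefree_of_dvd (lam_supp h).1
    have hcard := Nat.card_pair_lcm_eq hsq
    have h1 : |lam m z R d| ≤ ∑ d1 ∈ d.divisors, ∑ d2 ∈ d.divisors,
        (if d1.lcm d2 = d then (1 : ℝ) else 0) := by
      unfold lam lambdaSquared
      refine (abs_sum_le_sum_abs _ _).trans (sum_le_sum fun d1 _ => ?_)
      refine (abs_sum_le_sum_abs _ _).trans (sum_le_sum fun d2 _ => ?_)
      by_cases h3 : d = d1.lcm d2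
      · rw [if_pos h3, if_pos h3.symm, abs_mul]
        calc _ ≤ (1 : ℝ) * 1 := mul_le_mul (abs_wt_le_one hR d1) (abs_wt_le_one hR d2)
              (abs_nonneg _) zero_le_one
          _ = 1 := one_mul 1
      · rw [if_neg h3, abs_zero]
        split_ifs <;> norm_num
    refine h1.trans (le_of_eq ?_)
    rw [← sum_product' (f := fun d1 d2 => if Nat.lcm d1 d2 = d then (1 : ℝ) else 0),
      ← sum_filter, sum_const, nsmul_eq_mul, mul_one]
    have h4 : ((d.divisors ×ˢ d.divisors).filter (fun x : ℕ × ℕ => x.1.lcm x.2 = d)).card =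
        3 ^ d.primeFactors.card := by
      rw [hcard, ArithmeticFunction.cardDistinctFactors_apply]
      rfl
    rw [h4]
    push_cast
    rfl

/-- the divisor sum is a square -/
theorem lam_sum (m z R n : ℕ) :
    ∑ d ∈ n.divisors, lam m z R d = (∑ d ∈ n.divisors, wt (swS m z) R d) ^ 2 := by
  classical
  rcases Nat.eq_zero_or_pos n with rfl | hn
  · simp
  set w := wt (swS m z) R with hw
  have h1 : ∀ d ∈ n.divisors, lam m z R d = ∑ d1 ∈ n.divisors, ∑ d2 ∈ n.divisors,
      (if d = d1.lcm d2 then w d1 * w d2 else 0) := by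
    intro d hd
    have hdn := Nat.dvd_of_mem_divisors hd
    have hsub : d.divisors ⊆ n.divisors := Nat.divisors_subset_of_dvd hn.ne' hdn
    unfold lam lambdaSquared
    have a1 : ∀ d1 ∈ n.divisors, d1 ∉ d.divisors →
        ∑ d2 ∈ n.divisors, (if d = d1.lcm d2 then w d1 * w d2 else 0) = 0 := by
      intro d1 _ hd1
      refine sum_eq_zero fun d2 _ => ?_
      rw [if_neg]
      intro h
      apply hd1
      rw [Nat.mem_divisors]
      exact ⟨h ▸ Nat.dvd_lcm_left d1 d2, (Nat.pos_of_dvd_of_pos hdn hn).ne'⟩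
    rw [← sum_subset hsub a1]
    refine sum_congr rfl fun d1 _ => ?_
    refine sum_subset hsub fun d2 _ hd2 => ?_
    rw [if_neg]
    intro h
    apply hd2
    rw [Nat.mem_divisors]
    exact ⟨h ▸ Nat.dvd_lcm_right d1 d2, (Nat.pos_of_dvd_of_pos hdn hn).ne'⟩
  rw [sum_congr rfl h1, sum_comm, sq, sum_mul_sum]
  refine sum_congr rfl fun d1 hd1 => ?_
  rw [sum_comm]
  refine sum_congr rfl fun d2 hd2 => ?_
  rw [sum_ite_eq', if_pos]
  rw [Nat.mem_divisors]
  exact ⟨Nat.lcm_dvd (Nat.dvd_of_mem_divisors hd1) (Nat.dvd_of_mem_divisors hd2), hn.ne'⟩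

theorem lam_sum_nonneg (m z R n : ℕ) : 0 ≤ ∑ d ∈ n.divisors, lam m z R d := by
  rw [lam_sum]
  exact sq_nonneg _

theorem lam_sum_ge {m z R : ℕ} (hR : 1 ≤ R) {n : ℕ} (hn : 1 ≤ n) :
    (if Nat.Coprime n (Pq m z) then (1 : ℝ) else 0) ≤ ∑ d ∈ n.divisors, lam m z R d := by
  split_ifs with h
  · rw [lam_sum]
    have h1 : ∑ d ∈ n.divisors, wt (swS m z) R d = 1 := by
      rw [sum_eq_single 1]
      · exact wt_one hR
      · intro d hd hd1
        apply wt_eq_zero'
        intro hl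
        apply hd1
        exact Nat.eq_one_of_dvd_coprimes h (Nat.dvd_of_mem_divisors hd) (mem_lev.1 hl).1
      · intro h1
        exact absurd (Nat.mem_divisors.2 ⟨one_dvd n, by omega⟩) h1
    rw [h1]
    norm_num
  · exact lam_sum_nonneg m z R n

theorem lam_main {m z R : ℕ} (hR : 1 ≤ R) :
    ∑ d ∈ (Pq m z).divisors, lam m z R d / d = (JJ m z R)⁻¹ := by
  have h := mainSum_eq (s := swS m z) hR
  rw [sw_bigJ] at h
  rw [← h]
  unfold mainSum
  refine sum_congr rfl fun d _ => ?_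
  change _ = lambdaSquared (wt (swS m z) R) d * swInv d
  rw [swInv_apply]
  unfold lam
  ring

end Pool.Agent.Lib.MP_3e612f_nt.MR
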