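import Pool.Agent.Lib.MP_3e612f_nt.MR.SWA

/-! The Selberg sums, and the lower weights. -/

set_option autoImplicit false

namespace Pool.Agent.Lib.MP_3e612f_nt.MR

open Finset Pool.Agent.Lib.MP_629a14_nt Pool.Agent.Lib.MP_629a14_nt.Rob
open BoundingSieve Pool.Agent.Lib.MP_60b32f_nt

/-- the primes of the sieve -/
def Sp (m z : ℕ) : Finset ℕ := (range z).filter (fun p => p.Prime ∧ ¬ p ∣ m)

theorem mem_Sp {m z p : ℕ} : p ∈ Sp m z ↔ p < z ∧ p.Prime ∧ ¬ p ∣ m := by
  unfold Sp
  rw [mem_filter, mem_range]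

theorem Pq_primeFactors (m z : ℕ) : (Pq m z).primeFactors = Sp m z := by
  unfold Pq Sp
  exact Nat.primeFactors_prod (fun p hp => (mem_filter.1 hp).2.1)

theorem Pq_pos (m z : ℕ) : 0 < Pq m z := Nat.pos_of_ne_zero (Pq_squarefree m z).ne_zero

theorem Pq_dvd {m z' z : ℕ} (h : z' ≤ z) : Pq m z' ∣ Pq m z := by
  unfold Pq
  refine prod_dvd_prod_of_subset _ _ _ ?_
  intro p hp
  rw [mem_filter, mem_range] at hp ⊢
  exact ⟨by omega, hp.2⟩

/-- a squarefree number with primes in the set divides the product -/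
theorem dvd_Pq_of {m z e : ℕ} (he : Squarefree e) (h : ∀ p, p.Prime → p ∣ e → p < z ∧ ¬ p ∣ m) :
    e ∣ Pq m z := by
  rw [← Nat.prod_primeFactors_of_squarefree he]
  unfold Pq
  refine prod_dvd_prod_of_subset _ _ _ ?_
  intro p hp
  have h1 := Nat.mem_primeFactors.1 hp
  rw [mem_filter, mem_range]
  exact ⟨(h p h1.1 h1.2.1).1, h1.1, (h p h1.1 h1.2.1).2⟩

theorem JJ_full (m z : ℕ) : ∑ d ∈ (Pq m z).divisors, 1 / (d.totient : ℝ) = (Vq m z)⁻¹ := by
  have h := sum_divisors_selbergTerms_eq_selbergTerms_mul_nu_inv (s := swS m z)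
    (d := Pq m z) dvd_rfl
  have h1 : ∑ l ∈ (Pq m z).divisors, (if l ∣ Pq m z then (swS m z).selbergTerms l else 0) =
      ∑ d ∈ (Pq m z).divisors, 1 / (d.totient : ℝ) := by
    refine sum_congr rfl fun d hd => ?_
    rw [if_pos (Nat.dvd_of_mem_divisors hd), sw_terms]
  have h2 : (swS m z).selbergTerms (Pq m z) * ((swS m z).nu (Pq m z))⁻¹ = (Vq m z)⁻¹ := by
    rw [sw_terms]
    change 1 / ((Pq m z).totient : ℝ) * (swInv (Pq m z))⁻¹ = _
    rw [swInv_apply, one_div, one_div, inv_inv]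
    have h3 := Nat.totient_eq_mul_prod_factors (Pq m z)
    have h4 : (((Pq m z).totient : ℚ) : ℝ) =
        (((Pq m z : ℕ) * ∏ p ∈ (Pq m z).primeFactors, (1 - (p : ℚ)⁻¹) : ℚ) : ℝ) := by
      rw [h3]
    push_cast at h4
    rw [Pq_primeFactors] at h4
    have h5 : (0 : ℝ) < Pq m z := by exact_mod_cast Pq_pos m z
    have h6 : Vq m z = ∏ p ∈ Sp m z, (1 - (p : ℝ)⁻¹) := by
      unfold Vq Sp
      refine prod_congr rfl fun p _ => ?_
      rw [one_div]
    rw [h4, ← h6, mul_inv]
    field_simp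
  rw [← h1, ← h2]
  exact h

theorem JJ_le (m z R : ℕ) : JJ m z R ≤ (Vq m z)⁻¹ := by
  rw [← JJ_full]
  unfold JJ
  refine sum_le_sum_of_subset_of_nonneg (filter_subset _ _) fun d _ _ => ?_
  positivity

theorem JJ_ge_one {m z R : ℕ} (hR : 1 ≤ R) : 1 ≤ JJ m z R := by
  unfold JJ
  have h1 : (1 : ℕ) ∈ (Pq m z).divisors.filter (fun d => d ≤ R) := by
    rw [mem_filter, Nat.mem_divisors]
    exact ⟨⟨one_dvd _, (Pq_pos m z).ne'⟩, hR⟩
  have h2 := single_le_sum (f := fun d : ℕ => 1 / (d.totient : ℝ)) (fun d _ => by positivity) h1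
  simpa using h2

theorem JJ_mono {m z' z R : ℕ} (h : z' ≤ z) : JJ m z' R ≤ JJ m z R := by
  unfold JJ
  refine sum_le_sum_of_subset_of_nonneg ?_ fun d _ _ => by positivity
  refine filter_subset_filter _ (Nat.divisors_subset_of_dvd (Pq_pos m z).ne' (Pq_dvd h))

theorem JJ_inv_ge {m z R : ℕ} (hR : 1 ≤ R) : Vq m z ≤ (JJ m z R)⁻¹ := by
  rw [le_inv_comm₀ (Vq_pos m z) (JJ_pos hR)]
  exact JJ_le m z R

theorem JJ_inv_le {C₀ : ℝ} (hC₀ : 1 ≤ C₀) (hrk : ∀ q z R : ℕ, 1 ≤ q → 2 ≤ z → 1 ≤ R →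
    (1 - C₀ * Real.exp (-(Real.log R / Real.log z))) * (Vq q z)⁻¹ ≤
      ∑ d ∈ (Pq q z).divisors.filter (fun d => d ≤ R), 1 / (d.totient : ℝ))
    {m z R : ℕ} (hm : 1 ≤ m) (hz : 2 ≤ z) (hR : 1 ≤ R)
    (hx : C₀ * Real.exp (-(Real.log R / Real.log z)) ≤ 1 / 2) :
    (JJ m z R)⁻¹ ≤ Vq m z * (1 + 2 * (C₀ * Real.exp (-(Real.log R / Real.log z)))) := by
  have h2 := hrk m z R hm hz hR
  set x := C₀ * Real.exp (-(Real.log R / Real.log z)) with hxd
  have hx0 : 0 ≤ x := by positivity
  have hV := Vq_pos m z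
  have hJpos : 0 < JJ m z R := JJ_pos hR
  rw [inv_le_comm₀ hJpos (by positivity)]
  refine le_trans ?_ h2
  rw [mul_inv, mul_comm]
  apply mul_le_mul_of_nonneg_right _ (inv_nonneg.2 hV.le)
  rw [inv_le_iff_one_le_mul₀ (by positivity)]
  nlinarith

theorem Vq_le_log {m z : ℕ} (hm : 1 ≤ m) (hz : 2 ≤ z) : Vq m z ≤ m / Real.log z := by
  have hlz : 0 < Real.log z := Real.log_pos (by exact_mod_cast (by omega : 1 < z))
  have h1 := Vq_le m z hm
  have h2 := V_le z hz
  have hφ : (1 : ℝ) ≤ m.totient := by exact_mod_cast Nat.totient_pos.2 hm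
  have hm0 : (0 : ℝ) ≤ m := Nat.cast_nonneg m
  calc Vq m z ≤ (m : ℝ) / m.totient * Vq 1 z := h1
    _ ≤ (m : ℝ) * (1 / Real.log z) := by
        refine mul_le_mul ?_ h2 (Vq_pos 1 z).le hm0
        exact div_le_self hm0 hφ
    _ = m / Real.log z := by ring

/-- upper bound in all cases -/
theorem JJ_inv_small : ∃ K : ℝ, 0 < K ∧ ∀ m z D : ℕ, 1 ≤ m → 2 ≤ z → z ≤ D →
    (JJ m z (Nat.sqrt D))⁻¹ ≤ K * m / Real.log z := by
  obtain ⟨C₀, hC₀, hrk⟩ := rankin
  set s1 := Real.log (2 * C₀) + 1 with hs1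
  have hs : 1 ≤ s1 := by
    have := Real.log_nonneg (show (1 : ℝ) ≤ 2 * C₀ by linarith)
    linarith
  refine ⟨16 * s1, by positivity, ?_⟩
  intro m z D hm hz hzD
  set L := Real.log z with hL
  have hz1 : (1 : ℝ) < z := by exact_mod_cast (by omega : 1 < z)
  have hL0 : 0 < L := Real.log_pos hz1
  have hm1 : (1 : ℝ) ≤ m := by exact_mod_cast hm
  have hR1 : 1 ≤ Nat.sqrt D := Nat.sqrt_pos.2 (by omega)
  rcases lt_or_ge L (8 * s1) with hc | hc
  · have h1 : (JJ m z (Nat.sqrt D))⁻¹ ≤ 1 := inv_le_one_of_one_le₀ (JJ_ge_one hR1)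
    refine h1.trans ?_
    rw [le_div_iff₀ hL0, one_mul]
    nlinarith
  · set a : ℝ := 1 / (4 * s1) with ha
    have ha0 : 0 < a := by positivity
    have ha4 : a ≤ 1 / 4 := by
      rw [ha, div_le_div_iff₀ (by positivity) (by norm_num)]
      linarith
    have haL : 2 ≤ a * L := by
      rw [ha, div_mul_eq_mul_div, one_mul, le_div_iff₀ (by positivity)]
      linarith
    have hL8 : 8 ≤ L := by nlinarith
    set z' := ⌊Real.exp (a * L)⌋₊ with hz'
    have hz'le : (z' : ℝ) ≤ Real.exp (a * L) := Nat.floor_le (Real.exp_pos _).le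
    have hz'lt : Real.exp (a * L) < z' + 1 := Nat.lt_floor_add_one _
    have hexp1 : (2.7182818283 : ℝ) < Real.exp 1 := Real.exp_one_gt_d9
    have hb : Real.exp (a * L - 1) ≤ z' := by
      have e1 : Real.exp (a * L) = Real.exp (a * L - 1) * Real.exp 1 := by
        rw [← Real.exp_add]
        congr 1
        ring
      have e2 : Real.exp 1 ≤ Real.exp (a * L - 1) := Real.exp_le_exp.2 (by linarith)
      nlinarith
    have hz2 : 2 ≤ z' := by
      have e2 : Real.exp 1 ≤ Real.exp (a * L - 1) := Real.exp_le_exp.2 (by linarith)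
      have : (2 : ℝ) < z' := by linarith
      have : 2 < z' := by exact_mod_cast this
      omega
    have hz'0 : (0 : ℝ) < z' := by
      have : (2 : ℝ) ≤ z' := by exact_mod_cast hz2
      linarith
    have hzz : z' ≤ z := by
      have e1 : (z' : ℝ) ≤ z := by
        refine hz'le.trans ?_
        calc Real.exp (a * L) ≤ Real.exp L := Real.exp_le_exp.2 (by nlinarith)
          _ = z := by rw [hL, Real.exp_log (by linarith)]
      exact_mod_cast e1
    have hlz'1 : a * L / 2 ≤ Real.log z' := by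
      have e1 := Real.log_le_log (Real.exp_pos _) hb
      rw [Real.log_exp] at e1
      linarith
    have hlz'2 : Real.log z' ≤ a * L := by
      have e1 := Real.log_le_log hz'0 hz'le
      rwa [Real.log_exp] at e1
    have hlz'0 : 0 < Real.log z' := by linarith
    set R := Nat.sqrt D with hR
    have hR0 : (0 : ℝ) < R := by exact_mod_cast hR1
    have hlR : L / 4 ≤ Real.log R := by
      have e1 : D < (R + 1) * (R + 1) := Nat.lt_succ_sqrt D
      have e2 : (z : ℝ) < (R + 1) * (R + 1) := by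
        have : z < (R + 1) * (R + 1) := by omega
        exact_mod_cast this
      have e3 : (R + 1 : ℝ) ≤ 2 * R := by
        have : (1 : ℝ) ≤ R := by exact_mod_cast hR1
        linarith
      have e4 : (z : ℝ) ≤ (2 * R) * (2 * R) := by
        refine e2.le.trans ?_
        exact mul_le_mul e3 e3 (by positivity) (by positivity)
      have e5 := Real.log_le_log (by linarith) e4
      rw [Real.log_mul (by positivity) (by positivity),
        Real.log_mul (by norm_num) (by positivity)] at e5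
      have e6 : Real.log 2 < 0.7 := by
        have := Real.log_two_lt_d9
        linarith
      linarith
    have hratio : s1 ≤ Real.log R / Real.log z' := by
      rw [le_div_iff₀ hlz'0]
      calc s1 * Real.log z' ≤ s1 * (a * L) := mul_le_mul_of_nonneg_left hlz'2 (by linarith)
        _ = L / 4 := by
            rw [ha]
            field_simp
        _ ≤ Real.log R := hlR
    have hx : C₀ * Real.exp (-(Real.log R / Real.log z')) ≤ 1 / 2 := by
      have e1 : Real.exp (-(Real.log R / Real.log z')) ≤ Real.exp (-Real.log (2 * C₀)) :=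
        Real.exp_le_exp.2 (by linarith)
      rw [Real.exp_neg (Real.log (2 * C₀)), Real.exp_log (by positivity)] at e1
      calc C₀ * Real.exp (-(Real.log R / Real.log z')) ≤ C₀ * (2 * C₀)⁻¹ :=
            mul_le_mul_of_nonneg_left e1 (by linarith)
        _ = 1 / 2 := by
            field_simp
    have h1 := JJ_inv_le hC₀ hrk hm hz2 hR1 hx
    have h2 : (JJ m z R)⁻¹ ≤ (JJ m z' R)⁻¹ := inv_anti₀ (JJ_pos hR1) (JJ_mono hzz)
    have h3 := Vq_le_log hm hz2
    have hV0 := Vq_pos m z'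
    have h4 : Vq m z' * (1 + 2 * (C₀ * Real.exp (-(Real.log R / Real.log z')))) ≤
        (m / Real.log z') * 2 := by
      refine mul_le_mul h3 (by linarith) (by positivity) (by positivity)
    have h5 : (m / Real.log z') * 2 ≤ 16 * s1 * m / L := by
      rw [div_mul_eq_mul_div, div_le_div_iff₀ hlz'0 hL0]
      have e1 : 2 * L ≤ 16 * s1 * Real.log z' := by
        have e2 : 16 * s1 * (a * L / 2) ≤ 16 * s1 * Real.log z' :=
          mul_le_mul_of_nonneg_left hlz'1 (by positivity)
        have e3 : 16 * s1 * (a * L / 2) = 2 * L := by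
          rw [ha]
          field_simp
          norm_num
        linarith
      nlinarith
    linarith

/-- the lower weights -/
noncomputable def lamM (m z D e : ℕ) : ℝ :=
  (if e = 1 then 1 else 0) -
    ∑ p ∈ Sp m z, (if p ∣ e then lam m p (Nat.sqrt (D / p)) (e / p) else 0)

/-- the nonzero terms: `p` is the largest prime factor -/
theorem lamM_term {m z p e R : ℕ} (hp : p ∈ Sp m z) (hpe : p ∣ e) (h : lam m p R (e / p) ≠ 0) :
    e ∣ Pq m z ∧ e ≤ p * R ^ 2 ∧ (∀ q, q.Prime → q ∣ e / p → q < p) := by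
  obtain ⟨hpz, hpp, hpm⟩ := mem_Sp.1 hp
  obtain ⟨d, rfl⟩ := hpe
  rw [Nat.mul_div_cancel_left d hpp.pos] at h ⊢
  obtain ⟨h1, h2⟩ := lam_supp h
  have h3 : ∀ q, q.Prime → q ∣ d → q < p ∧ ¬ q ∣ m := fun q hq hqd =>
    (prime_dvd_Pq hq).1 (hqd.trans h1)
  refine ⟨?_, Nat.mul_le_mul_left p h2, fun q hq hqd => (h3 q hq hqd).1⟩
  have hsq : Squarefree d := (Pq_squarefree m p).squarefree_of_dvd h1
  have hco : Nat.Coprime p d := by
    rw [hpp.coprime_iff_not_dvd]
    intro hpd
    exact absurd (h3 p hpp hpd).1 (lt_irrefl p)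
  refine dvd_Pq_of ((Nat.squarefree_mul hco).2 ⟨hpp.squarefree, hsq⟩) fun q hq hqe => ?_
  rcases hq.dvd_mul.1 hqe with h4 | h4
  · rw [(Nat.prime_dvd_prime_iff_eq hq hpp).1 h4]
    exact ⟨hpz, hpm⟩
  · exact ⟨(h3 q hq h4).1.trans hpz, (h3 q hq h4).2⟩

theorem lamM_supp {m z D e : ℕ} (hD : 1 ≤ D) (h : lamM m z D e ≠ 0) : e ∣ Pq m z ∧ e ≤ D := by
  unfold lamM at h
  by_cases he : e = 1
  · subst he
    exact ⟨one_dvd _, hD⟩
  · rw [if_neg he, zero_sub, neg_ne_zero] at h
    obtain ⟨p, hp, h1⟩ := exists_ne_zero_of_sum_ne_zero h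
    split_ifs at h1 with hpe
    · obtain ⟨h2, h3, -⟩ := lamM_term hp hpe h1
      refine ⟨h2, h3.trans ?_⟩
      have h4 : Nat.sqrt (D / p) ^ 2 ≤ D / p := Nat.sqrt_le' _
      exact (Nat.mul_le_mul_left p h4).trans (Nat.mul_div_le D p)
    · exact absurd rfl h1

theorem abs_lamM_le {m z D : ℕ} (hzD : z ≤ D) (e : ℕ) :
    |lamM m z D e| ≤ 3 ^ e.primeFactors.card := by
  classical
  have hone : (1 : ℝ) ≤ 3 ^ e.primeFactors.card := one_le_pow₀ (by norm_num)
  rcases Nat.eq_zero_or_pos e with rfl | he0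
  · have : lamM m z D 0 = 0 := by
      unfold lamM
      rw [if_neg (by norm_num), zero_sub, neg_eq_zero]
      refine sum_eq_zero fun p _ => ?_
      rw [Nat.zero_div, lam_zero]
      simp
    rw [this, abs_zero]
    positivity
  by_cases he : e = 1
  · have : lamM m z D e = 1 := by
      unfold lamM
      rw [if_pos he, sum_eq_zero, sub_zero]
      intro p hp
      rw [if_neg]
      intro h
      rw [he] at h
      exact (mem_Sp.1 hp).2.1.one_lt.ne' (Nat.dvd_one.1 h)
    rw [this, abs_one]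
    exact hone
  · unfold lamM
    rw [if_neg he, zero_sub, abs_neg]
    by_cases hall : ∀ p ∈ Sp m z,
        (if p ∣ e then lam m p (Nat.sqrt (D / p)) (e / p) else 0) = 0
    · rw [sum_eq_zero hall, abs_zero]
      positivity
    · push Not at hall
      obtain ⟨p, hp, hne⟩ := hall
      obtain ⟨hpz, hpp, hpm⟩ := mem_Sp.1 hp
      have hpe : p ∣ e := by
        by_contra hc
        rw [if_neg hc] at hne
        exact hne rfl
      rw [if_pos hpe] at hne
      have hmax := (lamM_term hp hpe hne).2.2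
      rw [sum_eq_single p]
      · rw [if_pos hpe]
        have hR : 1 ≤ Nat.sqrt (D / p) := Nat.sqrt_pos.2 (Nat.div_pos (by omega) hpp.pos)
        refine (abs_lam_le hR _).trans ?_
        refine pow_le_pow_right₀ (by norm_num) (card_le_card ?_)
        exact Nat.primeFactors_mono (Nat.div_dvd_of_dvd hpe) he0.ne'
      · intro q hq hqp
        by_contra hc
        have hqe : q ∣ e := by
          by_contra hc2
          rw [if_neg hc2] at hc
          exact hc rfl
        rw [if_pos hqe] at hc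
        have hmax2 := (lamM_term hq hqe hc).2.2
        have hqq := (mem_Sp.1 hq).2.1
        have h1 : q < p := by
          refine hmax q hqq ?_
          obtain ⟨t, rfl⟩ := hpe
          rw [Nat.mul_div_cancel_left t hpp.pos]
          rcases hqq.dvd_mul.1 hqe with h | h
          · exact absurd ((Nat.prime_dvd_prime_iff_eq hqq hpp).1 h) hqp
          · exact h
        have h2 : p < q := by
          refine hmax2 p hpp ?_
          obtain ⟨t, rfl⟩ := hqe
          rw [Nat.mul_div_cancel_left t hqq.pos]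
          rcases hpp.dvd_mul.1 hpe with h | h
          · exact absurd ((Nat.prime_dvd_prime_iff_eq hpp hqq).1 h).symm hqp
          · exact h
        omega
      · intro h
        exact absurd hp h

theorem lamM_sum {m z D : ℕ} (hzD : z ≤ D) {n : ℕ} (hn : 1 ≤ n) :
    ∑ e ∈ n.divisors, lamM m z D e ≤ (if Nat.Coprime n (Pq m z) then 1 else 0) := by
  classical
  have h1 : ∑ e ∈ n.divisors, lamM m z D e = 1 - ∑ p ∈ Sp m z,
      (if p ∣ n then ∑ d ∈ (n / p).divisors, lam m p (Nat.sqrt (D / p)) d else 0) := by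
    unfold lamM
    rw [sum_sub_distrib]
    congr 1
    · rw [sum_ite_eq', if_pos]
      exact Nat.mem_divisors.2 ⟨one_dvd n, by omega⟩
    · rw [sum_comm]
      refine sum_congr rfl fun p hp => ?_
      have hpp := (mem_Sp.1 hp).2.1
      rw [← sum_filter]
      by_cases hpn : p ∣ n
      · rw [if_pos hpn]
        have e1 : n.divisors.filter (fun e => p ∣ e) = (n / p).divisors.image (fun d => p * d) := by
          ext e
          simp only [mem_filter, mem_image, Nat.mem_divisors]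
          constructor
          · rintro ⟨⟨he, _⟩, t, rfl⟩
            refine ⟨t, ⟨?_, ?_⟩, rfl⟩
            · obtain ⟨k, rfl⟩ := hpn
              rw [Nat.mul_div_cancel_left k hpp.pos]
              exact (Nat.mul_dvd_mul_iff_left hpp.pos).1 he
            · exact (Nat.div_pos (Nat.le_of_dvd (by omega) hpn) hpp.pos).ne'
          · rintro ⟨t, ⟨ht, _⟩, rfl⟩
            refine ⟨⟨?_, by omega⟩, Dvd.intro t rfl⟩
            obtain ⟨k, rfl⟩ := hpn
            rw [Nat.mul_div_cancel_left k hpp.pos] at ht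
            exact Nat.mul_dvd_mul_left p ht
        rw [e1, sum_image (by
          intro a _ b _ h
          exact Nat.eq_of_mul_eq_mul_left hpp.pos h)]
        refine sum_congr rfl fun d _ => ?_
        rw [Nat.mul_div_cancel_left d hpp.pos]
      · rw [if_neg hpn]
        refine sum_eq_zero fun e he => ?_
        rw [mem_filter] at he
        exact absurd (he.2.trans (Nat.dvd_of_mem_divisors he.1)) hpn
  rw [h1]
  have hnn : ∀ p ∈ Sp m z, (0 : ℝ) ≤
      (if p ∣ n then ∑ d ∈ (n / p).divisors, lam m p (Nat.sqrt (D / p)) d else 0) := by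
    intro p _
    split_ifs
    · exact lam_sum_nonneg _ _ _ _
    · exact le_rfl
  split_ifs with hco
  · have := sum_nonneg hnn
    linarith
  · -- the smallest prime
    have hex : ∃ p, p ∈ Sp m z ∧ p ∣ n := by
      by_contra hc
      push Not at hc
      apply hco
      rw [Nat.coprime_iff_gcd_eq_one]
      by_contra hg
      obtain ⟨p, hp, hpd⟩ := Nat.exists_prime_and_dvd hg
      have p1 := (prime_dvd_Pq hp).1 (hpd.trans (Nat.gcd_dvd_right _ _))
      exact hc p (mem_Sp.2 ⟨p1.1, hp, p1.2⟩) (hpd.trans (Nat.gcd_dvd_left _ _))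
    obtain ⟨hp, hpn⟩ := Nat.find_spec hex
    set p := Nat.find hex with hpdef
    obtain ⟨hpz, hpp, hpm⟩ := mem_Sp.1 hp
    have h2 := single_le_sum hnn hp
    rw [if_pos hpn] at h2
    have hR : 1 ≤ Nat.sqrt (D / p) := Nat.sqrt_pos.2 (Nat.div_pos (by omega) hpp.pos)
    have hnp : 1 ≤ n / p := Nat.div_pos (Nat.le_of_dvd (by omega) hpn) hpp.pos
    have h3 := lam_sum_ge (m := m) (z := p) hR hnp
    rw [if_pos] at h3
    · linarith
    · rw [Nat.coprime_iff_gcd_eq_one]
      by_contra hg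
      obtain ⟨q, hq, hqd⟩ := Nat.exists_prime_and_dvd hg
      have q1 := (prime_dvd_Pq hq).1 (hqd.trans (Nat.gcd_dvd_right _ _))
      have q2 : q ∣ n := (hqd.trans (Nat.gcd_dvd_left _ _)).trans (Nat.div_dvd_of_dvd hpn)
      exact Nat.find_min hex q1.1 ⟨mem_Sp.2 ⟨q1.1.trans hpz, hq, q1.2⟩, q2⟩

theorem lamM_main {m z D : ℕ} (hzD : z ≤ D) :
    ∑ e ∈ (Pq m z).divisors, lamM m z D e / e =
      1 - ∑ p ∈ Sp m z, 1 / (p : ℝ) * (JJ m p (Nat.sqrt (D / p)))⁻¹ := by
  classical
  have h0 : ∀ e ∈ (Pq m z).divisors, lamM m z D e / e = (if e = 1 then (1 : ℝ) else 0) -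
      ∑ p ∈ Sp m z, (if p ∣ e then lam m p (Nat.sqrt (D / p)) (e / p) / e else 0) := by
    intro e _
    unfold lamM
    rw [sub_div, sum_div]
    congr 1
    · split_ifs with h
      · rw [h]
        norm_num
      · rw [zero_div]
    · refine sum_congr rfl fun p _ => ?_
      split_ifs
      · rfl
      · rw [zero_div]
  rw [sum_congr rfl h0, sum_sub_distrib]
  congr 1
  · rw [sum_ite_eq', if_pos]
    exact Nat.mem_divisors.2 ⟨one_dvd _, (Pq_pos m z).ne'⟩
  · rw [sum_comm]
    refine sum_congr rfl fun p hp => ?_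
    obtain ⟨hpz, hpp, hpm⟩ := mem_Sp.1 hp
    have hR : 1 ≤ Nat.sqrt (D / p) := Nat.sqrt_pos.2 (Nat.div_pos (by omega) hpp.pos)
    rw [← lam_main hR, mul_sum, ← sum_filter]
    have hp0 : (p : ℝ) ≠ 0 := by exact_mod_cast hpp.ne_zero
    have hcop : Nat.Coprime p (Pq m p) := by
      rw [hpp.coprime_iff_not_dvd, prime_dvd_Pq hpp]
      rintro ⟨h, _⟩
      exact lt_irrefl p h
    have hdvd : p * Pq m p ∣ Pq m z := by
      refine Nat.Coprime.mul_dvd_of_dvd_of_dvd hcop ?_ (Pq_dvd hpz.le)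
      exact (prime_dvd_Pq hpp).2 ⟨hpz, hpm⟩
    have e1 : ∑ d ∈ (Pq m p).divisors, 1 / (p : ℝ) * (lam m p (Nat.sqrt (D / p)) d / d) =
        ∑ e ∈ (Pq m p).divisors.image (fun d => p * d),
          lam m p (Nat.sqrt (D / p)) (e / p) / e := by
      rw [sum_image (by
        intro a _ b _ h
        exact Nat.eq_of_mul_eq_mul_left hpp.pos h)]
      refine sum_congr rfl fun d _ => ?_
      rw [Nat.mul_div_cancel_left d hpp.pos]
      push_cast
      field_simp
    rw [e1]
    symm
    refine sum_subset ?_ ?_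
    · intro e he
      obtain ⟨d, hd, rfl⟩ := mem_image.1 he
      rw [mem_filter, Nat.mem_divisors]
      exact ⟨⟨(Nat.mul_dvd_mul_left p (Nat.dvd_of_mem_divisors hd)).trans hdvd,
        (Pq_pos m z).ne'⟩, Dvd.intro d rfl⟩
    · intro e he hne
      rw [mem_filter] at he
      obtain ⟨t, rfl⟩ := he.2
      rw [Nat.mul_div_cancel_left t hpp.pos]
      have : lam m p (Nat.sqrt (D / p)) t = 0 := by
        by_contra hc
        apply hne
        exact mem_image.2 ⟨t, Nat.mem_divisors.2 ⟨(lam_supp hc).1, (Pq_pos m p).ne'⟩, rfl⟩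
      rw [this, zero_div]

end Pool.Agent.Lib.MP_3e612f_nt.MR
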