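import Pool.Agent.Lib.MP_3e612f_nt.MR.Gauss

/-! The Turán-Kubilius decomposition of the Dirichlet polynomial. -/

set_option autoImplicit false

namespace Pool.Agent.Lib.MP_3e612f_nt.MR

open Finset MeasureTheory

/-- the main term of the decomposition -/
noncomputable def MT (m : ℕ) [NeZero m] (a : ZMod m) (H v₀ v₁ : ℕ) (X t : ℝ) : ℂ :=
  ((1 / WW H v₀ v₁ : ℝ) : ℂ) * ∑ v ∈ Ico v₀ v₁, ∑ b : (ZMod m)ˣ,
    QQ m (b : ZMod m) H v t * DD m (a * ((b⁻¹ : (ZMod m)ˣ) : ZMod m)) (X * Real.exp (-((v : ℝ) / H))) t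

private theorem tk_card (N d : ℕ) : ((Icc 1 N).filter (fun n => d ∣ n)).card = N / d := by
  rw [← Nat.Ioc_filter_dvd_card_eq_div]
  rfl

private theorem tk_card_le (N d : ℕ) :
    (((Icc 1 N).filter (fun n => d ∣ n)).card : ℝ) ≤ N * (1 / (d : ℝ)) := by
  rw [tk_card, mul_one_div]
  exact Nat.cast_div_le

private theorem tk_card_ge (N d : ℕ) (hd : 1 ≤ d) :
    (N : ℝ) * (1 / (d : ℝ)) - 1 ≤ (((Icc 1 N).filter (fun n => d ∣ n)).card : ℝ) := by
  rw [tk_card, mul_one_div]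
  have hd0 : (0 : ℝ) < d := by exact_mod_cast hd
  have h1 := Nat.lt_div_mul_add (a := N) hd
  have h2 : (N : ℝ) < ((N / d : ℕ) : ℝ) * d + d := by exact_mod_cast h1
  rw [sub_le_iff_le_add, div_le_iff₀ hd0]
  linarith

/-- second moment of the number of divisors in a set of coprime numbers -/
private theorem tk_sq (P : Finset ℕ) (e : ℕ → ℕ)
    (hc : ∀ p ∈ P, ∀ q ∈ P, p ≠ q → Nat.Coprime (e p) (e q)) (N : ℕ) :
    ∑ n ∈ Icc 1 N, (((P.filter (fun p => e p ∣ n)).card : ℝ)) ^ 2 ≤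
      N * (∑ p ∈ P, (1 : ℝ) / e p) + N * (∑ p ∈ P, (1 : ℝ) / e p) ^ 2 := by
  classical
  have h1 : ∀ n, (((P.filter (fun p => e p ∣ n)).card : ℝ)) =
      ∑ p ∈ P, if e p ∣ n then (1 : ℝ) else 0 := by
    intro n
    rw [Finset.sum_boole]
  have h2 : ∀ n, (((P.filter (fun p => e p ∣ n)).card : ℝ)) ^ 2 =
      ∑ p ∈ P, ∑ q ∈ P, if (e p ∣ n ∧ e q ∣ n) then (1 : ℝ) else 0 := by
    intro n
    rw [h1, sq, Finset.sum_mul_sum]
    refine sum_congr rfl fun p _ => sum_congr rfl fun q _ => ?_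
    by_cases h : e p ∣ n <;> by_cases h' : e q ∣ n <;> simp [h, h']
  have h3 : ∑ n ∈ Icc 1 N, (((P.filter (fun p => e p ∣ n)).card : ℝ)) ^ 2 =
      ∑ p ∈ P, ∑ q ∈ P, ∑ n ∈ Icc 1 N, if (e p ∣ n ∧ e q ∣ n) then (1 : ℝ) else 0 := by
    rw [sum_congr rfl fun n _ => h2 n, sum_comm]
    exact sum_congr rfl fun p _ => sum_comm
  have h4 : ∀ p ∈ P, ∀ q ∈ P, (∑ n ∈ Icc 1 N, if (e p ∣ n ∧ e q ∣ n) then (1 : ℝ) else 0) ≤
      (if p = q then (N : ℝ) * (1 / (e q : ℝ)) else 0) +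
        N * ((1 / (e p : ℝ)) * (1 / (e q : ℝ))) := by
    intro p hp q hq
    rw [Finset.sum_boole]
    by_cases h : p = q
    · subst h
      rw [if_pos rfl]
      simp only [and_self]
      have h5 := tk_card_le N (e p)
      have h6 : (0 : ℝ) ≤ N * ((1 / (e p : ℝ)) * (1 / (e p : ℝ))) := by positivity
      linarith
    · rw [if_neg h, zero_add]
      have h5 : (Icc 1 N).filter (fun n => e p ∣ n ∧ e q ∣ n) =
          (Icc 1 N).filter (fun n => e p * e q ∣ n) := by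
        apply Finset.filter_congr
        intro n _
        constructor
        · rintro ⟨h6, h7⟩
          exact (hc p hp q hq h).mul_dvd_of_dvd_of_dvd h6 h7
        · intro h6
          exact ⟨(Dvd.intro _ rfl).trans h6, (Dvd.intro_left _ rfl).trans h6⟩
      rw [h5]
      refine (tk_card_le N (e p * e q)).trans (le_of_eq ?_)
      push_cast
      rw [one_div_mul_one_div]
  rw [h3]
  refine (sum_le_sum fun p hp => sum_le_sum fun q hq => h4 p hp q hq).trans (le_of_eq ?_)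
  simp only [sum_add_distrib]
  congr 1
  · rw [mul_sum]
    refine sum_congr rfl fun p hp => ?_
    rw [Finset.sum_ite_eq, if_pos hp]
  · rw [sq, sum_mul_sum, mul_sum]
    refine sum_congr rfl fun p _ => ?_
    rw [mul_sum]

/-- Turán-Kubilius: `∑_{n ≤ N} (ω(n) - W)^2 ≤ N W + 2 W |P|` for a finite set `P` of primes, `W = ∑_{p ∈ P} 1/p`,
`ω(n) = #{p ∈ P : p ∣ n}`. -/
theorem turan (P : Finset ℕ) (hP : ∀ p ∈ P, p.Prime) (N : ℕ) :
    ∑ n ∈ Icc 1 N, (((P.filter (fun p => p ∣ n)).card : ℝ) - ∑ p ∈ P, (1 : ℝ) / p) ^ 2 ≤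
      N * (∑ p ∈ P, (1 : ℝ) / p) + 2 * (∑ p ∈ P, (1 : ℝ) / p) * P.card := by
  classical
  have h1 := tk_sq P (fun p => p) (fun p hp q hq h => (Nat.coprime_primes (hP p hp) (hP q hq)).2 h) N
  set W := ∑ p ∈ P, (1 : ℝ) / p with hW
  have hW0 : 0 ≤ W := sum_nonneg fun _ _ => by positivity
  have h2 : (N : ℝ) * W - P.card ≤ ∑ n ∈ Icc 1 N, ((P.filter (fun p => p ∣ n)).card : ℝ) := by
    have h3 : ∑ n ∈ Icc 1 N, ((P.filter (fun p => p ∣ n)).card : ℝ) =
        ∑ p ∈ P, (((Icc 1 N).filter (fun n => p ∣ n)).card : ℝ) := by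
      have h4 : ∀ n, (((P.filter (fun p => p ∣ n)).card : ℝ)) =
          ∑ p ∈ P, if p ∣ n then (1 : ℝ) else 0 := by
        intro n
        rw [Finset.sum_boole]
      rw [sum_congr rfl fun n _ => h4 n, sum_comm]
      refine sum_congr rfl fun p _ => ?_
      rw [Finset.sum_boole]
    rw [h3]
    have h5 : (N : ℝ) * W - P.card = ∑ p ∈ P, ((N : ℝ) * (1 / (p : ℝ)) - 1) := by
      rw [sum_sub_distrib, ← mul_sum, ← hW, sum_const, nsmul_eq_mul, mul_one]
    rw [h5]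
    exact sum_le_sum fun p hp => tk_card_ge N p (hP p hp).one_le
  have h3 : ∑ n ∈ Icc 1 N, (((P.filter (fun p => p ∣ n)).card : ℝ) - W) ^ 2 =
      ∑ n ∈ Icc 1 N, ((P.filter (fun p => p ∣ n)).card : ℝ) ^ 2 -
        2 * W * ∑ n ∈ Icc 1 N, ((P.filter (fun p => p ∣ n)).card : ℝ) + N * W ^ 2 := by
    have h4 : ∀ n, (((P.filter (fun p => p ∣ n)).card : ℝ) - W) ^ 2 =
        ((P.filter (fun p => p ∣ n)).card : ℝ) ^ 2 -
          2 * W * ((P.filter (fun p => p ∣ n)).card : ℝ) + W ^ 2 := fun n => by ring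
    rw [sum_congr rfl fun n _ => h4 n, sum_add_distrib, sum_sub_distrib, ← mul_sum]
    simp
  rw [h3]
  have h4 : 2 * W * ((N : ℝ) * W - P.card) ≤
      2 * W * ∑ n ∈ Icc 1 N, ((P.filter (fun p => p ∣ n)).card : ℝ) :=
    mul_le_mul_of_nonneg_left h2 (by positivity)
  nlinarith

/-! ### small facts -/

private theorem ph_mul {p k : ℕ} (hp : 1 ≤ p) (hk : 1 ≤ k) (t : ℝ) :
    ph (p * k) t = ph p t * ph k t := by
  rw [ph, ph, ph, ← Complex.exp_add]
  congr 1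
  have h1 : (p : ℝ) ≠ 0 := by
    have : (0 : ℝ) < p := by exact_mod_cast hp
    exact this.ne'
  have h2 : (k : ℝ) ≠ 0 := by
    have : (0 : ℝ) < k := by exact_mod_cast hk
    exact this.ne'
  rw [Nat.cast_mul, Real.log_mul h1 h2]
  push_cast
  ring

private theorem psi_nonneg' (v : ℝ) : 0 ≤ psi v := le_max_left _ _

private theorem psi_le_one' (v : ℝ) : psi v ≤ 1 := max_le zero_le_one (min_le_left _ _)

private theorem psi_zero' {v : ℝ} (h : 3 ≤ |v|) : psi v = 0 := by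
  rw [psi]
  apply max_eq_left
  exact (min_le_right _ _).trans (by linarith)

private theorem psi_lip' (u v : ℝ) : |psi u - psi v| ≤ |u - v| := by
  rw [psi, psi]
  have h1 := abs_max_sub_max_le_max (0 : ℝ) (min 1 (3 - |u|)) 0 (min 1 (3 - |v|))
  have h2 := abs_min_sub_min_le_max (1 : ℝ) (3 - |u|) 1 (3 - |v|)
  have h3 : |(3 - |u|) - (3 - |v|)| ≤ |u - v| := by
    have h4 : (3 - |u|) - (3 - |v|) = -(|u| - |v|) := by ring
    rw [h4, abs_neg]
    exact abs_abs_sub_abs_le_abs_sub u v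
  refine h1.trans (max_le ?_ (h2.trans (max_le ?_ h3)))
  · rw [sub_self, abs_zero]
    exact abs_nonneg _
  · rw [sub_self, abs_zero]
    exact abs_nonneg _

private theorem mu_abs (n : ℕ) : |mu n| ≤ 1 := by
  rw [mu]
  have h := ArithmeticFunction.abs_moebius_le_one (n := n)
  have : ((|ArithmeticFunction.moebius n| : ℤ) : ℝ) ≤ 1 := by exact_mod_cast h
  rwa [Int.cast_abs] at this

private theorem mu_add {p k : ℕ} (hp : p.Prime) :
    |mu (p * k) + mu k| ≤ if p ^ 2 ∣ p * k then 1 else 0 := by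
  split_ifs with h
  · have h1 : mu (p * k) = 0 := by
      rw [mu, ArithmeticFunction.moebius_eq_zero_of_not_squarefree, Int.cast_zero]
      intro hs
      have := hs p (by rw [← sq]; exact h)
      exact hp.one_lt.ne' (Nat.isUnit_iff.1 this)
    rw [h1, zero_add]
    exact mu_abs k
  · have h1 : ¬ p ∣ k := by
      intro h2
      apply h
      rw [sq]
      exact mul_dvd_mul_left p h2
    have h2 : Nat.Coprime p k := (Nat.Prime.coprime_iff_not_dvd hp).2 h1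
    have h3 : mu (p * k) = -mu k := by
      rw [mu, mu, ArithmeticFunction.isMultiplicative_moebius.map_mul_of_coprime h2,
        ArithmeticFunction.moebius_apply_prime hp]
      push_cast
      ring
    rw [h3, neg_add_cancel, abs_zero]

private theorem exp_three : Real.exp 3 < 21 := by
  have h1 : Real.exp 3 = Real.exp 1 * Real.exp 1 * Real.exp 1 := by
    rw [← Real.exp_add, ← Real.exp_add]
    norm_num
  have h2 := Real.exp_one_lt_d9
  have h3 := Real.exp_pos 1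
  rw [h1]
  have h4 : Real.exp 1 * Real.exp 1 < 2.7182818286 * 2.7182818286 := by nlinarith
  nlinarith

private theorem psi_far {Y : ℝ} (hY : 0 < Y) {k : ℕ} (hk : 21 * Y < k) :
    psi (Real.log k - Real.log Y) = 0 := by
  apply psi_zero'
  refine le_trans ?_ (le_abs_self _)
  have hk0 : (0 : ℝ) < k := by linarith
  rw [← Real.log_div hk0.ne' hY.ne', Real.le_log_iff_exp_le (div_pos hk0 hY), le_div_iff₀ hY]
  nlinarith [exp_three]

private theorem sum_icc_eq (f : ℕ → ℂ) (A B : ℕ) (hA : ∀ k, A < k → f k = 0)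
    (hB : ∀ k, B < k → f k = 0) : ∑ k ∈ Icc 1 A, f k = ∑ k ∈ Icc 1 B, f k := by
  have key : ∀ D, (∀ k, D < k → f k = 0) → D ≤ max A B →
      ∑ k ∈ Icc 1 D, f k = ∑ k ∈ Icc 1 (max A B), f k := by
    intro D hD hle
    apply sum_subset (Icc_subset_Icc_right hle)
    intro k hk hk'
    apply hD
    rw [mem_Icc] at hk hk'
    omega
  rw [key A hA (le_max_left _ _), key B hB (le_max_right _ _)]

private theorem sum_multiples (f : ℕ → ℂ) (M p : ℕ) (hp : 1 ≤ p) :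
    ∑ n ∈ (Icc 1 M).filter (fun n => p ∣ n), f n = ∑ k ∈ Icc 1 (M / p), f (p * k) := by
  symm
  refine sum_nbij' (fun k => p * k) (fun n => n / p) ?_ ?_ ?_ ?_ ?_
  · intro k hk
    rw [mem_Icc] at hk
    rw [mem_filter, mem_Icc]
    refine ⟨⟨Nat.mul_pos hp hk.1, ?_⟩, Dvd.intro _ rfl⟩
    have := (Nat.le_div_iff_mul_le hp).1 hk.2
    rwa [mul_comm]
  · intro n hn
    rw [mem_filter, mem_Icc] at hn
    rw [mem_Icc]
    exact ⟨Nat.div_pos (Nat.le_of_dvd hn.1.1 hn.2) hp, Nat.div_le_div_right hn.1.2⟩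
  · intro k _
    exact Nat.mul_div_cancel_left k hp
  · intro n hn
    rw [mem_filter] at hn
    exact Nat.mul_div_cancel' hn.2
  · intro k _
    rfl

/-! ### the coefficients -/

/-- the contribution of the prime `p` of the window `v` to the coefficient of `n` -/
private noncomputable def tm (m : ℕ) (a : ZMod m) (H : ℕ) (X : ℝ) (v p n : ℕ) : ℝ :=
  if ((n : ℕ) : ZMod m) = a then
    mu (n / p) * psi (Real.log ((n / p : ℕ) : ℝ) - Real.log (X * Real.exp (-((v : ℝ) / H)))) else 0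

private theorem DD_eq (m : ℕ) (a : ZMod m) (X t : ℝ) (hX : 0 < X) (M : ℕ) (hM : ⌊21 * X⌋₊ ≤ M) :
    DD m a X t = ((1 / X : ℝ) : ℂ) * ∑ n ∈ Icc 1 M, ((co m a X n : ℝ) : ℂ) * ph n t := by
  rw [DD]
  congr 1
  have hz : ∀ n : ℕ, ⌊21 * X⌋₊ < n → ((co m a X n : ℝ) : ℂ) * ph n t = 0 := by
    intro n hn
    rw [Nat.floor_lt (by positivity)] at hn
    rw [co, psi_far hX hn]
    simp
  exact sum_icc_eq _ _ _ hz (fun k hk => hz k (by omega))

private theorem unit_of_window {m : ℕ} [NeZero m] {H v p : ℕ}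
    (hm : (m : ℝ) ≤ Real.exp ((v : ℝ) / H)) (hp : p ∈ pw H v) :
    ∃ u : (ZMod m)ˣ, ((p : ℕ) : ZMod m) = u := by
  rw [pw, mem_filter] at hp
  obtain ⟨-, hp1, hp2⟩ := hp
  have h1 : m < p := by
    have : (m : ℝ) < p := lt_of_le_of_lt hm hp2
    exact_mod_cast this
  have h2 : Nat.Coprime p m := by
    rw [Nat.Prime.coprime_iff_not_dvd hp1]
    intro h3
    have := Nat.le_of_dvd (Nat.pos_of_ne_zero (NeZero.ne m)) h3
    omega
  exact ⟨ZMod.unitOfCoprime p h2, (ZMod.coe_unitOfCoprime p h2).symm⟩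

private theorem window_eq (m : ℕ) [NeZero m] (a : ZMod m) (H v : ℕ) (X t : ℝ) (hH : 1 ≤ H)
    (hX : 0 < X) (hm : (m : ℝ) ≤ Real.exp ((v : ℝ) / H)) :
    ∑ b : (ZMod m)ˣ, QQ m (b : ZMod m) H v t *
      DD m (a * ((b⁻¹ : (ZMod m)ˣ) : ZMod m)) (X * Real.exp (-((v : ℝ) / H))) t =
    ((1 / X : ℝ) : ℂ) * ∑ n ∈ Icc 1 ⌊58 * X⌋₊,
      ((∑ p ∈ (pw H v).filter (fun p => p ∣ n), tm m a H X v p n : ℝ) : ℂ) * ph n t := by
  classical
  set Y : ℝ := X * Real.exp (-((v : ℝ) / H)) with hY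
  have hY0 : 0 < Y := mul_pos hX (Real.exp_pos _)
  have hH0 : (0 : ℝ) < H := by exact_mod_cast hH
  -- the terms
  set g : ℕ → ℕ → ℂ := fun p k =>
    ((if ((p * k : ℕ) : ZMod m) = a then mu k * psi (Real.log k - Real.log Y) else 0 : ℝ) : ℂ)
    with hg
  have hgz : ∀ p k : ℕ, 21 * Y < k → g p k = 0 := by
    intro p k hk
    simp only [hg, psi_far hY0 hk, mul_zero, ite_self, Complex.ofReal_zero]
  -- step 1: the sum over the classes
  have s1 : ∀ b : (ZMod m)ˣ, QQ m (b : ZMod m) H v t *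
      DD m (a * ((b⁻¹ : (ZMod m)ˣ) : ZMod m)) Y t =
      ((1 / X : ℝ) : ℂ) * ∑ p ∈ pw H v, if ((p : ℕ) : ZMod m) = b then
        ∑ k ∈ Icc 1 ⌊21 * Y⌋₊, g p k * ph (p * k) t else 0 := by
    intro b
    rw [QQ, DD]
    have e1 : ((Real.exp (-((v : ℝ) / H)) : ℝ) : ℂ) * ((1 / Y : ℝ) : ℂ) = ((1 / X : ℝ) : ℂ) := by
      rw [← Complex.ofReal_mul]
      congr 1
      rw [hY]
      have := (Real.exp_pos (-((v : ℝ) / H))).ne'
      field_simp
    rw [mul_mul_mul_comm, e1, Finset.sum_mul, Finset.sum_filter]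
    congr 1
    refine sum_congr rfl fun p hp => ?_
    by_cases h : ((p : ℕ) : ZMod m) = b
    · rw [if_pos h, if_pos h, mul_sum]
      refine sum_congr rfl fun k hk => ?_
      rw [mem_Icc] at hk
      have hp1 : 1 ≤ p := by
        rw [pw, mem_filter, mem_Icc] at hp
        exact hp.1.1
      rw [ph_mul hp1 hk.1]
      have e2 : g p k = ((co m (a * ((b⁻¹ : (ZMod m)ˣ) : ZMod m)) Y k : ℝ) : ℂ) := by
        simp only [hg, co]
        congr 2
        rw [Nat.cast_mul, h]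
        rw [eq_iff_iff]
        constructor
        · intro e3
          rw [← e3, mul_comm, ← mul_assoc, Units.inv_mul, one_mul]
        · intro e3
          rw [e3, mul_comm a, ← mul_assoc, Units.mul_inv, one_mul]
      rw [e2]
      ring
    · rw [if_neg h, if_neg h]
  rw [sum_congr rfl fun b _ => s1 b, ← mul_sum, sum_comm]
  congr 1
  -- step 2: one class for every prime
  have s2 : ∀ p ∈ pw H v, (∑ b : (ZMod m)ˣ, if ((p : ℕ) : ZMod m) = b then
        ∑ k ∈ Icc 1 ⌊21 * Y⌋₊, g p k * ph (p * k) t else 0) =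
      ∑ n ∈ Icc 1 ⌊58 * X⌋₊, if p ∣ n then ((tm m a H X v p n : ℝ) : ℂ) * ph n t else 0 := by
    intro p hp
    obtain ⟨u, hu⟩ := unit_of_window hm hp
    rw [Finset.sum_eq_single u]
    · rw [if_pos hu]
      have hp' := hp
      rw [pw, mem_filter, mem_Icc] at hp'
      obtain ⟨⟨hp1, hp2⟩, -, -⟩ := hp'
      have hp3 : (p : ℝ) ≤ Real.exp (((v : ℝ) + 1) / H) :=
        (Nat.le_floor_iff (Real.exp_pos _).le).1 hp2
      have hp0 : (0 : ℝ) < p := by exact_mod_cast hp1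
      have hz1 : ∀ k : ℕ, ⌊21 * Y⌋₊ < k → g p k * ph (p * k) t = 0 := by
        intro k hk
        rw [Nat.floor_lt (by positivity)] at hk
        rw [hgz p k hk, zero_mul]
      have hz2 : ∀ k : ℕ, ⌊58 * X⌋₊ / p < k → g p k * ph (p * k) t = 0 := by
        intro k hk
        rw [Nat.div_lt_iff_lt_mul hp1, Nat.floor_lt (by positivity)] at hk
        push_cast at hk
        rw [hgz p k _, zero_mul]
        -- `58 X < k p ≤ k e^{(v+1)/H}`
        have h1 : 58 * X < k * Real.exp (((v : ℝ) + 1) / H) := by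
          refine hk.trans_le ?_
          exact mul_le_mul_of_nonneg_left hp3 (Nat.cast_nonneg _)
        have h2 : Real.exp (((v : ℝ) + 1) / H) ≤ Real.exp ((v : ℝ) / H) * Real.exp 1 := by
          rw [← Real.exp_add]
          apply Real.exp_le_exp.2
          rw [add_div]
          have : (1 : ℝ) / H ≤ 1 := by
            rw [div_le_one hH0]
            exact_mod_cast hH
          linarith
        have h3 : 58 * X < k * (Real.exp ((v : ℝ) / H) * Real.exp 1) :=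
          h1.trans_le (mul_le_mul_of_nonneg_left h2 (Nat.cast_nonneg _))
        have h4 : Real.exp (-((v : ℝ) / H)) * Real.exp ((v : ℝ) / H) = 1 := by
          rw [← Real.exp_add, neg_add_cancel, Real.exp_zero]
        have h5 : 58 * Y < k * Real.exp 1 := by
          have h6 := mul_lt_mul_of_pos_left h3 (Real.exp_pos (-((v : ℝ) / H)))
          have h7 : Real.exp (-((v : ℝ) / H)) * (k * (Real.exp ((v : ℝ) / H) * Real.exp 1)) =
              (Real.exp (-((v : ℝ) / H)) * Real.exp ((v : ℝ) / H)) * (k * Real.exp 1) := by ring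
          have h8 : Real.exp (-((v : ℝ) / H)) * (58 * X) = 58 * Y := by
            rw [hY]
            ring
          rw [h7, h8, h4, one_mul] at h6
          exact h6
        have h6 := Real.exp_one_lt_d9
        have h7 : (0 : ℝ) ≤ k := Nat.cast_nonneg _
        nlinarith
      rw [sum_icc_eq _ _ _ hz1 hz2, ← Finset.sum_filter,
        sum_multiples (fun n => ((tm m a H X v p n : ℝ) : ℂ) * ph n t) _ _ hp1]
      refine sum_congr rfl fun k _ => ?_
      simp only [hg, tm, Nat.mul_div_cancel_left k hp1]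
      rfl
    · intro b _ hb
      rw [if_neg]
      intro h
      apply hb
      rw [Units.ext_iff, ← h, hu]
    · intro h
      exact absurd (Finset.mem_univ u) h
  rw [sum_congr rfl s2, sum_comm]
  refine sum_congr rfl fun n _ => ?_
  rw [← Finset.sum_filter, Complex.ofReal_sum, sum_mul]

/-- the coefficient -/
private noncomputable def cc (m : ℕ) (a : ZMod m) (H v₀ v₁ : ℕ) (X : ℝ) (n : ℕ) : ℝ :=
  co m a X n + (1 / WW H v₀ v₁) *
    ∑ v ∈ Ico v₀ v₁, ∑ p ∈ (pw H v).filter (fun p => p ∣ n), tm m a H X v p n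

private theorem poly_eq (m : ℕ) [NeZero m] (a : ZMod m) (H v₀ v₁ : ℕ) (X t : ℝ) (hH : 1 ≤ H)
    (hX : 0 < X) (hm : (m : ℝ) ≤ Real.exp ((v₀ : ℝ) / H)) :
    DD m a X t + ((1 / WW H v₀ v₁ : ℝ) : ℂ) * ∑ v ∈ Ico v₀ v₁, ∑ b : (ZMod m)ˣ,
      QQ m (b : ZMod m) H v t *
        DD m (a * ((b⁻¹ : (ZMod m)ˣ) : ZMod m)) (X * Real.exp (-((v : ℝ) / H))) t =
    ∑ n ∈ Icc 1 ⌊58 * X⌋₊, (((1 / X) * cc m a H v₀ v₁ X n : ℝ) : ℂ) * ph n t := by
  have h1 : ∀ v ∈ Ico v₀ v₁, (m : ℝ) ≤ Real.exp ((v : ℝ) / H) := by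
    intro v hv
    rw [mem_Ico] at hv
    refine hm.trans (Real.exp_le_exp.2 ?_)
    apply div_le_div_of_nonneg_right _ (Nat.cast_nonneg H)
    exact_mod_cast hv.1
  rw [sum_congr rfl fun v hv => window_eq m a H v X t hH hX (h1 v hv),
    DD_eq m a X t hX ⌊58 * X⌋₊ (Nat.floor_le_floor (by linarith)), ← mul_sum, mul_left_comm,
    ← mul_add]
  rw [sum_comm, mul_sum, ← sum_add_distrib, mul_sum]
  refine sum_congr rfl fun n _ => ?_
  rw [cc, ← sum_mul]
  push_cast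
  ring

/-! ### the prime set -/

private theorem pw_disj (H : ℕ) {v w : ℕ} (h : v < w) : Disjoint (pw H v) (pw H w) := by
  rw [disjoint_left]
  intro p hp hp'
  rw [pw, mem_filter, mem_Icc] at hp hp'
  have h1 : (p : ℝ) ≤ Real.exp (((v : ℝ) + 1) / H) :=
    (Nat.le_floor_iff (Real.exp_pos _).le).1 hp.1.2
  have h2 : Real.exp (((v : ℝ) + 1) / H) ≤ Real.exp ((w : ℝ) / H) := by
    apply Real.exp_le_exp.2
    apply div_le_div_of_nonneg_right _ (Nat.cast_nonneg H)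
    exact_mod_cast h
  linarith [hp'.2.2]

private noncomputable def PP (H v₀ v₁ : ℕ) : Finset ℕ := (Ico v₀ v₁).biUnion (pw H)

private theorem PP_pair (H v₀ v₁ : ℕ) :
    (↑(Ico v₀ v₁) : Set ℕ).PairwiseDisjoint (pw H) := by
  intro v _ w _ hvw
  rcases lt_or_gt_of_ne hvw with h | h
  · exact pw_disj H h
  · exact (pw_disj H h).symm

private theorem PP_sum (H v₀ v₁ : ℕ) (f : ℕ → ℝ) :
    ∑ p ∈ PP H v₀ v₁, f p = ∑ v ∈ Ico v₀ v₁, ∑ p ∈ pw H v, f p :=
  sum_biUnion (PP_pair H v₀ v₁)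

private theorem PP_card (H v₀ v₁ : ℕ) (Q : ℕ → Prop) [DecidablePred Q] :
    (((PP H v₀ v₁).filter Q).card : ℝ) = ∑ v ∈ Ico v₀ v₁, (((pw H v).filter Q).card : ℝ) := by
  rw [← Finset.sum_boole, PP_sum]
  exact sum_congr rfl fun v _ => Finset.sum_boole _ _

private theorem PP_mem {H v₀ v₁ p : ℕ} (h : p ∈ PP H v₀ v₁) :
    p.Prime ∧ Real.exp ((v₀ : ℝ) / H) < p ∧ (p : ℝ) ≤ Real.exp ((v₁ : ℝ) / H) := by
  rw [PP, mem_biUnion] at h
  obtain ⟨v, hv, hp⟩ := h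
  rw [mem_Ico] at hv
  rw [pw, mem_filter, mem_Icc] at hp
  refine ⟨hp.2.1, ?_, ?_⟩
  · refine lt_of_le_of_lt (Real.exp_le_exp.2 ?_) hp.2.2
    apply div_le_div_of_nonneg_right _ (Nat.cast_nonneg H)
    exact_mod_cast hv.1
  · have h1 : (p : ℝ) ≤ Real.exp (((v : ℝ) + 1) / H) :=
      (Nat.le_floor_iff (Real.exp_pos _).le).1 hp.1.2
    refine h1.trans (Real.exp_le_exp.2 ?_)
    apply div_le_div_of_nonneg_right _ (Nat.cast_nonneg H)
    exact_mod_cast hv.2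

private theorem PP_card_le {H v₀ v₁ : ℕ} {X : ℝ} (hX : Real.exp ((v₁ : ℝ) / H) ≤ X) :
    ((PP H v₀ v₁).card : ℝ) ≤ X := by
  have h1 : PP H v₀ v₁ ⊆ Icc 1 ⌊X⌋₊ := by
    intro p hp
    obtain ⟨h2, -, h3⟩ := PP_mem hp
    rw [mem_Icc]
    exact ⟨h2.one_le, Nat.le_floor (h3.trans hX)⟩
  have h2 := Finset.card_le_card h1
  rw [Nat.card_Icc, Nat.add_sub_cancel] at h2
  have h3 : ((PP H v₀ v₁).card : ℝ) ≤ (⌊X⌋₊ : ℝ) := by exact_mod_cast h2
  exact h3.trans (Nat.floor_le ((Real.exp_pos _).le.trans hX))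

private theorem PP_sq (H v₀ v₁ : ℕ) :
    ∑ p ∈ PP H v₀ v₁, (1 : ℝ) / ((p ^ 2 : ℕ) : ℝ) ≤ 2 * Real.exp (-((v₀ : ℝ) / H)) := by
  set y := Real.exp ((v₀ : ℝ) / H) with hy
  have hy1 : 1 ≤ y := by
    rw [hy]
    apply Real.one_le_exp
    positivity
  set A := ⌊y⌋₊ with hA
  have hA1 : 1 ≤ A := Nat.le_floor (by exact_mod_cast hy1)
  have hA1' : (1 : ℝ) ≤ A := by exact_mod_cast hA1
  have hA2 : y < A + 1 := Nat.lt_floor_add_one _
  set B := ⌊Real.exp ((v₁ : ℝ) / H)⌋₊ with hB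
  have h1 : PP H v₀ v₁ ⊆ Ioc A B := by
    intro p hp
    obtain ⟨h2, h3, h4⟩ := PP_mem hp
    rw [mem_Ioc]
    exact ⟨(Nat.floor_lt (by linarith)).2 h3, Nat.le_floor h4⟩
  have h2 : ∑ p ∈ PP H v₀ v₁, (1 : ℝ) / ((p ^ 2 : ℕ) : ℝ) ≤ ∑ i ∈ Ioc A B, ((i : ℝ) ^ 2)⁻¹ := by
    refine (sum_le_sum_of_subset_of_nonneg h1 (fun _ _ _ => by positivity)).trans (le_of_eq ?_)
    refine sum_congr rfl fun i _ => ?_
    push_cast
    rw [one_div]
  have h3 : ∑ i ∈ Ioc A B, ((i : ℝ) ^ 2)⁻¹ ≤ (A : ℝ)⁻¹ := by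
    rcases le_or_gt A B with h | h
    · have h4 := sum_Ioc_inv_sq_le_sub (α := ℝ) (show A ≠ 0 by omega) h
      have h5 : (0 : ℝ) ≤ (B : ℝ)⁻¹ := by positivity
      linarith
    · rw [Finset.Ioc_eq_empty (by omega)]
      simp
  have h4 : (A : ℝ)⁻¹ ≤ 2 * Real.exp (-((v₀ : ℝ) / H)) := by
    rw [Real.exp_neg, ← hy, ← div_eq_mul_inv, inv_eq_one_div,
      div_le_div_iff₀ (by linarith) (by linarith)]
    linarith
  exact h2.trans (h3.trans h4)

/-- the bound for the coefficients -/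
private theorem cc_bound (m : ℕ) (a : ZMod m) (H v₀ v₁ : ℕ) (X : ℝ) (hH : 1 ≤ H) (hX : 0 < X)
    (hW : 1 ≤ WW H v₀ v₁) (n : ℕ) (hn : 1 ≤ n) :
    |cc m a H v₀ v₁ X n| ≤ (1 / WW H v₀ v₁) *
      (|(((PP H v₀ v₁).filter (fun p => p ∣ n)).card : ℝ) - WW H v₀ v₁| +
        (((PP H v₀ v₁).filter (fun p => p ^ 2 ∣ n)).card : ℝ) +
        (((PP H v₀ v₁).filter (fun p => p ∣ n)).card : ℝ) / H) := by
  classical
  set W := WW H v₀ v₁ with hWd
  have hW0 : 0 < W := by linarith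
  have hH0 : (0 : ℝ) < H := by exact_mod_cast hH
  have hn0 : (0 : ℝ) < n := by exact_mod_cast hn
  by_cases hna : ((n : ℕ) : ZMod m) = a
  · set ψ₀ := psi (Real.log n - Real.log X) with hψ
    have hψ0 : 0 ≤ ψ₀ := psi_nonneg' _
    have hψ1 : ψ₀ ≤ 1 := psi_le_one' _
    set om := (((PP H v₀ v₁).filter (fun p => p ∣ n)).card : ℝ) with hom
    set om' := (((PP H v₀ v₁).filter (fun p => p ^ 2 ∣ n)).card : ℝ) with hom'
    have e1 : W * cc m a H v₀ v₁ X n = (W - om) * (mu n * ψ₀) +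
        ∑ v ∈ Ico v₀ v₁, ∑ p ∈ (pw H v).filter (fun p => p ∣ n),
          (mu n * ψ₀ + tm m a H X v p n) := by
      have e2 : ∑ v ∈ Ico v₀ v₁, ∑ p ∈ (pw H v).filter (fun p => p ∣ n),
          (mu n * ψ₀ + tm m a H X v p n) = om * (mu n * ψ₀) +
          ∑ v ∈ Ico v₀ v₁, ∑ p ∈ (pw H v).filter (fun p => p ∣ n), tm m a H X v p n := by
        simp only [sum_add_distrib]
        congr 1
        rw [hom, PP_card, sum_mul]
        refine sum_congr rfl fun v _ => ?_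
        rw [sum_const, nsmul_eq_mul]
      rw [e2, cc, co, if_pos hna, ← hWd, mul_add, ← mul_assoc W (1 / W), mul_one_div_cancel hW0.ne']
      ring
    have e3 : ∀ v ∈ Ico v₀ v₁, ∀ p ∈ (pw H v).filter (fun p => p ∣ n),
        |mu n * ψ₀ + tm m a H X v p n| ≤ (if p ^ 2 ∣ n then 1 else 0) + 1 / (H : ℝ) := by
      intro v _ p hp
      rw [mem_filter] at hp
      obtain ⟨hp, hpn⟩ := hp
      rw [pw, mem_filter, mem_Icc] at hp
      obtain ⟨⟨hp1, hp2⟩, hp3, hp4⟩ := hp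
      have hp5 : (p : ℝ) ≤ Real.exp (((v : ℝ) + 1) / H) :=
        (Nat.le_floor_iff (Real.exp_pos _).le).1 hp2
      have hp0 : (0 : ℝ) < p := by exact_mod_cast hp1
      obtain ⟨k, rfl⟩ := hpn
      have hk : 1 ≤ k := by
        rcases Nat.eq_zero_or_pos k with rfl | hk
        · rw [mul_zero] at hn
          omega
        · exact hk
      have hk0 : (0 : ℝ) < k := by exact_mod_cast hk
      rw [tm, if_pos hna, Nat.mul_div_cancel_left k hp1]
      set ψ₁ := psi (Real.log (k : ℝ) - Real.log (X * Real.exp (-((v : ℝ) / H)))) with hψ₁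
      have hd : |ψ₁ - ψ₀| ≤ 1 / H := by
        refine (psi_lip' _ _).trans ?_
        rw [Real.log_mul hX.ne' (Real.exp_pos _).ne', Real.log_exp, Nat.cast_mul,
          Real.log_mul hp0.ne' hk0.ne']
        have e4 : Real.log (k : ℝ) - (Real.log X + -((v : ℝ) / H)) -
            (Real.log p + Real.log k - Real.log X) = (v : ℝ) / H - Real.log p := by ring
        rw [e4, abs_le]
        have l1 : (v : ℝ) / H < Real.log p := by
          rw [Real.lt_log_iff_exp_lt hp0]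
          exact hp4
        have l2 : Real.log p ≤ ((v : ℝ) + 1) / H := by
          rw [Real.log_le_iff_le_exp hp0]
          exact hp5
        rw [add_div] at l2
        have l3 : (0 : ℝ) < 1 / H := by positivity
        constructor <;> linarith
      have e5 : mu (p * k) * ψ₀ + mu k * ψ₁ =
          (mu (p * k) + mu k) * ψ₀ + mu k * (ψ₁ - ψ₀) := by ring
      rw [e5]
      refine (abs_add_le _ _).trans (add_le_add ?_ ?_)
      · rw [abs_mul, abs_of_nonneg hψ0]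
        have h6 := mu_add (k := k) hp3
        have h7 := abs_nonneg (mu (p * k) + mu k)
        calc |mu (p * k) + mu k| * ψ₀ ≤ |mu (p * k) + mu k| * 1 :=
              mul_le_mul_of_nonneg_left hψ1 h7
          _ ≤ _ := by rw [mul_one]; exact h6
      · rw [abs_mul]
        calc |mu k| * |ψ₁ - ψ₀| ≤ 1 * (1 / (H : ℝ)) :=
              mul_le_mul (mu_abs k) hd (abs_nonneg _) zero_le_one
          _ = 1 / (H : ℝ) := one_mul _
    have e6 : |∑ v ∈ Ico v₀ v₁, ∑ p ∈ (pw H v).filter (fun p => p ∣ n),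
          (mu n * ψ₀ + tm m a H X v p n)| ≤ om' + om / H := by
      refine (abs_sum_le_sum_abs _ _).trans ?_
      have e7 : ∀ v ∈ Ico v₀ v₁, |∑ p ∈ (pw H v).filter (fun p => p ∣ n),
          (mu n * ψ₀ + tm m a H X v p n)| ≤ (((pw H v).filter (fun p => p ^ 2 ∣ n)).card : ℝ) +
            (((pw H v).filter (fun p => p ∣ n)).card : ℝ) * (1 / H) := by
        intro v hv
        refine (abs_sum_le_sum_abs _ _).trans ((sum_le_sum (e3 v hv)).trans ?_)
        rw [sum_add_distrib, sum_const, nsmul_eq_mul, Finset.sum_boole, Finset.filter_filter]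
        apply add_le_add _ le_rfl
        have : ((pw H v).filter (fun p => p ∣ n ∧ p ^ 2 ∣ n)).card ≤
            ((pw H v).filter (fun p => p ^ 2 ∣ n)).card := by
          apply Finset.card_le_card
          intro p hp
          rw [mem_filter] at hp ⊢
          exact ⟨hp.1, hp.2.2⟩
        exact_mod_cast this
      refine (sum_le_sum e7).trans (le_of_eq ?_)
      rw [sum_add_distrib, ← sum_mul, hom, hom', PP_card, PP_card, mul_one_div]
    have e8 : |(W - om) * (mu n * ψ₀)| ≤ |om - W| := by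
      rw [abs_mul, abs_sub_comm, abs_mul, abs_of_nonneg hψ0]
      have h6 : |mu n| * ψ₀ ≤ 1 * 1 := mul_le_mul (mu_abs n) hψ1 hψ0 zero_le_one
      calc |om - W| * (|mu n| * ψ₀) ≤ |om - W| * (1 * 1) :=
            mul_le_mul_of_nonneg_left h6 (abs_nonneg _)
        _ = |om - W| := by ring
    have e9 : W * |cc m a H v₀ v₁ X n| ≤ |om - W| + om' + om / H := by
      rw [← abs_of_pos hW0, ← abs_mul, abs_of_pos hW0, e1]
      refine (abs_add_le _ _).trans ?_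
      linarith
    rw [one_div, ← div_eq_inv_mul, le_div_iff₀ hW0]
    linarith
  · have h1 : cc m a H v₀ v₁ X n = 0 := by
      rw [cc, co, if_neg hna, zero_add]
      have : ∀ v ∈ Ico v₀ v₁, ∑ p ∈ (pw H v).filter (fun p => p ∣ n), tm m a H X v p n = 0 := by
        intro v _
        apply sum_eq_zero
        intro p _
        rw [tm, if_neg hna]
      rw [sum_eq_zero this, mul_zero]
    rw [h1, abs_zero]
    positivity

/-- the sum of the squares of the coefficients -/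
private theorem cc_sum (m : ℕ) (a : ZMod m) (H v₀ v₁ : ℕ) (X : ℝ) (hH : 1 ≤ H)
    (hX : Real.exp ((v₁ : ℝ) / H) ≤ X) (hW : 1 ≤ WW H v₀ v₁) :
    ∑ n ∈ Icc 1 ⌊58 * X⌋₊, cc m a H v₀ v₁ X n ^ 2 ≤
      1044 * X * (1 / WW H v₀ v₁ + Real.exp (-((v₀ : ℝ) / H)) + 1 / (H : ℝ) ^ 2) := by
  classical
  have hX0 : 0 < X := (Real.exp_pos _).trans_le hX
  have hH0 : (0 : ℝ) < H := by exact_mod_cast hH
  set W := WW H v₀ v₁ with hWd
  have hW0 : 0 < W := by linarith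
  set M := ⌊58 * X⌋₊ with hM
  have hMX : (M : ℝ) ≤ 58 * X := Nat.floor_le (by positivity)
  set y := Real.exp (-((v₀ : ℝ) / H)) with hy
  have hy0 : 0 < y := Real.exp_pos _
  have hy1 : y ≤ 1 := by
    rw [hy]
    apply Real.exp_le_one_iff.2
    have : (0 : ℝ) ≤ (v₀ : ℝ) / H := by positivity
    linarith
  have hWP : ∑ p ∈ PP H v₀ v₁, (1 : ℝ) / p = W := PP_sum H v₀ v₁ _
  have hprime : ∀ p ∈ PP H v₀ v₁, p.Prime := fun p hp => (PP_mem hp).1
  have hcard : ((PP H v₀ v₁).card : ℝ) ≤ X := PP_card_le hX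
  -- the three sums
  have t1 : ∑ n ∈ Icc 1 M, ((((PP H v₀ v₁).filter (fun p => p ∣ n)).card : ℝ) - W) ^ 2 ≤
      60 * X * W := by
    have h1 := turan (PP H v₀ v₁) hprime M
    rw [hWP] at h1
    have h2 : (M : ℝ) * W ≤ 58 * X * W := mul_le_mul_of_nonneg_right hMX hW0.le
    have h3 : 2 * W * ((PP H v₀ v₁).card : ℝ) ≤ 2 * W * X :=
      mul_le_mul_of_nonneg_left hcard (by positivity)
    linarith
  have t2 : ∑ n ∈ Icc 1 M, (((PP H v₀ v₁).filter (fun p => p ^ 2 ∣ n)).card : ℝ) ^ 2 ≤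
      348 * X * y := by
    have h1 := tk_sq (PP H v₀ v₁) (fun p => p ^ 2) (fun p hp q hq h =>
      Nat.Coprime.pow 2 2 ((Nat.coprime_primes (hprime p hp) (hprime q hq)).2 h)) M
    have h2 := PP_sq H v₀ v₁
    rw [← hy] at h2
    set s := ∑ p ∈ PP H v₀ v₁, (1 : ℝ) / ((p ^ 2 : ℕ) : ℝ) with hs
    have hs0 : 0 ≤ s := sum_nonneg fun _ _ => by positivity
    have h3 : s ^ 2 ≤ 4 * y := by nlinarith
    have h4 : (M : ℝ) * s + M * s ^ 2 ≤ 58 * X * (6 * y) := by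
      have h5 : (M : ℝ) * (s + s ^ 2) ≤ 58 * X * (6 * y) :=
        mul_le_mul hMX (by linarith) (by positivity) (by positivity)
      linarith
    linarith
  have t3 : ∑ n ∈ Icc 1 M, (((PP H v₀ v₁).filter (fun p => p ∣ n)).card : ℝ) ^ 2 ≤
      236 * X * W ^ 2 := by
    have h1 : ∀ n : ℕ, (((PP H v₀ v₁).filter (fun p => p ∣ n)).card : ℝ) ^ 2 ≤
        2 * ((((PP H v₀ v₁).filter (fun p => p ∣ n)).card : ℝ) - W) ^ 2 + 2 * W ^ 2 := by
      intro n
      nlinarith [sq_nonneg ((((PP H v₀ v₁).filter (fun p => p ∣ n)).card : ℝ) - 2 * W)]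
    refine (sum_le_sum fun n _ => h1 n).trans ?_
    rw [sum_add_distrib, ← mul_sum, sum_const, Nat.card_Icc, Nat.add_sub_cancel, nsmul_eq_mul]
    have h2 : (M : ℝ) * (2 * W ^ 2) ≤ 58 * X * (2 * W ^ 2) :=
      mul_le_mul_of_nonneg_right hMX (by positivity)
    have h3 : X * W ≤ X * W ^ 2 := by
      rw [sq]
      apply mul_le_mul_of_nonneg_left _ hX0.le
      nlinarith
    linarith
  have hpt : ∀ n ∈ Icc 1 M, cc m a H v₀ v₁ X n ^ 2 ≤ 3 * (1 / W) ^ 2 *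
      (((((PP H v₀ v₁).filter (fun p => p ∣ n)).card : ℝ) - W) ^ 2 +
        (((PP H v₀ v₁).filter (fun p => p ^ 2 ∣ n)).card : ℝ) ^ 2 +
        (((PP H v₀ v₁).filter (fun p => p ∣ n)).card : ℝ) ^ 2 * (1 / (H : ℝ) ^ 2)) := by
    intro n hn
    rw [mem_Icc] at hn
    have h1 := cc_bound m a H v₀ v₁ X hH hX0 hW n hn.1
    rw [← hWd] at h1
    set om := (((PP H v₀ v₁).filter (fun p => p ∣ n)).card : ℝ) with hom
    set om' := (((PP H v₀ v₁).filter (fun p => p ^ 2 ∣ n)).card : ℝ) with hom'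
    have h2 : cc m a H v₀ v₁ X n ^ 2 ≤ ((1 / W) * (|om - W| + om' + om / H)) ^ 2 := by
      rw [← sq_abs]
      exact pow_le_pow_left₀ (abs_nonneg _) h1 2
    have h3 : (|om - W| + om' + om / H) ^ 2 ≤ 3 * ((om - W) ^ 2 + om' ^ 2 + om ^ 2 * (1 / (H : ℝ) ^ 2)) := by
      have h4 : om ^ 2 * (1 / (H : ℝ) ^ 2) = (om / H) ^ 2 := by
        rw [div_pow]
        ring
      rw [h4, ← sq_abs (om - W)]
      nlinarith [sq_nonneg (|om - W| - om'), sq_nonneg (|om - W| - om / H), sq_nonneg (om' - om / H)]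
    rw [mul_pow] at h2
    refine h2.trans ?_
    have h5 : (0 : ℝ) ≤ (1 / W) ^ 2 := by positivity
    nlinarith
  refine (sum_le_sum hpt).trans ?_
  rw [← mul_sum, sum_add_distrib, sum_add_distrib, ← sum_mul]
  have hH2 : (0 : ℝ) ≤ 1 / (H : ℝ) ^ 2 := by positivity
  have hsum : ∑ n ∈ Icc 1 M, ((((PP H v₀ v₁).filter (fun p => p ∣ n)).card : ℝ) - W) ^ 2 +
        ∑ n ∈ Icc 1 M, (((PP H v₀ v₁).filter (fun p => p ^ 2 ∣ n)).card : ℝ) ^ 2 +
        (∑ n ∈ Icc 1 M, (((PP H v₀ v₁).filter (fun p => p ∣ n)).card : ℝ) ^ 2) *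
          (1 / (H : ℝ) ^ 2) ≤ 60 * X * W + 348 * X * y + 236 * X * W ^ 2 * (1 / (H : ℝ) ^ 2) :=
    add_le_add (add_le_add t1 t2) (mul_le_mul_of_nonneg_right t3 hH2)
  have hinv1 : 1 / W ≤ 1 := by
    rw [div_le_one hW0]
    exact hW
  have hinv0 : 0 < 1 / W := by positivity
  have hinvW : 1 / W * W = 1 := one_div_mul_cancel hW0.ne'
  calc 3 * (1 / W) ^ 2 * _ ≤ 3 * (1 / W) ^ 2 *
        (60 * X * W + 348 * X * y + 236 * X * W ^ 2 * (1 / (H : ℝ) ^ 2)) :=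
        mul_le_mul_of_nonneg_left hsum (by positivity)
    _ = 180 * X * (1 / W) * (1 / W * W) + 1044 * X * y * (1 / W) ^ 2 +
        708 * X * (1 / (H : ℝ) ^ 2) * (1 / W * W) ^ 2 := by ring
    _ ≤ _ := by
        rw [hinvW]
        have h1 : (1 / W) ^ 2 ≤ 1 := pow_le_one₀ hinv0.le hinv1
        have h2 : 1044 * X * y * (1 / W) ^ 2 ≤ 1044 * X * y * 1 :=
          mul_le_mul_of_nonneg_left h1 (by positivity)
        have h3 : 0 ≤ X * (1 / W) := by positivity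
        have h4 : 0 ≤ X * (1 / (H : ℝ) ^ 2) := by positivity
        nlinarith

private theorem psi_near {X : ℝ} (hX : 0 < X) {y : ℝ} (hy : y < Real.log X - 3) :
    psi (y - Real.log X) = 0 := by
  apply psi_zero'
  rw [le_abs]
  right
  linarith

private theorem log_small {X : ℝ} (hX : 0 < X) {n : ℕ} (hn : 1 ≤ n) (h : (n : ℝ) < X / 21) :
    Real.log n < Real.log X - 3 := by
  have hn0 : (0 : ℝ) < n := by exact_mod_cast hn
  rw [← Real.exp_lt_exp, Real.exp_log hn0, Real.exp_sub, Real.exp_log hX,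
    lt_div_iff₀ (Real.exp_pos 3)]
  have h1 := exp_three
  have h2 : (n : ℝ) * 21 < X := by linarith
  nlinarith

/-- the coefficients vanish below `X/21` -/
private theorem cc_low (m : ℕ) (a : ZMod m) (H v₀ v₁ : ℕ) (X : ℝ) (hX : 0 < X) (n : ℕ)
    (hn : 1 ≤ n) (h : (n : ℝ) < X / 21) : cc m a H v₀ v₁ X n = 0 := by
  have hlog := log_small hX hn h
  have h1 : co m a X n = 0 := by
    rw [co, psi_near hX hlog]
    simp
  have h2 : ∀ v ∈ Ico v₀ v₁, ∑ p ∈ (pw H v).filter (fun p => p ∣ n), tm m a H X v p n = 0 := by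
    intro v _
    apply sum_eq_zero
    intro p hp
    rw [mem_filter] at hp
    obtain ⟨hp, hpn⟩ := hp
    rw [pw, mem_filter, mem_Icc] at hp
    obtain ⟨⟨hp1, -⟩, hp3, hp4⟩ := hp
    have hp0 : (0 : ℝ) < p := by exact_mod_cast hp1
    obtain ⟨k, rfl⟩ := hpn
    have hk : 1 ≤ k := by
      rcases Nat.eq_zero_or_pos k with rfl | hk
      · rw [mul_zero] at hn
        omega
      · exact hk
    have hk0 : (0 : ℝ) < k := by exact_mod_cast hk
    rw [tm, Nat.mul_div_cancel_left k hp1]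
    have e1 : psi (Real.log (k : ℝ) - Real.log (X * Real.exp (-((v : ℝ) / H)))) = 0 := by
      apply psi_zero'
      rw [le_abs]
      right
      rw [Real.log_mul hX.ne' (Real.exp_pos _).ne', Real.log_exp]
      rw [Nat.cast_mul, Real.log_mul hp0.ne' hk0.ne'] at hlog
      have l1 : (v : ℝ) / H < Real.log p := by
        rw [Real.lt_log_iff_exp_lt hp0]
        exact hp4
      linarith
    rw [e1, mul_zero, ite_self]
  rw [cc, h1, sum_eq_zero h2, mul_zero, add_zero]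

/-- Proof. Let `P` be the set of all primes of the windows `v0 ≤ v < v1` (disjoint), `W = ∑ 1/p = WW H v0 v1`,
`a_n = co m a X n`. All `p ∈ P` satisfy `p > e^{v0/H} ≥ m`, so they are units modulo `m`, and `p ≤ e^{v1/H} ≤ X`, so
`#P ≤ X`. Then `D = (1/(WX)) ∑ a_n ω(n) n^{-it} + E1`, `E1 = (1/(WX)) ∑ a_n (W - ω(n)) n^{-it}`, and by
`turan` the coefficients of `E1` have `∑ |.|^2 ≤ (WX)^{-2} 3 W 21X ≤ C/(W X)`. Next
`∑ a_n ω(n) n^{-it} = ∑_{p ∈ P} ∑_k a_{pk} (pk)^{-it}` and `μ(pk) = -μ(k)` unless `p ∣ k`, when it is `0`: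
`a_{pk} = -μ(k) 1_{k ≡ a p^{-1}} ψ(log(pk/X)) + [p ∣ k] μ(k) 1 ψ(..)`. The second terms give `E2`, whose
coefficient at `n` is at most `(WX)^{-1} ω'(n)`, `ω'(n) = #{p ∈ P: p^2 ∣ n}`, `∑_{n ≤ 21X} ω'(n)^2 ≤ 63 X ∑_{p > e^{v0/H}} 1/p^2 ≤
126 X e^{-v0/H}`. In the first terms replace `ψ(log k + log p - log X)` for
`p ∈ pw H v` by `ψ(log k + v/H - log X)`: the error is at most `1/H` (`ψ` is 1-Lipschitz), supported on `pk ≤ 58X`, so it
gives `E3` with coefficient at `n` at most `(WX)^{-1} ω(n)/H`; `∑_{n ≤ 58X} ω(n)^2 ≤ 58X (W^2 + W)`. What remains is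
`-(1/(WX)) ∑_v ∑_b ∑_{p ∈ pw H v, p ≡ b} p^{-it} ∑_k μ(k) 1_{k ≡ a b^{-1}} ψ(log k - log (X e^{-v/H})) k^{-it} = - MT`. All
coefficients vanish outside `[e^{-3} X, e^4 X] ⊆ [X/21, 60 X]`. -/
theorem tkc : ∃ C : ℝ, 0 < C ∧ ∀ (m : ℕ) [NeZero m] (a : ZMod m) (H v₀ v₁ : ℕ) (X : ℝ),
    1 ≤ H → v₀ ≤ v₁ → (m : ℝ) ≤ Real.exp ((v₀ : ℝ) / H) → Real.exp ((v₁ : ℝ) / H) ≤ X →
    1 ≤ WW H v₀ v₁ → ∃ e : ℕ → ℂ, (∀ n, e n ≠ 0 → X / 21 ≤ n ∧ (n : ℝ) ≤ 60 * X) ∧
      (∀ t : ℝ, DD m a X t + MT m a H v₀ v₁ X t = ∑ n ∈ Icc 1 ⌊60 * X⌋₊, e n * ph n t) ∧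
      ∑ n ∈ Icc 1 ⌊60 * X⌋₊, ‖e n‖ ^ 2 ≤
        C / X * (1 / WW H v₀ v₁ + Real.exp (-((v₀ : ℝ) / H)) + 1 / (H : ℝ) ^ 2) := by
  classical
  refine ⟨1044, by norm_num, ?_⟩
  intro m _ a H v₀ v₁ X hH _ hm hX hW
  have hX0 : 0 < X := (Real.exp_pos _).trans_le hX
  set e : ℕ → ℂ := fun n => if n ∈ Icc 1 ⌊58 * X⌋₊ then
    (((1 / X) * cc m a H v₀ v₁ X n : ℝ) : ℂ) else 0 with he
  have hsub : Icc 1 ⌊58 * X⌋₊ ⊆ Icc 1 ⌊60 * X⌋₊ :=
    Icc_subset_Icc_right (Nat.floor_le_floor (by linarith))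
  refine ⟨e, ?_, ?_, ?_⟩
  · intro n hn
    simp only [he] at hn
    have hmem : n ∈ Icc 1 ⌊58 * X⌋₊ := by
      by_contra hc
      rw [if_neg hc] at hn
      exact hn rfl
    rw [if_pos hmem] at hn
    rw [mem_Icc] at hmem
    constructor
    · by_contra hc
      apply hn
      rw [cc_low m a H v₀ v₁ X hX0 n hmem.1 (not_le.1 hc), mul_zero, Complex.ofReal_zero]
    · have h1 : (n : ℝ) ≤ (⌊58 * X⌋₊ : ℝ) := by exact_mod_cast hmem.2
      have h2 : (⌊58 * X⌋₊ : ℝ) ≤ 58 * X := Nat.floor_le (by positivity)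
      linarith
  · intro t
    rw [MT, poly_eq m a H v₀ v₁ X t hH hX0 hm, ← sum_subset hsub (fun n _ hn => by
      simp only [he]
      rw [if_neg hn, zero_mul])]
    refine sum_congr rfl fun n hn => ?_
    simp only [he]
    rw [if_pos hn]
  · rw [← sum_subset hsub (fun n _ hn => by
      simp only [he]
      rw [if_neg hn, norm_zero]
      norm_num)]
    have h1 : ∀ n ∈ Icc 1 ⌊58 * X⌋₊, ‖e n‖ ^ 2 = (1 / X) ^ 2 * cc m a H v₀ v₁ X n ^ 2 := by
      intro n hn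
      simp only [he]
      rw [if_pos hn, Complex.norm_real, Real.norm_eq_abs, sq_abs, mul_pow]
    rw [sum_congr rfl h1, ← mul_sum]
    have h2 := cc_sum m a H v₀ v₁ X hH hX hW
    set R := 1 / WW H v₀ v₁ + Real.exp (-((v₀ : ℝ) / H)) + 1 / (H : ℝ) ^ 2 with hR
    calc (1 / X) ^ 2 * ∑ n ∈ Icc 1 ⌊58 * X⌋₊, cc m a H v₀ v₁ X n ^ 2
        ≤ (1 / X) ^ 2 * (1044 * X * R) := mul_le_mul_of_nonneg_left h2 (by positivity)
      _ = 1044 / X * R := by
          field_simp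

/-- From `tkc` and `gauss_mv`. -/
theorem tk : ∃ C : ℝ, 0 < C ∧ ∀ (m : ℕ) [NeZero m] (a : ZMod m) (H v₀ v₁ : ℕ) (X η : ℝ),
    1 ≤ H → v₀ ≤ v₁ → (m : ℝ) ≤ Real.exp ((v₀ : ℝ) / H) → Real.exp ((v₁ : ℝ) / H) ≤ X → 1 / X ≤ η →
    1 ≤ WW H v₀ v₁ →
    ∫ t : ℝ, ‖DD m a X t + MT m a H v₀ v₁ X t‖ ^ 2 * gw η t ≤
      C * (1 / WW H v₀ v₁ + Real.exp (-((v₀ : ℝ) / H)) + 1 / (H : ℝ) ^ 2) := by
  obtain ⟨C, hC, hk⟩ := tkc
  refine ⟨7 * 61 * C, by positivity, ?_⟩
  intro m _ a H v₀ v₁ X η hH hv hm hX hη hW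
  have hX0 : 0 < X := (Real.exp_pos _).trans_le hX
  have hη0 : 0 < η := lt_of_lt_of_le (by positivity) hη
  have hη1 : 1 / η ≤ X := by
    rw [div_le_iff₀ hη0]
    rw [div_le_iff₀ hX0] at hη
    linarith
  obtain ⟨e, -, he, hsum⟩ := hk m a H v₀ v₁ X hH hv hm hX hW
  simp only [he]
  refine (gauss_mv (Icc 1 ⌊60 * X⌋₊) ⌊60 * X⌋₊ (fun n hn => mem_Icc.1 hn) e η hη0).trans ?_
  have h4 : 1 / η + (⌊60 * X⌋₊ : ℝ) ≤ 61 * X := by
    have : (⌊60 * X⌋₊ : ℝ) ≤ 60 * X := Nat.floor_le (by positivity)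
    linarith
  have h5 : (0 : ℝ) ≤ 1 / η + (⌊60 * X⌋₊ : ℝ) := by positivity
  set R := 1 / WW H v₀ v₁ + Real.exp (-((v₀ : ℝ) / H)) + 1 / (H : ℝ) ^ 2 with hR
  calc 7 * (1 / η + (⌊60 * X⌋₊ : ℝ)) * ∑ n ∈ Icc 1 ⌊60 * X⌋₊, ‖e n‖ ^ 2
      ≤ 7 * (61 * X) * (C / X * R) := by
        gcongr
    _ = 7 * 61 * C * R := by
        field_simp

end Pool.Agent.Lib.MP_3e612f_nt.MR
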