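import Pool.Agent.Lib.MP_3e612f_nt.MR.UCountA

/-! The number of unit intervals on which a prime polynomial is large somewhere. -/

set_option autoImplicit false

namespace Pool.Agent.Lib.MP_3e612f_nt.MR

open Finset MeasureTheory

/-- Proof. `y = v/H`, `l = ⌈(11/10) log X/y⌉`, `f = QQ^l`, a Dirichlet polynomial: `f = ∑_n c_n n^{-it}`,
`c_n = e^{-l y} #{(p_1, ..., p_l) : ∏ p_i = n}` (restricted to the class `b`), `n ≤ N = e^{l(y + 1/H)} ≤ e^l e^{ly}`, and
`e^{ly} ∈ [X^{11/10}, X^{11/10} e^y]`. On a unit interval `I` meeting the set, `e^{2 l α y} |f(t)|^2 ≥ 1` for some `t ∈ I`, and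
`|f(t)|^2 ≤ 2 ∫_I |f|^2 + ∫_I |f'|^2` (Sobolev). The number of these intervals is at most
`e^{2 l α y} ∫_{|t| ≤ X^{11/10} + 2} (2|f|^2 + |f'|^2) ≤ C e^{2 l α y} ∫ (2|f|^2 + |f'|^2) gw X^{-11/10}`
`≤ C e^{2lαy} (X^{11/10} + N)(1 + log N)^2 ∑ |c_n|^2` (`gauss_mv`), where `∑ |c_n|^2 ≤ e^{-2ly} l! #(pw)^l ≤
e^{-2ly} l^l e^{l(y+1)}` (the number of ordered factorisations is at most `l!`). In total
`≤ C X^{2α·11/10} e^{2αy} (1 + e^{l+y}) e^l l^l (..)^2`; `l ≤ (11/10) log X/(C₀ log log X) + 1` gives `l^l ≤ X^{3/C₀}`, and with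
`C₀ = C/α` everything is at most `X^{3α}` for large `X`. -/
theorem ucount (α : ℝ) (hα : 0 < α) (hα1 : α ≤ 1) : ∃ C₀ X₀ : ℝ, 0 < C₀ ∧ ∀ X : ℝ, X₀ ≤ X →
    ∀ (m : ℕ) [NeZero m] (b : ZMod m) (H v : ℕ), 1 ≤ H → C₀ * Real.log (Real.log X) ≤ (v : ℝ) / H →
    (v : ℝ) / H ≤ Real.sqrt (Real.log X) →
    (Set.ncard {k : ℤ | |(k : ℝ)| ≤ X ^ (11 / 10 : ℝ) + 1 ∧
      ∃ t ∈ Set.Icc (k : ℝ) (k + 1), Real.exp (-(α * ((v : ℝ) / H))) < ‖QQ m b H v t‖} : ℝ) ≤ X ^ (3 * α) := by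
  refine ⟨100 / α, Real.exp ((40 / α) ^ 2), by positivity, ?_⟩
  intro X hX m _ b H v hH hv1 hv2
  have hX0 : 0 < X := (Real.exp_pos _).trans_le hX
  set L : ℝ := Real.log X with hL
  set y : ℝ := (v : ℝ) / H with hy
  set s : ℝ := Real.sqrt L with hs
  have h40 : 40 ≤ 40 / α := by rw [le_div_iff₀ hα]; linarith
  have hL1 : (40 / α) ^ 2 ≤ L := by
    rw [hL, Real.le_log_iff_exp_le hX0]; exact hX
  have hL0 : 1600 ≤ L := by nlinarith
  have hsL : s ^ 2 = L := Real.sq_sqrt (by linarith)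
  have hs1 : 40 / α ≤ s := Real.le_sqrt_of_sq_le hL1
  have hs40 : 40 ≤ s := h40.trans hs1
  have hαs : 40 ≤ α * s := by
    rw [div_le_iff₀ hα] at hs1; linarith
  set M : ℝ := Real.log L with hM
  have hM1 : 1 ≤ M := by
    rw [hM, Real.le_log_iff_exp_le (by linarith)]
    linarith [Real.exp_one_lt_d9]
  have hMs : M ≤ 2 * s := by
    have h1 : M = 2 * Real.log s := by
      rw [hM, ← hsL, Real.log_pow]; norm_num
    have h2 := Real.log_le_sub_one_of_pos (show 0 < s by linarith)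
    linarith
  have hy100 : 100 * M ≤ α * y := by
    have : 100 / α * M = 100 * M / α := by ring
    rw [this, div_le_iff₀ hα] at hv1
    linarith
  have hy0 : 100 ≤ y := by nlinarith
  have hys : y ≤ s := hv2
  set l : ℕ := ⌈11 / 10 * L / y⌉₊ with hl
  have hl1 : 11 / 10 * L / y ≤ l := Nat.le_ceil _
  have hl2 : (l : ℝ) < 11 / 10 * L / y + 1 := Nat.ceil_lt_add_one (by positivity)
  have hly1 : 11 / 10 * L ≤ l * y := by rwa [div_le_iff₀ (by linarith)] at hl1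
  have hly2 : l * y ≤ 11 / 10 * L + y := by
    have h1 : (l : ℝ) * y ≤ (11 / 10 * L / y + 1) * y := mul_le_mul_of_nonneg_right hl2.le (by linarith)
    have h2 : (11 / 10 * L / y + 1) * y = 11 / 10 * L + y := by field_simp
    linarith
  have hl0 : l ≠ 0 := by
    intro h
    rw [h] at hly1
    push_cast at hly1
    linarith
  have hlM : l * M ≤ 11 / 1000 * (α * L) + M := by
    have h1 : (l : ℝ) * M ≤ (11 / 10 * L / y + 1) * M := mul_le_mul_of_nonneg_right hl2.le (by linarith)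
    have h2 : 11 / 10 * L / y * M ≤ 11 / 1000 * (α * L) := by
      rw [div_mul_eq_mul_div, div_le_iff₀ (by linarith)]
      have := mul_le_mul_of_nonneg_left hy100 (show 0 ≤ 11 / 1000 * L by linarith)
      linarith
    linarith
  have hlM2 : (l : ℝ) ≤ l * M := by
    have : (0 : ℝ) ≤ l := Nat.cast_nonneg _
    nlinarith
  have hαL : α * L ≤ L := by nlinarith
  have hsL2 : 40 * s ≤ L := by nlinarith
  have hlL : (l : ℝ) ≤ L := by linarith
  -- the primes
  set P : Finset ℕ := (pw H v).filter (fun p => ((p : ℕ) : ZMod m) = b) with hP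
  have hPm : ∀ p ∈ P, p.Prime ∧ (p : ℝ) ≤ Real.exp (y + 1) ∧ 1 ≤ p ∧ p ≤ ⌊Real.exp (((v : ℝ) + 1) / H)⌋₊ := by
    intro p hp
    rw [hP, Finset.mem_filter] at hp
    have h1 := hp.1
    unfold pw at h1
    rw [Finset.mem_filter, Finset.mem_Icc] at h1
    refine ⟨h1.2.1, ?_, h1.1.1, h1.1.2⟩
    have h2 : (p : ℝ) ≤ Real.exp (((v : ℝ) + 1) / H) :=
      (Nat.le_floor_iff (Real.exp_pos _).le).1 h1.1.2
    refine h2.trans (Real.exp_le_exp.2 ?_)
    have h3 : (1 : ℝ) ≤ H := by exact_mod_cast hH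
    have h4 : (1 : ℝ) / H ≤ 1 := by rw [div_le_one (by linarith)]; exact h3
    rw [hy, add_div]; linarith
  have hPc : (P.card : ℝ) ≤ Real.exp (y + 1) := by
    have h1 : P ⊆ Icc 1 ⌊Real.exp (y + 1)⌋₊ := by
      intro p hp
      rw [Finset.mem_Icc]
      exact ⟨(hPm p hp).2.2.1, Nat.le_floor (hPm p hp).2.1⟩
    have h2 := Finset.card_le_card h1
    rw [Nat.card_Icc, Nat.add_sub_cancel] at h2
    exact (by exact_mod_cast h2 : (P.card : ℝ) ≤ (⌊Real.exp (y + 1)⌋₊ : ℝ)).trans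
      (Nat.floor_le (Real.exp_pos _).le)
  obtain ⟨S, r, hS1, hS2, hS3⟩ := uc_pow P (fun p hp => (hPm p hp).1) l
  set B : ℝ := Real.exp (l * (y + 1)) with hB
  have hBpow : Real.exp (y + 1) ^ l = B := by rw [hB, ← Real.exp_nat_mul]
  set N : ℕ := ⌊B⌋₊ with hN
  have hNB : (N : ℝ) ≤ B := Nat.floor_le (Real.exp_pos _).le
  have hB1 : 1 ≤ B := Real.one_le_exp (by positivity)
  have hN1 : 1 ≤ N := Nat.le_floor (by exact_mod_cast hB1)
  have hSN : ∀ n ∈ S, 1 ≤ n ∧ n ≤ N := by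
    intro n hn
    obtain ⟨g, hg, rfl⟩ := hS1 n hn
    refine ⟨Nat.one_le_iff_ne_zero.2 (Finset.prod_ne_zero_iff.2 fun i _ => (hPm _ (hg i)).1.ne_zero), ?_⟩
    refine Nat.le_floor ?_
    rw [Nat.cast_prod, ← hBpow]
    calc ∏ i : Fin l, (g i : ℝ) ≤ ∏ _i : Fin l, Real.exp (y + 1) :=
          Finset.prod_le_prod (fun i _ => Nat.cast_nonneg _) (fun i _ => (hPm _ (hg i)).2.1)
      _ = Real.exp (y + 1) ^ l := by rw [Finset.prod_const, Finset.card_univ, Fintype.card_fin]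
  have hlogN : Real.log N ≤ l * (y + 1) := by
    have h1 : Real.log N ≤ Real.log B := Real.log_le_log (by exact_mod_cast hN1) hNB
    rwa [hB, Real.log_exp] at h1
  have hlogN0 : 0 ≤ Real.log N := Real.log_nonneg (by exact_mod_cast hN1)
  set e : ℝ := Real.exp (-y) with he
  set c : ℕ → ℂ := fun n => ((e ^ l * r n : ℝ) : ℂ) with hc
  have hpow : ∀ t : ℝ, QQ m b H v t ^ l = ∑ n ∈ S, c n * ph n t := by
    intro t
    unfold QQ
    rw [mul_pow, ← hP, hS2 t, Finset.mul_sum]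
    refine Finset.sum_congr rfl fun n _ => ?_
    rw [show Real.exp (-((v : ℝ) / H)) = e from rfl, hc]
    simp only
    rw [Complex.ofReal_mul, Complex.ofReal_pow, mul_assoc]
  set T : ℝ := X ^ (11 / 10 : ℝ) with hT
  have hTe : T = Real.exp (11 / 10 * L) := by
    rw [hT, Real.rpow_def_of_pos hX0, hL]; congr 1; ring
  have hT1 : 1 ≤ T := by rw [hTe]; exact Real.one_le_exp (by linarith)
  have hTB : T ≤ B := by
    rw [hTe, hB]
    refine Real.exp_le_exp.2 ?_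
    have h1 : (0 : ℝ) ≤ l := Nat.cast_nonneg _
    have h2 : (l : ℝ) * (y + 1) = l * y + l := by ring
    linarith
  set A : ℝ := Real.exp (-(2 * α * (l * y))) with hA
  have hcount := uc_count S N hSN c T A hT1
  have hsub : {k : ℤ | |(k : ℝ)| ≤ T + 1 ∧
      ∃ t ∈ Set.Icc (k : ℝ) (k + 1), Real.exp (-(α * y)) < ‖QQ m b H v t‖} ⊆
      {k : ℤ | |(k : ℝ)| ≤ T + 1 ∧ ∃ t ∈ Set.Icc (k : ℝ) (k + 1), A < ‖∑ n ∈ S, c n * ph n t‖ ^ 2} := by
    rintro k ⟨hk1, t, ht, hk2⟩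
    refine ⟨hk1, t, ht, ?_⟩
    rw [← hpow t, norm_pow, ← pow_mul]
    have h1 : A = Real.exp (-(α * y)) ^ (l * 2) := by
      rw [hA, ← Real.exp_nat_mul]; congr 1; push_cast; ring
    rw [h1]
    exact pow_lt_pow_left₀ hk2 (Real.exp_pos _).le (by omega)
  have hle := Set.ncard_le_ncard hsub (uc_fin T _)
  have hc2 : ∑ n ∈ S, ‖c n‖ ^ 2 ≤ Real.exp (-(2 * (l * y))) * ((l : ℝ) ^ l * B) := by
    have h1 : ∀ n ∈ S, ‖c n‖ ^ 2 = Real.exp (-(2 * (l * y))) * (r n : ℝ) ^ 2 := by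
      intro n _
      rw [hc]
      simp only
      rw [Complex.norm_real, Real.norm_of_nonneg (by positivity), mul_pow, ← pow_mul, he,
        ← Real.exp_nat_mul]
      congr 2; push_cast; ring
    rw [Finset.sum_congr rfl h1, ← Finset.mul_sum]
    refine mul_le_mul_of_nonneg_left (hS3.trans ?_) (Real.exp_pos _).le
    have h2 : (l.factorial : ℝ) ≤ (l : ℝ) ^ l := by exact_mod_cast Nat.factorial_le_pow l
    have h3 : (P.card : ℝ) ^ l ≤ B := by
      rw [← hBpow]; exact pow_le_pow_left₀ (Nat.cast_nonneg _) hPc l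
    exact mul_le_mul h2 h3 (by positivity) (by positivity)
  have hll : (l : ℝ) ^ l ≤ Real.exp (l * M) := by
    have h1 : (0 : ℝ) < l := by exact_mod_cast Nat.pos_of_ne_zero hl0
    have h2 : Real.log l ≤ M := Real.log_le_log h1 hlL
    calc (l : ℝ) ^ l = Real.exp (l * Real.log l) := by
          rw [Real.exp_nat_mul, Real.exp_log h1]
      _ ≤ _ := Real.exp_le_exp.2 (mul_le_mul_of_nonneg_left h2 h1.le)
  have hq : 2 + Real.log N ^ 2 ≤ Real.exp (3 + 4 * s) := by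
    have h1 : Real.log N ≤ 3 * L := by
      have h0 : (l : ℝ) * (y + 1) = l * y + l := by ring
      linarith
    have h2 : Real.log N ^ 2 ≤ (3 * L) ^ 2 := pow_le_pow_left₀ hlogN0 h1 2
    have h3 : L ^ 2 = Real.exp (2 * M) := by
      have : Real.exp (2 * M) = Real.exp M ^ 2 := by rw [← Real.exp_nat_mul]; norm_num
      rw [this, hM, Real.exp_log (by linarith)]
    have h4 : Real.exp (2 * M) ≤ Real.exp (4 * s) := Real.exp_le_exp.2 (by linarith)
    have h5 : (10 : ℝ) ≤ Real.exp 3 := by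
      have := Real.exp_one_gt_d9
      have h6 : Real.exp 3 = Real.exp 1 ^ 3 := by rw [← Real.exp_nat_mul]; norm_num
      rw [h6]
      calc (10 : ℝ) ≤ 2.7182818283 ^ 3 := by norm_num
        _ ≤ _ := pow_le_pow_left₀ (by norm_num) this.le 3
    rw [Real.exp_add]
    have h7 : 1 ≤ Real.exp (4 * s) := Real.one_le_exp (by linarith)
    have h8 : 10 * Real.exp (4 * s) ≤ Real.exp 3 * Real.exp (4 * s) :=
      mul_le_mul_of_nonneg_right h5 (by linarith)
    have h9 : (3 * L) ^ 2 = 9 * L ^ 2 := by ring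
    have h10 : (2 : ℝ) ≤ L ^ 2 := by nlinarith only [hL0]
    linarith
  have h1400 : (1400 : ℝ) ≤ Real.exp 8 := by
    have := Real.exp_one_gt_d9
    have h6 : Real.exp 8 = Real.exp 1 ^ 8 := by rw [← Real.exp_nat_mul]; norm_num
    rw [h6]
    calc (1400 : ℝ) ≤ 2.7182818283 ^ 8 := by norm_num
      _ ≤ _ := pow_le_pow_left₀ (by norm_num) this.le 8
  -- the total
  set n₁ : ℝ := (Set.ncard {k : ℤ | |(k : ℝ)| ≤ T + 1 ∧
      ∃ t ∈ Set.Icc (k : ℝ) (k + 1), A < ‖∑ n ∈ S, c n * ph n t‖ ^ 2} : ℝ) with hn₁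
  have hn1le : (Set.ncard {k : ℤ | |(k : ℝ)| ≤ T + 1 ∧
      ∃ t ∈ Set.Icc (k : ℝ) (k + 1), Real.exp (-(α * y)) < ‖QQ m b H v t‖} : ℝ) ≤ n₁ := by
    rw [hn₁]; exact_mod_cast hle
  refine hn1le.trans ?_
  have hA0 : 0 < A := Real.exp_pos _
  have hstep : n₁ * A ≤ Real.exp 8 * B * Real.exp (3 + 4 * s) *
      (Real.exp (-(2 * (l * y))) * (Real.exp (l * M) * B)) := by
    refine hcount.trans ?_
    have h1 : 700 * (T + N) ≤ Real.exp 8 * B := by
      have h2 := mul_le_mul_of_nonneg_right h1400 (show 0 ≤ B by linarith)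
      linarith
    have h0 : 0 ≤ 2 + Real.log N ^ 2 := by positivity
    refine mul_le_mul (mul_le_mul h1 hq h0 (by positivity)) (hc2.trans ?_) (Finset.sum_nonneg fun n _ => by positivity)
      (by positivity)
    exact mul_le_mul_of_nonneg_left (mul_le_mul_of_nonneg_right hll (by positivity)) (Real.exp_pos _).le
  have hfin : n₁ ≤ Real.exp (8 + l * (y + 1) + (3 + 4 * s) + (-(2 * (l * y)) + (l * M + l * (y + 1))) +
      2 * α * (l * y)) := by
    have h1 : A * Real.exp (2 * α * (l * y)) = 1 := by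
      rw [hA, ← Real.exp_add]; simp
    have h2 : n₁ = n₁ * A * Real.exp (2 * α * (l * y)) := by rw [mul_assoc, h1, mul_one]
    rw [h2, Real.exp_add _ (2 * α * (l * y))]
    refine mul_le_mul_of_nonneg_right (hstep.trans (le_of_eq ?_)) (Real.exp_pos _).le
    rw [hB]
    simp only [Real.exp_add]
  refine hfin.trans ?_
  rw [Real.rpow_def_of_pos hX0, ← hL]
  refine Real.exp_le_exp.2 ?_
  have h1 : α * (l * y) ≤ α * (11 / 10 * L + y) := mul_le_mul_of_nonneg_left hly2 hα.le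
  have h2 : α * y ≤ s := by
    have := mul_le_mul_of_nonneg_right hα1 (show 0 ≤ y by linarith)
    linarith
  have h3 : 40 * s ≤ α * L := by
    rw [← hsL]
    have := mul_le_mul_of_nonneg_right hαs (show 0 ≤ s by linarith)
    have e1 : α * s ^ 2 = α * s * s := by ring
    linarith
  have h4 : (l : ℝ) * (y + 1) = l * y + l := by ring
  have h5 : α * (11 / 10 * L + y) = 11 / 10 * (α * L) + α * y := by ring
  have h6 : L * (3 * α) = 3 * (α * L) := by ring
  have h7 : 2 * α * (l * y) = 2 * (α * (l * y)) := by ring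
  rw [h4, h6, h7]
  linarith

end Pool.Agent.Lib.MP_3e612f_nt.MR
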