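import Pool.Agent.Lib.MP_3e612f_nt.MR.Gauss

/-! Tools for the number of unit intervals on which a Dirichlet polynomial is large. -/

set_option autoImplicit false

namespace Pool.Agent.Lib.MP_3e612f_nt.MR

open Finset MeasureTheory

/-- `n^{-it}` is multiplicative -/
theorem uc_ph_prod {l : ℕ} (g : Fin l → ℕ) (hg : ∀ i, 0 < g i) (t : ℝ) :
    ph (∏ i, g i) t = ∏ i, ph (g i) t := by
  unfold ph
  rw [← Complex.exp_sum]
  congr 1
  rw [Nat.cast_prod, Real.log_prod (fun i _ => by exact_mod_cast (hg i).ne')]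
  push_cast
  rw [Finset.mul_sum, Finset.sum_mul, ← Finset.sum_neg_distrib]

theorem uc_norm_ph (n : ℕ) (t : ℝ) : ‖ph n t‖ = 1 := by
  unfold ph
  have : -(((t * Real.log n : ℝ) : ℂ) * Complex.I) = ((-(t * Real.log n) : ℝ) : ℂ) * Complex.I := by
    push_cast; ring
  rw [this, Complex.norm_exp_ofReal_mul_I]

theorem uc_ph_deriv (n : ℕ) (t : ℝ) :
    HasDerivAt (fun s : ℝ => ph n s) (-((Real.log n : ℝ) : ℂ) * Complex.I * ph n t) t := by
  unfold ph
  have h1 : HasDerivAt (fun s : ℝ => ((s * Real.log n : ℝ) : ℂ)) ((Real.log n : ℝ) : ℂ) t := by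
    have := ((hasDerivAt_id t).mul_const (Real.log n)).ofReal_comp
    simpa using this
  have h2 : HasDerivAt (fun s : ℝ => -(((s * Real.log n : ℝ) : ℂ) * Complex.I))
      (-(((Real.log n : ℝ) : ℂ) * Complex.I)) t := (h1.mul_const Complex.I).neg
  have h3 := h2.cexp
  convert h3 using 1
  ring

theorem uc_ph_cont (n : ℕ) : Continuous (fun s : ℝ => ph n s) :=
  continuous_iff_continuousAt.2 fun t => (uc_ph_deriv n t).continuousAt

/-- Sobolev's inequality on a unit interval -/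
theorem uc_sob (F F' : ℝ → ℂ) (hF : ∀ t, HasDerivAt F (F' t) t) (hF' : Continuous F') (a γ : ℝ)
    (hγ : γ ∈ Set.Icc a (a + 1)) :
    ‖F γ‖ ^ 2 ≤ ∫ t in a..(a + 1), (2 * ‖F t‖ ^ 2 + ‖F' t‖ ^ 2) := by
  have hFc : Continuous F := continuous_iff_continuousAt.2 fun t => (hF t).continuousAt
  set b : ℝ := a + 1 with hb
  have hab : a ≤ b := by rw [hb]; linarith
  have hlen : b - a = 1 := by rw [hb]; ring
  let g : ℝ → ℝ := fun s => 2 * inner ℝ (F s) (F' s)
  let h : ℝ → ℝ := fun s => ‖F s‖ ^ 2 + ‖F' s‖ ^ 2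
  have hgc : Continuous g := by
    exact continuous_const.mul (hFc.inner hF')
  have hhc : Continuous h := (hFc.norm.pow 2).add (hF'.norm.pow 2)
  have hg : ∀ t, HasDerivAt (fun s => ‖F s‖ ^ 2) (g t) t := fun t => (hF t).norm_sq
  have hgh : ∀ s, ‖g s‖ ≤ h s := by
    intro s
    have h1 : ‖g s‖ ≤ 2 * (‖F s‖ * ‖F' s‖) := by
      change ‖2 * inner ℝ (F s) (F' s)‖ ≤ _
      rw [norm_mul]
      have := norm_inner_le_norm (𝕜 := ℝ) (F s) (F' s)
      rw [Real.norm_ofNat]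
      linarith
    refine h1.trans ?_
    change _ ≤ ‖F s‖ ^ 2 + ‖F' s‖ ^ 2
    nlinarith [sq_nonneg (‖F s‖ - ‖F' s‖)]
  have hh0 : ∀ s, 0 ≤ h s := fun s => by
    change 0 ≤ ‖F s‖ ^ 2 + ‖F' s‖ ^ 2
    positivity
  have key : ∀ t ∈ Set.Icc a b, ‖F γ‖ ^ 2 ≤ ‖F t‖ ^ 2 + ∫ s in a..b, h s := by
    intro t ht
    have h1 : ∫ s in t..γ, g s = ‖F γ‖ ^ 2 - ‖F t‖ ^ 2 :=
      intervalIntegral.integral_eq_sub_of_hasDerivAt (fun s _ => hg s) (hgc.intervalIntegrable _ _)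
    have h2 : ‖∫ s in t..γ, g s‖ ≤ |∫ s in t..γ, h s| :=
      intervalIntegral.norm_integral_le_abs_of_norm_le (Filter.Eventually.of_forall fun s => hgh s)
        (hhc.intervalIntegrable _ _)
    have h3 : |∫ s in t..γ, h s| ≤ |∫ s in a..b, h s| := by
      refine intervalIntegral.abs_integral_mono_interval ?_ (Filter.Eventually.of_forall fun s => hh0 s)
        (hhc.intervalIntegrable _ _)
      rw [Set.uIoc_of_le hab]
      rcases le_total t γ with h4 | h4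
      · rw [Set.uIoc_of_le h4]
        exact Set.Ioc_subset_Ioc ht.1 hγ.2
      · rw [Set.uIoc_of_ge h4]
        exact Set.Ioc_subset_Ioc hγ.1 ht.2
    have h4 : 0 ≤ ∫ s in a..b, h s := intervalIntegral.integral_nonneg hab fun s _ => hh0 s
    rw [abs_of_nonneg h4] at h3
    rw [h1] at h2
    have h5 := le_abs_self (‖F γ‖ ^ 2 - ‖F t‖ ^ 2)
    rw [Real.norm_eq_abs] at h2
    linarith
  have hmono : ∫ t in a..b, ‖F γ‖ ^ 2 ≤ ∫ t in a..b, (‖F t‖ ^ 2 + ∫ s in a..b, h s) := by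
    refine intervalIntegral.integral_mono_on hab (continuous_const.intervalIntegrable _ _)
      (((hFc.norm.pow 2).add continuous_const).intervalIntegrable _ _) key
  have e1 : ∫ t in a..b, ‖F γ‖ ^ 2 = ‖F γ‖ ^ 2 := by
    rw [intervalIntegral.integral_const, hlen, one_smul]
  have hFi : IntervalIntegrable (fun t => ‖F t‖ ^ 2) MeasureTheory.volume a b :=
    (hFc.norm.pow 2).intervalIntegrable _ _
  have hhi : IntervalIntegrable h MeasureTheory.volume a b := hhc.intervalIntegrable _ _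
  have hki : IntervalIntegrable (fun _ : ℝ => ∫ s in a..b, h s) MeasureTheory.volume a b :=
    continuous_const.intervalIntegrable _ _
  have e2 : ∫ t in a..b, (‖F t‖ ^ 2 + ∫ s in a..b, h s) =
      (∫ t in a..b, ‖F t‖ ^ 2) + ∫ s in a..b, h s := by
    rw [intervalIntegral.integral_add hFi hki, intervalIntegral.integral_const, hlen, one_smul]
  have e3 : (∫ t in a..b, ‖F t‖ ^ 2) + ∫ s in a..b, h s =
      ∫ t in a..b, (2 * ‖F t‖ ^ 2 + ‖F' t‖ ^ 2) := by
    rw [← intervalIntegral.integral_add hFi hhi]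
    refine intervalIntegral.integral_congr fun t _ => ?_
    change ‖F t‖ ^ 2 + (‖F t‖ ^ 2 + ‖F' t‖ ^ 2) = 2 * ‖F t‖ ^ 2 + ‖F' t‖ ^ 2
    ring
  rw [e1, e2, e3] at hmono
  exact hmono

/-- the number of ordered factorisations into `l` primes is at most `l!` -/
theorem uc_fib (P : Finset ℕ) (hP : ∀ p ∈ P, p.Prime) (l : ℕ) (g0 : Fin l → ℕ)
    (hg0 : g0 ∈ Fintype.piFinset (fun _ : Fin l => P)) :
    ((Fintype.piFinset (fun _ : Fin l => P)).filter (fun g => ∏ i, g i = ∏ i, g0 i)).card ≤ l.factorial := by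
  classical
  have h1 : ((Fintype.piFinset (fun _ : Fin l => P)).filter (fun g => ∏ i, g i = ∏ i, g0 i)).card ≤
      ((List.ofFn g0).permutations.toFinset).card := by
    refine Finset.card_le_card_of_injOn (fun g => List.ofFn g) ?_ (fun g _ g' _ h => List.ofFn_injective h)
    intro g hg
    rw [Finset.mem_coe, Finset.mem_filter] at hg
    rw [Finset.mem_coe, List.mem_toFinset, List.mem_permutations]
    refine perm_of_prod_eq_prod ?_ ?_ ?_
    · rw [List.prod_ofFn, List.prod_ofFn]; exact hg.2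
    · intro p hp
      rw [List.mem_ofFn] at hp
      obtain ⟨i, rfl⟩ := hp
      exact (hP _ (Fintype.mem_piFinset.1 hg.1 i)).prime
    · intro p hp
      rw [List.mem_ofFn] at hp
      obtain ⟨i, rfl⟩ := hp
      exact (hP _ (Fintype.mem_piFinset.1 hg0 i)).prime
  refine h1.trans ((List.toFinset_card_le _).trans ?_)
  rw [List.length_permutations, List.length_ofFn]

/-- the powers of a prime polynomial -/
theorem uc_pow (P : Finset ℕ) (hP : ∀ p ∈ P, p.Prime) (l : ℕ) :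
    ∃ S : Finset ℕ, ∃ r : ℕ → ℕ, (∀ n ∈ S, ∃ g : Fin l → ℕ, (∀ i, g i ∈ P) ∧ ∏ i, g i = n) ∧
      (∀ t : ℝ, (∑ p ∈ P, ph p t) ^ l = ∑ n ∈ S, ((r n : ℝ) : ℂ) * ph n t) ∧
      ∑ n ∈ S, (r n : ℝ) ^ 2 ≤ (l.factorial : ℝ) * (P.card : ℝ) ^ l := by
  classical
  set G : Finset (Fin l → ℕ) := Fintype.piFinset (fun _ : Fin l => P) with hG
  have hGm : ∀ g ∈ G, ∀ i, g i ∈ P := fun g hg i => Fintype.mem_piFinset.1 hg i
  refine ⟨G.image (fun g => ∏ i, g i), fun n => (G.filter (fun g => ∏ i, g i = n)).card, ?_, ?_, ?_⟩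
  · intro n hn
    rw [Finset.mem_image] at hn
    obtain ⟨g, hg, rfl⟩ := hn
    exact ⟨g, hGm g hg, rfl⟩
  · intro t
    rw [Finset.sum_pow', ← hG]
    have h1 : ∑ g ∈ G, ∏ i, ph (g i) t = ∑ g ∈ G, ph (∏ i, g i) t :=
      Finset.sum_congr rfl fun g hg => (uc_ph_prod g (fun i => (hP _ (hGm g hg i)).pos) t).symm
    rw [h1, ← Finset.sum_fiberwise_of_maps_to (t := G.image (fun g => ∏ i, g i))
      (g := fun g => ∏ i, g i) (fun g hg => Finset.mem_image_of_mem _ hg)]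
    refine Finset.sum_congr rfl fun n _ => ?_
    rw [Finset.sum_congr rfl (g := fun _ => ph n t) (fun g hg => by rw [(Finset.mem_filter.1 hg).2]),
      Finset.sum_const, nsmul_eq_mul]
    push_cast
    rfl
  · have h1 : ∀ n ∈ G.image (fun g => ∏ i, g i),
        (((G.filter (fun g => ∏ i, g i = n)).card : ℕ) : ℝ) ^ 2 ≤
          (l.factorial : ℝ) * ((G.filter (fun g => ∏ i, g i = n)).card : ℝ) := by
      intro n hn
      rw [Finset.mem_image] at hn
      obtain ⟨g0, hg0, rfl⟩ := hn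
      rw [sq]
      refine mul_le_mul_of_nonneg_right ?_ (Nat.cast_nonneg _)
      exact_mod_cast uc_fib P hP l g0 hg0
    refine (Finset.sum_le_sum h1).trans (le_of_eq ?_)
    rw [← Finset.mul_sum]
    congr 1
    have h2 := Finset.card_eq_sum_card_image (fun g : Fin l → ℕ => ∏ i, g i) G
    have h3 : G.card = P.card ^ l := by
      rw [hG, Fintype.card_piFinset_const]
    rw [← Nat.cast_sum, ← h2, h3, Nat.cast_pow]

theorem uc_fin (T : ℝ) (Q : ℤ → Prop) : {k : ℤ | |(k : ℝ)| ≤ T + 1 ∧ Q k}.Finite := by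
  refine (Set.finite_Icc (-(⌈T + 1⌉)) (⌈T + 1⌉)).subset ?_
  intro k hk
  have h1 := abs_le.1 hk.1
  have h2 := Int.le_ceil (T + 1)
  constructor
  · have : (-(⌈T + 1⌉ : ℤ) : ℝ) ≤ k := by linarith
    exact_mod_cast this
  · have : (k : ℝ) ≤ (⌈T + 1⌉ : ℤ) := by linarith
    exact_mod_cast this

/-- The number of unit intervals on which a Dirichlet polynomial is large somewhere. -/
theorem uc_count (S : Finset ℕ) (N : ℕ) (hS : ∀ n ∈ S, 1 ≤ n ∧ n ≤ N) (c : ℕ → ℂ) (T A : ℝ) (hT : 1 ≤ T) :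
    (Set.ncard {k : ℤ | |(k : ℝ)| ≤ T + 1 ∧ ∃ t ∈ Set.Icc (k : ℝ) (k + 1), A < ‖∑ n ∈ S, c n * ph n t‖ ^ 2} : ℝ) * A ≤
      700 * (T + N) * (2 + (Real.log N) ^ 2) * ∑ n ∈ S, ‖c n‖ ^ 2 := by
  have hη : (0 : ℝ) < 1 / T := by positivity
  set η : ℝ := 1 / T with hηd
  set F : ℝ → ℂ := fun t => ∑ n ∈ S, c n * ph n t with hF
  set c' : ℕ → ℂ := fun n => c n * (-((Real.log n : ℝ) : ℂ) * Complex.I) with hc'
  set F' : ℝ → ℂ := fun t => ∑ n ∈ S, c' n * ph n t with hF'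
  have hder : ∀ t, HasDerivAt F (F' t) t := by
    intro t
    have h : HasDerivAt F (∑ n ∈ S, c n * (-((Real.log n : ℝ) : ℂ) * Complex.I * ph n t)) t :=
      HasDerivAt.fun_sum (u := S) (fun n (_ : n ∈ S) => (uc_ph_deriv n t).const_mul (c n))
    have h2 : F' t = ∑ n ∈ S, c n * (-((Real.log n : ℝ) : ℂ) * Complex.I * ph n t) := by
      rw [hF']
      refine Finset.sum_congr rfl fun n _ => ?_
      rw [hc']; ring
    rw [h2]; exact h
  have hFc : ∀ a : ℕ → ℂ, Continuous (fun t : ℝ => ∑ n ∈ S, a n * ph n t) := fun a =>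
    continuous_finsetSum _ fun n _ => continuous_const.mul (uc_ph_cont n)
  have hgc : Continuous (fun t : ℝ => gw η t) := by
    unfold gw; fun_prop
  have hint : ∀ a : ℕ → ℂ, Integrable (fun t : ℝ => ‖∑ n ∈ S, a n * ph n t‖ ^ 2 * gw η t) := by
    intro a
    have hg : Integrable (fun t : ℝ => gw η t) := by
      unfold gw
      have h0 : (0 : ℝ) < η ^ 2 / 2 := by positivity
      refine (integrable_exp_neg_mul_sq h0).congr (Filter.Eventually.of_forall fun t => ?_)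
      simp only
      congr 1; ring
    refine (hg.const_mul ((∑ n ∈ S, ‖a n‖) ^ 2)).mono' (((hFc a).norm.pow 2).mul hgc).aestronglyMeasurable
      (Filter.Eventually.of_forall fun t => ?_)
    have hg0 : 0 ≤ gw η t := (Real.exp_pos _).le
    rw [Real.norm_of_nonneg (by positivity)]
    refine mul_le_mul_of_nonneg_right ?_ hg0
    refine pow_le_pow_left₀ (norm_nonneg _) ?_ 2
    refine (norm_sum_le _ _).trans (Finset.sum_le_sum fun n _ => ?_)
    rw [norm_mul, uc_norm_ph, mul_one]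
  have hPhi : Integrable (fun t : ℝ => 100 * ((2 * ‖F t‖ ^ 2 + ‖F' t‖ ^ 2) * gw η t)) := by
    refine Integrable.const_mul ?_ 100
    refine (((hint c).const_mul 2).add (hint c')).congr (Filter.Eventually.of_forall fun t => ?_)
    simp only [Pi.add_apply]
    rw [hF, hF']; ring
  have hPhi0 : ∀ t, 0 ≤ 100 * ((2 * ‖F t‖ ^ 2 + ‖F' t‖ ^ 2) * gw η t) := fun t => by
    have : 0 ≤ gw η t := (Real.exp_pos _).le
    positivity
  set K : Set ℤ := {k : ℤ | |(k : ℝ)| ≤ T + 1 ∧ ∃ t ∈ Set.Icc (k : ℝ) (k + 1), A < ‖∑ n ∈ S, c n * ph n t‖ ^ 2}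
    with hK
  have hfin : K.Finite := uc_fin T _
  have hgw : ∀ t : ℝ, |t| ≤ T + 2 → 1 ≤ 100 * gw η t := by
    intro t ht
    have h1 : |η * t| ≤ 3 := by
      rw [hηd, abs_mul, abs_of_pos hη, div_mul_eq_mul_div, one_mul, div_le_iff₀ (by linarith)]
      linarith
    have h2 : (η * t) ^ 2 ≤ 9 := by
      rw [← sq_abs]; nlinarith [abs_nonneg (η * t)]
    have h3 : Real.exp (-(9 / 2)) ≤ gw η t := by
      unfold gw
      exact Real.exp_le_exp.2 (by linarith)
    have h4 : Real.exp (9 / 2) ≤ 100 := by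
      have h5 : Real.exp (9 / 2) ^ 2 ≤ 100 ^ 2 := by
        rw [← Real.exp_nat_mul]
        have : ((2 : ℕ) : ℝ) * (9 / 2) = ((9 : ℕ) : ℝ) * 1 := by norm_num
        rw [this, Real.exp_nat_mul]
        calc Real.exp 1 ^ 9 ≤ 2.7182818286 ^ 9 :=
              pow_le_pow_left₀ (Real.exp_pos _).le Real.exp_one_lt_d9.le 9
          _ ≤ 100 ^ 2 := by norm_num
      exact le_of_sq_le_sq h5 (by norm_num)
    have h6 : Real.exp (-(9 / 2)) * Real.exp (9 / 2) = 1 := by rw [← Real.exp_add]; norm_num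
    nlinarith [Real.exp_pos (-(9 / 2) : ℝ)]
  have hone : ∀ k ∈ K, A ≤ ∫ t in Set.Ioc (k : ℝ) (k + 1), 100 * ((2 * ‖F t‖ ^ 2 + ‖F' t‖ ^ 2) * gw η t) := by
    intro k hk
    obtain ⟨hk1, t, ht, hA1⟩ := hk
    refine hA1.le.trans ((uc_sob F F' hder (hFc c') (k : ℝ) t ht).trans ?_)
    rw [intervalIntegral.integral_of_le (by linarith)]
    refine setIntegral_mono_on ?_ hPhi.integrableOn measurableSet_Ioc ?_
    · exact (((continuous_const.mul ((hFc c).norm.pow 2)).add ((hFc c').norm.pow 2)).integrableOn_Icc).mono_set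
        Set.Ioc_subset_Icc_self
    · intro s hs
      have h1 : |s| ≤ T + 2 := by
        have := abs_le.1 hk1
        rw [abs_le]
        constructor <;> linarith [hs.1, hs.2]
      have h2 := hgw s h1
      have h3 : 0 ≤ 2 * ‖F s‖ ^ 2 + ‖F' s‖ ^ 2 := by positivity
      nlinarith
  have hsum : (∑ k ∈ hfin.toFinset, ∫ t in Set.Ioc (k : ℝ) (k + 1), 100 * ((2 * ‖F t‖ ^ 2 + ‖F' t‖ ^ 2) * gw η t)) ≤
      ∫ t : ℝ, 100 * ((2 * ‖F t‖ ^ 2 + ‖F' t‖ ^ 2) * gw η t) := by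
    rw [← integral_biUnion_finset hfin.toFinset (fun k _ => measurableSet_Ioc) ?_ (fun k _ => hPhi.integrableOn)]
    · exact setIntegral_le_integral hPhi (Filter.Eventually.of_forall hPhi0)
    · intro i _ j _ hij
      rw [Function.onFun, Set.disjoint_left]
      intro s hi hj
      rcases lt_or_gt_of_ne hij with h | h
      · have : (i : ℝ) + 1 ≤ j := by exact_mod_cast h
        linarith [hi.2, hj.1]
      · have : (j : ℝ) + 1 ≤ i := by exact_mod_cast h
        linarith [hj.2, hi.1]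
  have hcard : (K.ncard : ℝ) * A ≤ ∑ k ∈ hfin.toFinset,
      ∫ t in Set.Ioc (k : ℝ) (k + 1), 100 * ((2 * ‖F t‖ ^ 2 + ‖F' t‖ ^ 2) * gw η t) := by
    rw [Set.ncard_eq_toFinset_card K hfin, ← nsmul_eq_mul]
    exact Finset.card_nsmul_le_sum _ _ _ fun k hk => hone k (hfin.mem_toFinset.1 hk)
  have hI : ∫ t : ℝ, 100 * ((2 * ‖F t‖ ^ 2 + ‖F' t‖ ^ 2) * gw η t) =
      100 * (2 * (∫ t : ℝ, ‖∑ n ∈ S, c n * ph n t‖ ^ 2 * gw η t) +
        ∫ t : ℝ, ‖∑ n ∈ S, c' n * ph n t‖ ^ 2 * gw η t) := by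
    have e1 : (fun t : ℝ => 100 * ((2 * ‖F t‖ ^ 2 + ‖F' t‖ ^ 2) * gw η t)) =
        fun t : ℝ => 100 * (2 * (‖∑ n ∈ S, c n * ph n t‖ ^ 2 * gw η t) +
          ‖∑ n ∈ S, c' n * ph n t‖ ^ 2 * gw η t) := by
      funext t
      rw [hF, hF']; ring
    rw [e1, integral_const_mul, integral_add ((hint c).const_mul 2) (hint c'), integral_const_mul]
  have hm1 := gauss_mv S N hS c η hη
  have hm2 := gauss_mv S N hS c' η hη
  have hηi : 1 / η = T := by rw [hηd]; field_simp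
  rw [hηi] at hm1 hm2
  have hc2 : ∑ n ∈ S, ‖c' n‖ ^ 2 ≤ (Real.log N) ^ 2 * ∑ n ∈ S, ‖c n‖ ^ 2 := by
    rw [Finset.mul_sum]
    refine Finset.sum_le_sum fun n hn => ?_
    obtain ⟨h1, h2⟩ := hS n hn
    have h3 : ‖c' n‖ = ‖c n‖ * Real.log n := by
      rw [hc']
      simp only [norm_mul, norm_neg, Complex.norm_I, mul_one, Complex.norm_real]
      rw [Real.norm_of_nonneg (Real.log_nonneg (by exact_mod_cast h1))]
    rw [h3, mul_pow, mul_comm]
    refine mul_le_mul_of_nonneg_right ?_ (by positivity)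
    refine pow_le_pow_left₀ (Real.log_nonneg (by exact_mod_cast h1)) ?_ 2
    exact Real.log_le_log (by exact_mod_cast h1) (by exact_mod_cast h2)
  have hTN : 0 ≤ 7 * (T + N) := by positivity
  have hS0 : 0 ≤ ∑ n ∈ S, ‖c n‖ ^ 2 := Finset.sum_nonneg fun n _ => by positivity
  calc (K.ncard : ℝ) * A ≤ _ := hcard.trans hsum
    _ = _ := hI
    _ ≤ 100 * (2 * (7 * (T + N) * ∑ n ∈ S, ‖c n‖ ^ 2) + 7 * (T + N) * ((Real.log N) ^ 2 * ∑ n ∈ S, ‖c n‖ ^ 2)) := by
        have := mul_le_mul_of_nonneg_left hc2 hTN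
        nlinarith
    _ = 700 * (T + N) * (2 + (Real.log N) ^ 2) * ∑ n ∈ S, ‖c n‖ ^ 2 := by ring

end Pool.Agent.Lib.MP_3e612f_nt.MR
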