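import Pool.Agent.Lib.MP_3e612f_nt.MR.Gauss

/-! From the mean square of the Dirichlet polynomial to short intervals. -/

set_option autoImplicit false

namespace Pool.Agent.Lib.MP_3e612f_nt.MR

open Finset MeasureTheory

/-- the Gaussian bump at `L` of width `η` -/
private noncomputable def bump (η L u : ℝ) : ℝ := Real.exp (-(((u - L) / η) ^ 2))

private theorem bump_eq (η L : ℝ) (hη : 0 < η) :
    bump η L = fun u => (fun v => Real.exp (-(1 / η ^ 2) * v ^ 2)) (u - L) := by
  funext u
  simp only [bump]
  congr 1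
  field_simp

private theorem bump_pos (η L u : ℝ) : 0 < bump η L u := Real.exp_pos _

private theorem bump_le_one (η L u : ℝ) : bump η L u ≤ 1 := by
  rw [bump, Real.exp_le_one_iff, neg_nonpos]
  positivity

private theorem bump_cont (η L : ℝ) : Continuous (bump η L) := by
  unfold bump
  fun_prop

private theorem bump_int (η L : ℝ) (hη : 0 < η) : Integrable (bump η L) := by
  rw [bump_eq η L hη]
  exact (integrable_exp_neg_mul_sq (by positivity : (0 : ℝ) < 1 / η ^ 2)).comp_sub_right L

private theorem bump_total (η L : ℝ) (hη : 0 < η) :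
    ∫ u, bump η L u = η * Real.sqrt Real.pi := by
  rw [bump_eq η L hη, integral_sub_right_eq_self (fun v => Real.exp (-(1 / η ^ 2) * v ^ 2)) L,
    integral_gaussian]
  have h1 : Real.pi / (1 / η ^ 2) = η ^ 2 * Real.pi := by field_simp
  rw [h1, Real.sqrt_mul (by positivity), Real.sqrt_sq hη.le]

private theorem bump_set (η L A : ℝ) (hη : 0 < η) (E : Set ℝ) (hE : MeasurableSet E)
    (h : ∀ u ∈ E, (u - A) ^ 2 + (A - L) ^ 2 ≤ (u - L) ^ 2) :
    ∫ u in E, bump η L u ≤ bump η L A * (η * Real.sqrt Real.pi) := by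
  have h1 : ∀ u ∈ E, bump η L u ≤ bump η L A * bump η A u := by
    intro u hu
    rw [bump, bump, bump, ← Real.exp_add, Real.exp_le_exp, div_pow, div_pow, div_pow, ← neg_add,
      neg_le_neg_iff, ← add_div]
    have := h u hu
    gcongr
    linarith
  calc ∫ u in E, bump η L u ≤ ∫ u in E, bump η L A * bump η A u :=
        setIntegral_mono_on (bump_int η L hη).integrableOn
          ((bump_int η A hη).const_mul _).integrableOn hE h1
    _ ≤ ∫ u, bump η L A * bump η A u :=
        setIntegral_le_integral ((bump_int η A hη).const_mul _)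
          (Filter.Eventually.of_forall fun u => by
            have := bump_pos η L A
            have := bump_pos η A u
            positivity)
    _ = _ := by rw [integral_const_mul, bump_total η A hη]

/-- the normalised mass of an interval differs from the indicator function by two bumps -/
private theorem mass (η L A B : ℝ) (hη : 0 < η) (hAB : A ≤ B) :
    |(if A < L ∧ L ≤ B then 1 else 0) - 1 / (η * Real.sqrt Real.pi) * ∫ u in A..B, bump η L u| ≤
      bump η L A + bump η L B := by
  have hπ : 0 < Real.sqrt Real.pi := Real.sqrt_pos.2 Real.pi_pos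
  have hc : 0 < η * Real.sqrt Real.pi := by positivity
  have hA := bump_pos η L A
  have hB := bump_pos η L B
  rw [intervalIntegral.integral_of_le hAB]
  have hnn : 0 ≤ ∫ u in Set.Ioc A B, bump η L u :=
    setIntegral_nonneg measurableSet_Ioc fun u _ => (bump_pos η L u).le
  split_ifs with hL
  · have h1 : (∫ u in Set.Ioc A B, bump η L u) + (∫ u in (Set.Ioc A B)ᶜ, bump η L u) =
        η * Real.sqrt Real.pi := by
      rw [integral_add_compl measurableSet_Ioc (bump_int η L hη), bump_total η L hη]
    have h2 : (Set.Ioc A B)ᶜ = Set.Iic A ∪ Set.Ioi B := by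
      ext u
      simp only [Set.mem_compl_iff, Set.mem_Ioc, Set.mem_union, Set.mem_Iic, Set.mem_Ioi, not_and_or,
        not_lt, not_le]
    have h3 : ∫ u in (Set.Ioc A B)ᶜ, bump η L u =
        (∫ u in Set.Iic A, bump η L u) + ∫ u in Set.Ioi B, bump η L u := by
      rw [h2]
      refine setIntegral_union ?_ measurableSet_Ioi (bump_int η L hη).integrableOn
        (bump_int η L hη).integrableOn
      rw [Set.disjoint_left]
      intro u hu hu'
      simp only [Set.mem_Iic, Set.mem_Ioi] at hu hu'
      linarith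
    have h4 := bump_set η L A hη (Set.Iic A) measurableSet_Iic (fun u hu => by
      simp only [Set.mem_Iic] at hu
      nlinarith [mul_nonneg (sub_nonneg.2 hu) (sub_nonneg.2 hL.1.le)])
    have h5 := bump_set η L B hη (Set.Ioi B) measurableSet_Ioi (fun u hu => by
      simp only [Set.mem_Ioi] at hu
      nlinarith [mul_nonneg (sub_nonneg.2 hu.le) (sub_nonneg.2 hL.2)])
    have hnn' : 0 ≤ ∫ u in (Set.Ioc A B)ᶜ, bump η L u :=
      setIntegral_nonneg measurableSet_Ioc.compl fun u _ => (bump_pos η L u).le
    have h6 : 1 - 1 / (η * Real.sqrt Real.pi) * ∫ u in Set.Ioc A B, bump η L u =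
        1 / (η * Real.sqrt Real.pi) * ∫ u in (Set.Ioc A B)ᶜ, bump η L u := by
      field_simp
      linarith
    rw [h6, abs_of_nonneg (by positivity), one_div, inv_mul_le_iff₀ hc]
    nlinarith
  · rw [zero_sub, abs_neg, abs_of_nonneg (by positivity), one_div, inv_mul_le_iff₀ hc]
    rw [not_and_or, not_lt, not_le] at hL
    rcases hL with hL | hL
    · have h4 := bump_set η L A hη (Set.Ioc A B) measurableSet_Ioc (fun u hu => by
        simp only [Set.mem_Ioc] at hu
        nlinarith [mul_nonneg (sub_nonneg.2 hu.1.le) (sub_nonneg.2 hL)])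
      nlinarith
    · have h4 := bump_set η L B hη (Set.Ioc A B) measurableSet_Ioc (fun u hu => by
        simp only [Set.mem_Ioc] at hu
        nlinarith [mul_nonneg (sub_nonneg.2 hu.2) (sub_nonneg.2 hL.le)])
      nlinarith

/-- distances of logarithms -/
private theorem log_dist (N a b : ℝ) (ha : 0 < a) (hb : 0 < b) (haN : a ≤ N) (hbN : b ≤ N) :
    |a - b| / N ≤ |Real.log a - Real.log b| := by
  have key : ∀ a b : ℝ, 0 < a → 0 < b → a ≤ N → b ≤ a → |a - b| / N ≤ |Real.log a - Real.log b| := by
    intro a b ha hb haN hab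
    have h1 := Real.one_sub_inv_le_log_of_pos (div_pos ha hb)
    rw [Real.log_div ha.ne' hb.ne', inv_div] at h1
    have h2 : 0 ≤ Real.log a - Real.log b := by
      have := Real.log_le_log hb hab
      linarith
    rw [abs_of_nonneg h2, abs_of_nonneg (sub_nonneg.2 hab)]
    have h3 : (a - b) / a = 1 - b / a := by field_simp
    calc (a - b) / N ≤ (a - b) / a := by
          apply div_le_div_of_nonneg_left (by linarith) ha haN
      _ ≤ _ := by rw [h3]; exact h1
  rcases le_total b a with h | h
  · exact key a b ha hb haN h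
  · rw [abs_sub_comm a b, abs_sub_comm (Real.log a)]
    exact key b a hb ha hbN h

private theorem geo (T : ℝ) (hT : 1 ≤ T) (y : ℕ) (S : Finset ℕ) :
    ∑ n ∈ S, Real.exp (-((((n : ℝ) - y) / T) ^ 2)) ≤ 8 * T := by
  set r : ℝ := Real.exp (-(1 / T)) with hr
  have hr0 : 0 < r := Real.exp_pos _
  have hr1 : r < 1 := by
    rw [hr, Real.exp_lt_one_iff, neg_lt_zero]
    positivity
  have hsum : Summable (fun j : ℕ => r ^ j) := summable_geometric_of_lt_one hr0.le hr1
  have htsum : ∑' j : ℕ, r ^ j ≤ 2 * T := by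
    rw [tsum_geometric_of_lt_one hr0.le hr1]
    have h1 : r ≤ 1 / (1 + 1 / T) := by
      rw [hr, Real.exp_neg, ← one_div]
      apply one_div_le_one_div_of_le (by positivity)
      have := Real.add_one_le_exp (1 / T)
      linarith
    have h2 : 1 - 1 / (1 + 1 / T) = 1 / (T + 1) := by
      field_simp
      ring
    have h3 : 1 / (T + 1) ≤ 1 - r := by linarith
    calc (1 - r)⁻¹ ≤ (1 / (T + 1))⁻¹ := inv_anti₀ (by positivity) h3
      _ = T + 1 := by rw [one_div, inv_inv]
      _ ≤ 2 * T := by linarith
  have hterm : ∀ j : ℕ, Real.exp (-(((j : ℝ) / T) ^ 2)) ≤ 2 * r ^ j := by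
    intro j
    have h1 : r ^ j = Real.exp (-((j : ℝ) / T)) := by
      rw [hr, ← Real.exp_nat_mul]
      congr 1
      ring
    have h2 : Real.exp (-(((j : ℝ) / T) ^ 2)) ≤ Real.exp (1 / 4) * Real.exp (-((j : ℝ) / T)) := by
      rw [← Real.exp_add, Real.exp_le_exp]
      nlinarith [sq_nonneg ((j : ℝ) / T - 1 / 2)]
    have h3 : Real.exp (1 / 4) ≤ 2 := by
      have h4 : Real.exp (1 / 4) ≤ 1 / (1 - 1 / 4) := by
        have := Real.add_one_le_exp (-(1 / 4 : ℝ))
        rw [Real.exp_neg] at this
        have h5 := Real.exp_pos (1 / 4 : ℝ)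
        rw [le_div_iff₀ (by norm_num)]
        have h6 : (Real.exp (1 / 4))⁻¹ * Real.exp (1 / 4) = 1 := inv_mul_cancel₀ h5.ne'
        nlinarith
      linarith
    rw [h1]
    calc _ ≤ _ := h2
      _ ≤ _ := by gcongr
  have hside : ∀ (P : Finset ℕ) (e : ℕ → ℕ), (∀ n ∈ P, ∀ n' ∈ P, e n = e n' → n = n') →
      (∀ n ∈ P, (((n : ℝ) - y) / T) ^ 2 = ((e n : ℝ) / T) ^ 2) →
      ∑ n ∈ P, Real.exp (-((((n : ℝ) - y) / T) ^ 2)) ≤ 4 * T := by
    intro P e he hv
    calc ∑ n ∈ P, Real.exp (-((((n : ℝ) - y) / T) ^ 2)) ≤ ∑ n ∈ P, 2 * r ^ (e n) := by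
          apply Finset.sum_le_sum
          intro n hn
          rw [hv n hn]
          exact hterm _
      _ = 2 * ∑ j ∈ P.image e, r ^ j := by
          rw [Finset.mul_sum, Finset.sum_image (fun n hn n' hn' h => he n hn n' hn' h)]
      _ ≤ 2 * ∑' j : ℕ, r ^ j := by
          gcongr
          exact hsum.sum_le_tsum _ (fun j _ => by positivity)
      _ ≤ 4 * T := by linarith
  rw [← Finset.sum_filter_add_sum_filter_not S (fun n => y ≤ n)]
  have h1 := hside (S.filter (fun n => y ≤ n)) (fun n => n - y) (by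
    intro n hn n' hn' h
    simp only [Finset.mem_filter] at hn hn'
    have : n - y = n' - y := h
    omega) (by
    intro n hn
    simp only [Finset.mem_filter] at hn
    rw [Nat.cast_sub hn.2])
  have h2 := hside (S.filter (fun n => ¬ y ≤ n)) (fun n => y - n) (by
    intro n hn n' hn' h
    simp only [Finset.mem_filter] at hn hn'
    have : y - n = y - n' := h
    omega) (by
    intro n hn
    simp only [Finset.mem_filter, not_le] at hn
    rw [Nat.cast_sub hn.2.le]
    ring)
  linarith

private theorem bump_sum (X h : ℕ) (hX : 1 ≤ X) (hh : 1 ≤ h) (y : ℕ) (hy : 1 ≤ y)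
    (hyX : y ≤ 21 * X) :
    ∑ n ∈ Icc 1 (21 * X), bump (h / X) (Real.log n) (Real.log y) ≤ 168 * h := by
  have hX' : (0 : ℝ) < X := by exact_mod_cast hX
  have hh' : (1 : ℝ) ≤ h := by exact_mod_cast hh
  have h1 : ∀ n ∈ Icc 1 (21 * X), bump (h / X) (Real.log n) (Real.log y) ≤
      Real.exp (-((((n : ℝ) - y) / (21 * h)) ^ 2)) := by
    intro n hn
    rw [Finset.mem_Icc] at hn
    rw [bump, Real.exp_le_exp, neg_le_neg_iff, ← sq_abs, ← sq_abs ((Real.log y - Real.log n) / _)]
    apply pow_le_pow_left₀ (abs_nonneg _)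
    have hn1 : (0 : ℝ) < n := by
      have : 0 < n := by omega
      exact_mod_cast this
    have hy1 : (0 : ℝ) < y := by
      have : 0 < y := by omega
      exact_mod_cast this
    have h2 := log_dist (21 * X) y n hy1 hn1 (by exact_mod_cast hyX) (by exact_mod_cast hn.2)
    rw [abs_div, abs_div, abs_of_pos (by positivity : (0 : ℝ) < 21 * h),
      abs_of_pos (by positivity : (0 : ℝ) < h / X), abs_sub_comm (n : ℝ)]
    rw [div_le_div_iff₀ (by positivity) (by positivity)]
    rw [div_le_iff₀ (by positivity)] at h2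
    calc |(y : ℝ) - n| * (h / X) ≤ (|Real.log y - Real.log n| * (21 * X)) * (h / X) := by gcongr
      _ = _ := by field_simp
  calc _ ≤ ∑ n ∈ Icc 1 (21 * X), Real.exp (-((((n : ℝ) - y) / (21 * h)) ^ 2)) :=
        Finset.sum_le_sum h1
    _ ≤ 8 * (21 * h) := geo (21 * h) (by linarith) y _
    _ = _ := by ring

/-- Cauchy-Schwarz on an interval of length at most one -/
private theorem cs_one (g : ℝ → ℝ) (hg : Continuous g) (hi : Integrable (fun u => g u ^ 2))
    (a b : ℝ) (hab : a ≤ b) (hba : b - a ≤ 1) :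
    ∫ u in a..b, |g u| ≤ Real.sqrt (∫ u, g u ^ 2) := by
  have hG : 0 ≤ ∫ u, g u ^ 2 := integral_nonneg fun u => sq_nonneg _
  have key : ∀ l : ℝ, 0 < l → ∫ u in a..b, |g u| ≤ l / 2 + (∫ u, g u ^ 2) / (2 * l) := by
    intro l hl
    have h1 : ∫ u in a..b, |g u| ≤ ∫ u in a..b, (l / 2 + g u ^ 2 / (2 * l)) := by
      apply intervalIntegral.integral_mono_on hab (hg.abs.intervalIntegrable _ _)
      · exact Continuous.intervalIntegrable (by fun_prop) _ _
      intro u _
      have h2 : l / 2 + g u ^ 2 / (2 * l) - |g u| = (|g u| - l) ^ 2 / (2 * l) := by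
        rw [← sq_abs (g u)]
        field_simp
        ring
      have h3 : 0 ≤ (|g u| - l) ^ 2 / (2 * l) := by positivity
      linarith
    have h4 : ∫ u in a..b, (l / 2 + g u ^ 2 / (2 * l)) =
        (b - a) * (l / 2) + ∫ u in a..b, g u ^ 2 / (2 * l) := by
      rw [intervalIntegral.integral_add (by simp)
        (Continuous.intervalIntegrable (by fun_prop) _ _), intervalIntegral.integral_const,
        smul_eq_mul]
    have h5 : ∫ u in a..b, g u ^ 2 / (2 * l) ≤ (∫ u, g u ^ 2) / (2 * l) := by
      rw [intervalIntegral.integral_of_le hab, ← integral_div]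
      exact setIntegral_le_integral (hi.div_const _)
        (Filter.Eventually.of_forall fun u => by
          show 0 ≤ g u ^ 2 / (2 * l)
          positivity)
    have h6 : (b - a) * (l / 2) ≤ l / 2 := by nlinarith
    linarith
  rcases hG.eq_or_lt with h0 | h0
  · rw [← h0, Real.sqrt_zero]
    apply le_of_forall_pos_le_add
    intro ε hε
    have := key ε hε
    rw [← h0, zero_div] at this
    linarith
  · have h1 := key _ (Real.sqrt_pos.2 h0)
    have h2 : Real.sqrt (∫ u, g u ^ 2) * Real.sqrt (∫ u, g u ^ 2) = ∫ u, g u ^ 2 :=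
      Real.mul_self_sqrt h0.le
    have h3 : (∫ u, g u ^ 2) / (2 * Real.sqrt (∫ u, g u ^ 2)) = Real.sqrt (∫ u, g u ^ 2) / 2 := by
      have h4 := Real.sqrt_pos.2 h0
      rw [div_eq_div_iff (by positivity) (by norm_num)]
      nlinarith
    rw [h3] at h1
    linarith

/-- Proof. Put `η = h/X`, `a n = c n ψ(log (n/X))`, `g(u) = ∑ a n exp(-((u - log n)/η)^2)`. By `planch`
`∫ g^2 = (η^2/2) ∫ |∑ a n n^{-it}|^2 gw η`. For an integer `x` in `(X, 2X]` compare `∑_{n ∈ (x, x+h']} c n`
with `(1/(η√π)) ∫_x^{x+h'} g(log x') dx'/x'`: the coefficient of `a n` in the latter is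
`(1/(η√π)) ∫_{log x}^{log (x+h')} exp(-((u - log n)/η)^2) du ∈ [0,1]`, and it differs from the indicator function of
`(x, x+h']` by at most `exp(-(dist/η)^2)` where `dist` is the distance of `log n` to `{log x, log (x+h')}`
(Gaussian tail `(1/√π)∫_s^∞ e^{-v^2} dv ≤ e^{-s^2}`), and `|log n - log x| ≥ |n - x|/(21 X)` for `n ≤ 21X`, so
`dist/η ≥ |n - x|/(21 h)` resp. `|n - x - h'|/(21 h)`; the sum over `n` is at most `C h`. For `n ∈ (x, x+h'] ⊆ (X, 3X]`
one has `ψ(log(n/X)) = 1` and `n ≤ 21X`. Finally the sum over `x` of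
`(1/(η√π)) ∫_x^{x+h'} |g(log x')| dx'/x'` is at most `(1/(η√π)) (h'+1) ∫_{log X}^{log 3X} |g(u)| du` and
Cauchy-Schwarz gives `(2h'/(η√π)) √(log 3) (∫ g^2)^{1/2} = C h' (∫ |∑ a n n^{-it}|^2 gw η)^{1/2}`. -/
theorem win : ∃ C : ℝ, 0 < C ∧ ∀ c : ℕ → ℝ, (∀ n, |c n| ≤ 1) → ∀ X h h' : ℕ, 1 ≤ h → h ≤ h' → h' ≤ X →
    ∑ x ∈ Ioc X (2 * X), |∑ n ∈ Ioc x (x + h'), c n| ≤ C * (X * h) +
      C * (h' * X) * Real.sqrt (∫ t : ℝ, ‖((1 / (X : ℝ) : ℝ) : ℂ) * ∑ n ∈ Icc 1 ⌊21 * (X : ℝ)⌋₊,
        ((c n * psi (Real.log n - Real.log X) : ℝ) : ℂ) * ph n t‖ ^ 2 * gw (h / X) t) := by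
  refine ⟨336, by norm_num, ?_⟩
  intro c hc X h h' hh hhh' hh'X
  have hX : 1 ≤ X := by omega
  have hXR : (0 : ℝ) < X := by exact_mod_cast hX
  have hhR : (0 : ℝ) < h := by exact_mod_cast hh
  have hfl : ⌊21 * (X : ℝ)⌋₊ = 21 * X := by
    have : (21 * (X : ℝ)) = ((21 * X : ℕ) : ℝ) := by push_cast; ring
    rw [this, Nat.floor_natCast]
  rw [hfl]
  set η : ℝ := h / X with hη
  have hη0 : 0 < η := by positivity
  set S : Finset ℕ := Icc 1 (21 * X) with hS
  set a : ℕ → ℝ := fun n => c n * psi (Real.log n - Real.log X) with ha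
  have hpsi0 : ∀ v, 0 ≤ psi v := fun v => le_max_left _ _
  have hpsi1 : ∀ v, psi v ≤ 1 := fun v => max_le zero_le_one (min_le_left _ _)
  have ha1 : ∀ n, |a n| ≤ 1 := by
    intro n
    rw [ha]
    simp only
    rw [abs_mul, abs_of_nonneg (hpsi0 _)]
    exact mul_le_one₀ (hc n) (hpsi0 _) (hpsi1 _)
  set g : ℝ → ℝ := fun u => ∑ n ∈ S, a n * bump η (Real.log n) u with hg
  have hgc : Continuous g := by
    rw [hg]
    exact continuous_finsetSum _ fun n _ => continuous_const.mul (bump_cont _ _)
  have hgi : Integrable g := by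
    rw [hg]
    exact integrable_finsetSum _ fun n _ => (bump_int _ _ hη0).const_mul _
  have hgb : ∀ u, |g u| ≤ S.card := by
    intro u
    calc |g u| ≤ ∑ n ∈ S, |a n * bump η (Real.log n) u| := Finset.abs_sum_le_sum_abs _ _
      _ ≤ ∑ n ∈ S, (1 : ℝ) := by
          apply Finset.sum_le_sum
          intro n _
          rw [abs_mul, abs_of_pos (bump_pos _ _ _)]
          exact mul_le_one₀ (ha1 n) (bump_pos _ _ _).le (bump_le_one _ _ _)
      _ = S.card := by simp
  have hg2 : Integrable (fun u => g u ^ 2) := by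
    have h1 : Integrable (fun u => (S.card : ℝ) * |g u|) := hgi.abs.const_mul _
    refine h1.mono' (by fun_prop) (Filter.Eventually.of_forall fun u => ?_)
    rw [Real.norm_eq_abs, abs_pow, sq]
    exact mul_le_mul_of_nonneg_right (hgb u) (abs_nonneg _)
  -- Plancherel
  set I2 : ℝ := ∫ t : ℝ, ‖((1 / (X : ℝ) : ℝ) : ℂ) * ∑ n ∈ S, ((a n : ℝ) : ℂ) * ph n t‖ ^ 2 * gw η t
    with hI2
  have hpl : ∫ u, g u ^ 2 = (η * X) ^ 2 / 2 * I2 := by
    set b : ℕ → ℂ := fun n => if n ∈ S then ((a n : ℝ) : ℂ) else 0 with hb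
    have hbs : Summable (fun n => ‖b n‖) := by
      apply summable_of_ne_finset_zero (s := S)
      intro n hn
      rw [hb]
      simp only
      rw [if_neg hn, norm_zero]
    have e1 : ∀ F : ℕ → ℂ, ∑' n, b n * F n = ∑ n ∈ S, ((a n : ℝ) : ℂ) * F n := by
      intro F
      rw [tsum_eq_sum (s := S)]
      · apply Finset.sum_congr rfl
        intro n hn
        rw [hb]
        simp only
        rw [if_pos hn]
      · intro n hn
        rw [hb]
        simp only
        rw [if_neg hn, zero_mul]
    have h1 := planch b hbs η hη0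
    simp only [e1] at h1
    have h2 : ∀ u : ℝ, ‖∑ n ∈ S, ((a n : ℝ) : ℂ) *
        ((Real.exp (-(((u - Real.log n) / η) ^ 2)) : ℝ) : ℂ)‖ ^ 2 = g u ^ 2 := by
      intro u
      have h3 : ∑ n ∈ S, ((a n : ℝ) : ℂ) *
          ((Real.exp (-(((u - Real.log n) / η) ^ 2)) : ℝ) : ℂ) = ((g u : ℝ) : ℂ) := by
        rw [hg]
        simp only [Complex.ofReal_sum, Complex.ofReal_mul, bump]
      rw [h3, Complex.norm_real, Real.norm_eq_abs, sq_abs]
    simp only [h2] at h1
    rw [h1]
    have h4 : I2 = (1 / (X : ℝ)) ^ 2 * ∫ t : ℝ, ‖∑ n ∈ S, ((a n : ℝ) : ℂ) * ph n t‖ ^ 2 * gw η t := by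
      rw [hI2, ← integral_const_mul]
      congr 1
      funext t
      rw [norm_mul, Complex.norm_real, Real.norm_eq_abs, mul_pow, sq_abs, mul_assoc]
    rw [h4]
    field_simp
  have hI2nn : 0 ≤ I2 := by
    rw [hI2]
    apply integral_nonneg
    intro t
    have : 0 < gw η t := Real.exp_pos _
    positivity
  have hπ : 1 ≤ Real.sqrt Real.pi := by
    rw [Real.one_le_sqrt]
    linarith [Real.pi_gt_three]
  have hsq : Real.sqrt (∫ u, g u ^ 2) ≤ η * X * Real.sqrt I2 := by
    rw [hpl]
    calc Real.sqrt ((η * X) ^ 2 / 2 * I2) ≤ Real.sqrt ((η * X) ^ 2 * I2) := by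
          apply Real.sqrt_le_sqrt
          have : 0 ≤ (η * X) ^ 2 := sq_nonneg _
          nlinarith [mul_nonneg this hI2nn]
      _ = _ := by rw [Real.sqrt_mul (sq_nonneg _), Real.sqrt_sq (by positivity)]
  -- the smoothed sums
  set J : ℕ → ℝ := fun x => 1 / (η * Real.sqrt Real.pi) *
    ∫ u in (Real.log x)..(Real.log (x + h' : ℕ)), g u with hJ
  have hcmp : ∀ x ∈ Ioc X (2 * X), |∑ n ∈ Ioc x (x + h'), c n| ≤ |J x| + 336 * h := by
    intro x hx
    rw [Finset.mem_Ioc] at hx
    have hxR : (0 : ℝ) < x := by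
      have : 0 < x := by omega
      exact_mod_cast this
    have hAB : Real.log x ≤ Real.log (x + h' : ℕ) := by
      apply Real.log_le_log hxR
      exact_mod_cast Nat.le_add_right x h'
    have e1 : ∑ n ∈ Ioc x (x + h'), c n =
        ∑ n ∈ S, a n * (if Real.log x < Real.log n ∧ Real.log n ≤ Real.log (x + h' : ℕ)
          then 1 else 0) := by
      have h1 : ∀ n ∈ S, (Real.log x < Real.log n ∧ Real.log n ≤ Real.log (x + h' : ℕ)) ↔
          n ∈ Ioc x (x + h') := by
        intro n hn
        rw [hS, Finset.mem_Icc] at hn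
        have hnR : (0 : ℝ) < n := by
          have : 0 < n := by omega
          exact_mod_cast this
        have hxh : (0 : ℝ) < (x + h' : ℕ) := by
          have : 0 < x + h' := by omega
          exact_mod_cast this
        rw [Real.log_lt_log_iff hxR hnR, Real.log_le_log_iff hnR hxh, Finset.mem_Ioc, Nat.cast_lt,
          Nat.cast_le]
      have h2 : Ioc x (x + h') ⊆ S := by
        intro n hn
        rw [Finset.mem_Ioc] at hn
        rw [hS, Finset.mem_Icc]
        omega
      rw [← Finset.sum_subset h2]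
      · apply Finset.sum_congr rfl
        intro n hn
        rw [if_pos ((h1 n (h2 hn)).2 hn), mul_one]
        have h3 : psi (Real.log n - Real.log X) = 1 := by
          rw [Finset.mem_Ioc] at hn
          have h4 : (X : ℝ) ≤ n := by
            have : X ≤ n := by omega
            exact_mod_cast this
          have h5 : (n : ℝ) ≤ 3 * X := by
            have : n ≤ 3 * X := by omega
            exact_mod_cast this
          have h6 : 0 ≤ Real.log n - Real.log X := by
            have := Real.log_le_log hXR h4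
            linarith
          have h7 : Real.log n - Real.log X ≤ 2 := by
            have h8 := Real.log_le_log (lt_of_lt_of_le hXR h4) h5
            rw [Real.log_mul (by norm_num) hXR.ne'] at h8
            have h9 : Real.log 3 ≤ 2 := by
              have := Real.log_le_sub_one_of_pos (by norm_num : (0 : ℝ) < 3)
              linarith
            linarith
          rw [psi, abs_of_nonneg h6, min_eq_left (by linarith), max_eq_right zero_le_one]
        rw [ha]
        simp only
        rw [h3, mul_one]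
      · intro n hn hn'
        rw [if_neg (fun h3 => hn' ((h1 n hn).1 h3)), mul_zero]
    have e2 : J x = ∑ n ∈ S, a n * (1 / (η * Real.sqrt Real.pi) *
        ∫ u in (Real.log x)..(Real.log (x + h' : ℕ)), bump η (Real.log n) u) := by
      rw [hJ]
      simp only
      rw [hg, intervalIntegral.integral_finsetSum]
      · rw [Finset.mul_sum]
        apply Finset.sum_congr rfl
        intro n _
        rw [intervalIntegral.integral_const_mul]
        ring
      · intro n _
        exact (continuous_const.mul (bump_cont _ _)).intervalIntegrable _ _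
    have e3 : |∑ n ∈ Ioc x (x + h'), c n - J x| ≤ 336 * h := by
      rw [e1, e2, ← Finset.sum_sub_distrib]
      calc _ ≤ ∑ n ∈ S, |a n * (if Real.log x < Real.log n ∧ Real.log n ≤ Real.log (x + h' : ℕ)
          then 1 else 0) - a n * (1 / (η * Real.sqrt Real.pi) *
          ∫ u in (Real.log x)..(Real.log (x + h' : ℕ)), bump η (Real.log n) u)| :=
            Finset.abs_sum_le_sum_abs _ _
        _ ≤ ∑ n ∈ S, (bump η (Real.log n) (Real.log x) +
            bump η (Real.log n) (Real.log (x + h' : ℕ))) := by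
            apply Finset.sum_le_sum
            intro n _
            rw [← mul_sub, abs_mul]
            have h1 := mass η (Real.log n) (Real.log x) (Real.log (x + h' : ℕ)) hη0 hAB
            calc _ ≤ 1 * _ := mul_le_mul_of_nonneg_right (ha1 n) (abs_nonneg _)
              _ = _ := one_mul _
              _ ≤ _ := h1
        _ ≤ 168 * h + 168 * h := by
            rw [Finset.sum_add_distrib]
            exact add_le_add (bump_sum X h hX hh x (by omega) (by omega))
              (bump_sum X h hX hh (x + h') (by omega) (by omega))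
        _ = _ := by ring
    have e4 := abs_sub_abs_le_abs_sub (∑ n ∈ Ioc x (x + h'), c n) (J x)
    linarith
  -- the sum of the integrals
  have hJs : ∑ x ∈ Ioc X (2 * X), |J x| ≤ h' * X * Real.sqrt I2 := by
    have hlogm : ∀ m n : ℕ, 0 < m → m ≤ n → Real.log m ≤ Real.log n := by
      intro m n hm hmn
      apply Real.log_le_log
      · exact_mod_cast hm
      · exact_mod_cast hmn
    have h1 : ∀ x ∈ Ioc X (2 * X), |J x| ≤ 1 / (η * Real.sqrt Real.pi) *
        ∑ j ∈ range h', ∫ u in (Real.log (x + j : ℕ))..(Real.log (x + (j + 1) : ℕ)), |g u| := by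
      intro x hx
      rw [Finset.mem_Ioc] at hx
      rw [hJ]
      simp only
      rw [abs_mul, abs_of_pos (by positivity)]
      apply mul_le_mul_of_nonneg_left _ (by positivity)
      have h2 := intervalIntegral.sum_integral_adjacent_intervals (f := fun u => |g u|)
        (μ := volume) (a := fun j : ℕ => Real.log (x + j : ℕ)) (n := h')
        (fun k _ => hgc.abs.intervalIntegrable _ _)
      rw [h2]
      simp only [Nat.add_zero]
      exact intervalIntegral.abs_integral_le_integral_abs (hlogm _ _ (by omega) (by omega))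
    calc ∑ x ∈ Ioc X (2 * X), |J x| ≤ ∑ x ∈ Ioc X (2 * X), 1 / (η * Real.sqrt Real.pi) *
        ∑ j ∈ range h', ∫ u in (Real.log (x + j : ℕ))..(Real.log (x + (j + 1) : ℕ)), |g u| :=
          Finset.sum_le_sum h1
      _ = 1 / (η * Real.sqrt Real.pi) * ∑ j ∈ range h', ∑ x ∈ Ioc X (2 * X),
          ∫ u in (Real.log (x + j : ℕ))..(Real.log (x + (j + 1) : ℕ)), |g u| := by
          rw [← Finset.mul_sum, Finset.sum_comm]
      _ ≤ 1 / (η * Real.sqrt Real.pi) * ∑ j ∈ range h', Real.sqrt (∫ u, g u ^ 2) := by
          apply mul_le_mul_of_nonneg_left _ (by positivity)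
          apply Finset.sum_le_sum
          intro j hj
          rw [Finset.mem_range] at hj
          have h2 : ∑ x ∈ Ioc X (2 * X),
              ∫ u in (Real.log (x + j : ℕ))..(Real.log (x + (j + 1) : ℕ)), |g u| =
              ∑ i ∈ range X, ∫ u in (Real.log (X + 1 + j + i : ℕ))..(Real.log (X + 1 + j + (i + 1) : ℕ)),
                |g u| := by
            have h3 : Ioc X (2 * X) = (range X).image (fun i => X + 1 + i) := by
              ext x
              simp only [Finset.mem_Ioc, Finset.mem_image, Finset.mem_range]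
              constructor
              · intro hx
                exact ⟨x - (X + 1), by omega, by omega⟩
              · rintro ⟨i, hi, rfl⟩
                omega
            rw [h3, Finset.sum_image (fun i _ i' _ h4 => by
              have : X + 1 + i = X + 1 + i' := h4
              omega)]
            apply Finset.sum_congr rfl
            intro i _
            have e5 : X + 1 + i + j = X + 1 + j + i := by ring
            have e6 : X + 1 + i + (j + 1) = X + 1 + j + (i + 1) := by ring
            rw [e5, e6]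
          rw [h2]
          have h4 := intervalIntegral.sum_integral_adjacent_intervals (f := fun u => |g u|)
            (μ := volume) (a := fun i : ℕ => Real.log (X + 1 + j + i : ℕ)) (n := X)
            (fun k _ => hgc.abs.intervalIntegrable _ _)
          rw [h4]
          apply cs_one g hgc hg2
          · exact hlogm _ _ (by omega) (by omega)
          · have h5 : (0 : ℝ) < (X + 1 + j + 0 : ℕ) := by
              have : 0 < X + 1 + j + 0 := by omega
              exact_mod_cast this
            have h6 : ((X + 1 + j + X : ℕ) : ℝ) ≤ 2 * (X + 1 + j + 0 : ℕ) := by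
              have : X + 1 + j + X ≤ 2 * (X + 1 + j + 0) := by omega
              exact_mod_cast this
            have h7 := Real.log_le_log (by
              have : 0 < X + 1 + j + X := by omega
              exact_mod_cast this) h6
            rw [Real.log_mul (by norm_num) h5.ne'] at h7
            have h8 := Real.log_two_lt_d9
            linarith
      _ ≤ 1 / (η * Real.sqrt Real.pi) * (h' * (η * X * Real.sqrt I2)) := by
          rw [Finset.sum_const, Finset.card_range, nsmul_eq_mul]
          gcongr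
      _ = (h' * X * Real.sqrt I2) / Real.sqrt Real.pi := by
          field_simp
      _ ≤ _ := div_le_self (by positivity) hπ
  calc ∑ x ∈ Ioc X (2 * X), |∑ n ∈ Ioc x (x + h'), c n| ≤
      ∑ x ∈ Ioc X (2 * X), (|J x| + 336 * h) := Finset.sum_le_sum hcmp
    _ = ∑ x ∈ Ioc X (2 * X), |J x| + X * (336 * h) := by
        rw [Finset.sum_add_distrib, Finset.sum_const, Nat.card_Ioc, nsmul_eq_mul]
        congr 3
        have : 2 * X - X = X := by omega
        rw [this]
    _ ≤ h' * X * Real.sqrt I2 + X * (336 * h) := by linarith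
    _ ≤ _ := by
        have h1 : 0 ≤ (h' : ℝ) * X * Real.sqrt I2 := by positivity
        nlinarith

end Pool.Agent.Lib.MP_3e612f_nt.MR
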