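import Pool.Agent.Lib.MP_3e612f_nt.MR.ZFG
import Pool.Agent.Lib.MP_3e612f_nt.MR.PMS

/-! The estimate for one character (for `ZF.lean`). -/

set_option autoImplicit false

namespace Pool.Agent.Lib.MP_3e612f_nt.MR

open Finset MeasureTheory

theorem zf_nat_sq (a κ : ℝ) (hκ : 0 < κ) : ∃ L : ℕ, 1 ≤ L ∧ a ≤ κ * (L : ℝ) ^ 2 := by
  obtain ⟨n, hn⟩ := exists_nat_gt (a / κ)
  refine ⟨n + 1, by omega, ?_⟩
  rw [div_lt_iff₀ hκ] at hn
  have h1 : (n : ℝ) ≤ ((n + 1 : ℕ) : ℝ) ^ 2 := by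
    push_cast
    have : (0 : ℝ) ≤ n := Nat.cast_nonneg n
    nlinarith
  calc a ≤ n * κ := hn.le
    _ = κ * n := by ring
    _ ≤ _ := mul_le_mul_of_nonneg_left h1 hκ.le

theorem zf_chi (m : ℕ) [NeZero m] (θ : ℝ) (hθ : 0 < θ) (H : ℕ) (hH : 1 ≤ H) (ε : ℝ) (hε : 0 < ε) :
    ∃ T₀ X₀ : ℝ, 1 ≤ T₀ ∧ ∀ X : ℝ, X₀ ≤ X → 1 ≤ Real.log X ∧ ∀ t : ℝ, T₀ ≤ |t| →
      |t| ≤ X ^ (11 / 10 : ℝ) → ∀ χ : DirichletCharacter ℂ m,
      ∑ v ∈ Ico ⌈θ * H * Real.log X⌉₊ ⌊(H : ℝ) * Real.log X⌋₊, ‖zfQ χ H v t‖ ^ 2 ≤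
        ε / Real.log X := by
  obtain ⟨C, hC, hcard⟩ := pw_card
  obtain ⟨Cw, hCw, hwt⟩ := zf_wt
  have hH' : (1 : ℝ) ≤ H := by exact_mod_cast hH
  have he : (0 : ℝ) < Real.exp 1 := Real.exp_pos 1
  obtain ⟨κ, hκd⟩ : ∃ κ : ℝ, κ = ε * θ ^ 2 / (9 * Real.exp 1 ^ 4) := ⟨_, rfl⟩
  have hκ : 0 < κ := by rw [hκd]; positivity
  obtain ⟨L, hL, hLC⟩ := zf_nat_sq (4 * C ^ 2) κ hκ
  obtain ⟨K, hK, hKC⟩ := zf_nat_sq (4 * Cw ^ 2) κ hκ
  have hL' : (1 : ℝ) ≤ L := by exact_mod_cast hL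
  have hK' : (1 : ℝ) ≤ K := by exact_mod_cast hK
  have hLH : 1 ≤ L * H := Nat.mul_pos hL hH
  have hJ : 1 ≤ K * (L * H) := Nat.mul_pos hK hLH
  have hJ' : (1 : ℝ) ≤ ((K * (L * H) : ℕ) : ℝ) := by exact_mod_cast hJ
  have hlam : (0 : ℝ) < 1 / ((K * (L * H) : ℕ) : ℝ) := by positivity
  have hlam1 : 1 / ((K * (L * H) : ℕ) : ℝ) ≤ 1 := by
    rw [div_le_one (by positivity)]; exact hJ'
  obtain ⟨δ₀, hδ₀, hpms⟩ := pms m (1 / ((K * (L * H) : ℕ) : ℝ)) κ hlam hlam1 hκ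
  obtain ⟨δ, hδd⟩ : ∃ δ : ℝ, δ = min δ₀ θ := ⟨_, rfl⟩
  have hδ : 0 < δ := by rw [hδd]; exact lt_min hδ₀ hθ
  have hδ1 : δ ≤ δ₀ := by rw [hδd]; exact min_le_left _ _
  have hδ2 : δ ≤ θ := by rw [hδd]; exact min_le_right _ _
  obtain ⟨T₀, X₁, hT₀, hX₁⟩ := hpms δ hδ hδ1
  obtain ⟨v₀, hv₀⟩ := hcard (L * H) hLH
  obtain ⟨j₀, hj₀⟩ := hwt (K * (L * H)) hJ
  refine ⟨T₀, max X₁ (Real.exp (1 + 1 / θ + v₀ / θ + (j₀ + 1) / δ)), hT₀, ?_⟩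
  intro X hX
  have hXa : X₁ ≤ X := (le_max_left _ _).trans hX
  have hXb : Real.exp (1 + 1 / θ + v₀ / θ + (j₀ + 1) / δ) ≤ X := (le_max_right _ _).trans hX
  have hX0 : 0 < X := (Real.exp_pos _).trans_le hXb
  obtain ⟨l, hl⟩ : ∃ l : ℝ, l = Real.log X := ⟨_, rfl⟩
  have hl0 : 1 + 1 / θ + v₀ / θ + (j₀ + 1) / δ ≤ l := by
    rw [hl]; exact (Real.le_log_iff_exp_le hX0).mpr hXb
  have hv₀' : (0 : ℝ) ≤ v₀ := Nat.cast_nonneg _
  have hj₀' : (0 : ℝ) ≤ j₀ := Nat.cast_nonneg _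
  have p1 : 0 < 1 / θ := by positivity
  have p2 : 0 ≤ v₀ / θ := by positivity
  have p3 : 0 < (j₀ + 1) / δ := by positivity
  have hl1 : 1 ≤ l := by linarith
  have hlθ : 1 ≤ θ * l := by
    have h : 1 / θ ≤ l := by linarith
    rw [div_le_iff₀ hθ] at h
    linarith
  have hlv : (v₀ : ℝ) ≤ θ * l := by
    have h : v₀ / θ ≤ l := by linarith
    rw [div_le_iff₀ hθ] at h
    linarith
  have hlj : (j₀ : ℝ) + 1 ≤ δ * l := by
    have h : ((j₀ : ℝ) + 1) / δ ≤ l := by linarith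
    rw [div_le_iff₀ hδ] at h
    linarith
  refine ⟨by rw [← hl]; exact hl1, ?_⟩
  intro t ht1 ht2 χ
  rw [← hl]
  obtain ⟨z, hzd⟩ : ∃ z : ℕ, z = ⌊X ^ δ⌋₊ := ⟨_, rfl⟩
  have hXδ : X ^ δ = Real.exp (δ * l) := by
    rw [Real.rpow_def_of_pos hX0, ← hl, mul_comm]
  have hz1 : (z : ℝ) ≤ Real.exp (θ * l) := by
    rw [hzd]
    refine (Nat.floor_le (by positivity)).trans ?_
    rw [hXδ]
    apply Real.exp_le_exp.mpr
    exact mul_le_mul_of_nonneg_right hδ2 (by linarith)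
  have hz2 : Real.exp ((j₀ : ℝ) / ((K * (L * H) : ℕ) : ℝ)) ≤ z := by
    have h1 : Real.exp ((j₀ : ℝ) / ((K * (L * H) : ℕ) : ℝ)) ≤ Real.exp j₀ := by
      apply Real.exp_le_exp.mpr
      rw [div_le_iff₀ (by positivity)]
      nlinarith
    have h2 : Real.exp (j₀ : ℝ) + 1 ≤ X ^ δ := by
      rw [hXδ]
      have h3 : Real.exp ((j₀ : ℝ) + 1) ≤ Real.exp (δ * l) := Real.exp_le_exp.mpr hlj
      have h4 : Real.exp ((j₀ : ℝ) + 1) = Real.exp j₀ * Real.exp 1 := Real.exp_add _ _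
      have h5 : (2 : ℝ) ≤ Real.exp 1 := by
        have := Real.add_one_le_exp (1 : ℝ)
        linarith
      have h6 : (1 : ℝ) ≤ Real.exp j₀ := Real.one_le_exp hj₀'
      nlinarith
    have h7 : X ^ δ < z + 1 := by rw [hzd]; exact Nat.lt_floor_add_one _
    linarith
  have hI := hX₁ X hXa χ t ht1 ht2
  rw [← hl, ← hzd] at hI
  obtain ⟨σ, hσd⟩ : ∃ σ : ℝ, σ = 1 + 1 / l := ⟨_, rfl⟩
  rw [← hσd] at hI
  have hσ : 1 < σ := by
    rw [hσd]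
    have : 0 < 1 / l := by positivity
    linarith
  have hσ2 : σ ≤ 2 := by
    rw [hσd]
    have : 1 / l ≤ 1 := by rw [div_le_one (by linarith)]; exact hl1
    linarith
  by_cases hvv : ⌈θ * H * l⌉₊ ≤ ⌊(H : ℝ) * l⌋₊
  swap
  · rw [Finset.Ico_eq_empty (by omega), Finset.sum_empty]
    positivity
  obtain ⟨a, had⟩ : ∃ a : ℕ, a = ⌈θ * H * l⌉₊ := ⟨_, rfl⟩
  obtain ⟨b, hbd⟩ : ∃ b : ℕ, b = ⌊(H : ℝ) * l⌋₊ := ⟨_, rfl⟩
  rw [← had, ← hbd] at hvv ⊢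
  have ha1 : θ * H * l ≤ a := by rw [had]; exact Nat.le_ceil _
  have hb1 : (b : ℝ) ≤ H * l := by rw [hbd]; exact Nat.floor_le (by positivity)
  have hLa : ∀ u ∈ Ico (L * a) (L * b), θ * l * ((L * H : ℕ) : ℝ) ≤ u := by
    intro u hu
    rw [Finset.mem_Ico] at hu
    have h1 : ((L * a : ℕ) : ℝ) ≤ u := by exact_mod_cast hu.1
    push_cast at h1 ⊢
    have h2 : (L : ℝ) * (θ * H * l) ≤ L * a := mul_le_mul_of_nonneg_left ha1 (by positivity)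
    linarith
  have hLb : ∀ u ∈ Ico (L * a) (L * b), (u : ℝ) ≤ l * ((L * H : ℕ) : ℝ) := by
    intro u hu
    rw [Finset.mem_Ico] at hu
    have h1 : (u : ℝ) ≤ ((L * b : ℕ) : ℝ) := by exact_mod_cast hu.2.le
    push_cast at h1 ⊢
    have h2 : (L : ℝ) * b ≤ L * (H * l) := mul_le_mul_of_nonneg_left hb1 (by positivity)
    linarith
  have hLHr : (1 : ℝ) ≤ ((L * H : ℕ) : ℝ) := by exact_mod_cast hLH
  have hmain := zf_sum χ z K (L * H) (L * a) (L * b) σ t C Cw (θ * l) hK hLH hσ hσ2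
    (Nat.mul_le_mul_left L hvv) hlθ
    (by
      intro u hu
      rw [le_div_iff₀ (by positivity)]
      exact hLa u hu)
    hz1
    (by
      intro u hu
      apply hv₀
      have h1 := hLa u hu
      have h2 : (v₀ : ℝ) ≤ u := by nlinarith
      exact_mod_cast h2)
    (by
      intro u hu
      have h1 := hLb u hu
      have h2 : (u : ℝ) / ((L * H : ℕ) : ℝ) ≤ l := by
        rw [div_le_iff₀ (by positivity)]; exact h1
      have h3 : σ - 1 = 1 / l := by rw [hσd]; ring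
      rw [h3]
      calc 1 / l * ((u : ℝ) / ((L * H : ℕ) : ℝ)) ≤ 1 / l * l :=
            mul_le_mul_of_nonneg_left h2 (by positivity)
        _ = 1 := by field_simp)
    (fun i => hj₀ m χ z σ i hσ hz2)
  obtain ⟨G, hGd⟩ : ∃ G : ℝ, G = ((L * H : ℕ) : ℝ) := ⟨_, rfl⟩
  have hG : G = L * H := by rw [hGd]; push_cast; ring
  rw [← hGd] at hmain hLHr
  have hG0 : 0 < G := by linarith
  obtain ⟨S, hSd⟩ : ∃ S : ℝ, S = ∑ u ∈ Ico (L * a) (L * b), ‖zfQ χ (L * H) u t‖ ^ 2 := ⟨_, rfl⟩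
  rw [← hSd] at hmain
  have hsplit : ∑ v ∈ Ico a b, ‖zfQ χ H v t‖ ^ 2 ≤ Real.exp 1 ^ 2 * L * S := by
    rw [hSd, ← zf_reindex (fun u => ‖zfQ χ (L * H) u t‖ ^ 2) L a b hvv, Finset.mul_sum]
    apply Finset.sum_le_sum
    intro v _
    exact zf_split χ L H v t hL hH
  have q1 : (∫ τ : ℝ, ‖PP χ z σ (t + τ)‖ ^ 2 * gw (1 / ((K * (L * H) : ℕ) : ℝ)) τ) /
      (2 * Real.pi * G) ≤ κ * l / G := by
    rw [div_le_div_iff₀ (by positivity) hG0]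
    have hpi : (1 : ℝ) ≤ 2 * Real.pi := by
      have := Real.pi_gt_three
      linarith
    have hκl : 0 ≤ κ * l * G := by positivity
    calc _ ≤ κ * l * G := mul_le_mul_of_nonneg_right hI hG0.le
      _ = κ * l * G * 1 := by ring
      _ ≤ κ * l * G * (2 * Real.pi) := mul_le_mul_of_nonneg_left hpi hκl
      _ = _ := by ring
  have q2 : 4 * Cw ^ 2 / (K * G : ℝ) ^ 2 ≤ κ / G ^ 2 := by
    rw [div_le_div_iff₀ (by positivity) (by positivity), mul_pow]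
    calc 4 * Cw ^ 2 * G ^ 2 ≤ κ * (K : ℝ) ^ 2 * G ^ 2 :=
          mul_le_mul_of_nonneg_right hKC (by positivity)
      _ = _ := by ring
  have q3 : 4 * C ^ 2 / G ^ 4 ≤ κ / G ^ 2 := by
    rw [div_le_div_iff₀ (by positivity) (by positivity)]
    have h1 : (L : ℝ) ^ 2 ≤ G ^ 2 := by
      apply pow_le_pow_left₀ (by positivity)
      rw [hG]
      nlinarith
    calc 4 * C ^ 2 * G ^ 2 ≤ κ * (L : ℝ) ^ 2 * G ^ 2 :=
          mul_le_mul_of_nonneg_right hLC (by positivity)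
      _ ≤ κ * G ^ 2 * G ^ 2 := by gcongr
      _ = _ := by ring
  have q4 : ((L * b : ℕ) : ℝ) - ((L * a : ℕ) : ℝ) ≤ G * l := by
    push_cast
    rw [hG]
    have h1 : (0 : ℝ) ≤ (L : ℝ) * a := by positivity
    have h2 : (L : ℝ) * b ≤ L * (H * l) := mul_le_mul_of_nonneg_left hb1 (by positivity)
    linarith
  have q5 : (θ * l) ^ 2 * S ≤ 3 * Real.exp 1 ^ 2 * (3 * κ * l / G) := by
    refine hmain.trans (mul_le_mul_of_nonneg_left ?_ (by positivity))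
    have q6 : (((L * b : ℕ) : ℝ) - ((L * a : ℕ) : ℝ)) *
        (4 * Cw ^ 2 / (K * G : ℝ) ^ 2 + 4 * C ^ 2 / G ^ 4) ≤ G * l * (κ / G ^ 2 + κ / G ^ 2) :=
      mul_le_mul q4 (add_le_add q2 q3) (by positivity) (by positivity)
    have q7 : G * l * (κ / G ^ 2 + κ / G ^ 2) = 2 * κ * l / G := by
      field_simp
      ring
    have q8 : 3 * κ * l / G = κ * l / G + 2 * κ * l / G := by ring
    rw [q8, ← q7]
    exact add_le_add q1 q6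
  refine hsplit.trans ?_
  rw [le_div_iff₀ (by linarith)]
  have hl00 : 0 < l := by linarith
  have hS0 : 0 ≤ S := by rw [hSd]; positivity
  have q9 : S ≤ 3 * Real.exp 1 ^ 2 * (3 * κ * l / G) / (θ * l) ^ 2 := by
    rw [le_div_iff₀ (by positivity)]
    linarith
  calc Real.exp 1 ^ 2 * L * S * l ≤
        Real.exp 1 ^ 2 * L * (3 * Real.exp 1 ^ 2 * (3 * κ * l / G) / (θ * l) ^ 2) * l := by gcongr
    _ = ε / H := by
        rw [hκd, hG]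
        field_simp
        ring
    _ ≤ ε := div_le_self hε.le hH'

end Pool.Agent.Lib.MP_3e612f_nt.MR
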