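import Pool.Agent.Lib.MP_3e612f_nt.MR.PMS
import Pool.Agent.Lib.MP_3e612f_nt.MR.ZFH

/-! Prime polynomials at large heights. -/

set_option autoImplicit false

namespace Pool.Agent.Lib.MP_3e612f_nt.MR

open Finset MeasureTheory

/-- Proof. Let `H' = L H` (`L` large), `λ = 1/(K H')` (`K` large natural number), `δ < θ`; `S(y) = ∑ χ(p) log p p^{-σ-it} exp(-((y - log p)/λ)^2)` over `p ≥ z`, so
`∫ |S|^2 ≤ (λ^2/2) ε₁ log X` by `planch`, `pms`. For the window `I_v = (v/H', (v+1)/H']`, `v ≥ θ H' log X - L`: with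
`m_v(p) = (1/(λ√π)) ∫_{I_v} exp(-((y - log p)/λ)^2) dy ∈ [0,1]`, `|m_v(p) - 1_{I_v}(log p)| ≤ exp(-(dist(log p, ∂I_v)/λ)^2)`, so by `pw_card`
(windows of length `λ`) `∑_p log p/p |m_v - 1| ≤ C λ`; and `log p p^{-σ} = (v/H') e^{-σ v/H'} (1 + O(1/H'))` on the window. So
`|Q'_v| ≤ C (H'/v)(|(1/λ) ∫_{I_v} S| + λ + 1/H'^2)` for `v ≤ H' log X` (`Q'_v = e^{-v/H'} ∑_{p ∈ pw H' v} χ(p) p^{-it}`), and
`∑_v |Q'_v|^2 ≤ C (θ log X)^{-2} (1/(λ^2 H')) ∫ |S|^2 + C (λ^2 + H'^{-4}) H'/(θ log X)`. The window `pw H v` is the disjoint union of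
`pw H' (L v + i)`, `i < L`, so `|Q_v|^2 ≤ e^2 L ∑_i |Q'_{Lv+i}|^2`; the total is `≤ ε/log X` with `L`, then `K`, then `ε₁`
chosen. Finally `1_{p ≡ b} = (1/φ(m)) ∑_χ χ(b)⁻¹ χ(p)`. -/
theorem zf (m : ℕ) [NeZero m] (θ : ℝ) (hθ : 0 < θ) (H : ℕ) (hH : 1 ≤ H) (ε : ℝ) (hε : 0 < ε) :
    ∃ T₀ X₀ : ℝ, 1 ≤ T₀ ∧ ∀ X : ℝ, X₀ ≤ X → ∀ t : ℝ, T₀ ≤ |t| → |t| ≤ X ^ (11 / 10 : ℝ) → ∀ b : (ZMod m)ˣ,
      ∑ v ∈ Ico ⌈θ * H * Real.log X⌉₊ ⌊(H : ℝ) * Real.log X⌋₊, ‖QQ m (b : ZMod m) H v t‖ ^ 2 ≤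
        ε / Real.log X := by
  obtain ⟨T₀, X₀, hT₀, h⟩ := zf_chi m θ hθ H hH ε hε
  refine ⟨T₀, X₀, hT₀, ?_⟩
  intro X hX t ht1 ht2 b
  obtain ⟨hl, h'⟩ := h X hX
  have hφ : 0 < m.totient := Nat.totient_pos.mpr (Nat.pos_of_ne_zero (NeZero.ne m))
  have hφ' : (0 : ℝ) < m.totient := by exact_mod_cast hφ
  have hcard : Fintype.card (DirichletCharacter ℂ m) = m.totient := by
    rw [← Nat.card_eq_fintype_card]
    exact DirichletCharacter.card_eq_totient_of_hasEnoughRootsOfUnity ℂ m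
  refine (Finset.sum_le_sum (fun v _ => zf_chars m b H v t)).trans ?_
  rw [← Finset.mul_sum, Finset.sum_comm]
  calc _ ≤ (1 / (m.totient : ℝ)) * ∑ _χ : DirichletCharacter ℂ m, ε / Real.log X := by
        apply mul_le_mul_of_nonneg_left _ (by positivity)
        apply Finset.sum_le_sum
        intro χ _
        exact h' t ht1 ht2 χ
    _ = ε / Real.log X := by
        rw [Finset.sum_const, Finset.card_univ, hcard, nsmul_eq_mul]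
        field_simp

end Pool.Agent.Lib.MP_3e612f_nt.MR
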