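import Pool.Agent.Lib.MP_3e612f_nt.MR.Gauss

/-! Gaussian smoothing of windows (for `ZF.lean`). -/

set_option autoImplicit false

namespace Pool.Agent.Lib.MP_3e612f_nt.MR

open Finset MeasureTheory

/-- Gaussian bump of width `lam` -/
noncomputable def zfE (lam x y : ℝ) : ℝ := Real.exp (-(((y - x) / lam) ^ 2))

theorem zfE_pos (lam x y : ℝ) : 0 < zfE lam x y := Real.exp_pos _

theorem zfE_le_one (lam x y : ℝ) : zfE lam x y ≤ 1 := by
  unfold zfE
  rw [Real.exp_le_one_iff]
  have := sq_nonneg ((y - x) / lam)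
  linarith

theorem zfE_symm (lam x y : ℝ) : zfE lam x y = zfE lam y x := by
  unfold zfE
  congr 2
  ring

theorem zfE_cont (lam x : ℝ) : Continuous (fun y => zfE lam x y) := by
  unfold zfE
  fun_prop

theorem zfE_eq (lam x y : ℝ) : zfE lam x y = Real.exp (-(1 / lam ^ 2) * (y - x) ^ 2) := by
  unfold zfE
  congr 1
  rw [div_pow]
  ring

theorem zfE_integrable (lam x : ℝ) (hl : 0 < lam) : Integrable (fun y => zfE lam x y) := by
  have h : Integrable (fun y : ℝ => Real.exp (-(1 / lam ^ 2) * y ^ 2)) :=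
    integrable_exp_neg_mul_sq (by positivity)
  have := h.comp_sub_right x
  simpa only [zfE_eq] using this

theorem zfE_integral (lam x : ℝ) (hl : 0 < lam) :
    ∫ y, zfE lam x y = lam * Real.sqrt Real.pi := by
  simp only [zfE_eq]
  rw [integral_sub_right_eq_self (fun y : ℝ => Real.exp (-(1 / lam ^ 2) * y ^ 2)) x,
    integral_gaussian]
  rw [div_div_eq_mul_div, div_one, Real.sqrt_mul Real.pi_pos.le, Real.sqrt_sq hl.le]
  ring

theorem zfE_half (lam a : ℝ) (hl : 0 < lam) :
    ∫ y in Set.Ioi a, zfE lam a y = lam * Real.sqrt Real.pi / 2 := by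
  have h := integral_gaussian_Ioi (1 / lam ^ 2)
  have h2 : ∫ y in Set.Ioi a, Real.exp (-(1 / lam ^ 2) * (y - a) ^ 2) =
      ∫ y in Set.Ioi (0 : ℝ), Real.exp (-(1 / lam ^ 2) * y ^ 2) := by
    rw [← integral_indicator measurableSet_Ioi, ← integral_indicator measurableSet_Ioi,
      ← integral_sub_right_eq_self
        (fun y : ℝ => (Set.Ioi (0 : ℝ)).indicator (fun y => Real.exp (-(1 / lam ^ 2) * y ^ 2)) y) a]
    congr 1
    ext y
    by_cases hy : a < y
    · rw [Set.indicator_of_mem (by exact hy), Set.indicator_of_mem (by simpa using hy)]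
    · rw [Set.indicator_of_notMem (by exact hy), Set.indicator_of_notMem (by simpa using hy)]
  simp only [zfE_eq]
  rw [h2, h]
  rw [div_div_eq_mul_div, div_one, Real.sqrt_mul Real.pi_pos.le, Real.sqrt_sq hl.le]
  ring

/-- upper tail -/
theorem zfE_tail (lam x a : ℝ) (hl : 0 < lam) (hx : x ≤ a) :
    ∫ y in Set.Ioi a, zfE lam x y ≤ lam * Real.sqrt Real.pi / 2 * zfE lam x a := by
  rw [mul_comm, ← zfE_half lam a hl, ← integral_const_mul]
  apply setIntegral_mono_on (zfE_integrable lam x hl).integrableOn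
    ((zfE_integrable lam a hl).integrableOn.const_mul _) measurableSet_Ioi
  intro y hy
  have hy' : a < y := hy
  rw [zfE_eq, zfE_eq, zfE_eq, ← Real.exp_add]
  apply Real.exp_le_exp.mpr
  have h1 : 0 ≤ 1 / lam ^ 2 := by positivity
  have h2 : (a - x) ^ 2 + (y - a) ^ 2 ≤ (y - x) ^ 2 := by nlinarith
  nlinarith [mul_le_mul_of_nonneg_left h2 h1]

theorem zfE_neg (lam x y : ℝ) : zfE lam (-x) (-y) = zfE lam x y := by
  unfold zfE
  congr 2
  ring

/-- lower tail -/
theorem zfE_tail' (lam x a : ℝ) (hl : 0 < lam) (hx : a ≤ x) :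
    ∫ y in Set.Iic a, zfE lam x y ≤ lam * Real.sqrt Real.pi / 2 * zfE lam x a := by
  have h := zfE_tail lam (-x) (-a) hl (by linarith)
  rw [zfE_neg] at h
  have h2 : ∫ y in Set.Iic a, zfE lam x y = ∫ y in Set.Ioi (-a), zfE lam (-x) y := by
    have h3 := integral_comp_neg_Iic a (fun y => zfE lam (-x) y)
    simp only [zfE_neg] at h3
    exact h3
  rw [h2]
  exact h

/-- smoothed indicator function -/
theorem zfE_window (lam x a b : ℝ) (hl : 0 < lam) (hab : a ≤ b) :
    |(∫ y in Set.Ioc a b, zfE lam x y) - (if a < x ∧ x ≤ b then lam * Real.sqrt Real.pi else 0)| ≤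
      lam * Real.sqrt Real.pi * (zfE lam x a + zfE lam x b) := by
  have hI := zfE_integrable lam x hl
  have hpos : 0 ≤ lam * Real.sqrt Real.pi := by positivity
  have hnn : 0 ≤ ∫ y in Set.Ioc a b, zfE lam x y :=
    setIntegral_nonneg measurableSet_Ioc (fun y _ => (zfE_pos lam x y).le)
  have ha := zfE_pos lam x a
  have hb := zfE_pos lam x b
  have hsub1 : ∫ y in Set.Ioc a b, zfE lam x y ≤ ∫ y in Set.Ioi a, zfE lam x y :=
    setIntegral_mono_set hI.integrableOn (Filter.Eventually.of_forall (fun y => (zfE_pos lam x y).le))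
      (Filter.Eventually.of_forall Set.Ioc_subset_Ioi_self)
  have hsub2 : ∫ y in Set.Ioc a b, zfE lam x y ≤ ∫ y in Set.Iic b, zfE lam x y :=
    setIntegral_mono_set hI.integrableOn (Filter.Eventually.of_forall (fun y => (zfE_pos lam x y).le))
      (Filter.Eventually.of_forall Set.Ioc_subset_Iic_self)
  split_ifs with hx
  · have h1 : (∫ y in Set.Iic b, zfE lam x y) + ∫ y in Set.Ioi b, zfE lam x y =
        lam * Real.sqrt Real.pi := by
      rw [intervalIntegral.integral_Iic_add_Ioi hI.integrableOn hI.integrableOn, zfE_integral lam x hl]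
    have h2 : (∫ y in Set.Iic a, zfE lam x y) + ∫ y in Set.Ioc a b, zfE lam x y =
        ∫ y in Set.Iic b, zfE lam x y := by
      rw [← setIntegral_union (Set.Iic_disjoint_Ioc le_rfl) measurableSet_Ioc hI.integrableOn
        hI.integrableOn, Set.Iic_union_Ioc_eq_Iic hab]
    have h3 := zfE_tail lam x b hl hx.2
    have h4 := zfE_tail' lam x a hl hx.1.le
    have h5 : 0 ≤ ∫ y in Set.Iic a, zfE lam x y :=
      setIntegral_nonneg measurableSet_Iic (fun y _ => (zfE_pos lam x y).le)
    have h6 : 0 ≤ ∫ y in Set.Ioi b, zfE lam x y :=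
      setIntegral_nonneg measurableSet_Ioi (fun y _ => (zfE_pos lam x y).le)
    have h7 : 0 ≤ lam * Real.sqrt Real.pi * zfE lam x a := by positivity
    have h8 : 0 ≤ lam * Real.sqrt Real.pi * zfE lam x b := by positivity
    rw [abs_le]
    constructor <;> nlinarith
  · have h7 : 0 ≤ lam * Real.sqrt Real.pi * zfE lam x a := by positivity
    have h8 : 0 ≤ lam * Real.sqrt Real.pi * zfE lam x b := by positivity
    rw [sub_zero, abs_of_nonneg hnn]
    by_cases hxa : a < x
    · have hxb : b ≤ x := by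
        by_contra hcon
        push Not at hcon
        exact hx ⟨hxa, hcon.le⟩
      have h4 := zfE_tail' lam x b hl hxb
      nlinarith
    · push Not at hxa
      have h3 := zfE_tail lam x a hl hxa
      nlinarith

end Pool.Agent.Lib.MP_3e612f_nt.MR
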