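import Pool.Agent.Lib.MP_3e612f_nt.MR.ZFA

/-! The smoothed sum (for `ZF.lean`). -/

set_option autoImplicit false

namespace Pool.Agent.Lib.MP_3e612f_nt.MR

open Finset MeasureTheory

/-- the smoothed sum -/
noncomputable def zfS (b : ℕ → ℂ) (lam y : ℝ) : ℂ :=
  ∑' n, b n * ((Real.exp (-(((y - Real.log n) / lam) ^ 2)) : ℝ) : ℂ)

theorem zfS_eq (b : ℕ → ℂ) (lam y : ℝ) :
    zfS b lam y = ∑' n, b n * ((zfE lam (Real.log n) y : ℝ) : ℂ) := rfl

theorem zfS_term (b : ℕ → ℂ) (lam y : ℝ) (n : ℕ) :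
    ‖b n * ((zfE lam (Real.log n) y : ℝ) : ℂ)‖ = ‖b n‖ * zfE lam (Real.log n) y := by
  rw [norm_mul, Complex.norm_real, Real.norm_of_nonneg (zfE_pos _ _ _).le]

theorem zfS_cont (b : ℕ → ℂ) (hb : Summable (fun n => ‖b n‖)) (lam : ℝ) :
    Continuous (zfS b lam) := by
  unfold zfS
  apply continuous_tsum (u := fun n => ‖b n‖)
  · intro n
    exact continuous_const.mul (Complex.continuous_ofReal.comp (zfE_cont lam (Real.log n)))
  · exact hb
  · intro n y
    have := zfS_term b lam y n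
    unfold zfE at this
    rw [this]
    have h1 := zfE_le_one lam (Real.log n) y
    unfold zfE at h1
    exact mul_le_of_le_one_right (norm_nonneg _) h1

theorem zfS_summable (b : ℕ → ℂ) (hb : Summable (fun n => ‖b n‖)) (lam y : ℝ) :
    Summable (fun n => ‖b n‖ * zfE lam (Real.log n) y) :=
  Summable.of_nonneg_of_le (fun n => mul_nonneg (norm_nonneg _) (zfE_pos _ _ _).le)
    (fun n => mul_le_of_le_one_right (norm_nonneg _) (zfE_le_one _ _ _)) hb

theorem zfS_norm_le (b : ℕ → ℂ) (hb : Summable (fun n => ‖b n‖)) (lam y : ℝ) :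
    ‖zfS b lam y‖ ≤ ∑' n, ‖b n‖ * zfE lam (Real.log n) y := by
  rw [zfS_eq]
  have h := zfS_summable b hb lam y
  simp only [← zfS_term] at h ⊢
  exact norm_tsum_le_tsum_norm h

theorem zfG_integrable (b : ℕ → ℂ) (hb : Summable (fun n => ‖b n‖)) (lam : ℝ) (hl : 0 < lam) :
    Integrable (fun y => ∑' n, ‖b n‖ * zfE lam (Real.log n) y) := by
  have hc : Continuous (fun y => ∑' n, ‖b n‖ * zfE lam (Real.log n) y) := by
    apply continuous_tsum (u := fun n => ‖b n‖)
    · intro n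
      exact continuous_const.mul (zfE_cont lam (Real.log n))
    · exact hb
    · intro n y
      rw [Real.norm_of_nonneg (mul_nonneg (norm_nonneg _) (zfE_pos _ _ _).le)]
      exact mul_le_of_le_one_right (norm_nonneg _) (zfE_le_one _ _ _)
  refine ⟨hc.aestronglyMeasurable, ?_⟩
  unfold HasFiniteIntegral
  have h1 : ∀ y : ℝ, ‖∑' n, ‖b n‖ * zfE lam (Real.log n) y‖ₑ =
      ∑' n, ENNReal.ofReal (‖b n‖ * zfE lam (Real.log n) y) := by
    intro y
    have hnn : ∀ n, 0 ≤ ‖b n‖ * zfE lam (Real.log n) y :=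
      fun n => mul_nonneg (norm_nonneg _) (zfE_pos _ _ _).le
    rw [Real.enorm_of_nonneg (tsum_nonneg hnn),
      ENNReal.ofReal_tsum_of_nonneg hnn (zfS_summable b hb lam y)]
  simp only [h1]
  rw [lintegral_tsum (f := fun (n : ℕ) (y : ℝ) => ENNReal.ofReal (‖b n‖ * zfE lam (Real.log n) y))
    (fun n => ((continuous_const.mul
    (zfE_cont lam (Real.log n))).measurable.ennreal_ofReal).aemeasurable)]
  have h2 : ∀ n, ∫⁻ y, ENNReal.ofReal (‖b n‖ * zfE lam (Real.log n) y) =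
      ENNReal.ofReal (‖b n‖ * (lam * Real.sqrt Real.pi)) := by
    intro n
    rw [← ofReal_integral_eq_lintegral_ofReal ((zfE_integrable lam _ hl).const_mul _)
      (Filter.Eventually.of_forall (fun y => mul_nonneg (norm_nonneg _) (zfE_pos _ _ _).le)),
      integral_const_mul, zfE_integral lam _ hl]
  simp only [h2]
  rw [← ENNReal.ofReal_tsum_of_nonneg (fun n => by positivity) (hb.mul_right _)]
  exact ENNReal.ofReal_lt_top

theorem zfS_sq_integrable (b : ℕ → ℂ) (hb : Summable (fun n => ‖b n‖)) (lam : ℝ) (hl : 0 < lam) :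
    Integrable (fun y => ‖zfS b lam y‖ ^ 2) := by
  refine ((zfG_integrable b hb lam hl).const_mul (∑' n, ‖b n‖)).mono'
    ((zfS_cont b hb lam).norm.pow 2).aestronglyMeasurable (Filter.Eventually.of_forall ?_)
  intro y
  rw [Real.norm_of_nonneg (by positivity), sq]
  have h1 := zfS_norm_le b hb lam y
  have h2 : ∑' n, ‖b n‖ * zfE lam (Real.log n) y ≤ ∑' n, ‖b n‖ :=
    (zfS_summable b hb lam y).tsum_le_tsum
      (fun n => mul_le_of_le_one_right (norm_nonneg _) (zfE_le_one _ _ _)) hb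
  have h3 : 0 ≤ ∑' n, ‖b n‖ := tsum_nonneg (fun n => norm_nonneg _)
  exact mul_le_mul (h1.trans h2) h1 (norm_nonneg _) h3

theorem zfS_int (b : ℕ → ℂ) (hb : Summable (fun n => ‖b n‖)) (lam : ℝ) (hl : 0 < lam) (α β : ℝ) :
    ∫ y in Set.Ioc α β, zfS b lam y =
      ∑' n, b n * ((∫ y in Set.Ioc α β, zfE lam (Real.log n) y : ℝ) : ℂ) := by
  simp only [zfS_eq]
  rw [← integral_tsum_of_summable_integral_norm]
  · congr 1
    ext n
    rw [integral_const_mul, integral_complex_ofReal]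
  · intro n
    exact ((zfE_integrable lam (Real.log n) hl).ofReal.const_mul (b n)).integrableOn
  · simp only [zfS_term]
    refine Summable.of_nonneg_of_le (fun n => setIntegral_nonneg measurableSet_Ioc
      (fun y _ => mul_nonneg (norm_nonneg _) (zfE_pos _ _ _).le)) (fun n => ?_)
      (hb.mul_right (lam * Real.sqrt Real.pi))
    rw [integral_const_mul]
    apply mul_le_mul_of_nonneg_left _ (norm_nonneg _)
    rw [← zfE_integral lam (Real.log n) hl]
    exact setIntegral_le_integral (zfE_integrable lam _ hl)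
      (Filter.Eventually.of_forall (fun y => (zfE_pos _ _ _).le))

theorem zfS_window (b : ℕ → ℂ) (hb : Summable (fun n => ‖b n‖)) (lam : ℝ) (hl : 0 < lam)
    (α β : ℝ) (hαβ : α ≤ β) :
    ‖(∫ y in Set.Ioc α β, zfS b lam y) - ((lam * Real.sqrt Real.pi : ℝ) : ℂ) *
        ∑' n : ℕ, (if α < Real.log n ∧ Real.log n ≤ β then b n else 0)‖ ≤
      lam * Real.sqrt Real.pi *
        ((∑' n, ‖b n‖ * zfE lam (Real.log n) α) + ∑' n, ‖b n‖ * zfE lam (Real.log n) β) := by
  have hK : 0 ≤ lam * Real.sqrt Real.pi := by positivity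
  have hM : ∀ n : ℕ, 0 ≤ ∫ y in Set.Ioc α β, zfE lam (Real.log n) y := fun n =>
    setIntegral_nonneg measurableSet_Ioc (fun y _ => (zfE_pos lam _ y).le)
  have hM' : ∀ n : ℕ, ∫ y in Set.Ioc α β, zfE lam (Real.log n) y ≤ lam * Real.sqrt Real.pi := by
    intro n
    rw [← zfE_integral lam (Real.log n) hl]
    exact setIntegral_le_integral (zfE_integrable lam _ hl)
      (Filter.Eventually.of_forall (fun y => (zfE_pos _ _ _).le))
  have h1 : Summable (fun n : ℕ => b n * ((∫ y in Set.Ioc α β, zfE lam (Real.log n) y : ℝ) : ℂ)) := by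
    apply Summable.of_norm
    refine Summable.of_nonneg_of_le (fun n => norm_nonneg _) (fun n => ?_)
      (hb.mul_right (lam * Real.sqrt Real.pi))
    rw [norm_mul, Complex.norm_real, Real.norm_of_nonneg (hM n)]
    exact mul_le_mul_of_nonneg_left (hM' n) (norm_nonneg _)
  have h2 : Summable (fun n : ℕ => ((lam * Real.sqrt Real.pi : ℝ) : ℂ) *
      (if α < Real.log n ∧ Real.log n ≤ β then b n else 0)) := by
    apply Summable.mul_left
    apply Summable.of_norm
    refine Summable.of_nonneg_of_le (fun n => norm_nonneg _) (fun n => ?_) hb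
    split_ifs
    · exact le_rfl
    · rw [norm_zero]; exact norm_nonneg _
  rw [zfS_int b hb lam hl, ← tsum_mul_left, ← h1.tsum_sub h2, mul_add, ← tsum_mul_left,
    ← tsum_mul_left, ← Summable.tsum_add ((zfS_summable b hb lam α).mul_left _)
      ((zfS_summable b hb lam β).mul_left _)]
  have h3 : ∀ n : ℕ, ‖b n * ((∫ y in Set.Ioc α β, zfE lam (Real.log n) y : ℝ) : ℂ) -
      ((lam * Real.sqrt Real.pi : ℝ) : ℂ) * (if α < Real.log n ∧ Real.log n ≤ β then b n else 0)‖ ≤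
      lam * Real.sqrt Real.pi * (‖b n‖ * zfE lam (Real.log n) α) +
        lam * Real.sqrt Real.pi * (‖b n‖ * zfE lam (Real.log n) β) := by
    intro n
    have h4 := zfE_window lam (Real.log n) α β hl hαβ
    have h5 : b n * ((∫ y in Set.Ioc α β, zfE lam (Real.log n) y : ℝ) : ℂ) -
      ((lam * Real.sqrt Real.pi : ℝ) : ℂ) * (if α < Real.log n ∧ Real.log n ≤ β then b n else 0) =
      b n * (((∫ y in Set.Ioc α β, zfE lam (Real.log n) y) -
        (if α < Real.log n ∧ Real.log n ≤ β then lam * Real.sqrt Real.pi else 0) : ℝ) : ℂ) := by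
      split_ifs
      · push_cast; ring
      · push_cast; ring
    rw [h5, norm_mul, Complex.norm_real, Real.norm_eq_abs]
    calc ‖b n‖ * _ ≤ ‖b n‖ * (lam * Real.sqrt Real.pi *
          (zfE lam (Real.log n) α + zfE lam (Real.log n) β)) :=
          mul_le_mul_of_nonneg_left h4 (norm_nonneg _)
      _ = _ := by ring
  have h6 : Summable (fun n : ℕ => lam * Real.sqrt Real.pi * (‖b n‖ * zfE lam (Real.log n) α) +
        lam * Real.sqrt Real.pi * (‖b n‖ * zfE lam (Real.log n) β)) :=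
    ((zfS_summable b hb lam α).mul_left _).add ((zfS_summable b hb lam β).mul_left _)
  exact tsum_of_norm_bounded h6.hasSum h3

/-- Cauchy-Schwarz on an interval -/
theorem zf_cs (f : ℝ → ℂ) (hf : Continuous f) (α β : ℝ) (hαβ : α < β) :
    ‖∫ y in Set.Ioc α β, f y‖ ^ 2 ≤ (β - α) * ∫ y in Set.Ioc α β, ‖f y‖ ^ 2 := by
  have hl : 0 < β - α := by linarith
  have hi1 : IntegrableOn (fun y => ‖f y‖) (Set.Ioc α β) :=
    (hf.norm.integrableOn_Icc).mono_set Set.Ioc_subset_Icc_self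
  have hi2 : IntegrableOn (fun y => ‖f y‖ ^ 2) (Set.Ioc α β) :=
    ((hf.norm.pow 2).integrableOn_Icc).mono_set Set.Ioc_subset_Icc_self
  set A := ∫ y in Set.Ioc α β, ‖f y‖ with hA
  have h1 : ‖∫ y in Set.Ioc α β, f y‖ ≤ A := norm_integral_le_integral_norm _
  have hA0 : 0 ≤ A := integral_nonneg (fun y => norm_nonneg _)
  set c := A / (β - α) with hc
  have h2 : 0 ≤ ∫ y in Set.Ioc α β, (‖f y‖ - c) ^ 2 := integral_nonneg (fun y => sq_nonneg _)
  have h3 : ∫ y in Set.Ioc α β, (‖f y‖ - c) ^ 2 =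
      (∫ y in Set.Ioc α β, ‖f y‖ ^ 2) - 2 * c * A + (β - α) * c ^ 2 := by
    have : ∀ y, (‖f y‖ - c) ^ 2 = ‖f y‖ ^ 2 - 2 * c * ‖f y‖ + c ^ 2 := fun y => by ring
    simp only [this]
    have e1 : ∫ y in Set.Ioc α β, (‖f y‖ ^ 2 - 2 * c * ‖f y‖ + c ^ 2) =
        (∫ y in Set.Ioc α β, (‖f y‖ ^ 2 - 2 * c * ‖f y‖)) + ∫ y in Set.Ioc α β, c ^ 2 :=
      integral_add (hi2.sub (hi1.const_mul (2 * c))) (integrableOn_const (by simp))
    have e2 : ∫ y in Set.Ioc α β, (‖f y‖ ^ 2 - 2 * c * ‖f y‖) =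
        (∫ y in Set.Ioc α β, ‖f y‖ ^ 2) - ∫ y in Set.Ioc α β, 2 * c * ‖f y‖ :=
      integral_sub hi2 (hi1.const_mul (2 * c))
    rw [e1, e2, integral_const_mul, ← hA]
    simp [hαβ.le]
  have h4 : c * (β - α) = A := div_mul_cancel₀ _ hl.ne'
  have h5 : ‖∫ y in Set.Ioc α β, f y‖ ^ 2 ≤ A ^ 2 := pow_le_pow_left₀ (norm_nonneg _) h1 2
  have h6 : A ^ 2 ≤ (β - α) * ∫ y in Set.Ioc α β, ‖f y‖ ^ 2 := by
    have h7 : 0 ≤ (∫ y in Set.Ioc α β, ‖f y‖ ^ 2) - c * A := by
      have : (β - α) * c ^ 2 = c * A := by rw [← h4]; ring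
      nlinarith
    have h8 := mul_le_mul_of_nonneg_left (sub_nonneg.mp h7) hl.le
    calc A ^ 2 = (β - α) * (c * A) := by rw [← h4]; ring
      _ ≤ _ := h8
  exact h5.trans h6

end Pool.Agent.Lib.MP_3e612f_nt.MR
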