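import Pool.Agent.Lib.MP_3e612f_nt.MR.ZFB
import Pool.Agent.Lib.MP_3e612f_nt.MR.FDef
import Pool.Agent.Lib.MP_3e612f_nt.MR.Pw

/-! Window sums over primes (for `ZF.lean`). -/

set_option autoImplicit false

namespace Pool.Agent.Lib.MP_3e612f_nt.MR

open Finset MeasureTheory

theorem zf_mem_pw (H v p : ℕ) (_hH : 1 ≤ H) : p ∈ pw H v ↔
    p.Prime ∧ (v : ℝ) / H < Real.log p ∧ Real.log p ≤ ((v : ℝ) + 1) / H := by
  unfold pw
  rw [Finset.mem_filter, Finset.mem_Icc]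
  constructor
  · rintro ⟨⟨h1, h2⟩, h3, h4⟩
    have hp : (0 : ℝ) < p := by exact_mod_cast h3.pos
    refine ⟨h3, ?_, ?_⟩
    · rwa [Real.lt_log_iff_exp_lt hp]
    · rw [Real.log_le_iff_le_exp hp]
      exact (Nat.le_floor_iff (Real.exp_pos _).le).mp h2
  · rintro ⟨h3, h4, h5⟩
    have hp : (0 : ℝ) < p := by exact_mod_cast h3.pos
    refine ⟨⟨h3.one_lt.le, ?_⟩, h3, ?_⟩
    · rw [Nat.le_floor_iff (Real.exp_pos _).le, ← Real.log_le_iff_le_exp hp]
      exact h5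
    · rwa [← Real.lt_log_iff_exp_lt hp]

theorem zf_pw_disj (H : ℕ) (hH : 1 ≤ H) (u v : ℕ) (huv : u ≠ v) : Disjoint (pw H u) (pw H v) := by
  rw [Finset.disjoint_left]
  intro p hp hq
  rw [zf_mem_pw H _ _ hH] at hp hq
  have hH' : (0 : ℝ) < H := by exact_mod_cast hH
  apply huv
  have h1 : (u : ℝ) / H < ((v : ℝ) + 1) / H := hp.2.1.trans_le hq.2.2
  have h2 : (v : ℝ) / H < ((u : ℝ) + 1) / H := hq.2.1.trans_le hp.2.2
  rw [div_lt_div_iff_of_pos_right hH'] at h1 h2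
  have h3 : u < v + 1 := by exact_mod_cast h1
  have h4 : v < u + 1 := by exact_mod_cast h2
  omega

theorem zf_geo (i N : ℕ) : ∑ j ∈ range N, (1 / 2 : ℝ) ^ ((i - j) + (j - i)) ≤ 4 := by
  have h1 : ∑ j ∈ range N, (1 / 2 : ℝ) ^ ((i - j) + (j - i)) ≤
      ∑ j ∈ range (i + N), (1 / 2 : ℝ) ^ ((i - j) + (j - i)) :=
    Finset.sum_le_sum_of_subset_of_nonneg (Finset.range_subset_range.mpr (by omega))
      (fun j _ _ => by positivity)
  have h2 : ∀ k : ℕ, ∑ j ∈ range k, (1 / 2 : ℝ) ^ j ≤ 2 := by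
    intro k
    have := geom_sum_eq (show (1 / 2 : ℝ) ≠ 1 by norm_num) k
    rw [this]
    have h3 : 0 < (1 / 2 : ℝ) ^ k := by positivity
    rw [div_le_iff_of_neg (by norm_num)]
    linarith
  rw [Finset.sum_range_add] at h1
  have h3 : ∑ j ∈ range i, (1 / 2 : ℝ) ^ ((i - j) + (j - i)) ≤ 2 := by
    rw [← Finset.sum_range_reflect]
    refine le_trans (Finset.sum_le_sum ?_) (h2 i)
    intro j hj
    rw [Finset.mem_range] at hj
    apply pow_le_pow_of_le_one (by norm_num) (by norm_num)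
    omega
  have h4 : ∑ j ∈ range N, (1 / 2 : ℝ) ^ ((i - (i + j)) + ((i + j) - i)) ≤ 2 := by
    refine le_trans (Finset.sum_le_sum ?_) (h2 N)
    intro j hj
    apply pow_le_pow_of_le_one (by norm_num) (by norm_num)
    omega
  linarith

theorem zf_bump (J i j : ℕ) (hJ : 1 ≤ J) (x : ℝ) (h1 : (j : ℝ) / J < x) (h2 : x ≤ ((j : ℝ) + 1) / J) :
    zfE (1 / J) x ((i : ℝ) / J) ≤ 2 * (1 / 2 : ℝ) ^ ((i - j) + (j - i)) := by
  have hJ' : (0 : ℝ) < J := by exact_mod_cast hJ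
  rw [div_lt_iff₀ hJ'] at h1
  rw [le_div_iff₀ hJ'] at h2
  unfold zfE
  have e1 : ((i : ℝ) / J - x) / (1 / J) = i - x * J := by
    field_simp
  rw [e1]
  set d := (i - j) + (j - i) with hd
  rcases Nat.eq_zero_or_pos d with h0 | hpos
  · rw [h0]
    have : Real.exp (-((i - x * J) ^ 2)) ≤ 1 := by
      rw [Real.exp_le_one_iff]
      have := sq_nonneg ((i : ℝ) - x * J)
      linarith
    linarith
  · obtain ⟨e, he⟩ : ∃ e, d = e + 1 := ⟨d - 1, by omega⟩
    rw [he, show (1 / 2 : ℝ) ^ (e + 1) = (1 / 2) ^ e * (1 / 2) from pow_succ _ _]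
    have h3 : (e : ℝ) ^ 2 ≤ (i - x * J) ^ 2 := by
      rcases le_total i j with hij | hij
      · have h4 : (j : ℝ) = i + (e + 1) := by
          have : j = i + (e + 1) := by omega
          rw [this]; push_cast; ring
        nlinarith [Nat.cast_nonneg (α := ℝ) e]
      · have h4 : (i : ℝ) = j + (e + 1) := by
          have : i = j + (e + 1) := by omega
          rw [this]; push_cast; ring
        nlinarith [Nat.cast_nonneg (α := ℝ) e]
    have h5 : (e : ℝ) ≤ (e : ℝ) ^ 2 := by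
      rcases Nat.eq_zero_or_pos e with h | h
      · rw [h]; norm_num
      · have : (1 : ℝ) ≤ e := by exact_mod_cast h
        nlinarith
    have h6 : Real.exp (-((i - x * J) ^ 2)) ≤ Real.exp (-(e : ℝ)) := by
      apply Real.exp_le_exp.mpr
      linarith
    have h7 : Real.exp (-(e : ℝ)) ≤ (1 / 2 : ℝ) ^ e := by
      rw [show -(e : ℝ) = e * (-1) by ring, Real.exp_nat_mul]
      apply pow_le_pow_left₀ (Real.exp_pos _).le
      rw [Real.exp_neg, one_div]
      apply inv_anti₀ (by norm_num)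
      have := Real.add_one_le_exp (1 : ℝ)
      linarith
    linarith

theorem zf_pc_le {m : ℕ} (χ : DirichletCharacter ℂ m) (z : ℕ) (σ : ℝ) (hσ : 1 < σ) (J j p : ℕ)
    (hJ : 1 ≤ J) (hp : p ∈ pw J j) :
    ‖pc χ z σ p‖ ≤ ((j : ℝ) + 1) / J * Real.exp (-((j : ℝ) / J)) := by
  rw [zf_mem_pw J j p hJ] at hp
  obtain ⟨h1, h2, h3⟩ := hp
  have hJ' : (0 : ℝ) < J := by exact_mod_cast hJ
  have hp0 : (0 : ℝ) < p := by exact_mod_cast h1.pos
  have hp1 : (1 : ℝ) ≤ p := by exact_mod_cast h1.one_lt.le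
  unfold pc
  split_ifs with h
  · rw [norm_mul]
    have e1 : ‖χ ((p : ℕ) : ZMod m)‖ ≤ 1 := DirichletCharacter.norm_le_one χ _
    have hlog : 0 ≤ Real.log p := Real.log_nonneg hp1
    have e2 : ‖(((p : ℝ) ^ (-σ) * Real.log p : ℝ) : ℂ)‖ ≤
        ((j : ℝ) + 1) / J * Real.exp (-((j : ℝ) / J)) := by
      rw [Complex.norm_real, Real.norm_of_nonneg (by positivity)]
      have e3 : (p : ℝ) ^ (-σ) ≤ Real.exp (-((j : ℝ) / J)) := by
        rw [Real.rpow_def_of_pos hp0]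
        apply Real.exp_le_exp.mpr
        nlinarith
      rw [mul_comm]
      exact mul_le_mul h3 e3 (by positivity) (by positivity)
    calc _ ≤ 1 * (((j : ℝ) + 1) / J * Real.exp (-((j : ℝ) / J))) :=
          mul_le_mul e1 e2 (norm_nonneg _) zero_le_one
      _ = _ := one_mul _
  · rw [norm_zero]; positivity

theorem zf_wt : ∃ C : ℝ, 0 < C ∧ ∀ J : ℕ, 1 ≤ J → ∃ j₀ : ℕ, ∀ (m : ℕ) (χ : DirichletCharacter ℂ m)
    (z : ℕ) (σ : ℝ) (i : ℕ), 1 < σ → Real.exp ((j₀ : ℝ) / J) ≤ z →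
    ∑' n, ‖pc χ z σ n‖ * zfE (1 / J) (Real.log n) ((i : ℝ) / J) ≤ C / J := by
  obtain ⟨C, hC, hcard⟩ := pw_card
  refine ⟨16 * C, by positivity, ?_⟩
  intro J hJ
  obtain ⟨v₀, hv₀⟩ := hcard J hJ
  have hJ' : (0 : ℝ) < J := by exact_mod_cast hJ
  refine ⟨max v₀ 1 + 1, ?_⟩
  intro m χ z σ i hσ hz
  refine (zfS_summable (pc χ z σ) (pc_summable χ z σ hσ) (1 / J) ((i : ℝ) / J)).tsum_le_of_sum_le ?_
  intro s
  set f : ℕ → ℝ := fun n => ‖pc χ z σ n‖ * zfE (1 / J) (Real.log n) ((i : ℝ) / J) with hf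
  have hf0 : ∀ n, 0 ≤ f n := fun n => mul_nonneg (norm_nonneg _) (zfE_pos _ _ _).le
  have h1 : ∑ n ∈ s, f n = ∑ n ∈ s.filter (fun n => n.Prime ∧ z ≤ n), f n := by
    rw [Finset.sum_filter]
    apply Finset.sum_congr rfl
    intro n _
    split_ifs with h
    · rfl
    · have : pc χ z σ n = 0 := by unfold pc; rw [if_neg h]
      simp only [hf, this, norm_zero, zero_mul]
  set N := (s.sup (fun n => ⌈(J : ℝ) * Real.log n⌉₊)) + 1 with hN
  have h2 : s.filter (fun n => n.Prime ∧ z ≤ n) ⊆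
      (range N).biUnion (fun j => (pw J j).filter (fun n => z ≤ n)) := by
    intro n hn
    rw [Finset.mem_filter] at hn
    obtain ⟨hns, hnp, hnz⟩ := hn
    have hn0 : (1 : ℝ) < n := by exact_mod_cast hnp.one_lt
    have hx : 0 < (J : ℝ) * Real.log n := mul_pos hJ' (Real.log_pos hn0)
    have hceil : 0 < ⌈(J : ℝ) * Real.log n⌉₊ := Nat.ceil_pos.mpr hx
    rw [Finset.mem_biUnion]
    refine ⟨⌈(J : ℝ) * Real.log n⌉₊ - 1, ?_, ?_⟩
    · rw [Finset.mem_range, hN]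
      have := Finset.le_sup (f := fun n : ℕ => ⌈(J : ℝ) * Real.log n⌉₊) hns
      omega
    · rw [Finset.mem_filter, zf_mem_pw J _ _ hJ]
      have e1 : ((⌈(J : ℝ) * Real.log n⌉₊ - 1 : ℕ) : ℝ) = (⌈(J : ℝ) * Real.log n⌉₊ : ℝ) - 1 := by
        rw [Nat.cast_sub (by omega)]; norm_num
      refine ⟨⟨hnp, ?_, ?_⟩, hnz⟩
      · rw [e1, div_lt_iff₀ hJ']
        have := Nat.ceil_lt_add_one hx.le
        linarith
      · rw [e1, le_div_iff₀ hJ']
        have := Nat.le_ceil ((J : ℝ) * Real.log n)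
        linarith
  have h3 : ∀ j ∈ range N, ∑ n ∈ (pw J j).filter (fun n => z ≤ n), f n ≤
      4 * C / J * (1 / 2 : ℝ) ^ ((i - j) + (j - i)) := by
    intro j _
    rcases ((pw J j).filter (fun n => z ≤ n)).eq_empty_or_nonempty with he | hne
    · rw [he, Finset.sum_empty]; positivity
    · obtain ⟨n, hn⟩ := hne
      rw [Finset.mem_filter, zf_mem_pw J _ _ hJ] at hn
      obtain ⟨⟨hnp, ha, hb⟩, hnz⟩ := hn
      have hn0 : (0 : ℝ) < n := by exact_mod_cast hnp.pos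
      have hlarge : ((max v₀ 1 + 1 : ℕ) : ℝ) / J ≤ ((j : ℝ) + 1) / J := by
        refine le_trans ?_ hb
        rw [Real.le_log_iff_exp_le hn0]
        exact hz.trans (by exact_mod_cast hnz)
      rw [div_le_div_iff_of_pos_right hJ'] at hlarge
      have hj : max v₀ 1 + 1 ≤ j + 1 := by exact_mod_cast hlarge
      have hj0 : v₀ ≤ j := by omega
      have hj1 : 1 ≤ j := by omega
      have hj1' : (1 : ℝ) ≤ j := by exact_mod_cast hj1
      have hcd := hv₀ j hj0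
      have hterm : ∀ p ∈ (pw J j).filter (fun n => z ≤ n), f p ≤
          (((j : ℝ) + 1) / J * Real.exp (-((j : ℝ) / J))) *
            (2 * (1 / 2 : ℝ) ^ ((i - j) + (j - i))) := by
        intro p hp
        rw [Finset.mem_filter] at hp
        have e1 := zf_pc_le χ z σ hσ J j p hJ hp.1
        have e2 := (zf_mem_pw J j p hJ).mp hp.1
        exact mul_le_mul e1 (zf_bump J i j hJ _ e2.2.1 e2.2.2) (zfE_pos _ _ _).le (by positivity)
      refine (Finset.sum_le_card_nsmul _ _ _ hterm).trans ?_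
      rw [nsmul_eq_mul]
      have hc2 : (((pw J j).filter (fun n => z ≤ n)).card : ℝ) ≤ C * Real.exp ((j : ℝ) / J) / j :=
        le_trans (by exact_mod_cast Finset.card_filter_le _ _) hcd
      have hexp : Real.exp ((j : ℝ) / J) * Real.exp (-((j : ℝ) / J)) = 1 := by
        rw [← Real.exp_add]; simp
      calc _ ≤ (C * Real.exp ((j : ℝ) / J) / j) * ((((j : ℝ) + 1) / J * Real.exp (-((j : ℝ) / J))) *
            (2 * (1 / 2 : ℝ) ^ ((i - j) + (j - i)))) :=
            mul_le_mul_of_nonneg_right hc2 (by positivity)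
        _ = (C / J) * (((j : ℝ) + 1) / j) * (2 * (1 / 2 : ℝ) ^ ((i - j) + (j - i))) *
            (Real.exp ((j : ℝ) / J) * Real.exp (-((j : ℝ) / J))) := by ring
        _ ≤ (C / J) * 2 * (2 * (1 / 2 : ℝ) ^ ((i - j) + (j - i))) * 1 := by
            rw [hexp]
            have : ((j : ℝ) + 1) / j ≤ 2 := by
              rw [div_le_iff₀ (by linarith)]; linarith
            gcongr
        _ = _ := by ring
  rw [h1]
  calc ∑ n ∈ s.filter (fun n => n.Prime ∧ z ≤ n), f n ≤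
        ∑ n ∈ (range N).biUnion (fun j => (pw J j).filter (fun n => z ≤ n)), f n :=
        Finset.sum_le_sum_of_subset_of_nonneg h2 (fun n _ _ => hf0 n)
    _ = ∑ j ∈ range N, ∑ n ∈ (pw J j).filter (fun n => z ≤ n), f n := by
        rw [Finset.sum_biUnion]
        intro u _ v _ huv
        exact Finset.disjoint_filter_filter (zf_pw_disj J hJ u v huv)
    _ ≤ ∑ j ∈ range N, 4 * C / J * (1 / 2 : ℝ) ^ ((i - j) + (j - i)) := Finset.sum_le_sum h3
    _ = 4 * C / J * ∑ j ∈ range N, (1 / 2 : ℝ) ^ ((i - j) + (j - i)) := by rw [Finset.mul_sum]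
    _ ≤ 4 * C / J * 4 := mul_le_mul_of_nonneg_left (zf_geo i N) (by positivity)
    _ = 16 * C / J := by ring

end Pool.Agent.Lib.MP_3e612f_nt.MR
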