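import Pool.Agent.Lib.MP_3e612f_nt.MR.ZFC

/-! The window estimate (for `ZF.lean`). -/

set_option autoImplicit false

namespace Pool.Agent.Lib.MP_3e612f_nt.MR

open Finset MeasureTheory

/-- the prime polynomial of a window with a character -/
noncomputable def zfQ {m : ℕ} (χ : DirichletCharacter ℂ m) (H v : ℕ) (t : ℝ) : ℂ :=
  ((Real.exp (-((v : ℝ) / H)) : ℝ) : ℂ) * ∑ p ∈ pw H v, χ ((p : ℕ) : ZMod m) * ph p t

theorem zf_ph_norm (n : ℕ) (t : ℝ) : ‖ph n t‖ = 1 := by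
  unfold ph
  rw [← neg_mul, ← Complex.ofReal_neg, Complex.norm_exp_ofReal_mul_I]

theorem zf_pw_split (L H v : ℕ) (hL : 1 ≤ L) (hH : 1 ≤ H) :
    pw H v = (range L).biUnion (fun i => pw (L * H) (L * v + i)) := by
  have hL' : (0 : ℝ) < L := by exact_mod_cast hL
  have hH' : (0 : ℝ) < H := by exact_mod_cast hH
  have hLH : 1 ≤ L * H := Nat.mul_pos hL hH
  ext p
  rw [Finset.mem_biUnion, zf_mem_pw H v p hH]
  constructor
  · rintro ⟨hp, h1, h2⟩
    rw [div_lt_iff₀ hH'] at h1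
    rw [le_div_iff₀ hH'] at h2
    set x := Real.log p * H * L with hx
    have h3 : (v : ℝ) * L < x := by rw [hx]; exact mul_lt_mul_of_pos_right h1 hL'
    have h4 : x ≤ ((v : ℝ) + 1) * L := by rw [hx]; exact mul_le_mul_of_nonneg_right h2 hL'.le
    have hx0 : 0 < x := lt_of_le_of_lt (by positivity) h3
    have hc : 0 < ⌈x⌉₊ := Nat.ceil_pos.mpr hx0
    have h5 : v * L < ⌈x⌉₊ := by
      rw [Nat.lt_ceil]; push_cast; exact h3
    have h6 : ⌈x⌉₊ ≤ (v + 1) * L := by
      rw [Nat.ceil_le]; push_cast; exact h4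
    refine ⟨⌈x⌉₊ - 1 - L * v, ?_, ?_⟩
    · rw [Finset.mem_range]
      have : (v + 1) * L = L * v + L := by ring
      have : v * L = L * v := by ring
      omega
    · rw [zf_mem_pw _ _ _ hLH]
      have e0 : L * v + (⌈x⌉₊ - 1 - L * v) = ⌈x⌉₊ - 1 := by
        have : v * L = L * v := by ring
        omega
      have e1 : ((⌈x⌉₊ - 1 : ℕ) : ℝ) = (⌈x⌉₊ : ℝ) - 1 := by
        rw [Nat.cast_sub (by omega)]; norm_num
      rw [e0, e1]
      push_cast
      refine ⟨hp, ?_, ?_⟩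
      · rw [div_lt_iff₀ (by positivity)]
        have := Nat.ceil_lt_add_one hx0.le
        have : Real.log p * (L * H) = x := by rw [hx]; ring
        linarith
      · rw [le_div_iff₀ (by positivity)]
        have := Nat.le_ceil x
        have : Real.log p * (L * H) = x := by rw [hx]; ring
        linarith
  · rintro ⟨i, hi, hp⟩
    rw [Finset.mem_range] at hi
    rw [zf_mem_pw _ _ _ hLH] at hp
    obtain ⟨h0, h1, h2⟩ := hp
    push_cast at h1 h2
    rw [div_lt_iff₀ (by positivity)] at h1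
    rw [le_div_iff₀ (by positivity)] at h2
    have hi' : (i : ℝ) + 1 ≤ L := by exact_mod_cast hi
    refine ⟨h0, ?_, ?_⟩
    · rw [div_lt_iff₀ hH']
      have : (v : ℝ) * L < Real.log p * H * L := by
        have := Nat.cast_nonneg (α := ℝ) i
        nlinarith
      exact lt_of_mul_lt_mul_right this hL'.le
    · rw [le_div_iff₀ hH']
      have : Real.log p * H * L ≤ ((v : ℝ) + 1) * L := by nlinarith
      exact le_of_mul_le_mul_right this hL'

theorem zf_split {m : ℕ} (χ : DirichletCharacter ℂ m) (L H v : ℕ) (t : ℝ) (hL : 1 ≤ L) (hH : 1 ≤ H) :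
    ‖zfQ χ H v t‖ ^ 2 ≤ Real.exp 1 ^ 2 * L * ∑ i ∈ range L, ‖zfQ χ (L * H) (L * v + i) t‖ ^ 2 := by
  have hL' : (0 : ℝ) < L := by exact_mod_cast hL
  have hH' : (1 : ℝ) ≤ H := by exact_mod_cast hH
  have hLH : 1 ≤ L * H := Nat.mul_pos hL hH
  have h1 : zfQ χ H v t = ∑ i ∈ range L, ((Real.exp ((i : ℝ) / (L * H)) : ℝ) : ℂ) *
      zfQ χ (L * H) (L * v + i) t := by
    unfold zfQ
    rw [zf_pw_split L H v hL hH, Finset.sum_biUnion, Finset.mul_sum]
    · apply Finset.sum_congr rfl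
      intro i _
      rw [← mul_assoc, ← Complex.ofReal_mul, ← Real.exp_add]
      congr 3
      push_cast
      field_simp
      ring
    · intro a _ b _ hab
      exact zf_pw_disj (L * H) hLH _ _ (by omega)
  have h2 : ‖zfQ χ H v t‖ ≤ Real.exp 1 * ∑ i ∈ range L, ‖zfQ χ (L * H) (L * v + i) t‖ := by
    rw [h1, Finset.mul_sum]
    refine (norm_sum_le _ _).trans (Finset.sum_le_sum ?_)
    intro i hi
    rw [Finset.mem_range] at hi
    rw [norm_mul, Complex.norm_real, Real.norm_of_nonneg (Real.exp_pos _).le]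
    apply mul_le_mul_of_nonneg_right _ (norm_nonneg _)
    apply Real.exp_le_exp.mpr
    rw [div_le_one (by positivity)]
    have : (i : ℝ) ≤ L := by exact_mod_cast hi.le
    nlinarith
  have h3 : (∑ i ∈ range L, ‖zfQ χ (L * H) (L * v + i) t‖) ^ 2 ≤
      L * ∑ i ∈ range L, ‖zfQ χ (L * H) (L * v + i) t‖ ^ 2 := by
    have := sq_sum_le_card_mul_sum_sq (s := range L)
      (f := fun i => ‖zfQ χ (L * H) (L * v + i) t‖)
    simpa using this
  calc ‖zfQ χ H v t‖ ^ 2 ≤ (Real.exp 1 * ∑ i ∈ range L, ‖zfQ χ (L * H) (L * v + i) t‖) ^ 2 :=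
        pow_le_pow_left₀ (norm_nonneg _) h2 2
    _ = Real.exp 1 ^ 2 * (∑ i ∈ range L, ‖zfQ χ (L * H) (L * v + i) t‖) ^ 2 := by ring
    _ ≤ Real.exp 1 ^ 2 * (L * ∑ i ∈ range L, ‖zfQ χ (L * H) (L * v + i) t‖ ^ 2) :=
        mul_le_mul_of_nonneg_left h3 (by positivity)
    _ = _ := by ring

theorem zf_xexp (α x η σ : ℝ) (hα : 1 ≤ α) (h1 : α < x) (h2 : x ≤ α + η) (hσ : 1 < σ) (hσ2 : σ ≤ 2) :
    |Real.exp (-σ * x) * x - α * Real.exp (-σ * α)| ≤ 2 * η * α * Real.exp (-σ * α) := by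
  have hη : 0 < η := by linarith
  have hE : 0 < Real.exp (-σ * α) := Real.exp_pos _
  have hle : Real.exp (-σ * x) ≤ Real.exp (-σ * α) := Real.exp_le_exp.mpr (by nlinarith)
  have hge : Real.exp (-σ * α) * (1 - 2 * η) ≤ Real.exp (-σ * x) := by
    have : Real.exp (-σ * x) = Real.exp (-σ * α) * Real.exp (-σ * (x - α)) := by
      rw [← Real.exp_add]; congr 1; ring
    rw [this]
    apply mul_le_mul_of_nonneg_left _ hE.le
    have h3 := Real.add_one_le_exp (-σ * (x - α))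
    nlinarith
  have hxE : 0 < Real.exp (-σ * x) := Real.exp_pos _
  rw [abs_le]
  constructor
  · have h4 : α * Real.exp (-σ * x) ≤ Real.exp (-σ * x) * x := by nlinarith
    have h5 : α * (Real.exp (-σ * α) * (1 - 2 * η)) ≤ α * Real.exp (-σ * x) :=
      mul_le_mul_of_nonneg_left hge (by linarith)
    nlinarith
  · have h4 : Real.exp (-σ * x) * x ≤ Real.exp (-σ * α) * (α + η) :=
      mul_le_mul hle h2 (by linarith) hE.le
    have h5 : η * Real.exp (-σ * α) ≤ η * α * Real.exp (-σ * α) := by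
      have : 0 < η * Real.exp (-σ * α) := by positivity
      nlinarith
    have h6 : 0 < η * α * Real.exp (-σ * α) := by positivity
    nlinarith

theorem zf_main {m : ℕ} (χ : DirichletCharacter ℂ m) (z H u : ℕ) (σ t C : ℝ) (hH : 1 ≤ H)
    (hσ : 1 < σ) (hσ2 : σ ≤ 2) (hα : 1 ≤ (u : ℝ) / H) (hz : (z : ℝ) ≤ Real.exp ((u : ℝ) / H))
    (hcard : ((pw H u).card : ℝ) ≤ C * Real.exp ((u : ℝ) / H) / u)
    (hs : (σ - 1) * ((u : ℝ) / H) ≤ 1) :
    (u : ℝ) / H * ‖zfQ χ H u t‖ ≤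
      Real.exp 1 * (‖∑ p ∈ pw H u, pc χ z σ p * ph p t‖ + 2 * C / (H : ℝ) ^ 2) := by
  have hH' : (0 : ℝ) < H := by exact_mod_cast hH
  set α := (u : ℝ) / H with hαd
  have hu0 : (0 : ℝ) < u := by
    have : 0 < (u : ℝ) / H := by linarith
    exact (div_pos_iff_of_pos_right hH').mp this
  have hαu : α / u = 1 / H := by
    rw [hαd]; field_simp
  have hE : 0 < Real.exp (-σ * α) := Real.exp_pos _
  have hC0 : 0 ≤ C * Real.exp α / u := le_trans (Nat.cast_nonneg _) hcard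
  have h1 : ∀ p ∈ pw H u, ‖pc χ z σ p * ph p t -
      ((α * Real.exp (-σ * α) : ℝ) : ℂ) * (χ ((p : ℕ) : ZMod m) * ph p t)‖ ≤
      2 * (1 / H) * α * Real.exp (-σ * α) := by
    intro p hp
    have hp' := (zf_mem_pw H u p hH).mp hp
    obtain ⟨hpp, ha, hb⟩ := hp'
    have hp0 : (0 : ℝ) < p := by exact_mod_cast hpp.pos
    have hzp : z ≤ p := by
      have : (z : ℝ) < p := lt_of_le_of_lt hz ((Real.lt_log_iff_exp_lt hp0).mp ha)
      exact_mod_cast this.le
    have e1 : pc χ z σ p = χ ((p : ℕ) : ZMod m) * (((p : ℝ) ^ (-σ) * Real.log p : ℝ) : ℂ) := by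
      unfold pc; rw [if_pos ⟨hpp, hzp⟩]
    have e2 : (p : ℝ) ^ (-σ) * Real.log p = Real.exp (-σ * Real.log p) * Real.log p := by
      rw [Real.rpow_def_of_pos hp0, mul_comm (Real.log (p : ℝ)) (-σ)]
    rw [e1, e2]
    have e3 : χ ((p : ℕ) : ZMod m) * ((Real.exp (-σ * Real.log p) * Real.log p : ℝ) : ℂ) * ph p t -
      ((α * Real.exp (-σ * α) : ℝ) : ℂ) * (χ ((p : ℕ) : ZMod m) * ph p t) =
      χ ((p : ℕ) : ZMod m) * ph p t *
        ((Real.exp (-σ * Real.log p) * Real.log p - α * Real.exp (-σ * α) : ℝ) : ℂ) := by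
      push_cast; ring
    rw [e3, norm_mul, norm_mul, zf_ph_norm, mul_one, Complex.norm_real, Real.norm_eq_abs]
    have e4 := zf_xexp α (Real.log p) (1 / H) σ hα ha (by
      rw [hαd, ← add_div]; exact hb) hσ hσ2
    have e5 : ‖χ ((p : ℕ) : ZMod m)‖ ≤ 1 := DirichletCharacter.norm_le_one χ _
    calc _ ≤ 1 * (2 * (1 / H) * α * Real.exp (-σ * α)) :=
          mul_le_mul e5 e4 (abs_nonneg _) zero_le_one
      _ = _ := one_mul _
  have h2 : ‖(∑ p ∈ pw H u, pc χ z σ p * ph p t) - ((α * Real.exp (-σ * α) : ℝ) : ℂ) *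
      ∑ p ∈ pw H u, χ ((p : ℕ) : ZMod m) * ph p t‖ ≤ 2 * C / (H : ℝ) ^ 2 := by
    rw [Finset.mul_sum, ← Finset.sum_sub_distrib]
    refine (norm_sum_le_of_le _ h1).trans ?_
    rw [Finset.sum_const, nsmul_eq_mul]
    have hee : Real.exp α * Real.exp (-σ * α) ≤ 1 := by
      rw [← Real.exp_add, Real.exp_le_one_iff]
      nlinarith
    have hCu : 0 ≤ C := by
      have h := mul_nonneg hC0 (Real.exp_pos (-α)).le
      have h' : C * Real.exp α / u * Real.exp (-α) = C / u := by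
        rw [Real.exp_neg]
        field_simp
      rw [h'] at h
      by_contra hcon
      push Not at hcon
      have := div_neg_of_neg_of_pos hcon hu0
      linarith
    calc ((pw H u).card : ℝ) * (2 * (1 / H) * α * Real.exp (-σ * α)) ≤
          (C * Real.exp α / u) * (2 * (1 / H) * α * Real.exp (-σ * α)) :=
          mul_le_mul_of_nonneg_right hcard (by positivity)
      _ = 2 * C * (1 / H) * (α / u) * (Real.exp α * Real.exp (-σ * α)) := by ring
      _ ≤ 2 * C * (1 / H) * (α / u) * 1 := by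
          apply mul_le_mul_of_nonneg_left hee
          positivity
      _ = 2 * C / (H : ℝ) ^ 2 := by
          rw [hαu]; field_simp
  set T := ∑ p ∈ pw H u, χ ((p : ℕ) : ZMod m) * ph p t with hT
  have h3 : α * Real.exp (-σ * α) * ‖T‖ ≤
      ‖∑ p ∈ pw H u, pc χ z σ p * ph p t‖ + 2 * C / (H : ℝ) ^ 2 := by
    have h4 : ‖((α * Real.exp (-σ * α) : ℝ) : ℂ) * T‖ = α * Real.exp (-σ * α) * ‖T‖ := by
      rw [norm_mul, Complex.norm_real, Real.norm_of_nonneg (by positivity)]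
    rw [← h4]
    have h5 := norm_sub_norm_le (((α * Real.exp (-σ * α) : ℝ) : ℂ) * T)
      (∑ p ∈ pw H u, pc χ z σ p * ph p t)
    rw [norm_sub_rev] at h5
    linarith
  have h6 : ‖zfQ χ H u t‖ = Real.exp (-α) * ‖T‖ := by
    unfold zfQ
    rw [norm_mul, Complex.norm_real, Real.norm_of_nonneg (Real.exp_pos _).le]
  have h7 : Real.exp (-α) ≤ Real.exp 1 * Real.exp (-σ * α) := by
    rw [← Real.exp_add]
    apply Real.exp_le_exp.mpr
    nlinarith
  rw [h6]
  calc α * (Real.exp (-α) * ‖T‖) ≤ α * ((Real.exp 1 * Real.exp (-σ * α)) * ‖T‖) := by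
        apply mul_le_mul_of_nonneg_left _ (by linarith)
        exact mul_le_mul_of_nonneg_right h7 (norm_nonneg _)
    _ = Real.exp 1 * (α * Real.exp (-σ * α) * ‖T‖) := by ring
    _ ≤ _ := mul_le_mul_of_nonneg_left h3 (Real.exp_pos _).le

end Pool.Agent.Lib.MP_3e612f_nt.MR
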