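import Pool.Agent.Lib.MP_3e612f_nt.MR.ZFD

/-! The sum over the windows (for `ZF.lean`). -/

set_option autoImplicit false

namespace Pool.Agent.Lib.MP_3e612f_nt.MR

open Finset MeasureTheory

theorem zf_tsum_window {m : ℕ} (χ : DirichletCharacter ℂ m) (z H u : ℕ) (σ t : ℝ) (hH : 1 ≤ H) :
    ∑' n : ℕ, (if (u : ℝ) / H < Real.log n ∧ Real.log n ≤ ((u : ℝ) + 1) / H then
      pc χ z σ n * ph n t else 0) = ∑ p ∈ pw H u, pc χ z σ p * ph p t := by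
  rw [tsum_eq_sum (s := pw H u)]
  · apply Finset.sum_congr rfl
    intro p hp
    have := (zf_mem_pw H u p hH).mp hp
    rw [if_pos this.2]
  · intro n hn
    split_ifs with h
    · have hnp : ¬ n.Prime := by
        intro hp
        exact hn ((zf_mem_pw H u n hH).mpr ⟨hp, h⟩)
      unfold pc
      rw [if_neg (fun h' => hnp h'.1), zero_mul]
    · rfl

theorem zf_one {m : ℕ} (χ : DirichletCharacter ℂ m) (z K H u : ℕ) (σ t C Cw : ℝ) (hK : 1 ≤ K)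
    (hH : 1 ≤ H) (hσ : 1 < σ) (hσ2 : σ ≤ 2) (hα : 1 ≤ (u : ℝ) / H)
    (hz : (z : ℝ) ≤ Real.exp ((u : ℝ) / H))
    (hcard : ((pw H u).card : ℝ) ≤ C * Real.exp ((u : ℝ) / H) / u)
    (hs : (σ - 1) * ((u : ℝ) / H) ≤ 1)
    (hw : ∀ i : ℕ, ∑' n, ‖pc χ z σ n‖ * zfE (1 / ((K * H : ℕ) : ℝ)) (Real.log n)
      ((i : ℝ) / ((K * H : ℕ) : ℝ)) ≤ Cw / ((K * H : ℕ) : ℝ)) :
    ((u : ℝ) / H * ‖zfQ χ H u t‖) ^ 2 ≤ 3 * Real.exp 1 ^ 2 * ((K : ℝ) ^ 2 * H / Real.pi *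
      (∫ y in Set.Ioc ((u : ℝ) / H) (((u : ℝ) + 1) / H),
        ‖zfS (fun n => pc χ z σ n * ph n t) (1 / ((K * H : ℕ) : ℝ)) y‖ ^ 2) +
      (4 * Cw ^ 2 / (K * H : ℝ) ^ 2 + 4 * C ^ 2 / (H : ℝ) ^ 4)) := by
  have hH' : (0 : ℝ) < H := by exact_mod_cast hH
  have hK' : (0 : ℝ) < K := by exact_mod_cast hK
  set J : ℝ := ((K * H : ℕ) : ℝ) with hJ
  have hJe : J = K * H := by rw [hJ]; push_cast; ring
  have hJ0 : 0 < J := by rw [hJe]; positivity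
  set b : ℕ → ℂ := fun n => pc χ z σ n * ph n t with hb
  have hbn : ∀ n, ‖b n‖ = ‖pc χ z σ n‖ := fun n => by
    rw [hb]; simp only []; rw [norm_mul, zf_ph_norm, mul_one]
  have hbs : Summable (fun n => ‖b n‖) := by
    simp only [hbn]; exact pc_summable χ z σ hσ
  set α := (u : ℝ) / H with hαd
  set β := ((u : ℝ) + 1) / H with hβd
  have hαβ : α < β := by rw [hαd, hβd]; gcongr; linarith
  have hβα : β - α = 1 / H := by rw [hαd, hβd]; field_simp; ring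
  have hlam : 0 < 1 / J := by positivity
  have h1 := zfS_window b hbs (1 / J) hlam α β hαβ.le
  rw [hb] at h1
  simp only [] at h1
  rw [zf_tsum_window χ z H u σ t hH] at h1
  have hwα : ∑' n, ‖b n‖ * zfE (1 / J) (Real.log n) α ≤ Cw / J := by
    have h := hw (u * K)
    simp only [hbn]
    have e : (((u * K : ℕ) : ℝ)) / J = α := by
      rw [hJe, hαd]; push_cast; field_simp
    rw [e] at h
    exact h
  have hwβ : ∑' n, ‖b n‖ * zfE (1 / J) (Real.log n) β ≤ Cw / J := by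
    have h := hw ((u + 1) * K)
    simp only [hbn]
    have e : ((((u + 1) * K : ℕ) : ℝ)) / J = β := by
      rw [hJe, hβd]; push_cast; field_simp
    rw [e] at h
    exact h
  set A := ∑ p ∈ pw H u, pc χ z σ p * ph p t with hA
  set I0 := ∫ y in Set.Ioc α β, zfS b (1 / J) y with hI0
  set κ := 1 / J * Real.sqrt Real.pi with hκ
  have hπ : 0 < Real.sqrt Real.pi := Real.sqrt_pos.mpr Real.pi_pos
  have hκ0 : 0 < κ := by rw [hκ]; positivity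
  have h2 : κ * ‖A‖ ≤ ‖I0‖ + κ * (2 * (Cw / J)) := by
    have e1 : ‖((κ : ℝ) : ℂ) * A‖ = κ * ‖A‖ := by
      rw [norm_mul, Complex.norm_real, Real.norm_of_nonneg hκ0.le]
    have e2 := norm_sub_norm_le (((κ : ℝ) : ℂ) * A) I0
    rw [norm_sub_rev, e1] at e2
    have e3 : ‖I0 - ((κ : ℝ) : ℂ) * A‖ ≤ κ * ((∑' n, ‖b n‖ * zfE (1 / J) (Real.log n) α) +
        ∑' n, ‖b n‖ * zfE (1 / J) (Real.log n) β) := h1
    have e4 : κ * ((∑' n, ‖b n‖ * zfE (1 / J) (Real.log n) α) +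
        ∑' n, ‖b n‖ * zfE (1 / J) (Real.log n) β) ≤ κ * (2 * (Cw / J)) :=
      mul_le_mul_of_nonneg_left (by linarith) hκ0.le
    linarith
  have h3 : ‖A‖ ≤ ‖I0‖ / κ + 2 * (Cw / J) := by
    have : ‖A‖ = (κ * ‖A‖) / κ := by field_simp
    rw [this]
    calc (κ * ‖A‖) / κ ≤ (‖I0‖ + κ * (2 * (Cw / J))) / κ := by gcongr
      _ = ‖I0‖ / κ + 2 * (Cw / J) := by field_simp
  have h4 := zf_main χ z H u σ t C hH hσ hσ2 hα hz hcard hs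
  have h5 : α * ‖zfQ χ H u t‖ ≤ Real.exp 1 * (‖I0‖ / κ + 2 * (Cw / J) + 2 * C / (H : ℝ) ^ 2) := by
    refine h4.trans (mul_le_mul_of_nonneg_left ?_ (Real.exp_pos _).le)
    linarith
  have h6 : ‖I0‖ ^ 2 ≤ (β - α) * ∫ y in Set.Ioc α β, ‖zfS b (1 / J) y‖ ^ 2 :=
    zf_cs (zfS b (1 / J)) (zfS_cont b hbs (1 / J)) α β hαβ
  have h7 : (‖I0‖ / κ) ^ 2 ≤ (K : ℝ) ^ 2 * H / Real.pi *
      ∫ y in Set.Ioc α β, ‖zfS b (1 / J) y‖ ^ 2 := by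
    rw [div_pow, div_le_iff₀ (by positivity)]
    have e : (K : ℝ) ^ 2 * H / Real.pi * (∫ y in Set.Ioc α β, ‖zfS b (1 / J) y‖ ^ 2) * κ ^ 2 =
        (β - α) * ∫ y in Set.Ioc α β, ‖zfS b (1 / J) y‖ ^ 2 := by
      rw [hβα, hκ, mul_pow, Real.sq_sqrt Real.pi_pos.le, hJe]
      field_simp
    rw [e]
    exact h6
  have h8 : (‖I0‖ / κ + 2 * (Cw / J) + 2 * C / (H : ℝ) ^ 2) ^ 2 ≤
      3 * ((‖I0‖ / κ) ^ 2 + (2 * (Cw / J)) ^ 2 + (2 * C / (H : ℝ) ^ 2) ^ 2) := by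
    nlinarith [sq_nonneg (‖I0‖ / κ - 2 * (Cw / J)), sq_nonneg (‖I0‖ / κ - 2 * C / (H : ℝ) ^ 2),
      sq_nonneg (2 * (Cw / J) - 2 * C / (H : ℝ) ^ 2)]
  calc (α * ‖zfQ χ H u t‖) ^ 2 ≤
        (Real.exp 1 * (‖I0‖ / κ + 2 * (Cw / J) + 2 * C / (H : ℝ) ^ 2)) ^ 2 :=
        pow_le_pow_left₀ (by positivity) h5 2
    _ = Real.exp 1 ^ 2 * (‖I0‖ / κ + 2 * (Cw / J) + 2 * C / (H : ℝ) ^ 2) ^ 2 := by ring
    _ ≤ Real.exp 1 ^ 2 * (3 * ((‖I0‖ / κ) ^ 2 + (2 * (Cw / J)) ^ 2 + (2 * C / (H : ℝ) ^ 2) ^ 2)) :=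
        mul_le_mul_of_nonneg_left h8 (by positivity)
    _ ≤ Real.exp 1 ^ 2 * (3 * (((K : ℝ) ^ 2 * H / Real.pi *
      ∫ y in Set.Ioc α β, ‖zfS b (1 / J) y‖ ^ 2) + (2 * (Cw / J)) ^ 2 +
        (2 * C / (H : ℝ) ^ 2) ^ 2)) := by gcongr
    _ = _ := by
        rw [hJe]; ring

theorem zf_sum {m : ℕ} (χ : DirichletCharacter ℂ m) (z K H U₀ U₁ : ℕ) (σ t C Cw B : ℝ) (hK : 1 ≤ K)
    (hH : 1 ≤ H) (hσ : 1 < σ) (hσ2 : σ ≤ 2) (hU : U₀ ≤ U₁) (hB : 1 ≤ B)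
    (hα : ∀ u ∈ Ico U₀ U₁, B ≤ (u : ℝ) / H)
    (hz : (z : ℝ) ≤ Real.exp B)
    (hcard : ∀ u ∈ Ico U₀ U₁, ((pw H u).card : ℝ) ≤ C * Real.exp ((u : ℝ) / H) / u)
    (hs : ∀ u ∈ Ico U₀ U₁, (σ - 1) * ((u : ℝ) / H) ≤ 1)
    (hw : ∀ i : ℕ, ∑' n, ‖pc χ z σ n‖ * zfE (1 / ((K * H : ℕ) : ℝ)) (Real.log n)
      ((i : ℝ) / ((K * H : ℕ) : ℝ)) ≤ Cw / ((K * H : ℕ) : ℝ)) :
    B ^ 2 * ∑ u ∈ Ico U₀ U₁, ‖zfQ χ H u t‖ ^ 2 ≤ 3 * Real.exp 1 ^ 2 *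
      ((∫ τ : ℝ, ‖PP χ z σ (t + τ)‖ ^ 2 * gw (1 / ((K * H : ℕ) : ℝ)) τ) / (2 * Real.pi * H) +
      ((U₁ : ℝ) - U₀) * (4 * Cw ^ 2 / (K * H : ℝ) ^ 2 + 4 * C ^ 2 / (H : ℝ) ^ 4)) := by
  have hH' : (0 : ℝ) < H := by exact_mod_cast hH
  have hK' : (0 : ℝ) < K := by exact_mod_cast hK
  set J : ℝ := ((K * H : ℕ) : ℝ) with hJ
  have hJe : J = K * H := by rw [hJ]; push_cast; ring
  have hJ0 : 0 < J := by rw [hJe]; positivity
  have hlam : 0 < 1 / J := by positivity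
  set b : ℕ → ℂ := fun n => pc χ z σ n * ph n t with hb
  have hbn : ∀ n, ‖b n‖ = ‖pc χ z σ n‖ := fun n => by
    rw [hb]; simp only []; rw [norm_mul, zf_ph_norm, mul_one]
  have hbs : Summable (fun n => ‖b n‖) := by
    simp only [hbn]; exact pc_summable χ z σ hσ
  have h1 : ∀ u ∈ Ico U₀ U₁, B ^ 2 * ‖zfQ χ H u t‖ ^ 2 ≤ 3 * Real.exp 1 ^ 2 *
      ((K : ℝ) ^ 2 * H / Real.pi *
      (∫ y in Set.Ioc ((u : ℝ) / H) (((u : ℝ) + 1) / H), ‖zfS b (1 / J) y‖ ^ 2) +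
      (4 * Cw ^ 2 / (K * H : ℝ) ^ 2 + 4 * C ^ 2 / (H : ℝ) ^ 4)) := by
    intro u hu
    have e0 := hα u hu
    have e1 := zf_one χ z K H u σ t C Cw hK hH hσ hσ2 (hB.trans e0)
      (hz.trans (Real.exp_le_exp.mpr e0)) (hcard u hu) (hs u hu) hw
    refine le_trans ?_ e1
    rw [← mul_pow]
    apply pow_le_pow_left₀ (by positivity)
    exact mul_le_mul_of_nonneg_right e0 (norm_nonneg _)
  have hint := zfS_sq_integrable b hbs (1 / J) hlam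
  have h2 : ∑ u ∈ Ico U₀ U₁, (∫ y in Set.Ioc ((u : ℝ) / H) (((u : ℝ) + 1) / H),
      ‖zfS b (1 / J) y‖ ^ 2) ≤ ∫ y, ‖zfS b (1 / J) y‖ ^ 2 := by
    have e1 : ∀ u : ℕ, (∫ y in Set.Ioc ((u : ℝ) / H) (((u : ℝ) + 1) / H),
        ‖zfS b (1 / J) y‖ ^ 2) = ∫ y in ((u : ℝ) / H)..(((u + 1 : ℕ) : ℝ) / H),
        ‖zfS b (1 / J) y‖ ^ 2 := by
      intro u
      rw [intervalIntegral.integral_of_le]
      · push_cast; rfl
      · push_cast; gcongr; linarith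
    simp only [e1]
    rw [intervalIntegral.sum_integral_adjacent_intervals_Ico (a := fun u : ℕ => (u : ℝ) / H) hU
      (fun k _ => hint.intervalIntegrable)]
    rw [intervalIntegral.integral_of_le (by gcongr)]
    exact setIntegral_le_integral hint (Filter.Eventually.of_forall (fun y => by positivity))
  have h3 : ∫ y, ‖zfS b (1 / J) y‖ ^ 2 = (1 / J) ^ 2 / 2 *
      ∫ τ : ℝ, ‖PP χ z σ (t + τ)‖ ^ 2 * gw (1 / J) τ := by
    have e1 := planch b hbs (1 / J) hlam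
    have e2 : ∀ τ : ℝ, ∑' n, b n * ph n τ = PP χ z σ (t + τ) := by
      intro τ
      unfold PP
      congr 1
      ext n
      rw [hb]
      simp only []
      rw [mul_assoc]
      congr 1
      unfold ph
      rw [← Complex.exp_add]
      congr 1
      push_cast
      ring
    simp only [e2] at e1
    exact e1
  rw [Finset.mul_sum]
  refine (Finset.sum_le_sum h1).trans ?_
  rw [← Finset.mul_sum, Finset.sum_add_distrib, ← Finset.mul_sum, Finset.sum_const, Nat.card_Ico,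
    nsmul_eq_mul, Nat.cast_sub hU]
  apply mul_le_mul_of_nonneg_left _ (by positivity)
  apply add_le_add_left
  have h4 : (K : ℝ) ^ 2 * H / Real.pi * ∑ u ∈ Ico U₀ U₁,
      (∫ y in Set.Ioc ((u : ℝ) / H) (((u : ℝ) + 1) / H), ‖zfS b (1 / J) y‖ ^ 2) ≤
      (K : ℝ) ^ 2 * H / Real.pi * ((1 / J) ^ 2 / 2 *
        ∫ τ : ℝ, ‖PP χ z σ (t + τ)‖ ^ 2 * gw (1 / J) τ) := by
    apply mul_le_mul_of_nonneg_left _ (by positivity)
    rw [← h3]; exact h2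
  refine h4.trans (le_of_eq ?_)
  rw [hJe]
  field_simp

end Pool.Agent.Lib.MP_3e612f_nt.MR
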