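import Pool.Agent.Lib.MP_3e612f_nt.MR.ZFF

/-! From the characters to the classes, and the re-indexing of the windows (for `ZF.lean`). -/

set_option autoImplicit false

namespace Pool.Agent.Lib.MP_3e612f_nt.MR

open Finset MeasureTheory

theorem zf_reindex (f : ℕ → ℝ) (L v₀ v₁ : ℕ) (hv : v₀ ≤ v₁) :
    ∑ v ∈ Ico v₀ v₁, ∑ i ∈ range L, f (L * v + i) = ∑ u ∈ Ico (L * v₀) (L * v₁), f u := by
  induction v₁, hv using Nat.le_induction with
  | base => simp
  | succ n hn ih =>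
    rw [Finset.sum_Ico_succ_top hn, ih, ← Finset.sum_Ico_consecutive f (Nat.mul_le_mul_left L hn)
      (Nat.mul_le_mul_left L (Nat.le_succ n)), Finset.sum_Ico_eq_sum_range f (L * n)]
    congr 2
    have : L * n.succ = L * n + L := by rw [Nat.succ_eq_add_one]; ring
    rw [this, Nat.add_sub_cancel_left]

theorem zf_chars (m : ℕ) [NeZero m] (b : (ZMod m)ˣ) (H v : ℕ) (t : ℝ) :
    ‖QQ m (b : ZMod m) H v t‖ ^ 2 ≤ (1 / (m.totient : ℝ)) *
      ∑ χ : DirichletCharacter ℂ m, ‖zfQ χ H v t‖ ^ 2 := by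
  have hφ : 0 < m.totient := Nat.totient_pos.mpr (Nat.pos_of_ne_zero (NeZero.ne m))
  have hφ' : (0 : ℝ) < m.totient := by exact_mod_cast hφ
  have hφc : ((m.totient : ℕ) : ℂ) ≠ 0 := by exact_mod_cast hφ.ne'
  have hcard : Fintype.card (DirichletCharacter ℂ m) = m.totient := by
    rw [← Nat.card_eq_fintype_card]
    exact DirichletCharacter.card_eq_totient_of_hasEnoughRootsOfUnity ℂ m
  have h1 : ((m.totient : ℕ) : ℂ) * QQ m (b : ZMod m) H v t =
      ∑ χ : DirichletCharacter ℂ m, χ ((b : ZMod m)⁻¹) * zfQ χ H v t := by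
    unfold QQ zfQ
    rw [Finset.sum_filter]
    simp only [Finset.mul_sum]
    rw [Finset.sum_comm]
    apply Finset.sum_congr rfl
    intro p _
    have h2 := DirichletCharacter.sum_char_inv_mul_char_eq ℂ b.isUnit ((p : ℕ) : ZMod m)
    have h3 : ∑ χ : DirichletCharacter ℂ m, χ ((b : ZMod m)⁻¹) *
        (((Real.exp (-((v : ℝ) / H)) : ℝ) : ℂ) * (χ ((p : ℕ) : ZMod m) * ph p t)) =
        (∑ χ : DirichletCharacter ℂ m, χ ((b : ZMod m)⁻¹) * χ ((p : ℕ) : ZMod m)) *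
          (((Real.exp (-((v : ℝ) / H)) : ℝ) : ℂ) * ph p t) := by
      rw [Finset.sum_mul]
      apply Finset.sum_congr rfl
      intro χ _
      ring
    rw [h3, h2]
    by_cases hb : ((p : ℕ) : ZMod m) = b
    · rw [if_pos hb, if_pos hb.symm]
    · rw [if_neg hb, if_neg (fun h => hb h.symm)]
      ring
  have h4 : (m.totient : ℝ) * ‖QQ m (b : ZMod m) H v t‖ ≤
      ∑ χ : DirichletCharacter ℂ m, ‖zfQ χ H v t‖ := by
    have e1 : ‖((m.totient : ℕ) : ℂ) * QQ m (b : ZMod m) H v t‖ =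
        (m.totient : ℝ) * ‖QQ m (b : ZMod m) H v t‖ := by
      rw [norm_mul, Complex.norm_natCast]
    rw [← e1, h1]
    refine (norm_sum_le _ _).trans (Finset.sum_le_sum ?_)
    intro χ _
    rw [norm_mul]
    calc ‖χ ((b : ZMod m)⁻¹)‖ * ‖zfQ χ H v t‖ ≤ 1 * ‖zfQ χ H v t‖ :=
          mul_le_mul_of_nonneg_right (DirichletCharacter.norm_le_one χ _) (norm_nonneg _)
      _ = _ := one_mul _
  have h5 : (∑ χ : DirichletCharacter ℂ m, ‖zfQ χ H v t‖) ^ 2 ≤
      (m.totient : ℝ) * ∑ χ : DirichletCharacter ℂ m, ‖zfQ χ H v t‖ ^ 2 := by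
    have := sq_sum_le_card_mul_sum_sq (s := (Finset.univ : Finset (DirichletCharacter ℂ m)))
      (f := fun χ => ‖zfQ χ H v t‖)
    rw [Finset.card_univ, hcard] at this
    exact this
  have h6 : ((m.totient : ℝ) * ‖QQ m (b : ZMod m) H v t‖) ^ 2 ≤
      (m.totient : ℝ) * ∑ χ : DirichletCharacter ℂ m, ‖zfQ χ H v t‖ ^ 2 :=
    (pow_le_pow_left₀ (by positivity) h4 2).trans h5
  rw [one_div, ← div_eq_inv_mul, le_div_iff₀ hφ']
  have h7 : (m.totient : ℝ) * (‖QQ m (b : ZMod m) H v t‖ ^ 2 * m.totient) ≤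
      (m.totient : ℝ) * ∑ χ : DirichletCharacter ℂ m, ‖zfQ χ H v t‖ ^ 2 := by
    refine le_trans (le_of_eq ?_) h6
    ring
  exact le_of_mul_le_mul_left h7 hφ'

end Pool.Agent.Lib.MP_3e612f_nt.MR
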